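import Pool.Agent.Lib.MP_7f581e_Sh.SpecV

/-! The places above `x = 0`. -/

set_option autoImplicit false

namespace MP7Sh

open Polynomial IntermediateField

open scoped Classical

section ded

variable {κ F : Type} [Field κ] [IsAlgClosed κ] [Field F] [Algebra κ F] {x : F}

/-- The Dedekind domain and the valuation. -/
private theorem Pla_ded (hx : Gx κ x) :
    ∃ (B : Type) (_ : CommRing B) (i : B →+* F) (P : Ideal B) (v : F → ℤ),
      Function.Injective i ∧ (∀ c : κ, ∃ b, i b = algebraMap κ F c) ∧ (∃ b ∈ P, i b = x) ∧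
      (∀ σ : F ≃ₐ[κ] F, σ x = x → ∀ b, ∃ b', i b' = σ (i b)) ∧ P.IsMaximal ∧ Ord v ∧
      (∀ b, b ≠ 0 → ∀ n : ℕ, (n : ℤ) ≤ v (i b) ↔ b ∈ P ^ n) ∧
      (∀ z, Ge v 0 z → ∃ b j, j ∉ P ∧ z * i j = i b) ∧
      (∀ z, ∃ b s, s ≠ 0 ∧ z * i s = i b) ∧
      ∀ b, ∃ c : κ, ∃ b' ∈ P, i b = algebraMap κ F c + i b' := by
  have hfinG : Finite (MulAction.stabilizer (F ≃ₐ[κ] F) x) := hx.fin
  have hinj : ∀ q : κ[X], aeval x q = 0 → q = 0 := fun q hq => (transcendental_iff.1 hx.tra) q hq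
  obtain ⟨K, hK⟩ : ∃ K : Subfield F, K = FixedPoints.subfield (MulAction.stabilizer (F ≃ₐ[κ] F) x) F :=
    ⟨_, rfl⟩
  have hmK : ∀ z : F, z ∈ K ↔ ∀ σ : F ≃ₐ[κ] F, σ x = x → σ z = z := by
    intro z
    rw [hK]
    constructor
    · intro h σ hσ
      exact h ⟨σ, hσ⟩
    · intro h σ
      exact h σ.1 σ.2
  have hsep : Algebra.IsSeparable K F := by
    rw [hK]
    infer_instance
  have hfin : FiniteDimensional K F := by
    rw [hK]
    infer_instance
  have hmem : ∀ q : κ[X], (aeval x : κ[X] →ₐ[κ] F) q ∈ K := by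
    intro q
    rw [hmK]
    intro σ hσ
    have h1 : σ (aeval x q) = aeval (σ x) q := (aeval_algHom_apply (σ : F →ₐ[κ] F) x q).symm
    rw [h1, hσ]
  let aF : Algebra κ[X] F := ((aeval x : κ[X] →ₐ[κ] F) : κ[X] →+* F).toAlgebra
  let aK : Algebra κ[X] K :=
    ((((aeval x : κ[X] →ₐ[κ] F) : κ[X] →+* F)).codRestrict K.toSubring hmem).toAlgebra
  have hst : IsScalarTower κ[X] K F := IsScalarTower.of_algebraMap_eq (fun q => rfl)
  have hfs : FaithfulSMul κ[X] K := by
    rw [faithfulSMul_iff_algebraMap_injective]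
    intro q r hqr
    have h1 : aeval x q = aeval x r := congrArg Subtype.val hqr
    have h2 : aeval x (q - r) = 0 := by rw [map_sub, h1, sub_self]
    exact sub_eq_zero.1 (hinj _ h2)
  have hfrK : IsFractionRing κ[X] K := by
    refine IsFractionRing.of_field κ[X] K (fun z => ?_)
    obtain ⟨r, s, hrs⟩ := (IntermediateField.mem_adjoin_simple_iff κ _).1
      (hx.fix z ((hmK z).1 z.2))
    exact ⟨r, s, Subtype.ext hrs⟩
  have hded : IsDedekindDomain (integralClosure κ[X] F) := integralClosure.isDedekindDomain κ[X] K F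
  have hfrB : IsFractionRing (integralClosure κ[X] F) F :=
    integralClosure.isFractionRing_of_finite_extension K F
  have hint : Algebra.IsIntegral κ[X] (integralClosure κ[X] F) := inferInstance
  have hinjB : Function.Injective (algebraMap κ[X] (integralClosure κ[X] F)) := by
    intro q r hqr
    have h1 : aeval x q = aeval x r := congrArg Subtype.val hqr
    have h2 : aeval x (q - r) = 0 := by rw [map_sub, h1, sub_self]
    exact sub_eq_zero.1 (hinj _ h2)
  have hXmax : (Ideal.span {(X : κ[X])}).IsMaximal :=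
    PrincipalIdealRing.isMaximal_of_irreducible irreducible_X
  obtain ⟨P, hPmax, hPc⟩ := Ideal.exists_ideal_over_maximal_of_isIntegral
    (S := integralClosure κ[X] F) (Ideal.span {(X : κ[X])}) (by
      rw [(RingHom.injective_iff_ker_eq_bot _).1 hinjB]
      exact bot_le)
  have hXP : algebraMap κ[X] (integralClosure κ[X] F) X ∈ P := by
    rw [← Ideal.mem_comap, hPc]
    exact Ideal.subset_span rfl
  have hPbot : P ≠ ⊥ := by
    intro h0
    rw [h0, Ideal.mem_bot] at hXP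
    exact X_ne_zero (hinjB (by rw [hXP, map_zero]))
  let w : IsDedekindDomain.HeightOneSpectrum (integralClosure κ[X] F) := ⟨P, hPmax.isPrime, hPbot⟩
  have hval0 : ∀ y : F, y ≠ 0 → w.valuation F y ≠ 0 := fun y hy => (Valuation.ne_zero_iff _).2 hy
  refine ⟨integralClosure κ[X] F, inferInstance, algebraMap (integralClosure κ[X] F) F, P,
    fun y => -WithZero.log (w.valuation F y), Subtype.val_injective, ?_, ?_, ?_, hPmax, ⟨?_, ?_⟩,
    ?_, ?_, ?_, ?_⟩
  · intro c
    refine ⟨algebraMap κ[X] (integralClosure κ[X] F) (C c), ?_⟩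
    change aeval x (C c) = _
    rw [aeval_C]
  · refine ⟨algebraMap κ[X] (integralClosure κ[X] F) X, hXP, ?_⟩
    change aeval x X = _
    rw [aeval_X]
  · intro σ hσ b
    have hb : IsIntegral κ[X] (b : F) := b.2
    have h1 : IsIntegral κ[X] (σ (b : F)) := by
      refine IsIntegral.map_of_comp_eq (RingHom.id κ[X]) ((σ : F ≃+* F) : F →+* F) ?_ hb
      ext q
      · change aeval x (C q) = σ (aeval x (C q))
        rw [aeval_C, AlgEquiv.commutes]
      · change aeval x X = σ (aeval x X)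
        rw [aeval_X, hσ]
    exact ⟨⟨σ (b : F), h1⟩, rfl⟩
  · intro y z hy hz
    rw [map_mul, WithZero.log_mul (hval0 y hy) (hval0 z hz)]
    ring
  · intro y z hy hz hyz
    rw [min_neg_neg, neg_le_neg_iff]
    rcases Valuation.map_add' (w.valuation F) y z with h1 | h1
    · exact ((WithZero.log_le_log (hval0 _ hyz) (hval0 _ hy)).2 h1).trans (le_max_left _ _)
    · exact ((WithZero.log_le_log (hval0 _ hyz) (hval0 _ hz)).2 h1).trans (le_max_right _ _)
  · intro b hb n
    have hb' : algebraMap (integralClosure κ[X] F) F b ≠ 0 := by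
      intro h0
      exact hb (Subtype.ext h0)
    have h1 : (n : ℤ) ≤ -WithZero.log (w.valuation F (algebraMap (integralClosure κ[X] F) F b)) ↔
        WithZero.log (w.valuation F (algebraMap (integralClosure κ[X] F) F b)) ≤ -(n : ℤ) := by
      constructor <;> intro h <;> linarith
    rw [h1, WithZero.log_le_iff_le_exp (hval0 _ hb'),
      IsDedekindDomain.HeightOneSpectrum.valuation_of_algebraMap,
      IsDedekindDomain.HeightOneSpectrum.intValuation_le_pow_iff_mem]
  · intro z hz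
    have h1 : w.valuation F z ≤ 1 := by
      rcases hz with rfl | hz
      · rw [map_zero]
        exact zero_le_one
      · by_cases hz0 : z = 0
        · rw [hz0, map_zero]
          exact zero_le_one
        have h2 : WithZero.log (w.valuation F z) ≤ 0 := by
          have h3 : (0 : ℤ) ≤ -WithZero.log (w.valuation F z) := hz
          linarith
        rw [WithZero.log_le_iff_le_exp (hval0 z hz0), WithZero.exp_zero] at h2
        exact h2
    obtain ⟨b, j, hbj⟩ := w.exists_primeCompl_mul_eq_of_integer z h1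
    exact ⟨b, j, j.2, hbj⟩
  · intro z
    obtain ⟨b, s, hs, hbs⟩ := IsFractionRing.div_surjective (A := integralClosure κ[X] F) z
    have hs0 : s ≠ 0 := nonZeroDivisors.ne_zero hs
    refine ⟨b, s, hs0, ?_⟩
    rw [← hbs, div_mul_cancel₀]
    intro h0
    exact hs0 (Subtype.ext h0)
  · intro b
    have hfield : IsDomain (integralClosure κ[X] F ⧸ P) := by
      have := hPmax.isPrime
      infer_instance
    let ψ : κ →+* (integralClosure κ[X] F ⧸ P) :=
      (Ideal.Quotient.mk P).comp ((algebraMap κ[X] (integralClosure κ[X] F)).comp C)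
    let aQ : Algebra κ (integralClosure κ[X] F ⧸ P) := ψ.toAlgebra
    have hq : ∀ q : κ[X], Ideal.Quotient.mk P (algebraMap κ[X] (integralClosure κ[X] F) q) =
        ψ (q.eval 0) := by
      intro q
      obtain ⟨r, hr⟩ : X ∣ q - C (q.eval 0) := by
        rw [X_dvd_iff, coeff_sub, coeff_C_zero, coeff_zero_eq_eval_zero, sub_self]
      have h1 : q = X * r + C (q.eval 0) := by rw [← hr]; ring
      conv_lhs => rw [h1]
      rw [map_add, map_mul, map_add, map_mul, Ideal.Quotient.eq_zero_iff_mem.2 hXP, zero_mul,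
        zero_add]
      rfl
    have hQint : Algebra.IsIntegral κ (integralClosure κ[X] F ⧸ P) := by
      refine ⟨fun y => ?_⟩
      obtain ⟨b, rfl⟩ := Ideal.Quotient.mk_surjective y
      obtain ⟨g, hg, hgb⟩ := hint.isIntegral b
      refine ⟨g.map (evalRingHom 0), hg.map _, ?_⟩
      have h1 : (algebraMap κ (integralClosure κ[X] F ⧸ P)).comp (evalRingHom 0) =
          (Ideal.Quotient.mk P).comp (algebraMap κ[X] (integralClosure κ[X] F)) :=
        RingHom.ext fun q => (hq q).symm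
      rw [eval₂_map, h1, ← hom_eval₂, hgb, map_zero]
    obtain ⟨c, hc⟩ := (IsAlgClosed.algebraMap_bijective_of_isIntegral (k := κ)
      (K := integralClosure κ[X] F ⧸ P)).2 (Ideal.Quotient.mk P b)
    refine ⟨c, b - algebraMap κ[X] (integralClosure κ[X] F) (C c), ?_, ?_⟩
    · rw [← Ideal.Quotient.eq_zero_iff_mem, map_sub, ← hc]
      exact sub_self _
    · rw [map_sub]
      have h1 : algebraMap (integralClosure κ[X] F) F
          (algebraMap κ[X] (integralClosure κ[X] F) (C c)) = algebraMap κ F c := by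
        change aeval x (C c) = _
        rw [aeval_C]
      rw [h1]
      ring

end ded

section val

variable {κ F : Type} [Field κ] [Field F] [Algebra κ F] {v : F → ℤ}

private theorem Pla_int (h : Kr κ v) {x : F} (hx : Ge v 0 x) (q : κ[X]) : Ge v 0 (aeval x q) := by
  induction q using Polynomial.induction_on' with
  | add p q hp hq => rw [map_add]; exact hp.add h.ord hq
  | monomial n a =>
    rw [aeval_monomial]
    exact (h.geCst a).mul_left h.ord (hx.pow0 h.ord n)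

/-- Values of polynomials at an element of the maximal ideal. -/
private theorem Pla_pol (h : Kr κ v) {x : F} (hx0 : x ≠ 0) (hx : Ge v 1 x) (q : κ[X])
    (hq : aeval x q ≠ 0) : v x ∣ v (aeval x q) := by
  have hq0 : q ≠ 0 := by
    rintro rfl
    exact hq (map_zero _)
  obtain ⟨q₁, hq₁, hq₁c⟩ := exists_eq_pow_rootMultiplicity_mul_and_not_dvd q hq0 0
  obtain ⟨n, hn⟩ : ∃ n, n = q.rootMultiplicity 0 := ⟨_, rfl⟩
  rw [← hn] at hq₁
  rw [dvd_iff_isRoot, IsRoot.def] at hq₁c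
  obtain ⟨r, hr⟩ : X ∣ q₁ - C (q₁.eval 0) := by
    rw [X_dvd_iff, coeff_sub, coeff_C_zero, coeff_zero_eq_eval_zero, sub_self]
  have h1 : aeval x q₁ = x * aeval x r + algebraMap κ F (q₁.eval 0) := by
    have h2 : q₁ = X * r + C (q₁.eval 0) := by rw [← hr]; ring
    conv_lhs => rw [h2]
    rw [map_add, map_mul, aeval_X, aeval_C]
  have h2 : Is v 0 (aeval x q₁) := by
    rw [h1]
    exact Is.ge_add h.ord (hx.mul_right h.ord (Pla_int h (hx.mono zero_le_one) r)) (h.isCst hq₁c)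
      zero_lt_one
  have h3 : aeval x q = x ^ n * aeval x q₁ := by
    conv_lhs => rw [hq₁]
    rw [map_mul, map_pow, C_0, sub_zero, aeval_X]
  have h4 := (((Is.of_ne hx0 (v := v)).pow h.ord n).mul h.ord h2).2
  rw [h3, h4, add_zero]
  exact dvd_mul_left _ _

private theorem Pla_is_prod (h : Ord v) {ι : Type} (s : Finset ι) (f : ι → F)
    (hf : ∀ a ∈ s, Is v 0 (f a)) : Is v 0 (∏ a ∈ s, f a) := by
  induction s using Finset.induction_on with
  | empty => rw [Finset.prod_empty]; exact ⟨one_ne_zero, h.one⟩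
  | insert a s ha ih =>
    rw [Finset.prod_insert ha]
    have h1 := (hf a (Finset.mem_insert_self a s)).mul h
      (ih (fun b hb => hf b (Finset.mem_insert_of_mem hb)))
    rwa [add_zero] at h1

private theorem Pla_ge_prod (h : Ord v) {ι : Type} (s : Finset ι) (f : ι → F)
    (hf : ∀ a ∈ s, Ge v 0 (f a)) : Ge v 0 (∏ a ∈ s, f a) := by
  induction s using Finset.induction_on with
  | empty => rw [Finset.prod_empty]; exact Ge.one h
  | insert a s ha ih =>
    rw [Finset.prod_insert ha]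
    exact (hf a (Finset.mem_insert_self a s)).mul_left h
      (ih (fun b hb => hf b (Finset.mem_insert_of_mem hb)))

end val

section main

variable {κ F : Type} [Field κ] [IsAlgClosed κ] [Field F] [Algebra κ F] {x : F}

/-- The approximation. -/
private theorem Pla_apx (hx : Gx κ x) {B : Type} [CommRing B] {i : B →+* F} {P : Ideal B}
    {v : F → ℤ} (hi : Function.Injective i)
    (hσ : ∀ σ : F ≃ₐ[κ] F, σ x = x → ∀ b, ∃ b', i b' = σ (i b)) (hP : P.IsMaximal)
    (hv : Ord v) (hL : ∀ b, b ≠ 0 → ∀ n : ℕ, (n : ℤ) ≤ v (i b) ↔ b ∈ P ^ n)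
    (hfr : ∀ z, ∃ b s, s ≠ 0 ∧ z * i s = i b) (N : ℕ) (hN : N ≠ 0) :
    ∃ α β : F, (∀ σ : F ≃ₐ[κ] F, σ x = x → Ge v 0 (σ α) ∧ Ge v 0 (σ β)) ∧
      (∀ σ : F ≃ₐ[κ] F, σ x = x → Dv v σ → Ge v N (σ α - 1) ∧ Ge v N (σ β)) ∧
      ∀ σ : F ≃ₐ[κ] F, σ x = x → ¬ Dv v σ → Ge v N (σ α) ∧ Ge v N (σ β - 1) := by
  have hfinG : Finite (MulAction.stabilizer (F ≃ₐ[κ] F) x) := hx.fin
  have hfG := Fintype.ofFinite (MulAction.stabilizer (F ≃ₐ[κ] F) x)
  have hσ' : ∀ σ : MulAction.stabilizer (F ≃ₐ[κ] F) x, ∀ b, ∃ b', i b' = σ.1 (i b) :=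
    fun σ b => hσ σ.1 σ.2 b
  choose s hs using hσ'
  let φ : MulAction.stabilizer (F ≃ₐ[κ] F) x → (B →+* B) := fun σ =>
    { toFun := s σ
      map_one' := hi (by rw [hs, map_one, map_one])
      map_zero' := hi (by rw [hs, map_zero, map_zero])
      map_add' := fun a b => hi (by rw [hs, map_add, map_add, map_add, hs, hs])
      map_mul' := fun a b => hi (by rw [hs, map_mul, map_mul, map_mul, hs, hs]) }
  have hφ : ∀ σ b, i (φ σ b) = σ.1 (i b) := fun σ b => hs σ b
  have hGe : ∀ (n : ℕ) (b : B), b ∈ P ^ n → Ge v n (i b) := by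
    intro n b hb
    by_cases hb0 : b = 0
    · left
      rw [hb0, map_zero]
    · exact Or.inr ((hL b hb0 n).2 hb)
  have hGe' : ∀ (n : ℕ) (b : B), Ge v n (i b) → b ∈ P ^ n := by
    intro n b hb
    by_cases hb0 : b = 0
    · rw [hb0]
      exact zero_mem _
    · refine (hL b hb0 n).1 (hb.resolve_left ?_)
      intro h0
      exact hb0 (hi (by rw [h0, map_zero]))
  have hsurj : ∀ σ, Function.Surjective (φ σ) := by
    intro σ b
    refine ⟨φ σ⁻¹ b, hi ?_⟩
    rw [hφ, hφ]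
    exact (σ.1).apply_symm_apply (i b)
  -- ideals
  obtain ⟨M, hM⟩ : ∃ M : MulAction.stabilizer (F ≃ₐ[κ] F) x → Ideal B,
      ∀ σ, M σ = P.comap (φ σ) := ⟨_, fun _ => rfl⟩
  have hMmax : ∀ σ, (M σ).IsMaximal := by
    intro σ
    rw [hM]
    exact Ideal.comap_isMaximal_of_surjective _ (hsurj σ)
  have hMpow : ∀ σ (n : ℕ) (b : B), b ∈ M σ ^ n → φ σ b ∈ P ^ n := by
    intro σ n b hb
    rw [hM] at hb
    exact Ideal.le_comap_pow (φ σ) n hb
  -- if `M σ = P` then `σ` preserves `v`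
  have hDv : ∀ σ, M σ = P → Dv v σ.1 := by
    have key : ∀ σ, M σ = P → ∀ b, b ≠ 0 → v (i b) ≤ v (σ.1 (i b)) := by
      intro σ hσP b hb
      obtain ⟨n, hn⟩ : ∃ n : ℕ, v (i b) = n := by
        have h1 : ((0 : ℕ) : ℤ) ≤ v (i b) := (hL b hb 0).2 (by rw [pow_zero, Ideal.one_eq_top]; exact Submodule.mem_top)
        exact ⟨(v (i b)).toNat, by omega⟩
      have h1 : b ∈ P ^ n := (hL b hb n).1 hn.ge
      have h2 : φ σ b ∈ P ^ n := hMpow σ n b (by rwa [hσP])
      have h3 : φ σ b ≠ 0 := by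
        intro h0
        have h4 := hφ σ b
        rw [h0, map_zero] at h4
        have h5 : i b = 0 := by
          have h6 : σ.1 (i b) = σ.1 0 := by rw [← h4, map_zero]
          exact (σ.1).injective h6
        exact hb (hi (by rw [h5, map_zero]))
      have h4 := (hL _ h3 n).2 h2
      rw [hφ] at h4
      rwa [hn]
    intro σ hσP
    have hinv : M σ⁻¹ = P := by
      ext b
      rw [hM, Ideal.mem_comap]
      constructor
      · intro h1
        rw [← hσP, hM, Ideal.mem_comap] at h1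
        have h2 : φ σ (φ σ⁻¹ b) = b := hi (by
          rw [hφ, hφ]
          exact (σ.1).apply_symm_apply (i b))
        rwa [h2] at h1
      · intro h1
        rw [← hσP, hM, Ideal.mem_comap]
        have h2 : φ σ (φ σ⁻¹ b) = b := hi (by
          rw [hφ, hφ]
          exact (σ.1).apply_symm_apply (i b))
        rwa [h2]
    have key2 : ∀ b, b ≠ 0 → v (σ.1 (i b)) = v (i b) := by
      intro b hb
      refine le_antisymm ?_ (key σ hσP b hb)
      have h3 : φ σ b ≠ 0 := by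
        intro h0
        have h4 := hφ σ b
        rw [h0, map_zero] at h4
        have h5 : i b = 0 := by
          have h6 : σ.1 (i b) = σ.1 0 := by rw [← h4, map_zero]
          exact (σ.1).injective h6
        exact hb (hi (by rw [h5, map_zero]))
      have h4 := key σ⁻¹ hinv _ h3
      rw [hφ] at h4
      have h5 : (σ⁻¹).1 (σ.1 (i b)) = i b := (σ.1).symm_apply_apply (i b)
      rwa [h5] at h4
    intro y hy
    obtain ⟨b, t, ht, hbt⟩ := hfr y
    have hit : i t ≠ 0 := by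
      intro h0
      exact ht (hi (by rw [h0, map_zero]))
    have hb : b ≠ 0 := by
      rintro rfl
      rw [map_zero] at hbt
      exact (mul_ne_zero hy hit) hbt
    have h1 := hv.mul y (i t) hy hit
    have h2 := hv.mul (σ.1 y) (σ.1 (i t)) ((map_ne_zero_iff _ (σ.1).injective).2 hy)
      ((map_ne_zero_iff _ (σ.1).injective).2 hit)
    rw [← map_mul, hbt, key2 b hb, key2 t ht, ← hbt, h1] at h2
    linarith
  have hDv' : ∀ σ, Dv v σ.1 → M σ = P := by
    intro σ hd
    have hle : M σ ≤ P := by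
      intro b hb
      rw [hM, Ideal.mem_comap] at hb
      have h1 := hGe 1 (φ σ b) (by rwa [pow_one])
      rw [hφ] at h1
      have h2 : Ge v ((1 : ℕ) : ℤ) (i b) := by
        rcases h1 with h1 | h1
        · left
          have h6 : σ.1 (i b) = σ.1 0 := by rw [h1, map_zero]
          exact (σ.1).injective h6
        · by_cases h0 : i b = 0
          · exact Or.inl h0
          · right
            rwa [hd _ h0] at h1
      have h3 := hGe' 1 b h2
      rwa [pow_one] at h3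
    exact (hMmax σ).eq_of_le hP.ne_top hle
  have hcop : IsCoprime (P ^ N) (∏ σ ∈ Finset.univ.filter (fun σ => M σ ≠ P), M σ ^ N) := by
    refine IsCoprime.prod_right (fun σ hσ => ?_)
    refine IsCoprime.pow ?_
    rw [Ideal.isCoprime_iff_sup_eq]
    exact hP.coprime_of_ne (hMmax σ) (Ne.symm (Finset.mem_filter.1 hσ).2)
  rw [Ideal.isCoprime_iff_exists] at hcop
  obtain ⟨b, hb, a, ha, hba⟩ := hcop
  have haM : ∀ σ, M σ ≠ P → a ∈ M σ ^ N := by
    intro σ hσ
    have h1 : σ ∈ Finset.univ.filter (fun σ => M σ ≠ P) :=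
      Finset.mem_filter.2 ⟨Finset.mem_univ σ, hσ⟩
    exact (Ideal.prod_le_inf.trans (Finset.inf_le h1)) ha
  refine ⟨i a, i b, ?_, ?_, ?_⟩
  · intro σ hσ
    have h1 := hGe 0 (φ ⟨σ, hσ⟩ a) (by rw [pow_zero, Ideal.one_eq_top]; exact Submodule.mem_top)
    have h2 := hGe 0 (φ ⟨σ, hσ⟩ b) (by rw [pow_zero, Ideal.one_eq_top]; exact Submodule.mem_top)
    rw [hφ] at h1 h2
    exact ⟨h1, h2⟩
  · intro σ hσ hd
    have h0 := hDv' ⟨σ, hσ⟩ hd
    have h1 := hGe N (φ ⟨σ, hσ⟩ b) (hMpow ⟨σ, hσ⟩ N b (by rwa [h0]))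
    rw [hφ] at h1
    refine ⟨?_, h1⟩
    have h2 : σ (i a) - 1 = -σ (i b) := by
      have h3 : σ (i (b + a)) = 1 := by rw [hba, map_one, map_one]
      rw [map_add, map_add] at h3
      linear_combination h3
    rw [h2]
    exact Ge.neg hv h1
  · intro σ hσ hd
    have h0 : M ⟨σ, hσ⟩ ≠ P := fun h => hd (hDv ⟨σ, hσ⟩ h)
    have h1 := hGe N (φ ⟨σ, hσ⟩ a) (hMpow ⟨σ, hσ⟩ N a (haM _ h0))
    rw [hφ] at h1
    refine ⟨h1, ?_⟩
    have h2 : σ (i b) - 1 = -σ (i a) := by
      have h3 : σ (i (b + a)) = 1 := by rw [hba, map_one, map_one]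
      rw [map_add, map_add] at h3
      linear_combination h3
    rw [h2]
    exact Ge.neg hv h1

end main

theorem tPla : S_Pla := by
  intro κ F _ _ _ _ x hx
  obtain ⟨B, _, i, P, v, hi, hcst, ⟨xB, hxB, hxi⟩, hσ, hP, hv, hL, hfr0, hfr, hres⟩ := Pla_ded hx
  have hfinG : Finite (MulAction.stabilizer (F ≃ₐ[κ] F) x) := hx.fin
  have hfG := Fintype.ofFinite (MulAction.stabilizer (F ≃ₐ[κ] F) x)
  have hx0 : x ≠ 0 := by
    rintro rfl
    exact hx.tra ⟨X, X_ne_zero, by rw [aeval_X]⟩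
  have hi0 : ∀ b, b ≠ 0 → i b ≠ 0 := by
    intro b hb h0
    exact hb (hi (by rw [h0, map_zero]))
  have hB0 : ∀ b, Ge v 0 (i b) := by
    intro b
    by_cases hb : b = 0
    · left
      rw [hb, map_zero]
    · exact Or.inr ((hL b hb 0).2 (by rw [pow_zero, Ideal.one_eq_top]; exact Submodule.mem_top))
  have hB1 : ∀ b, b ∈ P ↔ Ge v 1 (i b) := by
    intro b
    by_cases hb : b = 0
    · rw [hb, map_zero]
      exact ⟨fun _ => Ge.zero, fun _ => zero_mem _⟩
    · have h1 := hL b hb 1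
      rw [pow_one] at h1
      rw [← h1, Ge.of_ne (hi0 b hb)]
      norm_num
  have hc : ∀ c : κ, c ≠ 0 → v (algebraMap κ F c) = 0 := by
    intro c hc
    obtain ⟨b, hb⟩ := hcst c
    obtain ⟨b', hb'⟩ := hcst c⁻¹
    have h0 : algebraMap κ F c ≠ 0 := (_root_.map_ne_zero _).2 hc
    have h0' : algebraMap κ F c⁻¹ ≠ 0 := (_root_.map_ne_zero _).2 (inv_ne_zero hc)
    have h1 := hB0 b
    rw [hb, Ge.of_ne h0] at h1
    have h2 := hB0 b'
    rw [hb', Ge.of_ne h0'] at h2
    have h3 := hv.mul _ _ h0 h0'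
    rw [← map_mul, mul_inv_cancel₀ hc, map_one, hv.one] at h3
    linarith
  have hunit : ∀ j, j ∉ P → Is v 0 (i j) := by
    intro j hj
    refine Is.of_ge (hB0 j) ?_
    rw [zero_add, ← hB1]
    exact hj
  have hKr : Kr κ v := by
    refine ⟨hv, hc, fun z hz => ?_⟩
    obtain ⟨b, j, hj, hbj⟩ := hfr0 z hz
    obtain ⟨c₁, b₁, hb₁, e₁⟩ := hres b
    obtain ⟨c₂, j₁, hj₁, e₂⟩ := hres j
    have hju := hunit j hj
    have hc₂ : c₂ ≠ 0 := by
      rintro rfl
      rw [map_zero, zero_add] at e₂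
      exact hj (by rwa [hi e₂])
    have h0 : algebraMap κ F c₂ ≠ 0 := (_root_.map_ne_zero _).2 hc₂
    refine ⟨c₁ / c₂, ?_⟩
    have h1 : z - algebraMap κ F (c₁ / c₂) =
        (algebraMap κ F c₂ * i b₁ - algebraMap κ F c₁ * i j₁) / (i j * algebraMap κ F c₂) := by
      have h2 : z = i b / i j := by rw [eq_div_iff hju.1, hbj]
      rw [h2, map_div₀, div_sub_div _ _ hju.1 h0]
      congr 1
      rw [e₁, e₂]
      ring
    have hgc : ∀ c : κ, Ge v 0 (algebraMap κ F c) := by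
      intro c
      by_cases hc0 : c = 0
      · left
        rw [hc0, map_zero]
      · exact Or.inr (hc c hc0).ge
    have h2 : Is v (-(0 + 0)) (i j * algebraMap κ F c₂)⁻¹ :=
      (hju.mul hv ⟨h0, hc c₂ hc₂⟩).inv hv
    rw [add_zero, neg_zero] at h2
    rw [h1, div_eq_mul_inv]
    refine Ge.mul_right hv ?_ h2.ge
    exact Ge.sub hv ((hgc c₂).mul_left hv ((hB1 b₁).1 hb₁))
      ((hgc c₁).mul_left hv ((hB1 j₁).1 hj₁))
  have hx1 : Ge v 1 x := by
    rw [← hxi]
    exact (hB1 xB).1 hxB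
  refine ⟨v, hKr, hx0, ?_, ?_⟩
  · have h1 := hx1.resolve_left hx0
    omega
  · intro z hz hzD
    -- the bound
    obtain ⟨N, hN⟩ : ∃ N : ℕ, N = 1 + ∑ σ : MulAction.stabilizer (F ≃ₐ[κ] F) x,
        (v (σ.1 z)).natAbs := ⟨_, rfl⟩
    have hN' : ∀ σ : F ≃ₐ[κ] F, σ x = x → (v (σ z)).natAbs < N := by
      intro σ hσx
      have h1 : (v (σ z)).natAbs ≤ ∑ σ : MulAction.stabilizer (F ≃ₐ[κ] F) x,
          (v (σ.1 z)).natAbs :=
        Finset.single_le_sum (f := fun σ : MulAction.stabilizer (F ≃ₐ[κ] F) x =>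
          (v (σ.1 z)).natAbs) (fun _ _ => Nat.zero_le _)
          (Finset.mem_univ (⟨σ, hσx⟩ : MulAction.stabilizer (F ≃ₐ[κ] F) x))
      omega
    have hN0 : N ≠ 0 := by omega
    obtain ⟨α', β', q1, q2, q3⟩ := Pla_apx hx hi hσ hP hv hL hfr N hN0
    -- the norms from `D`
    obtain ⟨D, hD⟩ : ∃ D : Finset (MulAction.stabilizer (F ≃ₐ[κ] F) x),
        ∀ σ, σ ∈ D ↔ Dv v σ.1 := ⟨Finset.univ.filter (fun σ => Dv v σ.1), fun σ => by simp⟩
    have hDmul : ∀ σ τ : MulAction.stabilizer (F ≃ₐ[κ] F) x, Dv v σ.1 → Dv v τ.1 →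
        Dv v (σ * τ).1 := by
      intro σ τ h1 h2 y hy
      change v (σ.1 (τ.1 y)) = v y
      rw [h1 _ ((map_ne_zero_iff _ (τ.1).injective).2 hy), h2 y hy]
    have hDinv : ∀ σ : MulAction.stabilizer (F ≃ₐ[κ] F) x, Dv v σ.1 → Dv v (σ⁻¹).1 := by
      intro σ h1 y hy
      have h2 : (σ⁻¹).1 y ≠ 0 := (map_ne_zero_iff _ ((σ⁻¹).1).injective).2 hy
      have h3 := h1 _ h2
      have h4 : σ.1 ((σ⁻¹).1 y) = y := (σ.1).apply_symm_apply y
      rw [h4] at h3
      exact h3.symm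
    have hD1 : (1 : MulAction.stabilizer (F ≃ₐ[κ] F) x) ∈ D := (hD 1).2 (fun y _ => rfl)
    have hDn : ∀ σ τ : MulAction.stabilizer (F ≃ₐ[κ] F) x, ¬ Dv v σ.1 → τ ∈ D →
        ¬ Dv v (σ * τ).1 := by
      intro σ τ h1 h2 h3
      apply h1
      have h4 := hDmul _ _ h3 (hDinv τ ((hD τ).1 h2))
      rwa [mul_inv_cancel_right] at h4
    obtain ⟨α, hα⟩ : ∃ α, α = ∏ τ ∈ D, τ.1 α' := ⟨_, rfl⟩
    obtain ⟨β, hβ⟩ : ∃ β, β = ∏ τ ∈ D, τ.1 β' := ⟨_, rfl⟩
    have hinvD : ∀ (σ : MulAction.stabilizer (F ≃ₐ[κ] F) x) (y : F), Dv v σ.1 →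
        σ.1 (∏ τ ∈ D, τ.1 y) = ∏ τ ∈ D, τ.1 y := by
      intro σ y hσD
      rw [map_prod]
      refine Finset.prod_bij (fun τ _ => σ * τ) ?_ ?_ ?_ ?_
      · intro τ hτ
        exact (hD _).2 (hDmul σ τ hσD ((hD τ).1 hτ))
      · intro a _ b _ hab
        exact mul_left_cancel hab
      · intro τ hτ
        exact ⟨σ⁻¹ * τ, (hD _).2 (hDmul _ _ (hDinv σ hσD) ((hD τ).1 hτ)), mul_inv_cancel_left σ τ⟩
      · intro τ _
        rfl
    have hge0 : ∀ σ : MulAction.stabilizer (F ≃ₐ[κ] F) x, Ge v 0 (σ.1 α) ∧ Ge v 0 (σ.1 β) := by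
      intro σ
      rw [hα, hβ, map_prod, map_prod]
      exact ⟨Pla_ge_prod hv _ _ (fun τ _ => (q1 (σ * τ).1 (σ * τ).2).1),
        Pla_ge_prod hv _ _ (fun τ _ => (q1 (σ * τ).1 (σ * τ).2).2)⟩
    have hone : ∀ y : F, Ge v N (y - 1) → Is v 0 y := by
      intro y hy
      have h1 := Is.ge_add hv hy (⟨one_ne_zero, hv.one⟩ : Is v 0 (1 : F)) (by omega)
      rwa [sub_add_cancel] at h1
    -- at `v`
    have hα0 : Is v 0 α := by
      rw [hα]
      exact Pla_is_prod hv _ _ (fun τ hτ => hone _ (q2 τ.1 τ.2 ((hD τ).1 hτ)).1)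
    have hβ0 : Ge v N β := by
      rw [hβ, ← Finset.mul_prod_erase D _ hD1]
      exact Ge.mul_right hv (q2 (1 : F ≃ₐ[κ] F) rfl (fun y _ => rfl)).2
        (Pla_ge_prod hv _ _ (fun τ _ => (q1 τ.1 τ.2).2))
    -- at the other places
    have hα1 : ∀ σ : MulAction.stabilizer (F ≃ₐ[κ] F) x, ¬ Dv v σ.1 → Ge v N (σ.1 α) := by
      intro σ hσD
      rw [hα, map_prod, ← Finset.mul_prod_erase D _ hD1]
      exact Ge.mul_right hv (q3 σ.1 σ.2 hσD).1
        (Pla_ge_prod hv _ _ (fun τ _ => (q1 (σ * τ).1 (σ * τ).2).1))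
    have hβ1 : ∀ σ : MulAction.stabilizer (F ≃ₐ[κ] F) x, ¬ Dv v σ.1 → Is v 0 (σ.1 β) := by
      intro σ hσD
      rw [hβ, map_prod]
      exact Pla_is_prod hv _ _ (fun τ hτ => hone _ (q3 (σ * τ).1 (σ * τ).2 (hDn σ τ hσD hτ)).2)
    obtain ⟨w, hw⟩ : ∃ w, w = α * z + β := ⟨_, rfl⟩
    have hwv : Is v (v z) w := by
      rw [hw]
      have h1 := hα0.mul hv (Is.of_ne hz (v := v))
      rw [zero_add] at h1
      have h2 := hN' 1 rfl
      change (v z).natAbs < N at h2
      exact h1.add_ge hv hβ0 (by omega)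
    have hwσ : ∀ σ : MulAction.stabilizer (F ≃ₐ[κ] F) x, ¬ Dv v σ.1 → Is v 0 (σ.1 w) := by
      intro σ hσD
      rw [hw, map_add, map_mul]
      have h1 : Is v (v (σ.1 z)) (σ.1 z) :=
        Is.of_ne ((map_ne_zero_iff _ (σ.1).injective).2 hz)
      have h2 := (hα1 σ hσD).mul hv h1.ge
      have h3 := hN' σ.1 σ.2
      exact Is.ge_add hv h2 (hβ1 σ hσD) (by omega)
    have hwD : ∀ σ : MulAction.stabilizer (F ≃ₐ[κ] F) x, Dv v σ.1 → σ.1 w = w := by
      intro σ hσD
      rw [hw, map_add, map_mul, hα, hβ, hinvD σ _ hσD, hinvD σ _ hσD, hzD σ.1 σ.2 hσD]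
    -- the product over the orbit
    obtain ⟨O, hO⟩ : ∃ O : Finset F, O = Finset.univ.image
        (fun σ : MulAction.stabilizer (F ≃ₐ[κ] F) x => σ.1 w) := ⟨_, rfl⟩
    have hwO : w ∈ O := by
      rw [hO]
      exact Finset.mem_image.2 ⟨1, Finset.mem_univ _, rfl⟩
    have hn0 : Is v (v z) (∏ y ∈ O, y) := by
      rw [← Finset.mul_prod_erase O _ hwO]
      have h1 : Is v 0 (∏ y ∈ O.erase w, y) := by
        refine Pla_is_prod hv _ _ (fun y hy => ?_)
        obtain ⟨hyw, hyO⟩ := Finset.mem_erase.1 hy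
        rw [hO] at hyO
        obtain ⟨σ, -, rfl⟩ := Finset.mem_image.1 hyO
        exact hwσ σ (fun h => hyw (hwD σ h))
      have h2 := hwv.mul hv h1
      rwa [add_zero] at h2
    have hfix : ∀ σ : F ≃ₐ[κ] F, σ x = x → σ (∏ y ∈ O, y) = ∏ y ∈ O, y := by
      intro σ hσx
      rw [map_prod]
      refine Finset.prod_bij (fun y _ => σ y) ?_ ?_ ?_ ?_
      · intro y hy
        rw [hO] at hy ⊢
        obtain ⟨τ, -, rfl⟩ := Finset.mem_image.1 hy
        exact Finset.mem_image.2 ⟨⟨σ, hσx⟩ * τ, Finset.mem_univ _, rfl⟩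
      · intro a _ b _ hab
        exact σ.injective hab
      · intro y hy
        rw [hO] at hy
        obtain ⟨τ, -, rfl⟩ := Finset.mem_image.1 hy
        refine ⟨((⟨σ, hσx⟩ : MulAction.stabilizer (F ≃ₐ[κ] F) x)⁻¹ * τ).1 w, ?_, ?_⟩
        · rw [hO]
          exact Finset.mem_image.2 ⟨_, Finset.mem_univ _, rfl⟩
        · change σ (σ.symm (τ.1 w)) = τ.1 w
          exact σ.apply_symm_apply _
      · intro y _
        rfl
    obtain ⟨r, s, hrs⟩ := (IntermediateField.mem_adjoin_simple_iff κ _).1 (hx.fix _ hfix)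
    have hs0 : aeval x s ≠ 0 := by
      intro h0
      rw [h0, div_zero] at hrs
      exact hn0.1 hrs
    have hr0 : aeval x r ≠ 0 := by
      intro h0
      rw [h0, zero_div] at hrs
      exact hn0.1 hrs
    rw [← hn0.2, hrs, hv.div hr0 hs0]
    exact dvd_sub (Pla_pol hKr hx0 hx1 r hr0) (Pla_pol hKr hx0 hx1 s hs0)

end MP7Sh
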