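import Pool.Agent.Lib.MP_7f581e_Sh.SpecV

/-! The decomposition group acts through a group of order divisible by `q`. -/

set_option autoImplicit false

namespace MP7Sh

open Polynomial IntermediateField

open scoped Classical

section

variable {κ F : Type} [Field κ] [Field F] [Algebra κ F]

/-- The decomposition group. -/
private def plqD (x : F) (v : F → ℤ) : Subgroup (MulAction.stabilizer (F ≃ₐ[κ] F) x) where
  carrier := {σ | Dv v (σ : F ≃ₐ[κ] F)}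
  one_mem' := fun _ _ => rfl
  mul_mem' := by
    intro a b ha hb y hy
    change v ((a : F ≃ₐ[κ] F) ((b : F ≃ₐ[κ] F) y)) = v y
    rw [ha _ ((map_ne_zero (b : F ≃ₐ[κ] F)).2 hy), hb y hy]
  inv_mem' := by
    intro a ha y hy
    change v ((a : F ≃ₐ[κ] F)⁻¹ y) = v y
    have h1 := ha ((a : F ≃ₐ[κ] F)⁻¹ y) ((map_ne_zero ((a : F ≃ₐ[κ] F)⁻¹)).2 hy)
    rw [← h1]
    have h2 : (a : F ≃ₐ[κ] F) ((a : F ≃ₐ[κ] F)⁻¹ y) = y := by
      rw [← AlgEquiv.mul_apply, mul_inv_cancel, AlgEquiv.one_apply]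
    rw [h2]

private theorem plq_prod {v : F → ℤ} (h : Ord v) {ι : Type} (s : Finset ι) (f : ι → F)
    (hf : ∀ i, f i ≠ 0) : v (∏ i ∈ s, f i) = ∑ i ∈ s, v (f i) := by
  induction s using Finset.induction_on with
  | empty => rw [Finset.prod_empty, Finset.sum_empty, h.one]
  | insert i s hi ih =>
    rw [Finset.prod_insert hi, Finset.sum_insert hi,
      h.mul _ _ (hf i) (Finset.prod_ne_zero_iff.2 fun j _ => hf j), ih]

end

theorem tPlq : S_Plq := by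
  intro κ F _ _ _ x π v hv H _ _ ρ z q a hq hz hρ hqa ha
  let D : Subgroup (MulAction.stabilizer (F ≃ₐ[κ] F) x) := plqD x v
  let H' : Subgroup H := D.map ρ
  have hch : ∀ h : H', ∃ σ : MulAction.stabilizer (F ≃ₐ[κ] F) x,
      σ ∈ D ∧ ρ σ = h := by
    rintro ⟨h, σ, hσ, hσh⟩
    exact ⟨σ, hσ, hσh⟩
  choose σ hσD hσρ using hch
  have heq : ∀ τ τ' : MulAction.stabilizer (F ≃ₐ[κ] F) x, ρ τ = ρ τ' →
      (τ : F ≃ₐ[κ] F) z = (τ' : F ≃ₐ[κ] F) z := by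
    intro τ τ' hτ
    have h1 : ρ (τ'⁻¹ * τ) = 1 := by rw [map_mul, map_inv, hτ, inv_mul_cancel]
    have h2 := hρ _ h1
    have h3 : (τ : F ≃ₐ[κ] F) = (τ' : F ≃ₐ[κ] F) * ((τ'⁻¹ * τ : MulAction.stabilizer
        (F ≃ₐ[κ] F) x) : F ≃ₐ[κ] F) := by
      push_cast
      rw [mul_inv_cancel_left]
    rw [h3, AlgEquiv.mul_apply, h2]
  have : Fintype H' := Fintype.ofFinite H'
  let z' : F := ∏ h : H', (σ h : F ≃ₐ[κ] F) z
  have hnz : ∀ h : H', (σ h : F ≃ₐ[κ] F) z ≠ 0 := fun h =>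
    (map_ne_zero (σ h : F ≃ₐ[κ] F)).2 hz
  have hz' : z' ≠ 0 := Finset.prod_ne_zero_iff.2 fun h _ => hnz h
  have hvz' : v z' = Fintype.card H' * v z := by
    change v (∏ h : H', (σ h : F ≃ₐ[κ] F) z) = _
    rw [plq_prod hv.ord _ _ hnz, Finset.sum_congr rfl fun h _ => hσD h z hz, Finset.sum_const,
      Finset.card_univ, nsmul_eq_mul]
  have hfix : ∀ τ : F ≃ₐ[κ] F, τ x = x → Dv v τ → τ z' = z' := by
    intro τ hτx hτ
    let τ' : MulAction.stabilizer (F ≃ₐ[κ] F) x := ⟨τ, hτx⟩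
    have hτD : τ' ∈ D := hτ
    let ht : H' := ⟨ρ τ', τ', hτD, rfl⟩
    change τ (∏ h : H', (σ h : F ≃ₐ[κ] F) z) = _
    rw [map_prod]
    refine (Finset.prod_congr rfl fun h _ => ?_).trans
      (Equiv.prod_comp (Equiv.mulLeft ht) fun h : H' => (σ h : F ≃ₐ[κ] F) z)
    have h1 := heq (τ' * σ h) (σ (ht * h)) (by
      rw [map_mul, hσρ, hσρ]
      rfl)
    exact h1
  obtain ⟨b, hb⟩ := hv.dec z' hz' hfix
  have hpos := hv.pos
  have h1 : (Fintype.card H' : ℤ) * a = q * b := by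
    have h2 : v π * ((Fintype.card H' : ℤ) * a) = v π * (q * b) := by
      have h3 := hb
      rw [hvz'] at h3
      linear_combination (q : ℤ) * h3 - (Fintype.card H' : ℤ) * hqa
    exact mul_left_cancel₀ (ne_of_gt hpos) h2
  have h2 : (q : ℤ) ∣ Fintype.card H' := by
    have h3 : (q : ℤ) ∣ (Fintype.card H' : ℤ) * a := ⟨b, h1⟩
    exact ((Nat.prime_iff_prime_int.1 hq).dvd_or_dvd h3).resolve_right ha
  have : Fact q.Prime := ⟨hq⟩
  obtain ⟨h, hh⟩ := exists_prime_orderOf_dvd_card q (Int.natCast_dvd_natCast.1 h2)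
  refine ⟨σ h, hσD h, ?_⟩
  rw [hσρ, Subgroup.orderOf_coe, hh]

end MP7Sh
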