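import Pool.Agent.Lib.MP_7f581e_Sh.SpecV

/-! All the places of `κ(x)`. -/

set_option autoImplicit false

namespace MP7Sh

open Polynomial IntermediateField

open scoped Classical

private theorem plx_aux (h1 : S_Pla) (κ F : Type) [Field κ] [IsAlgClosed κ] [Field F]
    [Algebra κ F] (x y : F) (hx : Gx κ x) (hy : Transcendental κ y)
    (hxy : ∀ σ : F ≃ₐ[κ] F, σ x = x ↔ σ y = y) (hm : x ∈ IntermediateField.adjoin κ {y}) :
    ∃ v : F → ℤ, Plc κ x y v := by
  have hst : MulAction.stabilizer (F ≃ₐ[κ] F) y = MulAction.stabilizer (F ≃ₐ[κ] F) x := by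
    ext σ
    exact (hxy σ).symm
  have hg : Gx κ y := by
    refine ⟨hy, ?_, ?_⟩
    · rw [hst]
      exact hx.fin
    · intro z hz
      have h2 := hx.fix z fun σ hσ => hz σ ((hxy σ).1 hσ)
      have h3 : IntermediateField.adjoin κ {x} ≤ IntermediateField.adjoin κ {y} := by
        rw [IntermediateField.adjoin_simple_le_iff]
        exact hm
      exact h3 h2
  obtain ⟨v, hv⟩ := h1 κ F y hg
  exact ⟨v, ⟨hv.toKr, hv.ne, hv.pos, fun z hz hz' =>
    hv.dec z hz fun σ hσ hσv => hz' σ ((hxy σ).2 hσ) hσv⟩⟩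

theorem tPlx (h1 : S_Pla) : S_Plx := by
  intro κ F _ _ _ _ x hx
  refine ⟨fun c => ?_, ?_⟩
  · refine plx_aux h1 κ F x _ hx ?_ ?_ ?_
    · intro h
      apply hx.tra
      have h2 := h.add (isAlgebraic_algebraMap c)
      rwa [sub_add_cancel] at h2
    · intro σ
      rw [map_sub, AlgEquiv.commutes, sub_left_inj]
    · have h2 : x - algebraMap κ F c ∈ IntermediateField.adjoin κ {x - algebraMap κ F c} :=
        IntermediateField.mem_adjoin_simple_self κ _
      have h3 := add_mem h2 (IntermediateField.algebraMap_mem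
        (IntermediateField.adjoin κ {x - algebraMap κ F c}) c)
      rwa [sub_add_cancel] at h3
  · refine plx_aux h1 κ F x _ hx ?_ ?_ ?_
    · intro h
      apply hx.tra
      have h2 := h.inv
      rwa [inv_inv] at h2
    · intro σ
      rw [map_inv₀, inv_inj]
    · have h2 : x⁻¹ ∈ IntermediateField.adjoin κ {x⁻¹} :=
        IntermediateField.mem_adjoin_simple_self κ _
      have h3 := inv_mem h2
      rwa [inv_inv] at h3

end MP7Sh
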