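import Pool.Agent.Lib.MP_7f581e_Sh.Defs

/-!
# MP_7f581e_nt, GA realizations of `PSL(2, l)`: calculus of valuations
-/

set_option autoImplicit false

namespace MP7Sh

variable {F : Type} [Field F] {v : F → ℤ}

theorem Ord.one (h : Ord v) : v 1 = 0 := by
  have := h.mul 1 1 one_ne_zero one_ne_zero
  rw [mul_one] at this
  omega

theorem Ord.neg_one (h : Ord v) : v (-1) = 0 := by
  have := h.mul (-1) (-1) (neg_ne_zero.mpr one_ne_zero) (neg_ne_zero.mpr one_ne_zero)
  rw [neg_mul_neg, one_mul, h.one] at this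
  omega

theorem Ord.neg (h : Ord v) (x : F) : v (-x) = v x := by
  rcases eq_or_ne x 0 with rfl | hx
  · rw [neg_zero]
  · rw [← neg_one_mul, h.mul _ _ (neg_ne_zero.mpr one_ne_zero) hx, h.neg_one, zero_add]

theorem Ord.inv (h : Ord v) {x : F} (hx : x ≠ 0) : v x⁻¹ = -v x := by
  have := h.mul x x⁻¹ hx (inv_ne_zero hx)
  rw [mul_inv_cancel₀ hx, h.one] at this
  omega

theorem Ord.div (h : Ord v) {x y : F} (hx : x ≠ 0) (hy : y ≠ 0) : v (x / y) = v x - v y := by
  rw [div_eq_mul_inv, h.mul _ _ hx (inv_ne_zero hy), h.inv hy]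
  omega

theorem Ord.pow (h : Ord v) {x : F} (hx : x ≠ 0) (n : ℕ) : v (x ^ n) = n * v x := by
  induction n with
  | zero => simp [h.one]
  | succ n ih => rw [pow_succ, h.mul _ _ (pow_ne_zero n hx) hx, ih]; push_cast; ring

theorem Ge.zero {n : ℤ} : Ge v n 0 := Or.inl rfl

theorem Ge.mono {m n : ℤ} {x : F} (h : Ge v n x) (hmn : m ≤ n) : Ge v m x :=
  h.imp id (fun h => hmn.trans h)

theorem Ge.add (h : Ord v) {n : ℤ} {x y : F} (hx : Ge v n x) (hy : Ge v n y) :
    Ge v n (x + y) := by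
  rcases hx with rfl | hx
  · rwa [zero_add]
  rcases hy with rfl | hy
  · rw [add_zero]; exact Or.inr hx
  by_cases hx0 : x = 0
  · subst hx0; rw [zero_add]; exact Or.inr hy
  by_cases hy0 : y = 0
  · subst hy0; rw [add_zero]; exact Or.inr hx
  by_cases hxy : x + y = 0
  · exact Or.inl hxy
  · right
    have := h.add x y hx0 hy0 hxy
    omega

theorem Ge.neg (h : Ord v) {n : ℤ} {x : F} (hx : Ge v n x) : Ge v n (-x) := by
  rcases hx with rfl | hx
  · rw [neg_zero]; exact Or.inl rfl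
  · exact Or.inr (by rwa [h.neg])

theorem Ge.sub (h : Ord v) {n : ℤ} {x y : F} (hx : Ge v n x) (hy : Ge v n y) :
    Ge v n (x - y) := by
  rw [sub_eq_add_neg]; exact hx.add h (hy.neg h)

theorem Ge.mul (h : Ord v) {m n : ℤ} {x y : F} (hx : Ge v m x) (hy : Ge v n y) :
    Ge v (m + n) (x * y) := by
  by_cases hx0 : x = 0
  · subst hx0; rw [zero_mul]; exact Or.inl rfl
  by_cases hy0 : y = 0
  · subst hy0; rw [mul_zero]; exact Or.inl rfl
  right
  rw [h.mul x y hx0 hy0]
  have h1 := hx.resolve_left hx0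
  have h2 := hy.resolve_left hy0
  omega

/-- Product with an integral element. -/
theorem Ge.mul_left (h : Ord v) {n : ℤ} {x y : F} (hx : Ge v 0 x) (hy : Ge v n y) :
    Ge v n (x * y) := by
  have := hx.mul h hy
  rwa [zero_add] at this

/-- Product with an integral element. -/
theorem Ge.mul_right (h : Ord v) {n : ℤ} {x y : F} (hx : Ge v n x) (hy : Ge v 0 y) :
    Ge v n (x * y) := by
  have := hx.mul h hy
  rwa [add_zero] at this

theorem Ge.pow (h : Ord v) {m : ℤ} {x : F} (hx : Ge v m x) (n : ℕ) : Ge v (n * m) (x ^ n) := by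
  induction n with
  | zero => right; simp [h.one]
  | succ n ih =>
    rw [pow_succ]
    exact (ih.mul h hx).mono (by push_cast; nlinarith)

theorem Ge.pow0 (h : Ord v) {x : F} (hx : Ge v 0 x) (n : ℕ) : Ge v 0 (x ^ n) := by
  have := hx.pow h n
  rwa [mul_zero] at this

theorem Ge.one (h : Ord v) : Ge v 0 (1 : F) := Or.inr h.one.ge

theorem Ge.natCast (h : Ord v) (n : ℕ) : Ge v 0 (n : F) := by
  induction n with
  | zero => left; exact Nat.cast_zero
  | succ n ih => rw [Nat.cast_succ]; exact ih.add h (Ge.one h)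

theorem Ge.ofNat (h : Ord v) (n : ℕ) [n.AtLeastTwo] : Ge v 0 (OfNat.ofNat n : F) := by
  have h1 : ((OfNat.ofNat n : ℕ) : F) = OfNat.ofNat n := Nat.cast_ofNat
  rw [← h1]; exact Ge.natCast h _

theorem Ge.intCast (h : Ord v) (n : ℤ) : Ge v 0 (n : F) := by
  obtain ⟨m, rfl | rfl⟩ := n.eq_nat_or_neg
  · rw [Int.cast_natCast]; exact Ge.natCast h m
  · rw [Int.cast_neg, Int.cast_natCast]; exact (Ge.natCast h m).neg h

theorem Is.ge {n : ℤ} {x : F} (hx : Is v n x) : Ge v n x := Or.inr hx.2.ge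

theorem Is.ne {n : ℤ} {x : F} (hx : Is v n x) : x ≠ 0 := hx.1

theorem Is.not_ge {m n : ℤ} {x : F} (hx : Is v n x) (hmn : n < m) : ¬ Ge v m x := by
  rintro (h | h)
  · exact hx.1 h
  · have := hx.2; omega

theorem Is.mul (h : Ord v) {m n : ℤ} {x y : F} (hx : Is v m x) (hy : Is v n y) :
    Is v (m + n) (x * y) :=
  ⟨mul_ne_zero hx.1 hy.1, by rw [h.mul x y hx.1 hy.1, hx.2, hy.2]⟩

theorem Is.inv (h : Ord v) {n : ℤ} {x : F} (hx : Is v n x) : Is v (-n) x⁻¹ :=
  ⟨inv_ne_zero hx.1, by rw [h.inv hx.1, hx.2]⟩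

theorem Is.div (h : Ord v) {m n : ℤ} {x y : F} (hx : Is v m x) (hy : Is v n y) :
    Is v (m - n) (x / y) :=
  ⟨div_ne_zero hx.1 hy.1, by rw [h.div hx.1 hy.1, hx.2, hy.2]⟩

theorem Is.neg (h : Ord v) {n : ℤ} {x : F} (hx : Is v n x) : Is v n (-x) :=
  ⟨neg_ne_zero.mpr hx.1, by rw [h.neg, hx.2]⟩

theorem Is.pow (h : Ord v) {m : ℤ} {x : F} (hx : Is v m x) (n : ℕ) : Is v (n * m) (x ^ n) :=
  ⟨pow_ne_zero n hx.1, by rw [h.pow hx.1, hx.2]⟩

/-- Adding an element of larger valuation does not change the valuation. -/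
theorem Is.add_ge (h : Ord v) {m n : ℤ} {x y : F} (hx : Is v n x) (hy : Ge v m y)
    (hmn : n < m) : Is v n (x + y) := by
  rcases hy with rfl | hy
  · rwa [add_zero]
  by_cases hy0 : y = 0
  · subst hy0; rwa [add_zero]
  have hxy : x + y ≠ 0 := by
    intro h0
    have h1 : y = -x := by linear_combination h0
    rw [h1, h.neg, hx.2] at hy
    omega
  refine ⟨hxy, ?_⟩
  have h1 := h.add x y hx.1 hy0 hxy
  have h2 := h.add (x + y) (-y) hxy (neg_ne_zero.mpr hy0) (by simpa using hx.1)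
  rw [add_neg_cancel_right, h.neg, hx.2] at h2
  rw [hx.2] at h1
  omega

theorem Is.ge_add (h : Ord v) {m n : ℤ} {x y : F} (hx : Ge v m x) (hy : Is v n y)
    (hmn : n < m) : Is v n (x + y) := by
  rw [add_comm]; exact hy.add_ge h hx hmn

theorem Is.sub_ge (h : Ord v) {m n : ℤ} {x y : F} (hx : Is v n x) (hy : Ge v m y)
    (hmn : n < m) : Is v n (x - y) := by
  rw [sub_eq_add_neg]; exact hx.add_ge h (hy.neg h) hmn

theorem Is.of_ne {x : F} (hx : x ≠ 0) : Is v (v x) x := ⟨hx, rfl⟩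

theorem Ge.of_ne {n : ℤ} {x : F} (hx : x ≠ 0) : Ge v n x ↔ n ≤ v x :=
  ⟨fun h => h.resolve_left hx, Or.inr⟩

/-- An integral element which is not in the maximal ideal is a unit. -/
theorem Is.of_ge {n : ℤ} {x : F} (hx : Ge v n x) (hx1 : ¬ Ge v (n + 1) x) : Is v n x := by
  have h0 : x ≠ 0 := fun h => hx1 (Or.inl h)
  refine ⟨h0, ?_⟩
  have h1 := hx.resolve_left h0
  have h2 : ¬ (n + 1 ≤ v x) := fun h => hx1 (Or.inr h)
  omega

/-- The valuation ring. -/
def Ord.ring (h : Ord v) : Subring F where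
  carrier := {x | Ge v 0 x}
  mul_mem' hx hy := by
    have := Ge.mul h hx hy
    rwa [zero_add] at this
  one_mem' := Ge.one h
  add_mem' hx hy := Ge.add h hx hy
  zero_mem' := Ge.zero
  neg_mem' hx := Ge.neg h hx

theorem Ord.mem_ring (h : Ord v) (x : F) : x ∈ h.ring ↔ Ge v 0 x := Iff.rfl

section residues

variable {κ : Type} [Field κ] [Algebra κ F]

theorem Kr.isCst (h : Kr κ v) {c : κ} (hc : c ≠ 0) : Is v 0 (algebraMap κ F c) :=
  ⟨(map_ne_zero _).mpr hc, h.cst c hc⟩

theorem Kr.geCst (h : Kr κ v) (c : κ) : Ge v 0 (algebraMap κ F c) := by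
  by_cases hc : c = 0
  · left; rw [hc, map_zero]
  · exact (h.isCst hc).ge

theorem Kr.uniq (h : Kr κ v) {z : F} {c c' : κ} (h1 : Ge v 1 (z - algebraMap κ F c))
    (h2 : Ge v 1 (z - algebraMap κ F c')) : c = c' := by
  by_contra hne
  have h3 : Ge v 1 (algebraMap κ F (c - c')) := by
    have := h2.sub h.ord h1
    rwa [sub_sub_sub_cancel_left, ← map_sub] at this
  exact (h.isCst (sub_ne_zero.mpr hne)).not_ge one_pos h3

/-- The residue map. -/
noncomputable def Kr.rs (h : Kr κ v) : h.ord.ring →+* κ where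
  toFun z := (h.res z z.2).choose
  map_one' := h.uniq (h.res 1 (Ge.one h.ord)).choose_spec (by
    rw [map_one, sub_self]; exact Ge.zero)
  map_zero' := h.uniq (h.res 0 Ge.zero).choose_spec (by
    rw [map_zero, sub_self]; exact Ge.zero)
  map_add' x y := h.uniq (h.res _ (x + y).2).choose_spec (by
    have h1 := (h.res x x.2).choose_spec
    have h2 := (h.res y y.2).choose_spec
    have h3 := h1.add h.ord h2
    rw [map_add]
    convert h3 using 1
    push_cast
    ring)
  map_mul' x y := h.uniq (h.res _ (x * y).2).choose_spec (by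
    have h1 := (h.res x x.2).choose_spec
    have h2 := (h.res y y.2).choose_spec
    have h3 := (h1.mul_right h.ord y.2).add h.ord ((h.geCst (h.res x x.2).choose).mul_left h.ord h2)
    rw [map_mul]
    convert h3 using 1
    push_cast
    ring)

theorem Kr.rs_spec (h : Kr κ v) (z : h.ord.ring) :
    Ge v 1 ((z : F) - algebraMap κ F (h.rs z)) := (h.res z z.2).choose_spec

/-- An automorphism over the constants which preserves the valuation acts trivially on residues. -/
theorem Kr.triv (h : Kr κ v) {σ : F ≃ₐ[κ] F} (hσ : Dv v σ) {z : F} (hz : Ge v 0 z) :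
    Ge v 1 (σ z - z) := by
  obtain ⟨c, hc⟩ := h.res z hz
  have h1 : Ge v 1 (σ z - algebraMap κ F c) := by
    have h2 : σ z - algebraMap κ F c = σ (z - algebraMap κ F c) := by
      rw [map_sub, AlgEquiv.commutes]
    rw [h2]
    rcases hc with hc | hc
    · left; rw [hc, map_zero]
    · by_cases h0 : z - algebraMap κ F c = 0
      · left; rw [h0, map_zero]
      · right; rwa [hσ _ h0]
  have h3 := h1.sub h.ord hc
  rwa [sub_sub_sub_cancel_right] at h3

end residues

end MP7Sh
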