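import Pool.Agent.Lib.MP_7f581e_Sh.SpecV

/-!
# MP_7f581e_nt, Sh, module Cst (helper26): rational functions without zeros and poles
-/

set_option autoImplicit false

namespace MP7Sh

open Polynomial IntermediateField

open scoped Classical

variable {κ F : Type} [Field κ] [Field F] [Algebra κ F]

private theorem cst_ge {v : F → ℤ} (h : Kr κ v) {x : F} (hx : Ge v 0 x) (f : κ[X]) :
    Ge v 0 (aeval x f) := by
  induction f using Polynomial.induction_on' with
  | add f g hf hg => rw [map_add]; exact hf.add h.ord hg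
  | monomial n a => rw [aeval_monomial]; exact (h.geCst a).mul_left h.ord (hx.pow0 h.ord n)

private theorem cst_split (x : F) (c : κ) (f : κ[X]) :
    ∃ q : κ[X], aeval x f = algebraMap κ F (f.eval c) + (x - algebraMap κ F c) * aeval x q := by
  refine ⟨f /ₘ (X - C c), ?_⟩
  have h := modByMonic_add_div f (X - C c)
  rw [modByMonic_X_sub_C_eq_C_eval] at h
  have h1 := congrArg (aeval x) h
  rw [map_add, map_mul, aeval_C, map_sub, aeval_X, aeval_C] at h1
  exact h1.symm

private theorem cst_x {v : F → ℤ} {x : F} {c : κ} (h : Plc κ x (x - algebraMap κ F c) v) : Ge v 0 x := by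
  have h1 : Ge v 0 (x - algebraMap κ F c) := Or.inr h.pos.le
  have h2 := h1.add h.ord (h.toKr.geCst c)
  rwa [sub_add_cancel] at h2

private theorem cst_unit {v : F → ℤ} {x : F} {c : κ} (h : Plc κ x (x - algebraMap κ F c) v) {f : κ[X]}
    (hf : f.eval c ≠ 0) : Is v 0 (aeval x f) := by
  obtain ⟨q, hq⟩ := cst_split x c f
  rw [hq]
  refine (h.toKr.isCst hf).add_ge h.ord (m := v (x - algebraMap κ F c)) ?_ h.pos
  exact Ge.mul_right h.ord (Or.inr (le_refl _)) (cst_ge h.toKr (cst_x h) q)

private theorem cst_root {v : F → ℤ} {x : F} {c : κ} (h : Plc κ x (x - algebraMap κ F c) v) {f : κ[X]}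
    (hf : f.eval c = 0) (hx : aeval x f ≠ 0) : 0 < v (aeval x f) := by
  obtain ⟨q, hq⟩ := cst_split x c f
  have h1 : Ge v (v (x - algebraMap κ F c)) (aeval x f) := by
    rw [hq, hf, map_zero, zero_add]
    exact Ge.mul_right h.ord (Or.inr (le_refl _)) (cst_ge h.toKr (cst_x h) q)
  have h2 := (Ge.of_ne hx).1 h1
  have h3 := h.pos
  omega

theorem tCst : S_Cst := by
  intro κ F _ _ _ _ x z hG hz hfix hv
  obtain ⟨f0, g0, hfg⟩ := (IntermediateField.mem_adjoin_simple_iff κ z).1 (hG.fix z hfix)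
  have hg0 : aeval x g0 ≠ 0 := by
    intro h
    rw [h, div_zero] at hfg
    exact hz hfg
  have hf0 : aeval x f0 ≠ 0 := by
    intro h
    rw [h, zero_div] at hfg
    exact hz hfg
  -- a reduced fraction
  obtain ⟨f, hf⟩ := EuclideanDomain.gcd_dvd_left f0 g0
  obtain ⟨g, hg⟩ := EuclideanDomain.gcd_dvd_right f0 g0
  set d := EuclideanDomain.gcd f0 g0 with hd
  have hd0 : aeval x d ≠ 0 := by
    intro h
    rw [hf, map_mul, h, zero_mul] at hf0
    exact hf0 rfl
  have hfx : aeval x f ≠ 0 := by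
    intro h
    rw [hf, map_mul, h, mul_zero] at hf0
    exact hf0 rfl
  have hgx : aeval x g ≠ 0 := by
    intro h
    rw [hg, map_mul, h, mul_zero] at hg0
    exact hg0 rfl
  have hz' : z = aeval x f / aeval x g := by
    rw [hfg, hf, hg, map_mul, map_mul, mul_div_mul_left _ _ hd0]
  have hdne : d ≠ 0 := by
    rintro h
    rw [h, map_zero] at hd0
    exact hd0 rfl
  have hcop : f * EuclideanDomain.gcdA f0 g0 + g * EuclideanDomain.gcdB f0 g0 = 1 := by
    have h1 := EuclideanDomain.gcd_eq_gcd_ab f0 g0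
    rw [← hd] at h1
    apply mul_left_cancel₀ hdne
    calc d * (f * EuclideanDomain.gcdA f0 g0 + g * EuclideanDomain.gcdB f0 g0) =
          (d * f) * EuclideanDomain.gcdA f0 g0 + (d * g) * EuclideanDomain.gcdB f0 g0 := by ring
      _ = d * 1 := by rw [← hf, ← hg, ← h1, mul_one]
  have hnr : ∀ c : κ, f.eval c = 0 → g.eval c = 0 → False := by
    intro c h1 h2
    have h3 := congrArg (Polynomial.eval c) hcop
    rw [eval_add, eval_mul, eval_mul, h1, h2, zero_mul, zero_mul, add_zero, eval_one] at h3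
    exact zero_ne_one h3
  have hfd : f.natDegree = 0 := by
    by_contra hne
    have hdeg : f.degree ≠ 0 := fun h => hne (natDegree_eq_of_degree_eq_some h)
    obtain ⟨c, hc⟩ := IsAlgClosed.exists_root f hdeg
    have hc' : f.eval c = 0 := hc
    obtain ⟨v, hP, hvz⟩ := hv c
    have h1 := cst_root hP hc' hfx
    have h2 := cst_unit hP (f := g) (fun h => hnr c hc' h)
    rw [hz', hP.ord.div hfx hgx, h2.2] at hvz
    omega
  have hgd : g.natDegree = 0 := by
    by_contra hne
    have hdeg : g.degree ≠ 0 := fun h => hne (natDegree_eq_of_degree_eq_some h)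
    obtain ⟨c, hc⟩ := IsAlgClosed.exists_root g hdeg
    have hc' : g.eval c = 0 := hc
    obtain ⟨v, hP, hvz⟩ := hv c
    have h1 := cst_root hP hc' hgx
    have h2 := cst_unit hP (f := f) (fun h => hnr c h hc')
    rw [hz', hP.ord.div hfx hgx, h2.2] at hvz
    omega
  refine ⟨f.coeff 0 / g.coeff 0, ?_⟩
  rw [hz', eq_C_of_natDegree_eq_zero hfd, eq_C_of_natDegree_eq_zero hgd, aeval_C, aeval_C, coeff_C_zero,
    coeff_C_zero, map_div₀]

end MP7Sh
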