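import Pool.Agent.Lib.MP_7f581e_Sh.SpecE

/-! The abscissae of `P + Q` and `P - Q`. -/

set_option autoImplicit false

namespace MP7Sh

open Polynomial WeierstrassCurve

open scoped Classical

section

variable {L : Type} [Field L] {W : WeierstrassCurve L}

/-- Normalized coordinates of the abscissa. -/
private def AS_Nm (P : W.toAffine.Point) (X Z : L) : Prop :=
  (P = 0 ∧ X = 1 ∧ Z = 0) ∨ (∃ y, At P X y ∧ Z = 1)

private theorem AS_ex (h1 : S_Pts) (hW : W.Δ ≠ 0) (P : W.toAffine.Point) (u v : L)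
    (h : Rp P u v) : ∃ k X Z : L, k ≠ 0 ∧ AS_Nm P X Z ∧ u = k * X ∧ v = k * Z := by
  obtain ⟨p1, p2, -⟩ := h1 L W hW
  rcases p1 P with h0 | ⟨x, y, hxy⟩
  · have hv := h.zero h0
    have hu : u ≠ 0 := by
      rcases h.nz with h3 | h3
      · exact h3
      · exact absurd hv h3
    exact ⟨u, 1, 0, hu, Or.inl ⟨h0, rfl, rfl⟩, by ring, by rw [hv]; ring⟩
  · obtain ⟨hv, hu⟩ := h.aff x y hxy
    exact ⟨v, x, 1, hv, Or.inr ⟨y, hxy, rfl⟩, by rw [hu]; ring, by ring⟩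

private theorem AS_uniq (h1 : S_Pts) (hW : W.Δ ≠ 0) (P : W.toAffine.Point)
    (X Z X' Z' : L) (h : AS_Nm P X Z) (h' : AS_Nm P X' Z') : X' = X ∧ Z' = Z := by
  obtain ⟨p1, p2, -⟩ := h1 L W hW
  rcases h with ⟨a1, a2, a3⟩ | ⟨y, a1, a2⟩
  · rcases h' with ⟨b1, b2, b3⟩ | ⟨y', b1, b2⟩
    · exact ⟨by rw [a2, b2], by rw [a3, b3]⟩
    · exact absurd a1 (p2 P X' y' b1).1
  · rcases h' with ⟨b1, b2, b3⟩ | ⟨y', b1, b2⟩
    · exact absurd b1 (p2 P X y a1).1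
    · have e1 := (p2 P X y a1).2.1
      have e2 := (p2 P X' y' b1).2.1
      exact ⟨by rw [← e1, ← e2], by rw [a2, b2]⟩

private theorem AS_neg (h1 : S_Pts) (hW : W.Δ ≠ 0) (P : W.toAffine.Point) (X Z : L)
    (h : AS_Nm P X Z) : AS_Nm (-P) X Z := by
  obtain ⟨p1, p2, p3, p4, p5, -⟩ := h1 L W hW
  rcases h with ⟨a1, a2, a3⟩ | ⟨y, a1, a2⟩
  · exact Or.inl ⟨by rw [a1, neg_zero], a2, a3⟩
  · exact Or.inr ⟨_, p5 P X y a1, a2⟩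

/-- Doubling. -/
private theorem AS_dbl (h1 : S_Pts) (hW : W.Δ ≠ 0) (P : W.toAffine.Point) (x y R T : L)
    (hP : At P x y) (h : AS_Nm (P + P) R T) : ∃ c : L, c ≠ 0 ∧
      R = c * (x ^ 4 - W.b₄ * x ^ 2 - 2 * W.b₆ * x - W.b₈) ∧
      T = c * (4 * x ^ 3 + W.b₂ * x ^ 2 + 2 * W.b₄ * x + W.b₆) := by
  obtain ⟨p1, q2, p3, p4, p5, p6, p7, p8, p9, p10, p11, p12⟩ := h1 L W hW
  have hy := (q2 P x y hP).2.2.2
  have h11 := p11 P x y hP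
  have key : (3 * x ^ 2 + 2 * W.a₂ * x + W.a₄ - W.a₁ * y) ^ 2 +
      W.a₁ * (3 * x ^ 2 + 2 * W.a₂ * x + W.a₄ - W.a₁ * y) * p2 W x y -
      (W.a₂ + 2 * x) * p2 W x y ^ 2 = x ^ 4 - W.b₄ * x ^ 2 - 2 * W.b₆ * x - W.b₈ := by
    unfold p2 WeierstrassCurve.b₄ WeierstrassCurve.b₆ WeierstrassCurve.b₈
    linear_combination (-8 * x - W.a₁ ^ 2 - 4 * W.a₂) * hy
  by_cases hy0 : p2 W x y = 0
  · have hPP : P + P = 0 := (p9 P x y hP).2 hy0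
    have hd := p10 P x y hP hy0
    obtain ⟨e1, e2⟩ := AS_uniq h1 hW (P + P) 1 0 R T (Or.inl ⟨hPP, rfl, rfl⟩) h
    refine ⟨((3 * x ^ 2 + 2 * W.a₂ * x + W.a₄ - W.a₁ * y) ^ 2)⁻¹,
      inv_ne_zero (pow_ne_zero 2 hd), ?_, ?_⟩
    · have e3 : x ^ 4 - W.b₄ * x ^ 2 - 2 * W.b₆ * x - W.b₈ =
          (3 * x ^ 2 + 2 * W.a₂ * x + W.a₄ - W.a₁ * y) ^ 2 := by
        rw [← key, hy0]
        ring
      rw [e1, e3, inv_mul_cancel₀ (pow_ne_zero 2 hd)]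
    · rw [e2, ← h11, hy0]
      ring
  · have hd := p8 P x y ((3 * x ^ 2 + 2 * W.a₂ * x + W.a₄ - W.a₁ * y) / p2 W x y) hP hy0
      (div_mul_cancel₀ _ hy0)
    obtain ⟨e1, e2⟩ := AS_uniq h1 hW (P + P) _ 1 R T (Or.inr ⟨_, hd, rfl⟩) h
    have hy2 : p2 W x y ^ 2 ≠ 0 := pow_ne_zero 2 hy0
    refine ⟨(p2 W x y ^ 2)⁻¹, inv_ne_zero hy2, ?_, ?_⟩
    · rw [eq_comm, inv_mul_eq_iff_eq_mul₀ hy2, ← key, e1]
      obtain ⟨m, hm⟩ : ∃ m, m = (3 * x ^ 2 + 2 * W.a₂ * x + W.a₄ - W.a₁ * y) / p2 W x y :=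
        ⟨_, rfl⟩
      have e4 : 3 * x ^ 2 + 2 * W.a₂ * x + W.a₄ - W.a₁ * y = m * p2 W x y := by
        rw [hm, div_mul_cancel₀ _ hy0]
      rw [← hm, e4]
      ring
    · rw [e2, ← h11, inv_mul_cancel₀ hy2]

private theorem AS_key (h1 : S_Pts) (hW : W.Δ ≠ 0) (P Q : W.toAffine.Point)
    (X Z X' Z' R T R' T' : L) (hP : AS_Nm P X Z) (hQ : AS_Nm Q X' Z') (hs : AS_Nm (P + Q) R T)
    (hd : AS_Nm (P - Q) R' T') :
    ∃ c : L, c ≠ 0 ∧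
      R * R' = c * ((X * X') ^ 2 - W.b₄ * (X * X') * (Z * Z') -
        W.b₆ * (X * Z' + Z * X') * (Z * Z') - W.b₈ * (Z * Z') ^ 2) ∧
      R * T' + T * R' = c * (2 * (X * Z' + Z * X') * (X * X') + W.b₂ * (X * X') * (Z * Z') +
        W.b₄ * (X * Z' + Z * X') * (Z * Z') + W.b₆ * (Z * Z') ^ 2) ∧
      T * T' = c * ((X * Z' + Z * X') ^ 2 - 4 * (X * X') * (Z * Z')) := by
  obtain ⟨p1, q2, p3, p4, p5, p6, p7, p8, p9, p10, p11, p12⟩ := h1 L W hW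
  rcases hP with ⟨a1, a2, a3⟩ | ⟨y, a1, a2⟩
  · -- `P = 0`
    rw [a1, zero_add] at hs
    rw [a1, zero_sub] at hd
    obtain ⟨e1, e2⟩ := AS_uniq h1 hW Q X' Z' R T hQ hs
    obtain ⟨e3, e4⟩ := AS_uniq h1 hW (-Q) X' Z' R' T' (AS_neg h1 hW Q X' Z' hQ) hd
    refine ⟨1, one_ne_zero, ?_, ?_, ?_⟩
    · rw [e1, e3, a2, a3]
      ring
    · rw [e1, e2, e3, e4, a2, a3]
      ring
    · rw [e2, e4, a2, a3]
      ring
  rcases hQ with ⟨b1, b2, b3⟩ | ⟨y', b1, b2⟩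
  · -- `Q = 0`
    rw [b1, add_zero] at hs
    rw [b1, sub_zero] at hd
    obtain ⟨e1, e2⟩ := AS_uniq h1 hW P X Z R T (Or.inr ⟨y, a1, a2⟩) hs
    obtain ⟨e3, e4⟩ := AS_uniq h1 hW P X Z R' T' (Or.inr ⟨y, a1, a2⟩) hd
    refine ⟨1, one_ne_zero, ?_, ?_, ?_⟩
    · rw [e1, e3, b2, b3]
      ring
    · rw [e1, e2, e3, e4, b2, b3]
      ring
    · rw [e2, e4, b2, b3]
      ring
  have hy := (q2 P X y a1).2.2.2
  have hy' := (q2 Q X' y' b1).2.2.2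
  subst a2
  subst b2
  by_cases hxx : X = X'
  · subst hxx
    rcases p6 P Q X y y' a1 b1 with hQP | hQP
    · subst hQP
      obtain ⟨c, hc, c1, c2⟩ := AS_dbl h1 hW Q X y R T a1 hs
      rw [sub_self] at hd
      obtain ⟨e1, e2⟩ := AS_uniq h1 hW (0 : W.toAffine.Point) 1 0 R' T'
        (Or.inl ⟨rfl, rfl, rfl⟩) hd
      refine ⟨c, hc, ?_, ?_, ?_⟩
      · rw [e1, c1]
        ring
      · rw [e1, e2, c2]
        ring
      · rw [e2]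
        ring
    · have hs' : P + Q = 0 := by rw [hQP, add_neg_cancel]
      have hd' : P - Q = P + P := by rw [hQP, sub_neg_eq_add]
      rw [hs'] at hs
      rw [hd'] at hd
      obtain ⟨c, hc, c1, c2⟩ := AS_dbl h1 hW P X y R' T' a1 hd
      obtain ⟨e1, e2⟩ := AS_uniq h1 hW (0 : W.toAffine.Point) 1 0 R T
        (Or.inl ⟨rfl, rfl, rfl⟩) hs
      refine ⟨c, hc, ?_, ?_, ?_⟩
      · rw [e1, c1]
        ring
      · rw [e1, e2, c2]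
        ring
      · rw [e2]
        ring
  · -- different abscissae
    have hne : X - X' ≠ 0 := sub_ne_zero.mpr hxx
    have hne2 : (X - X') ^ 2 ≠ 0 := pow_ne_zero 2 hne
    have q1 := p7 P Q X y X' y' ((y - y') / (X - X')) a1 b1 hxx (div_mul_cancel₀ _ hne)
    have q2 := p7 P (-Q) X y X' (-y' - W.a₁ * X' - W.a₃)
      ((y - (-y' - W.a₁ * X' - W.a₃)) / (X - X')) a1 (p5 Q X' y' b1) hxx
      (div_mul_cancel₀ _ hne)
    rw [← sub_eq_add_neg P Q] at q2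
    obtain ⟨e1, e2⟩ := AS_uniq h1 hW (P + Q) _ 1 R T (Or.inr ⟨_, q1, rfl⟩) hs
    obtain ⟨e3, e4⟩ := AS_uniq h1 hW (P - Q) _ 1 R' T' (Or.inr ⟨_, q2, rfl⟩) hd
    have f1 : R * (X - X') ^ 2 = (y - y') ^ 2 + W.a₁ * (y - y') * (X - X') -
        (W.a₂ + X + X') * (X - X') ^ 2 := by
      obtain ⟨m, hm⟩ : ∃ m, m = (y - y') / (X - X') := ⟨_, rfl⟩
      have e4 : y - y' = m * (X - X') := by rw [hm, div_mul_cancel₀ _ hne]
      rw [e1, ← hm, e4]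
      ring
    have f2 : R' * (X - X') ^ 2 = (y + y' + W.a₁ * X' + W.a₃) ^ 2 +
        W.a₁ * (y + y' + W.a₁ * X' + W.a₃) * (X - X') -
        (W.a₂ + X + X') * (X - X') ^ 2 := by
      obtain ⟨m, hm⟩ : ∃ m, m = (y - (-y' - W.a₁ * X' - W.a₃)) / (X - X') := ⟨_, rfl⟩
      have e4 : y + y' + W.a₁ * X' + W.a₃ = m * (X - X') := by
        rw [hm, div_mul_cancel₀ _ hne]
        ring
      rw [e3, ← hm, e4]
      ring
    refine ⟨((X - X') ^ 2)⁻¹, inv_ne_zero hne2, ?_, ?_, ?_⟩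
    · rw [eq_comm, inv_mul_eq_iff_eq_mul₀ hne2]
      refine mul_left_cancel₀ hne2 ?_
      have g2 : (X - X') ^ 2 * ((X - X') ^ 2 * (R * R')) =
          (R * (X - X') ^ 2) * (R' * (X - X') ^ 2) := by ring
      rw [g2, f1, f2]
      unfold WeierstrassCurve.b₄ WeierstrassCurve.b₆ WeierstrassCurve.b₈
      linear_combination (-(X * X' * W.a₁ ^ 2 + 4 * X * X' * W.a₂ + 2 * X * X' ^ 2 +
        X * W.a₁ * W.a₃ + X * W.a₁ * y + X * W.a₄ + 2 * X ^ 2 * X' - X ^ 2 * W.a₂ - X ^ 3 -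
        X' * W.a₁ * W.a₃ - 2 * X' * W.a₁ * y' - X' ^ 2 * W.a₁ ^ 2 - 2 * X' ^ 2 * W.a₂ -
        2 * X' ^ 3 + W.a₃ * y - 2 * W.a₃ * y' + W.a₆ + y ^ 2 - 2 * y' ^ 2)) * hy +
        (-(X * X' * W.a₁ ^ 2 + 4 * X * X' * W.a₂ + 2 * X * X' ^ 2 - X * W.a₁ * W.a₃ -
        2 * X * W.a₄ + 2 * X ^ 2 * X' - X ^ 2 * W.a₁ ^ 2 - 4 * X ^ 2 * W.a₂ - 4 * X ^ 3 +
        X' * W.a₁ * W.a₃ + X' * W.a₁ * y' + X' * W.a₄ - X' ^ 2 * W.a₂ - X' ^ 3 + W.a₃ * y' -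
        W.a₆ + y' ^ 2)) * hy'
    · rw [eq_comm, inv_mul_eq_iff_eq_mul₀ hne2, e2, e4]
      have g2 : (X - X') ^ 2 * (R * 1 + 1 * R') =
          R * (X - X') ^ 2 + R' * (X - X') ^ 2 := by ring
      rw [g2, f1, f2]
      unfold WeierstrassCurve.b₂ WeierstrassCurve.b₄ WeierstrassCurve.b₆
      linear_combination (-2) * hy + (-2) * hy'
    · rw [eq_comm, inv_mul_eq_iff_eq_mul₀ hne2, e2, e4]
      ring

end

theorem tAS (h1 : S_Pts) : S_AS := by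
  intro L _ W hW P Q u v u' v' r t r' t' s m w hP hQ hs hd es em ew
  obtain ⟨k, X, Z, hk, n1, u1, v1⟩ := AS_ex h1 hW P u v hP
  obtain ⟨k', X', Z', hk', n2, u2, v2⟩ := AS_ex h1 hW Q u' v' hQ
  obtain ⟨l, R, T, hl, n3, u3, v3⟩ := AS_ex h1 hW (P + Q) r t hs
  obtain ⟨l', R', T', hl', n4, u4, v4⟩ := AS_ex h1 hW (P - Q) r' t' hd
  obtain ⟨c, hc, c1, c2, c3⟩ := AS_key h1 hW P Q X Z X' Z' R T R' T' n1 n2 n3 n4
  have hkk : (k * k') ^ 2 ≠ 0 := pow_ne_zero 2 (mul_ne_zero hk hk')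
  refine ⟨l * l' * c / (k * k') ^ 2, div_ne_zero (mul_ne_zero (mul_ne_zero hl hl') hc) hkk,
    ?_, ?_, ?_⟩
  · rw [div_mul_eq_mul_div, eq_div_iff hkk, es, em, ew, u1, v1, u2, v2, u3, u4]
    linear_combination (l * l' * (k * k') ^ 2) * c1
  · rw [div_mul_eq_mul_div, eq_div_iff hkk, es, em, ew, u1, v1, u2, v2, u3, u4, v3, v4]
    linear_combination (l * l' * (k * k') ^ 2) * c2
  · rw [div_mul_eq_mul_div, eq_div_iff hkk, es, em, ew, u1, v1, u2, v2, v3, v4]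
    linear_combination (l * l' * (k * k') ^ 2) * c3

end MP7Sh
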