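import Pool.Agent.Lib.MP_7f581e_Sh.SpecI

/-!
# MP_7f581e_nt, GA realizations of `PSL(2, l)`: module Ad2 (generic additivity, `N = 2`)
-/

set_option autoImplicit false

namespace MP7Sh

open Polynomial WeierstrassCurve

open scoped Classical

private theorem Ad2_congr {L : Type} [Field L] {W : WeierstrassCurve L} {P : W.toAffine.Point}
    {x y x' y' : L} (h : At P x y) (hx : x = x') (hy : y = y') : At P x' y' := by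
  subst hx hy
  exact h

private theorem Ad2_sum {L : Type} [Field L] {a b c p q r : L} (hab : a ≠ b) (hac : a ≠ c)
    (hbc : b ≠ c) (ha : a ^ 3 + p * a ^ 2 + q * a + r = 0)
    (hb : b ^ 3 + p * b ^ 2 + q * b + r = 0) (hc : c ^ 3 + p * c ^ 2 + q * c + r = 0) :
    a + b + c + p = 0 := by
  have h1 : a ^ 2 + a * b + b ^ 2 + p * (a + b) + q = 0 := by
    refine mul_left_cancel₀ (sub_ne_zero.2 hab) ?_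
    linear_combination ha - hb
  have h2 : a ^ 2 + a * c + c ^ 2 + p * (a + c) + q = 0 := by
    refine mul_left_cancel₀ (sub_ne_zero.2 hac) ?_
    linear_combination ha - hc
  refine mul_left_cancel₀ (sub_ne_zero.2 hbc) ?_
  linear_combination h1 - h2

/-- the image of a point on a line -/
private theorem Ad2_line {L : Type} [Field L] {x t θ m ν : L} (h2 : (2 : L) ≠ 0) (hθ : θ ≠ 0)
    (hx : x ≠ 0) (hν : ν ≠ 0) (e : (m * x + ν) ^ 2 = x ^ 3 + x ^ 2 + t * x) :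
    psy 2 θ t x (m * x + ν) = (m * ν - t) / (θ * ν) * psx 2 t x -
      (ν ^ 2 + m ^ 2 * t - m * ν) / (2 * θ * ν) := by
  show -((m * x + ν) * (x ^ 2 - t)) / (2 * θ * x ^ 2) =
    (m * ν - t) / (θ * ν) * (-(x ^ 2 + x + t) / (2 * x)) -
      (ν ^ 2 + m ^ 2 * t - m * ν) / (2 * θ * ν)
  field_simp
  linear_combination t * e

theorem tAd2 (h1 : S_Pts) (h2 : S_PsW) : S_Ad2 := by
  intro L _ θ t t' h2' hθ htt ht ht' P Q x₁ y₁ x₂ y₂ x₃ y₃ hP hQ hR h10 h20 h30 h12 h13 h23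
    g12 g13 g23
  have hN : ((2 : ℕ) : L) ≠ 0 := by exact_mod_cast h2'
  have hθ' : θ ^ 2 = -2 := hθ
  have hθ0 : θ ≠ 0 := by
    rintro rfl
    apply h2'
    linear_combination hθ'
  have htt' : t' + t = c0 2 L := by
    rw [add_comm]
    exact htt
  obtain ⟨w1, w2, -, -, -, -⟩ := h2 2 L θ t t' (Or.inl rfl) hN hθ htt ht ht'
  obtain ⟨v1, -, -, -, -, -⟩ := h2 2 L θ t' t (Or.inl rfl) hN hθ htt' ht' ht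
  obtain ⟨-, a2, -, -, -, -, a7, -, -, -, -, -⟩ := h1 L (Ec 2 t) w1
  obtain ⟨-, b2, -, b4, -, -, b7, -, -, -, -, -⟩ := h1 L (Ec 2 t') v1
  obtain ⟨m, hm⟩ : ∃ m, m * (x₁ - x₂) = y₁ - y₂ :=
    ⟨(y₁ - y₂) / (x₁ - x₂), div_mul_cancel₀ _ (sub_ne_zero.2 h12)⟩
  have hR' := a7 P Q x₁ y₁ x₂ y₂ m hP hQ h12 hm
  have hx₃ : x₃ = m ^ 2 - 1 - x₁ - x₂ := by
    rw [← (a2 _ _ _ hR).2.1, (a2 _ _ _ hR').2.1]
    show m ^ 2 + 0 * m - 1 - x₁ - x₂ = _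
    ring
  have hy₃ : y₃ = -(m * (x₃ - x₁) + y₁) := by
    rw [hx₃, ← (a2 _ _ _ hR).2.2.1, (a2 _ _ _ hR').2.2.1]
    show -(m * ((m ^ 2 + 0 * m - 1 - x₁ - x₂) - x₁) + y₁) -
      0 * (m ^ 2 + 0 * m - 1 - x₁ - x₂) - 0 = _
    ring
  have e₁ : y₁ ^ 2 = x₁ ^ 3 + x₁ ^ 2 + t * x₁ := by
    have : y₁ ^ 2 + 0 * x₁ * y₁ + 0 * y₁ = x₁ ^ 3 + 1 * x₁ ^ 2 + t * x₁ + 0 :=
      (a2 _ _ _ hP).2.2.2
    linear_combination this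
  have e₂ : y₂ ^ 2 = x₂ ^ 3 + x₂ ^ 2 + t * x₂ := by
    have : y₂ ^ 2 + 0 * x₂ * y₂ + 0 * y₂ = x₂ ^ 3 + 1 * x₂ ^ 2 + t * x₂ + 0 :=
      (a2 _ _ _ hQ).2.2.2
    linear_combination this
  have e₃ : y₃ ^ 2 = x₃ ^ 3 + x₃ ^ 2 + t * x₃ := by
    have : y₃ ^ 2 + 0 * x₃ * y₃ + 0 * y₃ = x₃ ^ 3 + 1 * x₃ ^ 2 + t * x₃ + 0 :=
      (a2 _ _ _ hR).2.2.2
    linear_combination this
  obtain ⟨ν, hν⟩ : ∃ ν, ν = y₁ - m * x₁ := ⟨_, rfl⟩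
  have l₁ : y₁ = m * x₁ + ν := by rw [hν]; ring
  have l₂ : y₂ = m * x₂ + ν := by rw [hν]; linear_combination hm
  have l₃ : -y₃ = m * x₃ + ν := by rw [hν, hy₃]; ring
  have p2' : x₁ ^ 2 + x₁ * x₂ + x₂ ^ 2 + (1 - m ^ 2) * (x₁ + x₂) + t - 2 * m * ν = 0 := by
    refine mul_left_cancel₀ (sub_ne_zero.2 h12) ?_
    rw [l₁] at e₁
    rw [l₂] at e₂
    linear_combination e₂ - e₁
  have hprod : x₁ * x₂ * x₃ = ν ^ 2 := by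
    rw [hx₃]
    rw [l₁] at e₁
    linear_combination -e₁ - x₁ * p2'
  have hν0 : ν ≠ 0 := by
    rintro rfl
    exact mul_ne_zero (mul_ne_zero h10 h20) h30 (by rw [hprod]; ring)
  obtain ⟨lam, hlam⟩ : ∃ lam, lam = (m * ν - t) / (θ * ν) := ⟨_, rfl⟩
  obtain ⟨nu, hnu⟩ : ∃ nu, nu = (ν ^ 2 + m ^ 2 * t - m * ν) / (2 * θ * ν) := ⟨_, rfl⟩
  have i₁ := Ad2_line (θ := θ) h2' hθ0 h10 hν0 (by rw [← l₁]; exact e₁)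
  have i₂ := Ad2_line (θ := θ) h2' hθ0 h20 hν0 (by rw [← l₂]; exact e₂)
  have i₃ := Ad2_line (θ := θ) h2' hθ0 h30 hν0 (by rw [← l₃, neg_sq]; exact e₃)
  rw [← l₁, ← hlam, ← hnu] at i₁
  rw [← l₂, ← hlam, ← hnu] at i₂
  rw [← l₃, ← hlam, ← hnu] at i₃
  have hneg : psy 2 θ t x₃ (-y₃) = -psy 2 θ t x₃ y₃ := by
    show -(-y₃ * (x₃ ^ 2 - t)) / (2 * θ * x₃ ^ 2) = -(-(y₃ * (x₃ ^ 2 - t)) / (2 * θ * x₃ ^ 2))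
    ring
  rw [hneg] at i₃
  have P' := w2 _ _ _ hP h10
  have Q' := w2 _ _ _ hQ h20
  have R' := w2 _ _ _ hR h30
  obtain ⟨X₁, hX₁⟩ : ∃ X, X = psx 2 t x₁ := ⟨_, rfl⟩
  obtain ⟨X₂, hX₂⟩ : ∃ X, X = psx 2 t x₂ := ⟨_, rfl⟩
  obtain ⟨X₃, hX₃⟩ : ∃ X, X = psx 2 t x₃ := ⟨_, rfl⟩
  obtain ⟨Y₁, hY₁⟩ : ∃ Y, Y = psy 2 θ t x₁ y₁ := ⟨_, rfl⟩
  obtain ⟨Y₂, hY₂⟩ : ∃ Y, Y = psy 2 θ t x₂ y₂ := ⟨_, rfl⟩
  obtain ⟨Y₃, hY₃⟩ : ∃ Y, Y = psy 2 θ t x₃ y₃ := ⟨_, rfl⟩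
  rw [← hX₁, ← hY₁] at P' i₁
  rw [← hX₂, ← hY₂] at Q' i₂
  rw [← hX₃, ← hY₃] at R' i₃
  rw [← hX₁, ← hX₂] at g12
  rw [← hX₁, ← hX₃] at g13
  rw [← hX₂, ← hX₃] at g23
  have E₁ : Y₁ ^ 2 + 0 * X₁ * Y₁ + 0 * Y₁ = X₁ ^ 3 + 1 * X₁ ^ 2 + t' * X₁ + 0 :=
    (b2 _ _ _ P').2.2.2
  have E₂ : Y₂ ^ 2 + 0 * X₂ * Y₂ + 0 * Y₂ = X₂ ^ 3 + 1 * X₂ ^ 2 + t' * X₂ + 0 :=
    (b2 _ _ _ Q').2.2.2
  have E₃ : Y₃ ^ 2 + 0 * X₃ * Y₃ + 0 * Y₃ = X₃ ^ 3 + 1 * X₃ ^ 2 + t' * X₃ + 0 :=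
    (b2 _ _ _ R').2.2.2
  have S := Ad2_sum (p := 1 - lam ^ 2) (q := t' + 2 * lam * nu) (r := -nu ^ 2) g12 g13 g23
    (by rw [i₁] at E₁; linear_combination -E₁) (by rw [i₂] at E₂; linear_combination -E₂)
    (by
      have : Y₃ = -(lam * X₃ - nu) := by linear_combination -i₃
      rw [this] at E₃
      linear_combination -E₃)
  have T := b7 _ _ X₁ Y₁ X₂ Y₂ lam P' Q' g12 (by rw [i₁, i₂]; ring)
  refine b4 _ _ _ _ R' (Ad2_congr T ?_ ?_)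
  · show lam ^ 2 + 0 * lam - 1 - X₁ - X₂ = X₃
    linear_combination -S
  · show -(lam * ((lam ^ 2 + 0 * lam - 1 - X₁ - X₂) - X₁) + Y₁) -
      0 * (lam ^ 2 + 0 * lam - 1 - X₁ - X₂) - 0 = Y₃
    linear_combination -i₁ + i₃ + lam * S

end MP7Sh
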