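import Pool.Agent.Lib.MP_7f581e_Sh.SpecI

set_option autoImplicit false

namespace MP7Sh

open Polynomial WeierstrassCurve

open scoped Classical

/-- The determinant of the reduced forms. -/
private theorem Ad3_coef {L : Type} [Field L] (l n t e1 e2 e3 : L) (h1 : e1 = l ^ 2 + l)
    (h2 : e2 = 2 * l * n + n + t * l) (h3 : e3 = n ^ 2 + t * n) :
    (l * (e1 ^ 2 + e2) + n * e1 - t * (1 + l)) * ((e1 * e2 + e3 + t ^ 2) * e3 - e1 * e3 * e2) -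
      (l * (e1 * e2 + e3) + n * e2 - t ^ 2 * (2 * l + 2) - t * n) *
        ((e1 ^ 2 + e2 + t) * e3 - e1 * e3 * e1) +
      (l * e1 * e3 + n * e3 - t ^ 2 * (2 * n + t)) *
        ((e1 ^ 2 + e2 + t) * e2 - (e1 * e2 + e3 + t ^ 2) * e1) = 0 := by
  subst h1 h2 h3
  ring

/-- Reduction of `x ^ 3 Y`. -/
private theorem Ad3_U {L : Type} [Field L] (l n t x e1 e2 e3 : L)
    (hc : x ^ 3 = e1 * x ^ 2 + e2 * x + e3) :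
    x ^ 3 * (l * x + n) - t ^ 2 * (2 * (l * x + n) + x + t) - t * x * (x + (l * x + n)) -
      t ^ 2 * x =
    (l * (e1 ^ 2 + e2) + n * e1 - t * (1 + l)) * x ^ 2 +
      (l * (e1 * e2 + e3) + n * e2 - t ^ 2 * (2 * l + 2) - t * n) * x +
      (l * e1 * e3 + n * e3 - t ^ 2 * (2 * n + t)) := by
  linear_combination (l * x + n + l * e1) * hc

/-- Reduction of `x ^ 3 X`. -/
private theorem Ad3_V {L : Type} [Field L] (t x e1 e2 e3 : L)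
    (hc : x ^ 3 = e1 * x ^ 2 + e2 * x + e3) :
    x * (x ^ 3 + t * x + t ^ 2) =
      (e1 ^ 2 + e2 + t) * x ^ 2 + (e1 * e2 + e3 + t ^ 2) * x + e1 * e3 := by
  linear_combination (x + e1) * hc

/-- A determinant of values is a Vandermonde determinant times the determinant of the
coefficients. -/
private theorem Ad3_det {L : Type} [Field L] (x₁ x₂ x₃ a b c a' b' c' e1 e2 e3 : L)
    (h : a * (b' * e3 - c' * e2) - b * (a' * e3 - c' * e1) + c * (a' * e2 - b' * e1) = 0) :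
    (a * x₁ ^ 2 + b * x₁ + c) * ((a' * x₂ ^ 2 + b' * x₂ + c') * (e1 * x₃ ^ 2 + e2 * x₃ + e3) -
      (a' * x₃ ^ 2 + b' * x₃ + c') * (e1 * x₂ ^ 2 + e2 * x₂ + e3)) -
    (a * x₂ ^ 2 + b * x₂ + c) * ((a' * x₁ ^ 2 + b' * x₁ + c') * (e1 * x₃ ^ 2 + e2 * x₃ + e3) -
      (a' * x₃ ^ 2 + b' * x₃ + c') * (e1 * x₁ ^ 2 + e2 * x₁ + e3)) +
    (a * x₃ ^ 2 + b * x₃ + c) * ((a' * x₁ ^ 2 + b' * x₁ + c') * (e1 * x₂ ^ 2 + e2 * x₂ + e3) -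
      (a' * x₂ ^ 2 + b' * x₂ + c') * (e1 * x₁ ^ 2 + e2 * x₁ + e3)) = 0 := by
  linear_combination ((x₁ - x₂) * (x₁ - x₃) * (x₂ - x₃)) * h

/-- Three points of a curve on a line, with different abscissae. -/
private theorem Ad3_line (h : S_Pts) {L : Type} [Field L] (W : WeierstrassCurve L) (hΔ : W.Δ ≠ 0)
    (A B C : W.toAffine.Point) (a₁ b₁ a₂ b₂ a₃ b₃ : L) (hA : At A a₁ b₁) (hB : At B a₂ b₂)
    (hC : At C a₃ b₃) (h12 : a₁ ≠ a₂) (h13 : a₁ ≠ a₃) (h23 : a₂ ≠ a₃)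
    (hcol : (b₁ - b₂) * (a₁ - a₃) = (b₁ - b₃) * (a₁ - a₂)) : A + B = -C := by
  obtain ⟨-, p2, -, p4, p5, -, p7, -⟩ := h L W hΔ
  have d12 : a₁ - a₂ ≠ 0 := sub_ne_zero.2 h12
  have d13 : a₁ - a₃ ≠ 0 := sub_ne_zero.2 h13
  have d23 : a₂ - a₃ ≠ 0 := sub_ne_zero.2 h23
  obtain ⟨m, hm⟩ : ∃ m, m * (a₁ - a₂) = b₁ - b₂ := ⟨(b₁ - b₂) / (a₁ - a₂), div_mul_cancel₀ _ d12⟩
  have hm3 : m * (a₁ - a₃) = b₁ - b₃ := by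
    apply mul_right_cancel₀ d12
    linear_combination (a₁ - a₃) * hm + hcol
  obtain ⟨n, hn⟩ : ∃ n, n = b₁ - m * a₁ := ⟨_, rfl⟩
  have e1 := (p2 A a₁ b₁ hA).2.2.2
  have e2 := (p2 B a₂ b₂ hB).2.2.2
  have e3 := (p2 C a₃ b₃ hC).2.2.2
  have hb1 : b₁ = m * a₁ + n := by rw [hn]; ring
  have hb2 : b₂ = m * a₂ + n := by linear_combination hb1 + hm
  have hb3 : b₃ = m * a₃ + n := by linear_combination hb1 + hm3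
  have hsum : a₃ = m ^ 2 + W.a₁ * m - W.a₂ - a₁ - a₂ := by
    rw [hb1] at e1
    rw [hb2] at e2
    rw [hb3] at e3
    have g12 : a₁ ^ 2 + a₁ * a₂ + a₂ ^ 2 + W.a₂ * (a₁ + a₂) + W.a₄ - m ^ 2 * (a₁ + a₂) -
        2 * m * n - W.a₁ * (m * (a₁ + a₂) + n) - W.a₃ * m = 0 := by
      apply mul_left_cancel₀ d12
      linear_combination e2 - e1
    have g13 : a₁ ^ 2 + a₁ * a₃ + a₃ ^ 2 + W.a₂ * (a₁ + a₃) + W.a₄ - m ^ 2 * (a₁ + a₃) -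
        2 * m * n - W.a₁ * (m * (a₁ + a₃) + n) - W.a₃ * m = 0 := by
      apply mul_left_cancel₀ d13
      linear_combination e3 - e1
    apply mul_left_cancel₀ d23
    linear_combination g12 - g13
  have h7 := p7 A B a₁ b₁ a₂ b₂ m hA hB h12 hm
  rw [← hsum] at h7
  have h5 := p5 C a₃ b₃ hC
  refine p4 _ _ _ _ h7 ?_
  have e : -(m * (a₃ - a₁) + b₁) - W.a₁ * a₃ - W.a₃ = -b₃ - W.a₁ * a₃ - W.a₃ := by
    linear_combination hm3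
  rw [e]
  exact h5

/-- The abscissa of the image. -/
private theorem Ad3_a {L : Type} [Field L] (t x : L) (h3 : (3 : L) ≠ 0) (hx : x ≠ 0) :
    9 * x ^ 3 * psx 3 t x = -3 * (x * (x ^ 3 + t * x + t ^ 2)) - x ^ 3 := by
  have h9 : (9 : L) ≠ 0 := by
    rw [show (9 : L) = 3 * 3 by norm_num]
    exact mul_ne_zero h3 h3
  unfold psx
  rw [if_neg (by norm_num)]
  field_simp
  ring

/-- The ordinate of the image. -/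
private theorem Ad3_b {L : Type} [Field L] (θ t x y : L) (h3 : (3 : L) ≠ 0) (hx : x ≠ 0)
    (hθ : 1 + 2 * θ ≠ 0) :
    -3 * (1 + 2 * θ) * x ^ 3 * psy 3 θ t x y =
      (x ^ 3 * y - t ^ 2 * (2 * y + x + t) - t * x * (x + y) - t ^ 2 * x) +
        3 * θ * x ^ 3 * psx 3 t x - (9⁻¹ - θ * 9⁻¹ + t + 3 * θ * t) * x ^ 3 := by
  unfold psy psx
  rw [if_neg (by norm_num), if_neg (by norm_num)]
  obtain ⟨w, hw⟩ : ∃ w, w = -(x ^ 3 + t * x + t ^ 2) / (3 * x ^ 2) - 9⁻¹ := ⟨_, rfl⟩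
  rw [← hw]
  obtain ⟨r, hr⟩ : ∃ r : L, r = 9⁻¹ := ⟨_, rfl⟩
  rw [← hr]
  field_simp

/-- The images are on a line. -/
private theorem Ad3_col {L : Type} [Field L] (θ t l n : L) (h3 : (3 : L) ≠ 0)
    (hθ : 1 + 2 * θ ≠ 0) (x₁ x₂ x₃ : L) (hx1 : x₁ ≠ 0) (hx2 : x₂ ≠ 0) (hx3 : x₃ ≠ 0)
    (hc1 : (l * x₁ + n) ^ 2 + x₁ * (l * x₁ + n) + t * (l * x₁ + n) = x₁ ^ 3)
    (hc2 : (l * x₂ + n) ^ 2 + x₂ * (l * x₂ + n) + t * (l * x₂ + n) = x₂ ^ 3)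
    (hc3 : (l * x₃ + n) ^ 2 + x₃ * (l * x₃ + n) + t * (l * x₃ + n) = x₃ ^ 3) :
    (psy 3 θ t x₁ (l * x₁ + n) - psy 3 θ t x₂ (l * x₂ + n)) * (psx 3 t x₁ - psx 3 t x₃) =
      (psy 3 θ t x₁ (l * x₁ + n) - psy 3 θ t x₃ (l * x₃ + n)) * (psx 3 t x₁ - psx 3 t x₂) := by
  obtain ⟨e1, he1⟩ : ∃ e, e = l ^ 2 + l := ⟨_, rfl⟩
  obtain ⟨e2, he2⟩ : ∃ e, e = 2 * l * n + n + t * l := ⟨_, rfl⟩
  obtain ⟨e3, he3⟩ : ∃ e, e = n ^ 2 + t * n := ⟨_, rfl⟩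
  have g1 : x₁ ^ 3 = e1 * x₁ ^ 2 + e2 * x₁ + e3 := by
    rw [he1, he2, he3]
    linear_combination -hc1
  have g2 : x₂ ^ 3 = e1 * x₂ ^ 2 + e2 * x₂ + e3 := by
    rw [he1, he2, he3]
    linear_combination -hc2
  have g3 : x₃ ^ 3 = e1 * x₃ ^ 2 + e2 * x₃ + e3 := by
    rw [he1, he2, he3]
    linear_combination -hc3
  have key := Ad3_det x₁ x₂ x₃ _ _ _ _ _ _ e1 e2 e3 (Ad3_coef l n t e1 e2 e3 he1 he2 he3)
  rw [← Ad3_U l n t x₁ e1 e2 e3 g1, ← Ad3_U l n t x₂ e1 e2 e3 g2, ← Ad3_U l n t x₃ e1 e2 e3 g3,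
    ← Ad3_V t x₁ e1 e2 e3 g1, ← Ad3_V t x₂ e1 e2 e3 g2, ← Ad3_V t x₃ e1 e2 e3 g3,
    ← g1, ← g2, ← g3] at key
  have A1 := Ad3_a t x₁ h3 hx1
  have A2 := Ad3_a t x₂ h3 hx2
  have A3 := Ad3_a t x₃ h3 hx3
  have B1 := Ad3_b θ t x₁ (l * x₁ + n) h3 hx1 hθ
  have B2 := Ad3_b θ t x₂ (l * x₂ + n) h3 hx2 hθ
  have B3 := Ad3_b θ t x₃ (l * x₃ + n) h3 hx3 hθ
  obtain ⟨τ, hτ⟩ : ∃ τ, τ = 9⁻¹ - θ * 9⁻¹ + t + 3 * θ * t := ⟨_, rfl⟩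
  rw [← hτ] at B1 B2 B3
  obtain ⟨U₁, hU1⟩ : ∃ U, U = x₁ ^ 3 * (l * x₁ + n) - t ^ 2 * (2 * (l * x₁ + n) + x₁ + t) -
    t * x₁ * (x₁ + (l * x₁ + n)) - t ^ 2 * x₁ := ⟨_, rfl⟩
  obtain ⟨U₂, hU2⟩ : ∃ U, U = x₂ ^ 3 * (l * x₂ + n) - t ^ 2 * (2 * (l * x₂ + n) + x₂ + t) -
    t * x₂ * (x₂ + (l * x₂ + n)) - t ^ 2 * x₂ := ⟨_, rfl⟩
  obtain ⟨U₃, hU3⟩ : ∃ U, U = x₃ ^ 3 * (l * x₃ + n) - t ^ 2 * (2 * (l * x₃ + n) + x₃ + t) -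
    t * x₃ * (x₃ + (l * x₃ + n)) - t ^ 2 * x₃ := ⟨_, rfl⟩
  rw [← hU1, ← hU2, ← hU3] at key
  rw [← hU1] at B1
  rw [← hU2] at B2
  rw [← hU3] at B3
  obtain ⟨V₁, hV1⟩ : ∃ V, V = x₁ * (x₁ ^ 3 + t * x₁ + t ^ 2) := ⟨_, rfl⟩
  obtain ⟨V₂, hV2⟩ : ∃ V, V = x₂ * (x₂ ^ 3 + t * x₂ + t ^ 2) := ⟨_, rfl⟩
  obtain ⟨V₃, hV3⟩ : ∃ V, V = x₃ * (x₃ ^ 3 + t * x₃ + t ^ 2) := ⟨_, rfl⟩
  rw [← hV1, ← hV2, ← hV3] at key
  rw [← hV1] at A1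
  rw [← hV2] at A2
  rw [← hV3] at A3
  have hu1 : x₁ ^ 3 ≠ 0 := pow_ne_zero 3 hx1
  have hu2 : x₂ ^ 3 ≠ 0 := pow_ne_zero 3 hx2
  have hu3 : x₃ ^ 3 ≠ 0 := pow_ne_zero 3 hx3
  generalize x₁ ^ 3 = u₁ at *
  generalize x₂ ^ 3 = u₂ at *
  generalize x₃ ^ 3 = u₃ at *
  generalize psy 3 θ t x₁ (l * x₁ + n) = b₁ at *
  generalize psy 3 θ t x₂ (l * x₂ + n) = b₂ at *
  generalize psy 3 θ t x₃ (l * x₃ + n) = b₃ at *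
  generalize psx 3 t x₁ = a₁ at *
  generalize psx 3 t x₂ = a₂ at *
  generalize psx 3 t x₃ = a₃ at *
  have hne : (-27 : L) * (1 + 2 * θ) * (u₁ * u₂ * u₃) ≠ 0 := by
    refine mul_ne_zero (mul_ne_zero ?_ hθ) (mul_ne_zero (mul_ne_zero hu1 hu2) hu3)
    rw [show (-27 : L) = -(3 * 3 * 3) by norm_num]
    exact neg_ne_zero.2 (mul_ne_zero (mul_ne_zero h3 h3) h3)
  apply mul_left_cancel₀ hne
  have s1 : U₁ * (V₂ * u₃ - V₃ * u₂) - U₂ * (V₁ * u₃ - V₃ * u₁) + U₃ * (V₁ * u₂ - V₂ * u₁) = 0 := key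
  linear_combination (9 * a₂ * u₂ * u₃ - 9 * a₃ * u₃ * u₂) * B1 -
    (9 * a₁ * u₁ * u₃ - 9 * a₃ * u₃ * u₁) * B2 + (9 * a₁ * u₁ * u₂ - 9 * a₂ * u₂ * u₁) * B3 +
    (U₃ * u₂ - U₂ * u₃) * A1 + (U₁ * u₃ - U₃ * u₁) * A2 + (U₂ * u₁ - U₁ * u₂) * A3 - 3 * s1

/-- The image of the negative point. -/
private theorem Ad3_neg {L : Type} [Field L] (θ t t' x y : L) (h3 : (3 : L) ≠ 0) (hx : x ≠ 0)
    (hθ : 1 + 2 * θ ≠ 0) (ht : t + t' = 27⁻¹) :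
    psy 3 θ t x y = -psy 3 θ t x (-y - 1 * x - t) - 1 * psx 3 t x - t' := by
  have B1 := Ad3_b θ t x y h3 hx hθ
  have B2 := Ad3_b θ t x (-y - 1 * x - t) h3 hx hθ
  have A1 := Ad3_a t x h3 hx
  have hne : (-3 : L) * (1 + 2 * θ) * x ^ 3 ≠ 0 :=
    mul_ne_zero (mul_ne_zero (neg_ne_zero.2 h3) hθ) (pow_ne_zero 3 hx)
  have h27 : (27 : L) * 27⁻¹ = 1 := by
    apply mul_inv_cancel₀
    rw [show (27 : L) = 3 * 3 * 3 by norm_num]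
    exact mul_ne_zero (mul_ne_zero h3 h3) h3
  have h9 : (9 : L)⁻¹ = 3 * 27⁻¹ := by
    apply inv_eq_of_mul_eq_one_right
    linear_combination h27
  rw [h9, ← ht] at B1 B2
  rw [← ht] at h27
  have A2 : -(x * (x ^ 3 + t * x + t ^ 2)) = 3 * x ^ 3 * psx 3 t x + 9 * x ^ 3 * (t + t') := by
    apply mul_left_cancel₀ h3
    linear_combination -A1 - x ^ 3 * h27
  apply mul_left_cancel₀ hne
  linear_combination B1 + B2 + A2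

theorem tAd3 (h1 : S_Pts) (h2 : S_PsW) : S_Ad3 := by
  intro L _ θ t t' h3 hθ ht ht0 ht0' P Q x₁ y₁ x₂ y₂ x₃ y₃ hP hQ hS hx1 hx2 hx3 h12 h13 h23
    g12 g13 g23
  have hN : ((3 : ℕ) : L) ≠ 0 := by exact_mod_cast h3
  have ht2 : t' + t = c0 3 L := by rw [add_comm]; exact ht
  obtain ⟨hΔ, hps, -⟩ := h2 3 L θ t t' (Or.inr rfl) hN hθ ht ht0 ht0'
  obtain ⟨hΔ', -⟩ := h2 3 L θ t' t (Or.inr rfl) hN hθ ht2 ht0' ht0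
  have hθ2 : θ ^ 2 + θ + 1 = 0 := by
    have h := hθ
    unfold Rt at h
    rwa [if_neg (by norm_num)] at h
  have hθ1 : 1 + 2 * θ ≠ 0 := by
    intro h
    apply h3
    linear_combination (1 + 2 * θ) * h * (-1) + 4 * hθ2
  have ht27 : t + t' = 27⁻¹ := by
    have h := ht
    unfold c0 at h
    rwa [if_neg (by norm_num)] at h
  have hE : ∀ s : L, Ec 3 s = ⟨1, 0, s, 0, 0⟩ := fun s => by
    unfold Ec
    rw [if_neg (by norm_num)]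
  have e1 : (Ec 3 t).a₁ = 1 := by rw [hE]
  have e2 : (Ec 3 t).a₂ = 0 := by rw [hE]
  have e3 : (Ec 3 t).a₃ = t := by rw [hE]
  have e4 : (Ec 3 t).a₄ = 0 := by rw [hE]
  have e6 : (Ec 3 t).a₆ = 0 := by rw [hE]
  have e1' : (Ec 3 t').a₁ = 1 := by rw [hE]
  have e3' : (Ec 3 t').a₃ = t' := by rw [hE]
  obtain ⟨-, p2, -, p4, p5, -, p7, -⟩ := h1 L (Ec 3 t) hΔ
  obtain ⟨-, -, -, q4, q5, -, -, -⟩ := h1 L (Ec 3 t') hΔ'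
  rw [e1, e2, e3, e4, e6] at p2
  rw [e1, e3] at p5
  rw [e1, e2, e3] at p7
  rw [e1', e3'] at q5
  -- the line
  have d12 : x₁ - x₂ ≠ 0 := sub_ne_zero.2 h12
  obtain ⟨l, hl⟩ : ∃ l, l * (x₁ - x₂) = y₁ - y₂ := ⟨(y₁ - y₂) / (x₁ - x₂), div_mul_cancel₀ _ d12⟩
  obtain ⟨n, hn⟩ : ∃ n, n = y₁ - l * x₁ := ⟨_, rfl⟩
  have f1 : y₁ = l * x₁ + n := by rw [hn]; ring
  have f2 : y₂ = l * x₂ + n := by linear_combination f1 + hl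
  have h7 := p7 P Q x₁ y₁ x₂ y₂ l hP hQ h12 hl
  have k1 := p2 (P + Q) _ _ h7
  have k2 := p2 (P + Q) _ _ hS
  have k3 : l ^ 2 + 1 * l - 0 - x₁ - x₂ = x₃ := k1.2.1.symm.trans k2.2.1
  have k4 := k1.2.2.1.symm.trans k2.2.2.1
  rw [k3] at k4
  -- the third point
  have hR := p5 (P + Q) x₃ y₃ hS
  have f3 : -y₃ - 1 * x₃ - t = l * x₃ + n := by linear_combination k4 + f1
  have c1 := (p2 P _ _ hP).2.2.2
  have c2 := (p2 Q _ _ hQ).2.2.2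
  have c3 := (p2 _ _ _ hR).2.2.2
  have hA := hps P x₁ y₁ hP hx1
  have hB := hps Q x₂ y₂ hQ hx2
  have hC := hps _ x₃ _ hR hx3
  have hD := hps _ x₃ y₃ hS hx3
  rw [Ad3_neg θ t t' x₃ y₃ h3 hx3 hθ1 ht27] at hD
  rw [f1] at c1 hA
  rw [f2] at c2 hB
  rw [f3] at c3 hC hD
  have hcol := Ad3_col θ t l n h3 hθ1 x₁ x₂ x₃ hx1 hx2 hx3 (by linear_combination c1)
    (by linear_combination c2) (by linear_combination c3)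
  have hfin := Ad3_line h1 (Ec 3 t') hΔ' _ _ _ _ _ _ _ _ _ hA hB hC g12 g13 g23 hcol
  rw [hfin]
  exact q4 _ _ _ _ hD (q5 _ _ _ hC)

end MP7Sh
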