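import Pool.Agent.Lib.MP_7f581e_Sh.SpecA

/-!
# MP_7f581e_nt, GA realizations of `PSL(2, l)`: the arithmetic of the representation (`S_Ari`)

The proof is uniform in `p`: `ψ = Φ`, `y = T`, or `ψ = Φ σ₃`, `y = a T + b` with `a ^ p = - a`, `a ≠ 0`, `b ^ p = b + a c`; the
group `Γ` is the one of `S_Gam` for `ψ`.
-/

set_option autoImplicit false

namespace MP7Sh

open Polynomial WeierstrassCurve

open scoped Classical

private theorem c0_map {L M : Type} [Field L] [Field M] (f : L →+* M) (N : ℕ) :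
    f (c0 N L) = c0 N M := by
  unfold c0
  split_ifs
  · rw [map_inv₀, map_ofNat]
  · rw [map_inv₀, map_ofNat]

private theorem ec_map {L M : Type} [Field L] [Field M] (f : L →+* M) (N : ℕ) (t : L) :
    Ec N (f t) = (Ec N t).map f := by
  unfold Ec
  split_ifs <;> ext <;> simp

private theorem ec_disc {L : Type} [Field L] {N : ℕ} (hN : N = 2 ∨ N = 3) (hk : (N : L) ≠ 0)
    {t : L} (ht : t ≠ 0) (ht' : c0 N L - t ≠ 0) : (Ec N t).Δ ≠ 0 := by
  rcases hN with rfl | rfl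
  · have h2 : (2 : L) ≠ 0 := by exact_mod_cast hk
    have h4 : (4 : L) ≠ 0 := by
      rw [show (4 : L) = 2 * 2 by norm_num]
      exact mul_ne_zero h2 h2
    have h1 : (Ec 2 t).Δ = 4 * 4 * t ^ 2 * (4 * (c0 2 L - t)) := by
      have h5 : (4 : L) * c0 2 L = 1 := by
        simp only [c0, if_pos]
        exact mul_inv_cancel₀ h4
      simp only [Ec, if_pos, WeierstrassCurve.Δ, WeierstrassCurve.b₂, WeierstrassCurve.b₄,
        WeierstrassCurve.b₆, WeierstrassCurve.b₈]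
      linear_combination (-16 * t ^ 2) * h5
    rw [h1]
    exact mul_ne_zero (mul_ne_zero (mul_ne_zero h4 h4) (pow_ne_zero 2 ht)) (mul_ne_zero h4 ht')
  · have h3 : (3 : L) ≠ 0 := by exact_mod_cast hk
    have h27 : (27 : L) ≠ 0 := by
      rw [show (27 : L) = 3 ^ 3 by norm_num]
      exact pow_ne_zero 3 h3
    have h1 : (Ec 3 t).Δ = t ^ 3 * (27 * (c0 3 L - t)) := by
      have h5 : (27 : L) * c0 3 L = 1 := by
        simp only [c0]
        rw [if_neg (by norm_num)]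
        exact mul_inv_cancel₀ h27
      simp only [Ec, WeierstrassCurve.Δ, WeierstrassCurve.b₂, WeierstrassCurve.b₄,
        WeierstrassCurve.b₆, WeierstrassCurve.b₈]
      rw [if_neg (by norm_num)]
      linear_combination (-t ^ 3) * h5
    rw [h1]
    exact mul_ne_zero (pow_ne_zero 3 ht) (mul_ne_zero h27 ht')

private theorem isM_unique {L : Type} [Field L] {l : ℕ} {W : WeierstrassCurve L}
    (e : Tl l W ≃+ (Fin 2 → ZMod l)) {A : W.toAffine.Point → W.toAffine.Point}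
    {M M' : Matrix (Fin 2) (Fin 2) (ZMod l)} (h : IsM e A M) (h' : IsM e A M') : M = M' := by
  have h1 : ∀ w : Fin 2 → ZMod l, M.mulVec w = M'.mulVec w := by
    intro w
    obtain ⟨v, rfl⟩ := e.surjective w
    have h2 := (h v).symm.trans (h' v)
    exact e.symm.injective (Subtype.ext h2)
  exact Matrix.mulVec_injective (funext h1)

private theorem at_px {L : Type} [Field L] {W : WeierstrassCurve L} {P : W.toAffine.Point}
    {x y : L} (h : At P x y) : px P = x ∧ py P = y := by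
  obtain ⟨h1, rfl⟩ := h
  exact ⟨rfl, rfl⟩

private theorem at_cases {L : Type} [Field L] {W : WeierstrassCurve L} (P : W.toAffine.Point) :
    P = 0 ∨ At P (px P) (py P) := by
  cases P with
  | zero => exact Or.inl rfl
  | some x y h => exact Or.inr ⟨h, rfl⟩

private theorem at_unique {L : Type} [Field L] {W : WeierstrassCurve L} {P Q : W.toAffine.Point}
    {x y : L} (h : At P x y) (h' : At Q x y) : P = Q := by
  obtain ⟨h1, rfl⟩ := h
  obtain ⟨h2, rfl⟩ := h'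
  rfl

/-- The coordinates of the points of order `l`. -/
private def Zs (l N : ℕ) {Ω : Type} [Field Ω] (u : Ω) : Set Ω :=
  {z | ∃ P : (Ec N u).toAffine.Point, P ∈ Tl l (Ec N u) ∧ (z = px P ∨ z = py P)}

private theorem tl_pm (h2 : S_Pm) {l N : ℕ} {Ω : Type} [Field Ω] (σ : Ω →+* Ω) {u u' : Ω}
    (hu : σ u = u') (hΔ : (Ec N u).Δ ≠ 0) {P : (Ec N u).toAffine.Point}
    (hP : P ∈ Tl l (Ec N u)) : pm (Ec N u) (Ec N u') σ P ∈ Tl l (Ec N u') := by
  subst hu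
  obtain ⟨m1, -, -, -, -, -, m7, -⟩ := h2 Ω Ω σ (Ec N u) (Ec N (σ u)) hΔ (ec_map σ N u)
  have hP' : l • P = 0 := hP
  change l • pm (Ec N u) (Ec N (σ u)) σ P = 0
  rw [← m7, hP', m1]

private theorem zs_map (h2 : S_Pm) {l N : ℕ} {Ω : Type} [Field Ω] (σ : Ω →+* Ω) {u u' : Ω}
    (hu : σ u = u') (hΔ : (Ec N u).Δ ≠ 0) {z : Ω} (hz : z ∈ Zs l N u) : σ z ∈ Zs l N u' := by
  obtain ⟨P, hP, hz⟩ := hz
  rcases at_cases P with h0 | h0
  · refine ⟨0, zero_mem _, Or.inl ?_⟩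
    have hz0 : z = 0 := by
      rcases hz with rfl | rfl <;> rw [h0] <;> rfl
    rw [hz0, map_zero]
    rfl
  · refine ⟨pm (Ec N u) (Ec N u') σ P, tl_pm h2 σ hu hΔ hP, ?_⟩
    subst hu
    obtain ⟨-, m2, -⟩ := h2 Ω Ω σ (Ec N u) (Ec N (σ u)) hΔ (ec_map σ N u)
    obtain ⟨h3, h4⟩ := at_px (m2 P _ _ h0)
    rcases hz with rfl | rfl
    · exact Or.inl h3.symm
    · exact Or.inr h4.symm

private theorem zs_finite {l N : ℕ} {Ω : Type} [Field Ω] {u : Ω}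
    (h : ((Tl l (Ec N u) : AddSubgroup (Ec N u).toAffine.Point) :
      Set (Ec N u).toAffine.Point).Finite) : (Zs l N u).Finite := by
  refine ((h.image px).union (h.image py)).subset ?_
  rintro z ⟨P, hP, rfl | rfl⟩
  · exact Or.inl ⟨P, hP, rfl⟩
  · exact Or.inr ⟨P, hP, rfl⟩

private theorem exists_ab (p : ℕ) [Fact p.Prime] {κ : Type} [Field κ] [IsAlgClosed κ] (c : κ) :
    ∃ a b : κ, a ≠ 0 ∧ a ^ p = -a ∧ b ^ p = b + a * c := by
  have hp : 1 < p := (Fact.out : p.Prime).one_lt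
  obtain ⟨a, ha⟩ := IsAlgClosed.exists_pow_nat_eq (-1 : κ) (n := p - 1) (by omega)
  have ha0 : a ≠ 0 := by
    rintro rfl
    rw [zero_pow (by omega)] at ha
    exact one_ne_zero (neg_eq_zero.mp ha.symm)
  have hap : a ^ p = -a := by
    rw [show p = p - 1 + 1 by omega, pow_succ, ha, neg_one_mul]
  have hdeg : (X ^ p - (X + C (a * c)) : κ[X]).degree ≠ 0 := by
    have h1 : (X + C (a * c) : κ[X]).degree < (X ^ p : κ[X]).degree := by
      rw [degree_X_add_C, degree_X_pow]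
      exact_mod_cast hp
    rw [degree_sub_eq_left_of_degree_lt h1, degree_X_pow]
    intro h2
    have h3 : p = 0 := by exact_mod_cast h2
    omega
  obtain ⟨b, hb⟩ := IsAlgClosed.exists_root _ hdeg
  refine ⟨a, b, ha0, hap, ?_⟩
  have h1 : b ^ p - (b + a * c) = 0 := by
    simpa [IsRoot.def] using hb
  exact sub_eq_zero.mp h1

/-- **Ari.** The arithmetic of the representation. -/
theorem tAri (h2 : S_Pm) (h4 : S_Rep) (h5 : S_Pgl) (h6 : S_Gam) : S_Ari := by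
  intro p l N _ _ κ Ω _ _ _ _ _ T θ Φ e hNm hRt hT hΦκ hΦT hsq hGeo
  obtain ⟨geo1, geo2, σ₃, hσ₃T, hσ₃M⟩ := hGeo
  obtain ⟨pg1, pg2, pg3, pg4, -, pg6, pg7⟩ := h5 l hNm.l5
  -- constants
  have hcΩ : algebraMap κ Ω (c0 N κ) = c0 N Ω := c0_map _ N
  have hcσ : ∀ σ : Ω ≃+* Ω, σ (c0 N Ω) = c0 N Ω := fun σ => c0_map (σ : Ω →+* Ω) N
  have hT0 : T ≠ 0 := by
    rintro rfl
    exact hT isAlgebraic_zero
  have hT'0 : c0 N Ω - T ≠ 0 := by
    intro h
    apply hT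
    rw [← sub_eq_zero.mp h, ← hcΩ]
    exact isAlgebraic_algebraMap _
  have hc0 : c0 N κ ≠ 0 := by
    have hk := hNm.nk
    rcases hNm.nn with rfl | rfl
    · have h2 : (2 : κ) ≠ 0 := by exact_mod_cast hk
      simp only [c0, if_pos]
      apply inv_ne_zero
      rw [show (4 : κ) = 2 * 2 by norm_num]
      exact mul_ne_zero h2 h2
    · have h3 : (3 : κ) ≠ 0 := by exact_mod_cast hk
      simp only [c0]
      rw [if_neg (by norm_num)]
      apply inv_ne_zero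
      rw [show (27 : κ) = 3 ^ 3 by norm_num]
      exact pow_ne_zero 3 h3
  have hTT' : c0 N Ω - T ≠ T := by
    intro h
    apply hT
    refine ⟨C 2 * X - C (c0 N κ), ?_, ?_⟩
    · intro h1
      have h7 := congrArg (fun f : κ[X] => f.coeff 0) h1
      simp at h7
      exact hc0 h7
    · rw [map_sub, map_mul, aeval_C, aeval_C, aeval_X, hcΩ, map_ofNat]
      linear_combination -h
  have hNmΩ : Nm l N Ω := by
    refine ⟨hNm.nn, hNm.lp, hNm.l5, ?_, ?_⟩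
    · rw [← map_natCast (algebraMap κ Ω)]
      exact (_root_.map_ne_zero _).mpr hNm.lk
    · rw [← map_natCast (algebraMap κ Ω)]
      exact (_root_.map_ne_zero _).mpr hNm.nk
  have hRtΩ : Rt N (algebraMap κ Ω θ) := by
    unfold Rt at hRt ⊢
    split_ifs at hRt ⊢ with h
    · rw [← map_pow, hRt, map_neg, map_ofNat]
    · rw [← map_pow, ← map_add, ← map_one (algebraMap κ Ω), ← map_add, hRt, map_zero]
  have hΔT : (Ec N T).Δ ≠ 0 := ec_disc hNm.nn hNmΩ.nk hT0 hT'0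
  have hΔT' : (Ec N (c0 N Ω - T)).Δ ≠ 0 :=
    ec_disc hNm.nn hNmΩ.nk hT'0 (by rw [sub_sub_cancel]; exact hT0)
  -- the representation
  obtain ⟨ρ0, hρ0⟩ := h4 l N Ω T (algebraMap κ Ω θ) e hNmΩ hRtΩ hT0 hT'0
  have key : ∀ σ : Ω ≃+* Ω, σ (T ^ 2 - c0 N Ω * T) = T ^ 2 - c0 N Ω * T →
      σ T = T ∨ σ T = c0 N Ω - T := by
    intro σ h
    rw [map_sub, map_mul, map_pow, hcσ] at h
    have h1 : (σ T - T) * (σ T - (c0 N Ω - T)) = 0 := by linear_combination h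
    rcases mul_eq_zero.mp h1 with h1 | h1
    · exact Or.inl (sub_eq_zero.mp h1)
    · exact Or.inr (sub_eq_zero.mp h1)
  have key' : ∀ σ : Ω ≃+* Ω, σ T = T ∨ σ T = c0 N Ω - T →
      σ (T ^ 2 - c0 N Ω * T) = T ^ 2 - c0 N Ω * T := by
    intro σ h
    rw [map_sub, map_mul, map_pow, hcσ]
    rcases h with h | h <;> rw [h]
    ring
  have gs_pos : ∀ σ : Ω ≃+* Ω, σ T = T →
      gs N (algebraMap κ Ω θ) T σ = pm (Ec N T) (Ec N T) σ := fun σ h => funext fun P => if_pos h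
  have gs_neg : ∀ σ : Ω ≃+* Ω, σ T ≠ T →
      gs N (algebraMap κ Ω θ) T σ = gg N (algebraMap κ Ω θ) T (c0 N Ω - T) σ :=
    fun σ h => funext fun P => if_neg h
  have hτP : ∀ (τ : Ω ≃ₐ[κ] Ω)
      (hm : (τ : Ω ≃+* Ω) ∈ MulAction.stabilizer (Ω ≃+* Ω) (T ^ 2 - c0 N Ω * T)),
      τ T = T → IsP (ρ0 ⟨τ, hm⟩) := by
    intro τ hm hτ
    obtain ⟨M, hM, hM'⟩ := hρ0 ⟨τ, hm⟩
    rw [hM', pg1]
    apply geo2 τ hτ
    rw [gs_pos _ hτ] at hM
    exact hM
  have hm₃ : (σ₃ : Ω ≃+* Ω) ∈ MulAction.stabilizer (Ω ≃+* Ω) (T ^ 2 - c0 N Ω * T) :=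
    key' σ₃ (Or.inr hσ₃T)
  have hσ₃P : ¬ IsP (ρ0 ⟨σ₃, hm₃⟩) := by
    obtain ⟨M, hM, hM'⟩ := hρ0 ⟨σ₃, hm₃⟩
    rw [hM', pg1]
    have h1 : (σ₃ : Ω ≃+* Ω) T ≠ T := by
      intro h
      exact hTT' (hσ₃T.symm.trans h)
    rw [gs_neg _ h1] at hM
    rw [hσ₃M M.1 hM]
    exact hsq
  have hσ₃T' : σ₃ (c0 N Ω - T) = T := by
    rw [map_sub, hσ₃T]
    have h1 : σ₃ (c0 N Ω) = c0 N Ω := hcσ σ₃
    rw [h1, sub_sub_cancel]
  have hτP' : ∀ (τ : Ω ≃ₐ[κ] Ω)
      (hm : (τ : Ω ≃+* Ω) ∈ MulAction.stabilizer (Ω ≃+* Ω) (T ^ 2 - c0 N Ω * T)),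
      IsP (ρ0 ⟨τ, hm⟩) → τ T = T := by
    intro τ hm hP
    rcases key τ hm with h | h
    · exact h
    · exfalso
      have hτ' : (τ.trans σ₃.symm) T = T := by
        change σ₃.symm (τ T) = T
        have h2 : τ T = c0 N Ω - T := h
        rw [h2, ← hσ₃T, AlgEquiv.symm_apply_apply]
      have hm' : ((τ.trans σ₃.symm : Ω ≃ₐ[κ] Ω) : Ω ≃+* Ω) ∈
          MulAction.stabilizer (Ω ≃+* Ω) (T ^ 2 - c0 N Ω * T) := key' _ (Or.inl hτ')
      have h3 : ρ0 ⟨τ, hm⟩ = ρ0 ⟨σ₃, hm₃⟩ * ρ0 ⟨(τ.trans σ₃.symm : Ω ≃ₐ[κ] Ω), hm'⟩ := by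
        rw [← map_mul]
        apply congrArg
        apply Subtype.ext
        apply RingEquiv.ext
        intro x
        change τ x = σ₃ (σ₃.symm (τ x))
        rw [AlgEquiv.apply_symm_apply]
      rw [h3, pg4 _ _ hσ₃P] at hP
      exact hP (hτP _ hm' hτ')
  -- the choice of `ψ`
  obtain ⟨ψ, hψm, a, b, ha0, hψP, hψκ, hψy⟩ : ∃ (ψ : Ω ≃+* Ω)
      (hm : ψ ∈ MulAction.stabilizer (Ω ≃+* Ω) (T ^ 2 - c0 N Ω * T)) (a b : κ), a ≠ 0 ∧
      IsP (ρ0 ⟨ψ, hm⟩) ∧ (∀ c : κ, ψ (algebraMap κ Ω c) = algebraMap κ Ω (c ^ p)) ∧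
      ψ (algebraMap κ Ω a * T + algebraMap κ Ω b) = algebraMap κ Ω a * T + algebraMap κ Ω b := by
    have hΦm : Φ ∈ MulAction.stabilizer (Ω ≃+* Ω) (T ^ 2 - c0 N Ω * T) := key' Φ (Or.inl hΦT)
    by_cases hΦP : IsP (ρ0 ⟨Φ, hΦm⟩)
    · refine ⟨Φ, hΦm, 1, 0, one_ne_zero, hΦP, hΦκ, ?_⟩
      rw [map_one, map_zero, one_mul, add_zero, hΦT]
    · obtain ⟨a, b, ha0, hap, hbp⟩ := exists_ab p (c0 N κ)
      refine ⟨Φ * (σ₃ : Ω ≃+* Ω), mul_mem hΦm hm₃, a, b, ha0, ?_, ?_, ?_⟩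
      · have h3 : ρ0 ⟨Φ * (σ₃ : Ω ≃+* Ω), mul_mem hΦm hm₃⟩ = ρ0 ⟨Φ, hΦm⟩ * ρ0 ⟨σ₃, hm₃⟩ := by
          rw [← map_mul]
          rfl
        rw [h3, pg4 _ _ hΦP]
        exact hσ₃P
      · intro c
        change Φ (σ₃ (algebraMap κ Ω c)) = _
        rw [AlgEquiv.commutes, hΦκ]
      · change Φ (σ₃ (algebraMap κ Ω a * T + algebraMap κ Ω b)) = _
        rw [map_add, map_mul, AlgEquiv.commutes, AlgEquiv.commutes, hσ₃T, map_add, map_mul,
          map_sub, hcσ, hΦT, hΦκ, hΦκ, hap, hbp, map_neg, map_add, map_mul, hcΩ]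
        ring
  obtain ⟨Γ, hΓ, hψΓ, hτΓ, hdec⟩ := h6 p κ Ω ψ (T ^ 2 - c0 N Ω * T) hψκ hψm
  have hle : Γ ≤ MulAction.stabilizer (Ω ≃+* Ω) (T ^ 2 - c0 N Ω * T) :=
    fun σ h => ((hΓ σ).mp h).1
  let ρ : Γ →* PGL l := ρ0.comp (Subgroup.inclusion hle)
  have hρ : ∀ (σ : Ω ≃+* Ω) (h : σ ∈ Γ), ρ ⟨σ, h⟩ = ρ0 ⟨σ, hle h⟩ := fun _ _ => rfl
  have hτs : ∀ τ : Ω ≃ₐ[κ] Ω, τ T = T → (τ : Ω ≃+* Ω) ∈ Γ :=
    fun τ h => hτΓ τ (key' τ (Or.inl h))
  refine ⟨Γ, ρ, algebraMap κ Ω a * T + algebraMap κ Ω b, ?_, ?_, ?_, ?_, ?_, ?_, ?_⟩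
  · -- surjectivity
    have hs1 : ∀ g : PGL l, IsP g → ∃ σ : Γ, ρ σ = g := by
      intro g hg
      obtain ⟨M, hMd, hMg⟩ := pg6 g hg
      obtain ⟨σ, hσT, hσM⟩ := geo1 M.1 hMd
      refine ⟨⟨σ, hτs σ hσT⟩, ?_⟩
      rw [hρ]
      obtain ⟨M', hM', hM''⟩ := hρ0 ⟨σ, hle (hτs σ hσT)⟩
      rw [hM'', ← hMg]
      rw [gs_pos _ hσT] at hM'
      rw [Units.ext (isM_unique e hM' hσM)]
    intro g
    by_cases hg : IsP g
    · exact hs1 g hg
    · have h₃Γ : (σ₃ : Ω ≃+* Ω) ∈ Γ := hτΓ σ₃ hm₃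
      obtain ⟨σ, hσ⟩ := hs1 (g * ρ ⟨σ₃, h₃Γ⟩) ((pg4 _ _ hg).mpr hσ₃P)
      refine ⟨σ * ⟨σ₃, h₃Γ⟩⁻¹, ?_⟩
      rw [map_mul, hσ, map_inv, mul_inv_cancel_right]
  · -- invariants
    intro σ hσ
    let P : Subgroup (PGL l) :=
      { carrier := {g | IsP g}
        mul_mem' := fun {a b} ha hb => (pg3 a b ha).mpr hb
        one_mem' := pg2
        inv_mem' := fun {a} ha => (pg7 a).mpr ha }
    obtain ⟨n, τ, hτs', hτ⟩ := hdec σ σ.2
    have h1 : (⟨τ, hτΓ τ hτs'⟩ : Γ) = ⟨ψ, hψΓ⟩ ^ n * σ := by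
      apply Subtype.ext
      rw [Subgroup.coe_mul, Subgroup.coe_zpow]
      exact hτ
    have h3 : IsP (ρ ⟨τ, hτΓ τ hτs'⟩) := by
      rw [h1, map_mul, map_zpow]
      have h4 : IsP (ρ ⟨ψ, hψΓ⟩ ^ n) := P.zpow_mem (x := ρ ⟨ψ, hψΓ⟩) hψP n
      exact (pg3 _ _ h4).mpr hσ
    have h4 : τ T = T := hτP' τ (hle (hτΓ τ hτs')) h3
    have h5 : τ (algebraMap κ Ω a * T + algebraMap κ Ω b) =
        algebraMap κ Ω a * T + algebraMap κ Ω b := by
      rw [map_add, map_mul, AlgEquiv.commutes, AlgEquiv.commutes, h4]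
    have h6 : (ψ ^ n) (algebraMap κ Ω a * T + algebraMap κ Ω b) =
        algebraMap κ Ω a * T + algebraMap κ Ω b := by
      have h7 : ψ ∈ MulAction.stabilizer (Ω ≃+* Ω) (algebraMap κ Ω a * T + algebraMap κ Ω b) :=
        hψy
      exact zpow_mem h7 n
    have h7 : (ψ ^ n) ((σ : Ω ≃+* Ω) (algebraMap κ Ω a * T + algebraMap κ Ω b)) =
        algebraMap κ Ω a * T + algebraMap κ Ω b := by
      have h8 := congrArg (fun f : Ω ≃+* Ω => f (algebraMap κ Ω a * T + algebraMap κ Ω b)) hτ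
      exact h8.symm.trans h5
    exact (ψ ^ n).injective (h7.trans h6.symm)
  · -- the field generated by `y`
    have ha : algebraMap κ Ω a ≠ 0 := (_root_.map_ne_zero _).mpr ha0
    apply le_antisymm
    · rw [IntermediateField.adjoin_simple_le_iff]
      exact add_mem (mul_mem (IntermediateField.algebraMap_mem _ a)
        (IntermediateField.mem_adjoin_simple_self κ T)) (IntermediateField.algebraMap_mem _ b)
    · rw [IntermediateField.adjoin_simple_le_iff]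
      have h1 : T = algebraMap κ Ω a⁻¹ *
          ((algebraMap κ Ω a * T + algebraMap κ Ω b) - algebraMap κ Ω b) := by
        rw [add_sub_cancel_right, map_inv₀, inv_mul_cancel_left₀ ha]
      have h2 : algebraMap κ Ω a⁻¹ *
          ((algebraMap κ Ω a * T + algebraMap κ Ω b) - algebraMap κ Ω b) ∈
          IntermediateField.adjoin κ {algebraMap κ Ω a * T + algebraMap κ Ω b} :=
        mul_mem (IntermediateField.algebraMap_mem _ _)
          (sub_mem (IntermediateField.mem_adjoin_simple_self κ _)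
            (IntermediateField.algebraMap_mem _ b))
      rwa [← h1] at h2
  · -- `y` is transcendental
    have ha : algebraMap κ Ω a ≠ 0 := (_root_.map_ne_zero _).mpr ha0
    intro h
    apply hT
    have h1 : T = algebraMap κ Ω a⁻¹ *
        ((algebraMap κ Ω a * T + algebraMap κ Ω b) - algebraMap κ Ω b) := by
      rw [add_sub_cancel_right, map_inv₀, inv_mul_cancel_left₀ ha]
    rw [h1]
    exact (isAlgebraic_algebraMap _).mul (h.sub (isAlgebraic_algebraMap _))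
  · intro τ hτ
    exact ⟨⟨τ, hτs τ hτ⟩, rfl, hτP τ _ hτ⟩
  · exact ⟨⟨ψ, hψΓ⟩, hψP, hψy, hψκ⟩
  · -- the finite set
    have hfT : ((Tl l (Ec N T) : AddSubgroup (Ec N T).toAffine.Point) :
        Set (Ec N T).toAffine.Point).Finite := by
      have : Finite (Tl l (Ec N T)) := Finite.of_equiv _ e.toEquiv.symm
      exact Set.toFinite _
    have hfT' : ((Tl l (Ec N (c0 N Ω - T)) : AddSubgroup (Ec N (c0 N Ω - T)).toAffine.Point) :
        Set (Ec N (c0 N Ω - T)).toAffine.Point).Finite := by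
      apply Set.Finite.of_finite_image
        (f := pm (Ec N (c0 N Ω - T)) (Ec N T) ((σ₃ : Ω ≃+* Ω) : Ω →+* Ω))
      · refine hfT.subset ?_
        rintro _ ⟨P, hP, rfl⟩
        exact tl_pm h2 _ hσ₃T' hΔT' hP
      · intro P _ Q _ h
        have h9 : Ec N T = (Ec N (c0 N Ω - T)).map ((σ₃ : Ω ≃+* Ω) : Ω →+* Ω) := by
          rw [← ec_map]
          congr 1
          exact hσ₃T'.symm
        obtain ⟨-, -, -, -, m5, -⟩ := h2 Ω Ω ((σ₃ : Ω ≃+* Ω) : Ω →+* Ω) _ _ hΔT' h9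
        exact m5 P Q h
    refine ⟨{T, c0 N Ω - T} ∪ (Zs l N T ∪ Zs l N (c0 N Ω - T)),
      (Set.toFinite _).union ((zs_finite hfT).union (zs_finite hfT')), ?_, ?_⟩
    · intro σ z hz
      have h1 : (σ : Ω ≃+* Ω) (c0 N Ω - T) = c0 N Ω - (σ : Ω ≃+* Ω) T := by
        rw [map_sub, hcσ]
      rcases key σ (hle σ.2) with h | h
      · rw [h] at h1
        rcases hz with (rfl | hz) | (hz | hz)
        · exact Or.inl (Or.inl h)
        · rw [Set.mem_singleton_iff] at hz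
          rw [hz, h1]
          exact Or.inl (Or.inr rfl)
        · exact Or.inr (Or.inl (zs_map h2 ((σ : Ω ≃+* Ω) : Ω →+* Ω) h hΔT hz))
        · exact Or.inr (Or.inr (zs_map h2 ((σ : Ω ≃+* Ω) : Ω →+* Ω) h1 hΔT' hz))
      · rw [h, sub_sub_cancel] at h1
        rcases hz with (rfl | hz) | (hz | hz)
        · rw [h]
          exact Or.inl (Or.inr rfl)
        · rw [Set.mem_singleton_iff] at hz
          rw [hz, h1]
          exact Or.inl (Or.inl rfl)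
        · exact Or.inr (Or.inr (zs_map h2 ((σ : Ω ≃+* Ω) : Ω →+* Ω) h hΔT hz))
        · exact Or.inr (Or.inl (zs_map h2 ((σ : Ω ≃+* Ω) : Ω →+* Ω) h1 hΔT' hz))
    · intro σ hσ
      have hσT : (σ : Ω ≃+* Ω) T = T := hσ T (Or.inl (Or.inl rfl))
      obtain ⟨M, hM, hM'⟩ := hρ0 ⟨σ, hle σ.2⟩
      have h1 : ρ σ = QuotientGroup.mk M := hM'
      rw [h1]
      rw [gs_pos _ hσT] at hM
      have h3 : IsM e (pm (Ec N T) (Ec N T) (σ : Ω ≃+* Ω)) 1 := by
        intro v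
        rw [Matrix.one_mulVec, AddEquiv.symm_apply_apply]
        have h9 : Ec N T = (Ec N T).map ((σ : Ω ≃+* Ω) : Ω →+* Ω) := by
          rw [← ec_map]
          congr 1
          exact hσT.symm
        obtain ⟨m1, m2, -⟩ := h2 Ω Ω ((σ : Ω ≃+* Ω) : Ω →+* Ω) _ _ hΔT h9
        rcases at_cases (v : (Ec N T).toAffine.Point) with h0 | h0
        · rw [h0]
          exact m1
        · have h8 := m2 _ _ _ h0
          have hx : (σ : Ω ≃+* Ω) (px (v : (Ec N T).toAffine.Point)) =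
              px (v : (Ec N T).toAffine.Point) :=
            hσ _ (Or.inr (Or.inl ⟨v, v.2, Or.inl rfl⟩))
          have hy : (σ : Ω ≃+* Ω) (py (v : (Ec N T).toAffine.Point)) =
              py (v : (Ec N T).toAffine.Point) :=
            hσ _ (Or.inr (Or.inl ⟨v, v.2, Or.inr rfl⟩))
          have h7 : At (pm (Ec N T) (Ec N T) (σ : Ω ≃+* Ω) (v : (Ec N T).toAffine.Point))
              ((σ : Ω ≃+* Ω) (px (v : (Ec N T).toAffine.Point)))
              ((σ : Ω ≃+* Ω) (py (v : (Ec N T).toAffine.Point))) := h8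
          rw [hx, hy] at h7
          exact at_unique h7 h0
      have h4 : M = 1 := Units.ext (isM_unique e hM h3)
      rw [h4]
      rfl

end MP7Sh
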