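import Pool.Agent.Lib.MP_7f581e_Sh.SpecA

/-! From the representation to `HasGA`. -/

set_option autoImplicit false

namespace MP7Sh

open Polynomial WeierstrassCurve

open scoped Classical

/-- Restriction to a stable subfield. -/
private theorem Asm_res {Ω : Type} [Field Ω] (Γ : Subgroup (Ω ≃+* Ω)) (E : Subfield Ω)
    (hE : ∀ σ : Γ, ∀ y ∈ E, (σ : Ω ≃+* Ω) y ∈ E) :
    ∃ r : Γ →* (E ≃+* E), ∀ (σ : Γ) (y : E), ((r σ y : E) : Ω) = (σ : Ω ≃+* Ω) y := by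
  let r : Γ →* (E ≃+* E) :=
    { toFun := fun σ =>
        { toFun := fun y => ⟨(σ : Ω ≃+* Ω) y, hE σ y y.2⟩
          invFun := fun y => ⟨((σ⁻¹ : Γ) : Ω ≃+* Ω) y, hE σ⁻¹ y y.2⟩
          left_inv := fun y => Subtype.ext ((σ : Ω ≃+* Ω).symm_apply_apply y)
          right_inv := fun y => Subtype.ext ((σ : Ω ≃+* Ω).apply_symm_apply y)
          map_mul' := fun y z => Subtype.ext (map_mul (σ : Ω ≃+* Ω) _ _)
          map_add' := fun y z => Subtype.ext (map_add (σ : Ω ≃+* Ω) _ _) }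
      map_one' := by
        ext y
        rfl
      map_mul' := fun σ τ => by
        ext y
        rfl }
  exact ⟨r, fun σ y => rfl⟩

/-- An element which acts trivially on the fixed field of `K` is in `K`. -/
private theorem Asm_faith {Ω : Type} [Field Ω] (Γ : Subgroup (Ω ≃+* Ω)) (K : Subgroup Γ) (Z : Set Ω)
    (hZf : Z.Finite) (hZs : ∀ (σ : Γ), ∀ z ∈ Z, (σ : Ω ≃+* Ω) z ∈ Z)
    (hZK : ∀ σ : Γ, (∀ z ∈ Z, (σ : Ω ≃+* Ω) z = z) → σ ∈ K) (σ₀ : Γ)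
    (hσ₀ : ∀ y : Ω, (∀ τ ∈ K, (τ : Ω ≃+* Ω) y = y) → (σ₀ : Ω ≃+* Ω) y = y) : σ₀ ∈ K := by
  have hfZ := hZf.to_subtype
  have happ : ∀ (σ : Γ) (y : Ω), ((σ⁻¹ : Γ) : Ω ≃+* Ω) ((σ : Ω ≃+* Ω) y) = y :=
    fun σ y => (σ : Ω ≃+* Ω).symm_apply_apply y
  let E : Subfield Ω :=
    { carrier := {y | ∀ σ : Γ, (∀ z ∈ Z, (σ : Ω ≃+* Ω) z = z) → (σ : Ω ≃+* Ω) y = y}
      mul_mem' := fun {a b} ha hb σ hσ => by rw [map_mul, ha σ hσ, hb σ hσ]
      one_mem' := fun σ _ => map_one _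
      add_mem' := fun {a b} ha hb σ hσ => by rw [map_add, ha σ hσ, hb σ hσ]
      zero_mem' := fun σ _ => map_zero _
      neg_mem' := fun {a} ha σ hσ => by rw [map_neg, ha σ hσ]
      inv_mem' := fun a ha σ hσ => by rw [map_inv₀, ha σ hσ] }
  have hEm : ∀ y, y ∈ E ↔ ∀ σ : Γ, (∀ z ∈ Z, (σ : Ω ≃+* Ω) z = z) → (σ : Ω ≃+* Ω) y = y :=
    fun y => Iff.rfl
  have hEs : ∀ τ : Γ, ∀ y ∈ E, (τ : Ω ≃+* Ω) y ∈ E := by
    intro τ y hy σ hσ
    have h1 := hy (τ⁻¹ * σ * τ) (fun z hz => by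
      change ((τ⁻¹ : Γ) : Ω ≃+* Ω) ((σ : Ω ≃+* Ω) ((τ : Ω ≃+* Ω) z)) = z
      rw [hσ _ (hZs τ z hz), happ])
    have h2 : (τ : Ω ≃+* Ω) (((τ⁻¹ * σ * τ : Γ) : Ω ≃+* Ω) y) =
        (σ : Ω ≃+* Ω) ((τ : Ω ≃+* Ω) y) := (τ : Ω ≃+* Ω).apply_symm_apply _
    rw [← h2, h1]
  obtain ⟨r, hr⟩ := Asm_res Γ E hEs
  have hZE : ∀ z ∈ Z, z ∈ E := fun z hz σ hσ => hσ z hz
  -- elements which agree on `Z` agree on `E`
  have hag : ∀ σ τ : Γ, (∀ z ∈ Z, (σ : Ω ≃+* Ω) z = (τ : Ω ≃+* Ω) z) → r σ = r τ := by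
    intro σ τ h
    ext y
    rw [hr, hr]
    have h1 := y.2 (σ⁻¹ * τ) (fun z hz => by
      change ((σ⁻¹ : Γ) : Ω ≃+* Ω) ((τ : Ω ≃+* Ω) z) = z
      rw [← h z hz, happ])
    have h2 : (σ : Ω ≃+* Ω) (((σ⁻¹ * τ : Γ) : Ω ≃+* Ω) y) = (τ : Ω ≃+* Ω) y :=
      (σ : Ω ≃+* Ω).apply_symm_apply _
    rw [← h2, h1]
  have hfin : Finite (K.map r) := by
    let f : K.map r → (Z → Ω) := fun h z => ((h.1 ⟨z.1, hZE z.1 z.2⟩ : E) : Ω)
    have hf : ∀ h z, f h z ∈ Z := by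
      rintro ⟨_, σ, hσ, rfl⟩ z
      change ((r σ ⟨z.1, hZE z.1 z.2⟩ : E) : Ω) ∈ Z
      rw [hr]
      exact hZs σ z z.2
    let g : K.map r → (Z → Z) := fun h z => ⟨f h z, hf h z⟩
    refine Finite.of_injective g ?_
    rintro ⟨_, σ, hσ, rfl⟩ ⟨_, τ, hτ, rfl⟩ h
    apply Subtype.ext
    refine hag σ τ (fun z hz => ?_)
    have h1 := congrArg Subtype.val (congrFun h ⟨z, hz⟩)
    change ((r σ ⟨z, hZE z hz⟩ : E) : Ω) = ((r τ ⟨z, hZE z hz⟩ : E) : Ω) at h1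
    rw [hr, hr] at h1
    exact h1
  obtain ⟨h, hh⟩ := FixedPoints.toAlgAut_surjective (K.map r) E
    (AlgEquiv.ofRingEquiv (f := r σ₀) (fun e => by
      apply Subtype.ext
      rw [hr]
      refine hσ₀ _ (fun τ hτ => ?_)
      have h1 := e.2 ⟨r τ, τ, hτ, rfl⟩
      have h2 : r τ e.1 = e.1 := h1
      have h3 := congrArg Subtype.val h2
      rw [hr] at h3
      exact h3))
  obtain ⟨_, τ, hτ, rfl⟩ := h
  have h1 : ∀ e : E, r τ e = r σ₀ e := fun e => DFunLike.congr_fun hh e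
  have h2 : τ⁻¹ * σ₀ ∈ K := by
    refine hZK _ (fun z hz => ?_)
    change ((τ⁻¹ : Γ) : Ω ≃+* Ω) ((σ₀ : Ω ≃+* Ω) z) = z
    have h3 := congrArg Subtype.val (h1 ⟨z, hZE z hz⟩)
    rw [hr, hr] at h3
    change (τ : Ω ≃+* Ω) z = (σ₀ : Ω ≃+* Ω) z at h3
    rw [← h3, happ]
  have h3 := K.mul_mem hτ h2
  rwa [mul_inv_cancel_left] at h3

private theorem Asm_nc (l : ℕ) [Fact l.Prime] :
    ∃ a b : Matrix.ProjectiveSpecialLinearGroup (Fin 2) (ZMod l), a * b ≠ b * a := by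
  let u : Matrix.SpecialLinearGroup (Fin 2) (ZMod l) := ⟨!![1, 1; 0, 1], by simp⟩
  let w : Matrix.SpecialLinearGroup (Fin 2) (ZMod l) := ⟨!![1, 0; 1, 1], by simp⟩
  refine ⟨QuotientGroup.mk u, QuotientGroup.mk w, ?_⟩
  intro h
  have h1 : ((u * w : Matrix.SpecialLinearGroup (Fin 2) (ZMod l)) :
      Matrix.ProjectiveSpecialLinearGroup (Fin 2) (ZMod l)) =
      ((w * u : Matrix.SpecialLinearGroup (Fin 2) (ZMod l)) :
      Matrix.ProjectiveSpecialLinearGroup (Fin 2) (ZMod l)) := h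
  rw [QuotientGroup.eq] at h1
  obtain ⟨c, -, hc⟩ := Matrix.SpecialLinearGroup.mem_center_iff.1 h1
  have h2 : (w * u : Matrix.SpecialLinearGroup (Fin 2) (ZMod l)) =
      (u * w) * ((u * w)⁻¹ * (w * u)) := (mul_inv_cancel_left _ _).symm
  have h3 := congrArg Subtype.val h2
  have h4 : (w.1 * u.1) = (u.1 * w.1) * Matrix.scalar (Fin 2) c := by
    rw [hc]
    exact h3
  have h5 := congrFun (congrFun h4 0) 0
  have h6 := congrFun (congrFun h4 0) 1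
  simp [u, w, Matrix.mul_apply, Fin.sum_univ_two] at h5 h6
  rw [← h6] at h5
  have h7 : (1 : ZMod l) = 0 := by linear_combination (-1) * h5
  exact one_ne_zero h7

theorem tAsm (h1 : S_Aut) : S_Asm := by
  intro p l _ _ hl Ω _ Γ ρ j Z hρ hZf hZs hZρ hj
  obtain ⟨Θ, hΘ⟩ := h1 l hl
  have hP1 : IsP (1 : PGL l) := ⟨1, rfl, ⟨1, by simp⟩⟩
  refine ⟨?_, ?_, Asm_nc l, ?_⟩
  · infer_instance
  · exact Matrix.ProjectiveSpecialLinearGroup.rank_two_simple (by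
      rw [Nat.card_zmod]
      omega)
  -- the field
  let L : Subfield Ω :=
    { carrier := {y | ∀ σ : Γ, ρ σ = 1 → (σ : Ω ≃+* Ω) y = y}
      mul_mem' := fun {a b} ha hb σ hσ => by rw [map_mul, ha σ hσ, hb σ hσ]
      one_mem' := fun σ _ => map_one _
      add_mem' := fun {a b} ha hb σ hσ => by rw [map_add, ha σ hσ, hb σ hσ]
      zero_mem' := fun σ _ => map_zero _
      neg_mem' := fun {a} ha σ hσ => by rw [map_neg, ha σ hσ]
      inv_mem' := fun a ha σ hσ => by rw [map_inv₀, ha σ hσ] }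
  have hLs : ∀ τ : Γ, ∀ y ∈ L, (τ : Ω ≃+* Ω) y ∈ L := by
    intro τ y hy σ hσ
    have h1 := hy (τ⁻¹ * σ * τ) (by rw [map_mul, map_mul, hσ, mul_one, ← map_mul,
      inv_mul_cancel, map_one])
    have h2 : (τ : Ω ≃+* Ω) (((τ⁻¹ * σ * τ : Γ) : Ω ≃+* Ω) y) =
        (σ : Ω ≃+* Ω) ((τ : Ω ≃+* Ω) y) := (τ : Ω ≃+* Ω).apply_symm_apply _
    rw [← h2, h1]
  obtain ⟨b, hb⟩ := Asm_res Γ L hLs
  have hker : ρ.ker ≤ b.ker := by
    intro σ hσ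
    rw [MonoidHom.mem_ker] at hσ ⊢
    ext y
    rw [hb]
    exact y.2 σ hσ
  have hker' : ∀ σ, b σ = 1 → ρ σ = 1 := by
    intro σ hσ
    have h2 := Asm_faith Γ ρ.ker Z hZf hZs (fun τ hτ => hZρ τ hτ) σ (fun y hy => by
      have h3 : y ∈ L := fun τ hτ => hy τ hτ
      have h4 := hb σ ⟨y, h3⟩
      rw [hσ] at h4
      exact h4.symm)
    exact h2
  let a0 : PGL l →* (L ≃+* L) := ρ.liftOfSurjective hρ ⟨b, hker⟩
  have ha0 : ∀ σ, a0 (ρ σ) = b σ := fun σ =>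
    MonoidHom.liftOfRightInverse_comp_apply ρ _ (Function.rightInverse_surjInv hρ) ⟨b, hker⟩ σ
  have hjL : ∀ w, j w ∈ L := by
    intro w σ hσ
    exact (hj (j w)).2 ⟨w, rfl⟩ σ (by rw [hσ]; exact hP1)
  let alg : Algebra (RatFunc (ZMod p)) L := (j.codRestrict L.toSubring hjL).toAlgebra
  refine ⟨L, inferInstance, alg, a0.comp Θ.toMonoidHom, ?_, ?_⟩
  · rw [injective_iff_map_eq_one]
    intro g hg
    obtain ⟨σ, hσ⟩ := hρ (Θ g)
    have h2 : a0 (Θ g) = 1 := hg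
    rw [← hσ, ha0] at h2
    have h3 := hker' σ h2
    rw [hσ] at h3
    exact (map_eq_one_iff Θ Θ.injective).1 h3
  · intro y
    constructor
    · intro hy
      obtain ⟨w, hw⟩ := (hj y).1 (fun σ hσ => by
        obtain ⟨s, hs⟩ := (hΘ (ρ σ)).1 hσ
        have h2 : a0 (Θ (MulAut.conj s)) y = y := hy s
        rw [hs, ha0] at h2
        rw [← hb, h2])
      exact ⟨w, Subtype.ext hw⟩
    · rintro ⟨w, hw⟩ s
      change a0 (Θ (MulAut.conj s)) y = y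
      obtain ⟨σ, hσ⟩ := hρ (Θ (MulAut.conj s))
      have hσP : IsP (ρ σ) := (hΘ (ρ σ)).2 ⟨s, hσ.symm⟩
      rw [← hσ, ha0]
      apply Subtype.ext
      rw [hb]
      have h2 : j w = y := congrArg Subtype.val hw
      exact (hj y).2 ⟨w, h2⟩ σ hσP

end MP7Sh
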