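import Pool.Agent.Lib.MP_7f581e_Sh.SpecA
import Pool.Agent.Lib.MP_7f581e_ntS.AutPSLD

/-!
# MP_7f581e_nt, GA realizations of `PSL(2, l)`: the automorphisms of `PSL(2, l)` (`S_Aut`)
-/

set_option autoImplicit false

namespace MP7Sh

open Polynomial WeierstrassCurve

open scoped Classical

/-- A ring automorphism of `ZMod l` is the identity. -/
private theorem ringEquiv_refl {l : ℕ} [Fact l.Prime] (σ : ZMod l ≃+* ZMod l) :
    σ = RingEquiv.refl _ := by
  have h : (σ : ZMod l →+* ZMod l) = RingHom.id _ := Subsingleton.elim _ _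
  ext x
  exact congrArg (fun f : ZMod l →+* ZMod l => f x) h

/-- The action of `GL(2, l)` on `PSL(2, l)` by conjugation. -/
private def cjHom (l : ℕ) [Fact l.Prime] :
    GL (Fin 2) (ZMod l) →* MulAut (Matrix.ProjectiveSpecialLinearGroup (Fin 2) (ZMod l)) where
  toFun g := MP7fS.cjP g
  map_one' := by
    apply MulEquiv.ext
    intro x
    obtain ⟨A, rfl⟩ := MP7fS.mk_surj x
    change MP7fS.cjP 1 (MP7fS.mk A) = MP7fS.mk A
    rw [MP7fS.cjP_mk, MP7fS.cj_refl_one]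
  map_mul' g h := by
    apply MulEquiv.ext
    intro x
    obtain ⟨A, rfl⟩ := MP7fS.mk_surj x
    change MP7fS.cjP (g * h) (MP7fS.mk A) = MP7fS.cjP g (MP7fS.cjP h (MP7fS.mk A))
    rw [MP7fS.cjP_mk, MP7fS.cjP_mk, MP7fS.cjP_mk, MP7fS.cj_cj]

private theorem cjHom_mk {l : ℕ} [Fact l.Prime] (g : GL (Fin 2) (ZMod l))
    (A : MP7fS.SL2 (ZMod l)) :
    cjHom l g (MP7fS.mk A) = MP7fS.mk (MP7fS.cj g (RingEquiv.refl _) A) := rfl

/-- Scalar matrices are in the center. -/
private theorem mem_center_of_scalar {l : ℕ} [Fact l.Prime] {g : GL (Fin 2) (ZMod l)}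
    {c : (ZMod l)ˣ} (h : ∀ i j, g.1 i j = c * (1 : GL (Fin 2) (ZMod l)).1 i j) :
    g ∈ Subgroup.center (GL (Fin 2) (ZMod l)) := by
  have hg : g.1 = (c : ZMod l) • (1 : Matrix (Fin 2) (Fin 2) (ZMod l)) := by
    ext i j
    rw [h i j]
    rfl
  rw [Subgroup.mem_center_iff]
  intro h'
  apply Units.ext
  rw [Units.val_mul, Units.val_mul, hg, mul_smul_comm, mul_one, smul_mul_assoc, one_mul]

/-- The center acts trivially. -/
private theorem center_le_ker (l : ℕ) [Fact l.Prime] :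
    Subgroup.center (GL (Fin 2) (ZMod l)) ≤ (cjHom l).ker := by
  intro g hg
  rw [MonoidHom.mem_ker]
  apply MulEquiv.ext
  intro x
  obtain ⟨A, rfl⟩ := MP7fS.mk_surj x
  rw [cjHom_mk]
  change MP7fS.mk _ = MP7fS.mk A
  apply congrArg MP7fS.mk
  apply Subtype.ext
  rw [MP7fS.cj_coe]
  have h2 : A.1.map (RingEquiv.refl (ZMod l)) = A.1 := by
    ext i j
    rfl
  rw [h2]
  rw [Subgroup.mem_center_iff] at hg
  have h3 := hg (Matrix.SpecialLinearGroup.toGL A)
  have h4 : A.1 * g.1 = g.1 * A.1 := congrArg Units.val h3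
  rw [← h4, mul_assoc]
  have h5 : g.1 * (g⁻¹).1 = 1 := g.mul_inv
  rw [h5, mul_one]

/-- The kernel of the action is the center. -/
private theorem ker_le_center (l : ℕ) [Fact l.Prime] :
    (cjHom l).ker ≤ Subgroup.center (GL (Fin 2) (ZMod l)) := by
  intro g hg
  rw [MonoidHom.mem_ker] at hg
  have h1 : ∀ A : MP7fS.SL2 (ZMod l), MP7fS.mk (MP7fS.cj g (RingEquiv.refl _) A) =
      MP7fS.mk (MP7fS.cj 1 (RingEquiv.refl _) A) := by
    intro A
    rw [← cjHom_mk, hg, MP7fS.cj_refl_one]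
    rfl
  obtain ⟨-, c, hc⟩ := MP7fS.cj_unique h1
  exact mem_center_of_scalar hc

/-- The action of `PGL(2, l)` on `PSL(2, l)`. -/
private def act (l : ℕ) [Fact l.Prime] :
    PGL l →* MulAut (Matrix.ProjectiveSpecialLinearGroup (Fin 2) (ZMod l)) :=
  QuotientGroup.lift _ (cjHom l) (center_le_ker l)

private theorem act_mk {l : ℕ} [Fact l.Prime] (g : GL (Fin 2) (ZMod l)) :
    act l (QuotientGroup.mk g) = cjHom l g := rfl

private theorem act_injective (l : ℕ) [Fact l.Prime] : Function.Injective (act l) := by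
  rw [injective_iff_map_eq_one]
  intro x hx
  obtain ⟨g, rfl⟩ := QuotientGroup.mk_surjective x
  rw [act_mk] at hx
  rw [QuotientGroup.eq_one_iff]
  exact ker_le_center l (MonoidHom.mem_ker.mpr hx)

private theorem act_surjective (l : ℕ) [Fact l.Prime] : Function.Surjective (act l) := by
  intro α
  obtain ⟨g, σ, h⟩ := MP7fS.aut_psl2 α
  refine ⟨QuotientGroup.mk g, ?_⟩
  rw [act_mk]
  apply MulEquiv.ext
  intro x
  obtain ⟨A, rfl⟩ := MP7fS.mk_surj x
  rw [cjHom_mk, h A, ringEquiv_refl σ]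

/-- The inner automorphism of the class of `A`. -/
private theorem act_sl {l : ℕ} [Fact l.Prime] (A : MP7fS.SL2 (ZMod l)) :
    act l (QuotientGroup.mk (Matrix.SpecialLinearGroup.toGL A)) =
      MulAut.conj (MP7fS.mk A :
        Matrix.ProjectiveSpecialLinearGroup (Fin 2) (ZMod l)) := by
  rw [act_mk]
  apply MulEquiv.ext
  intro x
  obtain ⟨B, rfl⟩ := MP7fS.mk_surj x
  rw [cjHom_mk, MulAut.conj_apply]
  change MP7fS.mk _ = MP7fS.mk (A * B * A⁻¹)
  apply congrArg MP7fS.mk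
  apply Subtype.ext
  rw [MP7fS.cj_coe]
  have h2 : B.1.map (RingEquiv.refl (ZMod l)) = B.1 := by
    ext i j
    rfl
  rw [h2]
  rfl

/-- **Aut.** The automorphisms of `PSL(2, l)`. -/
theorem tAut (h1 : S_Pgl) : S_Aut := by
  intro l _ hl
  obtain ⟨hp1, -, -, -, -, hp6, -⟩ := h1 l hl
  let Φ : PGL l ≃* MulAut (Matrix.ProjectiveSpecialLinearGroup (Fin 2) (ZMod l)) :=
    MulEquiv.ofBijective (act l) ⟨act_injective l, act_surjective l⟩
  refine ⟨Φ.symm, ?_⟩
  intro g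
  have hcase : ∀ (A : MP7fS.SL2 (ZMod l)),
      Φ.symm (MulAut.conj (MP7fS.mk A :
        Matrix.ProjectiveSpecialLinearGroup (Fin 2) (ZMod l))) =
      QuotientGroup.mk (Matrix.SpecialLinearGroup.toGL A) := by
    intro A
    rw [MulEquiv.symm_apply_eq]
    exact (act_sl A).symm
  constructor
  · intro hg
    obtain ⟨M, hM, hMg⟩ := hp6 g hg
    refine ⟨MP7fS.mk ⟨M.1, hM⟩, ?_⟩
    rw [hcase, ← hMg]
    apply congrArg
    apply Units.ext
    rfl
  · rintro ⟨s, rfl⟩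
    obtain ⟨A, rfl⟩ := MP7fS.mk_surj s
    rw [hcase, hp1]
    refine ⟨1, ?_⟩
    rw [mul_one]
    exact A.2

end MP7Sh
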