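import Pool.Agent.Lib.MP_7f581e_Sh.SpecG

/-!
# MP_7f581e_nt, GA realizations of `PSL(2, l)`: an element with determinant `N`, `N = 2`
-/

set_option autoImplicit false

namespace MP7Sh

open Polynomial WeierstrassCurve

open scoped Classical

private theorem ec2 {L : Type} [Field L] (t : L) : Ec 2 t = ⟨0, 1, 0, t, 0⟩ := if_pos rfl

private theorem disc2 {L : Type} [Field L] (t : L) :
    (Ec 2 t).Δ = 2 ^ 4 * t ^ 2 * (1 - 4 * t) := by
  rw [ec2]
  simp only [WeierstrassCurve.Δ, WeierstrassCurve.b₂, WeierstrassCurve.b₄,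
    WeierstrassCurve.b₆, WeierstrassCurve.b₈]
  ring

private theorem map2 {L M : Type} [Field L] [Field M] (f : L →+* M) (t : L) :
    (Ec 2 t).map f = Ec 2 (f t) := by
  rw [ec2, ec2]
  simp [WeierstrassCurve.map]

private theorem eight_ne {L : Type} [Field L] (h : (2 : L) ≠ 0) : (8 : L) ≠ 0 := by
  have : (8 : L) = 2 * 2 * 2 := by norm_num
  rw [this]
  exact mul_ne_zero (mul_ne_zero h h) h

private theorem four_ne {L : Type} [Field L] (h : (2 : L) ≠ 0) : (4 : L) ≠ 0 := by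
  have : (4 : L) = 2 * 2 := by norm_num
  rw [this]
  exact mul_ne_zero h h

/-- The basic facts on the good model. -/
private theorem good {κ F : Type} [Field κ] [Field F] [Algebra κ F] {v : F → ℤ} (hv : Kr κ v)
    (h2 : (2 : κ) ≠ 0) {T : F} (hT : Ge v 1 (T - 8⁻¹)) :
    Is v 0 T ∧ It v (Ec 2 T) ∧ Is v 0 (Ec 2 T).Δ := by
  have h2F : (2 : F) ≠ 0 := by
    have := (map_ne_zero (algebraMap κ F)).mpr h2
    rwa [map_ofNat] at this
  have h8F := eight_ne h2F
  have i2 : Is v 0 (2 : F) := by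
    have := hv.isCst h2
    rwa [map_ofNat] at this
  have i8 : Is v 0 (8⁻¹ : F) := by
    have := hv.isCst (inv_ne_zero (eight_ne h2))
    rwa [map_inv₀, map_ofNat] at this
  have iT : Is v 0 T := by
    have := Is.ge_add hv.ord hT i8 one_pos
    rwa [sub_add_cancel] at this
  have i1 : Is v 0 (1 - 4 * T) := by
    have i12 : Is v 0 (2⁻¹ : F) := by
      have := i2.inv hv.ord
      rwa [neg_zero] at this
    have g4 : Ge v 1 (4 * (T - 8⁻¹)) := (Ge.ofNat hv.ord 4).mul_left hv.ord hT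
    have := i12.sub_ge hv.ord g4 one_pos
    have e1 : (2⁻¹ : F) - 4 * (T - 8⁻¹) = 1 - 4 * T := by
      field_simp
      ring
    rwa [e1] at this
  refine ⟨iT, ?_, ?_⟩
  · rw [ec2]
    exact ⟨Ge.zero, Ge.one hv.ord, Ge.zero, iT.ge, Ge.zero⟩
  · rw [disc2]
    have := ((i2.pow hv.ord 4).mul hv.ord (iT.pow hv.ord 2)).mul hv.ord i1
    simpa using this

/-- `σ (σ P) = P`. -/
private theorem invol (h1 : S_Pts) (h2 : S_Pm) (h4 : S_Int) (h6 : S_Red) {κ F : Type} [Field κ]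
    [Field F] [Algebra κ F] {v : F → ℤ} (hv : Kr κ v) {σ : F ≃ₐ[κ] F} (hσ : Dv v σ) {T T' : F}
    (hT : σ T = T') (hT' : σ T' = T) {l : ℕ} (hodd : Odd l) (hl : Is v 0 (l : F))
    (hit : It v (Ec 2 T)) (hd : Is v 0 (Ec 2 T).Δ) (hd' : (Ec 2 T').Δ ≠ 0)
    (P : (Ec 2 T).toAffine.Point) (hP : l • P = 0) :
    pm (Ec 2 T') (Ec 2 T) σ (pm (Ec 2 T) (Ec 2 T') σ P) = P := by
  have hm : Ec 2 T' = (Ec 2 T).map (σ : F →+* F) := by
    rw [map2]
    exact congrArg _ hT.symm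
  have hm' : Ec 2 T = (Ec 2 T').map (σ : F →+* F) := by
    rw [map2]
    exact congrArg _ hT'.symm
  obtain ⟨a1, a2, -, -, -, -, a7, -⟩ := h2 F F (σ : F →+* F) (Ec 2 T) (Ec 2 T') hd.1 hm
  obtain ⟨b1, b2, -, -, -, -, b7, -⟩ := h2 F F (σ : F →+* F) (Ec 2 T') (Ec 2 T) hd' hm'
  obtain ⟨pt1, pt2, -⟩ := h1 F (Ec 2 T) hd.1
  rcases pt1 P with rfl | ⟨x, y, hxy⟩
  · exact (congrArg _ a1).trans b1
  · have c1 : At (pm (Ec 2 T') (Ec 2 T) σ (pm (Ec 2 T) (Ec 2 T') σ P)) (σ (σ x)) (σ (σ y)) :=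
      b2 _ _ _ (a2 _ _ _ hxy)
    have c2 : l • pm (Ec 2 T') (Ec 2 T) σ (pm (Ec 2 T) (Ec 2 T') σ P) = 0 := by
      have e1 := b7 l (pm (Ec 2 T) (Ec 2 T') σ P)
      have e2 := a7 l P
      rw [hP] at e2
      have e3 : l • pm (Ec 2 T) (Ec 2 T') σ P = 0 := e2.symm.trans a1
      rw [e3] at e1
      exact e1.symm.trans b1
    obtain ⟨gx, gy⟩ := h4 F v hv.ord (Ec 2 T) hd.1 hit l hl P x y hP hxy
    have key : ∀ z : F, Ge v 0 z → Ge v 1 (σ (σ z) - z) := by
      intro z hz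
      have k1 := hv.triv hσ hz
      have k2 : Ge v 0 (σ z) := by
        have := (k1.mono (by omega : (0 : ℤ) ≤ 1)).add hv.ord hz
        rwa [sub_add_cancel] at this
      have k3 := (hv.triv hσ k2).add hv.ord k1
      rwa [sub_add_sub_cancel] at k3
    exact h6 F v hv.ord (Ec 2 T) hd.1 hit l hodd hl _ P _ _ _ _ c2 hP c1 hxy (key x gx) (key y gy)
      (Or.inl hd)

private theorem coprime_zero {A : Type} [AddCommGroup A] {l c : ℕ} (hl : l.Prime) (h1 : 1 ≤ c)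
    (h2 : 2 * c < l) (P : A) (hP : l • P = 0) (hc : c • P = 0) : P = 0 := by
  have h3 : Nat.gcd l c = 1 := (Nat.Prime.coprime_iff_not_dvd hl).mpr (by
    intro h
    have := Nat.le_of_dvd (by omega) h
    omega)
  have h4 : addOrderOf P ∣ 1 := by
    rw [← h3]
    exact Nat.dvd_gcd (addOrderOf_dvd_of_nsmul_eq_zero hP) (addOrderOf_dvd_of_nsmul_eq_zero hc)
  rw [Nat.dvd_one, AddMonoid.addOrderOf_eq_one_iff] at h4
  exact h4

private theorem ps_cases {L : Type} [Field L] (N : ℕ) (θ t t' : L) (Q : (Ec N t).toAffine.Point)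
    (x y : L) (h : At Q x y) : ps N θ t t' Q = 0 ∨
      ∃ y' : L, At (ps N θ t t' Q) (psx N t x) y' := by
  obtain ⟨hn, rfl⟩ := h
  unfold ps
  split_ifs with h'
  · exact Or.inr ⟨_, h'.2.2, rfl⟩
  · exact Or.inl rfl

private theorem res_psx {κ F : Type} [Field κ] [Field F] [Algebra κ F] {v : F → ℤ} (hv : Kr κ v)
    (h2 : (2 : κ) ≠ 0) {T' x' : F} (hT : Ge v 1 (T' - 8⁻¹)) {xb : κ} (hxb : xb ≠ 0)
    (hx : Ge v 1 (x' - algebraMap κ F xb)) :
    Ge v 1 (psx 2 T' x' - algebraMap κ F (-(xb ^ 2 + xb + 8⁻¹) / (2 * xb))) := by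
  have h2F : (2 : F) ≠ 0 := by
    have := (map_ne_zero (algebraMap κ F)).mpr h2
    rwa [map_ofNat] at this
  have h8F := eight_ne h2F
  have i2 : Is v 0 (2 : F) := by
    have := hv.isCst h2
    rwa [map_ofNat] at this
  have i8 : Is v 0 (8⁻¹ : F) := by
    have := hv.isCst (inv_ne_zero (eight_ne h2))
    rwa [map_inv₀, map_ofNat] at this
  have iB := hv.isCst hxb
  rw [map_div₀, map_neg, map_add, map_add, map_pow, map_mul, map_inv₀, map_ofNat, map_ofNat]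
  generalize algebraMap κ F xb = B at hx iB ⊢
  have ix : Is v 0 x' := by
    have := Is.ge_add hv.ord hx iB one_pos
    rwa [sub_add_cancel] at this
  have e : psx 2 T' x' - -(B ^ 2 + B + 8⁻¹) / (2 * B) =
      (2 * x' * B)⁻¹ * (8⁻¹ * (x' - B) - B * x' * (x' - B) - B * (T' - 8⁻¹)) := by
    have hx0 := ix.ne
    have hB0 := iB.ne
    unfold psx
    rw [if_pos rfl]
    field_simp
    ring
  rw [e]
  have iD : Is v 0 ((2 * x' * B)⁻¹) := by
    have := ((i2.mul hv.ord ix).mul hv.ord iB).inv hv.ord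
    simpa using this
  refine iD.ge.mul_left hv.ord ?_
  refine ((i8.ge.mul_left hv.ord hx).sub hv.ord ?_).sub hv.ord (iB.ge.mul_left hv.ord hT)
  exact (iB.ge.mul_left hv.ord ix.ge).mul_left hv.ord hx

/-- The residue of the abscissa of a torsion point is not zero. -/
private theorem res_ne (h1 : S_Pts) (h5 : S_Ns) {κ F : Type} [Field κ] [Field F] [Algebra κ F]
    {v : F → ℤ} (hv : Kr κ v) {T : F} {l : ℕ} (hodd : Odd l) (hl : Is v 0 (l : F))
    (iT : Is v 0 T) (hit : It v (Ec 2 T)) (hd : Is v 0 (Ec 2 T).Δ)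
    (P : (Ec 2 T).toAffine.Point) (x y : F) (hP : l • P = 0) (hxy : At P x y)
    (xb : κ) (hx : Ge v 1 (x - algebraMap κ F xb)) : xb ≠ 0 := by
  rintro rfl
  rw [map_zero, sub_zero] at hx
  obtain ⟨-, pt2, -⟩ := h1 F (Ec 2 T) hd.1
  obtain ⟨-, -, -, heq⟩ := pt2 P x y hxy
  have hu := h5 F v hv.ord (Ec 2 T) hd.1 hit l hodd hl P x y hP hxy (Or.inl hd)
  rw [ec2] at heq
  have e1 : y ^ 2 = x * (x ^ 2 + x + T) := by
    simp only at heq
    linear_combination heq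
  have g0 : Ge v 0 x := hx.mono (by omega)
  have g1 : Ge v 1 (y ^ 2) := by
    rw [e1]
    exact hx.mul_right hv.ord (((g0.pow0 hv.ord 2).add hv.ord g0).add hv.ord iT.ge)
  have g2 : Ge v 1 y := by
    by_cases hy : y = 0
    · exact Or.inl hy
    · right
      have := (Ge.of_ne (pow_ne_zero 2 hy)).mp g1
      rw [hv.ord.pow hy] at this
      push_cast at this
      omega
  have e2 : p2 (Ec 2 T) x y = 2 * y := by
    rw [ec2]
    unfold p2
    ring
  rw [e2] at hu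
  exact hu.not_ge one_pos ((Ge.ofNat hv.ord 2).mul_left hv.ord g2)

theorem tBr2 (h1 : S_Pts) (h2 : S_Pm) (h4 : S_Int) (h5 : S_Ns) (h6 : S_Red)
    (h7 : S_Gnb) (h8 : S_Scl) (h9 : S_Brs) (h10 : S_Gsq) : S_Br2 := by
  intro l hlf κ F iκ iac iF iA T θ e hN hθ hG
  obtain ⟨v, σ, hv, hσ, hσT, hT⟩ := (h9 l κ F T).1 hN hG
  have k2 : (2 : κ) ≠ 0 := by exact_mod_cast hN.nk
  have h2F : (2 : F) ≠ 0 := by
    have := (map_ne_zero (algebraMap κ F)).mpr k2
    rwa [map_ofNat] at this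
  have h8F := eight_ne h2F
  have h4F := four_ne h2F
  have hc0 : c0 2 F = 4⁻¹ := if_pos rfl
  have hT' : Ge v 1 (c0 2 F - T - 8⁻¹) := by
    have := hT.neg hv.ord
    have e1 : c0 2 F - T - 8⁻¹ = -(T - 8⁻¹) := by
      rw [hc0]
      field_simp
      ring
    rwa [e1]
  obtain ⟨iT, it1, id1⟩ := good hv k2 hT
  obtain ⟨iT', it2, id2⟩ := good hv k2 hT'
  have hσc : σ (c0 2 F) = c0 2 F := by
    rw [hc0, map_inv₀, map_ofNat]
  have hσT' : σ (c0 2 F - T) = T := by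
    rw [map_sub, hσc, hσT]
    ring
  have hodd : Odd l := hN.lp.odd_of_ne_two (by have := hN.l5; omega)
  have hl : Is v 0 (l : F) := by
    have := hv.isCst hN.lk
    rwa [map_natCast] at this
  have hinv : ∀ P : Tl l (Ec 2 T), pm (Ec 2 (c0 2 F - T)) (Ec 2 T) σ
      (pm (Ec 2 T) (Ec 2 (c0 2 F - T)) σ P) = P := fun P =>
    invol h1 h2 h4 h6 hv hσ hσT hσT' hodd hl it1 id1 id2.1 P P.2
  refine ⟨σ, hσT, ?_⟩
  rcases h10 l 2 κ F T (c0 2 F - T) θ e σ hN hθ (by ring) iT.ne iT'.ne hσT hinv with h | h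
  · intro M hM
    exact_mod_cast h M hM
  exfalso
  obtain ⟨c, hc1, hc2, hc⟩ := h
  -- the reduced curve
  have hdb : (Ec 2 (8⁻¹ : κ)).Δ ≠ 0 := by
    have k8 := eight_ne k2
    rw [disc2]
    have e1 : (1 : κ) - 4 * 8⁻¹ = 2⁻¹ := by
      field_simp
      norm_num
    rw [e1]
    exact mul_ne_zero (mul_ne_zero (pow_ne_zero _ k2) (pow_ne_zero _ (inv_ne_zero k8)))
      (inv_ne_zero k2)
  have h8b : algebraMap κ F (8⁻¹ : κ) = 8⁻¹ := by
    rw [map_inv₀, map_ofNat]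
  obtain ⟨gn1, gn2⟩ := h7 κ F v hv (Ec 2 T) (Ec 2 (8⁻¹ : κ)) id1.1 it1 id1 hdb
    (by rw [ec2, ec2]; simpa using Ge.zero) (by rw [ec2, ec2]; simpa using Ge.zero)
    (by rw [ec2, ec2]; simpa using Ge.zero)
    (by rw [ec2, ec2]; show Ge v 1 (T - algebraMap κ F 8⁻¹); rw [h8b]; exact hT)
    (by rw [ec2, ec2]; simpa using Ge.zero) l hodd hl
  obtain ⟨pt1, pt2, pt3, pt4, pt5, -⟩ := h1 F (Ec 2 T) id1.1
  have hm : Ec 2 (c0 2 F - T) = (Ec 2 T).map (σ : F →+* F) := by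
    rw [map2]
    exact congrArg _ hσT.symm
  obtain ⟨a1, a2, -⟩ := h2 F F (σ : F →+* F) (Ec 2 T) (Ec 2 (c0 2 F - T)) id1.1 hm
  -- residues
  have hres : ∀ z : F, ∃ c : κ, Ge v 0 z → Ge v 1 (z - algebraMap κ F c) := by
    intro z
    by_cases hz : Ge v 0 z
    · obtain ⟨c, hc⟩ := hv.res z hz
      exact ⟨c, fun _ => hc⟩
    · exact ⟨0, fun h => absurd h hz⟩
  choose rs hrs using hres
  have hrx : ∀ (P : (Ec 2 T).toAffine.Point) (x y : F), l • P = 0 → At P x y →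
      Ge v 1 (x - algebraMap κ F (rs x)) := fun P x y hP hxy =>
    hrs x (h4 F v hv.ord (Ec 2 T) id1.1 it1 l hl P x y hP hxy).1
  have : Fact l.Prime := hlf
  have : NeZero l := ⟨hN.lp.ne_zero⟩
  let _ : Fintype (Tl l (Ec 2 T)) := Fintype.ofEquiv _ e.symm.toEquiv
  have hcard : Fintype.card (Tl l (Ec 2 T)) = l ^ 2 := by
    rw [Fintype.card_congr e.toEquiv, Fintype.card_fun, ZMod.card, Fintype.card_fin]
  let S0 : Finset (Tl l (Ec 2 T)) := Finset.univ.filter (· ≠ 0)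
  let f : Tl l (Ec 2 T) → κ := fun P => rs (px (P : (Ec 2 T).toAffine.Point))
  have hS0 : S0.card + 1 = l ^ 2 := by
    have e1 : S0 = Finset.univ.erase 0 := by
      ext P
      simp [S0]
    rw [e1, Finset.card_erase_add_one (Finset.mem_univ _), Finset.card_univ, hcard]
  have hfib : S0.card ≤ 2 * (S0.image f).card := by
    apply Finset.card_le_mul_card_image
    intro a ha
    obtain ⟨P, hP, rfl⟩ := Finset.mem_image.mp ha
    have hP0 : (P : (Ec 2 T).toAffine.Point) ≠ 0 := fun h =>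
      (Finset.mem_filter.mp hP).2 (Subtype.ext h)
    have e1 : S0.filter (fun x => f x = f P) ⊆ {P, -P} := by
      intro Q hQ
      obtain ⟨hQ1, hQ2⟩ := Finset.mem_filter.mp hQ
      have hQ0 : (Q : (Ec 2 T).toAffine.Point) ≠ 0 := fun h =>
        (Finset.mem_filter.mp hQ1).2 (Subtype.ext h)
      obtain ⟨x, y, hxy⟩ := (pt1 P).resolve_left hP0
      obtain ⟨x', y', hxy'⟩ := (pt1 Q).resolve_left hQ0
      have g1 := hrx P x y P.2 hxy
      have g2 := hrx Q x' y' Q.2 hxy'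
      have e2 : rs x' = rs x := by
        have e3 : px (Q : (Ec 2 T).toAffine.Point) = x' := (pt2 Q x' y' hxy').2.1
        have e4 : px (P : (Ec 2 T).toAffine.Point) = x := (pt2 P x y hxy).2.1
        have : rs (px (Q : (Ec 2 T).toAffine.Point)) = rs (px (P : (Ec 2 T).toAffine.Point)) := hQ2
        rwa [e3, e4] at this
      rw [e2] at g2
      rcases gn2 Q P x' y' x y (rs x) Q.2 P.2 hxy' hxy g2 g1 with h | h
      · rw [Finset.mem_insert]
        exact Or.inl (Subtype.ext h)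
      · rw [Finset.mem_insert, Finset.mem_singleton]
        exact Or.inr (Subtype.ext h)
    exact (Finset.card_le_card e1).trans Finset.card_le_two
  refine h8 κ (Ec 2 (8⁻¹ : κ)) hdb l c hN.l5 hc1 hc2 (X ^ 2 + X + C 8⁻¹) (-(C 2 * X))
    (by compute_degree!) (by compute_degree!) (by simpa using eight_ne k2) (S0.image f)
    (by omega) ?_
  intro xb hxb
  obtain ⟨P, hP, rfl⟩ := Finset.mem_image.mp hxb
  have hP0 : (P : (Ec 2 T).toAffine.Point) ≠ 0 := fun h =>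
    (Finset.mem_filter.mp hP).2 (Subtype.ext h)
  obtain ⟨x, y, hxy⟩ := (pt1 P).resolve_left hP0
  have e4 : px (P : (Ec 2 T).toAffine.Point) = x := (pt2 P x y hxy).2.1
  have e5 : f P = rs x := congrArg rs e4
  have g1 := hrx P x y P.2 hxy
  rw [e5]
  have hb := res_ne h1 h5 hv hodd hl iT it1 id1 P x y P.2 hxy (rs x) g1
  have g2 : Ge v 1 (σ x - algebraMap κ F (rs x)) := by
    have g0 := (h4 F v hv.ord (Ec 2 T) id1.1 it1 l hl P x y P.2 hxy).1
    have := (hv.triv hσ g0).add hv.ord g1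
    rwa [sub_add_sub_cancel] at this
  have g3 := res_psx hv k2 hT' hb g2
  -- the abscissa of `c P`
  have hat : ∃ y₁ : F, At (c • (P : (Ec 2 T).toAffine.Point)) (psx 2 (c0 2 F - T) (σ x)) y₁ := by
    have hc' := hc P
    unfold gg at hc'
    rcases ps_cases 2 (algebraMap κ F θ) (c0 2 F - T) T _ (σ x) (σ y) (a2 _ _ _ hxy) with h0 | h0
    · exfalso
      apply hP0
      apply coprime_zero hN.lp hc1 hc2 _ P.2
      have h0' : ps 2 (algebraMap κ F θ) (c0 2 F - T) T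
          (pm (Ec 2 T) (Ec 2 (c0 2 F - T)) σ P) = 0 := h0
      rw [h0'] at hc'
      rcases hc' with h | h
      · exact h.symm
      · exact neg_eq_zero.mp h.symm
    · obtain ⟨y', hy'⟩ := h0
      have hy : At (ps 2 (algebraMap κ F θ) (c0 2 F - T) T
          (pm (Ec 2 T) (Ec 2 (c0 2 F - T)) σ P)) (psx 2 (c0 2 F - T) (σ x)) y' := hy'
      rcases hc' with h | h
      · rw [h] at hy
        exact ⟨_, hy⟩
      · rw [h] at hy
        have := pt5 _ _ _ hy
        rw [neg_neg] at this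
        exact ⟨_, this⟩
  obtain ⟨y₁, hy₁⟩ := hat
  have key := (gn1 c P x y _ y₁ (rs x) _ P.2 hxy hy₁ g1 g3).1
  simp only [eval_add, eval_pow, eval_X, eval_C, eval_neg, eval_mul]
  rw [key]
  field_simp

end MP7Sh
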