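import Pool.Agent.Lib.MP_7f581e_Sh.SpecG

/-!
# MP_7f581e_nt, GA realizations of `PSL(2, l)`: an element with determinant `N`, `N = 3`
-/

set_option autoImplicit false

namespace MP7Sh

open Polynomial WeierstrassCurve

open scoped Classical

section residues

variable {κ F : Type} [Field κ] [Field F] [Algebra κ F] {v : F → ℤ}

/-- `x` has the residue `a`. -/
private def Rs (v : F → ℤ) (x : F) (a : κ) : Prop := Ge v 1 (x - algebraMap κ F a)

private theorem rs_ge (h : Kr κ v) {x : F} {a : κ} (hx : Rs v x a) : Ge v 0 x := by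
  have h1 := (Ge.mono hx (by norm_num : (0 : ℤ) ≤ 1)).add h.ord (h.geCst a)
  rwa [sub_add_cancel] at h1

private theorem rs_cst (a : κ) : Rs v (algebraMap κ F a) a := by
  unfold Rs
  rw [sub_self]
  exact Ge.zero

private theorem rs_ofNat (n : ℕ) [n.AtLeastTwo] :
    Rs v (OfNat.ofNat n : F) (OfNat.ofNat n : κ) := by
  unfold Rs
  rw [map_ofNat, sub_self]
  exact Ge.zero

private theorem rs_one : Rs v (1 : F) (1 : κ) := by
  unfold Rs
  rw [map_one, sub_self]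
  exact Ge.zero

private theorem rs_add (h : Kr κ v) {x y : F} {a b : κ} (hx : Rs v x a) (hy : Rs v y b) :
    Rs v (x + y) (a + b) := by
  have h1 := Ge.add h.ord hx hy
  unfold Rs
  have e : x + y - algebraMap κ F (a + b) =
    (x - algebraMap κ F a) + (y - algebraMap κ F b) := by rw [map_add]; ring
  rwa [e]

private theorem rs_neg (h : Kr κ v) {x : F} {a : κ} (hx : Rs v x a) : Rs v (-x) (-a) := by
  have h1 := Ge.neg h.ord hx
  unfold Rs
  have e : -x - algebraMap κ F (-a) = -(x - algebraMap κ F a) := by rw [map_neg]; ring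
  rwa [e]

private theorem rs_sub (h : Kr κ v) {x y : F} {a b : κ} (hx : Rs v x a) (hy : Rs v y b) :
    Rs v (x - y) (a - b) := by
  rw [sub_eq_add_neg, sub_eq_add_neg]
  exact rs_add h hx (rs_neg h hy)

private theorem rs_mul (h : Kr κ v) {x y : F} {a b : κ} (hx : Rs v x a) (hy : Rs v y b) :
    Rs v (x * y) (a * b) := by
  have h1 := (Ge.mul_right h.ord hx (rs_ge h hy)).add h.ord (Ge.mul_left h.ord (h.geCst a) hy)
  unfold Rs
  have e : x * y - algebraMap κ F (a * b) =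
    (x - algebraMap κ F a) * y + algebraMap κ F a * (y - algebraMap κ F b) := by
    rw [map_mul]; ring
  rwa [e]

private theorem rs_pow (h : Kr κ v) {x : F} {a : κ} (hx : Rs v x a) (n : ℕ) :
    Rs v (x ^ n) (a ^ n) := by
  induction n with
  | zero => rw [pow_zero, pow_zero]; exact rs_one
  | succ n ih => rw [pow_succ, pow_succ]; exact rs_mul h ih hx

private theorem rs_is (h : Kr κ v) {x : F} {a : κ} (ha : a ≠ 0) (hx : Rs v x a) : Is v 0 x := by
  have h1 := (h.isCst ha).add_ge h.ord hx (by norm_num)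
  rwa [add_sub_cancel] at h1

private theorem rs_inv (h : Kr κ v) {x : F} {a : κ} (ha : a ≠ 0) (hx : Rs v x a) :
    Rs v x⁻¹ a⁻¹ := by
  have h1 := rs_is h ha hx
  have h2 := ((h1.mul h.ord (h.isCst ha)).inv h.ord).ge
  have h3 := Ge.mul_right h.ord (Ge.neg h.ord hx) (Ge.mono h2 (by norm_num))
  unfold Rs
  have ha' : algebraMap κ F a ≠ 0 := (h.isCst ha).1
  have hx' : x ≠ 0 := h1.1
  have e : x⁻¹ - algebraMap κ F a⁻¹ =
      -(x - algebraMap κ F a) * (x * algebraMap κ F a)⁻¹ := by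
    rw [map_inv₀]
    field_simp
    ring
  rwa [e]

private theorem rs_div (h : Kr κ v) {x y : F} {a b : κ} (hb : b ≠ 0) (hx : Rs v x a)
    (hy : Rs v y b) : Rs v (x / y) (a / b) := by
  rw [div_eq_mul_inv, div_eq_mul_inv]
  exact rs_mul h hx (rs_inv h hb hy)

private theorem rs_sig (h : Kr κ v) {σ : F ≃ₐ[κ] F} (hσ : Dv v σ) {x : F} {a : κ}
    (hx : Rs v x a) : Rs v (σ x) a := by
  have h1 := Ge.add h.ord (h.triv hσ (rs_ge h hx)) hx
  unfold Rs
  have e : σ x - algebraMap κ F a = (σ x - x) + (x - algebraMap κ F a) := by ring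
  rwa [e]

private theorem rs_eq (h : Kr κ v) {x y : F} {a : κ} (hx : Rs v x a) (hy : Rs v y a) :
    Ge v 1 (x - y) := by
  have h1 := Ge.sub h.ord hx hy
  rwa [sub_sub_sub_cancel_right] at h1

private theorem rs_uniq (h : Kr κ v) {x : F} {a b : κ} (hx : Rs v x a) (hy : Rs v x b) :
    a = b := h.uniq hx hy

end residues

private theorem tors {A : Type} [AddCommGroup A] {l m : ℕ} (hl : l.Prime) (h0 : 0 < m)
    (hm : m < l) {P : A} (h1 : l • P = 0) (h2 : m • P = 0) : P = 0 := by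
  have hc : Nat.Coprime l m :=
    (Nat.Prime.coprime_iff_not_dvd hl).2 (Nat.not_dvd_of_pos_of_lt h0 hm)
  have hd : addOrderOf P ∣ Nat.gcd l m :=
    Nat.dvd_gcd (addOrderOf_dvd_iff_nsmul_eq_zero.2 h1) (addOrderOf_dvd_iff_nsmul_eq_zero.2 h2)
  rw [hc.gcd_eq_one, Nat.dvd_one] at hd
  exact AddMonoid.addOrderOf_eq_one_iff.1 hd

private theorem mem_Tl {L : Type} [Field L] {l : ℕ} {W : WeierstrassCurve L}
    (P : Tl l W) : l • (P : W.toAffine.Point) = 0 := P.2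

/-- **Br3.** An element with determinant `N`, `N = 3`. -/
theorem tBr3 (h1 : S_Pts) (h2 : S_Pm) (h3 : S_Cv) (h5 : S_Int) (h7 : S_Red) (h8 : S_Gnb)
    (h9 : S_Scl) (h10 : S_Brs) (h11 : S_Gsq) : S_Br3 := by
  intro l _ κ F _ _ _ _ T ρ θ e hN hθ hG hρ
  obtain ⟨v, σ, hK, hD, hσT, hvρ, hq⟩ := (h10 l κ F T).2 hN hG ρ hρ
  refine ⟨σ, hσT, ?_⟩
  have hv := hK.ord
  have h3κ : (3 : κ) ≠ 0 := by simpa using hN.nk
  have hl5 := hN.l5
  have hlp := hN.lp
  have hρ0 : ρ ≠ 0 := by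
    rintro rfl
    simp at hρ
  have hT0 : T ≠ 0 := by
    rintro rfl
    simp at hρ
  obtain ⟨q, hqd⟩ : ∃ q, q = σ ρ := ⟨_, rfl⟩
  obtain ⟨T', hT'd⟩ : ∃ T', T' = c0 3 F - T := ⟨_, rfl⟩
  rw [← hqd] at hq
  rw [← hT'd] at hσT ⊢
  have hq0 : q ≠ 0 := by
    rw [hqd]
    exact (map_ne_zero σ).2 hρ0
  have hqT : q ^ 3 * T' = 1 := by rw [hqd, ← hσT, ← map_pow, ← map_mul, hρ, map_one]
  have hT'0 : T' ≠ 0 := by
    intro h
    rw [h, mul_zero] at hqT
    exact zero_ne_one hqT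
  have hc : c0 3 F = 27⁻¹ := by simp [c0]
  have hσc : σ (c0 3 F) = c0 3 F := by rw [hc, map_inv₀, map_ofNat]
  have hσT' : σ T' = T := by
    rw [hT'd, map_sub, hσc, hσT, hT'd]
    ring
  have hTT : T + T' = c0 3 F := by
    rw [hT'd]
    ring
  -- residues
  have rρ : Rs v ρ (0 : κ) := by
    unfold Rs
    rw [map_zero, sub_zero]
    exact Or.inr (by omega)
  have rq : Rs v q (0 : κ) := by
    rw [hqd]
    exact rs_sig hK hD rρ
  have rqr : Rs v (q / ρ) (-1 : κ) := by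
    unfold Rs
    rw [map_neg, map_one, sub_neg_eq_add]
    exact hq
  have rrq : Rs v (ρ / q) (-1 : κ) := by
    have h := rs_inv hK (neg_ne_zero.2 one_ne_zero) rqr
    rw [inv_div] at h
    simpa [inv_neg] using h
  have rss : Rs v (ρ / σ q) (1 : κ) := by
    have g1 := rs_sig hK hD rqr
    have g2 := rs_mul hK g1 rqr
    have g3 : σ (q / ρ) * (q / ρ) = σ q / ρ := by
      rw [map_div₀, ← hqd]
      field_simp
    rw [g3, neg_mul_neg, one_mul] at g2
    have g4 := rs_inv hK one_ne_zero g2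
    rwa [inv_div, inv_one] at g4
  -- the model
  obtain ⟨W', hW'⟩ : ∃ W', W' = tr (Ec 3 T) ρ 0 0 := ⟨_, rfl⟩
  have a1 : (tr (Ec 3 T) ρ 0 0).a₁ = ρ := by simp [tr, Ec]
  have a2 : (tr (Ec 3 T) ρ 0 0).a₂ = 0 := by simp [tr, Ec]
  have a3 : (tr (Ec 3 T) ρ 0 0).a₃ = 1 := by simpa [tr, Ec] using hρ
  have a4 : (tr (Ec 3 T) ρ 0 0).a₄ = 0 := by simp [tr, Ec]
  have a6 : (tr (Ec 3 T) ρ 0 0).a₆ = 0 := by simp [tr, Ec]
  have b2 : (tr (Ec 3 T) ρ 0 0).b₂ = ρ ^ 2 := by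
    rw [WeierstrassCurve.b₂, a1, a2]; ring
  have b4 : (tr (Ec 3 T) ρ 0 0).b₄ = ρ := by
    rw [WeierstrassCurve.b₄, a1, a3, a4]; ring
  have b6 : (tr (Ec 3 T) ρ 0 0).b₆ = 1 := by
    rw [WeierstrassCurve.b₆, a3, a6]; ring
  have b8 : (tr (Ec 3 T) ρ 0 0).b₈ = 0 := by
    rw [WeierstrassCurve.b₈, a1, a2, a3, a4, a6]; ring
  have hΔ : (tr (Ec 3 T) ρ 0 0).Δ = ρ ^ 3 - 27 := by
    rw [WeierstrassCurve.Δ, b2, b4, b6, b8]; ring
  have h27 : (-27 : κ) ≠ 0 := by
    have : (-27 : κ) = -(3 ^ 3) := by norm_num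
    rw [this]
    exact neg_ne_zero.2 (pow_ne_zero 3 h3κ)
  have rΔ : Rs v ((tr (Ec 3 T) ρ 0 0).Δ) (-27 : κ) := by
    rw [hΔ]
    have h := rs_sub hK (rs_pow hK rρ 3) (rs_ofNat (κ := κ) (F := F) (v := v) 27)
    have e : (0 : κ) ^ 3 - 27 = -27 := by ring
    rwa [e] at h
  have iΔ : Is v 0 ((tr (Ec 3 T) ρ 0 0).Δ) := rs_is hK h27 rΔ
  have hΔE : (Ec 3 T).Δ ≠ 0 := by
    intro h
    have e : (Ec 3 T).Δ * ρ ^ 12 = ρ ^ 3 - 27 := by
      have e1 : (Ec 3 T).Δ = T ^ 3 * (1 - 27 * T) := by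
        simp [Ec, WeierstrassCurve.Δ, WeierstrassCurve.b₂, WeierstrassCurve.b₄,
          WeierstrassCurve.b₆, WeierstrassCurve.b₈]
        ring
      rw [e1]
      linear_combination (ρ ^ 3 * ((ρ ^ 3 * T) ^ 2 + ρ ^ 3 * T + 1) -
        27 * ((ρ ^ 3 * T) ^ 3 + (ρ ^ 3 * T) ^ 2 + ρ ^ 3 * T + 1)) * hρ
    rw [h, zero_mul, ← hΔ] at e
    exact iΔ.1 e.symm
  have hIt : It v (tr (Ec 3 T) ρ 0 0) := by
    refine ⟨?_, ?_, ?_, ?_, ?_⟩
    · rw [a1]; exact rs_ge hK rρ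
    · rw [a2]; exact Ge.zero
    · rw [a3]; exact Ge.one hv
    · rw [a4]; exact Ge.zero
    · rw [a6]; exact Ge.zero
  have hlodd : Odd l := hlp.odd_of_ne_two (by omega)
  have hlF : Is v 0 (l : F) := by
    have h := hK.isCst hN.lk
    rwa [map_natCast] at h
  -- the change of coordinates
  obtain ⟨-, c0', cAt, cAdd, cInj, -, -⟩ := h3 F (Ec 3 T) ρ 0 0 hΔE hρ0
  let cH : (Ec 3 T).toAffine.Point →+ (tr (Ec 3 T) ρ 0 0).toAffine.Point :=
    { toFun := cv (Ec 3 T) ρ 0 0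
      map_zero' := c0'
      map_add' := cAdd }
  have cHi : Function.Injective cH := fun P Q h => cInj P Q h
  have cHa : ∀ (P : (Ec 3 T).toAffine.Point) (x y : F), At P x y →
      At (cH P) (ρ ^ 2 * (x - 0)) (ρ ^ 3 * (y - 0)) := fun P x y h => (cAt P x y h).1
  obtain ⟨pZ, pA, -, pE, pN, -, -, -, -, -, -, pD⟩ := h1 F (Ec 3 T) hΔE
  obtain ⟨pZ', pA', -, pE', pN', -, -, -, -, -, -, pD'⟩ := h1 F (tr (Ec 3 T) ρ 0 0) iΔ.1
  -- residues of the coordinates
  have hres : ∀ (P : (tr (Ec 3 T) ρ 0 0).toAffine.Point) (X Y : F), l • P = 0 → At P X Y →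
      (∃ a : κ, Rs v X a) ∧ ∃ b : κ, Rs v Y b := by
    intro P X Y hl hP
    obtain ⟨g1, g2⟩ := h5 F v hv _ iΔ.1 hIt l hlF P X Y hl hP
    exact ⟨hK.res X g1, hK.res Y g2⟩
  -- Galois action
  have m1 : Ec 3 T' = (Ec 3 T).map (σ : F →+* F) := by
    ext <;> simp [Ec, hσT]
  have m2 : Ec 3 T = (Ec 3 T').map (σ : F →+* F) := by
    ext <;> simp [Ec, hσT']
  have hΔE' : (Ec 3 T').Δ ≠ 0 := by
    rw [m1, WeierstrassCurve.map_Δ]
    exact (map_ne_zero (σ : F →+* F)).2 hΔE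
  obtain ⟨s0, sA, -, -, -, -, sM, -, -⟩ := h2 F F (σ : F →+* F) (Ec 3 T) (Ec 3 T') hΔE m1
  obtain ⟨s0', sA', -, -, -, -, sM', -, -⟩ := h2 F F (σ : F →+* F) (Ec 3 T') (Ec 3 T) hΔE' m2
  have hss : ∀ P : Tl l (Ec 3 T),
      pm (Ec 3 T') (Ec 3 T) σ (pm (Ec 3 T) (Ec 3 T') σ P) = P := by
    intro P
    rcases pZ P.1 with h0 | ⟨x, y, hP⟩
    · rw [h0]
      exact (congrArg (pm (Ec 3 T') (Ec 3 T) σ) s0).trans s0'
    · have g1 : At (pm (Ec 3 T) (Ec 3 T') σ P) (σ x) (σ y) := sA P.1 x y hP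
      have g2 : At (pm (Ec 3 T') (Ec 3 T) σ (pm (Ec 3 T) (Ec 3 T') σ P)) (σ (σ x))
        (σ (σ y)) := sA' _ _ _ g1
      have g3 := cHa _ _ _ g2
      have g4 := cHa _ _ _ hP
      have t1 : l • cH P = 0 := by rw [← map_nsmul, mem_Tl P, map_zero]
      have t2 : l • cH (pm (Ec 3 T') (Ec 3 T) σ (pm (Ec 3 T) (Ec 3 T') σ P)) = 0 := by
        have e1 : l • pm (Ec 3 T') (Ec 3 T) σ (pm (Ec 3 T) (Ec 3 T') σ P) =
            pm (Ec 3 T') (Ec 3 T) σ (pm (Ec 3 T) (Ec 3 T') σ (l • P.1)) := by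
          have e2 := sM l P.1
          have e3 := sM' l (pm (Ec 3 T) (Ec 3 T') σ P.1)
          exact (e3.symm).trans (congrArg (pm (Ec 3 T') (Ec 3 T) σ) e2.symm)
        rw [← map_nsmul, e1, mem_Tl P]
        have e4 : pm (Ec 3 T') (Ec 3 T) σ (pm (Ec 3 T) (Ec 3 T') σ 0) = 0 :=
          (congrArg (pm (Ec 3 T') (Ec 3 T) σ) s0).trans s0'
        rw [e4, map_zero]
      obtain ⟨⟨a, ra⟩, ⟨b, rb⟩⟩ := hres _ _ _ t1 g4
      have ra' : Rs v (ρ ^ 2 * (σ (σ x) - 0)) a := by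
        have k1 := rs_mul hK (rs_pow hK rss 2) (rs_sig hK hD (rs_sig hK hD ra))
        have hσq : σ q ≠ 0 := (map_ne_zero σ).2 hq0
        have k2 : (ρ / σ q) ^ 2 * σ (σ (ρ ^ 2 * (x - 0))) = ρ ^ 2 * (σ (σ x) - 0) := by
          rw [sub_zero, sub_zero, map_mul, map_pow, ← hqd, map_mul, map_pow]
          field_simp
        rwa [k2, one_pow, one_mul] at k1
      have rb' : Rs v (ρ ^ 3 * (σ (σ y) - 0)) b := by
        have k1 := rs_mul hK (rs_pow hK rss 3) (rs_sig hK hD (rs_sig hK hD rb))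
        have hσq : σ q ≠ 0 := (map_ne_zero σ).2 hq0
        have k2 : (ρ / σ q) ^ 3 * σ (σ (ρ ^ 3 * (y - 0))) = ρ ^ 3 * (σ (σ y) - 0) := by
          rw [sub_zero, sub_zero, map_mul, map_pow, ← hqd, map_mul, map_pow]
          field_simp
        rwa [k2, one_pow, one_mul] at k1
      exact cHi (h7 F v hv _ iΔ.1 hIt l hlodd hlF _ _ _ _ _ _ t2 t1 g3 g4 (rs_eq hK ra' ra)
        (rs_eq hK rb' rb) (Or.inl iΔ))
  rcases h11 l 3 κ F T T' θ e σ hN hθ hTT hT0 hT'0 hσT hss with hM | ⟨c, hc1, hc2, hcP⟩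
  · intro M hMM
    have h := hM M hMM
    rw [h]
    exact Nat.cast_ofNat
  · exfalso
    -- the reduction
    obtain ⟨Wb, hWb⟩ : ∃ Wb : WeierstrassCurve κ, Wb = ⟨0, 0, 1, 0, 0⟩ := ⟨_, rfl⟩
    have hΔb : Wb.Δ = -27 := by
      rw [hWb]
      simp [WeierstrassCurve.Δ, WeierstrassCurve.b₂, WeierstrassCurve.b₄,
        WeierstrassCurve.b₆, WeierstrassCurve.b₈]
    obtain ⟨n1, n2⟩ := h8 κ F v hK (tr (Ec 3 T) ρ 0 0) Wb iΔ.1 hIt iΔ (by rw [hΔb]; exact h27)
      (by rw [a1, hWb]; exact rρ)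
      (by rw [a2, hWb, map_zero, sub_zero]; exact Ge.zero)
      (by rw [a3, hWb, map_one, sub_self]; exact Ge.zero)
      (by rw [a4, hWb, map_zero, sub_zero]; exact Ge.zero)
      (by rw [a6, hWb, map_zero, sub_zero]; exact Ge.zero) l hlodd hlF
    -- the residue is not zero
    have hne : ∀ (P : (tr (Ec 3 T) ρ 0 0).toAffine.Point) (X Y : F) (a : κ), l • P = 0 →
        At P X Y → Rs v X a → a ≠ 0 := by
      intro P X Y a hl hP ra ha
      rw [ha] at ra
      have hP0 : P ≠ 0 := (pA' P X Y hP).1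
      have hl2 : l • (P + P) = 0 := by rw [nsmul_add, hl, add_zero]
      rcases pZ' (P + P) with g0 | ⟨X2, Y2, g1⟩
      · exact hP0 (tors hlp (by norm_num : 0 < 2) (by omega) hl (by rw [two_nsmul, g0]))
      · obtain ⟨⟨a', ra'⟩, -⟩ := hres _ _ _ hl2 g1
        have g2 := pD' P X Y X2 Y2 hP g1
        rw [b2, b4, b6, b8] at g2
        have g3 := rs_mul hK ra' (rs_add hK (rs_add hK (rs_add hK
          (rs_mul hK (rs_ofNat (κ := κ) (F := F) (v := v) 4) (rs_pow hK ra 3))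
          (rs_mul hK (rs_pow hK rρ 2) (rs_pow hK ra 2)))
          (rs_mul hK (rs_mul hK (rs_ofNat (κ := κ) (F := F) (v := v) 2) rρ) ra)) rs_one)
        have g4 := rs_sub hK (rs_sub hK (rs_sub hK (rs_pow hK ra 4)
          (rs_mul hK rρ (rs_pow hK ra 2)))
          (rs_mul hK (rs_mul hK (rs_ofNat (κ := κ) (F := F) (v := v) 2)
            (rs_one (κ := κ) (F := F) (v := v))) ra))
          (rs_cst (F := F) (v := v) (0 : κ))
        rw [map_zero] at g4
        rw [g2] at g3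
        have g5 := rs_uniq hK g3 g4
        have g6 : a' = 0 := by
          have : a' * (4 * 0 ^ 3 + 0 ^ 2 * 0 ^ 2 + 2 * 0 * 0 + 1) = a' := by ring
          rw [this] at g5
          rw [g5]
          ring
        rw [g6] at ra'
        rcases n2 P (P + P) X Y X2 Y2 0 hl hl2 hP g1 ra ra' with k | k
        · exact hP0 (by
            have : P + P = P := k.symm
            exact left_eq_add.1 this.symm)
        · refine hP0 (tors hlp (by norm_num : 0 < 3) (by omega) hl ?_)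
          have e3 : (3 : ℕ) • P = P + (P + P) := by rw [succ_nsmul, two_nsmul]; abel
          rw [e3]
          nth_rewrite 1 [k]
          exact neg_add_cancel _
    -- the key equation
    have hkey : ∀ (P : Tl l (Ec 3 T)) (x y : F) (a : κ), At P.1 x y →
        Rs v (ρ ^ 2 * (x - 0)) a →
        (X ^ 3 + 1 : κ[X]).eval a * (mg Wb c).eval a =
          (-3 * X ^ 2 : κ[X]).eval a * (mf Wb c).eval a := by
      intro P x y a hP ra
      have t1 : l • cH P = 0 := by rw [← map_nsmul, mem_Tl P, map_zero]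
      have g4 := cHa _ _ _ hP
      have ha : a ≠ 0 := hne _ _ _ a t1 g4 ra
      have hP0 : P.1 ≠ 0 := (pA _ _ _ hP).1
      have hcP0 : c • P.1 ≠ 0 := fun h => hP0 (tors hlp hc1 (by omega) (mem_Tl P) h)
      have g1 : At (pm (Ec 3 T) (Ec 3 T') σ P) (σ x) (σ y) := sA P.1 x y hP
      have hg0 : gg 3 (algebraMap κ F θ) T T' σ P ≠ 0 := by
        rcases hcP P with k | k
        · rw [k]
          exact hcP0
        · rw [k]
          exact neg_ne_zero.2 hcP0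
      have hx0 : σ x ≠ 0 := by
        intro h
        have hx : x = 0 := (map_eq_zero σ).1 h
        rw [hx, sub_zero, mul_zero] at ra
        refine ha ((rs_uniq hK ra ?_))
        have h := rs_cst (F := F) (v := v) (0 : κ)
        rwa [map_zero] at h
      -- the abscissa of `g P`
      have hgA : ∃ y₁, At (gg 3 (algebraMap κ F θ) T T' σ P) (psx 3 T' (σ x)) y₁ := by
        unfold gg ps at hg0 ⊢
        split_ifs at hg0 ⊢ with hh
        · have hpx : px (pm (Ec 3 T) (Ec 3 T') σ P) = σ x := by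
            obtain ⟨_, e⟩ := g1
            rw [e]
            rfl
          refine ⟨psy 3 (algebraMap κ F θ) T' (px (pm (Ec 3 T) (Ec 3 T') σ P))
            (py (pm (Ec 3 T) (Ec 3 T') σ P)), ?_⟩
          rw [← hpx]
          exact ⟨hh.2.2, rfl⟩
        · exact absurd rfl hg0
      obtain ⟨y₁, hgA⟩ := hgA
      have hgc := cHa _ _ _ hgA
      have hcc : ∃ y₂, At (c • cH P.1) (ρ ^ 2 * (psx 3 T' (σ x) - 0)) y₂ := by
        rcases hcP P with k | k
        · rw [k, map_nsmul] at hgc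
          exact ⟨_, hgc⟩
        · have k' : c • P.1 = -gg 3 (algebraMap κ F θ) T T' σ P := by rw [k, neg_neg]
          rw [← map_nsmul, k', map_neg]
          exact ⟨_, pN' _ _ _ hgc⟩
      obtain ⟨y₂, hcc⟩ := hcc
      -- its residue
      have rξ : Rs v (σ (ρ ^ 2 * (x - 0))) a := rs_sig hK hD ra
      have e1 : ρ ^ 2 * (psx 3 T' (σ x) - 0) =
          -((ρ / q) ^ 2 * ((σ (ρ ^ 2 * (x - 0))) ^ 3 + q * σ (ρ ^ 2 * (x - 0)) + 1) /
            (3 * (σ (ρ ^ 2 * (x - 0))) ^ 2)) - ρ ^ 2 / 9 := by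
        have hT'' : T' = (q ^ 3)⁻¹ := eq_inv_of_mul_eq_one_right hqT
        have h3F : (3 : F) ≠ 0 := by
          have := (hK.isCst h3κ).1
          rwa [map_ofNat] at this
        rw [sub_zero, sub_zero, map_mul, map_pow, ← hqd]
        unfold psx
        rw [if_neg (by norm_num), hT'']
        have h9 : (9 : F) ≠ 0 := by
          have : (9 : F) = 3 ^ 2 := by norm_num
          rw [this]
          exact pow_ne_zero 2 h3F
        field_simp
      have h3a : (3 : κ) * a ^ 2 ≠ 0 := mul_ne_zero h3κ (pow_ne_zero 2 ha)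
      have h9κ : (9 : κ) ≠ 0 := by
        have : (9 : κ) = 3 ^ 2 := by norm_num
        rw [this]
        exact pow_ne_zero 2 h3κ
      have r1 := rs_sub hK (rs_neg hK (rs_div hK h3a (rs_mul hK (rs_pow hK rrq 2)
        (rs_add hK (rs_add hK (rs_pow hK rξ 3) (rs_mul hK rq rξ)) rs_one))
        (rs_mul hK (rs_ofNat (κ := κ) (F := F) (v := v) 3) (rs_pow hK rξ 2))))
        (rs_div hK h9κ (rs_pow hK rρ 2) (rs_ofNat (κ := κ) (F := F) (v := v) 9))
      rw [← e1] at r1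
      obtain ⟨u1, -⟩ := n1 c (cH P.1) _ _ _ _ a _ t1 g4 hcc ra r1
      rw [eval_add, eval_pow, eval_X, eval_one, eval_mul, eval_pow, eval_X, eval_neg,
        eval_ofNat, u1]
      field_simp
      ring
    -- counting
    have hfin : Finite (Tl l (Ec 3 T)) := Finite.of_equiv _ e.toEquiv.symm
    have := Fintype.ofFinite (Tl l (Ec 3 T))
    have hcard : Fintype.card (Tl l (Ec 3 T)) = l ^ 2 := by
      rw [Fintype.card_congr e.toEquiv]
      simp [ZMod.card]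
    have hex : ∀ P : Tl l (Ec 3 T), P ≠ 0 → ∃ (a : κ) (x y : F), At P.1 x y ∧
        Rs v (ρ ^ 2 * (x - 0)) a := by
      intro P hP
      rcases pZ P.1 with h0 | ⟨x, y, hxy⟩
      · exact absurd (Subtype.ext h0) hP
      · have t1 : l • cH P = 0 := by rw [← map_nsmul, mem_Tl P, map_zero]
        obtain ⟨⟨a, ra⟩, -⟩ := hres _ _ _ t1 (cHa _ _ _ hxy)
        exact ⟨a, x, y, hxy, ra⟩
    choose! φ hφ using hex
    let s : Finset (Tl l (Ec 3 T)) := Finset.univ.erase 0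
    have hs : s.card = l ^ 2 - 1 := by
      rw [Finset.card_erase_of_mem (Finset.mem_univ _), Finset.card_univ, hcard]
    have hs0 : ∀ P ∈ s, P ≠ 0 := fun P hP => (Finset.mem_erase.1 hP).1
    have hle : s.card ≤ 2 * (s.image φ).card := by
      refine Finset.card_le_mul_card_image s 2 ?_
      intro a ha
      obtain ⟨P₀, hP₀, rfl⟩ := Finset.mem_image.1 ha
      have hsub : s.filter (fun P => φ P = φ P₀) ⊆ {P₀, -P₀} := by
        intro P hP
        rw [Finset.mem_filter] at hP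
        obtain ⟨x, y, hxy, ra⟩ := hφ P (hs0 P hP.1)
        obtain ⟨x₀, y₀, hxy₀, ra₀⟩ := hφ P₀ (hs0 P₀ hP₀)
        rw [hP.2] at ra
        have t1 : l • cH P = 0 := by rw [← map_nsmul, mem_Tl P, map_zero]
        have t2 : l • cH P₀ = 0 := by rw [← map_nsmul, mem_Tl P₀, map_zero]
        rw [Finset.mem_insert, Finset.mem_singleton]
        rcases n2 _ _ _ _ _ _ _ t1 t2 (cHa _ _ _ hxy) (cHa _ _ _ hxy₀) ra ra₀ with k | k
        · left
          exact Subtype.ext (cHi k)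
        · right
          rw [← map_neg] at k
          exact Subtype.ext (cHi k)
      exact (Finset.card_le_card hsub).trans Finset.card_le_two
    refine h9 κ Wb (by rw [hΔb]; exact h27) l c hl5 hc1 hc2 (X ^ 3 + 1) (-3 * X ^ 2) ?_ ?_ ?_
      (s.image φ) ?_ ?_
    · compute_degree
    · have : (-3 * X ^ 2 : κ[X]) = C (-3) * X ^ 2 := by
        rw [map_neg, map_ofNat]
      rw [this]
      exact natDegree_C_mul_X_pow_le _ _
    · simp
    · have hl1 : 1 ≤ l ^ 2 := Nat.one_le_pow _ _ (by omega)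
      omega
    · intro a ha
      obtain ⟨P₀, hP₀, rfl⟩ := Finset.mem_image.1 ha
      obtain ⟨x₀, y₀, hxy₀, ra₀⟩ := hφ P₀ (hs0 P₀ hP₀)
      exact hkey P₀ x₀ y₀ _ hxy₀ ra₀

end MP7Sh
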