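import Pool.Agent.Lib.MP_7f581e_Sh.SpecV

/-!
# MP_7f581e_nt, GA realizations of `PSL(2, l)`: `S_Brg`
-/

set_option autoImplicit false

namespace MP7Sh

open Polynomial IntermediateField

open scoped Classical

/-- Separability over a larger field. -/
private theorem Brg_up {A B Ω : Type} [Field A] [Field B] [Field Ω] [Algebra A Ω] [Algebra B Ω]
    (i : A →+* B) (hi : ∀ a, algebraMap B Ω (i a) = algebraMap A Ω a) (z : Ω)
    (h : IsSeparable A z) : IsSeparable B z := by
  have h1 : aeval z ((minpoly A z).map i) = 0 := by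
    have h2 : (algebraMap B Ω).comp i = algebraMap A Ω := RingHom.ext hi
    rw [aeval_def, eval₂_map, h2, ← aeval_def, minpoly.aeval]
  exact Polynomial.Separable.of_dvd (Polynomial.Separable.map h) (minpoly.dvd B z h1)

/-- Two homomorphisms which agree at `s` agree on the field generated by `s`. -/
private theorem Brg_eq {κ M N : Type} [Field κ] [Field M] [Field N] [Algebra κ M] [Algebra κ N]
    (f g : M →ₐ[κ] N) (s : M) (h : f s = g s) : ∀ k ∈ IntermediateField.adjoin κ {s}, f k = g k := by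
  intro k hk
  obtain ⟨p, q, rfl⟩ := (mem_adjoin_simple_iff κ k).1 hk
  rw [map_div₀, map_div₀, ← aeval_algHom_apply, ← aeval_algHom_apply, ← aeval_algHom_apply,
    ← aeval_algHom_apply, h]

/-- `s = T ^ 2 - c T` is transcendental. -/
private theorem Brg_tr {κ Ω : Type} [Field κ] [Field Ω] [Algebra κ Ω] (T : Ω) (c : κ)
    (hT : Transcendental κ T) : Transcendental κ (T ^ 2 - algebraMap κ Ω c * T) := by
  have h1 : (X ^ 2 - C c * X : κ[X]).natDegree = 2 := by
    compute_degree!
  have h2 := hT.aeval (X ^ 2 - C c * X : κ[X]) (by rw [h1]; exact two_ne_zero) (by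
    rw [mem_nonZeroDivisors_iff_ne_zero, Ne, leadingCoeff_eq_zero]
    intro h0
    rw [h0, natDegree_zero] at h1
    exact absurd h1 (by norm_num))
  rwa [map_sub, map_mul, map_pow, aeval_X, aeval_C] at h2

/-- `T` is separable over `κ(s)`. -/
private theorem Brg_sepT {κ Ω : Type} [Field κ] [Field Ω] [Algebra κ Ω] (T : Ω) (c : κ)
    (hc : c ≠ 0) (hT : Transcendental κ T) :
    IsSeparable (IntermediateField.adjoin κ {T ^ 2 - algebraMap κ Ω c * T}) T := by
  obtain ⟨K, hK⟩ : ∃ K, K = IntermediateField.adjoin κ {T ^ 2 - algebraMap κ Ω c * T} := ⟨_, rfl⟩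
  rw [← hK]
  obtain ⟨s, hs⟩ : ∃ s : K, (s : Ω) = T ^ 2 - algebraMap κ Ω c * T :=
    ⟨⟨_, by rw [hK]; exact IntermediateField.mem_adjoin_simple_self κ _⟩, rfl⟩
  have hne : algebraMap κ K c ^ 2 + 4 * s ≠ 0 := by
    intro h0
    have h1 : (algebraMap κ Ω c) ^ 2 + 4 * (s : Ω) = 0 := by
      have h2 := congrArg (algebraMap K Ω) h0
      rw [map_add, map_mul, map_pow, map_zero, map_ofNat, ← IsScalarTower.algebraMap_apply κ K Ω] at h2
      exact h2
    have h3 : (2 * T - algebraMap κ Ω c) ^ 2 = 0 := by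
      rw [hs] at h1
      linear_combination h1
    have h4 : 2 * T - algebraMap κ Ω c = 0 := pow_eq_zero_iff two_ne_zero |>.1 h3
    by_cases h5 : (2 : κ) = 0
    · have h6 : (2 : Ω) = 0 := by
        rw [← map_ofNat (algebraMap κ Ω) 2, h5, map_zero]
      rw [h6, zero_mul, zero_sub, neg_eq_zero, map_eq_zero] at h4
      exact hc h4
    · have h6 : T = algebraMap κ Ω (c / 2) := by
        have h7 : (2 : Ω) ≠ 0 := by
          rw [← map_ofNat (algebraMap κ Ω) 2, Ne, map_eq_zero]
          exact h5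
        rw [map_div₀, map_ofNat, eq_div_iff h7]
        linear_combination h4
      exact hT (h6 ▸ isAlgebraic_algebraMap (c / 2))
  obtain ⟨P, hP⟩ : ∃ P : K[X], P = X ^ 2 - C (algebraMap κ K c) * X - C s := ⟨_, rfl⟩
  have hroot : aeval T P = 0 := by
    rw [hP, map_sub, map_sub, map_mul, map_pow, aeval_X, aeval_C, aeval_C,
      ← IsScalarTower.algebraMap_apply κ K Ω]
    have h1 : algebraMap K Ω s = (s : Ω) := rfl
    rw [h1, hs]
    ring
  have hder : derivative P = 2 * X - C (algebraMap κ K c) := by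
    rw [hP]
    simp only [derivative_sub, derivative_X_pow, derivative_mul, derivative_C, derivative_X,
      zero_mul, zero_add, mul_one, sub_zero, Nat.cast_ofNat]
    have h2 : (C (2 : K) : K[X]) = 2 := rfl
    rw [h2]
    norm_num
  have hsep : P.Separable := by
    rw [separable_def]
    refine ⟨C (-4 * (algebraMap κ K c ^ 2 + 4 * s)⁻¹),
      C (algebraMap κ K c ^ 2 + 4 * s)⁻¹ * (2 * X - C (algebraMap κ K c)), ?_⟩
    rw [hder, hP]
    have h1 : (C ((algebraMap κ K c ^ 2 + 4 * s)⁻¹ * (algebraMap κ K c ^ 2 + 4 * s)) : K[X]) = 1 := by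
      rw [inv_mul_cancel₀ hne, C_1]
    rw [← h1]
    simp only [C_mul, C_add, C_pow, C_neg]
    have h4 : (C (4 : K) : K[X]) = 4 := rfl
    rw [h4]
    ring
  exact Polynomial.Separable.of_dvd hsep (minpoly.dvd K T hroot)

/-- The big field is separable over `κ(s)`. -/
private theorem Brg_sep {κ Ω : Type} [Field κ] [Field Ω] [Algebra κ Ω] (T : Ω) (c : κ)
    (hc : c ≠ 0) (hT : Transcendental κ T)
    (hsep : ∀ z : Ω, IsSeparable (IntermediateField.adjoin κ {T}) z) :
    Algebra.IsSeparable (IntermediateField.adjoin κ {T ^ 2 - algebraMap κ Ω c * T}) Ω := by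
  refine ⟨fun z => ?_⟩
  have h1 := Brg_sepT T c hc hT
  obtain ⟨K, hK⟩ : ∃ K, K = IntermediateField.adjoin κ {T ^ 2 - algebraMap κ Ω c * T} := ⟨_, rfl⟩
  rw [← hK] at h1 ⊢
  have h2 : Algebra.IsSeparable K (IntermediateField.adjoin K {T}) :=
    (isSeparable_adjoin_simple_iff_isSeparable _ _).2 h1
  refine IsSeparable.of_algebra_isSeparable_of_isSeparable K (E := IntermediateField.adjoin K {T}) ?_
  have hle : IntermediateField.adjoin κ {T} ≤
      (IntermediateField.adjoin K {T}).restrictScalars κ := by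
    rw [IntermediateField.adjoin_simple_le_iff]
    exact IntermediateField.mem_adjoin_simple_self K T
  refine Brg_up ((IntermediateField.inclusion hle : IntermediateField.adjoin κ {T} →ₐ[κ] _) :
    IntermediateField.adjoin κ {T} →+* (IntermediateField.adjoin K {T}).restrictScalars κ)
    (fun a => rfl) z (hsep z)

/-- The fixed field in a subfield which is stable. -/
private theorem Brg_gx {κ Ω : Type} [Field κ] [Field Ω] [Algebra κ Ω] (F : IntermediateField κ Ω)
    (t : F) (ht : Transcendental κ (t : Ω))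
    (hgal : IsGalois (IntermediateField.adjoin κ {(t : Ω)}) Ω)
    (hstab : ∀ τ : Ω ≃ₐ[κ] Ω, τ (t : Ω) = t → ∃ σ : F ≃ₐ[κ] F, ∀ y : F, τ y = (σ y : Ω))
    (hfin : {σ : F ≃ₐ[κ] F | σ t = t}.Finite) : Gx κ t := by
  refine ⟨?_, ?_, ?_⟩
  · intro h
    exact ht (h.algebraMap (A := Ω))
  · have h1 : ((MulAction.stabilizer (F ≃ₐ[κ] F) t : Subgroup (F ≃ₐ[κ] F)) :
      Set (F ≃ₐ[κ] F)) = {σ : F ≃ₐ[κ] F | σ t = t} := rfl
    rw [← h1] at hfin
    exact hfin.to_subtype
  · intro y hy
    have h1 : (y : Ω) ∈ IntermediateField.adjoin κ {(t : Ω)} := by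
      have h2 : (y : Ω) ∈ Set.range (algebraMap (IntermediateField.adjoin κ {(t : Ω)}) Ω) := by
        rw [InfiniteGalois.mem_range_algebraMap_iff_fixed]
        intro f
        have hft : (f.restrictScalars κ) (t : Ω) = t := by
          have h3 := f.commutes ⟨(t : Ω), IntermediateField.mem_adjoin_simple_self κ (t : Ω)⟩
          exact h3
        obtain ⟨σ, hσ⟩ := hstab (f.restrictScalars κ) hft
        have h4 : σ t = t := Subtype.ext (by rw [← hσ, hft])
        have h5 := hσ y
        rw [hy σ h4] at h5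
        exact h5
      obtain ⟨k, hk⟩ := h2
      rw [← hk]
      exact k.2
    have h3 : IntermediateField.adjoin κ {(t : Ω)} = (IntermediateField.adjoin κ {t}).map F.val := by
      rw [IntermediateField.adjoin_map, Set.image_singleton]
      rfl
    rw [h3, IntermediateField.mem_map] at h1
    obtain ⟨y', hy', he⟩ := h1
    have h4 : y' = y := Subtype.ext he
    rwa [h4] at hy'

theorem tBrg : S_Brg := by
  intro κ Ω _ _ _ _ _ T c hc hT hsep Z hZ
  obtain ⟨s, hs⟩ : ∃ s, s = T ^ 2 - algebraMap κ Ω c * T := ⟨_, rfl⟩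
  have hstr : Transcendental κ s := by
    rw [hs]
    exact Brg_tr T c hT
  have hsepK : Algebra.IsSeparable (IntermediateField.adjoin κ {s}) Ω := by
    rw [hs]
    exact Brg_sep T c hc hT hsep
  have hclK : IsSepClosure (IntermediateField.adjoin κ {s}) Ω := ⟨inferInstance, hsepK⟩
  have hclL : IsSepClosure (IntermediateField.adjoin κ {T}) Ω := ⟨inferInstance, ⟨hsep⟩⟩
  have hgalK : IsGalois (IntermediateField.adjoin κ {s}) Ω := inferInstance
  have hgalL : IsGalois (IntermediateField.adjoin κ {T}) Ω := inferInstance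
  have hnorK : Normal (IntermediateField.adjoin κ {s}) Ω := inferInstance
  have halgK : Algebra.IsAlgebraic (IntermediateField.adjoin κ {s}) Ω := inferInstance
  -- the field
  have hSfin : (insert T Z).Finite := hZ.insert T
  have hSf : Finite (insert T Z : Set Ω) := hSfin.to_subtype
  have hfd1 : FiniteDimensional (IntermediateField.adjoin κ {s})
      (IntermediateField.adjoin (IntermediateField.adjoin κ {s}) (insert T Z)) :=
    IntermediateField.finiteDimensional_adjoin fun x _ =>
      (halgK.isAlgebraic x).isIntegral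
  obtain ⟨F0, hF0⟩ : ∃ F0, F0 = normalClosure (IntermediateField.adjoin κ {s})
      (IntermediateField.adjoin (IntermediateField.adjoin κ {s}) (insert T Z)) Ω := ⟨_, rfl⟩
  have hfd : FiniteDimensional (IntermediateField.adjoin κ {s}) F0 := by
    rw [hF0]
    infer_instance
  have hnor : Normal (IntermediateField.adjoin κ {s}) F0 := by
    rw [hF0]
    infer_instance
  have hle : insert T Z ⊆ (F0 : Set Ω) := by
    refine (IntermediateField.subset_adjoin (IntermediateField.adjoin κ {s}) _).trans ?_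
    rw [hF0]
    exact IntermediateField.le_normalClosure _
  have hstab : ∀ τ : Ω ≃ₐ[κ] Ω, τ s = s → ∀ y ∈ F0, τ y ∈ F0 := by
    intro τ hτ y hy
    have h1 : ∀ k : IntermediateField.adjoin κ {s}, τ (k : Ω) = k := fun k =>
      Brg_eq (τ : Ω →ₐ[κ] Ω) (AlgHom.id κ Ω) s hτ k k.2
    let τ' : Gal(Ω/(IntermediateField.adjoin κ {s})) :=
      { (τ : Ω ≃+* Ω) with commutes' := h1 }
    have h2 := (IntermediateField.normal_iff_forall_map_le'.1 hnor) τ'
    exact h2 ⟨y, hy, rfl⟩
  have hstab' : ∀ τ : Ω ≃ₐ[κ] Ω, τ s = s → ∃ σ : F0.restrictScalars κ ≃ₐ[κ] F0.restrictScalars κ,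
      ∀ y : F0.restrictScalars κ, τ y = (σ y : Ω) := by
    intro τ hτ
    have hτ' : τ.symm s = s := by
      rw [AlgEquiv.symm_apply_eq, hτ]
    exact ⟨{ toFun := fun y => ⟨τ y, hstab τ hτ y y.2⟩
             invFun := fun y => ⟨τ.symm y, hstab τ.symm hτ' y y.2⟩
             left_inv := fun y => Subtype.ext (τ.symm_apply_apply _)
             right_inv := fun y => Subtype.ext (τ.apply_symm_apply _)
             map_mul' := fun y z => Subtype.ext (map_mul τ _ _)
             map_add' := fun y z => Subtype.ext (map_add τ _ _)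
             commutes' := fun r => Subtype.ext (τ.commutes r) }, fun y => rfl⟩
  have hTF : T ∈ F0.restrictScalars κ := hle (Set.mem_insert T Z)
  obtain ⟨T₁, hT₁⟩ : ∃ T₁ : F0.restrictScalars κ, (T₁ : Ω) = T := ⟨⟨T, hTF⟩, rfl⟩
  have hs₁ : ((T₁ ^ 2 - algebraMap κ (F0.restrictScalars κ) c * T₁ : F0.restrictScalars κ) : Ω) =
      s := by
    have h1 : ((T₁ ^ 2 - algebraMap κ (F0.restrictScalars κ) c * T₁ : F0.restrictScalars κ) : Ω) =
      (T₁ : Ω) ^ 2 - algebraMap κ Ω c * (T₁ : Ω) := rfl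
    rw [h1, hT₁]
    exact hs.symm
  obtain ⟨s₁, hs₁'⟩ : ∃ s₁, s₁ = T₁ ^ 2 - algebraMap κ (F0.restrictScalars κ) c * T₁ := ⟨_, rfl⟩
  rw [← hs₁'] at hs₁
  -- automorphisms of `F` which fix `s`
  have hext : ∀ σ : F0.restrictScalars κ ≃ₐ[κ] F0.restrictScalars κ, σ s₁ = s₁ →
      ∃ σ' : F0 ≃ₐ[IntermediateField.adjoin κ {s}] F0, ∀ y : F0, (σ' y : Ω) =
        (σ (⟨y, y.2⟩ : F0.restrictScalars κ) : Ω) := by
    intro σ hσ
    have h1 : ∀ k ∈ IntermediateField.adjoin κ {s₁}, σ k = k := fun k hk =>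
      Brg_eq (σ : F0.restrictScalars κ →ₐ[κ] F0.restrictScalars κ)
        (AlgHom.id κ (F0.restrictScalars κ)) s₁ hσ k hk
    have h2 : ∀ (k : Ω) (_ : k ∈ IntermediateField.adjoin κ {s}) (hk : k ∈ F0.restrictScalars κ),
        σ ⟨k, hk⟩ = ⟨k, hk⟩ := by
      intro k hk hkF
      apply h1
      have h3 : IntermediateField.adjoin κ {(s₁ : Ω)} =
          (IntermediateField.adjoin κ {s₁}).map (F0.restrictScalars κ).val := by
        rw [IntermediateField.adjoin_map, Set.image_singleton]
        rfl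
      have h5 : k ∈ IntermediateField.adjoin κ {(s₁ : Ω)} := by
        rw [hs₁]
        exact hk
      rw [h3, IntermediateField.mem_map] at h5
      obtain ⟨y', hy', he⟩ := h5
      have h4 : y' = ⟨k, hkF⟩ := Subtype.ext he
      rwa [h4] at hy'
    refine ⟨{ toFun := fun y => (⟨(σ ⟨y, y.2⟩ : F0.restrictScalars κ),
                (σ ⟨y, y.2⟩ : F0.restrictScalars κ).2⟩ : F0)
              invFun := fun y => (⟨(σ.symm ⟨y, y.2⟩ : F0.restrictScalars κ),
                (σ.symm ⟨y, y.2⟩ : F0.restrictScalars κ).2⟩ : F0)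
              left_inv := fun y => Subtype.ext (congrArg Subtype.val
                (σ.symm_apply_apply (⟨y, y.2⟩ : F0.restrictScalars κ)))
              right_inv := fun y => Subtype.ext (congrArg Subtype.val
                (σ.apply_symm_apply (⟨y, y.2⟩ : F0.restrictScalars κ)))
              map_mul' := fun y z => Subtype.ext (congrArg Subtype.val
                (map_mul σ (⟨y, y.2⟩ : F0.restrictScalars κ) ⟨z, z.2⟩))
              map_add' := fun y z => Subtype.ext (congrArg Subtype.val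
                (map_add σ (⟨y, y.2⟩ : F0.restrictScalars κ) ⟨z, z.2⟩))
              commutes' := fun k => Subtype.ext (congrArg Subtype.val
                (h2 (k : Ω) k.2 (algebraMap (IntermediateField.adjoin κ {s}) F0 k).2)) },
      fun y => rfl⟩
  have hfin : {σ : F0.restrictScalars κ ≃ₐ[κ] F0.restrictScalars κ | σ s₁ = s₁}.Finite := by
    choose! e he using hext
    refine Set.Finite.of_finite_image (f := e) (Set.toFinite _) ?_
    intro σ hσ σ' hσ' hee
    apply AlgEquiv.ext
    intro y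
    apply Subtype.ext
    have h1 := he σ hσ ⟨y, y.2⟩
    have h2 := he σ' hσ' ⟨y, y.2⟩
    rw [hee] at h1
    exact h1.symm.trans h2
  have hTs : ∀ σ : F0.restrictScalars κ ≃ₐ[κ] F0.restrictScalars κ, σ T₁ = T₁ → σ s₁ = s₁ := by
    intro σ hσ
    rw [hs₁', map_sub, map_mul, map_pow, AlgEquiv.commutes, hσ]
  have hTs' : ∀ τ : Ω ≃ₐ[κ] Ω, τ T = T → τ s = s := by
    intro σ hσ
    rw [hs, map_sub, map_mul, map_pow, AlgEquiv.commutes, hσ]
  refine ⟨F0.restrictScalars κ, T₁, hT₁, fun z hz => hle (Set.mem_insert_of_mem T hz), ?_, ?_, ?_,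
    ?_⟩
  · rw [← hs₁']
    refine Brg_gx (F0.restrictScalars κ) s₁ ?_ ?_ ?_ hfin
    · rw [hs₁]
      exact hstr
    · rw [hs₁]
      exact hgalK
    · rw [hs₁]
      exact hstab'
  · refine Brg_gx (F0.restrictScalars κ) T₁ ?_ ?_ ?_ (hfin.subset fun σ hσ => hTs σ hσ)
    · rw [hT₁]
      exact hT
    · rw [hT₁]
      exact hgalL
    · rw [hT₁]
      intro τ hτ
      exact hstab' τ (hTs' τ hτ)
  · rw [← hs₁']
    intro σ hσ
    obtain ⟨σ', hσ'⟩ := hext σ hσ
    refine ⟨(σ'.liftNormal Ω).restrictScalars κ, fun y => ?_⟩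
    have h1 := σ'.liftNormal_commutes Ω (⟨y, y.2⟩ : F0)
    have h2 := hσ' ⟨y, y.2⟩
    exact h1.trans h2
  · rw [← hs]
    exact hstab'

end MP7Sh
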