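import Pool.Agent.Lib.MP_7f581e_Sh.SpecE

/-! # MP_7f581e_nt, Sh, Bs (helper29): groups of order `l ^ 2` and exponent `l` -/

set_option autoImplicit false

namespace MP7Sh

open Polynomial WeierstrassCurve

open scoped Classical

private theorem bs_aux (l : ℕ) [hl : Fact l.Prime] (G : Type) [AddCommGroup G] [Module (ZMod l) G]
    (hcard : Nat.card G = l ^ 2) : Nonempty (G ≃+ (Fin 2 → ZMod l)) := by
  have hl0 : 0 < l := hl.out.pos
  have hfin : Finite G := Nat.finite_of_card_ne_zero (by
    rw [hcard]
    positivity)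
  have hm : Module.Finite (ZMod l) G := Module.Finite.of_finite
  have h1 : Nat.card G = Nat.card (ZMod l) ^ Module.finrank (ZMod l) G :=
    Module.natCard_eq_pow_finrank
  rw [hcard, Nat.card_zmod] at h1
  have h2 : Module.finrank (ZMod l) G = 2 := (Nat.pow_right_injective hl.out.two_le h1).symm
  have e : G ≃ₗ[ZMod l] (Fin 2 → ZMod l) :=
    LinearEquiv.ofFinrankEq G (Fin 2 → ZMod l) (by rw [h2, Module.finrank_fin_fun])
  exact ⟨e.toAddEquiv⟩

theorem tBs : S_Bs := by
  intro l hl G _ hG hcard
  let m : Module (ZMod l) G := AddCommGroup.zmodModule hG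
  exact bs_aux l G hcard

end MP7Sh
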