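import Pool.Agent.Lib.MP_7f581e_Sh.SpecG

/-!
# MP_7f581e_nt, `Sh/CH`: a matrix with `M ^ 2 = - N`
-/

set_option autoImplicit false

namespace MP7Sh

open Polynomial WeierstrassCurve

open scoped Classical

theorem tCH : S_CH := by
  intro l _ M n h
  have h00 := congrFun (congrFun h 0) 0
  have h01 := congrFun (congrFun h 0) 1
  have h10 := congrFun (congrFun h 1) 0
  have h11 := congrFun (congrFun h 1) 1
  simp [Matrix.mul_apply, Fin.sum_univ_two] at h00 h01 h10 h11
  rw [Matrix.det_fin_two]
  by_cases ht : M 0 0 + M 1 1 = 0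
  · left
    linear_combination M 0 0 * ht - h00
  · right
    have e1 : M 0 1 = 0 := by
      have h1 : (M 0 0 + M 1 1) * M 0 1 = 0 := by linear_combination h01
      exact (mul_eq_zero.1 h1).resolve_left ht
    have e2 : M 1 0 = 0 := by
      have h1 : (M 0 0 + M 1 1) * M 1 0 = 0 := by linear_combination h10
      exact (mul_eq_zero.1 h1).resolve_left ht
    have e3 : M 0 0 = M 1 1 := by
      have h1 : (M 0 0 + M 1 1) * (M 0 0 - M 1 1) = 0 := by linear_combination h00 - h11
      exact sub_eq_zero.1 ((mul_eq_zero.1 h1).resolve_left ht)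
    refine ⟨M 0 0, ?_⟩
    ext i j
    fin_cases i <;> fin_cases j <;> simp [e1, e2, e3]

end MP7Sh
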