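import Pool.Agent.Lib.MP_7f581e_Sh.SpecL

/-!
# MP_7f581e_nt: components of torsion points
-/

set_option autoImplicit false

namespace MP7Sh

open Polynomial WeierstrassCurve

open scoped Classical

private theorem dd_eq {M : ℤ} (a q s : ℤ) (h : a = 2 * M * q + s) (h0 : 0 ≤ s)
    (h1 : s < 2 * M) : dd M a = min s (2 * M - s) := by
  have h2 : a % (2 * M) = s := by
    rw [h, add_comm, Int.add_mul_emod_self_left]
    exact Int.emod_eq_of_lt h0 h1
  unfold dd
  rw [h2]

private theorem dd_key {M : ℤ} (hM : 0 < M) (a i : ℤ) (h0 : 0 ≤ i) (h1 : i ≤ M) :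
    (|dd M a - i| = dd M (a - i) ∧ min (dd M a + i) (2 * M - dd M a - i) = dd M (a + i)) ∨
    (|dd M a - i| = dd M (a + i) ∧ min (dd M a + i) (2 * M - dd M a - i) = dd M (a - i)) := by
  have hr0 : 0 ≤ a % (2 * M) := Int.emod_nonneg _ (by omega)
  have hr1 : a % (2 * M) < 2 * M := Int.emod_lt_of_pos _ (by omega)
  have ha : a = 2 * M * (a / (2 * M)) + a % (2 * M) := (Int.mul_ediv_add_emod a (2 * M)).symm
  generalize a / (2 * M) = q at ha
  generalize a % (2 * M) = r at ha hr0 hr1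
  rw [dd_eq a q r ha hr0 hr1]
  have hab : ∀ z : ℤ, |z| = z ∧ 0 ≤ z ∨ |z| = -z ∧ z ≤ 0 := fun z => by
    rcases le_total 0 z with h | h
    · exact Or.inl ⟨abs_of_nonneg h, h⟩
    · exact Or.inr ⟨abs_of_nonpos h, h⟩
  have hz := hab (min r (2 * M - r) - i)
  generalize |min r (2 * M - r) - i| = z at hz
  by_cases h2 : i ≤ r
  · rw [dd_eq (a - i) q (r - i) (by rw [ha]; ring) (by omega) (by omega)]
    by_cases h3 : r + i < 2 * M
    · rw [dd_eq (a + i) q (r + i) (by rw [ha]; ring) (by omega) (by omega)]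
      omega
    · rw [dd_eq (a + i) (q + 1) (r + i - 2 * M) (by rw [ha]; ring) (by omega) (by omega)]
      omega
  · rw [dd_eq (a - i) (q - 1) (r - i + 2 * M) (by rw [ha]; ring) (by omega) (by omega)]
    by_cases h3 : r + i < 2 * M
    · rw [dd_eq (a + i) q (r + i) (by rw [ha]; ring) (by omega) (by omega)]
      omega
    · rw [dd_eq (a + i) (q + 1) (r + i - 2 * M) (by rw [ha]; ring) (by omega) (by omega)]
      omega

theorem tCml (h1 : S_Pts) (h2 : S_Int) (h3 : S_Cmp) : S_Cml := by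
  intro F _ v hv W M hΔ hMu
  obtain ⟨p1, p2', -, -, p5, -⟩ := h1 F W hΔ
  have hM := hMu.pos
  have c0 : Cc v M (0 : W.toAffine.Point) = 0 := if_pos rfl
  have c1 : ∀ P : W.toAffine.Point, 0 ≤ Cc v M P ∧ Cc v M P ≤ M := by
    intro P
    unfold Cc
    split_ifs <;> omega
  have c2 : ∀ P : W.toAffine.Point, Cc v M (-P) = Cc v M P := by
    intro P
    rcases p1 P with rfl | ⟨x, y, hP⟩
    · rw [neg_zero]
    · have e1 := p2' _ _ _ hP
      have e2 := p2' _ _ _ (p5 _ _ _ hP)
      unfold Cc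
      rw [if_neg e1.1, if_neg e2.1, e1.2.1, e2.2.1]
  have c3 : ∀ P Q : W.toAffine.Point, Cc v M P = 0 → Cc v M Q = 0 → Cc v M (P + Q) = 0 := by
    intro P Q hP hQ
    have h4 := h3 F v hv W M hΔ hMu P Q
    rw [hP, hQ] at h4
    rcases h4 with ⟨h4, -⟩ | ⟨-, h4⟩
    · rw [h4]; simp
    · rw [h4]; omega
  have c4 : ∀ (n : ℕ) (P : W.toAffine.Point), Cc v M (n • P) = dd M (n * Cc v M P) := by
    intro n P
    obtain ⟨i0, i1⟩ := c1 P
    have key : ∀ n : ℕ, Cc v M (n • P) = dd M (n * Cc v M P) ∧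
        Cc v M ((n + 1) • P) = dd M ((n + 1 : ℕ) * Cc v M P) := by
      intro n
      induction n with
      | zero =>
        refine ⟨?_, ?_⟩
        · rw [zero_smul, c0, dd_eq _ 0 0 (by push_cast; ring) le_rfl (by omega)]
          omega
        · rw [zero_add, one_smul, dd_eq _ 0 (Cc v M P) (by push_cast; ring) i0 (by omega)]
          omega
      | succ n ih =>
        refine ⟨ih.2, ?_⟩
        have h4 := h3 F v hv W M hΔ hMu ((n + 1) • P) P
        have h5 := dd_key hM ((n + 1 : ℕ) * Cc v M P) (Cc v M P) i0 i1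
        have e1 : (n + 1) • P - P = n • P := by rw [succ_nsmul]; abel
        have e2 : (n + 1) • P + P = (n + 1 + 1) • P := by rw [succ_nsmul _ (n + 1)]
        have e3 : ((n + 1 : ℕ) : ℤ) * Cc v M P - Cc v M P = (n : ℤ) * Cc v M P := by
          push_cast; ring
        have e4 : ((n + 1 : ℕ) : ℤ) * Cc v M P + Cc v M P = ((n + 1 + 1 : ℕ) : ℤ) * Cc v M P := by
          push_cast; ring
        rw [e1, e2, ih.1, ih.2] at h4
        rw [e3, e4] at h5
        rcases h4 with ⟨h4, h6⟩ | ⟨h4, h6⟩ <;> rcases h5 with ⟨h5, h7⟩ | ⟨h5, h7⟩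
        · rw [h4, h5, h6, h7]
        · rw [h4, h5]
        · rw [h6, h7]
        · rw [h6, h7, h4, h5]
    exact (key n).1
  refine ⟨c1, c2, c3, c4, fun l hl P hP => ⟨?_, ?_⟩⟩
  · obtain ⟨i0, i1⟩ := c1 P
    by_cases hi : Cc v M P = 0
    · exact Or.inl hi
    refine Or.inr ?_
    have h4 := c4 l P
    rw [hP, c0] at h4
    have hr0 : 0 ≤ ((l : ℤ) * Cc v M P) % (2 * M) := Int.emod_nonneg _ (by omega)
    have hr1 : ((l : ℤ) * Cc v M P) % (2 * M) < 2 * M := Int.emod_lt_of_pos _ (by omega)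
    have h5 : ((l : ℤ) * Cc v M P) % (2 * M) = 0 := by
      unfold dd at h4
      omega
    obtain ⟨a, ha⟩ := Int.dvd_of_emod_eq_zero h5
    have hl0 : 0 < (l : ℤ) := by exact_mod_cast hl.pos
    have ha1 : 1 ≤ a := by
      by_contra hcon
      have : 0 < (l : ℤ) * Cc v M P := mul_pos hl0 (by omega)
      rw [ha] at this
      have h6 : 2 * M * a ≤ 0 := by nlinarith
      omega
    have ha2 : 2 * a ≤ l := by
      by_contra hcon
      have h6 : (l : ℤ) * Cc v M P ≤ l * M := mul_le_mul_of_nonneg_left i1 hl0.le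
      have h7 : (l : ℤ) * M < 2 * a * M := mul_lt_mul_of_pos_right (by omega) hM
      nlinarith
    have ha3 : 2 * a < l := by
      refine lt_of_le_of_ne ha2 fun h => ?_
      obtain ⟨k, hk⟩ := hl
      omega
    have hiM : Cc v M P < M := by
      by_contra hcon
      have h6 : Cc v M P = M := le_antisymm i1 (not_lt.1 hcon)
      rw [h6] at ha
      have h7 : (2 * a) * M < l * M := mul_lt_mul_of_pos_right ha3 hM
      nlinarith
    rcases p1 P with rfl | ⟨x, y, hxy⟩
    · exact absurd c0 hi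
    · have e1 := p2' _ _ _ hxy
      have hx : x ≠ 0 := by
        rintro rfl
        have : Cc v M P = M := by
          unfold Cc
          rw [if_neg e1.1, if_pos e1.2.1]
        omega
      have h6 : Cc v M P = min (max (2 * v x) 0) M := by
        unfold Cc
        rw [if_neg e1.1, if_neg (by rw [e1.2.1]; exact hx), e1.2.1]
      have h7 : Cc v M P = 2 * v x := by omega
      refine ⟨x, y, a.toNat, hxy, hx, by omega, by omega, h7, ?_⟩
      rw [h7] at ha
      rw [Int.toNat_of_nonneg (by omega)]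
      linarith
  · intro hl' hi x y hxy
    have e1 := p2' _ _ _ hxy
    have hIt : It v W := ⟨hMu.a1, hMu.a2, hMu.a3.mono hM.le, hMu.a4.mono hM.le,
      hMu.a6.ge.mono hM.le⟩
    have hx : x ≠ 0 := by
      rintro rfl
      have : Cc v M P = M := by
        unfold Cc
        rw [if_neg e1.1, if_pos e1.2.1]
      omega
    have h6 : Cc v M P = min (max (2 * v x) 0) M := by
      unfold Cc
      rw [if_neg e1.1, if_neg (by rw [e1.2.1]; exact hx), e1.2.1]
    have h7 := (h2 F v hv W hΔ hIt l hl' P x y hP hxy).1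
    rw [Ge.of_ne hx] at h7
    exact ⟨hx, by omega⟩

end MP7Sh
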