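import Pool.Agent.Lib.MP_7f581e_Sh.SpecL

/-! The component formula. -/

set_option autoImplicit false

namespace MP7Sh

open Polynomial WeierstrassCurve

open scoped Classical

section val

variable {F : Type} [Field F] {v : F → ℤ}

/-- Primitive pairs. -/
private structure Cmp_Pr (v : F → ℤ) (r t : F) : Prop where
  gr : Ge v 0 r
  gt : Ge v 0 t
  un : Is v 0 r ∨ Is v 0 t

/-- The component in terms of the first coordinate of a primitive pair. -/
private noncomputable def Cmp_mm (v : F → ℤ) (M : ℤ) (r : F) : ℤ := if r = 0 then M else min (2 * v r) M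

private theorem Cmp_mm_is {M n : ℤ} {r : F} (h : Is v n r) : Cmp_mm v M r = min (2 * n) M := by
  unfold Cmp_mm
  rw [if_neg h.1, h.2]

private theorem Cmp_mm_big {M : ℤ} {r : F} (h : r = 0 ∨ M ≤ 2 * v r) : Cmp_mm v M r = M := by
  unfold Cmp_mm
  split_ifs with h0
  · rfl
  · rcases h with h | h
    · exact absurd h h0
    · exact min_eq_right h

private theorem Cmp_nonunit {r : F} (h : Ge v 0 r) (h' : ¬ Is v 0 r) : Ge v 1 r := by
  rcases h with h | h
  · exact Or.inl h
  · by_cases h0 : r = 0
    · exact Or.inl h0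
    · right
      have : v r ≠ 0 := fun h1 => h' ⟨h0, h1⟩
      omega

/-- Gauss. -/
private theorem Cmp_gauss (h : Ord v) {r t r' t' : F} (p : Cmp_Pr v r t) (p' : Cmp_Pr v r' t')
    (h1 : Ge v 1 (r * r')) (h2 : Ge v 1 (r * t' + t * r')) (h3 : Ge v 1 (t * t')) : False := by
  by_cases hr : Is v 0 r
  · by_cases hr' : Is v 0 r'
    · exact (hr.mul h hr').not_ge (by omega) h1
    · have ht' := p'.un.resolve_left hr'
      have h4 : Is v 0 (r * t') := hr.mul h ht'
      have h5 : Ge v 1 (t * r') := p.gt.mul_left h (Cmp_nonunit p'.gr hr')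
      exact (h4.add_ge h h5 zero_lt_one).not_ge zero_lt_one h2
  · have ht := p.un.resolve_left hr
    by_cases ht' : Is v 0 t'
    · exact (ht.mul h ht').not_ge (by omega) h3
    · have hr' := p'.un.resolve_right ht'
      have h4 : Is v 0 (t * r') := ht.mul h hr'
      have h5 : Ge v 1 (r * t') := (Cmp_nonunit p.gr hr).mul_right h p'.gt
      exact (Is.ge_add h h5 h4 zero_lt_one).not_ge zero_lt_one h2

private theorem Cmp_c (h : Ord v) {r t r' t' c N₁ N₂ D : F} (p : Cmp_Pr v r t)
    (p' : Cmp_Pr v r' t') (hc : c ≠ 0) (e1 : r * r' = c * N₁) (e2 : r * t' + t * r' = c * N₂)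
    (e3 : t * t' = c * D) {μ : ℤ} (g1 : Ge v μ N₁) (g2 : Ge v μ N₂) (g3 : Ge v μ D)
    (hi : Is v μ N₁ ∨ Is v μ N₂ ∨ Is v μ D) : Is v (-μ) c := by
  have hk : Is v (v c) c := Is.of_ne hc
  have h1 : Ge v 0 (r * r') := p.gr.mul_left h p'.gr
  have h2 : Ge v 0 (r * t' + t * r') := (p.gr.mul_left h p'.gt).add h (p.gt.mul_left h p'.gr)
  have h3 : Ge v 0 (t * t') := p.gt.mul_left h p'.gt
  have hge : ¬ (v c + μ < 0) := by
    intro hlt
    rcases hi with hi | hi | hi
    · rw [e1] at h1
      exact (hk.mul h hi).not_ge hlt h1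
    · rw [e2] at h2
      exact (hk.mul h hi).not_ge hlt h2
    · rw [e3] at h3
      exact (hk.mul h hi).not_ge hlt h3
  have hle : ¬ (1 ≤ v c + μ) := by
    intro hle
    refine Cmp_gauss h p p' ?_ ?_ ?_
    · rw [e1]
      exact (hk.ge.mul h g1).mono hle
    · rw [e2]
      exact (hk.ge.mul h g2).mono hle
    · rw [e3]
      exact (hk.ge.mul h g3).mono hle
  exact ⟨hc, by omega⟩

/-- Both valuations are equal. -/
private theorem Cmp_eq (h : Ord v) {r t r' t' : F} {α : ℤ} (ht : Is v 0 t) (ht' : Is v 0 t')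
    (hA : Is v α (r * r')) (hS : r * t' + t * r' = 0 ∨ α ≤ 2 * v (r * t' + t * r')) :
    (r ≠ 0 ∧ 2 * v r = α) ∧ (r' ≠ 0 ∧ 2 * v r' = α) := by
  have hr : r ≠ 0 := left_ne_zero_of_mul hA.1
  have hr' : r' ≠ 0 := right_ne_zero_of_mul hA.1
  have h1 := hA.2
  rw [h.mul r r' hr hr'] at h1
  have h2 : Is v (v r) (r * t') := by
    have := (Is.of_ne hr (v := v)).mul h ht'
    rwa [add_zero] at this
  have h3 : Is v (v r') (t * r') := by
    have := ht.mul h (Is.of_ne hr' (v := v))
    rwa [zero_add] at this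
  have h4 : ¬ v r < v r' := by
    intro hlt
    have h5 := h2.add_ge h h3.ge hlt
    rcases hS with hS | hS
    · exact h5.1 hS
    · rw [h5.2] at hS
      omega
  have h5 : ¬ v r' < v r := by
    intro hlt
    have h5 := Is.ge_add h h2.ge h3 hlt
    rcases hS with hS | hS
    · exact h5.1 hS
    · rw [h5.2] at hS
      omega
  exact ⟨⟨hr, by omega⟩, hr', by omega⟩

/-- Both valuations are large. -/
private theorem Cmp_lg (h : Ord v) {r t r' t' : F} {M : ℤ} (ht : Is v 0 t) (ht' : Is v 0 t')
    (hA : Ge v M (r * r')) (hS : r * t' + t * r' = 0 ∨ M ≤ 2 * v (r * t' + t * r')) :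
    (r = 0 ∨ M ≤ 2 * v r) ∧ (r' = 0 ∨ M ≤ 2 * v r') := by
  constructor
  · by_contra hcon
    push Not at hcon
    obtain ⟨hr, hlt⟩ := hcon
    have h2 : Is v (v r) (r * t') := by
      have := (Is.of_ne hr (v := v)).mul h ht'
      rwa [add_zero] at this
    have h3 : Ge v (v r + 1) (t * r') := by
      by_cases hr' : r' = 0
      · left
        rw [hr', mul_zero]
      · have h4 := hA.resolve_left (mul_ne_zero hr hr')
        rw [h.mul r r' hr hr'] at h4
        refine Ge.mul_left h ht.ge (Or.inr ?_)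
        omega
    have h5 := h2.add_ge h h3 (by omega)
    rcases hS with hS | hS
    · exact h5.1 hS
    · rw [h5.2] at hS
      omega
  · by_contra hcon
    push Not at hcon
    obtain ⟨hr', hlt⟩ := hcon
    have h2 : Is v (v r') (t * r') := by
      have := ht.mul h (Is.of_ne hr' (v := v))
      rwa [zero_add] at this
    have h3 : Ge v (v r' + 1) (r * t') := by
      by_cases hr : r = 0
      · left
        rw [hr, zero_mul]
      · have h4 := hA.resolve_left (mul_ne_zero hr hr')
        rw [h.mul r r' hr hr'] at h4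
        refine Ge.mul_right h (Or.inr ?_) ht'.ge
        omega
    have h5 := Is.ge_add h h3 h2 (by omega)
    rcases hS with hS | hS
    · exact h5.1 hS
    · rw [h5.2] at hS
      omega

/-- Different valuations. -/
private theorem Cmp_ne (h : Ord v) {r t r' t' : F} {σ α : ℤ} (ht : Is v 0 t) (ht' : Is v 0 t')
    (hA : Ge v α (r * r')) (hS : Is v σ (r * t' + t * r')) (hσ : 2 * σ < α) :
    (Is v σ r ∧ Ge v (α - σ) r') ∨ (Is v σ r' ∧ Ge v (α - σ) r) := by
  have key : ∀ n : ℤ, Ge v n r → Ge v n r' → n ≤ σ := by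
    intro n h1 h2
    by_contra hlt
    exact hS.not_ge (not_le.1 hlt) ((h1.mul_right h ht'.ge).add h (ht.ge.mul_left h h2))
  by_cases hr : r = 0
  · right
    have hr' : r' ≠ 0 := by
      intro hr'
      exact hS.1 (by rw [hr, hr']; ring)
    have h1 : v r' = σ := by
      have h2 : r * t' + t * r' = t * r' := by rw [hr]; ring
      rw [h2] at hS
      have h3 := (ht.mul h (Is.of_ne hr' (v := v))).2
      rw [hS.2] at h3
      omega
    exact ⟨⟨hr', h1⟩, Or.inl hr⟩
  by_cases hr' : r' = 0
  · left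
    have h1 : v r = σ := by
      have h2 : r * t' + t * r' = r * t' := by rw [hr']; ring
      rw [h2] at hS
      have h3 := ((Is.of_ne hr (v := v)).mul h ht').2
      rw [hS.2] at h3
      omega
    exact ⟨⟨hr, h1⟩, Or.inl hr'⟩
  have h1 := hA.resolve_left (mul_ne_zero hr hr')
  rw [h.mul r r' hr hr'] at h1
  have h2 : Is v (v r) (r * t') := by
    have := (Is.of_ne hr (v := v)).mul h ht'
    rwa [add_zero] at this
  have h3 : Is v (v r') (t * r') := by
    have := ht.mul h (Is.of_ne hr' (v := v))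
    rwa [zero_add] at this
  rcases lt_trichotomy (v r) (v r') with hlt | heq | hlt
  · have h5 := (h2.add_ge h h3.ge hlt).2
    rw [hS.2] at h5
    exact Or.inl ⟨⟨hr, h5.symm⟩, Or.inr (by omega)⟩
  · have h5 := key (v r) (Or.inr le_rfl) (Or.inr heq.le)
    omega
  · have h5 := (Is.ge_add h h2.ge h3 hlt).2
    rw [hS.2] at h5
    exact Or.inr ⟨⟨hr', h5.symm⟩, Or.inr (by omega)⟩

/-- One unit. -/
private theorem Cmp_one (h : Ord v) {r t r' t' : F} {α : ℤ} (p : Cmp_Pr v r t) (p' : Cmp_Pr v r' t')
    (hA : Ge v α (r * r')) (hS : Is v 0 (r * t' + t * r')) :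
    (Is v 0 r ∧ Ge v α r') ∨ (Is v 0 r' ∧ Ge v α r) := by
  by_cases hr : Is v 0 r
  · left
    refine ⟨hr, ?_⟩
    rcases hA with hA | hA
    · left
      exact (mul_eq_zero.1 hA).resolve_left hr.1
    · by_cases hr' : r' = 0
      · exact Or.inl hr'
      · right
        rw [h.mul r r' hr.1 hr', hr.2] at hA
        omega
  · have hr1 := Cmp_nonunit p.gr hr
    by_cases hr' : Is v 0 r'
    · right
      refine ⟨hr', ?_⟩
      rcases hA with hA | hA
      · left
        exact (mul_eq_zero.1 hA).resolve_right hr'.1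
      · by_cases hr0 : r = 0
        · exact Or.inl hr0
        · right
          rw [h.mul r r' hr0 hr'.1, hr'.2] at hA
          omega
    · have hr1' := Cmp_nonunit p'.gr hr'
      exact absurd ((hr1.mul_right h p'.gt).add h (p.gt.mul_left h hr1')) (hS.not_ge zero_lt_one)

/-- The valuation lemma. -/
private theorem Cmp_core (h : Ord v) {W : WeierstrassCurve F} {M : ℤ} (hM : Mu v M W)
    {u w u' w' r t r' t' c : F} (p : Cmp_Pr v r t) (p' : Cmp_Pr v r' t') (q : Cmp_Pr v u w)
    (q' : Cmp_Pr v u' w') (hc : c ≠ 0)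
    (e1 : r * r' = c * ((u * u') ^ 2 - W.b₄ * (u * u') * (w * w') -
      W.b₆ * (u * w' + w * u') * (w * w') - W.b₈ * (w * w') ^ 2))
    (e2 : r * t' + t * r' = c * (2 * (u * w' + w * u') * (u * u') + W.b₂ * (u * u') * (w * w') +
      W.b₄ * (u * w' + w * u') * (w * w') + W.b₆ * (w * w') ^ 2))
    (e3 : t * t' = c * ((u * w' + w * u') ^ 2 - 4 * (u * u') * (w * w')))
    (hij : Cmp_mm v M u ≤ Cmp_mm v M u') :
    (Cmp_mm v M r = |Cmp_mm v M u - Cmp_mm v M u'| ∧
      Cmp_mm v M r' = min (Cmp_mm v M u + Cmp_mm v M u')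
        (2 * M - Cmp_mm v M u - Cmp_mm v M u')) ∨
    (Cmp_mm v M r' = |Cmp_mm v M u - Cmp_mm v M u'| ∧
      Cmp_mm v M r = min (Cmp_mm v M u + Cmp_mm v M u')
        (2 * M - Cmp_mm v M u - Cmp_mm v M u')) := by
  have hM0 := hM.pos
  have h2 : Ge v 0 (2 : F) := Ge.ofNat h 2
  have h4 : Ge v 0 (4 : F) := Ge.ofNat h 4
  have hb2 : Is v 0 W.b₂ := hM.b2
  have hb4 : Ge v M W.b₄ := by
    unfold WeierstrassCurve.b₄
    exact (h2.mul_left h hM.a4).add h (hM.a1.mul_left h hM.a3)
  have hb6 : Ge v M W.b₆ := by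
    unfold WeierstrassCurve.b₆
    exact ((hM.a3.pow h 2).mono (by push_cast; omega)).add h (h4.mul_left h hM.a6.ge)
  have hb8 : Is v M W.b₈ := by
    have e : W.b₈ = W.b₂ * W.a₆ + (-(W.a₁ * W.a₃ * W.a₄) + W.a₂ * W.a₃ ^ 2 - W.a₄ ^ 2) := by
      unfold WeierstrassCurve.b₈ WeierstrassCurve.b₂
      ring
    rw [e]
    have g1 : Is v M (W.b₂ * W.a₆) := by
      have := hb2.mul h hM.a6
      rwa [zero_add] at this
    refine g1.add_ge h (m := 2 * M) ?_ (by omega)
    have k1 : Ge v (2 * M) (W.a₁ * W.a₃ * W.a₄) :=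
      ((hM.a1.mul_left h hM.a3).mul h hM.a4).mono (by omega)
    have k2 : Ge v (2 * M) (W.a₂ * W.a₃ ^ 2) :=
      hM.a2.mul_left h ((hM.a3.pow h 2).mono (by push_cast; omega))
    have k3 : Ge v (2 * M) (W.a₄ ^ 2) := (hM.a4.pow h 2).mono (by push_cast; omega)
    exact ((k1.neg h).add h k2).sub h k3
  -- abbreviations
  obtain ⟨s, hs⟩ : ∃ s, s = u * u' := ⟨_, rfl⟩
  obtain ⟨ω, hω⟩ : ∃ ω, ω = w * w' := ⟨_, rfl⟩
  obtain ⟨m, hm⟩ : ∃ m, m = u * w' + w * u' := ⟨_, rfl⟩
  rw [← hs, ← hω, ← hm] at e1 e2 e3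
  have gs : Ge v 0 s := by rw [hs]; exact q.gr.mul_left h q'.gr
  have gω : Ge v 0 ω := by rw [hω]; exact q.gt.mul_left h q'.gt
  have gm : Ge v 0 m := by
    rw [hm]
    exact (q.gr.mul_left h q'.gt).add h (q.gt.mul_left h q'.gr)
  have eD : m ^ 2 - 4 * s * ω = (u * w' - w * u') ^ 2 := by rw [hm, hs, hω]; ring
  -- the remainder terms
  have gE : Ge v M (-(W.b₄ * s * ω) - W.b₆ * m * ω - W.b₈ * ω ^ 2) :=
    ((((hb4.mul_right h gs).mul_right h gω).neg h).sub h ((hb6.mul_right h gm).mul_right h gω)).sub h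
      (hb8.ge.mul_right h (gω.pow0 h 2))
  have gE' : Ge v M (W.b₄ * m * ω + W.b₆ * ω ^ 2) :=
    ((hb4.mul_right h gm).mul_right h gω).add h (hb6.mul_right h (gω.pow0 h 2))
  have eN₁ : s ^ 2 - W.b₄ * s * ω - W.b₆ * m * ω - W.b₈ * ω ^ 2 =
      s ^ 2 + (-(W.b₄ * s * ω) - W.b₆ * m * ω - W.b₈ * ω ^ 2) := by ring
  have eN₂ : 2 * m * s + W.b₂ * s * ω + W.b₄ * m * ω + W.b₆ * ω ^ 2 =
      s * (2 * m + W.b₂ * ω) + (W.b₄ * m * ω + W.b₆ * ω ^ 2) := by ring
  rw [eN₁] at e1
  rw [eN₂] at e2
  rw [eD] at e3
  have gk : Ge v 0 (2 * m + W.b₂ * ω) := (h2.mul_left h gm).add h (hb2.ge.mul_left h gω)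
  by_cases hu : Is v 0 u
  · have mu : Cmp_mm v M u = 0 := by rw [Cmp_mm_is hu]; omega
    by_cases hu' : Is v 0 u'
    · -- both zero
      have mu' : Cmp_mm v M u' = 0 := by rw [Cmp_mm_is hu']; omega
      have hs0 : Is v 0 (s ^ 2) := by
        rw [hs]
        have := (hu.mul h hu').pow h 2
        rwa [add_zero, mul_zero] at this
      have hN1 := hs0.add_ge h gE hM0
      have hk := Cmp_c h p p' hc e1 e2 e3 (μ := 0) hN1.ge
        (gs.mul_left h gk |>.add h (gE'.mono hM0.le))
        (Ge.pow0 h ((q.gr.mul_left h q'.gt).sub h (q.gt.mul_left h q'.gr)) 2) (Or.inl hN1)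
      have hA := hk.mul h hN1
      rw [← e1, neg_zero, add_zero] at hA
      have hr0 : r ≠ 0 := left_ne_zero_of_mul hA.1
      have hr0' : r' ≠ 0 := right_ne_zero_of_mul hA.1
      have h5 := hA.2
      rw [h.mul r r' hr0 hr0'] at h5
      have h6 := p.gr.resolve_left hr0
      have h7 := p'.gr.resolve_left hr0'
      have m1 : Cmp_mm v M r = 0 := by
        rw [Cmp_mm_is ⟨hr0, (by omega : v r = 0)⟩]; omega
      have m2 : Cmp_mm v M r' = 0 := by
        rw [Cmp_mm_is ⟨hr0', (by omega : v r' = 0)⟩]; omega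
      left
      rw [m1, m2, mu, mu']
      refine ⟨by simp, ?_⟩
      rw [min_eq_left] <;> omega
    · -- the first is zero
      have hw' := q'.un.resolve_left hu'
      have gu' := Cmp_nonunit q'.gr hu'
      have hD : Is v 0 ((u * w' - w * u') ^ 2) := by
        have h5 : Is v 0 (u * w') := by
          have := hu.mul h hw'
          rwa [add_zero] at this
        have := (h5.sub_ge h (q.gt.mul_left h gu') zero_lt_one).pow h 2
        rwa [mul_zero] at this
      have hk := Cmp_c h p p' hc e1 e2 e3 (μ := 0)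
        ((gs.pow0 h 2).add h (gE.mono hM0.le))
        (gs.mul_left h gk |>.add h (gE'.mono hM0.le)) hD.ge (Or.inr (Or.inr hD))
      rw [neg_zero] at hk
      have hT := hk.mul h hD
      rw [← e3, add_zero] at hT
      have ht0 : t ≠ 0 := left_ne_zero_of_mul hT.1
      have ht0' : t' ≠ 0 := right_ne_zero_of_mul hT.1
      have h5 := hT.2
      rw [h.mul t t' ht0 ht0'] at h5
      have h6 := p.gt.resolve_left ht0
      have h7 := p'.gt.resolve_left ht0'
      have ht : Is v 0 t := ⟨ht0, by omega⟩
      have ht' : Is v 0 t' := ⟨ht0', by omega⟩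
      by_cases hj : u' = 0 ∨ M ≤ 2 * v u'
      · have mu' : Cmp_mm v M u' = M := Cmp_mm_big hj
        have gs2 : Ge v M (s ^ 2) := by
          rcases hj with hj | hj
          · left
            rw [hs, hj]
            ring
          · have h8 : Ge v (v u') s := by
              rw [hs]
              exact q.gr.mul_left h (Or.inr le_rfl)
            exact (h8.pow h 2).mono (by push_cast; omega)
        have hA : Ge v M (r * r') := by
          rw [e1]
          exact hk.ge.mul_left h (gs2.add h gE)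
        have hS : r * t' + t * r' = 0 ∨ M ≤ 2 * v (r * t' + t * r') := by
          rcases hj with hj | hj
          · have h8 : Ge v M (r * t' + t * r') := by
              rw [e2]
              refine hk.ge.mul_left h (Ge.add h (Or.inl ?_) gE')
              rw [hs, hj]
              ring
            rcases h8 with h8 | h8
            · exact Or.inl h8
            · right
              omega
          · have h8 : Ge v (v u') s := by
              rw [hs]
              exact q.gr.mul_left h (Or.inr le_rfl)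
            have h9 : Ge v (min (v u') M) (r * t' + t * r') := by
              rw [e2]
              exact hk.ge.mul_left h (((h8.mul_right h gk).mono (min_le_left _ _)).add h
                (gE'.mono (min_le_right _ _)))
            rcases h9 with h9 | h9
            · exact Or.inl h9
            · right
              omega
        obtain ⟨m1, m2⟩ := Cmp_lg h ht ht' hA hS
        left
        rw [Cmp_mm_big m1, Cmp_mm_big m2, mu, mu']
        constructor
        · rw [zero_sub, abs_neg, abs_of_pos hM0]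
        · rw [min_eq_left] <;> omega
      · push Not at hj
        obtain ⟨hu0, hj⟩ := hj
        have mu' : Cmp_mm v M u' = 2 * v u' := by
          rw [Cmp_mm_is (Is.of_ne hu0)]
          exact min_eq_left hj.le
        have hs1 : Is v (v u') s := by
          have := hu.mul h (Is.of_ne hu0 (v := v))
          rw [zero_add] at this
          rwa [hs]
        have hN1 : Is v (2 * v u') (s ^ 2 + (-(W.b₄ * s * ω) - W.b₆ * m * ω - W.b₈ * ω ^ 2)) := by
          have := (hs1.pow h 2).add_ge h gE (by push_cast; omega)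
          push_cast at this
          exact this
        have hA : Is v (2 * v u') (r * r') := by
          rw [e1]
          have := hk.mul h hN1
          rwa [zero_add] at this
        have hS : Ge v (v u') (r * t' + t * r') := by
          rw [e2]
          have hpos := gu'.resolve_left hu0
          exact hk.ge.mul_left h ((hs1.ge.mul_right h gk).add h (gE'.mono (by omega)))
        obtain ⟨⟨m1, m1'⟩, m2, m2'⟩ := Cmp_eq h ht ht' hA (by
          rcases hS with hS | hS
          · exact Or.inl hS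
          · right
            omega)
        have n1 : Cmp_mm v M r = 2 * v u' := by
          rw [Cmp_mm_is (Is.of_ne m1), m1']
          exact min_eq_left hj.le
        have n2 : Cmp_mm v M r' = 2 * v u' := by
          rw [Cmp_mm_is (Is.of_ne m2), m2']
          exact min_eq_left hj.le
        have hpos := gu'.resolve_left hu0
        left
        rw [n1, n2, mu, mu']
        constructor
        · rw [zero_sub, abs_neg, abs_of_pos (by omega)]
        · rw [min_eq_left] <;> omega
  · -- the first is not zero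
    have hw := q.un.resolve_left hu
    have gu := Cmp_nonunit q.gr hu
    have hu' : ¬ Is v 0 u' := by
      intro hu'
      have mu' : Cmp_mm v M u' = 0 := by rw [Cmp_mm_is hu']; omega
      rw [mu'] at hij
      unfold Cmp_mm at hij
      split_ifs at hij with h0
      · omega
      · have := gu.resolve_left h0
        omega
    have hw' := q'.un.resolve_left hu'
    have gu' := Cmp_nonunit q'.gr hu'
    have hω0 : Is v 0 ω := by
      rw [hω]
      have := hw.mul h hw'
      rwa [add_zero] at this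
    have gm1 : Ge v 1 m := by
      rw [hm]
      exact (gu.mul_right h q'.gt).add h (q.gt.mul_left h gu')
    have gs1 : Ge v 1 s := by
      rw [hs]
      exact gu.mul_right h q'.gr
    have hk0 : Is v 0 (2 * m + W.b₂ * ω) := by
      have h5 : Is v 0 (W.b₂ * ω) := by
        have := hb2.mul h hω0
        rwa [add_zero] at this
      exact Is.ge_add h (h2.mul_left h gm1) h5 zero_lt_one
    have hE : Is v M (-(W.b₄ * s * ω) - W.b₆ * m * ω - W.b₈ * ω ^ 2) := by
      have h5 : Is v M (W.b₈ * ω ^ 2) := by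
        have := hb8.mul h (hω0.pow h 2)
        rwa [mul_zero, add_zero] at this
      have h6 : Ge v (M + 1) (-(W.b₄ * s * ω) - W.b₆ * m * ω) :=
        (((hb4.mul h gs1).mul_right h gω).neg h).sub h ((hb6.mul h gm1).mul_right h gω)
      have h7 := Is.ge_add h h6 (h5.neg h) (by omega)
      have e : -(W.b₄ * s * ω) - W.b₆ * m * ω - W.b₈ * ω ^ 2 =
          -(W.b₄ * s * ω) - W.b₆ * m * ω + -(W.b₈ * ω ^ 2) := by ring
      rw [e]
      exact h7
    have gδ0 : ∀ n : ℤ, Ge v n u → Ge v n u' → Ge v n (u * w' - w * u') := fun n g1 g2 =>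
      (g1.mul_right h q'.gt).sub h (q.gt.mul_left h g2)
    by_cases hi : u = 0 ∨ M ≤ 2 * v u
    · -- both are `M`
      have mu : Cmp_mm v M u = M := Cmp_mm_big hi
      have hj : u' = 0 ∨ M ≤ 2 * v u' := by
        by_contra hcon
        push Not at hcon
        obtain ⟨h0, hlt⟩ := hcon
        have mu' : Cmp_mm v M u' = 2 * v u' := by
          rw [Cmp_mm_is (Is.of_ne h0)]
          exact min_eq_left hlt.le
        rw [mu, mu'] at hij
        omega
      have mu' : Cmp_mm v M u' = M := Cmp_mm_big hj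
      have g1 : Ge v ((M + 1) / 2) u := by
        rcases hi with hi | hi
        · exact Or.inl hi
        · right
          omega
      have g2 : Ge v ((M + 1) / 2) u' := by
        rcases hj with hj | hj
        · exact Or.inl hj
        · right
          omega
      have gs3 : Ge v M s := by
        rw [hs]
        exact (g1.mul h g2).mono (by omega)
      have hN1 : Is v M (s ^ 2 + (-(W.b₄ * s * ω) - W.b₆ * m * ω - W.b₈ * ω ^ 2)) :=
        Is.ge_add h ((gs3.pow h 2).mono (by push_cast; omega : M + 1 ≤ _)) hE (by omega)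
      have hk := Cmp_c h p p' hc e1 e2 e3 (μ := M) hN1.ge
        ((gs3.mul_right h gk).add h gE')
        (((gδ0 _ g1 g2).pow h 2).mono (by push_cast; omega)) (Or.inl hN1)
      have hA := hk.mul h hN1
      rw [← e1, neg_add_cancel] at hA
      have hr0 : r ≠ 0 := left_ne_zero_of_mul hA.1
      have hr0' : r' ≠ 0 := right_ne_zero_of_mul hA.1
      have h5 := hA.2
      rw [h.mul r r' hr0 hr0'] at h5
      have h6 := p.gr.resolve_left hr0
      have h7 := p'.gr.resolve_left hr0'
      have m1 : Cmp_mm v M r = 0 := by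
        rw [Cmp_mm_is ⟨hr0, (by omega : v r = 0)⟩]; omega
      have m2 : Cmp_mm v M r' = 0 := by
        rw [Cmp_mm_is ⟨hr0', (by omega : v r' = 0)⟩]; omega
      left
      rw [m1, m2, mu, mu']
      refine ⟨by simp, ?_⟩
      rw [min_eq_right] <;> omega
    push Not at hi
    obtain ⟨hu0, hi⟩ := hi
    have mu : Cmp_mm v M u = 2 * v u := by
      rw [Cmp_mm_is (Is.of_ne hu0)]
      exact min_eq_left hi.le
    have hh := gu.resolve_left hu0
    have huw : Is v (v u) (u * w') := by
      have := (Is.of_ne hu0 (v := v)).mul h hw'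
      rwa [add_zero] at this
    by_cases hj : u' = 0 ∨ M ≤ 2 * v u'
    · -- the second is `M`
      have mu' : Cmp_mm v M u' = M := Cmp_mm_big hj
      have g2 : Ge v ((M + 1) / 2) u' := by
        rcases hj with hj | hj
        · exact Or.inl hj
        · right
          omega
      have hD : Is v (2 * v u) ((u * w' - w * u') ^ 2) := by
        have := (huw.sub_ge h (q.gt.mul_left h g2) (by omega)).pow h 2
        push_cast at this
        exact this
      have gs3 : Ge v (v u + (M + 1) / 2) s := by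
        rw [hs]
        exact Ge.mul h (Or.inr le_rfl : Ge v (v u) u) g2
      have hN1 : Is v M (s ^ 2 + (-(W.b₄ * s * ω) - W.b₆ * m * ω - W.b₈ * ω ^ 2)) :=
        Is.ge_add h ((gs3.pow h 2).mono (by push_cast; omega : M + 1 ≤ _)) hE (by omega)
      have hN2 : Ge v (v u + (M + 1) / 2)
          (s * (2 * m + W.b₂ * ω) + (W.b₄ * m * ω + W.b₆ * ω ^ 2)) :=
        (gs3.mul_right h gk).add h (gE'.mono (by omega))
      have hk := Cmp_c h p p' hc e1 e2 e3 (μ := 2 * v u) (hN1.ge.mono hi.le)
        (hN2.mono (by omega)) hD.ge (Or.inr (Or.inr hD))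
      have hT := hk.mul h hD
      rw [← e3, neg_add_cancel] at hT
      have ht0 : t ≠ 0 := left_ne_zero_of_mul hT.1
      have ht0' : t' ≠ 0 := right_ne_zero_of_mul hT.1
      have h5 := hT.2
      rw [h.mul t t' ht0 ht0'] at h5
      have h6 := p.gt.resolve_left ht0
      have h7 := p'.gt.resolve_left ht0'
      have ht : Is v 0 t := ⟨ht0, by omega⟩
      have ht' : Is v 0 t' := ⟨ht0', by omega⟩
      have hA : Is v (M - 2 * v u) (r * r') := by
        rw [e1]
        have := hk.mul h hN1
        have e : -(2 * v u) + M = M - 2 * v u := by ring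
        rwa [e] at this
      have hS : Ge v ((M + 1) / 2 - v u) (r * t' + t * r') := by
        rw [e2]
        exact (hk.ge.mul h hN2).mono (by omega)
      obtain ⟨⟨m1, m1'⟩, m2, m2'⟩ := Cmp_eq h ht ht' hA (by
        rcases hS with hS | hS
        · exact Or.inl hS
        · right
          omega)
      have n1 : Cmp_mm v M r = M - 2 * v u := by
        rw [Cmp_mm_is (Is.of_ne m1), m1']
        exact min_eq_left (by omega)
      have n2 : Cmp_mm v M r' = M - 2 * v u := by
        rw [Cmp_mm_is (Is.of_ne m2), m2']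
        exact min_eq_left (by omega)
      left
      rw [n1, n2, mu, mu']
      constructor
      · rw [abs_of_neg (by omega)]
        ring
      · rw [min_eq_right] <;> omega
    -- both are smaller than `M`
    push Not at hj
    obtain ⟨hu0', hj⟩ := hj
    have mu' : Cmp_mm v M u' = 2 * v u' := by
      rw [Cmp_mm_is (Is.of_ne hu0')]
      exact min_eq_left hj.le
    have hle : v u ≤ v u' := by
      rw [mu, mu'] at hij
      omega
    have hs1 : Is v (v u + v u') s := by
      rw [hs]
      exact (Is.of_ne hu0).mul h (Is.of_ne hu0')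
    have hN2 : Is v (v u + v u')
        (s * (2 * m + W.b₂ * ω) + (W.b₄ * m * ω + W.b₆ * ω ^ 2)) := by
      have h5 := hs1.mul h hk0
      rw [add_zero] at h5
      exact h5.add_ge h gE' (by omega)
    have hN1g : Ge v (min (2 * v u + 2 * v u') M)
        (s ^ 2 + (-(W.b₄ * s * ω) - W.b₆ * m * ω - W.b₈ * ω ^ 2)) :=
      (((hs1.pow h 2).ge).mono (by push_cast; omega)).add h (hE.ge.mono (min_le_right _ _))
    have hN1i : 2 * v u + 2 * v u' ≠ M → Is v (min (2 * v u + 2 * v u') M)
        (s ^ 2 + (-(W.b₄ * s * ω) - W.b₆ * m * ω - W.b₈ * ω ^ 2)) := by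
      intro hne
      have h5 := hs1.pow h 2
      rcases lt_or_gt_of_ne hne with hlt | hlt
      · have h6 := h5.add_ge h hE.ge (by push_cast; omega)
        have e : ((2 : ℕ) : ℤ) * (v u + v u') = min (2 * v u + 2 * v u') M := by
          push_cast
          omega
        rwa [e] at h6
      · have h6 := Is.ge_add h h5.ge hE (by push_cast; omega)
        have e : M = min (2 * v u + 2 * v u') M := by omega
        rwa [← e]
    have hD : Ge v (2 * v u) ((u * w' - w * u') ^ 2) := by
      have := (gδ0 (v u) (Or.inr le_rfl) (Or.inr hle)).pow h 2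
      push_cast at this
      exact this
    have hμ : Is v (2 * v u) (s * (2 * m + W.b₂ * ω) + (W.b₄ * m * ω + W.b₆ * ω ^ 2)) ∨
        Is v (2 * v u) ((u * w' - w * u') ^ 2) := by
      rcases hle.lt_or_eq with hlt | heq
      · right
        have h5 : Ge v (v u') (w * u') := q.gt.mul_left h (Or.inr le_rfl)
        have := (huw.sub_ge h h5 hlt).pow h 2
        push_cast at this
        exact this
      · left
        have e : v u + v u' = 2 * v u := by omega
        rwa [e] at hN2
    have hk := Cmp_c h p p' hc e1 e2 e3 (μ := 2 * v u) (hN1g.mono (by omega))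
      (hN2.ge.mono (by omega)) hD (Or.inr hμ)
    have hAg : Ge v (min (2 * v u') (M - 2 * v u)) (r * r') := by
      rw [e1]
      exact (hk.ge.mul h hN1g).mono (by omega)
    have hAi : 2 * v u + 2 * v u' ≠ M → Is v (min (2 * v u') (M - 2 * v u)) (r * r') := by
      intro hne
      rw [e1]
      have h5 := hk.mul h (hN1i hne)
      have e : -(2 * v u) + min (2 * v u + 2 * v u') M = min (2 * v u') (M - 2 * v u) := by omega
      rwa [e] at h5
    have hS : Is v (v u' - v u) (r * t' + t * r') := by
      rw [e2]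
      have h5 := hk.mul h hN2
      have e : -(2 * v u) + (v u + v u') = v u' - v u := by ring
      rwa [e] at h5
    have key : (Is v (v u' - v u) r ∧ Ge v (min (2 * v u') (M - 2 * v u) - (v u' - v u)) r') ∨
        (Is v (v u' - v u) r' ∧ Ge v (min (2 * v u') (M - 2 * v u) - (v u' - v u)) r) := by
      rcases hle.lt_or_eq with hlt | heq
      · have hDi : Is v (2 * v u) ((u * w' - w * u') ^ 2) := by
          have h5 : Ge v (v u') (w * u') := q.gt.mul_left h (Or.inr le_rfl)
          have := (huw.sub_ge h h5 hlt).pow h 2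
          push_cast at this
          exact this
        have hT := hk.mul h hDi
        rw [← e3, neg_add_cancel] at hT
        have ht0 : t ≠ 0 := left_ne_zero_of_mul hT.1
        have ht0' : t' ≠ 0 := right_ne_zero_of_mul hT.1
        have h5 := hT.2
        rw [h.mul t t' ht0 ht0'] at h5
        have h6 := p.gt.resolve_left ht0
        have h7 := p'.gt.resolve_left ht0'
        exact Cmp_ne h ⟨ht0, by omega⟩ ⟨ht0', by omega⟩ hAg hS (by omega)
      · have e : v u' - v u = 0 := by omega
        rw [e] at hS ⊢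
        rw [sub_zero]
        exact Cmp_one h p p' hAg hS
    have fin : ∀ y z : F, Is v (v u' - v u) y →
        Ge v (min (2 * v u') (M - 2 * v u) - (v u' - v u)) z →
        (2 * v u + 2 * v u' ≠ M → Is v (min (2 * v u') (M - 2 * v u)) (y * z)) →
        Cmp_mm v M y = |2 * v u - 2 * v u'| ∧
        Cmp_mm v M z = min (2 * v u + 2 * v u') (2 * M - 2 * v u - 2 * v u') := by
      intro y z hy hz hyz
      constructor
      · rw [Cmp_mm_is hy, abs_of_nonpos (by omega)]
        omega
      · by_cases hne : 2 * v u + 2 * v u' = M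
        · rw [Cmp_mm_big]
          · omega
          · rcases hz with hz | hz
            · exact Or.inl hz
            · right
              omega
        · have h5 := hyz hne
          have hz0 : z ≠ 0 := right_ne_zero_of_mul h5.1
          have h6 := h5.2
          rw [h.mul y z hy.1 hz0, hy.2] at h6
          rw [Cmp_mm_is (Is.of_ne hz0)]
          omega
    rw [mu, mu']
    rcases key with ⟨k1, k2⟩ | ⟨k1, k2⟩
    · left
      exact fin r r' k1 k2 hAi
    · right
      exact fin r' r k1 k2 (fun hne => by rw [mul_comm r' r]; exact hAi hne)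

/-- Primitive coordinates of the abscissa. -/
private theorem Cmp_ex (h1 : S_Pts) (h : Ord v) {W : WeierstrassCurve F} {M : ℤ} (hW : W.Δ ≠ 0)
    (hM0 : 0 < M) (P : W.toAffine.Point) : ∃ r t : F, Rp P r t ∧ Cmp_Pr v r t ∧
      Cc v M P = Cmp_mm v M r := by
  obtain ⟨p1, q2, -⟩ := h1 F W hW
  rcases p1 P with h0 | ⟨x, y, hxy⟩
  · refine ⟨1, 0, ⟨Or.inl one_ne_zero, fun _ => rfl, ?_⟩, ⟨Ge.one h, Ge.zero,
      Or.inl ⟨one_ne_zero, h.one⟩⟩, ?_⟩
    · intro x y hxy
      exact absurd h0 (q2 P x y hxy).1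
    · unfold Cc
      rw [if_pos h0, Cmp_mm_is ⟨one_ne_zero, h.one⟩]
      omega
  · obtain ⟨hP0, hpx, -⟩ := q2 P x y hxy
    have huniq : ∀ x' y' : F, At P x' y' → x' = x := by
      intro x' y' hx'
      rw [← (q2 P x' y' hx').2.1, hpx]
    by_cases hx : Ge v 0 x
    · refine ⟨x, 1, ⟨Or.inr one_ne_zero, fun h0 => absurd h0 hP0, ?_⟩, ⟨hx, Ge.one h,
        Or.inr ⟨one_ne_zero, h.one⟩⟩, ?_⟩
      · intro x' y' hx'
        rw [huniq x' y' hx', mul_one]
        exact ⟨one_ne_zero, rfl⟩
      · unfold Cc Cmp_mm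
        rw [if_neg hP0, hpx]
        split_ifs with h0
        · rfl
        · have := hx.resolve_left h0
          omega
    · have hx0 : x ≠ 0 := fun h0 => hx (Or.inl h0)
      have hlt : v x < 0 := by
        by_contra hcon
        exact hx (Or.inr (not_lt.1 hcon))
      refine ⟨1, x⁻¹, ⟨Or.inl one_ne_zero, fun h0 => absurd h0 hP0, ?_⟩, ⟨Ge.one h, Or.inr ?_,
        Or.inl ⟨one_ne_zero, h.one⟩⟩, ?_⟩
      · intro x' y' hx'
        rw [huniq x' y' hx']
        exact ⟨inv_ne_zero hx0, (mul_inv_cancel₀ hx0).symm⟩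
      · rw [h.inv hx0]
        omega
      · unfold Cc
        rw [if_neg hP0, hpx, if_neg hx0, Cmp_mm_is ⟨one_ne_zero, h.one⟩]
        omega

end val

theorem tCmp (h1 : S_Pts) (h2 : S_AS) : S_Cmp := by
  intro F _ v h W M hW hM P Q
  obtain ⟨u, w, a1, q, a3⟩ := Cmp_ex h1 h hW hM.pos P
  obtain ⟨u', w', b1, q', b3⟩ := Cmp_ex h1 h hW hM.pos Q
  obtain ⟨r, t, c1, p, c3⟩ := Cmp_ex h1 h hW hM.pos (P + Q)
  obtain ⟨r', t', d1, p', d3⟩ := Cmp_ex h1 h hW hM.pos (P - Q)
  obtain ⟨c, hc, e1, e2, e3⟩ := h2 F W hW P Q u w u' w' r t r' t' _ _ _ a1 b1 c1 d1 rfl rfl rfl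
  rw [a3, b3, c3, d3]
  rcases le_total (Cmp_mm v M u) (Cmp_mm v M u') with hle | hle
  · exact Cmp_core h hM p p' q q' hc e1 e2 e3 hle
  · have h5 := Cmp_core h hM p p' q' q hc (by rw [e1]; ring) (by rw [e2]; ring)
      (by rw [e3]; ring) hle
    rw [abs_sub_comm, add_comm (Cmp_mm v M u'), sub_right_comm (2 * M)] at h5
    exact h5

end MP7Sh
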