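import Pool.Agent.Lib.MP_7f581e_Sh.SpecL

/-!
# MP_7f581e_nt, Sh/Cms (helper60): the torsion points in the identity component form a line
-/

set_option autoImplicit false

namespace MP7Sh

open Polynomial WeierstrassCurve

open scoped Classical

private theorem cms_dd (M c q k : ℤ) (hM : 0 < M) (h0 : 0 ≤ q) (h1 : q ≤ M)
    (hc : c = q + 2 * M * k) : dd M c = q := by
  unfold dd
  have h2 : c % (2 * M) = q := by
    rw [hc, Int.add_mul_emod_self_left]
    exact Int.emod_eq_of_lt h0 (by omega)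
  rw [h2]
  exact min_eq_left (by omega)

private theorem cms_line (l : ℕ) (hl : l.Prime) (A : Type) [AddCommGroup A]
    (e : A ≃+ (Fin 2 → ZMod l)) (Z : AddSubgroup A) (hbot : ∃ P : A, P ≠ 0 ∧ P ∈ Z)
    (htop : ∃ P : A, P ∉ Z) :
    ∃ P₀ : A, P₀ ≠ 0 ∧ ∀ P : A, P ∈ Z ↔ ∃ n : ℕ, P = n • P₀ := by
  have : Fact l.Prime := ⟨hl⟩
  have hfin : Finite A := Finite.of_equiv _ e.symm.toEquiv
  have hcard : Nat.card A = l ^ 2 := by
    rw [Nat.card_congr e.toEquiv, Nat.card_eq_fintype_card, Fintype.card_pi]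
    simp [ZMod.card]
  obtain ⟨P₀, hP0, hPZ⟩ := hbot
  have htor : l • P₀ = 0 := by
    apply e.injective
    rw [map_nsmul, map_zero]
    funext i
    simp
  have hord : addOrderOf P₀ = l := addOrderOf_eq_prime htor hP0
  have hle : AddSubgroup.zmultiples P₀ ≤ Z := by
    rw [AddSubgroup.zmultiples_le]
    exact hPZ
  have hcz : Nat.card (AddSubgroup.zmultiples P₀) = l := by
    rw [Nat.card_zmultiples, hord]
  have hZ : Nat.card Z ≤ l := by
    have h1 : Nat.card Z ∣ l ^ 2 := hcard ▸ AddSubgroup.card_addSubgroup_dvd_card Z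
    obtain ⟨k, hk, hk'⟩ := (Nat.dvd_prime_pow hl).1 h1
    have hk2 : k ≠ 2 := by
      intro h
      rw [h, ← hcard] at hk'
      have := AddSubgroup.eq_top_of_card_eq Z hk'
      obtain ⟨P, hP⟩ := htop
      apply hP
      rw [this]
      exact AddSubgroup.mem_top P
    rw [hk']
    calc l ^ k ≤ l ^ 1 := Nat.pow_le_pow_right hl.pos (by omega)
      _ = l := pow_one l
  have heq : AddSubgroup.zmultiples P₀ = Z :=
    AddSubgroup.eq_of_le_of_card_ge hle (by rw [hcz]; exact hZ)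
  refine ⟨P₀, hP0, fun P => ?_⟩
  rw [← heq, ← mem_multiples_iff_mem_zmultiples, AddSubmonoid.mem_multiples_iff]
  constructor
  · rintro ⟨n, hn⟩
    exact ⟨n, hn.symm⟩
  · rintro ⟨n, hn⟩
    exact ⟨n, hn.symm⟩

theorem tCms (_h1 : S_Pts) (h2 : S_Cmp) (h3 : S_Cml) : S_Cms := by
  intro F _ v hv W M hΔ hM l hl hl5 he hne
  obtain ⟨e⟩ := he
  obtain ⟨c1, c2, c3, c4, c5⟩ := h3 F v hv W M hΔ hM
  have c6 := h2 F v hv W M hΔ hM
  have hMp : 0 < M := hM.pos
  have hodd : Odd l := hl.odd_of_ne_two (by omega)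
  have : Fact l.Prime := ⟨hl⟩
  have hl0 : (l : ℤ) ≠ 0 := by exact_mod_cast hl.ne_zero
  have hmem : ∀ P : Tl l W, l • (P : W.toAffine.Point) = 0 := fun P => P.2
  have key : ∀ P : Tl l W, Cc v M (P : W.toAffine.Point) ≠ 0 →
      ∃ a : ℕ, 1 ≤ a ∧ 2 * a < l ∧ (l : ℤ) * Cc v M (P : W.toAffine.Point) = 2 * M * a := by
    intro P hP
    obtain ⟨x, y, a, -, -, ha1, ha2, ha3, ha4⟩ := ((c5 l hodd _ (hmem P)).1).resolve_left hP
    refine ⟨a, ha1, ha2, ?_⟩
    rw [ha3]
    linear_combination 2 * ha4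
  obtain ⟨Z, hZ⟩ : ∃ Z : AddSubgroup (Tl l W),
      ∀ P : Tl l W, P ∈ Z ↔ Cc v M (P : W.toAffine.Point) = 0 := by
    refine ⟨⟨⟨⟨{P | Cc v M (P : W.toAffine.Point) = 0}, ?_⟩, ?_⟩, ?_⟩, fun P => Iff.rfl⟩
    · intro P Q hP hQ
      exact c3 _ _ hP hQ
    · change Cc v M (((0 : Tl l W)) : W.toAffine.Point) = 0
      unfold Cc
      rw [if_pos (by simp)]
    · intro P hP
      exact (c2 _).trans hP
  have hbot : ∃ P : Tl l W, P ≠ 0 ∧ P ∈ Z := by
    by_contra hcon
    have hz : ∀ P : Tl l W, Cc v M (P : W.toAffine.Point) = 0 → P = 0 := by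
      intro P hP
      by_contra h0
      exact hcon ⟨P, h0, (hZ P).2 hP⟩
    obtain ⟨P, hP⟩ : ∃ P : Tl l W, e P = ![1, 0] := ⟨e.symm _, e.apply_symm_apply _⟩
    obtain ⟨Q, hQ⟩ : ∃ Q : Tl l W, e Q = ![0, 1] := ⟨e.symm _, e.apply_symm_apply _⟩
    have hP0 : P ≠ 0 := by
      intro h
      rw [h, map_zero] at hP
      have := congrFun hP 0
      simp at this
    have hQ0 : Q ≠ 0 := by
      intro h
      rw [h, map_zero] at hQ
      have := congrFun hQ 1
      simp at this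
    obtain ⟨a, ha1, ha2, ha3⟩ := key P (fun h => hP0 (hz P h))
    obtain ⟨b, hb1, hb2, hb3⟩ := key Q (fun h => hQ0 (hz Q h))
    have haz : (a : ZMod l) ≠ 0 := by
      intro h
      rw [ZMod.natCast_eq_zero_iff] at h
      have := Nat.le_of_dvd (by omega) h
      omega
    obtain ⟨n, hn⟩ : ∃ n : ℕ, ((n * a : ℕ) : ZMod l) = (b : ZMod l) := by
      refine ⟨((b : ZMod l) * (a : ZMod l)⁻¹).val, ?_⟩
      push_cast
      rw [ZMod.natCast_zmod_val, mul_assoc, inv_mul_cancel₀ haz, mul_one]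
    rw [ZMod.natCast_eq_natCast_iff, Nat.modEq_iff_dvd] at hn
    obtain ⟨k, hk⟩ := hn
    have hcc : (n : ℤ) * Cc v M (P : W.toAffine.Point) =
        Cc v M (Q : W.toAffine.Point) + 2 * M * (-k) := by
      apply mul_left_cancel₀ hl0
      push_cast at hk
      linear_combination (n : ℤ) * ha3 - hb3 - 2 * M * hk
    have hq := c1 (Q : W.toAffine.Point)
    have hnP : Cc v M (n • (P : W.toAffine.Point)) = Cc v M (Q : W.toAffine.Point) := by
      rw [c4, cms_dd M _ _ _ hMp hq.1 hq.2 hcc]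
    rcases c6 (n • (P : W.toAffine.Point)) (Q : W.toAffine.Point) with h | h
    · have h1 := h.1
      rw [hnP, sub_self, abs_zero] at h1
      have h2 := hz (n • P + Q) (by push_cast; exact h1)
      have h3 := congrArg e h2
      rw [map_add, map_nsmul, hP, hQ, map_zero] at h3
      have h4 := congrFun h3 1
      simp at h4
    · have h1 := h.1
      rw [hnP, sub_self, abs_zero] at h1
      have h2 := hz (n • P - Q) (by push_cast; exact h1)
      have h3 := congrArg e h2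
      rw [map_sub, map_nsmul, hP, hQ, map_zero] at h3
      have h4 := congrFun h3 1
      simp at h4
  obtain ⟨P1, hP1⟩ := hne
  obtain ⟨P₀, hP₀, hall⟩ := cms_line l hl (Tl l W) e Z hbot ⟨P1, fun h => hP1 ((hZ P1).1 h)⟩
  exact ⟨P₀, hP₀, fun P => (hZ P).symm.trans (hall P)⟩

end MP7Sh
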