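import Pool.Agent.Lib.MP_7f581e_Sh.SpecI

/-!
# MP_7f581e_nt, GA realizations of `PSL(2, l)`: module Co2 (the composition, `N = 2`)
-/

set_option autoImplicit false

namespace MP7Sh

open Polynomial WeierstrassCurve

open scoped Classical

private theorem Co2_congr {L : Type} [Field L] {W : WeierstrassCurve L} {P : W.toAffine.Point}
    {x y x' y' : L} (h : At P x y) (hx : x = x') (hy : y = y') : At P x' y' := by
  subst hx hy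
  exact h

private theorem Co2_formula {L : Type} [Field L] {x y t t' θ m X Y X₂ Y₂ : L} (h2 : (2 : L) ≠ 0)
    (hθ : θ ^ 2 = -2) (ht : 4 * (t + t') = 1) (hy : y ≠ 0)
    (e : y ^ 2 = x ^ 3 + x ^ 2 + t * x) (hm : m * (2 * y) = 3 * x ^ 2 + 2 * x + t)
    (eX : 2 * x * X = -(x ^ 2 + x + t)) (eY : 2 * θ * x ^ 2 * Y = -(y * (x ^ 2 - t)))
    (eX₂ : 2 * X * X₂ = -(X ^ 2 + X + t')) (eY₂ : 2 * θ * X ^ 2 * Y₂ = -(Y * (X ^ 2 - t'))) :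
    X₂ = m ^ 2 - 1 - x - x ∧ Y₂ = m * ((m ^ 2 - 1 - x - x) - x) + y := by
  have k1 : y ^ 2 = -2 * x ^ 2 * X := by linear_combination e + x * eX
  have k2 : 4 * y ^ 2 * X₂ = (x ^ 2 - t) ^ 2 := by
    have e1 : 4 * y ^ 2 * X₂ = -4 * x ^ 2 * (2 * X * X₂) := by
      rw [k1]
      ring
    rw [e1, eX₂]
    have e2 : -4 * x ^ 2 * -(X ^ 2 + X + t') = (2 * x * X) ^ 2 + 2 * x * (2 * x * X) +
        4 * x ^ 2 * t' := by ring
    rw [e2, eX]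
    linear_combination x ^ 2 * ht
  have k3 : 8 * y ^ 4 * Y₂ = -(y * (x ^ 2 - t) * ((x ^ 2 + x + t) ^ 2 - x ^ 2 * (1 - 4 * t))) := by
    have e1 : 8 * y ^ 4 * Y₂ = -8 * x ^ 4 * θ * (2 * θ * X ^ 2 * Y₂) +
        16 * x ^ 4 * X ^ 2 * Y₂ * (θ ^ 2 + 2) := by
      have : 8 * y ^ 4 * Y₂ = 8 * (y ^ 2) ^ 2 * Y₂ := by ring
      rw [this, k1]
      ring
    have e2 : -8 * x ^ 4 * θ * -(Y * (X ^ 2 - t')) = (2 * θ * x ^ 2 * Y) *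
        ((2 * x * X) ^ 2 - 4 * x ^ 2 * t') := by ring
    rw [e1, eY₂, e2, eY, eX]
    linear_combination 16 * x ^ 4 * X ^ 2 * Y₂ * hθ + x ^ 2 * y * (x ^ 2 - t) * ht
  have h4 : (4 : L) ≠ 0 := by
    have : (4 : L) = 2 ^ 2 := by norm_num
    rw [this]
    exact pow_ne_zero 2 h2
  have h8 : (8 : L) ≠ 0 := by
    have : (8 : L) = 2 ^ 3 := by norm_num
    rw [this]
    exact pow_ne_zero 3 h2
  have k4 : X₂ = m ^ 2 - 1 - x - x := by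
    refine mul_left_cancel₀ (mul_ne_zero h4 (pow_ne_zero 2 hy)) ?_
    rw [k2]
    have e1 : 4 * y ^ 2 * (m ^ 2 - 1 - x - x) = (m * (2 * y)) ^ 2 - 4 * y ^ 2 * (1 + 2 * x) := by
      ring
    rw [e1, hm, e]
    ring
  refine ⟨k4, ?_⟩
  rw [← k4]
  refine mul_left_cancel₀ (mul_ne_zero h8 (pow_ne_zero 4 hy)) ?_
  rw [k3]
  have e1 : 8 * y ^ 4 * (m * (X₂ - x) + y) = y * ((m * (2 * y)) * (4 * y ^ 2 * X₂ -
      4 * x * y ^ 2) + 8 * (y ^ 2) ^ 2) := by ring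
  rw [e1, hm, k2, e]
  ring

theorem tCo2 (h1 : S_Pts) (h2 : S_PsW) : S_Co2 := by
  intro L _ θ t t' h2' hθ htt ht ht' P
  have hN : ((2 : ℕ) : L) ≠ 0 := by exact_mod_cast h2'
  have hθ' : θ ^ 2 = -2 := hθ
  have h4 : (4 : L) ≠ 0 := by
    have : (4 : L) = 2 ^ 2 := by norm_num
    rw [this]
    exact pow_ne_zero 2 h2'
  have ht4 : 4 * (t + t') = 1 := by
    have : t + t' = 4⁻¹ := htt
    rw [this, mul_inv_cancel₀ h4]
  have htt' : t' + t = c0 2 L := by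
    rw [add_comm]
    exact htt
  obtain ⟨w1, w2, w3, w4, -, -⟩ := h2 2 L θ t t' (Or.inl rfl) hN hθ htt ht ht'
  obtain ⟨v1, v2, v3, v4, -, -⟩ := h2 2 L θ t' t (Or.inl rfl) hN hθ htt' ht' ht
  obtain ⟨a1, a2, a3, a4, a5, -, -, a8, a9, -, -, -⟩ := h1 L (Ec 2 t) w1
  obtain ⟨-, b2, -, -, -, -, -, -, -, -, -, -⟩ := h1 L (Ec 2 t') v1
  have hθ0 : θ ≠ 0 := by
    rintro rfl
    apply h2'
    linear_combination hθ'
  rcases a1 P with rfl | ⟨x, y, hP⟩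
  · rw [(w3 0).1 (Or.inl rfl), (v3 0).1 (Or.inl rfl), smul_zero, neg_zero]
  obtain ⟨-, hpx, -, e⟩ := a2 P x y hP
  have e' : y ^ 2 = x ^ 3 + x ^ 2 + t * x := by
    have : y ^ 2 + 0 * x * y + 0 * y = x ^ 3 + 1 * x ^ 2 + t * x + 0 := e
    linear_combination this
  by_cases hx : x = 0
  · subst hx
    rw [(w3 P).1 (Or.inr hpx), (v3 0).1 (Or.inl rfl), w4 P y hP, neg_zero]
  have hQ := w2 P x y hP hx
  obtain ⟨X, hX⟩ : ∃ X, X = psx 2 t x := ⟨_, rfl⟩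
  obtain ⟨Y, hY⟩ : ∃ Y, Y = psy 2 θ t x y := ⟨_, rfl⟩
  rw [← hX, ← hY] at hQ
  have hX' : X = -(x ^ 2 + x + t) / (2 * x) := hX
  have hY' : Y = -(y * (x ^ 2 - t)) / (2 * θ * x ^ 2) := hY
  have eX : 2 * x * X = -(x ^ 2 + x + t) := by
    rw [hX', mul_div_cancel₀ _ (mul_ne_zero h2' hx)]
  have eY : 2 * θ * x ^ 2 * Y = -(y * (x ^ 2 - t)) := by
    rw [hY', mul_div_cancel₀ _ (mul_ne_zero (mul_ne_zero h2' hθ0) (pow_ne_zero 2 hx))]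
  by_cases hX0 : X = 0
  · rw [hX0, mul_zero] at eX
    have hy : y ^ 2 = 0 := by linear_combination e' + x * eX
    have hy' : y = 0 := pow_eq_zero_iff (two_ne_zero) |>.1 hy
    rw [(v3 _).1 (Or.inr ((b2 _ _ _ hQ).2.1.trans hX0)), two_nsmul, (a9 P x y hP).2, neg_zero]
    show 2 * y + 0 * x + 0 = 0
    rw [hy']
    ring
  have hy : y ≠ 0 := by
    rintro rfl
    apply hX0
    refine mul_left_cancel₀ (mul_ne_zero (mul_ne_zero h2' hx) hx) ?_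
    linear_combination x * eX + e'
  have hR := v2 _ X Y hQ hX0
  obtain ⟨X₂, hX₂⟩ : ∃ X₂, X₂ = psx 2 t' X := ⟨_, rfl⟩
  obtain ⟨Y₂, hY₂⟩ : ∃ Y₂, Y₂ = psy 2 θ t' X Y := ⟨_, rfl⟩
  rw [← hX₂, ← hY₂] at hR
  have hX₂' : X₂ = -(X ^ 2 + X + t') / (2 * X) := hX₂
  have hY₂' : Y₂ = -(Y * (X ^ 2 - t')) / (2 * θ * X ^ 2) := hY₂
  have eX₂ : 2 * X * X₂ = -(X ^ 2 + X + t') := by
    rw [hX₂', mul_div_cancel₀ _ (mul_ne_zero h2' hX0)]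
  have eY₂ : 2 * θ * X ^ 2 * Y₂ = -(Y * (X ^ 2 - t')) := by
    rw [hY₂', mul_div_cancel₀ _ (mul_ne_zero (mul_ne_zero h2' hθ0) (pow_ne_zero 2 hX0))]
  obtain ⟨m, hm⟩ : ∃ m, m * (2 * y) = 3 * x ^ 2 + 2 * x + t :=
    ⟨(3 * x ^ 2 + 2 * x + t) / (2 * y), div_mul_cancel₀ _ (mul_ne_zero h2' hy)⟩
  obtain ⟨f1, f2⟩ := Co2_formula h2' hθ' ht4 hy e' hm eX eY eX₂ eY₂
  have hD := a5 _ _ _ (a8 P x y m hP (by
    show 2 * y + 0 * x + 0 ≠ 0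
    rw [zero_mul, add_zero, add_zero]
    exact mul_ne_zero h2' hy) (by
    show m * (2 * y + 0 * x + 0) = 3 * x ^ 2 + 2 * 1 * x + t - 0 * y
    linear_combination hm))
  rw [two_nsmul]
  refine a4 _ _ _ _ hR (Co2_congr hD ?_ ?_)
  · show m ^ 2 + 0 * m - 1 - x - x = X₂
    rw [f1]
    ring
  · show -(-(m * ((m ^ 2 + 0 * m - 1 - x - x) - x) + y) -
      0 * (m ^ 2 + 0 * m - 1 - x - x) - 0) - 0 * (m ^ 2 + 0 * m - 1 - x - x) - 0 = Y₂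
    rw [f2]
    ring

end MP7Sh
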