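import Pool.Agent.Lib.MP_7f581e_Sh.SpecI

/-!
# MP_7f581e_nt, GA realizations of `PSL(2, l)`: the composition of the isogenies, `N = 3`
-/

set_option autoImplicit false

namespace MP7Sh

open Polynomial WeierstrassCurve

open scoped Classical

/-- `ψ₃ / x`. -/
private def cw {L : Type} [Field L] (x t : L) : L := 3 * x ^ 3 + x ^ 2 + 3 * t * x + 3 * t ^ 2

/-- `ψ₂`. -/
private def ce {L : Type} [Field L] (x y t : L) : L := 2 * y + x + t

/-- `ψ₂ ^ 2`. -/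
private def cd {L : Type} [Field L] (x t : L) : L := 4 * x ^ 3 + x ^ 2 + 2 * t * x + t ^ 2

private def cG {L : Type} [Field L] (x t : L) : L :=
  cd x t ^ 2 - (6 * x ^ 2 + x + t) * x * cw x t

private def cXn {L : Type} [Field L] (x t : L) : L := x ^ 3 * cw x t ^ 2 + cd x t * cG x t

private def cYn {L : Type} [Field L] (x y t : L) : L :=
  y * x ^ 3 * cw x t ^ 3 +
    cG x t * ce x y t * (cd x t ^ 2 - (3 * x ^ 2 + y + x + t) * x * cw x t)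

private def cN {L : Type} [Field L] (x t : L) : L :=
  -(x ^ 3 + t * x + t ^ 2) ^ 3 - (x ^ 3 + t * x + t ^ 2) ^ 2 * x ^ 2 -
    9 * t * x ^ 4 * (x ^ 3 + t * x + t ^ 2) + t * x ^ 6 - 54 * t ^ 2 * x ^ 6

section

variable {L : Type} [Field L]

private theorem co3_delta {x y t : L} (hc : y ^ 2 + x * y + t * y = x ^ 3) :
    ce x y t ^ 2 = cd x t := by
  unfold ce cd
  linear_combination 4 * hc

private theorem co3_tan {x y t : L} (hc : y ^ 2 + x * y + t * y = x ^ 3) :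
    (3 * x ^ 2 - y) ^ 2 + (3 * x ^ 2 - y) * ce x y t - 3 * x * ce x y t ^ 2 = -(x * cw x t) := by
  unfold ce cw
  linear_combination (-1 - 12 * x) * hc

/-- The first abscissa. -/
private theorem co3_X1 (h3 : (3 : L) ≠ 0) {x t : L} (hx : x ≠ 0) :
    9 * x ^ 2 * psx 3 t x = -cw x t := by
  have h9 : (9 : L) ≠ 0 := by
    have : (9 : L) = 3 * 3 := by norm_num
    rw [this]; exact mul_ne_zero h3 h3
  unfold psx cw
  rw [if_neg (by norm_num)]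
  field_simp
  ring

private theorem co3_X2 {x t t' X1 X2 : L} (h3 : (3 : L) ≠ 0) (hX1 : 9 * x ^ 2 * X1 = -cw x t)
    (ht : 27 * t' = 1 - 27 * t)
    (hX2 : 9 * X1 ^ 2 * X2 = -(3 * X1 ^ 3 + X1 ^ 2 + 3 * t' * X1 + 3 * t' ^ 2)) :
    X2 * (x ^ 2 * cw x t ^ 2) = cXn x t := by
  have h9 : (9 : L) ≠ 0 := by
    have : (9 : L) = 3 * 3 := by norm_num
    rw [this]; exact mul_ne_zero h3 h3
  have h27 : (27 : L) ≠ 0 := by
    have : (27 : L) = 9 * 3 := by norm_num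
    rw [this]; exact mul_ne_zero h9 h3
  have e : 27 * cXn x t = cw x t ^ 3 - 3 * x ^ 2 * cw x t ^ 2 +
      3 * (1 - 27 * t) * x ^ 4 * cw x t - (1 - 27 * t) ^ 2 * x ^ 6 := by
    unfold cXn cG cd cw
    ring
  apply mul_left_cancel₀ h27
  rw [e, ← ht]
  have hw : cw x t = -(9 * x ^ 2 * X1) := by rw [hX1]; ring
  rw [hw]
  linear_combination 243 * x ^ 6 * hX2

/-- Elimination of `θ`. -/
private theorem co3_elim {θ t t' X1 X2 Y Y1 Y2 D1 R2 : L} (hθ : θ ^ 2 + θ + 1 = 0)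
    (ht : 27 * t' = 1 - 27 * t) (hD1 : D1 = X1 ^ 3 - t' * X1 - 2 * t' ^ 2)
    (hR2 : R2 = -6 * X1 ^ 4 - (1 + 15 * t') * X1 ^ 3 - 3 * t' * X1 ^ 2 + 3 * t' ^ 3)
    (hX2 : 9 * X1 ^ 2 * X2 = -(3 * X1 ^ 3 + X1 ^ 2 + 3 * t' * X1 + 3 * t' ^ 2))
    (H1 : -27 * (1 + 2 * θ) * Y1 = 9 * Y + 27 * θ * X1 - (1 + 9 * t - 27 * θ * t'))
    (H2 : -27 * (1 + 2 * θ) * Y2 * X1 ^ 3 = 9 * (D1 * Y1 - t' * (X1 + t') ^ 2) +
      (27 * θ * X2 - (1 + 9 * t' - 27 * θ * t)) * X1 ^ 3) :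
    -243 * X1 ^ 3 * Y2 = D1 * (9 * Y - 1 - 9 * t) + 9 * R2 := by
  subst hD1 hR2
  linear_combination (-3 * (1 + 2 * θ)) * H2 + (X1 ^ 3 - t' * X1 - 2 * t' ^ 2) * H1 +
    (-324 * Y2 * X1 ^ 3 - 162 * X2 * X1 ^ 3 - 162 * t * X1 ^ 3) * hθ +
    (9 * (θ + 2) * X1) * hX2 + (3 * (θ + 2) * X1 ^ 3) * ht

private theorem co3_D1 {x t t' X1 : L} (h3 : (3 : L) ≠ 0) (hX1 : 9 * x ^ 2 * X1 = -cw x t)
    (ht : 27 * t' = 1 - 27 * t) :
    27 * x ^ 6 * (X1 ^ 3 - t' * X1 - 2 * t' ^ 2) = cN x t := by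
  have h27 : (27 : L) ≠ 0 := by
    have : (27 : L) = 3 * (3 * 3) := by norm_num
    rw [this]; exact mul_ne_zero h3 (mul_ne_zero h3 h3)
  have e : 27 * cN x t = -cw x t ^ 3 + 3 * (1 - 27 * t) * x ^ 4 * cw x t -
      2 * (1 - 27 * t) ^ 2 * x ^ 6 := by
    unfold cN cw
    ring
  apply mul_left_cancel₀ h27
  rw [e, ← ht]
  have hw : cw x t = -(9 * x ^ 2 * X1) := by rw [hX1]; ring
  rw [hw]
  ring

private theorem co3_R2 {x t t' X1 : L} (hX1 : 9 * x ^ 2 * X1 = -cw x t)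
    (ht : 27 * t' = 1 - 27 * t) :
    243 * (27 * x ^ 9 * (-6 * X1 ^ 4 - (1 + 15 * t') * X1 ^ 3 - 3 * t' * X1 ^ 2 + 3 * t' ^ 3)) =
      -6 * x * cw x t ^ 4 + (9 + 5 * (1 - 27 * t)) * x ^ 3 * cw x t ^ 3 -
        9 * (1 - 27 * t) * x ^ 5 * cw x t ^ 2 + (1 - 27 * t) ^ 3 * x ^ 9 := by
  rw [← ht]
  have hw : cw x t = -(9 * x ^ 2 * X1) := by rw [hX1]; ring
  rw [hw]
  ring

private theorem co3_curve {x y t : L} (hc : y ^ 2 + x * y + t * y = x ^ 3) :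
    243 * cN x t * ((x ^ 3 - t * x - 2 * t ^ 2) * y - t * (x + t) ^ 2) -
      27 * cN x t * x ^ 3 * (1 + 9 * t) + (-6 * x * cw x t ^ 4 +
        (9 + 5 * (1 - 27 * t)) * x ^ 3 * cw x t ^ 3 -
        9 * (1 - 27 * t) * x ^ 5 * cw x t ^ 2 + (1 - 27 * t) ^ 3 * x ^ 9) = 243 * cYn x y t := by
  unfold cYn cG cN ce cd cw
  linear_combination (-2916*x^10 - 2430*x^9 - 10206*x^8*t - 486*x^8 - 17496*x^7*t^2 -
    3888*x^7*t - 13608*x^6*t^2 - 20412*x^5*t^3 - 13122*x^4*t^4 + 486*x^4*t^3 + 1944*x^3*t^4 +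
    2916*x^2*t^5 + 1458*x*t^6) * hc

private theorem co3_Y2 {x y t t' θ X1 X2 Y Y1 Y2 : L} (h3 : (3 : L) ≠ 0)
    (hc : y ^ 2 + x * y + t * y = x ^ 3) (hX1 : 9 * x ^ 2 * X1 = -cw x t)
    (ht : 27 * t' = 1 - 27 * t) (hθ : θ ^ 2 + θ + 1 = 0)
    (hX2 : 9 * X1 ^ 2 * X2 = -(3 * X1 ^ 3 + X1 ^ 2 + 3 * t' * X1 + 3 * t' ^ 2))
    (hY : x ^ 3 * Y = (x ^ 3 - t * x - 2 * t ^ 2) * y - t * (x + t) ^ 2)
    (H1 : -27 * (1 + 2 * θ) * Y1 = 9 * Y + 27 * θ * X1 - (1 + 9 * t - 27 * θ * t'))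
    (H2 : -27 * (1 + 2 * θ) * Y2 * X1 ^ 3 =
      9 * ((X1 ^ 3 - t' * X1 - 2 * t' ^ 2) * Y1 - t' * (X1 + t') ^ 2) +
      (27 * θ * X2 - (1 + 9 * t' - 27 * θ * t)) * X1 ^ 3) :
    Y2 * (x ^ 3 * cw x t ^ 3) = cYn x y t := by
  have h243 : (243 : L) ≠ 0 := by
    have : (243 : L) = 3 * (3 * (3 * (3 * 3))) := by norm_num
    rw [this]
    exact mul_ne_zero h3 (mul_ne_zero h3 (mul_ne_zero h3 (mul_ne_zero h3 h3)))
  have e1 := co3_elim hθ ht rfl rfl hX2 H1 H2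
  have e2 := co3_D1 h3 hX1 ht
  have e3 := co3_R2 hX1 ht
  have e4 := co3_curve hc
  have hw : cw x t ^ 3 = -(729 * x ^ 6 * X1 ^ 3) := by
    have : cw x t = -(9 * x ^ 2 * X1) := by rw [hX1]; ring
    rw [this]; ring
  apply mul_left_cancel₀ h243
  rw [← e4, ← hY, ← e3, ← e2]
  have e5 : Y2 * (x ^ 3 * cw x t ^ 3) = 3 * x ^ 9 * (-243 * X1 ^ 3 * Y2) := by
    rw [hw]; ring
  rw [e5, e1]
  ring

/-- The equation of the second abscissa. -/
private theorem co3_psx2 (h3 : (3 : L) ≠ 0) {t' X1 : L} (hx : X1 ≠ 0) :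
    9 * X1 ^ 2 * psx 3 t' X1 = -(3 * X1 ^ 3 + X1 ^ 2 + 3 * t' * X1 + 3 * t' ^ 2) := by
  have h9 : (9 : L) ≠ 0 := by
    have : (9 : L) = 3 * 3 := by norm_num
    rw [this]; exact mul_ne_zero h3 h3
  unfold psx
  rw [if_neg (by norm_num)]
  field_simp
  ring

/-- The ordinate. -/
private theorem co3_psy (h3 : (3 : L) ≠ 0) {θ t t' x y : L} (hθ : θ ^ 2 + θ + 1 = 0)
    (ht : 27 * t' = 1 - 27 * t) (hx : x ≠ 0) :
    -27 * (1 + 2 * θ) * psy 3 θ t x y * x ^ 3 =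
      9 * ((x ^ 3 - t * x - 2 * t ^ 2) * y - t * (x + t) ^ 2) +
      (27 * θ * psx 3 t x - (1 + 9 * t - 27 * θ * t')) * x ^ 3 := by
  have h9 : (9 : L) ≠ 0 := by
    have : (9 : L) = 3 * 3 := by norm_num
    rw [this]; exact mul_ne_zero h3 h3
  have h12 : (1 + 2 * θ) ≠ 0 := by
    intro h
    apply h3
    linear_combination 4 * hθ - (1 + 2 * θ) * h
  have e : -3 * (1 + 2 * θ) ≠ 0 := mul_ne_zero (neg_ne_zero.mpr h3) h12
  have key : -3 * (1 + 2 * θ) * psy 3 θ t x y =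
      (y - t ^ 2 * (2 * y + x + t) / x ^ 3 - t * (x + y) / x ^ 2 - t ^ 2 / x ^ 2 +
      3 * θ * psx 3 t x - (9⁻¹ - θ * 9⁻¹ + t + 3 * θ * t)) := by
    unfold psy psx
    rw [if_neg (by norm_num), if_neg (by norm_num)]
    rw [mul_div_cancel₀ _ e]
  have k2 : -27 * (1 + 2 * θ) * psy 3 θ t x y * x ^ 3 =
      9 * x ^ 3 * (-3 * (1 + 2 * θ) * psy 3 θ t x y) := by ring
  have k3 : t ^ 2 * (2 * y + x + t) / x ^ 3 * x ^ 3 = t ^ 2 * (2 * y + x + t) :=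
    div_mul_cancel₀ _ (pow_ne_zero _ hx)
  have k4 : t * (x + y) / x ^ 2 * x ^ 2 = t * (x + y) := div_mul_cancel₀ _ (pow_ne_zero _ hx)
  have k5 : t ^ 2 / x ^ 2 * x ^ 2 = t ^ 2 := div_mul_cancel₀ _ (pow_ne_zero _ hx)
  have k6 : (9 : L)⁻¹ * 9 = 1 := inv_mul_cancel₀ h9
  rw [k2, key]
  linear_combination (-9) * k3 - 9 * x * k4 - 9 * x * k5 + (-(1 - θ) * x ^ 3) * k6 - θ * x ^ 3 * ht

end

private theorem co3_smul {G : Type*} [AddMonoid G] (P : G) : 3 • P = P + (P + P) := by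
  rw [show (3 : ℕ) = 1 + (1 + 1) from rfl, add_nsmul, add_nsmul, one_nsmul]

/-- The coordinates of `- 3 P`. -/
private theorem co3_three (h1 : S_Pts) {L : Type} [Field L] {t : L} (hΔ : (Ec 3 t).Δ ≠ 0)
    (P : (Ec 3 t).toAffine.Point) {x y : L} (hP : At P x y) (hx : x ≠ 0) (hw : cw x t ≠ 0) :
    At (-(3 • P)) (cXn x t / (x ^ 2 * cw x t ^ 2)) (cYn x y t / (x ^ 3 * cw x t ^ 3)) := by
  obtain ⟨p1, p2', p3, p4, p5, p6, p7, p8, p9, p10, p11, p12⟩ := h1 L (Ec 3 t) hΔ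
  have a1 : (Ec 3 t).a₁ = 1 := by simp [Ec]
  have a2 : (Ec 3 t).a₂ = 0 := by simp [Ec]
  have a3 : (Ec 3 t).a₃ = t := by simp [Ec]
  have a4 : (Ec 3 t).a₄ = 0 := by simp [Ec]
  have a6 : (Ec 3 t).a₆ = 0 := by simp [Ec]
  have hp2 : p2 (Ec 3 t) x y = ce x y t := by
    unfold p2 ce
    rw [a1, a3]
    ring
  have hc : y ^ 2 + x * y + t * y = x ^ 3 := by
    have := (p2' P x y hP).2.2.2
    rw [a1, a2, a3, a4, a6] at this
    linear_combination this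
  have hd := co3_delta hc
  have hxw : x * cw x t ≠ 0 := mul_ne_zero hx hw
  rw [co3_smul P]
  by_cases he : ce x y t = 0
  · have h0 : P + P = 0 := (p9 P x y hP).2 (by rw [hp2]; exact he)
    rw [h0, add_zero]
    have hd0 : cd x t = 0 := by rw [← hd, he]; ring
    have hX : cXn x t / (x ^ 2 * cw x t ^ 2) = x := by
      rw [div_eq_iff (mul_ne_zero (pow_ne_zero _ hx) (pow_ne_zero _ hw))]
      unfold cXn
      rw [hd0]
      ring
    have hY : cYn x y t / (x ^ 3 * cw x t ^ 3) = y := by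
      rw [div_eq_iff (mul_ne_zero (pow_ne_zero _ hx) (pow_ne_zero _ hw))]
      unfold cYn
      rw [he]
      ring
    rw [hX, hY]
    have := p5 P x y hP
    rw [a1, a3] at this
    have hy : -y - 1 * x - t = y := by
      unfold ce at he
      linear_combination -he
    rwa [hy] at this
  · obtain ⟨m₁, hm₁⟩ : ∃ m₁ : L, m₁ * ce x y t = 3 * x ^ 2 - y :=
      ⟨(3 * x ^ 2 - y) / ce x y t, div_mul_cancel₀ _ he⟩
    have q8 := p8 P x y m₁ hP (by rw [hp2]; exact he) (by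
      rw [hp2, hm₁, a1, a2, a4]; ring)
    rw [a1, a2, a3] at q8
    set x₂ : L := m₁ ^ 2 + 1 * m₁ - 0 - x - x with hx₂
    set y₂ : L := -(m₁ * (x₂ - x) + y) - 1 * x₂ - t with hy₂
    have hE1 : ce x y t ^ 2 * (x - x₂) = x * cw x t := by
      have ht := co3_tan hc
      rw [hx₂]
      linear_combination (-(m₁ * ce x y t + (3 * x ^ 2 - y) + ce x y t)) * hm₁ - ht
    have hxx : x - x₂ ≠ 0 := by
      intro h
      rw [h, mul_zero] at hE1
      exact hxw hE1.symm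
    obtain ⟨κ, hκ⟩ : ∃ κ : L, κ * (x * cw x t) = ce x y t ^ 3 :=
      ⟨ce x y t ^ 3 / (x * cw x t), div_mul_cancel₀ _ hxw⟩
    have hκ2 : κ * (x - x₂) = ce x y t := by
      apply mul_left_cancel₀ (pow_ne_zero 2 he)
      linear_combination κ * hE1 + hκ
    have q7 := p7 P (P + P) x y x₂ y₂ (-m₁ - 1 + κ) hP q8 (fun h => hxx (by rw [h]; ring)) (by
      rw [hy₂]
      have hce : ce x y t = 2 * y + x + t := rfl
      linear_combination hκ2 + hce)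
    rw [a1, a2, a3] at q7
    set m : L := -m₁ - 1 + κ with hm
    set x₃ : L := m ^ 2 + 1 * m - 0 - x - x₂ with hx₃
    have q5 := p5 _ _ _ q7
    rw [a1, a3] at q5
    have hyy : -(-(m * (x₃ - x) + y) - 1 * x₃ - t) - 1 * x₃ - t = m * (x₃ - x) + y := by ring
    rw [hyy] at q5
    have hx3' : x₃ = x + κ ^ 2 - (2 * m₁ + 1) * κ := by
      rw [hx₃, hm, hx₂]
      ring
    have g0 : (x₃ - x) * (x ^ 2 * cw x t ^ 2) = cd x t * cG x t := by
      rw [hx3']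
      unfold cG
      rw [← hd]
      have hce : ce x y t = 2 * y + x + t := rfl
      have s1 : κ ^ 2 * (x ^ 2 * cw x t ^ 2) = ce x y t ^ 6 := by
        linear_combination (κ * (x * cw x t) + ce x y t ^ 3) * hκ
      have s2 : (2 * m₁ + 1) * κ * (x ^ 2 * cw x t ^ 2) =
          ce x y t ^ 2 * (6 * x ^ 2 + x + t) * (x * cw x t) := by
        linear_combination ((2 * m₁ + 1) * (x * cw x t)) * hκ +
          2 * (ce x y t ^ 2 * (x * cw x t)) * hm₁ + (ce x y t ^ 2 * (x * cw x t)) * hce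
      linear_combination s1 - s2
    have g1 : x₃ = cXn x t / (x ^ 2 * cw x t ^ 2) := by
      rw [eq_div_iff (mul_ne_zero (pow_ne_zero _ hx) (pow_ne_zero _ hw))]
      unfold cXn
      linear_combination g0
    have g2 : m * (x₃ - x) + y = cYn x y t / (x ^ 3 * cw x t ^ 3) := by
      rw [eq_div_iff (mul_ne_zero (pow_ne_zero _ hx) (pow_ne_zero _ hw))]
      unfold cYn
      have hce : ce x y t = 2 * y + x + t := rfl
      have s1 : m * (x * cw x t) * ce x y t = cd x t ^ 2 -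
          (3 * x ^ 2 + y + x + t) * x * cw x t := by
        rw [hm, ← hd]
        linear_combination ce x y t * hκ - (x * cw x t) * hm₁ - (x * cw x t) * hce
      have s2 : m * (x₃ - x) * (x ^ 3 * cw x t ^ 3) =
          cG x t * ce x y t * (m * (x * cw x t) * ce x y t) := by
        linear_combination (m * (x * cw x t)) * g0 - (m * (x * cw x t)) * cG x t * hd
      rw [add_mul, s2, s1]
      ring
    rwa [g1, ← g1, g2, g1] at q5

/-- `3 P = 0` if `psx = 0`. -/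
private theorem co3_zero (h1 : S_Pts) {L : Type} [Field L] {t : L} (hΔ : (Ec 3 t).Δ ≠ 0)
    (P : (Ec 3 t).toAffine.Point) {x y : L} (hP : At P x y) (hw : cw x t = 0) :
    3 • P = 0 := by
  obtain ⟨p1, p2', p3, p4, p5, p6, p7, p8, p9, p10, p11, p12⟩ := h1 L (Ec 3 t) hΔ
  have a1 : (Ec 3 t).a₁ = 1 := by simp [Ec]
  have a2 : (Ec 3 t).a₂ = 0 := by simp [Ec]
  have a3 : (Ec 3 t).a₃ = t := by simp [Ec]
  have a4 : (Ec 3 t).a₄ = 0 := by simp [Ec]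
  have a6 : (Ec 3 t).a₆ = 0 := by simp [Ec]
  have hp2 : p2 (Ec 3 t) x y = ce x y t := by
    unfold p2 ce
    rw [a1, a3]
    ring
  have hc : y ^ 2 + x * y + t * y = x ^ 3 := by
    have := (p2' P x y hP).2.2.2
    rw [a1, a2, a3, a4, a6] at this
    linear_combination this
  have ht := co3_tan hc
  rw [hw, mul_zero, neg_zero] at ht
  have he : ce x y t ≠ 0 := by
    intro he
    apply p10 P x y hP (by rw [hp2]; exact he)
    rw [he] at ht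
    rw [a1, a2, a4]
    have h0 : (3 * x ^ 2 - y) ^ 2 = 0 := by linear_combination ht
    have := pow_eq_zero_iff (two_ne_zero) |>.1 h0
    linear_combination this
  obtain ⟨m₁, hm₁⟩ : ∃ m₁ : L, m₁ * ce x y t = 3 * x ^ 2 - y :=
    ⟨(3 * x ^ 2 - y) / ce x y t, div_mul_cancel₀ _ he⟩
  have q8 := p8 P x y m₁ hP (by rw [hp2]; exact he) (by
    rw [hp2, hm₁, a1, a2, a4]; ring)
  rw [a1, a2, a3] at q8
  have hE1 : m₁ ^ 2 + 1 * m₁ - 0 - x - x = x := by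
    have : ce x y t ^ 2 * (m₁ ^ 2 + 1 * m₁ - 0 - x - x - x) = 0 := by
      linear_combination ((m₁ * ce x y t + (3 * x ^ 2 - y) + ce x y t)) * hm₁ + ht
    have h0 := (mul_eq_zero.1 this).resolve_left (pow_ne_zero 2 he)
    linear_combination h0
  have hP0 := (p2' P x y hP).1
  rw [hE1] at q8
  rw [co3_smul P]
  rcases p6 P (P + P) x _ _ hP q8 with h | h
  · exact absurd (add_eq_left.1 h) hP0
  · rw [h, add_neg_cancel]

theorem tCo3 (h1 : S_Pts) (h2 : S_PsW) : S_Co3 := by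
  intro L _ θ t t' h3 hθ hc0 ht ht' P
  have hN : ((3 : ℕ) : L) ≠ 0 := by exact_mod_cast h3
  have hc0' : t' + t = c0 3 L := by rw [add_comm]; exact hc0
  obtain ⟨hΔ, w1, w2, w3, -, -⟩ := h2 3 L θ t t' (Or.inr rfl) hN hθ hc0 ht ht'
  obtain ⟨hΔ', v1, v2, v3, -, -⟩ := h2 3 L θ t' t (Or.inr rfl) hN hθ hc0' ht' ht
  have h27 : (27 : L) ≠ 0 := by
    have : (27 : L) = 3 * (3 * 3) := by norm_num
    rw [this]; exact mul_ne_zero h3 (mul_ne_zero h3 h3)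
  have hθ' : θ ^ 2 + θ + 1 = 0 := by
    unfold Rt at hθ
    rwa [if_neg (by norm_num)] at hθ
  have e27 : 27 * t' = 1 - 27 * t := by
    unfold c0 at hc0
    rw [if_neg (by norm_num)] at hc0
    have k : (27 : L) * 27⁻¹ = 1 := mul_inv_cancel₀ h27
    linear_combination 27 * hc0 + k
  have e27' : 27 * t = 1 - 27 * t' := by linear_combination e27
  obtain ⟨p1, p2', p3, p4, p5, p6, p7, p8, p9, p10, p11, p12⟩ := h1 L (Ec 3 t) hΔ
  have hzero : ∀ Q : (Ec 3 t').toAffine.Point, Q = 0 → ps 3 θ t' t Q = 0 :=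
    fun Q hQ => (v2 Q).1 (Or.inl hQ)
  rcases p1 P with hP | ⟨x, y, hP⟩
  · rw [hzero _ ((w2 P).1 (Or.inl hP)), hP]
    simp
  have hpx : px P = x := (p2' P x y hP).2.1
  have hc : y ^ 2 + x * y + t * y = x ^ 3 := by
    have := (p2' P x y hP).2.2.2
    have a1 : (Ec 3 t).a₁ = 1 := by simp [Ec]
    have a2 : (Ec 3 t).a₂ = 0 := by simp [Ec]
    have a3 : (Ec 3 t).a₃ = t := by simp [Ec]
    have a4 : (Ec 3 t).a₄ = 0 := by simp [Ec]
    have a6 : (Ec 3 t).a₆ = 0 := by simp [Ec]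
    rw [a1, a2, a3, a4, a6] at this
    linear_combination this
  by_cases hx : x = 0
  · rw [hzero _ ((w2 P).1 (Or.inr (by rw [hpx, hx])))]
    rw [hx] at hP
    rw [w3 P y hP, neg_zero]
  have hX1 := co3_X1 h3 (t := t) hx
  have hx2 : 9 * x ^ 2 ≠ 0 := by
    have h9 : (9 : L) ≠ 0 := by
      have : (9 : L) = 3 * 3 := by norm_num
      rw [this]; exact mul_ne_zero h3 h3
    exact mul_ne_zero h9 (pow_ne_zero 2 hx)
  have hQ := w1 P x y hP hx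
  by_cases hw : cw x t = 0
  · rw [co3_zero h1 hΔ P hP hw, neg_zero]
    apply (v2 _).1
    right
    have := (h1 L (Ec 3 t') hΔ').2.1 _ _ _ hQ
    rw [this.2.1]
    rw [hw, neg_zero] at hX1
    exact (mul_eq_zero.1 hX1).resolve_left hx2
  have hX10 : psx 3 t x ≠ 0 := by
    intro h
    rw [h, mul_zero] at hX1
    exact hw (neg_eq_zero.1 hX1.symm)
  have hR := v1 _ _ _ hQ hX10
  have hT := co3_three h1 hΔ P hP hx hw
  have hX2 := co3_psx2 h3 (t' := t') hX10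
  have f1 := co3_X2 h3 hX1 e27 hX2
  have g1 := co3_psy h3 (y := y) hθ' e27 hx
  have g2 := co3_psy h3 (y := psy 3 θ t x y) hθ' e27' hX10
  have f2 : psy 3 θ t' (psx 3 t x) (psy 3 θ t x y) * (x ^ 3 * cw x t ^ 3) = cYn x y t := by
    refine co3_Y2 (Y := ((x ^ 3 - t * x - 2 * t ^ 2) * y - t * (x + t) ^ 2) / x ^ 3) h3 hc hX1
      e27 hθ' hX2 ?_ ?_ g2
    · rw [mul_div_cancel₀ _ (pow_ne_zero 3 hx)]
    · apply mul_right_cancel₀ (pow_ne_zero 3 hx)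
      rw [g1]
      have k := div_mul_cancel₀ ((x ^ 3 - t * x - 2 * t ^ 2) * y - t * (x + t) ^ 2)
        (pow_ne_zero 3 hx)
      linear_combination (-9) * k
  have f1' : psx 3 t' (psx 3 t x) = cXn x t / (x ^ 2 * cw x t ^ 2) := by
    rw [eq_div_iff (mul_ne_zero (pow_ne_zero _ hx) (pow_ne_zero _ hw))]
    exact f1
  have f2' : psy 3 θ t' (psx 3 t x) (psy 3 θ t x y) = cYn x y t / (x ^ 3 * cw x t ^ 3) := by
    rw [eq_div_iff (mul_ne_zero (pow_ne_zero _ hx) (pow_ne_zero _ hw))]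
    exact f2
  rw [f1', f2'] at hR
  exact p4 _ _ _ _ hR hT

end MP7Sh
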