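import Pool.Agent.Lib.MP_7f581e_Sh.SpecE

/-!
# MP_7f581e_nt, GA realizations of `PSL(2, l)`: module Cv (changes of coordinates)
-/

set_option autoImplicit false

namespace MP7Sh

open Polynomial WeierstrassCurve

open scoped Classical

private theorem Cv_pmAt {L M : Type} [Field L] [Field M] {W : WeierstrassCurve L}
    {W' : WeierstrassCurve M} {f : L → M} {P : W.toAffine.Point} {x y : L} (hP : At P x y)
    (h' : W'.toAffine.Nonsingular (f x) (f y)) : At (pm W W' f P) (f x) (f y) := by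
  obtain ⟨h, rfl⟩ := hP
  exact ⟨h', dif_pos ⟨Affine.Point.some_ne_zero h, h'⟩⟩

private theorem Cv_At {L : Type} [Field L] {W : WeierstrassCurve L} {u r s : L}
    {P : W.toAffine.Point} {x y : L} (hP : At P x y)
    (h' : (tr W u r s).toAffine.Nonsingular (u ^ 2 * (x - r)) (u ^ 3 * (y - s))) :
    At (cv W u r s P) (u ^ 2 * (x - r)) (u ^ 3 * (y - s)) := by
  obtain ⟨h, rfl⟩ := hP
  exact ⟨h', dif_pos ⟨Affine.Point.some_ne_zero h, h'⟩⟩

private theorem Cv_zero {L : Type} [Field L] {W : WeierstrassCurve L} {u r s : L} :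
    cv W u r s 0 = 0 :=
  dif_neg fun h => h.1 rfl

private theorem Cv_pzero {L M : Type} [Field L] [Field M] {W : WeierstrassCurve L}
    {W' : WeierstrassCurve M} {f : L → M} : pm W W' f 0 = 0 :=
  dif_neg fun h => h.1 rfl

private theorem Cv_congr {L : Type} [Field L] {W : WeierstrassCurve L} {P : W.toAffine.Point}
    {x y x' y' : L} (h : At P x y) (hx : x = x') (hy : y = y') : At P x' y' := by
  subst hx hy
  exact h

private theorem Cv_disc {L : Type} [Field L] (W : WeierstrassCurve L) (u r s : L) :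
    (tr W u r s).Δ = u ^ 12 * W.Δ := by
  simp only [WeierstrassCurve.Δ, WeierstrassCurve.b₂, WeierstrassCurve.b₄, WeierstrassCurve.b₆,
    WeierstrassCurve.b₈, tr]
  ring

theorem tCv (h1 : S_Pts) : S_Cv := by
  intro L _ W u r s hΔ hu
  have hΔ' : (tr W u r s).Δ ≠ 0 := by
    rw [Cv_disc]
    exact mul_ne_zero (pow_ne_zero _ hu) hΔ
  obtain ⟨a1, a2, a3, a4, a5, a6, a7, a8, a9, -, -, -⟩ := h1 L W hΔ
  obtain ⟨b1, b2, b3, b4, b5, b6, b7, b8, b9, -, -, -⟩ := h1 L (tr W u r s) hΔ'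
  have c1 : (tr W u r s).a₁ = u * W.a₁ := rfl
  have c2 : (tr W u r s).a₂ = u ^ 2 * (W.a₂ + 3 * r) := rfl
  have c3 : (tr W u r s).a₃ = u ^ 3 * (W.a₃ + r * W.a₁ + 2 * s) := rfl
  have c4 : (tr W u r s).a₄ =
      u ^ 4 * (W.a₄ - s * W.a₁ + 2 * r * W.a₂ + 3 * r ^ 2) := rfl
  have c6 : (tr W u r s).a₆ =
      u ^ 6 * (W.a₆ + r * W.a₄ + r ^ 2 * W.a₂ + r ^ 3 - s * W.a₃ - s ^ 2 - r * s * W.a₁) := rfl
  have hp2 : ∀ x y, p2 (tr W u r s) (u ^ 2 * (x - r)) (u ^ 3 * (y - s)) = u ^ 3 * p2 W x y := by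
    intro x y
    unfold p2
    rw [c1, c3]
    ring
  have hAt : ∀ (P : W.toAffine.Point) (x y : L), At P x y →
      At (cv W u r s P) (u ^ 2 * (x - r)) (u ^ 3 * (y - s)) := by
    intro P x y hP
    have e := (a2 P x y hP).2.2.2
    obtain ⟨Q, h', -⟩ := b3 (u ^ 2 * (x - r)) (u ^ 3 * (y - s)) (by
      rw [c1, c2, c3, c4, c6]
      linear_combination u ^ 6 * e)
    exact Cv_At hP h'
  have hneg : ∀ P : W.toAffine.Point, cv W u r s (-P) = -cv W u r s P := by
    intro P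
    rcases a1 P with rfl | ⟨x, y, hP⟩
    · rw [neg_zero, Cv_zero, neg_zero]
    · refine b4 _ _ _ _ (hAt _ _ _ (a5 P x y hP)) (Cv_congr (b5 _ _ _ (hAt P x y hP)) rfl ?_)
      rw [c1, c3]
      ring
  have hadd : ∀ P Q : W.toAffine.Point,
      cv W u r s (P + Q) = cv W u r s P + cv W u r s Q := by
    intro P Q
    rcases a1 P with rfl | ⟨x, y, hP⟩
    · rw [zero_add, Cv_zero, zero_add]
    rcases a1 Q with rfl | ⟨x', y', hQ⟩
    · rw [add_zero, Cv_zero, add_zero]
    by_cases hx : x = x'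
    · subst hx
      rcases a6 P Q x y y' hP hQ with rfl | rfl
      · by_cases hp : p2 W x y = 0
        · rw [(a9 Q x y hP).2 hp, Cv_zero]
          symm
          rw [b9 _ _ _ (hAt Q x y hP), hp2, hp, mul_zero]
        · obtain ⟨m, hm⟩ : ∃ m : L,
              m * p2 W x y = 3 * x ^ 2 + 2 * W.a₂ * x + W.a₄ - W.a₁ * y :=
            ⟨_, div_mul_cancel₀ _ hp⟩
          have hp' : p2 (tr W u r s) (u ^ 2 * (x - r)) (u ^ 3 * (y - s)) ≠ 0 := by
            rw [hp2]
            exact mul_ne_zero (pow_ne_zero _ hu) hp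
          have hm' : (u * m) * p2 (tr W u r s) (u ^ 2 * (x - r)) (u ^ 3 * (y - s)) =
              3 * (u ^ 2 * (x - r)) ^ 2 + 2 * (tr W u r s).a₂ * (u ^ 2 * (x - r)) +
                (tr W u r s).a₄ - (tr W u r s).a₁ * (u ^ 3 * (y - s)) := by
            rw [hp2, c1, c2, c4]
            linear_combination u ^ 4 * hm
          refine b4 _ _ _ _ (hAt _ _ _ (a8 Q x y m hP hp hm))
            (Cv_congr (b8 _ _ _ _ (hAt Q x y hP) hp' hm') ?_ ?_)
          · rw [c1, c2]
            ring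
          · rw [c1, c2, c3]
            ring
      · rw [add_neg_cancel, Cv_zero, hneg, add_neg_cancel]
    · obtain ⟨m, hm⟩ : ∃ m : L, m * (x - x') = y - y' :=
        ⟨_, div_mul_cancel₀ _ (sub_ne_zero.2 hx)⟩
      have hx' : u ^ 2 * (x - r) ≠ u ^ 2 * (x' - r) := fun h =>
        hx (sub_left_injective (mul_left_cancel₀ (pow_ne_zero 2 hu) h))
      have hm' : (u * m) * (u ^ 2 * (x - r) - u ^ 2 * (x' - r)) =
          u ^ 3 * (y - s) - u ^ 3 * (y' - s) := by
        linear_combination u ^ 3 * hm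
      refine b4 _ _ _ _ (hAt _ _ _ (a7 P Q x y x' y' m hP hQ hx hm))
        (Cv_congr (b7 _ _ _ _ _ _ _ (hAt P x y hP) (hAt Q x' y' hQ) hx' hm') ?_ ?_)
      · rw [c1, c2]
        ring
      · rw [c1, c2, c3]
        ring
  refine ⟨Cv_disc W u r s, Cv_zero, fun P x y hP => ⟨hAt P x y hP, hp2 x y⟩, hadd, ?_, ?_, ?_⟩
  · intro P Q h
    rcases a1 P with rfl | ⟨x, y, hP⟩
    · rcases a1 Q with rfl | ⟨x', y', hQ⟩
      · rfl
      · rw [Cv_zero] at h
        exact absurd h.symm (b2 _ _ _ (hAt Q x' y' hQ)).1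
    · rcases a1 Q with rfl | ⟨x', y', hQ⟩
      · rw [Cv_zero] at h
        exact absurd h (b2 _ _ _ (hAt P x y hP)).1
      · have e1 := b2 _ _ _ (hAt P x y hP)
        have e2 := b2 _ _ _ (hAt Q x' y' hQ)
        rw [h] at e1
        have hx : x = x' := sub_left_injective
          (mul_left_cancel₀ (pow_ne_zero 2 hu) (e1.2.1.symm.trans e2.2.1))
        have hy : y = y' := sub_left_injective
          (mul_left_cancel₀ (pow_ne_zero 3 hu) (e1.2.2.1.symm.trans e2.2.2.1))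
        subst hx hy
        exact a4 _ _ _ _ hP hQ
  · intro Q
    rcases b1 Q with rfl | ⟨X, Y, hQ⟩
    · exact ⟨0, Cv_zero⟩
    · have e := (b2 Q X Y hQ).2.2.2
      obtain ⟨x, hx⟩ : ∃ x, u ^ 2 * (x - r) = X :=
        ⟨X / u ^ 2 + r, by field_simp; ring⟩
      obtain ⟨y, hy⟩ : ∃ y, u ^ 3 * (y - s) = Y :=
        ⟨Y / u ^ 3 + s, by field_simp; ring⟩
      subst hx hy
      obtain ⟨P, hP⟩ := a3 x y (by
        rw [c1, c2, c3, c4, c6] at e
        refine mul_left_cancel₀ (pow_ne_zero 6 hu) ?_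
        linear_combination e)
      exact ⟨P, b4 _ _ _ _ (hAt P x y hP) hQ⟩
  · intro f hW hfu hfr hfs
    have g1 : f W.a₁ = W.a₁ := congrArg (fun V : WeierstrassCurve L => V.a₁) hW
    have g2 : f W.a₂ = W.a₂ := congrArg (fun V : WeierstrassCurve L => V.a₂) hW
    have g3 : f W.a₃ = W.a₃ := congrArg (fun V : WeierstrassCurve L => V.a₃) hW
    have g4 : f W.a₄ = W.a₄ := congrArg (fun V : WeierstrassCurve L => V.a₄) hW
    have g6 : f W.a₆ = W.a₆ := congrArg (fun V : WeierstrassCurve L => V.a₆) hW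
    refine ⟨?_, ?_⟩
    · refine WeierstrassCurve.ext ?_ ?_ ?_ ?_ ?_
      · show f (u * W.a₁) = _
        rw [c1, map_mul, hfu, g1]
      · show f (u ^ 2 * (W.a₂ + 3 * r)) = _
        rw [c2]
        simp only [map_mul, map_pow, map_add, map_ofNat, hfu, hfr, g2]
      · show f (u ^ 3 * (W.a₃ + r * W.a₁ + 2 * s)) = _
        rw [c3]
        simp only [map_mul, map_pow, map_add, map_ofNat, hfu, hfr, hfs, g1, g3]
      · show f (u ^ 4 * (W.a₄ - s * W.a₁ + 2 * r * W.a₂ + 3 * r ^ 2)) = _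
        rw [c4]
        simp only [map_mul, map_pow, map_add, map_sub, map_ofNat, hfu, hfr, hfs, g1, g2, g4]
      · show f (u ^ 6 * (W.a₆ + r * W.a₄ + r ^ 2 * W.a₂ + r ^ 3 - s * W.a₃ - s ^ 2 -
          r * s * W.a₁)) = _
        rw [c6]
        simp only [map_mul, map_pow, map_add, map_sub, hfu, hfr, hfs, g1, g2, g3, g4, g6]
    · intro P
      rcases a1 P with rfl | ⟨x, y, hP⟩
      · rw [Cv_pzero, Cv_zero, Cv_pzero]
      · have e := congrArg f (a2 P x y hP).2.2.2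
        simp only [map_add, map_mul, map_pow, g1, g2, g3, g4, g6] at e
        obtain ⟨Q, h', -⟩ := a3 (f x) (f y) e
        have hL := hAt _ _ _ (Cv_pmAt (W' := W) (f := f) hP h')
        have e1 : u ^ 2 * (f x - r) = f (u ^ 2 * (x - r)) := by
          simp only [map_mul, map_pow, map_sub, hfu, hfr]
        have e2 : u ^ 3 * (f y - s) = f (u ^ 3 * (y - s)) := by
          simp only [map_mul, map_pow, map_sub, hfu, hfs]
        rw [e1, e2] at hL
        obtain ⟨h'', -⟩ := id hL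
        exact b4 _ _ _ _ hL (Cv_pmAt (W' := tr W u r s) (f := f) (hAt P x y hP) h'')

end MP7Sh
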