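import Pool.Agent.Lib.MP_7f581e_Sh.SpecG

/-!
# MP_7f581e_nt, GA realizations of `PSL(2, l)`: `S_Dsq`
-/

set_option autoImplicit false

namespace MP7Sh

open Polynomial WeierstrassCurve

open scoped Classical

/-- `1 + A` with `A ^ 2 = 0` has the determinant `1`. -/
private theorem dsq_det {k : Type} [Field k] (M : Matrix (Fin 2) (Fin 2) k)
    (h : (M - 1) * (M - 1) = 0) : M.det = 1 := by
  obtain ⟨A, rfl⟩ : ∃ A, M = A + 1 := ⟨M - 1, by rw [sub_add_cancel]⟩
  rw [add_sub_cancel_right] at h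
  have h00 := congrFun (congrFun h 0) 0
  have h01 := congrFun (congrFun h 0) 1
  have h10 := congrFun (congrFun h 1) 0
  have h11 := congrFun (congrFun h 1) 1
  simp only [Matrix.mul_apply, Fin.sum_univ_two, Matrix.zero_apply] at h00 h01 h10 h11
  have htr : A 0 0 + A 1 1 = 0 := by
    by_contra hne
    have hb : A 0 1 = 0 := by
      have : A 0 1 * (A 0 0 + A 1 1) = 0 := by linear_combination h01
      exact (mul_eq_zero.1 this).resolve_right hne
    have ha : A 0 0 = 0 := by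
      rw [hb] at h00
      have : A 0 0 * A 0 0 = 0 := by linear_combination h00
      exact mul_self_eq_zero.1 this
    have hd : A 1 1 = 0 := by
      rw [hb] at h11
      have : A 1 1 * A 1 1 = 0 := by linear_combination h11
      exact mul_self_eq_zero.1 this
    exact hne (by rw [ha, hd, add_zero])
  rw [Matrix.det_fin_two]
  simp only [Matrix.add_apply, Matrix.one_apply_eq, ne_eq, zero_ne_one, not_false_eq_true,
    Matrix.one_apply_ne, one_ne_zero, add_zero]
  linear_combination (1 + A 0 0) * htr - h00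

/-- The curve is fixed by the automorphisms which fix the parameter. -/
private theorem dsq_map {κ F : Type} [Field κ] [Field F] [Algebra κ F] (N : ℕ) (T : F)
    (σ : F ≃ₐ[κ] F) (hσ : σ T = T) : (Ec N T).map (σ : F →+* F) = Ec N T := by
  have h : (σ : F →+* F) T = T := hσ
  unfold Ec
  split_ifs
  · ext <;> simp [hσ]
  · ext <;> simp [hσ]

private theorem dsq_transc {κ F : Type} [Field κ] [Field F] [Algebra κ F] {T : F}
    (hT : Transcendental κ T) (c : κ) : T ≠ algebraMap κ F c := by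
  rintro rfl
  exact hT (isAlgebraic_algebraMap c)

private theorem dsq_delta {l N : ℕ} {κ F : Type} [Field κ] [Field F] [Algebra κ F] {T : F}
    (hN : Nm l N κ) (hT : Transcendental κ T) : (Ec N T).Δ ≠ 0 := by
  have hT0 : T ≠ 0 := by
    have := dsq_transc hT 0
    rwa [map_zero] at this
  have hnF : (N : F) ≠ 0 := by
    have h1 := hN.nk
    rw [← map_natCast (algebraMap κ F) N]
    exact (_root_.map_ne_zero _).2 h1
  rcases hN.nn with rfl | rfl
  · have h2 : (2 : F) ≠ 0 := by exact_mod_cast hnF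
    have h2k : (2 : κ) ≠ 0 := by exact_mod_cast hN.nk
    have hd : (Ec 2 T).Δ = 2 ^ 4 * T ^ 2 * (1 - 4 * T) := by
      simp only [Ec, if_true, WeierstrassCurve.Δ, WeierstrassCurve.b₂, WeierstrassCurve.b₄,
        WeierstrassCurve.b₆, WeierstrassCurve.b₈]
      ring
    rw [hd]
    refine mul_ne_zero (mul_ne_zero (pow_ne_zero _ h2) (pow_ne_zero _ hT0)) ?_
    intro h
    apply dsq_transc hT (4⁻¹ : κ)
    have h4 : (4 : F) ≠ 0 := by
      have : (4 : F) = 2 * 2 := by norm_num
      rw [this]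
      exact mul_ne_zero h2 h2
    rw [map_inv₀, map_ofNat]
    field_simp
    linear_combination -h
  · have h3 : (3 : F) ≠ 0 := by exact_mod_cast hnF
    have hd : (Ec 3 T).Δ = T ^ 3 * (1 - 27 * T) := by
      have h32 : ¬ ((3 : ℕ) = 2) := by norm_num
      simp only [Ec, if_neg h32, WeierstrassCurve.Δ, WeierstrassCurve.b₂, WeierstrassCurve.b₄,
        WeierstrassCurve.b₆, WeierstrassCurve.b₈]
      ring
    rw [hd]
    refine mul_ne_zero (pow_ne_zero _ hT0) ?_
    intro h
    apply dsq_transc hT (27⁻¹ : κ)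
    have h4 : (27 : F) ≠ 0 := by
      have : (27 : F) = 3 ^ 3 := by norm_num
      rw [this]
      exact pow_ne_zero _ h3
    rw [map_inv₀, map_ofNat]
    field_simp
    linear_combination -h

theorem tDsq (h1 : S_Plx) (h2 : S_Lin) (h3 : S_LcG) (h4 : S_LcM) (h5 : S_Inf) (h6 : S_Sco)
    (h7 : S_Sce) : S_Dsq := by
  intro l N _ κ F _ _ _ _ T ρ e hN hG hρ σ hσ M hM
  obtain ⟨-, huniq, -, hl4⟩ := h2 l F (Ec N T) (dsq_delta hN hG.tra) e
  obtain ⟨r, hr⟩ := hl4 κ T (fun τ hτ => dsq_map N T τ hτ)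
  let χ : MulAction.stabilizer (F ≃ₐ[κ] F) T →* ℤˣ :=
    ((quadraticChar (ZMod l)).toUnitHom).comp
      ((Matrix.GeneralLinearGroup.det (n := Fin 2) (R := ZMod l)).comp r)
  have hχ : ∀ τ, χ τ = 1 ↔ IsSquare ((r τ).1.det) := by
    intro τ
    have hdet : (r τ).1.det ≠ 0 := by
      have := (Matrix.GeneralLinearGroup.det (r τ)).ne_zero
      exact this
    rw [← quadraticChar_one_iff_isSquare hdet]
    rw [Units.ext_iff, Units.val_one]
    rfl
  have hone : ∀ τ, (r τ).1.det = 1 → χ τ = 1 := by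
    intro τ h
    rw [hχ, h]
    exact ⟨1, by rw [one_mul]⟩
  obtain ⟨hp, v0, hv0⟩ := h1 κ F T hG
  have hSpl : Spl κ F T χ := by
    constructor
    · intro b
      obtain ⟨v, hv⟩ := hp b
      refine ⟨v, hv, fun τ hτ => ?_⟩
      have hLoc : Loc l N κ T e v := by
        by_cases hb : b = 0 ∨ b = c0 N κ
        · exact h4 l N κ F T b v e hN hG hv hb
        · rw [not_or] at hb
          exact h3 l N κ F T b v e hN hG hv hb.1 hb.2
      exact hone τ (dsq_det _ (hLoc.a (τ : F ≃ₐ[κ] F) τ.2 hτ _ (hr τ)))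
    · refine ⟨v0, hv0, fun τ hτ => ?_⟩
      rw [hχ]
      exact (h5 l N κ F T ρ v0 e hN hG hv0 hρ).1 (τ : F ≃ₐ[κ] F) τ.2 hτ _ (hr τ)
  have hχ1 : χ = 1 := by
    by_cases hc : (2 : κ) = 0
    · exact h7 κ F T hc hG χ hSpl
    · exact h6 κ F T hc hG χ hSpl
  have hσ' : σ ∈ MulAction.stabilizer (F ≃ₐ[κ] F) T := hσ
  have hMr : M = (r ⟨σ, hσ'⟩).1 := huniq _ _ _ hM (hr ⟨σ, hσ'⟩)
  rw [hMr, ← hχ, hχ1, MonoidHom.one_apply]

end MP7Sh
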