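import Pool.Agent.Lib.MP_7f581e_Sh.SpecV

/-!
# MP_7f581e_nt, Fxf: the rational functions fixed by Frobenius (helper73)
-/

set_option autoImplicit false

namespace MP7Sh

open Polynomial IntermediateField

open scoped Classical

variable {p : ℕ} [Fact p.Prime] {κ Ω : Type} [Field κ] [CharP κ p] [Field Ω] [Algebra κ Ω]

/-- The inclusion of the prime field. -/
private noncomputable def fxf_c (p : ℕ) [Fact p.Prime] (κ : Type) [Field κ] [CharP κ p] :
    ZMod p →+* κ := ZMod.castHom (dvd_refl p) κ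

private theorem fxf_range (c : κ) (h : c ^ p = c) : c ∈ Set.range (fxf_c p κ) := by
  have h1 := (Subfield.mem_bot_iff_pow_eq_self κ p).2 h
  have h2 : (⊥ : Subfield κ) ≤ (fxf_c p κ).fieldRange := bot_le
  exact h2 h1

private theorem fxf_lift (q : κ[X]) (h : q.map (frobenius κ p) = q) :
    ∃ q₁ : (ZMod p)[X], q₁.map (fxf_c p κ) = q := by
  rw [← Polynomial.mem_lifts, Polynomial.lifts_iff_coeff_lifts]
  intro n
  refine fxf_range _ ?_
  have h1 := congrArg (fun r => Polynomial.coeff r n) h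
  simp only [Polynomial.coeff_map, frobenius_def] at h1
  exact h1

/-- The homomorphism of the polynomials. -/
private noncomputable def fxf_f (p : ℕ) [Fact p.Prime] (κ : Type) [Field κ] [CharP κ p]
    {Ω : Type} [Field Ω] [Algebra κ Ω] (y : Ω) : (ZMod p)[X] →+* Ω :=
  ((aeval y : κ[X] →ₐ[κ] Ω) : κ[X] →+* Ω).comp (Polynomial.mapRingHom (fxf_c p κ))

private theorem fxf_f_apply (y : Ω) (q : (ZMod p)[X]) :
    fxf_f p κ y q = aeval y (q.map (fxf_c p κ)) := rfl

private theorem fxf_inj {y : Ω} (hy : Transcendental κ y) :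
    Function.Injective (fxf_f p κ y) := by
  refine (transcendental_iff_injective.1 hy).comp ?_
  exact Polynomial.map_injective _ (fxf_c p κ).injective

/-- The homomorphism `j`. -/
private noncomputable def fxf_j (p : ℕ) [Fact p.Prime] (κ : Type) [Field κ] [CharP κ p]
    {Ω : Type} [Field Ω] [Algebra κ Ω] {y : Ω} (hy : Transcendental κ y) :
    RatFunc (ZMod p) →+* Ω :=
  IsFractionRing.lift (A := (ZMod p)[X]) (K := RatFunc (ZMod p)) (fxf_inj (p := p) hy)

private theorem fxf_j_alg {y : Ω} (hy : Transcendental κ y) (q : (ZMod p)[X]) :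
    fxf_j p κ hy (algebraMap (ZMod p)[X] (RatFunc (ZMod p)) q) =
      aeval y (q.map (fxf_c p κ)) := by
  unfold fxf_j
  rw [IsFractionRing.lift_algebraMap]
  rfl

private theorem fxf_psi (y : Ω) (ψ : Ω →+* Ω)
    (h1 : ∀ c : κ, ψ (algebraMap κ Ω c) = algebraMap κ Ω (c ^ p)) (h2 : ψ y = y) (q : κ[X]) :
    ψ (aeval y q) = aeval y (q.map (frobenius κ p)) := by
  have h : ψ.comp ((aeval y : κ[X] →ₐ[κ] Ω) : κ[X] →+* Ω) =
      ((aeval y : κ[X] →ₐ[κ] Ω) : κ[X] →+* Ω).comp (Polynomial.mapRingHom (frobenius κ p)) := by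
    refine Polynomial.ringHom_ext (fun c => ?_) ?_
    · simp [h1, frobenius_def]
    · simp [h2]
  exact congrArg (fun g => g q) h

theorem tFxf : S_Fxf := by
  intro p _ κ Ω _ _ _ _ y hy
  refine ⟨fxf_j p κ hy, ?_, fun ψ h1 h2 z hz => ⟨fun h => ?_, ?_⟩⟩
  · rw [← RatFunc.algebraMap_X, fxf_j_alg]
    simp
  · let e := RatFunc.algEquivOfTranscendental y hy
    obtain ⟨w, hw⟩ := e.surjective ⟨z, hz⟩
    have hz' : z = aeval y w.num / aeval y w.denom := by
      rw [← RatFunc.algEquivOfTranscendental_apply y hy w]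
      change z = ((e w : κ⟮y⟯) : Ω)
      rw [hw]
    have hinj := transcendental_iff_injective.1 hy
    have hne : ∀ q : κ[X], q ≠ 0 → aeval y q ≠ 0 := fun q hq h0 =>
      hq (hinj (h0.trans (map_zero _).symm))
    have hb := hne _ w.denom_ne_zero
    have hmon : (w.denom.map (frobenius κ p)).Monic := w.monic_denom.map _
    have hbφ := hne _ hmon.ne_zero
    rw [hz', map_div₀, fxf_psi y ψ h1 h2, fxf_psi y ψ h1 h2, div_eq_div_iff hbφ hb, ← map_mul,
      ← map_mul] at h
    have h3 : w.num.map (frobenius κ p) * w.denom = w.num * w.denom.map (frobenius κ p) := hinj h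
    have h4 : w.denom ∣ w.denom.map (frobenius κ p) :=
      w.isCoprime_num_denom.symm.dvd_of_dvd_mul_left ⟨w.num.map (frobenius κ p), by
        rw [← h3, mul_comm]⟩
    have h5 : w.denom.map (frobenius κ p) = w.denom :=
      (Polynomial.eq_of_monic_of_dvd_of_natDegree_le w.monic_denom hmon h4
        Polynomial.natDegree_map_le)
    rw [h5] at h3
    have h6 : w.num.map (frobenius κ p) = w.num := mul_right_cancel₀ w.denom_ne_zero h3
    obtain ⟨a₁, ha⟩ := fxf_lift (p := p) w.num h6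
    obtain ⟨b₁, hb₁⟩ := fxf_lift (p := p) w.denom h5
    refine ⟨algebraMap _ _ a₁ / algebraMap _ _ b₁, ?_⟩
    rw [map_div₀, fxf_j_alg, fxf_j_alg, ha, hb₁, hz']
  · rintro ⟨w, rfl⟩
    have h3 : ψ.comp (fxf_j p κ hy) = fxf_j p κ hy := by
      refine IsLocalization.ringHom_ext (nonZeroDivisors (ZMod p)[X]) (RingHom.ext fun q => ?_)
      change ψ (fxf_j p κ hy (algebraMap _ _ q)) = fxf_j p κ hy (algebraMap _ _ q)
      rw [fxf_j_alg, fxf_psi y ψ h1 h2, Polynomial.map_map,
        Subsingleton.elim ((frobenius κ p).comp (fxf_c p κ)) (fxf_c p κ)]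
    exact congrArg (fun g => g w) h3

end MP7Sh
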