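import Pool.Agent.Lib.MP_7f581e_Sh.SpecA

set_option autoImplicit false

namespace MP7Sh

open Polynomial WeierstrassCurve

open scoped Classical

/-- The ring automorphisms which map the constants to constants, together with their inverses. -/
private def GamB (κ Ω : Type) [Field κ] [Field Ω] [Algebra κ Ω] : Subgroup (Ω ≃+* Ω) where
  carrier := {ψ | (∀ c : κ, ∃ d : κ, ψ (algebraMap κ Ω c) = algebraMap κ Ω d) ∧
    ∀ c : κ, ∃ d : κ, ψ⁻¹ (algebraMap κ Ω c) = algebraMap κ Ω d}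
  one_mem' := by
    refine ⟨fun c => ⟨c, rfl⟩, fun c => ⟨c, ?_⟩⟩
    rw [inv_one]
    rfl
  mul_mem' := by
    rintro a b ⟨ha, ha'⟩ ⟨hb, hb'⟩
    refine ⟨fun c => ?_, fun c => ?_⟩
    · obtain ⟨d, hd⟩ := hb c
      obtain ⟨d', hd'⟩ := ha d
      refine ⟨d', ?_⟩
      show a (b (algebraMap κ Ω c)) = _
      rw [hd, hd']
    · obtain ⟨d, hd⟩ := ha' c
      obtain ⟨d', hd'⟩ := hb' d
      refine ⟨d', ?_⟩
      rw [mul_inv_rev]
      show b⁻¹ (a⁻¹ (algebraMap κ Ω c)) = _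
      rw [hd, hd']
  inv_mem' := by
    rintro a ⟨ha, ha'⟩
    refine ⟨ha', ?_⟩
    rw [inv_inv]
    exact ha

/-- The ring automorphisms which fix the constants. -/
private def GamA (κ Ω : Type) [Field κ] [Field Ω] [Algebra κ Ω] : Subgroup (Ω ≃+* Ω) where
  carrier := {ψ | ∀ c : κ, ψ (algebraMap κ Ω c) = algebraMap κ Ω c}
  one_mem' := fun c => rfl
  mul_mem' := by
    intro a b ha hb c
    show a (b (algebraMap κ Ω c)) = _
    rw [hb c, ha c]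
  inv_mem' := by
    intro a ha c
    have h : a⁻¹ (a (algebraMap κ Ω c)) = algebraMap κ Ω c := by
      show (a⁻¹ * a) (algebraMap κ Ω c) = algebraMap κ Ω c
      rw [inv_mul_cancel]
      rfl
    rw [ha c] at h
    exact h

/-- The stabilizer of `s`. -/
private def GamS (Ω : Type) [Field Ω] (s : Ω) : Subgroup (Ω ≃+* Ω) where
  carrier := {ψ | ψ s = s}
  one_mem' := rfl
  mul_mem' := by
    intro a b (ha : a s = s) (hb : b s = s)
    show a (b s) = s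
    rw [hb, ha]
  inv_mem' := by
    intro a (ha : a s = s)
    have h : a⁻¹ (a s) = s := by
      show (a⁻¹ * a) s = s
      rw [inv_mul_cancel]
      rfl
    rw [ha] at h
    exact h

private theorem Gam_conj (κ Ω : Type) [Field κ] [Field Ω] [Algebra κ Ω] (a ψ : Ω ≃+* Ω)
    (ha : a ∈ GamA κ Ω) (hψ : ψ ∈ GamB κ Ω) : ψ * a * ψ⁻¹ ∈ GamA κ Ω := by
  intro c
  obtain ⟨d, hd⟩ := hψ.2 c
  show ψ (a (ψ⁻¹ (algebraMap κ Ω c))) = _
  rw [hd, ha d, ← hd]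
  show (ψ * ψ⁻¹) (algebraMap κ Ω c) = _
  rw [mul_inv_cancel]
  rfl

theorem tGam : S_Gam := by
  intro p _ κ Ω _ _ _ _ Φ s hΦ hs
  have hB : Φ ∈ GamB κ Ω := by
    refine ⟨fun c => ⟨c ^ p, hΦ c⟩, fun c => ?_⟩
    obtain ⟨d, hd⟩ := IsAlgClosed.exists_pow_nat_eq c (Fact.out : p.Prime).pos
    refine ⟨d, ?_⟩
    rw [← hd, ← hΦ d]
    show (Φ⁻¹ * Φ) (algebraMap κ Ω d) = _
    rw [inv_mul_cancel]
    rfl
  have hBn : ∀ n : ℤ, Φ ^ n ∈ GamB κ Ω := fun n => Subgroup.zpow_mem _ hB n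
  have hS : ∀ n : ℤ, Φ ^ n ∈ GamS Ω s := fun n => Subgroup.zpow_mem _ hs n
  let Γ : Subgroup (Ω ≃+* Ω) :=
    { carrier := {σ | σ s = s ∧ ∃ n : ℤ, Φ ^ n * σ ∈ GamA κ Ω}
      one_mem' := ⟨rfl, 0, by
        rw [zpow_zero, one_mul]
        exact one_mem _⟩
      mul_mem' := by
        rintro σ τ ⟨hσ, n, hn⟩ ⟨hτ, m, hm⟩
        refine ⟨(GamS Ω s).mul_mem hσ hτ, n + m, ?_⟩
        have e : Φ ^ (n + m) * (σ * τ) =
            (Φ ^ m * (Φ ^ n * σ) * (Φ ^ m)⁻¹) * (Φ ^ m * τ) := by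
          rw [add_comm n m, zpow_add]
          group
        rw [e]
        exact mul_mem (Gam_conj κ Ω _ _ hn (hBn m)) hm
      inv_mem' := by
        rintro σ ⟨hσ, n, hn⟩
        refine ⟨(GamS Ω s).inv_mem hσ, -n, ?_⟩
        have e : Φ ^ (-n) * σ⁻¹ = Φ ^ (-n) * (Φ ^ n * σ)⁻¹ * (Φ ^ (-n))⁻¹ := by
          group
        rw [e]
        exact Gam_conj κ Ω _ _ (inv_mem hn) (hBn (-n)) }
  refine ⟨Γ, fun σ => Iff.rfl, ⟨hs, -1, ?_⟩, fun τ hτ => ⟨hτ, 0, fun c => ?_⟩, fun σ hσ => ?_⟩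
  · rw [zpow_neg_one, inv_mul_cancel]
    exact one_mem _
  · rw [zpow_zero, one_mul]
    exact τ.commutes c
  · obtain ⟨h1, n, hn⟩ := hσ
    refine ⟨n, AlgEquiv.ofRingEquiv (f := Φ ^ n * σ) hn, ?_, ?_⟩
    · exact (GamS Ω s).mul_mem (hS n) h1
    · ext x
      rfl

end MP7Sh
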