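import Pool.Agent.Lib.MP_7f581e_Sh.SpecE

/-! # MP_7f581e_nt, Sh/Gn: the recursion is exact (helper56; adapted from `WP/El/Gn.lean`) -/

set_option autoImplicit false

namespace MP7Sh

open Polynomial WeierstrassCurve

open scoped Classical

private noncomputable def gnEv (K : Type) [Field K] : K[X] →+* AlgebraicClosure (RatFunc K) :=
  (algebraMap (RatFunc K) (AlgebraicClosure (RatFunc K))).comp (algebraMap K[X] (RatFunc K))

private theorem gnEv_C {K : Type} [Field K] (a : K) :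
    gnEv K (C a) = algebraMap K (AlgebraicClosure (RatFunc K)) a := by
  rw [IsScalarTower.algebraMap_apply K (RatFunc K) (AlgebraicClosure (RatFunc K)),
    IsScalarTower.algebraMap_apply K K[X] (RatFunc K)]
  rfl

private theorem gn_inj (K : Type) [Field K] : Function.Injective (algebraMap K[X] (RatFunc K)) :=
  IsFractionRing.injective K[X] (RatFunc K)

private theorem gnEv_inj (K : Type) [Field K] : Function.Injective (gnEv K) :=
  (algebraMap (RatFunc K) (AlgebraicClosure (RatFunc K))).injective.comp (gn_inj K)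

private theorem gn_root {L : Type} [Field L] [IsAlgClosed L] (b c : L) : ∃ y : L, y ^ 2 + b * y = c := by
  have hdeg : (X ^ 2 + C b * X - C c : L[X]).degree ≠ 0 := by
    have h : (X ^ 2 + C b * X - C c : L[X]).degree = 2 := by
      compute_degree!
    rw [h]
    norm_num
  obtain ⟨y, hy⟩ := IsAlgClosed.exists_root _ hdeg
  refine ⟨y, ?_⟩
  rw [IsRoot.def] at hy
  simp only [eval_sub, eval_add, eval_pow, eval_X, eval_mul, eval_C] at hy
  linear_combination hy

private theorem gn_rp_smul {L : Type} [Field L] {W : WeierstrassCurve L} {P : W.toAffine.Point}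
    {u v c : L} (hc : c ≠ 0) (h : Rp P (c * u) (c * v)) : Rp P u v where
  nz := by
    rcases h.nz with h1 | h1
    · exact Or.inl (right_ne_zero_of_mul h1)
    · exact Or.inr (right_ne_zero_of_mul h1)
  zero := fun hP => (mul_eq_zero.1 (h.zero hP)).resolve_left hc
  aff := fun x y hxy => by
    obtain ⟨h1, h2⟩ := h.aff x y hxy
    exact ⟨right_ne_zero_of_mul h1, mul_left_cancel₀ hc (by rw [h2]; ring)⟩

private theorem gn_rp_zero (h1 : S_Pts) {L : Type} [Field L] (W : WeierstrassCurve L)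
    (hW : W.Δ ≠ 0) : Rp (0 : W.toAffine.Point) 1 0 := by
  obtain ⟨-, a2, -⟩ := h1 L W hW
  exact ⟨Or.inl one_ne_zero, fun _ => rfl, fun x y hxy => absurd rfl (a2 0 x y hxy).1⟩

private theorem gn_rp_aff (h1 : S_Pts) {L : Type} [Field L] (W : WeierstrassCurve L)
    (hW : W.Δ ≠ 0) (P : W.toAffine.Point) (x y : L) (h : At P x y) : Rp P x 1 := by
  obtain ⟨-, a2, -⟩ := h1 L W hW
  refine ⟨Or.inr one_ne_zero, fun h' => absurd h' (a2 P x y h).1,
    fun x' y' hxy => ⟨one_ne_zero, ?_⟩⟩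
  rw [mul_one, ← (a2 P x y h).2.1, (a2 P x' y' hxy).2.1]

private theorem gn_rp_exists (h1 : S_Pts) {L : Type} [Field L] (W : WeierstrassCurve L)
    (hW : W.Δ ≠ 0) (P : W.toAffine.Point) : ∃ r t, Rp P r t := by
  obtain ⟨a1, -⟩ := h1 L W hW
  rcases a1 P with h | ⟨x, y, h⟩
  · rw [h]
    exact ⟨1, 0, gn_rp_zero h1 W hW⟩
  · exact ⟨x, 1, gn_rp_aff h1 W hW P x y h⟩

private theorem gn_delta {K L : Type} [Field K] [Field L] (f : K →+* L) (W : WeierstrassCurve K)
    (hW : W.Δ ≠ 0) : (W.map f).Δ ≠ 0 := by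
  rw [WeierstrassCurve.map_Δ]
  intro h
  apply hW
  exact f.injective (by rw [h, map_zero])

/-- The addition-subtraction formulas for `(n + 1) P` and `P`. -/
private theorem gn_as (h1 : S_Pts) (h3 : S_AS) {K : Type} [Field K]
    (W : WeierstrassCurve K) (hW : W.Δ ≠ 0) {L : Type} [Field L] (ι : K →+* L) (φ : K[X] →+* L)
    (hφ : ∀ a, φ (C a) = ι a) (P : (W.map ι).toAffine.Point) (y : L)
    (hP : At P (φ X) y) (n : ℕ) (f g F G : K[X]) (h4 : Rp (n • P) (φ f) (φ g))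
    (h5 : Rp ((n + 1) • P) (φ F) (φ G)) (r t : L) (h6 : Rp ((n + 2) • P) r t) :
    ∃ c : L, c ≠ 0 ∧ r * φ f = c * φ (A0 W F G) ∧ r * φ g + t * φ f = c * φ (A1 W F G) ∧
      t * φ g = c * φ ((F - X * G) ^ 2) := by
  have b2 := gn_delta ι W hW
  have hadd : (n + 1) • P + P = (n + 2) • P := by
    rw [← succ_nsmul]
  have hsub : (n + 1) • P - P = n • P := by
    rw [succ_nsmul, add_sub_cancel_right]
  obtain ⟨c, hc, e0, e1, e2⟩ := h3 L (W.map ι) b2 ((n + 1) • P) P (φ F) (φ G) (φ X) 1 r t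
    (φ f) (φ g) _ _ _ h5 (gn_rp_aff h1 _ b2 P _ _ hP) (by rw [hadd]; exact h6)
    (by rw [hsub]; exact h4) rfl rfl rfl
  have f2 : φ 2 = 2 := map_ofNat φ 2
  refine ⟨c, hc, ?_, ?_, ?_⟩
  · rw [e0, WeierstrassCurve.map_b₄, WeierstrassCurve.map_b₆, WeierstrassCurve.map_b₈]
    simp only [A0, map_sub, map_add, map_mul, map_pow, hφ]
    ring
  · rw [e1, WeierstrassCurve.map_b₂, WeierstrassCurve.map_b₄, WeierstrassCurve.map_b₆]
    simp only [A1, map_add, map_mul, map_pow, hφ, f2]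
    ring
  · rw [e2]
    simp only [map_sub, map_mul, map_pow]
    ring

/-- Solutions in rational functions are polynomials. -/
private theorem gn_poly {K : Type} [Field K] (f g a0 a1 a2 : K[X]) (hfg : IsCoprime f g)
    (ρ τ : RatFunc K) (e0 : ρ * algebraMap K[X] (RatFunc K) f = algebraMap K[X] (RatFunc K) a0)
    (e1 : ρ * algebraMap K[X] (RatFunc K) g + τ * algebraMap K[X] (RatFunc K) f =
      algebraMap K[X] (RatFunc K) a1)
    (e2 : τ * algebraMap K[X] (RatFunc K) g = algebraMap K[X] (RatFunc K) a2) :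
    ∃ R T : K[X], algebraMap K[X] (RatFunc K) R = ρ ∧ algebraMap K[X] (RatFunc K) T = τ := by
  have key : ∀ z : RatFunc K, z ^ 2 - algebraMap K[X] (RatFunc K) a1 * z +
      algebraMap K[X] (RatFunc K) (a0 * a2) = 0 → ∃ q, algebraMap K[X] (RatFunc K) q = z := by
    intro z hz
    have hint : IsIntegral K[X] z := by
      refine ⟨X ^ 2 - C a1 * X + C (a0 * a2), ?_, ?_⟩
      · have h : (X ^ 2 - C a1 * X + C (a0 * a2) : K[X][X]) =
            X ^ 2 + (C (-a1) * X + C (a0 * a2)) := by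
          rw [C_neg]
          ring
        rw [h]
        refine Polynomial.monic_X_pow_add ?_
        exact lt_of_le_of_lt Polynomial.degree_linear_le (by norm_num)
      · rw [← hz]
        simp
    exact IsIntegrallyClosed.isIntegral_iff.1 hint
  obtain ⟨q1, hq1⟩ := key (ρ * algebraMap K[X] (RatFunc K) g) (by
    rw [← e1, map_mul, ← e0, ← e2]
    ring)
  obtain ⟨q2, hq2⟩ := key (τ * algebraMap K[X] (RatFunc K) f) (by
    rw [← e1, map_mul, ← e0, ← e2]
    ring)
  obtain ⟨a, b, hab⟩ := hfg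
  have hab' : algebraMap K[X] (RatFunc K) a * algebraMap K[X] (RatFunc K) f +
      algebraMap K[X] (RatFunc K) b * algebraMap K[X] (RatFunc K) g = 1 := by
    rw [← map_mul, ← map_mul, ← map_add, hab, map_one]
  refine ⟨a * a0 + b * q1, a * q2 + b * a2, ?_, ?_⟩
  · rw [map_add, map_mul, map_mul, hq1, ← e0]
    linear_combination ρ * hab'
  · rw [map_add, map_mul, map_mul, hq2, ← e2]
    linear_combination τ * hab'

private theorem gn_mf_succ {K : Type} [Field K] (W : WeierstrassCurve K) (n : ℕ) :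
    mf W (n + 2) = A0 W (mf W (n + 1)) (mg W (n + 1)) /ₘ mf W n := by
  rw [mf, mfg]
  rfl

private theorem gn_mg_succ {K : Type} [Field K] (W : WeierstrassCurve K) (n : ℕ) :
    mg W (n + 2) = (A1 W (mf W (n + 1)) (mg W (n + 1)) - mf W (n + 2) * mg W n) /ₘ mf W n := by
  rw [gn_mf_succ, mg, mfg]
  rfl

/-- The step. -/
private theorem gn_step (h1 : S_Pts) (h3 : S_AS) (h4 : S_Deg) (h5 : S_Prm)
    {K : Type} [Field K] (W : WeierstrassCurve K) (hW : W.Δ ≠ 0)
    (P : (W.map (algebraMap K (AlgebraicClosure (RatFunc K)))).toAffine.Point)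
    (y : AlgebraicClosure (RatFunc K))
    (hP : At P (gnEv K X) y) (n : ℕ) (c1 : IsCoprime (mf W n) (mg W n))
    (c2 : IsCoprime (mf W (n + 1)) (mg W (n + 1)))
    (r1 : Rp (n • P) (gnEv K (mf W n)) (gnEv K (mg W n)))
    (r2 : Rp ((n + 1) • P) (gnEv K (mf W (n + 1))) (gnEv K (mg W (n + 1)))) :
    IsCoprime (mf W (n + 2)) (mg W (n + 2)) ∧
    Rp ((n + 2) • P) (gnEv K (mf W (n + 2))) (gnEv K (mg W (n + 2))) ∧
    mf W (n + 2) * mf W n = A0 W (mf W (n + 1)) (mg W (n + 1)) ∧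
    mf W (n + 2) * mg W n + mg W (n + 2) * mf W n = A1 W (mf W (n + 1)) (mg W (n + 1)) ∧
    mg W (n + 2) * mg W n = (mf W (n + 1) - X * mg W (n + 1)) ^ 2 := by
  have b2 := gn_delta (algebraMap K (AlgebraicClosure (RatFunc K))) W hW
  obtain ⟨r, t, hrt⟩ := gn_rp_exists h1 _ b2 ((n + 2) • P)
  obtain ⟨c, hc, e0, e1, e2⟩ := gn_as h1 h3 W hW _ (gnEv K) gnEv_C P y hP n _ _ _ _ r1 r2 r t hrt
  have hmon : (mf W n).Monic := (h4.1 K W n).1
  have hf0 : algebraMap K[X] (RatFunc K) (mf W n) ≠ 0 := by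
    rw [Ne, map_eq_zero_iff _ (gn_inj K)]
    exact hmon.ne_zero
  obtain ⟨ρ, hρ⟩ : ∃ ρ : RatFunc K, ρ * algebraMap K[X] (RatFunc K) (mf W n) =
      algebraMap K[X] (RatFunc K) (A0 W (mf W (n + 1)) (mg W (n + 1))) :=
    ⟨_, div_mul_cancel₀ _ hf0⟩
  obtain ⟨τ, hτ⟩ : ∃ τ : RatFunc K, ρ * algebraMap K[X] (RatFunc K) (mg W n) +
      τ * algebraMap K[X] (RatFunc K) (mf W n) =
      algebraMap K[X] (RatFunc K) (A1 W (mf W (n + 1)) (mg W (n + 1))) := by
    refine ⟨(algebraMap K[X] (RatFunc K) (A1 W (mf W (n + 1)) (mg W (n + 1))) -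
      ρ * algebraMap K[X] (RatFunc K) (mg W n)) / algebraMap K[X] (RatFunc K) (mf W n), ?_⟩
    rw [div_mul_cancel₀ _ hf0]
    ring
  have hι : ∀ h : K[X], gnEv K h = algebraMap (RatFunc K) (AlgebraicClosure (RatFunc K))
    (algebraMap K[X] (RatFunc K) h) := fun h => rfl
  have hf0' : gnEv K (mf W n) ≠ 0 := by
    rw [Ne, map_eq_zero_iff _ (gnEv_inj K)]
    exact hmon.ne_zero
  have hr : r = c * algebraMap (RatFunc K) (AlgebraicClosure (RatFunc K)) ρ := by
    apply mul_right_cancel₀ hf0'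
    rw [e0, hι (A0 _ _ _), ← hρ, map_mul, ← hι]
    ring
  have ht : t = c * algebraMap (RatFunc K) (AlgebraicClosure (RatFunc K)) τ := by
    apply mul_right_cancel₀ hf0'
    have h6 : t * gnEv K (mf W n) = c * gnEv K (A1 W (mf W (n + 1)) (mg W (n + 1))) -
        r * gnEv K (mg W n) := by
      rw [← e1]
      ring
    rw [h6, hι (A1 _ _ _), ← hτ, map_add, map_mul, map_mul, ← hι, ← hι, hr]
    ring
  have hτ2 : τ * algebraMap K[X] (RatFunc K) (mg W n) =
      algebraMap K[X] (RatFunc K) ((mf W (n + 1) - X * mg W (n + 1)) ^ 2) := by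
    apply (algebraMap (RatFunc K) (AlgebraicClosure (RatFunc K))).injective
    apply mul_left_cancel₀ hc
    rw [← hι, ← e2, ht, map_mul, ← hι]
    ring
  obtain ⟨R, T, hR, hT⟩ := gn_poly (mf W n) (mg W n) _ _ _ c1 ρ τ hρ hτ hτ2
  have i0 : R * mf W n = A0 W (mf W (n + 1)) (mg W (n + 1)) := by
    apply gn_inj K
    rw [map_mul, hR, hρ]
  have i1 : R * mg W n + T * mf W n = A1 W (mf W (n + 1)) (mg W (n + 1)) := by
    apply gn_inj K
    rw [map_add, map_mul, map_mul, hR, hT, hτ]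
  have i2 : T * mg W n = (mf W (n + 1) - X * mg W (n + 1)) ^ 2 := by
    apply gn_inj K
    rw [map_mul, hT, hτ2]
  have j0 : mf W (n + 2) = R := by
    rw [gn_mf_succ, ← i0, mul_comm, Polynomial.mul_divByMonic_cancel_left _ hmon]
  have j1 : mg W (n + 2) = T := by
    rw [gn_mg_succ, j0, ← i1, add_sub_cancel_left, mul_comm,
      Polynomial.mul_divByMonic_cancel_left _ hmon]
  rw [j0, j1]
  refine ⟨?_, ?_, i0, i1, i2⟩
  · by_contra hnc
    have h7 : ∃ π : K[X], Irreducible π ∧ π ∣ R ∧ π ∣ T := by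
      by_contra hno
      push Not at hno
      exact hnc (EuclideanDomain.isCoprime_of_dvd (by
        rintro ⟨hR0, hT0⟩
        exact hno X Polynomial.irreducible_X (hR0 ▸ dvd_zero _) (hT0 ▸ dvd_zero _)) (by
        intro z hz hz0 hzR hzT
        obtain ⟨π, hπ, hπz⟩ := WfDvdMonoid.exists_irreducible_factor hz hz0
        exact hno π hπ (hπz.trans hzR) (hπz.trans hzT)))
    obtain ⟨π, hπ, hπR, hπT⟩ := h7
    refine (h5 K).1 W hW _ _ c2 π hπ ⟨?_, ?_, ?_⟩
    · rw [← i0]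
      exact Dvd.dvd.mul_right hπR _
    · rw [← i1]
      exact dvd_add (Dvd.dvd.mul_right hπR _) (Dvd.dvd.mul_right hπT _)
    · rw [← i2]
      exact Dvd.dvd.mul_right hπT _
  · refine gn_rp_smul hc ?_
    rw [hι, hι, hR, hT, ← hr, ← ht]
    exact hrt

theorem tGn (h1 : S_Pts) (_h2 : S_Pm) (h3 : S_AS) (h4 : S_Deg) (h5 : S_Prm) : S_Gn := by
  intro K _ W hW
  have b2 := gn_delta (algebraMap K (AlgebraicClosure (RatFunc K))) W hW
  obtain ⟨-, -, a3, -⟩ := h1 _ _ b2
  obtain ⟨y, hy⟩ := gn_root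
    ((W.map (algebraMap K (AlgebraicClosure (RatFunc K)))).a₁ * gnEv K X +
      (W.map (algebraMap K (AlgebraicClosure (RatFunc K)))).a₃)
    ((gnEv K X) ^ 3 +
    (W.map (algebraMap K (AlgebraicClosure (RatFunc K)))).a₂ * (gnEv K X) ^ 2 +
    (W.map (algebraMap K (AlgebraicClosure (RatFunc K)))).a₄ * (gnEv K X) +
    (W.map (algebraMap K (AlgebraicClosure (RatFunc K)))).a₆)
  obtain ⟨P, hP⟩ := a3 (gnEv K X) y (by rw [← hy]; ring)
  have key : ∀ n : ℕ, (IsCoprime (mf W n) (mg W n) ∧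
      Rp (n • P) (gnEv K (mf W n)) (gnEv K (mg W n))) ∧
      (IsCoprime (mf W (n + 1)) (mg W (n + 1)) ∧
      Rp ((n + 1) • P) (gnEv K (mf W (n + 1))) (gnEv K (mg W (n + 1)))) := by
    intro n
    induction n with
    | zero =>
      refine ⟨⟨?_, ?_⟩, ?_, ?_⟩
      · have : mf W 0 = 1 := rfl
        rw [this]
        exact isCoprime_one_left
      · have e1 : mf W 0 = 1 := rfl
        have e2 : mg W 0 = 0 := rfl
        rw [e1, e2, map_one, map_zero, zero_smul]
        exact gn_rp_zero h1 _ b2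
      · have : mg W (0 + 1) = 1 := rfl
        rw [this]
        exact isCoprime_one_right
      · have e1 : mf W (0 + 1) = X := rfl
        have e2 : mg W (0 + 1) = 1 := rfl
        rw [e1, e2, map_one, zero_add, one_smul]
        exact gn_rp_aff h1 _ b2 P _ _ hP
    | succ n ih =>
      obtain ⟨⟨i1, i2⟩, i3, i4⟩ := ih
      obtain ⟨s1, s2, -⟩ := gn_step h1 h3 h4 h5 W hW P y hP n i1 i3 i2 i4
      exact ⟨⟨i3, i4⟩, s1, s2⟩
  intro n
  obtain ⟨⟨i1, i2⟩, i3, i4⟩ := key n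
  obtain ⟨-, -, s3⟩ := gn_step h1 h3 h4 h5 W hW P y hP n i1 i3 i2 i4
  exact ⟨i1, s3⟩

end MP7Sh
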