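import Pool.Agent.Lib.MP_7f581e_Sh.SpecE

/-!
# MP_7f581e_nt, module `Gnb`: reduction of the abscissae of torsion points
-/

set_option autoImplicit false

namespace MP7Sh

open Polynomial WeierstrassCurve

open scoped Classical

private theorem Gnb_eval {R S : Type} [CommRing R] [CommRing S] (φ : R →+* S) (p : R[X]) (x : R) :
    (p.map φ).eval (φ x) = φ (p.eval x) := by
  rw [Polynomial.eval_map, Polynomial.eval₂_at_apply]

/-- The curve over the valuation ring. -/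
private def Gnb_W {F : Type} [Field F] {v : F → ℤ} (h : Ord v) {W : WeierstrassCurve F}
    (hW : It v W) : WeierstrassCurve h.ring :=
  ⟨⟨W.a₁, hW.a1⟩, ⟨W.a₂, hW.a2⟩, ⟨W.a₃, hW.a3⟩, ⟨W.a₄, hW.a4⟩, ⟨W.a₆, hW.a6⟩⟩

private theorem Gnb_W_map {F : Type} [Field F] {v : F → ℤ} (h : Ord v) {W : WeierstrassCurve F}
    (hW : It v W) : (Gnb_W h hW).map h.ring.subtype = W := rfl

section

variable {κ F : Type} [Field κ] [Field F] [Algebra κ F] {v : F → ℤ}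

private theorem Gnb_rs (hv : Kr κ v) (z : hv.ord.ring) (c : κ)
    (h : Ge v 1 ((z : F) - algebraMap κ F c)) : hv.rs z = c :=
  hv.uniq (hv.rs_spec z) h

private theorem Gnb_W_red (hv : Kr κ v) {W : WeierstrassCurve F} (Wb : WeierstrassCurve κ)
    (hW : It v W) (h1 : Ge v 1 (W.a₁ - algebraMap κ F Wb.a₁))
    (h2 : Ge v 1 (W.a₂ - algebraMap κ F Wb.a₂)) (h3 : Ge v 1 (W.a₃ - algebraMap κ F Wb.a₃))
    (h4 : Ge v 1 (W.a₄ - algebraMap κ F Wb.a₄)) (h6 : Ge v 1 (W.a₆ - algebraMap κ F Wb.a₆)) :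
    (Gnb_W hv.ord hW).map hv.rs = Wb := by
  have e1 := Gnb_rs hv ⟨W.a₁, hW.a1⟩ _ h1
  have e2 := Gnb_rs hv ⟨W.a₂, hW.a2⟩ _ h2
  have e3 := Gnb_rs hv ⟨W.a₃, hW.a3⟩ _ h3
  have e4 := Gnb_rs hv ⟨W.a₄, hW.a4⟩ _ h4
  have e6 := Gnb_rs hv ⟨W.a₆, hW.a6⟩ _ h6
  exact WeierstrassCurve.ext e1 e2 e3 e4 e6

end

/-- One of two integral factors of a product of positive valuation has positive valuation. -/
private theorem Gnb_prime {F : Type} [Field F] {v : F → ℤ} (h : Ord v) {a b : F} (ha : Ge v 0 a)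
    (hb : Ge v 0 b) (hab : Ge v 1 (a * b)) : Ge v 1 a ∨ Ge v 1 b := by
  by_cases ha0 : a = 0
  · exact Or.inl (Or.inl ha0)
  by_cases hb0 : b = 0
  · exact Or.inr (Or.inl hb0)
  have h1 := hab.resolve_left (mul_ne_zero ha0 hb0)
  rw [h.mul a b ha0 hb0] at h1
  have h2 := ha.resolve_left ha0
  have h3 := hb.resolve_left hb0
  by_cases h4 : 1 ≤ v a
  · exact Or.inl (Or.inr h4)
  · exact Or.inr (Or.inr (by omega))

theorem tGnb (h1 : S_Pts) (h2 : S_Deg) (h3 : S_Gn) (h4 : S_Mul) (h5 : S_Int) (h6 : S_Red) :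
    S_Gnb := by
  intro κ F _ _ _ v hv W Wb hΔ hW hΔ0 hΔb c1 c2 c3 c4 c6 l hl hlv
  refine ⟨?_, ?_⟩
  · intro n P x y x₁ y₁ xb x1b hP hxy hn hx hx1
    have hx0 : Ge v 0 x := (h5 F v hv.ord W hΔ hW l hlv P x y hP hxy).1
    have hlP : l • (n • P) = 0 := by
      rw [smul_comm, hP, smul_zero]
    have hx10 : Ge v 0 x₁ := (h5 F v hv.ord W hΔ hW l hlv (n • P) x₁ y₁ hlP hn).1
    have hb := Gnb_W_red hv Wb hW c1 c2 c3 c4 c6
    have key : x₁ * (mg W n).eval x = (mf W n).eval x :=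
      (h4 F W hΔ P x y hxy n).2.2 x₁ y₁ hn
    have d1 := (h2.2 hv.ord.ring F hv.ord.ring.subtype (Gnb_W hv.ord hW) n)
    have d2 := (h2.2 hv.ord.ring κ hv.rs (Gnb_W hv.ord hW) n)
    rw [Gnb_W_map] at d1
    rw [hb] at d2
    have e1 : (mg W n).eval x =
        hv.ord.ring.subtype ((mg (Gnb_W hv.ord hW) n).eval (⟨x, hx0⟩ : hv.ord.ring)) := by
      rw [d1.2]
      exact Gnb_eval hv.ord.ring.subtype _ (⟨x, hx0⟩ : hv.ord.ring)
    have e2 : (mf W n).eval x =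
        hv.ord.ring.subtype ((mf (Gnb_W hv.ord hW) n).eval (⟨x, hx0⟩ : hv.ord.ring)) := by
      rw [d1.1]
      exact Gnb_eval hv.ord.ring.subtype _ (⟨x, hx0⟩ : hv.ord.ring)
    have e3 : (⟨x₁, hx10⟩ : hv.ord.ring) * (mg (Gnb_W hv.ord hW) n).eval ⟨x, hx0⟩ =
        (mf (Gnb_W hv.ord hW) n).eval ⟨x, hx0⟩ := by
      apply Subtype.ext
      change x₁ * hv.ord.ring.subtype ((mg (Gnb_W hv.ord hW) n).eval (⟨x, hx0⟩ : hv.ord.ring)) =
        hv.ord.ring.subtype ((mf (Gnb_W hv.ord hW) n).eval (⟨x, hx0⟩ : hv.ord.ring))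
      rw [← e1, ← e2, key]
    have e4 : (mg Wb n).eval xb = hv.rs ((mg (Gnb_W hv.ord hW) n).eval ⟨x, hx0⟩) := by
      rw [d2.2, ← Gnb_rs hv ⟨x, hx0⟩ xb hx]
      exact Gnb_eval hv.rs _ _
    have e5 : (mf Wb n).eval xb = hv.rs ((mf (Gnb_W hv.ord hW) n).eval ⟨x, hx0⟩) := by
      rw [d2.1, ← Gnb_rs hv ⟨x, hx0⟩ xb hx]
      exact Gnb_eval hv.rs _ _
    have e6 : (mf Wb n).eval xb = x1b * (mg Wb n).eval xb := by
      rw [e4, e5, ← e3, map_mul, Gnb_rs hv ⟨x₁, hx10⟩ x1b hx1]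
    refine ⟨e6, fun h0 => ?_⟩
    rw [h0, mul_zero] at e6
    obtain ⟨a, b, hab⟩ := (h3 κ Wb hΔb n).1
    have h7 := congrArg (Polynomial.eval xb) hab
    rw [Polynomial.eval_add, Polynomial.eval_mul, Polynomial.eval_mul, e6, h0, mul_zero, mul_zero,
      add_zero, Polynomial.eval_one] at h7
    exact zero_ne_one h7
  · intro P Q x y x' y' xb hP hQ hxy hxy' hx hx'
    have o := hv.ord
    obtain ⟨hx0, hy0⟩ := h5 F v o W hΔ hW l hlv P x y hP hxy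
    obtain ⟨hx0', hy0'⟩ := h5 F v o W hΔ hW l hlv Q x' y' hQ hxy'
    obtain ⟨-, p2, -, -, p5, -⟩ := h1 F W hΔ
    have eq1 := (p2 P x y hxy).2.2.2
    have eq2 := (p2 Q x' y' hxy').2.2.2
    have hxx : Ge v 1 (x - x') := by
      have h7 := hx.sub o hx'
      rwa [sub_sub_sub_cancel_right] at h7
    have hprod : (y - y') * (y - (-y' - W.a₁ * x' - W.a₃)) =
        (x ^ 2 + x * x' + x' ^ 2 + W.a₂ * (x + x') + W.a₄ - W.a₁ * y) * (x - x') := by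
      linear_combination eq1 - eq2
    have hint : Ge v 0 (x ^ 2 + x * x' + x' ^ 2 + W.a₂ * (x + x') + W.a₄ - W.a₁ * y) := by
      refine Ge.sub o (Ge.add o (Ge.add o (Ge.add o (Ge.add o (hx0.pow0 o 2)
        (hx0.mul_left o hx0')) (hx0'.pow0 o 2)) (hW.a2.mul_left o (hx0.add o hx0'))) hW.a4)
        (hW.a1.mul_left o hy0)
    have hp : Ge v 1 ((y - y') * (y - (-y' - W.a₁ * x' - W.a₃))) := by
      rw [hprod]
      exact hint.mul_left o hxx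
    have hy1 : Ge v 0 (y - y') := hy0.sub o hy0'
    have hy2 : Ge v 0 (y - (-y' - W.a₁ * x' - W.a₃)) :=
      hy0.sub o (((hy0'.neg o).sub o (hW.a1.mul_left o hx0')).sub o hW.a3)
    rcases Gnb_prime o hy1 hy2 hp with h7 | h7
    · exact Or.inl (h6 F v o W hΔ hW l hl hlv P Q x y x' y' hP hQ hxy hxy' hxx h7 (Or.inl hΔ0))
    · refine Or.inr (h6 F v o W hΔ hW l hl hlv P (-Q) x y x' _ hP ?_ hxy (p5 Q x' y' hxy') hxx h7
        (Or.inl hΔ0))
      rw [smul_neg, hQ, neg_zero]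

end MP7Sh
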