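import Pool.Agent.Lib.MP_7f581e_Sh.SpecG

/-!
# MP_7f581e_nt, GA realizations of `PSL(2, l)`: `S_Gom`
-/

set_option autoImplicit false

namespace MP7Sh

open Polynomial WeierstrassCurve

open scoped Classical

private theorem Gom_map (N : ℕ) {L M : Type} [Field L] [Field M] (f : L →+* M) (t : L) :
    (Ec N t).map f = Ec N (f t) := by
  unfold Ec
  split
  · ext <;> simp [WeierstrassCurve.map]
  · ext <;> simp [WeierstrassCurve.map]

private theorem Gom_c0 (N : ℕ) {L M : Type} [Field L] [Field M] (f : L →+* M) :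
    f (c0 N L) = c0 N M := by
  unfold c0
  split <;> rw [map_inv₀, map_ofNat]

/-- Compatibility of the matrices. -/
private theorem Gom_isM {l : ℕ} {F Ω : Type} [Field F] [Field Ω] {W₁ : WeierstrassCurve F}
    {W : WeierstrassCurve Ω} (e : Tl l W ≃+ (Fin 2 → ZMod l)) (ε : Tl l W₁ ≃+ Tl l W)
    (ι : W₁.toAffine.Point → W.toAffine.Point)
    (hε : ∀ P : Tl l W₁, (ε P : W.toAffine.Point) = ι P) (hι : ∀ P Q, ι P = ι Q → P = Q)
    (A : W.toAffine.Point → W.toAffine.Point) (A₁ : W₁.toAffine.Point → W₁.toAffine.Point)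
    (hA : ∀ P : W₁.toAffine.Point, ι (A₁ P) = A (ι P))
    (M : Matrix (Fin 2) (Fin 2) (ZMod l)) : IsM e A M ↔ IsM (ε.trans e) A₁ M := by
  have h1 : ∀ v : Tl l W₁, ((e.symm (M.mulVec (e (ε v))) : Tl l W) : W.toAffine.Point) =
      ι (((ε.trans e).symm (M.mulVec ((ε.trans e) v)) : Tl l W₁) : W₁.toAffine.Point) := by
    intro v
    rw [← hε, AddEquiv.trans_apply, AddEquiv.symm_trans_apply, AddEquiv.apply_symm_apply]
  constructor
  · intro h v
    apply hι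
    rw [hA, ← hε, h (ε v), h1]
  · intro h v
    obtain ⟨v₁, rfl⟩ := ε.surjective v
    rw [hε, ← hA, h v₁, h1]

/-- The points of order `l` over the smaller field. -/
private theorem Gom_eps (h1 : S_Pts) (h2 : S_Pm) (l : ℕ) {F Ω : Type} [Field F] [Field Ω]
    (i : F →+* Ω) (W₁ : WeierstrassCurve F) (W : WeierstrassCurve Ω)
    (hW : W = W₁.map i) (hΔ₁ : W₁.Δ ≠ 0)
    (hZ : ∀ P : Tl l W, (∃ x, i x = px (P : W.toAffine.Point)) ∧
      ∃ y, i y = py (P : W.toAffine.Point)) :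
    (∀ P Q : W₁.toAffine.Point, pm W₁ W i P = pm W₁ W i Q → P = Q) ∧
    ∃ ε : Tl l W₁ ≃+ Tl l W, ∀ P : Tl l W₁, (ε P : W.toAffine.Point) = pm W₁ W i P := by
  have hΔ : W.Δ ≠ 0 := by
    rw [hW, WeierstrassCurve.map_Δ]
    exact (_root_.map_ne_zero _).2 hΔ₁
  obtain ⟨q1, q2, q3, q4, q5, q6, q7, -⟩ := h2 F Ω i W₁ W hΔ₁ hW
  obtain ⟨p1, p2', -⟩ := h1 Ω W hΔ
  refine ⟨q5, ?_⟩
  have hmem : ∀ P : Tl l W₁, pm W₁ W i P ∈ Tl l W := by
    intro P
    have h5 : l • (P : W₁.toAffine.Point) = 0 := P.2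
    change l • pm W₁ W i P = 0
    rw [← q7, h5, q1]
  let f : Tl l W₁ →+ Tl l W := AddMonoidHom.mk' (fun P => ⟨pm W₁ W i P, hmem P⟩)
    fun P Q => Subtype.ext (q3 P Q)
  have hf : Function.Bijective f := by
    constructor
    · intro P Q h
      exact Subtype.ext (q5 P Q (congrArg Subtype.val h))
    · intro Q
      obtain h5 | ⟨x, y, h5⟩ := p1 (Q : W.toAffine.Point)
      · refine ⟨0, Subtype.ext ?_⟩
        rw [map_zero, h5]
        rfl
      · obtain ⟨⟨x₁, hx⟩, ⟨y₁, hy⟩⟩ := hZ Q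
        obtain ⟨-, h6, h7, -⟩ := p2' _ x y h5
        rw [h6] at hx
        rw [h7] at hy
        obtain ⟨P, -, hP⟩ := q6 (Q : W.toAffine.Point) x₁ y₁ (by rw [hx, hy]; exact h5)
        have hlP : l • P = 0 := by
          apply q5
          have h8 : l • (Q : W.toAffine.Point) = 0 := Q.2
          rw [q7, hP, h8, q1]
        exact ⟨⟨P, hlP⟩, Subtype.ext hP⟩
  exact ⟨AddEquiv.ofBijective f hf, fun P => rfl⟩

theorem tGom (h1 : S_Pts) (h2 : S_Pm) (h3 : S_Lin) (h4 : S_Brg) (h5 : S_Unx) (h6 : S_Irr)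
    (h7 : S_GrA) (h8 : S_Dsq) (h9 : S_Br2) (h10 : S_Br3) (h11 : S_PsW) (h12 : S_Iso) :
    S_Gom := by
  intro l N _ κ Ω _ _ _ _ _ T θ e hN hθ hT hsep
  have hNN := hN.nn
  have hT0 : T ≠ 0 := by
    rintro rfl
    exact hT isAlgebraic_zero
  have hc0 : c0 N κ ≠ 0 := by
    unfold c0
    rcases hNN with h | h
    · rw [if_pos h]
      have h2' : (2 : κ) ≠ 0 := by
        have := hN.nk
        rw [h] at this
        exact_mod_cast this
      apply inv_ne_zero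
      have h4' : (4 : κ) = 2 * 2 := by norm_num
      rw [h4']
      exact mul_ne_zero h2' h2'
    · rw [if_neg (by omega)]
      have h3' : (3 : κ) ≠ 0 := by
        have := hN.nk
        rw [h] at this
        exact_mod_cast this
      apply inv_ne_zero
      have h27 : (27 : κ) = 3 * 3 * 3 := by norm_num
      rw [h27]
      exact mul_ne_zero (mul_ne_zero h3' h3') h3'
  have hcT : c0 N Ω - T ≠ 0 := by
    intro h
    have h' : T = algebraMap κ Ω (c0 N κ) := by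
      rw [Gom_c0]
      exact (sub_eq_zero.1 h).symm
    exact hT (h' ▸ isAlgebraic_algebraMap (c0 N κ))
  have hkk : ((kk N : ℕ) : Ω) ≠ 0 := by
    have hinj := (algebraMap κ Ω).injective
    rw [← map_natCast (algebraMap κ Ω), Ne, map_eq_zero]
    unfold kk
    rcases hNN with h | h
    · rw [if_pos h]
      have := hN.nk
      rw [h] at this
      have h4' : ((4 : ℕ) : κ) = ((2 : ℕ) : κ) * ((2 : ℕ) : κ) := by norm_num
      rw [h4']
      exact mul_ne_zero this this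
    · rw [if_neg (by omega)]
      have := hN.nk
      rw [h] at this
      exact this
  have hnz : NeZero ((kk N : ℕ) : Ω) := ⟨hkk⟩
  obtain ⟨r, hr⟩ := IsSepClosed.exists_pow_nat_eq (T⁻¹ : Ω) (kk N)
  have hrT : r ^ kk N * T = 1 := by rw [hr, inv_mul_cancel₀ hT0]
  -- the field
  have hfin : Finite (Tl l (Ec N T)) := Finite.of_equiv _ e.symm.toEquiv
  obtain ⟨Z, hZ⟩ : ∃ Z : Set Ω, Z = insert r ((Set.range fun P : Tl l (Ec N T) =>
      px (P : (Ec N T).toAffine.Point)) ∪ Set.range fun P : Tl l (Ec N T) =>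
      py (P : (Ec N T).toAffine.Point)) := ⟨_, rfl⟩
  have hZf : Z.Finite := by
    rw [hZ]
    exact ((Set.finite_range _).union (Set.finite_range _)).insert r
  obtain ⟨F, T₁, hT₁, hZF, hGs, hGT, hlift, hres⟩ := h4 κ Ω T (c0 N κ) hc0 hT hsep Z hZf
  have hrF : r ∈ F := hZF (by rw [hZ]; exact Set.mem_insert _ _)
  have hxy : ∀ P : Tl l (Ec N T), px (P : (Ec N T).toAffine.Point) ∈ F ∧
      py (P : (Ec N T).toAffine.Point) ∈ F := by
    intro P
    constructor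
    · apply hZF
      rw [hZ]
      exact Set.mem_insert_of_mem _ (Or.inl ⟨P, rfl⟩)
    · apply hZF
      rw [hZ]
      exact Set.mem_insert_of_mem _ (Or.inr ⟨P, rfl⟩)
  have hr1 : (⟨r, hrF⟩ : F) ^ kk N * T₁ = 1 := by
    apply Subtype.ext
    change r ^ kk N * (T₁ : Ω) = 1
    rw [hT₁, hrT]
  have hal : ∀ z : F, algebraMap F Ω z = (z : Ω) := fun z => rfl
  have hcF : algebraMap κ F (c0 N κ) = c0 N F := Gom_c0 N _
  have hcΩ : algebraMap F Ω (c0 N F) = c0 N Ω := Gom_c0 N _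
  have hT₁0 : T₁ ≠ 0 := by
    rintro rfl
    exact hT0 hT₁.symm
  have hcT₁ : c0 N F - T₁ ≠ 0 := by
    intro h
    have h' := congrArg (algebraMap F Ω) h
    rw [map_sub, hcΩ, hal, hT₁, map_zero] at h'
    exact hcT h'
  have hNF : (N : F) ≠ 0 := by
    rw [← map_natCast (algebraMap κ F), Ne, map_eq_zero]
    exact hN.nk
  have hNΩ : (N : Ω) ≠ 0 := by
    rw [← map_natCast (algebraMap κ Ω), Ne, map_eq_zero]
    exact hN.nk
  have hθF : Rt N (algebraMap κ F θ) := by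
    unfold Rt at hθ ⊢
    split_ifs at hθ ⊢ with hN2
    · rw [← map_pow, hθ, map_neg, map_ofNat]
    · rw [← map_pow, ← map_add, ← map_one (algebraMap κ F), ← map_add, hθ, map_zero]
  have hΔ₁ : (Ec N T₁).Δ ≠ 0 :=
    (h11 N F (algebraMap κ F θ) T₁ _ hNN hNF hθF (add_sub_cancel _ _) hT₁0 hcT₁).1
  have hW : Ec N T = (Ec N T₁).map (algebraMap F Ω) := by
    rw [Gom_map, hal, hT₁]
  obtain ⟨hinj, ε, hε⟩ := Gom_eps h1 h2 l (algebraMap F Ω) (Ec N T₁) (Ec N T) hW hΔ₁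
    fun P => ⟨⟨⟨_, (hxy P).1⟩, rfl⟩, ⟨⟨_, (hxy P).2⟩, rfl⟩⟩
  obtain ⟨l1, l2, -, l4⟩ := h3 l F (Ec N T₁) hΔ₁ (ε.trans e)
  -- fixed elements
  have hsT : ∀ σ : F ≃ₐ[κ] F, σ T₁ = T₁ →
      σ (T₁ ^ 2 - algebraMap κ F (c0 N κ) * T₁) = T₁ ^ 2 - algebraMap κ F (c0 N κ) * T₁ := by
    intro σ hσ
    rw [map_sub, map_mul, map_pow, AlgEquiv.commutes, hσ]
  -- compatibility of the maps
  have hpm : ∀ (τ : Ω ≃ₐ[κ] Ω) (σ : F ≃ₐ[κ] F), (∀ y : F, τ y = (σ y : Ω)) → σ T₁ = T₁ →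
      ∀ P : (Ec N T₁).toAffine.Point,
        pm (Ec N T₁) (Ec N T) (algebraMap F Ω) (pm (Ec N T₁) (Ec N T₁) σ P) =
          pm (Ec N T) (Ec N T) τ (pm (Ec N T₁) (Ec N T) (algebraMap F Ω) P) := by
    intro τ σ hτσ hσ P
    have hτT : τ T = T := by rw [← hT₁, hτσ, hσ]
    have e1 := (h2 F F (σ : F →+* F) (Ec N T₁) (Ec N T₁) hΔ₁ (by
      rw [Gom_map]
      exact congrArg (Ec N) hσ.symm)).2.2.2.2.2.2.2.2 Ω (algebraMap F Ω) (Ec N T) hW P
    have e2 := (h2 F Ω (algebraMap F Ω) (Ec N T₁) (Ec N T) hΔ₁ hW).2.2.2.2.2.2.2.2 Ω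
      (τ : Ω →+* Ω) (Ec N T) (by
        rw [Gom_map]
        exact congrArg (Ec N) hτT.symm) P
    have e3 : (fun x : F => algebraMap F Ω ((σ : F →+* F) x)) =
        fun x : F => (τ : Ω →+* Ω) (algebraMap F Ω x) := by
      funext x
      exact (hτσ x).symm
    rw [e3] at e1
    exact e1.trans e2.symm
  have hM : ∀ (τ : Ω ≃ₐ[κ] Ω) (σ : F ≃ₐ[κ] F), (∀ y : F, τ y = (σ y : Ω)) → σ T₁ = T₁ →
      ∀ M : Matrix (Fin 2) (Fin 2) (ZMod l), IsM e (pm (Ec N T) (Ec N T) τ) M ↔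
        IsM (ε.trans e) (pm (Ec N T₁) (Ec N T₁) σ) M := by
    intro τ σ hτσ hσ M
    exact Gom_isM e ε _ hε hinj _ _ (hpm τ σ hτσ hσ) M
  refine ⟨?_, ?_, ?_⟩
  · -- the matrices of determinant one
    intro M hdet
    obtain ⟨R, hR⟩ := l4 κ T₁ (by
      intro σ hσ
      rw [Gom_map]
      exact congrArg (Ec N) hσ)
    obtain ⟨σ, U, hσ, hU, hU1, hU2⟩ := h5 l N κ F T₁ ⟨r, hrF⟩ (ε.trans e) hN hGT hr1
    have hRU : (R ⟨σ, hσ⟩).1 = U := l2 _ _ _ (hR ⟨σ, hσ⟩) hU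
    obtain ⟨g, hg⟩ : ∃ g : GL (Fin 2) (ZMod l), g.1 = M :=
      (Matrix.isUnit_iff_isUnit_det _).2 (by rw [hdet]; exact isUnit_one)
    have hgR : g ∈ R.range := by
      refine h7 l R.range (R ⟨σ, hσ⟩) ⟨_, rfl⟩ (by rw [hRU]; exact hU1) (by rw [hRU]; exact hU2)
        ?_ g (by rw [hg]; exact hdet)
      intro w hw
      have hP0 : (ε.trans e).symm w ≠ 0 := by
        rw [Ne, AddEquiv.map_eq_zero_iff]
        exact hw
      obtain ⟨σ', hσ', hn⟩ := h6 l N κ F T₁ ⟨r, hrF⟩ (ε.trans e) hN hGT hr1 _ hP0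
      refine ⟨R ⟨σ', hσ'⟩, ⟨_, rfl⟩, fun a ha => ?_⟩
      apply hn a.val
      have h13 := hR ⟨σ', hσ'⟩ ((ε.trans e).symm w)
      rw [AddEquiv.apply_symm_apply, ha] at h13
      refine h13.trans ?_
      rw [← map_nsmul]
      congr 2
      funext i
      rw [Pi.smul_apply, Pi.smul_apply, smul_eq_mul, nsmul_eq_mul, ZMod.natCast_zmod_val]
    obtain ⟨σ', hσ'⟩ := hgR
    obtain ⟨τ, hτ⟩ := hlift (σ' : F ≃ₐ[κ] F) (hsT _ σ'.2)
    have hτT : τ T = T := by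
      have h13 : (σ' : F ≃ₐ[κ] F) T₁ = T₁ := σ'.2
      rw [← hT₁, hτ, h13]
    refine ⟨τ, hτT, (hM τ σ' hτ σ'.2 M).2 ?_⟩
    have h13 := hR σ'
    rw [hσ', hg] at h13
    exact h13
  · intro τ hτ M hMM
    obtain ⟨σ, hσ⟩ := hres τ (by rw [map_sub, map_mul, map_pow, AlgEquiv.commutes, hτ])
    have hσT : σ T₁ = T₁ := Subtype.ext (by rw [← hσ, hT₁, hτ])
    exact h8 l N κ F T₁ ⟨r, hrF⟩ (ε.trans e) hN hGT hr1 σ hσT M ((hM τ σ hσ hσT M).1 hMM)
  · -- an element which exchanges `T` and `T'`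
    have hbr : ∃ σ : F ≃ₐ[κ] F, σ T₁ = c0 N F - T₁ ∧
        ∀ M : Matrix (Fin 2) (Fin 2) (ZMod l),
          IsM (ε.trans e) (gg N (algebraMap κ F θ) T₁ (c0 N F - T₁) σ) M → M.det = N := by
      have hGs' : Gx κ (T₁ ^ 2 - c0 N F * T₁) := by
        rw [← hcF]
        exact hGs
      rcases hNN with h | h
      · subst h
        obtain ⟨σ, hσ, hdet⟩ := h9 l κ F T₁ θ (ε.trans e) hN hθ hGs'
        refine ⟨σ, hσ, fun M hMM => ?_⟩
        rw [hdet M hMM, Nat.cast_ofNat]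
      · subst h
        obtain ⟨σ, hσ, hdet⟩ := h10 l κ F T₁ ⟨r, hrF⟩ θ (ε.trans e) hN hθ hGs' hr1
        refine ⟨σ, hσ, fun M hMM => ?_⟩
        rw [hdet M hMM, Nat.cast_ofNat]
    obtain ⟨σ, hσ, hdet⟩ := hbr
    obtain ⟨τ, hτ⟩ := hlift σ (by
      rw [map_sub, map_mul, map_pow, AlgEquiv.commutes, hσ, hcF]
      ring)
    have hτT : τ T = c0 N Ω - T := by
      rw [← hT₁, hτ, hσ, ← hcΩ]
      rfl
    refine ⟨τ, hτT, fun M hMM => hdet M ?_⟩
    refine (Gom_isM e ε _ hε hinj _ _ ?_ M).1 hMM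
    intro P
    -- the isogeny
    have hiso := (h12 N F (algebraMap κ F θ) (c0 N F - T₁) T₁ hNN hNF hθF (sub_add_cancel _ _)
      hcT₁ hT₁0).2.2.2.2.2 Ω (algebraMap F Ω)
    have hiso' : ∀ (u u' θ' : Ω), algebraMap F Ω (c0 N F - T₁) = u → algebraMap F Ω T₁ = u' →
        algebraMap F Ω (algebraMap κ F θ) = θ' →
        ∀ P : (Ec N (c0 N F - T₁)).toAffine.Point,
          pm (Ec N T₁) (Ec N u') (algebraMap F Ω) (ps N (algebraMap κ F θ) (c0 N F - T₁) T₁ P) =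
            ps N θ' u u' (pm (Ec N (c0 N F - T₁)) (Ec N u) (algebraMap F Ω) P) := by
      intro u u' θ' hu hu' hθ' P
      subst hu hu' hθ'
      exact hiso P
    have hcT₁' : algebraMap F Ω (c0 N F - T₁) = c0 N Ω - T := by
      rw [map_sub, hcΩ, hal, hT₁]
    have hΔ₂ : (Ec N (c0 N F - T₁)).Δ ≠ 0 :=
      (h11 N F (algebraMap κ F θ) _ T₁ hNN hNF hθF (sub_add_cancel _ _) hcT₁ hT₁0).1
    change pm (Ec N T₁) (Ec N T) (algebraMap F Ω) (ps N (algebraMap κ F θ) (c0 N F - T₁) T₁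
      (pm (Ec N T₁) (Ec N (c0 N F - T₁)) σ P)) =
        ps N (algebraMap κ Ω θ) (c0 N Ω - T) T (pm (Ec N T) (Ec N (c0 N Ω - T)) τ
          (pm (Ec N T₁) (Ec N T) (algebraMap F Ω) P))
    rw [hiso' (c0 N Ω - T) T (algebraMap κ Ω θ) hcT₁' (by rw [hal, hT₁]) rfl]
    congr 1
    have e1 := (h2 F F (σ : F →+* F) (Ec N T₁) (Ec N (c0 N F - T₁)) hΔ₁ (by
      rw [Gom_map]
      exact congrArg (Ec N) hσ.symm)).2.2.2.2.2.2.2.2 Ω (algebraMap F Ω) (Ec N (c0 N Ω - T)) (by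
        rw [Gom_map, hcT₁']) P
    have e2 := (h2 F Ω (algebraMap F Ω) (Ec N T₁) (Ec N T) hΔ₁ hW).2.2.2.2.2.2.2.2 Ω
      (τ : Ω →+* Ω) (Ec N (c0 N Ω - T)) (by
        rw [Gom_map]
        exact congrArg (Ec N) hτT.symm) P
    have e3 : (fun x : F => algebraMap F Ω ((σ : F →+* F) x)) =
        fun x : F => (τ : Ω →+* Ω) (algebraMap F Ω x) := by
      funext x
      exact (hτ x).symm
    rw [e3] at e1
    exact e1.trans e2.symm

end MP7Sh
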