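import Pool.Agent.Lib.MP_7f581e_Sh.SpecG

set_option autoImplicit false

namespace MP7Sh

open Polynomial WeierstrassCurve

open scoped Classical

section

variable {F : Type} [Field F]

/-- conjugates of unipotent matrices -/
private theorem GrA_conj_sub (g u : GL (Fin 2) F) :
    (g * u * g⁻¹).1 - 1 = g.1 * (u.1 - 1) * (g⁻¹).1 := by
  have h : g.1 * (g⁻¹).1 = 1 := Units.mul_inv g
  show g.1 * u.1 * (g⁻¹).1 - 1 = _
  rw [Matrix.mul_sub, Matrix.sub_mul, Matrix.mul_one, h]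

private theorem GrA_conj_sq (g u : GL (Fin 2) F) (hu : (u.1 - 1) * (u.1 - 1) = 0) :
    ((g * u * g⁻¹).1 - 1) * ((g * u * g⁻¹).1 - 1) = 0 := by
  have h : (g⁻¹).1 * g.1 = 1 := Units.inv_mul g
  rw [GrA_conj_sub]
  calc g.1 * (u.1 - 1) * (g⁻¹).1 * (g.1 * (u.1 - 1) * (g⁻¹).1)
      = g.1 * (u.1 - 1) * ((g⁻¹).1 * g.1) * ((u.1 - 1) * (g⁻¹).1) := by
        simp only [Matrix.mul_assoc]
    _ = g.1 * ((u.1 - 1) * (u.1 - 1)) * (g⁻¹).1 := by
        rw [h, Matrix.mul_one]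
        simp only [Matrix.mul_assoc]
    _ = 0 := by rw [hu, Matrix.mul_zero, Matrix.zero_mul]

private theorem GrA_conj_ne (g u : GL (Fin 2) F) (hu : u.1 ≠ 1) : (g * u * g⁻¹).1 ≠ 1 := by
  intro h
  have h1 : g * u * g⁻¹ = 1 := Units.ext h
  have h2 : u = 1 := by
    calc u = g⁻¹ * (g * u * g⁻¹) * g := by group
      _ = 1 := by rw [h1]; group
  exact hu (by rw [h2]; rfl)

private theorem GrA_upper (Q : Matrix (Fin 2) (Fin 2) F) (hQ : (Q - 1) * (Q - 1) = 0)
    (h : Q.mulVec ![1, 0] = ![1, 0]) : Q = !![1, Q 0 1; 0, 1] := by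
  have h0 := congrFun h 0
  have h1 := congrFun h 1
  simp [Matrix.mulVec, dotProduct, Fin.sum_univ_two] at h0 h1
  have h2 := congrFun (congrFun hQ 1) 1
  rw [Matrix.mul_apply, Fin.sum_univ_two] at h2
  simp [h1] at h2
  have h3 : Q 1 1 = 1 := by
    have := sub_eq_zero.1 h2
    exact this
  ext i j
  fin_cases i <;> fin_cases j
  · exact h0
  · rfl
  · exact h1
  · exact h3

private theorem GrA_lower (Q : Matrix (Fin 2) (Fin 2) F) (hQ : (Q - 1) * (Q - 1) = 0)
    (h : Q.mulVec ![0, 1] = ![0, 1]) : Q = !![1, 0; Q 1 0, 1] := by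
  have h0 := congrFun h 0
  have h1 := congrFun h 1
  simp [Matrix.mulVec, dotProduct, Fin.sum_univ_two] at h0 h1
  have h2 := congrFun (congrFun hQ 0) 0
  rw [Matrix.mul_apply, Fin.sum_univ_two] at h2
  simp [h0] at h2
  have h3 : Q 0 0 = 1 := by
    have := sub_eq_zero.1 h2
    exact this
  ext i j
  fin_cases i <;> fin_cases j
  · exact h3
  · exact h0
  · rfl
  · exact h1

private def GrA_U (x : F) : GL (Fin 2) F :=
  ⟨!![1, x; 0, 1], !![1, -x; 0, 1], by
    rw [Matrix.mul_fin_two, Matrix.one_fin_two]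
    simp, by
    rw [Matrix.mul_fin_two, Matrix.one_fin_two]
    simp⟩

private def GrA_L (x : F) : GL (Fin 2) F :=
  ⟨!![1, 0; x, 1], !![1, 0; -x, 1], by
    rw [Matrix.mul_fin_two, Matrix.one_fin_two]
    simp, by
    rw [Matrix.mul_fin_two, Matrix.one_fin_two]
    simp⟩

private theorem GrA_Unsmul (x : F) (n : ℕ) : GrA_U x ^ n = GrA_U ((n : F) * x) := by
  induction n with
  | zero =>
    rw [pow_zero]
    apply Units.ext
    show (1 : Matrix (Fin 2) (Fin 2) F) = !![1, ((0 : ℕ) : F) * x; 0, 1]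
    rw [Matrix.one_fin_two]
    simp
  | succ n ih =>
    rw [pow_succ, ih]
    apply Units.ext
    show !![1, (n : F) * x; 0, 1] * !![1, x; 0, 1] = !![1, ((n + 1 : ℕ) : F) * x; 0, 1]
    rw [Matrix.mul_fin_two]
    push_cast
    congr 1
    ext i j
    fin_cases i <;> fin_cases j <;> simp
    ring

private theorem GrA_Lnsmul (x : F) (n : ℕ) : GrA_L x ^ n = GrA_L ((n : F) * x) := by
  induction n with
  | zero =>
    rw [pow_zero]
    apply Units.ext
    show (1 : Matrix (Fin 2) (Fin 2) F) = !![1, 0; ((0 : ℕ) : F) * x, 1]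
    rw [Matrix.one_fin_two]
    simp
  | succ n ih =>
    rw [pow_succ, ih]
    apply Units.ext
    show !![1, 0; (n : F) * x, 1] * !![1, 0; x, 1] = !![1, 0; ((n + 1 : ℕ) : F) * x, 1]
    rw [Matrix.mul_fin_two]
    push_cast
    congr 1
    ext i j
    fin_cases i <;> fin_cases j <;> simp
    ring

private theorem GrA_gen (H : Subgroup (GL (Fin 2) F)) (hU : ∀ x, GrA_U x ∈ H)
    (hL : ∀ x, GrA_L x ∈ H) (g : GL (Fin 2) F) (hg : g.1.det = 1) : g ∈ H := by
  have key : ∀ g : GL (Fin 2) F, g.1.det = 1 → g.1 1 0 ≠ 0 → g ∈ H := by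
    intro g hg hc
    have e : g = GrA_U ((g.1 0 0 - 1) / g.1 1 0) * GrA_L (g.1 1 0) *
        GrA_U ((g.1 1 1 - 1) / g.1 1 0) := by
      apply Units.ext
      show g.1 = !![1, (g.1 0 0 - 1) / g.1 1 0; 0, 1] * !![1, 0; g.1 1 0, 1] *
        !![1, (g.1 1 1 - 1) / g.1 1 0; 0, 1]
      rw [Matrix.det_fin_two] at hg
      rw [Matrix.mul_fin_two, Matrix.mul_fin_two]
      ext i j
      fin_cases i <;> fin_cases j
      · simp
        field_simp
        ring
      · simp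
        field_simp
        linear_combination -hg
      · simp
      · simp
        field_simp
        ring
    rw [e]
    exact mul_mem (mul_mem (hU _) (hL _)) (hU _)
  by_cases hc : g.1 1 0 = 0
  · have h1 : GrA_L 1 * g ∈ H := by
      have hm : (GrA_L (1 : F) * g).1 = !![1, 0; 1, 1] * g.1 := rfl
      refine key _ ?_ ?_
      · rw [hm, Matrix.det_mul, hg, Matrix.det_fin_two_of]
        ring
      · rw [hm, Matrix.mul_apply, Fin.sum_univ_two, hc]
        simp
        intro h0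
        rw [Matrix.det_fin_two, h0, hc] at hg
        simp at hg
    have h2 : g = (GrA_L 1)⁻¹ * (GrA_L 1 * g) := by group
    rw [h2]
    exact mul_mem (inv_mem (hL 1)) h1
  · exact key g hg hc

end

theorem tGrA : S_GrA := by
  intro l _ H u hu hu1 huu hirr g hg
  -- a fixed vector of `u`
  have hw1 : ∃ w₁ : Fin 2 → ZMod l, (u.1 - 1).mulVec w₁ ≠ 0 := by
    by_contra hcon
    refine hu1 (sub_eq_zero.1 ?_)
    have h : ∀ w₁ : Fin 2 → ZMod l, (u.1 - 1).mulVec w₁ = 0 := fun w₁ => by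
      by_contra h'
      exact hcon ⟨w₁, h'⟩
    ext i j
    have h2 := congrFun (h (Pi.single j 1)) i
    rw [Matrix.mulVec_single_one] at h2
    exact h2
  obtain ⟨w₁, hw₁⟩ := hw1
  obtain ⟨w, hw⟩ : ∃ w, w = (u.1 - 1).mulVec w₁ := ⟨_, rfl⟩
  rw [← hw] at hw₁
  have huw : u.1.mulVec w = w := by
    have h : (u.1 - 1).mulVec w = 0 := by
      rw [hw, Matrix.mulVec_mulVec, huu, Matrix.zero_mulVec]
    rw [Matrix.sub_mulVec, Matrix.one_mulVec] at h
    exact sub_eq_zero.1 h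
  obtain ⟨h, hh, hhw⟩ := hirr w hw₁
  obtain ⟨z, hz⟩ : ∃ z, z = h.1.mulVec w := ⟨_, rfl⟩
  rw [← hz] at hhw
  -- the basis
  have hdet : (!![w 0, z 0; w 1, z 1] : Matrix (Fin 2) (Fin 2) (ZMod l)).det ≠ 0 := by
    rw [Matrix.det_fin_two_of]
    intro h0
    by_cases hw0 : w 0 = 0
    · have hw1 : w 1 ≠ 0 := by
        intro hw1
        refine hw₁ ?_
        ext i
        fin_cases i
        · exact hw0
        · exact hw1
      refine hhw (z 1 / w 1) ?_
      ext i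
      rw [Pi.smul_apply, smul_eq_mul]
      fin_cases i
      · rw [hw0] at h0
        have hz0 : z 0 = 0 := by
          have h1 : z 0 * w 1 = 0 := by linear_combination -h0
          exact (mul_eq_zero.1 h1).resolve_right hw1
        show z 0 = z 1 / w 1 * w 0
        rw [hz0, hw0, mul_zero]
      · show z 1 = z 1 / w 1 * w 1
        field_simp
    · refine hhw (z 0 / w 0) ?_
      ext i
      rw [Pi.smul_apply, smul_eq_mul]
      fin_cases i
      · show z 0 = z 0 / w 0 * w 0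
        field_simp
      · show z 1 = z 0 / w 0 * w 1
        field_simp
        linear_combination h0
  obtain ⟨P, hP⟩ : ∃ P : GL (Fin 2) (ZMod l), P.1 = !![w 0, z 0; w 1, z 1] :=
    ⟨Matrix.GeneralLinearGroup.mkOfDetNeZero _ hdet, rfl⟩
  have hP0 : P.1.mulVec ![1, 0] = w := by
    rw [hP]
    ext i
    fin_cases i <;> simp [Matrix.mulVec, dotProduct, Fin.sum_univ_two]
  have hP1 : P.1.mulVec ![0, 1] = z := by
    rw [hP]
    ext i
    fin_cases i <;> simp [Matrix.mulVec, dotProduct, Fin.sum_univ_two]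
  have hPi : ∀ v x : Fin 2 → ZMod l, P.1.mulVec x = v → (P⁻¹).1.mulVec v = x := by
    intro v x hx
    have h1 : (P⁻¹).1 * P.1 = 1 := Units.inv_mul P
    rw [← hx, Matrix.mulVec_mulVec, h1, Matrix.one_mulVec]
  -- the conjugate subgroup
  obtain ⟨H', hH'⟩ : ∃ H' : Subgroup (GL (Fin 2) (ZMod l)),
    H' = H.comap (MulAut.conj P).toMonoidHom := ⟨_, rfl⟩
  have hmem : ∀ x, x ∈ H' ↔ P * x * P⁻¹ ∈ H := by
    intro x
    rw [hH']
    exact Iff.rfl
  -- the two unipotent elements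
  have hQu : P⁻¹ * u * P ∈ H' := by
    rw [hmem]
    have e : P * (P⁻¹ * u * P) * P⁻¹ = u := by group
    rw [e]
    exact hu
  obtain ⟨v, hv⟩ : ∃ v : GL (Fin 2) (ZMod l), v = h * u * h⁻¹ := ⟨_, rfl⟩
  have hvH : v ∈ H := by
    rw [hv]
    exact mul_mem (mul_mem hh hu) (inv_mem hh)
  have hQv : P⁻¹ * v * P ∈ H' := by
    rw [hmem]
    have e : P * (P⁻¹ * v * P) * P⁻¹ = v := by group
    rw [e]
    exact hvH
  have hvz : v.1.mulVec z = z := by
    have e : v.1 = h.1 * u.1 * (h⁻¹).1 := by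
      rw [hv]
      rfl
    have h1 : (h⁻¹).1 * h.1 = 1 := Units.inv_mul h
    rw [e, hz, Matrix.mulVec_mulVec, Matrix.mul_assoc, h1, Matrix.mul_one,
      ← Matrix.mulVec_mulVec, huw]
  have huu' : ((P⁻¹ * u * P).1 - 1) * ((P⁻¹ * u * P).1 - 1) = 0 := by
    have := GrA_conj_sq P⁻¹ u huu
    rwa [inv_inv] at this
  have hvv' : ((P⁻¹ * v * P).1 - 1) * ((P⁻¹ * v * P).1 - 1) = 0 := by
    have := GrA_conj_sq P⁻¹ v (by
      rw [hv]
      exact GrA_conj_sq h u huu)
    rwa [inv_inv] at this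
  have hune : (P⁻¹ * u * P).1 ≠ 1 := by
    have := GrA_conj_ne P⁻¹ u hu1
    rwa [inv_inv] at this
  have hvne : (P⁻¹ * v * P).1 ≠ 1 := by
    have := GrA_conj_ne P⁻¹ v (by
      rw [hv]
      exact GrA_conj_ne h u hu1)
    rwa [inv_inv] at this
  have hufix : (P⁻¹ * u * P).1.mulVec ![1, 0] = ![1, 0] := by
    have e : (P⁻¹ * u * P).1 = (P⁻¹).1 * u.1 * P.1 := rfl
    rw [e, ← Matrix.mulVec_mulVec, hP0, ← Matrix.mulVec_mulVec, huw]
    exact hPi w _ hP0
  have hvfix : (P⁻¹ * v * P).1.mulVec ![0, 1] = ![0, 1] := by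
    have e : (P⁻¹ * v * P).1 = (P⁻¹).1 * v.1 * P.1 := rfl
    rw [e, ← Matrix.mulVec_mulVec, hP1, ← Matrix.mulVec_mulVec, hvz]
    exact hPi z _ hP1
  have hueq := GrA_upper _ huu' hufix
  have hveq := GrA_lower _ hvv' hvfix
  obtain ⟨a, ha⟩ : ∃ a, a = (P⁻¹ * u * P).1 0 1 := ⟨_, rfl⟩
  obtain ⟨b, hb⟩ : ∃ b, b = (P⁻¹ * v * P).1 1 0 := ⟨_, rfl⟩
  rw [← ha] at hueq
  rw [← hb] at hveq
  have ha0 : a ≠ 0 := by
    rintro rfl
    rw [← Matrix.one_fin_two] at hueq
    exact hune hueq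
  have hb0 : b ≠ 0 := by
    rintro rfl
    rw [← Matrix.one_fin_two] at hveq
    exact hvne hveq
  have hUa : GrA_U a ∈ H' := by
    have e : GrA_U a = P⁻¹ * u * P := Units.ext hueq.symm
    rw [e]
    exact hQu
  have hLb : GrA_L b ∈ H' := by
    have e : GrA_L b = P⁻¹ * v * P := Units.ext hveq.symm
    rw [e]
    exact hQv
  have hU : ∀ x, GrA_U x ∈ H' := by
    intro x
    have e : GrA_U x = GrA_U a ^ (x / a).val := by
      rw [GrA_Unsmul, ZMod.natCast_zmod_val, div_mul_cancel₀ x ha0]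
    rw [e]
    exact pow_mem hUa _
  have hL : ∀ x, GrA_L x ∈ H' := by
    intro x
    have e : GrA_L x = GrA_L b ^ (x / b).val := by
      rw [GrA_Lnsmul, ZMod.natCast_zmod_val, div_mul_cancel₀ x hb0]
    rw [e]
    exact pow_mem hLb _
  have hfin : P⁻¹ * g * P ∈ H' := by
    refine GrA_gen H' hU hL _ ?_
    have e : (P⁻¹ * g * P).1 = (P⁻¹).1 * g.1 * P.1 := rfl
    have h1 : (P⁻¹).1 * P.1 = 1 := Units.inv_mul P
    have h2 : (P⁻¹).1.det * P.1.det = 1 := by
      rw [← Matrix.det_mul, h1, Matrix.det_one]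
    rw [e, Matrix.det_mul, Matrix.det_mul, hg, mul_one, h2]
  rw [hmem] at hfin
  have e : P * (P⁻¹ * g * P) * P⁻¹ = g := by group
  rw [e] at hfin
  exact hfin

end MP7Sh
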