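import Pool.Agent.Lib.MP_7f581e_Sh.SpecG

/-!
# MP_7f581e_nt, GA realizations of `PSL(2, l)`: the square of `g_σ`
-/

set_option autoImplicit false

namespace MP7Sh

open Polynomial WeierstrassCurve

open scoped Classical

private theorem gsq_map {L M : Type} [Field L] [Field M] (f : L →+* M) (N : ℕ) (t : L) :
    Ec N (f t) = (Ec N t).map f := by
  unfold Ec
  split_ifs <;> simp [WeierstrassCurve.map]

private theorem gsq_c0 {L M : Type} [Field L] [Field M] (f : L →+* M) (N : ℕ) :
    f (c0 N L) = c0 N M := by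
  unfold c0
  split_ifs
  · rw [map_inv₀, map_ofNat f 4]
  · rw [map_inv₀, map_ofNat f 27]

private theorem gsq_rt {L M : Type} [Field L] [Field M] (f : L →+* M) (N : ℕ) {θ : L}
    (h : Rt N θ) : Rt N (f θ) := by
  unfold Rt at h ⊢
  split_ifs at h ⊢
  · rw [← map_pow, h, map_neg, map_ofNat f 2]
  · have := congrArg f h
    simpa using this

private theorem gsq_delta {F : Type} [Field F] {N : ℕ} (hN : N = 2 ∨ N = 3) (hF : (N : F) ≠ 0)
    {T T' : F} (hc : T + T' = c0 N F) (hT : T ≠ 0) (hT' : T' ≠ 0) : (Ec N T).Δ ≠ 0 := by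
  rcases hN with rfl | rfl
  · have h2 : (2 : F) ≠ 0 := by exact_mod_cast hF
    have h4 : (4 : F) ≠ 0 := by
      have : (4 : F) = 2 * 2 := by norm_num
      rw [this]; exact mul_ne_zero h2 h2
    have h64 : (64 : F) ≠ 0 := by
      have : (64 : F) = 4 * (4 * 4) := by norm_num
      rw [this]; exact mul_ne_zero h4 (mul_ne_zero h4 h4)
    have e : T = 4⁻¹ - T' := by
      unfold c0 at hc
      rw [if_pos rfl] at hc
      linear_combination hc
    have k : (4 : F) * 4⁻¹ = 1 := mul_inv_cancel₀ h4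
    have : (Ec 2 T).Δ = 64 * (T ^ 2 * T') := by
      have e4 : 4 * T' = 1 - 4 * T := by rw [e]; linear_combination k
      simp only [Ec, if_true, WeierstrassCurve.Δ, WeierstrassCurve.b₂, WeierstrassCurve.b₄,
        WeierstrassCurve.b₆, WeierstrassCurve.b₈]
      linear_combination (-16 * T ^ 2) * e4
    rw [this]
    exact mul_ne_zero h64 (mul_ne_zero (pow_ne_zero 2 hT) hT')
  · have h3 : (3 : F) ≠ 0 := by exact_mod_cast hF
    have h27 : (27 : F) ≠ 0 := by
      have : (27 : F) = 3 * (3 * 3) := by norm_num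
      rw [this]; exact mul_ne_zero h3 (mul_ne_zero h3 h3)
    have e : T = 27⁻¹ - T' := by
      unfold c0 at hc
      rw [if_neg (by norm_num)] at hc
      linear_combination hc
    have k : (27 : F) * 27⁻¹ = 1 := mul_inv_cancel₀ h27
    have : (Ec 3 T).Δ = 27 * (T ^ 3 * T') := by
      have e4 : 27 * T' = 1 - 27 * T := by rw [e]; linear_combination k
      have h32 : ¬ (3 : ℕ) = 2 := by norm_num
      simp only [Ec, h32, if_false, WeierstrassCurve.Δ, WeierstrassCurve.b₂, WeierstrassCurve.b₄,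
        WeierstrassCurve.b₆, WeierstrassCurve.b₈]
      linear_combination (-T ^ 3) * e4
    rw [this]
    exact mul_ne_zero h27 (mul_ne_zero (pow_ne_zero 3 hT) hT')

theorem tGsq (h2 : S_Pm) (h3 : S_Iso) (h4 : S_Lin) (h5 : S_CH) : S_Gsq := by
  intro l N _ κ F _ _ _ T T' θ e σ hNm hθ hc hT hT' hσ hσσ
  have hNF : (N : F) ≠ 0 := by
    have := (map_ne_zero (algebraMap κ F)).2 hNm.nk
    rwa [map_natCast] at this
  have hc' : T' + T = c0 N F := by rw [add_comm]; exact hc
  have hσ' : σ T' = T := by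
    have h := gsq_c0 (σ : F →+* F) N
    rw [← hc, map_add] at h
    have h1 : (σ : F →+* F) T = T' := hσ
    have h2 : (σ : F →+* F) T' = σ T' := rfl
    rw [h1, h2] at h
    linear_combination h
  have hθF : Rt N (algebraMap κ F θ) := gsq_rt _ N hθ
  have hΔ := gsq_delta hNm.nn hNF hc hT hT'
  have hΔ' := gsq_delta hNm.nn hNF hc' hT' hT
  have hWW : Ec N T' = (Ec N T).map (σ : F →+* F) := by
    rw [← gsq_map]
    congr 1
    exact hσ.symm
  obtain ⟨m1, m2, m3, m4, m5, m6, m7, m8, m9⟩ := h2 F F (σ : F →+* F) (Ec N T) (Ec N T') hΔ hWW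
  obtain ⟨i1, i2, i3, i4, i5, i6⟩ := h3 N F (algebraMap κ F θ) T T' hNm.nn hNF hθF hc hT hT'
  obtain ⟨j1, j2, j3, j4, j5, j6⟩ := h3 N F (algebraMap κ F θ) T' T hNm.nn hNF hθF hc' hT' hT
  set g : (Ec N T).toAffine.Point → (Ec N T).toAffine.Point := gg N (algebraMap κ F θ) T T' σ
    with hg
  have gdef : ∀ P, g P = ps N (algebraMap κ F θ) T' T (pm (Ec N T) (Ec N T') (σ : F →+* F) P) :=
    fun P => rfl
  have gadd : ∀ P Q, g (P + Q) = g P + g Q := by
    intro P Q
    rw [gdef, gdef, gdef, m3, j1]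
  have gzero : g 0 = 0 := by
    rw [gdef, m1, j2]
  let G : (Ec N T).toAffine.Point →+ (Ec N T).toAffine.Point :=
    { toFun := g, map_zero' := gzero, map_add' := gadd }
  have gsmul : ∀ (n : ℕ) P, g (n • P) = n • g P := fun n P => map_nsmul G n P
  have memT : ∀ P : (Ec N T).toAffine.Point, P ∈ Tl l (Ec N T) ↔ l • P = 0 := fun P => Iff.rfl
  have gmem : ∀ P : Tl l (Ec N T), g P ∈ Tl l (Ec N T) := by
    intro P
    rw [memT, ← gsmul, (memT _).1 P.2, gzero]
  obtain ⟨l1, l2, l3, -⟩ := h4 l F (Ec N T) hΔ e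
  obtain ⟨M, hM⟩ := l1 g (fun P Q => gadd _ _) gmem
  have ggP : ∀ P : Tl l (Ec N T), g (g P) = -(N • (P : (Ec N T).toAffine.Point)) := by
    intro P
    have q := j6 F (σ : F →+* F) (pm (Ec N T) (Ec N T') (σ : F →+* F) P)
    have a1 : (σ : F →+* F) (algebraMap κ F θ) = algebraMap κ F θ := σ.commutes θ
    have a2 : (σ : F →+* F) T' = T := hσ'
    have a3 : (σ : F →+* F) T = T' := hσ
    rw [a1, a2, a3] at q
    have hs : pm (Ec N T') (Ec N T) (σ : F →+* F) (pm (Ec N T) (Ec N T') (σ : F →+* F) P) = P :=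
      hσσ P
    rw [hs] at q
    rw [gdef (g P), gdef P, q, i3]
  have hMM : M * M = -((N : ZMod l) • (1 : Matrix (Fin 2) (Fin 2) (ZMod l))) := by
    apply l2 (fun P => g (g P)) _ _ (l3 g g M M hM hM)
    intro v
    have h0 : e (-(N • v)) =
        (-((N : ZMod l) • (1 : Matrix (Fin 2) (Fin 2) (ZMod l)))).mulVec (e v) := by
      rw [map_neg, map_nsmul, Matrix.neg_mulVec, Matrix.smul_mulVec, Matrix.one_mulVec,
        Nat.cast_smul_eq_nsmul]
    rw [← h0, e.symm_apply_apply]
    exact ggP v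
  rcases h5 l M N hMM with hd | ⟨a, ha⟩
  · left
    intro M' hM'
    rw [l2 g M' M hM' hM]
    exact hd
  · right
    have hl2 : l % 2 = 1 := by
      have h5l := hNm.l5
      rcases hNm.lp.eq_two_or_odd with h | h
      · omega
      · exact h
    have hN0 : (N : ZMod l) ≠ 0 := by
      intro h
      rw [ZMod.natCast_eq_zero_iff] at h
      have h5l := hNm.l5
      rcases hNm.nn with rfl | rfl
      · have := Nat.le_of_dvd (by norm_num) h
        omega
      · have := Nat.le_of_dvd (by norm_num) h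
        omega
    have ha0 : a ≠ 0 := by
      intro h0
      rw [ha, h0, zero_smul, zero_mul] at hMM
      have := congrFun (congrFun hMM 0) 0
      simp at this
      exact hN0 this
    have hP : ∀ P : Tl l (Ec N T), g P = ((a.valMinAbs • P : Tl l (Ec N T)) :
        (Ec N T).toAffine.Point) := by
      intro P
      have h0 : e (a.valMinAbs • P) = M.mulVec (e P) := by
        rw [ha, map_zsmul, Matrix.smul_mulVec, Matrix.one_mulVec]
        conv_rhs => rw [← ZMod.coe_valMinAbs a]
        rw [Int.cast_smul_eq_zsmul]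
      rw [hM P, ← h0, e.symm_apply_apply]
    refine ⟨a.valMinAbs.natAbs, ?_, ?_, ?_⟩
    · have : a.valMinAbs ≠ 0 := fun h => ha0 ((ZMod.valMinAbs_eq_zero a).1 h)
      exact Int.natAbs_pos.2 this
    · have := ZMod.natAbs_valMinAbs_le a
      omega
    · intro P
      rw [hP P, AddSubgroup.coe_zsmul]
      rcases Int.natAbs_eq a.valMinAbs with h | h
      · left
        conv_lhs => rw [h]
        rw [natCast_zsmul]
      · right
        conv_lhs => rw [h]
        rw [neg_zsmul, natCast_zsmul]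

end MP7Sh
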