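import Pool.Agent.Lib.MP_7f581e_Sh.SpecL

/-!
# MP_7f581e_nt, GA realizations of `PSL(2, l)`: the place at infinity
-/

set_option autoImplicit false

namespace MP7Sh

open Polynomial WeierstrassCurve

open scoped Classical

private theorem inf_map {L M : Type} [Field L] [Field M] (f : L →+* M) (N : ℕ) (t : L) :
    Ec N (f t) = (Ec N t).map f := by
  unfold Ec
  split_ifs <;> simp [WeierstrassCurve.map]

private theorem inf_c0 {L M : Type} [Field L] [Field M] (f : L →+* M) (N : ℕ) :
    f (c0 N L) = c0 N M := by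
  unfold c0
  split_ifs
  · rw [map_inv₀, map_ofNat f 4]
  · rw [map_inv₀, map_ofNat f 27]

private theorem inf_delta {F : Type} [Field F] {N : ℕ} (hN : N = 2 ∨ N = 3) (hF : (N : F) ≠ 0)
    {T T' : F} (hc : T + T' = c0 N F) (hT : T ≠ 0) (hT' : T' ≠ 0) : (Ec N T).Δ ≠ 0 := by
  rcases hN with rfl | rfl
  · have h2 : (2 : F) ≠ 0 := by exact_mod_cast hF
    have h4 : (4 : F) ≠ 0 := by
      have : (4 : F) = 2 * 2 := by norm_num
      rw [this]; exact mul_ne_zero h2 h2
    have h64 : (64 : F) ≠ 0 := by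
      have : (64 : F) = 4 * (4 * 4) := by norm_num
      rw [this]; exact mul_ne_zero h4 (mul_ne_zero h4 h4)
    have e : T = 4⁻¹ - T' := by
      unfold c0 at hc
      rw [if_pos rfl] at hc
      linear_combination hc
    have k : (4 : F) * 4⁻¹ = 1 := mul_inv_cancel₀ h4
    have : (Ec 2 T).Δ = 64 * (T ^ 2 * T') := by
      have e4 : 4 * T' = 1 - 4 * T := by rw [e]; linear_combination k
      simp only [Ec, if_true, WeierstrassCurve.Δ, WeierstrassCurve.b₂, WeierstrassCurve.b₄,
        WeierstrassCurve.b₆, WeierstrassCurve.b₈]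
      linear_combination (-16 * T ^ 2) * e4
    rw [this]
    exact mul_ne_zero h64 (mul_ne_zero (pow_ne_zero 2 hT) hT')
  · have h3 : (3 : F) ≠ 0 := by exact_mod_cast hF
    have h27 : (27 : F) ≠ 0 := by
      have : (27 : F) = 3 * (3 * 3) := by norm_num
      rw [this]; exact mul_ne_zero h3 (mul_ne_zero h3 h3)
    have e : T = 27⁻¹ - T' := by
      unfold c0 at hc
      rw [if_neg (by norm_num)] at hc
      linear_combination hc
    have k : (27 : F) * 27⁻¹ = 1 := mul_inv_cancel₀ h27
    have : (Ec 3 T).Δ = 27 * (T ^ 3 * T') := by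
      have e4 : 27 * T' = 1 - 27 * T := by rw [e]; linear_combination k
      have h32 : ¬ (3 : ℕ) = 2 := by norm_num
      simp only [Ec, h32, if_false, WeierstrassCurve.Δ, WeierstrassCurve.b₂, WeierstrassCurve.b₄,
        WeierstrassCurve.b₆, WeierstrassCurve.b₈]
      linear_combination (-T ^ 3) * e4
    rw [this]
    exact mul_ne_zero h27 (mul_ne_zero (pow_ne_zero 3 hT) hT')

private theorem inf_sq1 {l : ℕ} [Fact l.Prime] (M : Matrix (Fin 2) (Fin 2) (ZMod l))
    (h : M * (M * M) = 1) : IsSquare M.det := by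
  have h1 : M.det * (M.det * M.det) = 1 := by
    rw [← Matrix.det_mul, ← Matrix.det_mul, h, Matrix.det_one]
  refine ⟨M.det * M.det, ?_⟩
  linear_combination (-M.det) * h1

private theorem inf_sq2 {l : ℕ} [Fact l.Prime] (M : Matrix (Fin 2) (Fin 2) (ZMod l))
    (h : M * M = -1) : IsSquare M.det := by
  have e00 := congrFun (congrFun h 0) 0
  have e01 := congrFun (congrFun h 0) 1
  have e10 := congrFun (congrFun h 1) 0
  have e11 := congrFun (congrFun h 1) 1
  simp [Matrix.mul_apply, Fin.sum_univ_two] at e00 e01 e10 e11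
  rw [Matrix.det_fin_two]
  by_cases ht : M 0 0 + M 1 1 = 0
  · refine ⟨1, ?_⟩
    linear_combination M 0 0 * ht - e00
  · have hb : M 0 1 = 0 := by
      have : (M 0 0 + M 1 1) * M 0 1 = 0 := by linear_combination e01
      exact (mul_eq_zero.1 this).resolve_left ht
    have had : M 0 0 - M 1 1 = 0 := by
      have : (M 0 0 + M 1 1) * (M 0 0 - M 1 1) = 0 := by linear_combination e00 - e11
      exact (mul_eq_zero.1 this).resolve_left ht
    refine ⟨M 0 0, ?_⟩
    rw [hb]
    linear_combination (-M 0 0) * had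

/-- Two points with conjugate coordinates in the model at infinity are equal. -/
private theorem inf_red (h3 : S_Cv) (h4 : S_Int) (h6 : S_Red) {κ F : Type} [Field κ] [Field F]
    [Algebra κ F] {v : F → ℤ} (kr : Kr κ v) {W : WeierstrassCurve F} {ρ : F} (hW : W.Δ ≠ 0)
    (hρ : ρ ≠ 0) (hit : It v (tr W ρ 0 0)) (hu : Is v 0 (tr W ρ 0 0).Δ) {l : ℕ} (hl : Odd l)
    (hlu : Is v 0 (l : F)) (τ : F ≃ₐ[κ] F) (hτ : Dv v τ) (P Q : W.toAffine.Point)
    (x y X Y : F) (hP : l • P = 0) (hQ : l • Q = 0) (aP : At P x y) (aQ : At Q X Y)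
    (hX : ρ ^ 2 * X = τ (ρ ^ 2 * x)) (hY : ρ ^ 3 * Y = τ (ρ ^ 3 * y)) : Q = P := by
  obtain ⟨c1, c2, c3, c4, c5, -, -⟩ := h3 F W ρ 0 0 hW hρ
  let C : W.toAffine.Point →+ (tr W ρ 0 0).toAffine.Point :=
    { toFun := cv W ρ 0 0, map_zero' := c2, map_add' := c4 }
  have csm : ∀ (n : ℕ) R, cv W ρ 0 0 (n • R) = n • cv W ρ 0 0 R := fun n R => map_nsmul C n R
  have hP' : l • cv W ρ 0 0 P = 0 := by rw [← csm, hP, c2]
  have hQ' : l • cv W ρ 0 0 Q = 0 := by rw [← csm, hQ, c2]
  have aP' := (c3 P x y aP).1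
  have aQ' := (c3 Q X Y aQ).1
  rw [sub_zero, sub_zero] at aP' aQ'
  have hW' : (tr W ρ 0 0).Δ ≠ 0 := hu.1
  obtain ⟨ix, iy⟩ := h4 F v kr.ord _ hW' hit l hlu _ _ _ hP' aP'
  apply c5
  refine h6 F v kr.ord _ hW' hit l hl hlu _ _ _ _ _ _ hQ' hP' aQ' aP' ?_ ?_ (Or.inl hu)
  · rw [hX]; exact kr.triv hτ ix
  · rw [hY]; exact kr.triv hτ iy

theorem tInf (h1 : S_Pts) (h2 : S_Pm) (h3 : S_Cv) (h4 : S_Int) (h5 : S_Ns) (h6 : S_Red)
    (h7 : S_Mdi) (h8 : S_Lin) : S_Inf := by
  intro l N _ κ F _ _ _ _ T ρ v e hNm hGx hPl hρT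
  have kr : Kr κ v := hPl.toKr
  have hT : T ≠ 0 := fun h => hPl.ne (by rw [h, inv_zero])
  have hvT : v T < 0 := by
    have := kr.ord.inv hT
    have hp := hPl.pos
    omega
  have hNF : (N : F) ≠ 0 := by
    have := (map_ne_zero (algebraMap κ F)).2 hNm.nk
    rwa [map_natCast] at this
  have hT' : c0 N F - T ≠ 0 := by
    intro h
    apply hGx.tra
    have : T = algebraMap κ F (c0 N κ) := by
      rw [inf_c0]; linear_combination -h
    rw [this]
    exact isAlgebraic_algebraMap _
  have hΔ : (Ec N T).Δ ≠ 0 := inf_delta hNm.nn hNF (by ring) hT hT'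
  obtain ⟨ρpos, hρ, hit, hu, hW', hζ⟩ := h7 l N κ F T ρ v hNm hGx.tra kr hvT hρT
  have hl2 : Odd l := by
    have h5l := hNm.l5
    rcases hNm.lp.eq_two_or_odd' with h | h
    · omega
    · exact h
  have hlu : Is v 0 (l : F) := by
    have := kr.isCst hNm.lk
    rwa [map_natCast] at this
  have memT : ∀ P : Tl l (Ec N T), l • (P : (Ec N T).toAffine.Point) = 0 := fun P => P.2
  refine ⟨?_, ?_⟩
  · intro σ hσT hσ M hM
    have hWW : Ec N T = (Ec N T).map (σ : F →+* F) := by
      rw [← inf_map]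
      congr 1
      exact hσT.symm
    obtain ⟨m1, m2, m3, m4, m5, m6, m7, m8, m9⟩ := h2 F F (σ : F →+* F) (Ec N T) (Ec N T) hΔ hWW
    obtain ⟨p1, p2', p3, p4, p5, -⟩ := h1 F (Ec N T) hΔ
    obtain ⟨l1, l2, l3, -⟩ := h8 l F (Ec N T) hΔ e
    set s : (Ec N T).toAffine.Point → (Ec N T).toAffine.Point := pm (Ec N T) (Ec N T) σ with hs
    have sAt : ∀ (P : (Ec N T).toAffine.Point) (x y : F), At P x y → At (s P) (σ x) (σ y) := m2
    have s0 : s 0 = 0 := m1
    have smem : ∀ P : Tl l (Ec N T), l • s P = 0 := by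
      intro P
      rw [hM P]
      exact memT _
    have ssmem : ∀ P : Tl l (Ec N T), l • s (s P) = 0 := by
      intro P
      rw [hM P]
      exact smem _
    have sssmem : ∀ P : Tl l (Ec N T), l • s (s (s P)) = 0 := by
      intro P
      rw [hM P]
      exact ssmem _
    obtain ⟨ζ, hζ1, hζ2⟩ := hζ σ hσT
    have hσσρ : σ (σ ρ) = algebraMap κ F (ζ ^ 2) * ρ := by
      rw [hζ2, map_mul, hζ2, AlgEquiv.commutes, map_pow]
      ring
    have hDv2 : Dv v (σ.trans σ) := by
      intro y hy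
      have hy' : σ y ≠ 0 := (map_ne_zero σ).2 hy
      change v (σ (σ y)) = v y
      rw [hσ _ hy', hσ _ hy]
    rcases hNm.nn with rfl | rfl
    · have a1 : (Ec 2 T).a₁ = 0 := by simp [Ec]
      have a3 : (Ec 2 T).a₃ = 0 := by simp [Ec]
      have hz4 : ζ ^ 4 = 1 := hζ1
      have hcase : (ζ = 1 ∨ ζ = -1) ∨ ζ ^ 2 = -1 := by
        have : (ζ - 1) * (ζ + 1) * (ζ ^ 2 + 1) = 0 := by linear_combination hz4
        rcases mul_eq_zero.1 this with h | h
        · left
          rcases mul_eq_zero.1 h with h | h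
          · left; linear_combination h
          · right; linear_combination h
        · right; linear_combination h
      rcases hcase with (hz | hz) | hz
      · -- `σ P = P`
        rw [hz, map_one, one_mul] at hζ2
        have hPP : ∀ P : Tl l (Ec 2 T), s P = P := by
          intro P
          rcases p1 P with h0 | ⟨x, y, hxy⟩
          · rw [h0, s0]
          · refine inf_red h3 h4 h6 kr hΔ hρ hit hu hl2 hlu σ hσ _ _ x y _ _ (memT P) (smem P)
              hxy (sAt _ _ _ hxy) ?_ ?_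
            · rw [map_mul, map_pow, hζ2]
            · rw [map_mul, map_pow, hζ2]
        have hM1 : M = 1 := by
          apply l2 s M 1 hM
          intro P
          rw [Matrix.one_mulVec, e.symm_apply_apply]
          exact hPP P
        rw [hM1, Matrix.det_one]
        exact ⟨1, by ring⟩
      · rw [hz, map_neg, map_one, neg_one_mul] at hζ2
        have hPP : ∀ P : Tl l (Ec 2 T), s P = -(P : (Ec 2 T).toAffine.Point) := by
          intro P
          rcases p1 P with h0 | ⟨x, y, hxy⟩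
          · rw [h0, s0, neg_zero]
          · have h9 := p5 _ _ _ (sAt _ _ _ hxy)
            rw [a1, a3] at h9
            have hq : -(s P) = P := by
              refine inf_red h3 h4 h6 kr hΔ hρ hit hu hl2 hlu σ hσ _ _ x y _ _ (memT P) ?_
                hxy h9 ?_ ?_
              · rw [smul_neg, smem P, neg_zero]
              · rw [map_mul, map_pow, hζ2]; ring
              · rw [map_mul, map_pow, hζ2]; ring
            have h10 := congrArg Neg.neg hq
            rwa [neg_neg] at h10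
        have hM1 : M = -1 := by
          apply l2 s M (-1) hM
          intro P
          rw [Matrix.neg_mulVec, Matrix.one_mulVec, ← map_neg, e.symm_apply_apply]
          exact hPP P
        rw [hM1, Matrix.det_neg, Matrix.det_one]
        exact ⟨1, by simp⟩
      · rw [hz, map_neg, map_one, neg_one_mul] at hσσρ
        have hPP : ∀ P : Tl l (Ec 2 T), s (s P) = -(P : (Ec 2 T).toAffine.Point) := by
          intro P
          rcases p1 P with h0 | ⟨x, y, hxy⟩
          · rw [h0, s0, s0, neg_zero]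
          · have h9 := p5 _ _ _ (sAt _ _ _ (sAt _ _ _ hxy))
            rw [a1, a3] at h9
            have hq : -(s (s P)) = P := by
              refine inf_red h3 h4 h6 kr hΔ hρ hit hu hl2 hlu (σ.trans σ) hDv2 _ _ x y _ _
                (memT P) ?_ hxy h9 ?_ ?_
              · rw [smul_neg, ssmem P, neg_zero]
              · change ρ ^ 2 * σ (σ x) = σ (σ (ρ ^ 2 * x))
                rw [map_mul, map_mul, map_pow, map_pow, hσσρ]; ring
              · change ρ ^ 3 * _ = σ (σ (ρ ^ 3 * y))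
                rw [map_mul, map_mul, map_pow, map_pow, hσσρ]; ring
            have h10 := congrArg Neg.neg hq
            rwa [neg_neg] at h10
        have hM1 : M * M = -1 := by
          apply l2 (fun P => s (s P)) _ _ (l3 s s M M hM hM)
          intro P
          rw [Matrix.neg_mulVec, Matrix.one_mulVec, ← map_neg, e.symm_apply_apply]
          exact hPP P
        exact inf_sq2 M hM1
    · have hz3 : ζ ^ 3 = 1 := hζ1
      have hσσσρ : σ (σ (σ ρ)) = ρ := by
        rw [hσσρ, map_mul, hζ2, AlgEquiv.commutes, ← mul_assoc, ← map_mul]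
        have : ζ ^ 2 * ζ = 1 := by linear_combination hz3
        rw [this, map_one, one_mul]
      have hDv3 : Dv v ((σ.trans σ).trans σ) := by
        intro y hy
        have hy' : σ y ≠ 0 := (map_ne_zero σ).2 hy
        have hy'' : σ (σ y) ≠ 0 := (map_ne_zero σ).2 hy'
        change v (σ (σ (σ y))) = v y
        rw [hσ _ hy'', hσ _ hy', hσ _ hy]
      have hPP : ∀ P : Tl l (Ec 3 T), s (s (s P)) = P := by
        intro P
        rcases p1 P with h0 | ⟨x, y, hxy⟩
        · rw [h0, s0, s0, s0]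
        · refine inf_red h3 h4 h6 kr hΔ hρ hit hu hl2 hlu ((σ.trans σ).trans σ) hDv3 _ _ x y _ _
            (memT P) (sssmem P) hxy (sAt _ _ _ (sAt _ _ _ (sAt _ _ _ hxy))) ?_ ?_
          · change ρ ^ 2 * σ (σ (σ x)) = σ (σ (σ (ρ ^ 2 * x)))
            rw [map_mul, map_mul, map_mul, map_pow, map_pow, map_pow, hσσσρ]
          · change ρ ^ 3 * σ (σ (σ y)) = σ (σ (σ (ρ ^ 3 * y)))
            rw [map_mul, map_mul, map_mul, map_pow, map_pow, map_pow, hσσσρ]
      have hM1 : M * (M * M) = 1 := by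
        apply l2 (fun P => s (s (s P))) _ _ (l3 s (fun P => s (s P)) M (M * M) hM
          (l3 s s M M hM hM))
        intro P
        rw [Matrix.one_mulVec, e.symm_apply_apply]
        exact hPP P
      exact inf_sq1 M hM1
  · intro P x y hP
    obtain ⟨c1, c2, c3, c4, c5, -, -⟩ := h3 F (Ec N T) ρ 0 0 hΔ hρ
    let C : (Ec N T).toAffine.Point →+ (tr (Ec N T) ρ 0 0).toAffine.Point :=
      { toFun := cv (Ec N T) ρ 0 0, map_zero' := c2, map_add' := c4 }
    have csm : ∀ (n : ℕ) R, cv (Ec N T) ρ 0 0 (n • R) = n • cv (Ec N T) ρ 0 0 R :=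
      fun n R => map_nsmul C n R
    have hP' : l • cv (Ec N T) ρ 0 0 P = 0 := by rw [← csm, memT P, c2]
    obtain ⟨aP', hp2⟩ := c3 P x y hP
    have hns := h5 F v kr.ord _ hu.1 hit l hl2 hlu _ _ _ hP' aP' (Or.inl hu)
    rw [hp2] at hns
    have hne : p2 (Ec N T) x y ≠ 0 := fun h => hns.1 (by rw [h, mul_zero])
    refine ⟨hne, ?_⟩
    have h9 := hns.2
    rw [kr.ord.mul _ _ (pow_ne_zero 3 hρ) hne, kr.ord.pow hρ] at h9
    push_cast at h9
    omega

end MP7Sh
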