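import Pool.Agent.Lib.MP_7f581e_Sh.SpecE

/-! # MP_7f581e_nt, Sh, Int (helper29): torsion points are integral -/

set_option autoImplicit false

namespace MP7Sh

open Polynomial WeierstrassCurve

open scoped Classical

private theorem int_sum {F : Type} [Field F] {v : F → ℤ} (hv : Ord v) {k : ℤ} (s : Finset ℕ)
    (f : ℕ → F) (h : ∀ i ∈ s, Ge v k (f i)) : Ge v k (∑ i ∈ s, f i) := by
  induction s using Finset.induction_on with
  | empty =>
    rw [Finset.sum_empty]
    exact Ge.zero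
  | insert a s ha ih =>
    rw [Finset.sum_insert ha]
    exact (h a (Finset.mem_insert_self a s)).add hv
      (ih fun i hi => h i (Finset.mem_insert_of_mem hi))

/-- the leading term dominates -/
private theorem int_lead {F : Type} [Field F] {v : F → ℤ} (hv : Ord v) (g : F[X]) (m : ℕ)
    (hdeg : g.natDegree ≤ m) (hlead : Is v 0 (g.coeff m)) (hint : ∀ i, Ge v 0 (g.coeff i)) (x : F)
    (hx : ¬ Ge v 0 x) : g.eval x ≠ 0 := by
  have hx0 : x ≠ 0 := fun h => hx (Or.inl h)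
  have hvx : v x < 0 := by
    by_contra h
    exact hx (Or.inr (not_lt.1 h))
  rw [eval_eq_sum_range' (Nat.lt_succ_of_le hdeg), Finset.sum_range_succ]
  have h1 : Is v (0 + (m : ℤ) * v x) (g.coeff m * x ^ m) :=
    hlead.mul hv ((Is.of_ne hx0).pow hv m)
  have h2 : Ge v (((m : ℤ) - 1) * v x) (∑ i ∈ Finset.range m, g.coeff i * x ^ i) := by
    refine int_sum hv _ _ fun i hi => ?_
    rw [Finset.mem_range] at hi
    have h3 : Ge v (0 + (i : ℤ) * v x) (g.coeff i * x ^ i) :=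
      (hint i).mul hv ((Is.of_ne hx0).pow hv i).ge
    refine h3.mono ?_
    have h4 : (i : ℤ) ≤ (m : ℤ) - 1 := by omega
    rw [zero_add]
    exact mul_le_mul_of_nonpos_right h4 hvx.le
  have h5 : Is v (0 + (m : ℤ) * v x) ((∑ i ∈ Finset.range m, g.coeff i * x ^ i) +
      g.coeff m * x ^ m) := by
    refine Is.ge_add hv h2 h1 ?_
    rw [zero_add, sub_mul, one_mul]
    omega
  exact h5.ne

theorem tInt (h1 : S_Pts) (h2 : S_Deg) (h3 : S_Mul) : S_Int := by
  intro F _ v hv W hW hI n hn P x y hnP hP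
  have hn1 : 1 ≤ n := by
    rcases Nat.eq_zero_or_pos n with h | h
    · subst h
      exact absurd Nat.cast_zero hn.ne
    · exact h
  -- the integral model
  let W₀ : WeierstrassCurve hv.ring :=
    ⟨⟨W.a₁, hI.a1⟩, ⟨W.a₂, hI.a2⟩, ⟨W.a₃, hI.a3⟩, ⟨W.a₄, hI.a4⟩, ⟨W.a₆, hI.a6⟩⟩
  have hmap : W₀.map hv.ring.subtype = W := rfl
  have hg := (h2.2 hv.ring F hv.ring.subtype W₀ n).2
  rw [hmap] at hg
  obtain ⟨-, hdf, hdg, hco⟩ := h2.1 F W n
  have hint : ∀ i, Ge v 0 ((mg W n).coeff i) := by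
    intro i
    rw [hg, coeff_map]
    exact ((mg W₀ n).coeff i).2
  have hn2 : 1 ≤ n ^ 2 := Nat.one_le_pow _ _ hn1
  have hdeg : (mg W n).natDegree ≤ n ^ 2 - 1 := by
    by_cases h0 : mg W n = 0
    · rw [h0, natDegree_zero]
      exact Nat.zero_le _
    · have h4 : (mg W n).natDegree < (mf W n).natDegree := natDegree_lt_natDegree h0 hdg
      rw [hdf] at h4
      omega
  have hlead : Is v 0 ((mg W n).coeff (n ^ 2 - 1)) := by
    rw [hco hn1]
    have := hn.pow hv 2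
    rwa [mul_zero] at this
  have hx : Ge v 0 x := by
    by_contra hx
    exact int_lead hv (mg W n) (n ^ 2 - 1) hdeg hlead hint x hx
      (((h3 F W hW P x y hP n).2.1).1 hnP)
  refine ⟨hx, ?_⟩
  have heq := ((h1 F W hW).2.1 P x y hP).2.2.2
  by_contra hy
  have hy0 : y ≠ 0 := fun h => hy (Or.inl h)
  have hvy : v y < 0 := by
    by_contra h
    exact hy (Or.inr (not_lt.1 h))
  have h5 : Is v ((2 : ℕ) * v y) (y ^ 2) := (Is.of_ne hy0).pow hv 2
  have h6 : Ge v (v y) (y ^ 2) := by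
    have e : y ^ 2 = (x ^ 3 + W.a₂ * x ^ 2 + W.a₄ * x + W.a₆) - (W.a₁ * x + W.a₃) * y := by
      linear_combination heq
    rw [e]
    have h7 : Ge v 0 (x ^ 3 + W.a₂ * x ^ 2 + W.a₄ * x + W.a₆) :=
      (((hx.pow0 hv 3).add hv (hI.a2.mul_left hv (hx.pow0 hv 2))).add hv
        (hI.a4.mul_left hv hx)).add hv hI.a6
    have h8 : Ge v (v y) ((W.a₁ * x + W.a₃) * y) :=
      ((hI.a1.mul_left hv hx).add hv hI.a3).mul_left hv (Is.of_ne hy0).ge
    exact (h7.mono hvy.le).sub hv h8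
  exact h5.not_ge (by push_cast; omega) h6

end MP7Sh
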