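import Pool.Agent.Lib.MP_7f581e_Sh.SpecG

/-!
# MP_7f581e_nt, GA realizations of `PSL(2, l)`: no stable line
-/

set_option autoImplicit false

namespace MP7Sh

open Polynomial WeierstrassCurve

open scoped Classical

private theorem map_Ec {κ F : Type} [Field κ] [Field F] [Algebra κ F] (N : ℕ) (T : F)
    (σ : F ≃ₐ[κ] F) (hσ : σ T = T) : Ec N T = (Ec N T).map (σ : F →+* F) := by
  unfold Ec
  split_ifs
  · ext <;> simp [WeierstrassCurve.map, hσ]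
  · ext <;> simp [WeierstrassCurve.map, hσ]

private theorem ne_cst {κ F : Type} [Field κ] [Field F] [Algebra κ F] {T : F}
    (hT : Transcendental κ T) (c : κ) : T ≠ algebraMap κ F c := by
  intro h
  exact hT (h ▸ isAlgebraic_algebraMap c)

private theorem disc_Ec {κ F : Type} [Field κ] [Field F] [Algebra κ F] {l N : ℕ} {T : F}
    (hN : Nm l N κ) (hT : Transcendental κ T) : (Ec N T).Δ ≠ 0 := by
  have h0 : T ≠ 0 := by
    have := ne_cst hT (0 : κ)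
    rwa [map_zero] at this
  rcases hN.nn with rfl | rfl
  · have h2 : (2 : κ) ≠ 0 := by simpa using hN.nk
    have h2' : (2 : F) ≠ 0 := by
      have := (map_ne_zero (algebraMap κ F)).mpr h2
      rwa [map_ofNat] at this
    have h4 : (1 : F) - 4 * T ≠ 0 := by
      intro h
      have h5 : T = algebraMap κ F (4⁻¹) := by
        rw [map_inv₀, map_ofNat, eq_comm, inv_eq_iff_eq_inv, eq_comm]
        have h6 : (4 : F) * T = 1 := by linear_combination -h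
        exact (eq_inv_of_mul_eq_one_left h6).symm
      exact ne_cst hT _ h5
    have h3 : (Ec 2 T).Δ = 2 ^ 4 * T ^ 2 * (1 - 4 * T) := by
      simp only [Ec, if_true, WeierstrassCurve.Δ, WeierstrassCurve.b₂, WeierstrassCurve.b₄,
        WeierstrassCurve.b₆, WeierstrassCurve.b₈]
      ring
    rw [h3]
    exact mul_ne_zero (mul_ne_zero (pow_ne_zero _ h2') (pow_ne_zero _ h0)) h4
  · have h4 : (1 : F) - 27 * T ≠ 0 := by
      intro h
      have h5 : T = algebraMap κ F (27⁻¹) := by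
        rw [map_inv₀, map_ofNat]
        have h6 : (27 : F) * T = 1 := by linear_combination -h
        exact eq_inv_of_mul_eq_one_right h6
      exact ne_cst hT _ h5
    have h3 : (Ec 3 T).Δ = T ^ 3 * (1 - 27 * T) := by
      simp only [Ec, show (3 : ℕ) ≠ 2 by norm_num, if_false, WeierstrassCurve.Δ,
        WeierstrassCurve.b₂, WeierstrassCurve.b₄, WeierstrassCurve.b₆, WeierstrassCurve.b₈]
      ring
    rw [h3]
    exact mul_ne_zero (pow_ne_zero _ h0) h4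

theorem tIrr (h1 : S_Pm) (h2 : S_Plx) (h3 : S_LcG) (h4 : S_LcM) (h5 : S_Prd) : S_Irr := by
  intro l N _ κ F _ _ _ _ T ρ e hN hG hρ P₀ hP₀
  by_contra hcon
  push Not at hcon
  have hΔ := disc_Ec hN hG.tra
  have : Finite (Tl l (Ec N T)) := Finite.of_equiv _ e.symm.toEquiv
  have : Fintype (Tl l (Ec N T)) := Fintype.ofFinite _
  have hpm : ∀ σ : F ≃ₐ[κ] F, σ T = T →
      pm (Ec N T) (Ec N T) σ 0 = 0 ∧
      (∀ P Q : (Ec N T).toAffine.Point, pm (Ec N T) (Ec N T) σ P = pm (Ec N T) (Ec N T) σ Q →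
        P = Q) ∧
      ∀ (n : ℕ) (P : (Ec N T).toAffine.Point),
        pm (Ec N T) (Ec N T) σ (n • P) = n • pm (Ec N T) (Ec N T) σ P := by
    intro σ hσ
    obtain ⟨a1, -, -, -, a5, -, a7, -, -⟩ :=
      h1 F F (σ : F →+* F) (Ec N T) (Ec N T) hΔ (map_Ec N T σ hσ)
    exact ⟨a1, a5, a7⟩
  have key : ∀ (Q : Tl l (Ec N T)) (n : ℕ), Q = n • P₀ → ∀ σ : F ≃ₐ[κ] F, σ T = T →
      ∃ k : ℕ, pm (Ec N T) (Ec N T) σ Q = (k • Q : Tl l (Ec N T)) ∧ k • Q = (n * k) • P₀ := by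
    intro Q n hQ σ hσ
    obtain ⟨k, hk⟩ := hcon σ hσ
    refine ⟨k, ?_, by rw [hQ, mul_comm, mul_smul]⟩
    rw [hQ, AddSubgroup.coe_nsmul, (hpm σ hσ).2.2, hk, AddSubgroup.coe_nsmul,
      AddSubgroup.coe_nsmul, AddSubgroup.coe_nsmul]
    rw [smul_comm]
  obtain ⟨S, hS⟩ : ∃ S : Finset (Tl l (Ec N T)), ∀ Q, Q ∈ S ↔ (Q ≠ 0 ∧ ∃ n : ℕ, Q = n • P₀) :=
    ⟨Finset.univ.filter fun Q => Q ≠ 0 ∧ ∃ n : ℕ, Q = n • P₀, fun Q => by simp⟩
  refine h5 l N κ F T ρ e hN hG hρ S ⟨P₀, (hS P₀).2 ⟨hP₀, 1, (one_smul _ _).symm⟩⟩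
    (fun h0 => ((hS 0).1 h0).1 rfl) ?_ ?_
  · intro σ hσ Q hQ
    obtain ⟨hQ0, n, hQn⟩ := (hS Q).1 hQ
    obtain ⟨k, hk1, hk2⟩ := key Q n hQn σ hσ
    refine ⟨k • Q, (hS _).2 ⟨?_, n * k, hk2⟩, hk1⟩
    intro h0
    rw [h0] at hk1
    have h6 := (hpm σ hσ).2.1 Q 0 (by rw [hk1, (hpm σ hσ).1]; rfl)
    exact hQ0 (Subtype.ext h6)
  · intro b
    obtain ⟨v, hv⟩ := (h2 κ F T hG).1 b
    refine ⟨v, hv, ?_⟩
    have hL : Loc l N κ T e v := by
      by_cases hb : b = 0 ∨ b = c0 N κ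
      · exact h4 l N κ F T b v e hN hG hv hb
      · push Not at hb
        exact h3 l N κ F T b v e hN hG hv hb.1 hb.2
    intro Q hQ x y hxy
    obtain ⟨hQ0, n, hQn⟩ := (hS Q).1 hQ
    refine hL.b Q hQ0 ?_ x y hxy
    intro σ hσ
    obtain ⟨k, hk1, -⟩ := key Q n hQn σ hσ
    exact ⟨k, hk1⟩

end MP7Sh
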