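import Pool.Agent.Lib.MP_7f581e_Sh.SpecI

/-!
# MP_7f581e_nt, Iso: the isogeny, summary (helper73)
-/

set_option autoImplicit false

namespace MP7Sh

open Polynomial WeierstrassCurve

open scoped Classical

theorem tIso (h1 : S_PsW) (h2 : S_PsM) (h3 : S_Ad2) (h4 : S_Ad3) (h5 : S_PsA) (h6 : S_Co2)
    (h7 : S_Co3) (_h8 : S_Pts) : S_Iso := by
  intro N L _ θ t t' hN hNL hθ hc ht ht'
  have hadd : ∀ P Q : (Ec N t).toAffine.Point,
      ps N θ t t' (P + Q) = ps N θ t t' P + ps N θ t t' Q := by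
    refine h5 N hN ?_ L θ t t' hNL hθ hc ht ht'
    rcases hN with rfl | rfl
    · intro L _ θ t t' hNL hθ hc ht ht'
      exact h3 L θ t t' (by exact_mod_cast hNL) hθ hc ht ht'
    · intro L _ θ t t' hNL hθ hc ht ht'
      exact h4 L θ t t' (by exact_mod_cast hNL) hθ hc ht ht'
  have hzero : ps N θ t t' 0 = 0 := by
    have h := hadd 0 0
    rw [add_zero] at h
    exact left_eq_add.1 h
  have hcomp : ∀ P : (Ec N t).toAffine.Point, ps N θ t' t (ps N θ t t' P) = -(N • P) := by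
    rcases hN with rfl | rfl
    · exact h6 L θ t t' (by exact_mod_cast hNL) hθ hc ht ht'
    · exact h7 L θ t t' (by exact_mod_cast hNL) hθ hc ht ht'
  refine ⟨hadd, hzero, hcomp, ?_, (h1 N L θ t t' hN hNL hθ hc ht ht').2.2.2.2.2, ?_⟩
  · intro l P Q hl hP hQ hPQ
    have h9 : N • P = N • Q := by
      have h := hcomp P
      rw [hPQ, hcomp Q] at h
      exact (neg_injective h).symm
    have h10 : N • (P - Q) = 0 := by rw [nsmul_sub, h9, sub_self]
    have h11 : l • (P - Q) = 0 := by rw [nsmul_sub, hP, hQ, sub_self]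
    have h12 : (l.gcd N) • (P - Q) = 0 := gcd_nsmul_eq_zero.2 ⟨h11, h10⟩
    rw [hl, one_nsmul] at h12
    exact sub_eq_zero.1 h12
  · intro M _ f P
    exact (h2 N L M f θ t t' hN hNL hθ hc ht ht').2.2.2 P

end MP7Sh
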