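import Pool.Agent.Lib.MP_7f581e_Sh.SpecL

/-!
# MP_7f581e_nt, GA realizations of `PSL(2, l)`: the good places
-/

set_option autoImplicit false

namespace MP7Sh

open Polynomial WeierstrassCurve

open scoped Classical

private theorem lcg_map (N : ℕ) {F : Type} [Field F] (T : F) (f : F →+* F) (h : f T = T) :
    Ec N T = (Ec N T).map f := by
  by_cases hN : N = 2
  · ext <;> simp [Ec, hN, h]
  · ext <;> simp [Ec, hN, h]

/-- **LcG.** The good places. -/
theorem tLcG (h1 : S_Pts) (h2 : S_Pm) (h3 : S_Int) (h4 : S_Ns) (h5 : S_Red) (h6 : S_Mdl)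
    (h7 : S_Lin) : S_LcG := by
  intro l N _ κ F _ _ _ T b v e hN hG hP hb hbc
  have hK : Kr κ v := hP.toKr
  have hv := hK.ord
  have hTb : T ≠ algebraMap κ F b := fun h => hP.ne (sub_eq_zero.2 h)
  obtain ⟨hIt, hΔ, hΔ1, -⟩ := h6 l N κ F T b v hN hG.tra hK hTb hP.pos
  have iΔ := hΔ1 hb hbc
  have hl5 := hN.l5
  have hlF : Is v 0 (l : F) := by
    have h := hK.isCst hN.lk
    rwa [map_natCast] at h
  have hodd : Odd l := hN.lp.odd_of_ne_two (by omega)
  have hmem : ∀ P : Tl l (Ec N T), l • (P : (Ec N T).toAffine.Point) = 0 := fun P => P.2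
  have hp2 : ∀ (P : Tl l (Ec N T)) (x y : F), At (P : (Ec N T).toAffine.Point) x y →
      Is v 0 (p2 (Ec N T) x y) := fun P x y hA =>
    h4 F v hv (Ec N T) hΔ hIt l hodd hlF P x y (hmem P) hA (Or.inl iΔ)
  refine ⟨?_, fun P₀ _ _ x y hA => hp2 P₀ x y hA, Or.inl hp2⟩
  intro σ hσT hD M hM
  obtain ⟨s0, sA, -, -, -, -, sM, -, -⟩ := h2 F F (σ : F →+* F) (Ec N T) (Ec N T) hΔ
    (lcg_map N T (σ : F →+* F) hσT)
  have hfix : ∀ P : Tl l (Ec N T), pm (Ec N T) (Ec N T) σ P = P := by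
    intro P
    rcases (h1 F (Ec N T) hΔ).1 P.1 with h0 | ⟨x, y, hA⟩
    · rw [h0]
      exact s0
    · have g1 : At (pm (Ec N T) (Ec N T) σ P) (σ x) (σ y) := sA P.1 x y hA
      have g2 : l • pm (Ec N T) (Ec N T) σ P = 0 := by
        have e1 := sM l P.1
        rw [hmem P] at e1
        exact e1.symm.trans s0
      obtain ⟨gx, gy⟩ := h3 F v hv (Ec N T) hΔ hIt l hlF P x y (hmem P) hA
      exact h5 F v hv (Ec N T) hΔ hIt l hodd hlF _ _ _ _ _ _ g2 (hmem P) g1 hA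
        (hK.triv hD gx) (hK.triv hD gy) (Or.inl iΔ)
  have hid : IsM e (pm (Ec N T) (Ec N T) σ) 1 := by
    intro P
    rw [hfix P, Matrix.one_mulVec, e.symm_apply_apply]
  have hM1 : M = 1 := (h7 l F (Ec N T) hΔ e).2.1 _ M 1 hM hid
  rw [hM1, sub_self, zero_mul]

end MP7Sh
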