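import Pool.Agent.Lib.MP_7f581e_Sh.SpecL

/-!
# MP_7f581e_nt: the multiplicative places
-/

set_option autoImplicit false

namespace MP7Sh

open Polynomial WeierstrassCurve

open scoped Classical

private theorem ec_map {N : ℕ} {F : Type} [Field F] (f : F →+* F) (T : F) (h : f T = T) :
    (Ec N T).map f = Ec N T := by
  unfold Ec
  split_ifs
  · ext <;> simp [h]
  · ext <;> simp [h]

private theorem vec2 {l : ℕ} [Fact l.Prime] (M : Matrix (Fin 2) (Fin 2) (ZMod l))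
    (u w : Fin 2 → ZMod l) (hu : M.mulVec u = u) (hw : M.mulVec w = w)
    (hD : u 0 * w 1 - u 1 * w 0 ≠ 0) : M = 1 := by
  have hX : (M - 1) * !![u 0, w 0; u 1, w 1] = 0 := by
    have h0 := congrFun hu 0
    have h1 := congrFun hu 1
    have h2 := congrFun hw 0
    have h3 := congrFun hw 1
    simp only [Matrix.mulVec, dotProduct, Fin.sum_univ_two] at h0 h1 h2 h3
    ext i j
    fin_cases i <;> fin_cases j <;>
      simp [Matrix.mul_apply, Fin.sum_univ_two, Matrix.sub_apply, sub_mul]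
    · linear_combination h0
    · linear_combination h2
    · linear_combination h1
    · linear_combination h3
  have hdet : IsUnit (!![u 0, w 0; u 1, w 1] : Matrix (Fin 2) (Fin 2) (ZMod l)).det := by
    rw [Matrix.det_fin_two_of, isUnit_iff_ne_zero]
    intro h
    exact hD (by linear_combination h)
  have h4 : (M - 1) * !![u 0, w 0; u 1, w 1] * (!![u 0, w 0; u 1, w 1])⁻¹ = 0 := by
    rw [hX, zero_mul]
  rw [Matrix.mul_assoc, Matrix.mul_nonsing_inv _ hdet, mul_one] at h4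
  exact sub_eq_zero.1 h4

private theorem vec2' {l : ℕ} [Fact l.Prime] (u w : Fin 2 → ZMod l) (hw : w ≠ 0)
    (hD : u 0 * w 1 - u 1 * w 0 = 0) : ∃ c : ZMod l, u = c • w := by
  by_cases h0 : w 0 = 0
  · have h1 : w 1 ≠ 0 := by
      intro h1
      refine hw (funext fun i => ?_)
      fin_cases i
      · exact h0
      · exact h1
    refine ⟨u 1 / w 1, funext fun i => ?_⟩
    fin_cases i
    · simp only [Pi.smul_apply, smul_eq_mul, Fin.zero_eta, h0, mul_zero]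
      rw [h0, mul_zero, sub_zero] at hD
      exact (mul_eq_zero.1 hD).resolve_right h1
    · simp only [Pi.smul_apply, smul_eq_mul, Fin.mk_one]
      field_simp
  · refine ⟨u 0 / w 0, funext fun i => ?_⟩
    fin_cases i
    · simp only [Pi.smul_apply, smul_eq_mul, Fin.zero_eta]
      field_simp
    · simp only [Pi.smul_apply, smul_eq_mul, Fin.mk_one]
      field_simp
      linear_combination -hD

private theorem lcm_core (h1 : S_Pts) (h2 : S_Pm) (h3 : S_Cv) (h5 : S_Ns) (h6 : S_Cml)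
    (h7 : S_Cms) (h8 : S_Tan) (h9 : S_Mdl) (h10 : S_Lin) (h11 : S_Plq) (l N : ℕ) [Fact l.Prime]
    (κ F : Type) [Field κ] [Field F] [Algebra κ F] (T : F) (b : κ) (v : F → ℤ)
    (W : WeierstrassCurve F) (hW : Ec N T = W) (e : Tl l W ≃+ (Fin 2 → ZMod l))
    (hN : Nm l N κ) (hG : Gx κ T) (hP : Plc κ T (T - algebraMap κ F b) v)
    (hb : b = 0 ∨ b = c0 N κ) :
    (∀ σ : F ≃ₐ[κ] F, σ T = T → Dv v σ → ∀ M : Matrix (Fin 2) (Fin 2) (ZMod l),
      IsM e (pm W W σ) M → (M - 1) * (M - 1) = 0) ∧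
    (∀ P₀ : Tl l W, P₀ ≠ 0 →
      (∀ σ : F ≃ₐ[κ] F, σ T = T → ∃ n : ℕ, pm W W σ P₀ = (n • P₀ : Tl l W)) →
      ∀ x y : F, At (P₀ : W.toAffine.Point) x y → Is v 0 (p2 W x y)) ∧
    ((∀ (P : Tl l W) (x y : F), At (P : W.toAffine.Point) x y → Is v 0 (p2 W x y)) ∨
      ∃ σ : F ≃ₐ[κ] F, σ T = T ∧ Dv v σ ∧ ∀ M : Matrix (Fin 2) (Fin 2) (ZMod l),
        IsM e (pm W W σ) M → M ≠ 1) := by
  have hl : l.Prime := hN.lp
  have hK : Kr κ v := hP.toKr
  have hv := hK.ord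
  have hTb : T ≠ algebraMap κ F b := by
    rintro rfl
    exact hG.tra (isAlgebraic_algebraMap b)
  obtain ⟨hIt, hΔ, -, hmod⟩ := h9 l N κ F T b v hN hG.tra hK hTb hP.pos
  obtain ⟨r, s, m, hm1, hm3, hMu, hrs⟩ := hmod hb
  rw [hW] at hIt hΔ hMu
  set W' := tr W 1 r s with hW'
  set M : ℤ := m * v (T - algebraMap κ F b) with hMdef
  obtain ⟨c1, c2, c3, c4, c5, c6, c7⟩ := h3 F W 1 r s hΔ one_ne_zero
  have hΔ' : W'.Δ ≠ 0 := by rw [hW', c1, one_pow, one_mul]; exact hΔ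
  have hIsl : Is v 0 (l : F) := by
    have := hK.isCst hN.lk
    rwa [map_natCast] at this
  have hodd : Odd l := hl.odd_of_ne_two (by have := hN.l5; omega)
  have hM : 0 < M := hMu.pos
  have hIt' : It v W' := ⟨hMu.a1, hMu.a2, hMu.a3.mono hM.le, hMu.a4.mono hM.le,
      hMu.a6.ge.mono hM.le⟩
  obtain ⟨d1, d2, d3, d4, d5⟩ := h6 F v hv W' M hΔ' hMu
  -- automorphisms
  have hWm : ∀ σ : F ≃ₐ[κ] F, σ T = T → W.map (σ : F →+* F) = W := fun σ hσ => by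
    rw [← hW]; exact ec_map _ T hσ
  have hW'm : ∀ σ : F ≃ₐ[κ] F, σ T = T → W'.map (σ : F →+* F) = W' ∧
      ∀ P, cv W 1 r s (pm W W σ P) = pm W' W' σ (cv W 1 r s P) := fun σ hσ =>
    c7 (σ : F →+* F) (hWm σ hσ) (map_one _) (hrs σ hσ).1 (hrs σ hσ).2
  have hsub : ∀ P Q : W.toAffine.Point, cv W 1 r s (P - Q) = cv W 1 r s P - cv W 1 r s Q := by
    intro P Q
    rw [eq_sub_iff_add_eq, ← c4, sub_add_cancel]
  have hns : ∀ (n : ℕ) (P : W.toAffine.Point), cv W 1 r s (n • P) = n • cv W 1 r s P := by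
    intro n P
    induction n with
    | zero => rw [zero_smul, zero_smul, c2]
    | succ n ih => rw [succ_nsmul, succ_nsmul, c4, ih]
  have hTl : ∀ P : Tl l W, l • (P : W.toAffine.Point) = 0 := fun P => P.2
  have hTl' : ∀ P : Tl l W, l • cv W 1 r s (P : W.toAffine.Point) = 0 := fun P => by
    rw [← hns, hTl, c2]
  -- the two consequences of `S_Tan`
  have t1 : ∀ σ : F ≃ₐ[κ] F, σ T = T → Dv v σ → ∀ P : Tl l W,
      Cc v M (cv W 1 r s (P : W.toAffine.Point)) = 0 → pm W W σ P = P := by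
    intro σ hσ hD P hc
    refine c5 _ _ ?_
    rw [(hW'm σ hσ).2]
    exact (h8 κ F v hK W' M hΔ' hMu l hl hN.l5 hIsl σ hD (hW'm σ hσ).1 _ (hTl' P)).1 hc
  have t2 : ∀ σ : F ≃ₐ[κ] F, σ T = T → Dv v σ → ∀ P : Tl l W,
      Cc v M (cv W 1 r s (pm W W σ P - P)) = 0 := by
    intro σ hσ hD P
    rw [hsub, (hW'm σ hσ).2]
    exact (h8 κ F v hK W' M hΔ' hMu l hl hN.l5 hIsl σ hD (hW'm σ hσ).1 _ (hTl' P)).2
  -- the unit
  have hU : ∀ (P : Tl l W) (x y : F), At (P : W.toAffine.Point) x y →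
      Cc v M (cv W 1 r s (P : W.toAffine.Point)) = 0 → Is v 0 (p2 W x y) := by
    intro P x y hxy hc
    obtain ⟨e1, e2⟩ := c3 _ _ _ hxy
    have e3 := (d5 l hodd _ (hTl' P)).2 hIsl hc _ _ e1
    have e4 := h5 F v hv W' hΔ' hIt' l hodd hIsl _ _ _ (hTl' P) e1 (Or.inr ⟨M, hMu, e3⟩)
    rw [hW', e2, one_pow, one_mul] at e4
    exact e4
  obtain ⟨-, l2, -, l4⟩ := h10 l F W hΔ e
  -- matrices on vectors
  have hvec : ∀ (A : W.toAffine.Point → W.toAffine.Point) (M' : Matrix (Fin 2) (Fin 2) (ZMod l)),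
      IsM e A M' → ∀ P Q : Tl l W, A P = Q → M'.mulVec (e P) = e Q := by
    intro A M' hA P Q hPQ
    have h12 := hA P
    rw [hPQ] at h12
    have h13 : Q = e.symm (M'.mulVec (e P)) := Subtype.ext h12
    rw [h13, AddEquiv.apply_symm_apply]
  have hmem : ∀ (A : W.toAffine.Point → W.toAffine.Point) (M' : Matrix (Fin 2) (Fin 2) (ZMod l)),
      IsM e A M' → ∀ P : Tl l W, ∃ Q : Tl l W, A P = Q ∧ e Q = M'.mulVec (e P) := fun A M' hA P =>
    ⟨_, hA P, by rw [AddEquiv.apply_symm_apply]⟩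
  -- part (a)
  have hA : ∀ σ : F ≃ₐ[κ] F, σ T = T → Dv v σ → ∀ M' : Matrix (Fin 2) (Fin 2) (ZMod l),
      IsM e (pm W W σ) M' → (M' - 1) * (M' - 1) = 0 := by
    intro σ hσ hD M' hM'
    refine Matrix.ext_of_mulVec_single fun i => ?_
    generalize (Pi.single i 1 : Fin 2 → ZMod l) = u
    rw [Matrix.zero_mulVec, ← Matrix.mulVec_mulVec]
    obtain ⟨P, rfl⟩ := e.surjective u
    obtain ⟨Q, hQ, hQ'⟩ := hmem _ _ hM' P
    have h12 : (M' - 1).mulVec (e P) = e (Q - P) := by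
      rw [Matrix.sub_mulVec, Matrix.one_mulVec, map_sub, hQ']
    have h13 : pm W W σ ((Q - P : Tl l W) : W.toAffine.Point) = ((Q - P : Tl l W) : W.toAffine.Point) := by
      refine t1 σ hσ hD _ ?_
      have h14 := t2 σ hσ hD P
      rw [hQ] at h14
      exact h14
    rw [h12, Matrix.sub_mulVec, Matrix.one_mulVec, hvec _ _ hM' _ _ h13, sub_self]
  by_cases hZ : ∀ P : Tl l W, Cc v M (cv W 1 r s (P : W.toAffine.Point)) = 0
  · exact ⟨hA, fun P₀ _ _ x y hxy => hU P₀ x y hxy (hZ P₀),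
      Or.inl fun P x y hxy => hU P x y hxy (hZ P)⟩
  push Not at hZ
  obtain ⟨P, hPc⟩ := hZ
  -- the isomorphism of the torsion points
  have hinv : ∀ Q' : Tl l W', ∃ Q : Tl l W, cv W 1 r s (Q : W.toAffine.Point) = Q' := by
    intro Q'
    obtain ⟨Q, hQ⟩ := c6 (Q' : W'.toAffine.Point)
    refine ⟨⟨Q, ?_⟩, hQ⟩
    change l • Q = 0
    refine c5 _ _ ?_
    rw [hns, c2, hQ]
    exact Q'.2
  let Φ : Tl l W ≃+ Tl l W' := AddEquiv.ofBijective
    ({ toFun := fun Q => ⟨cv W 1 r s (Q : W.toAffine.Point), hTl' Q⟩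
       map_zero' := Subtype.ext c2
       map_add' := fun A B => Subtype.ext (c4 _ _) } : Tl l W →+ Tl l W')
    ⟨fun A B h => Subtype.ext (c5 _ _ (congrArg Subtype.val h)), fun Q' => by
      obtain ⟨Q, hQ⟩ := hinv Q'
      exact ⟨Q, Subtype.ext hQ⟩⟩
  obtain ⟨P₁, hP₁, hcms⟩ := h7 F v hv W' M hΔ' hMu l hl hN.l5 ⟨Φ.symm.trans e⟩ ⟨Φ P, hPc⟩
  obtain ⟨Q₀, hQ₀⟩ := hinv P₁
  have hΦ : Φ Q₀ = P₁ := Subtype.ext hQ₀
  have hw : e Q₀ ≠ 0 := by
    intro h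
    rw [EmbeddingLike.map_eq_zero_iff] at h
    rw [h, map_zero] at hΦ
    exact hP₁ hΦ.symm
  have hline : ∀ R : Tl l W, Cc v M (cv W 1 r s (R : W.toAffine.Point)) = 0 ↔
      ∃ c : ZMod l, e R = c • e Q₀ := by
    intro R
    have h12 := hcms (Φ R)
    change Cc v M (cv W 1 r s (R : W.toAffine.Point)) = 0 ↔ _ at h12
    rw [h12]
    constructor
    · rintro ⟨n, hn⟩
      refine ⟨n, ?_⟩
      have h13 : R = n • Q₀ := by
        apply Φ.injective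
        rw [map_nsmul, hΦ]
        exact hn
      rw [h13, map_nsmul, Nat.cast_smul_eq_nsmul]
    · rintro ⟨c, hc⟩
      refine ⟨c.val, ?_⟩
      rw [← hΦ, ← map_nsmul]
      congr 1
      apply e.injective
      rw [hc, map_nsmul, ← Nat.cast_smul_eq_nsmul (ZMod l), ZMod.natCast_zmod_val]
  -- the automorphism
  obtain ⟨ρ, hρ⟩ := l4 κ T hWm
  rcases (d5 l hodd _ (hTl' P)).1 with h12 | ⟨x, y, a, hxy, hx0, ha1, ha2, -, hla⟩
  · exact absurd h12 hPc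
  have hndvd : ¬ (l : ℤ) ∣ (a * m : ℕ) := by
    rw [Int.natCast_dvd_natCast, hl.dvd_mul]
    rintro (h | h)
    · exact absurd (Nat.le_of_dvd (by omega) h) (by omega)
    · exact absurd (Nat.le_of_dvd (by omega) h) (by have := hN.l5; omega)
  obtain ⟨q1, q2, -⟩ := h1 F W' hΔ'
  have hfix : ∀ σ : MulAction.stabilizer (F ≃ₐ[κ] F) T, ρ σ = 1 → (σ : F ≃ₐ[κ] F) x = x := by
    intro σ hσ
    have hσT : (σ : F ≃ₐ[κ] F) T = T := σ.2
    have h13 := hρ σ P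
    rw [hσ, Units.val_one, Matrix.one_mulVec, AddEquiv.symm_apply_apply] at h13
    have h14 := (hW'm σ hσT).2 (P : W.toAffine.Point)
    rw [h13] at h14
    have h15 := (h2 F F ((σ : F ≃ₐ[κ] F) : F →+* F) W' W' hΔ' (hW'm σ hσT).1.symm).2.1 _ _ _ hxy
    have h16 : pm W' W' (((σ : F ≃ₐ[κ] F) : F →+* F)) (cv W 1 r s (P : W.toAffine.Point)) =
        cv W 1 r s (P : W.toAffine.Point) := h14.symm
    rw [h16] at h15
    have h17 := (q2 _ _ _ h15).2.1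
    rw [(q2 _ _ _ hxy).2.1] at h17
    exact h17.symm
  obtain ⟨σ, hσD, hσo⟩ := h11 κ F T (T - algebraMap κ F b) v hP (GL (Fin 2) (ZMod l)) ρ x l
    ((a * m : ℕ) : ℤ) hl hx0 hfix (by rw [hla, hMdef]; push_cast; ring) hndvd
  have hσT : (σ : F ≃ₐ[κ] F) T = T := σ.2
  have hρ1 : (ρ σ).1 ≠ 1 := by
    intro h
    have h13 : ρ σ = 1 := Units.ext h
    rw [h13, orderOf_one] at hσo
    exact hl.one_lt.ne hσo
  refine ⟨hA, ?_, Or.inr ⟨σ, hσT, hσD, fun M' hM' => ?_⟩⟩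
  · intro P₀ hP₀ hst x₀ y₀ hxy₀
    refine hU P₀ x₀ y₀ hxy₀ ?_
    rw [hline]
    obtain ⟨n, hn⟩ := hst σ hσT
    have hMn : (ρ σ).1.mulVec (e P₀) = (n : ZMod l) • e P₀ := by
      rw [hvec _ _ (hρ σ) _ _ hn, map_nsmul, Nat.cast_smul_eq_nsmul]
    have h13 := t2 σ hσT hσD P₀
    rw [hn] at h13
    have h14 := (hline (n • P₀ - P₀)).1 h13
    obtain ⟨c, hc⟩ := h14
    rw [map_sub, map_nsmul, ← Nat.cast_smul_eq_nsmul (ZMod l)] at hc
    have hc' : ((n : ZMod l) - 1) • e P₀ = c • e Q₀ := by rw [sub_smul, one_smul, hc]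
    by_cases hn1 : (n : ZMod l) - 1 = 0
    · have hu : (ρ σ).1.mulVec (e P₀) = e P₀ := by
        rw [hMn, sub_eq_zero.1 hn1, one_smul]
      have hcQ : Cc v M (cv W 1 r s (Q₀ : W.toAffine.Point)) = 0 :=
        (hline Q₀).2 ⟨1, (one_smul _ _).symm⟩
      have hwf : (ρ σ).1.mulVec (e Q₀) = e Q₀ := hvec _ _ (hρ σ) _ _ (t1 σ hσT hσD Q₀ hcQ)
      by_cases hD : e P₀ 0 * e Q₀ 1 - e P₀ 1 * e Q₀ 0 = 0
      · exact vec2' _ _ hw hD
      · exact absurd (vec2 _ _ _ hu hwf hD) hρ1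
    · refine ⟨((n : ZMod l) - 1)⁻¹ * c, ?_⟩
      rw [mul_smul, ← hc', ← mul_smul, inv_mul_cancel₀ hn1, one_smul]
  · rw [l2 _ _ _ hM' (hρ σ)]
    exact hρ1

theorem tLcM (h1 : S_Pts) (h2 : S_Pm) (h3 : S_Cv) (h5 : S_Ns) (h6 : S_Cml)
    (h7 : S_Cms) (h8 : S_Tan) (h9 : S_Mdl) (h10 : S_Lin) (h11 : S_Plq) : S_LcM := by
  intro l N _ κ F _ _ _ T b v e hN hG hP hb
  obtain ⟨ha, hb', hc⟩ := lcm_core h1 h2 h3 h5 h6 h7 h8 h9 h10 h11 l N κ F T b v _ rfl e hN hG hP hb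
  exact ⟨ha, hb', hc⟩

end MP7Sh
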