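import Pool.Agent.Lib.MP_7f581e_Sh.SpecL

set_option autoImplicit false

namespace MP7Sh

open Polynomial WeierstrassCurve

open scoped Classical

private theorem Lin_one (l : ℕ) [Fact l.Prime] (F : Type) [Field F] (W : WeierstrassCurve F)
    (e : Tl l W ≃+ (Fin 2 → ZMod l)) (A : W.toAffine.Point → W.toAffine.Point)
    (hadd : ∀ P Q : Tl l W, A ((P : W.toAffine.Point) + Q) = A P + A Q)
    (hmem : ∀ P : Tl l W, A P ∈ Tl l W) : ∃ M, IsM e A M := by
  let f : Tl l W →+ Tl l W := AddMonoidHom.mk' (fun P => ⟨A P, hmem P⟩) (by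
    intro P Q
    apply Subtype.ext
    exact hadd P Q)
  let g : (Fin 2 → ZMod l) →+ (Fin 2 → ZMod l) :=
    (e.toAddMonoidHom.comp f).comp e.symm.toAddMonoidHom
  refine ⟨LinearMap.toMatrix' (AddMonoidHom.toZModLinearMap l g), fun v => ?_⟩
  have h1 : (LinearMap.toMatrix' (AddMonoidHom.toZModLinearMap l g)).mulVec (e v) =
      g (e v) := by
    rw [LinearMap.toMatrix'_mulVec]
    rfl
  rw [h1]
  have h2 : g (e v) = e (f v) := by
    show e (f (e.symm (e v))) = e (f v)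
    rw [e.symm_apply_apply]
  rw [h2, e.symm_apply_apply]
  rfl

private theorem Lin_uniq (l : ℕ) [Fact l.Prime] (F : Type) [Field F] (W : WeierstrassCurve F)
    (e : Tl l W ≃+ (Fin 2 → ZMod l)) (A : W.toAffine.Point → W.toAffine.Point)
    (M M' : Matrix (Fin 2) (Fin 2) (ZMod l)) (h : IsM e A M) (h' : IsM e A M') : M = M' := by
  have key : ∀ x : Fin 2 → ZMod l, M.mulVec x = M'.mulVec x := by
    intro x
    have h1 := h (e.symm x)
    have h2 := h' (e.symm x)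
    rw [e.apply_symm_apply] at h1 h2
    have h3 : e.symm (M.mulVec x) = e.symm (M'.mulVec x) := by
      apply Subtype.ext
      rw [← h1, ← h2]
    exact e.symm.injective h3
  ext i j
  have h4 := congrFun (key (Pi.single j 1)) i
  rw [Matrix.mulVec_single_one, Matrix.mulVec_single_one] at h4
  exact h4

private theorem Lin_comp (l : ℕ) [Fact l.Prime] (F : Type) [Field F] (W : WeierstrassCurve F)
    (e : Tl l W ≃+ (Fin 2 → ZMod l)) (A B : W.toAffine.Point → W.toAffine.Point)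
    (M M' : Matrix (Fin 2) (Fin 2) (ZMod l)) (h : IsM e A M) (h' : IsM e B M') :
    IsM e (fun P => A (B P)) (M * M') := by
  intro v
  show A (B v) = _
  rw [h' v, h (e.symm (M'.mulVec (e v))), e.apply_symm_apply, Matrix.mulVec_mulVec]

theorem tLin (h2 : S_Pm) : S_Lin := by
  intro l _ F _ W hΔ e
  refine ⟨Lin_one l F W e, Lin_uniq l F W e, Lin_comp l F W e, ?_⟩
  intro κ _ _ T hT
  have hex : ∀ σ : MulAction.stabilizer (F ≃ₐ[κ] F) T,
      ∃ M, IsM e (pm W W (σ : F ≃ₐ[κ] F)) M := by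
    intro σ
    have hσ : (σ : F ≃ₐ[κ] F) T = T := σ.2
    obtain ⟨h0, -, hadd, -, -, -, hn, -⟩ := h2 F F ((σ : F ≃ₐ[κ] F) : F →+* F) W W hΔ
      (hT (σ : F ≃ₐ[κ] F) hσ).symm
    refine Lin_one l F W e _ (fun P Q => hadd _ _) fun P => ?_
    show l • pm W W ((σ : F ≃ₐ[κ] F) : F →+* F) P = 0
    have hP : l • (P : W.toAffine.Point) = 0 := P.2
    rw [← hn, hP, h0]
  choose m hm using hex
  have hone : m 1 = 1 := by
    refine Lin_uniq l F W e _ _ _ (hm 1) fun v => ?_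
    obtain ⟨-, -, -, -, -, -, -, hid, -⟩ := h2 F F (RingHom.id F) W W hΔ (by
      rw [WeierstrassCurve.map_id])
    rw [Matrix.one_mulVec, e.symm_apply_apply]
    exact hid v
  have hmul : ∀ σ τ, m (σ * τ) = m σ * m τ := by
    intro σ τ
    refine Lin_uniq l F W e _ _ _ (hm (σ * τ)) ?_
    have h := Lin_comp l F W e _ _ _ _ (hm σ) (hm τ)
    have hσ : (σ : F ≃ₐ[κ] F) T = T := σ.2
    have hτ : (τ : F ≃ₐ[κ] F) T = T := τ.2
    have h9 := (h2 F F ((τ : F ≃ₐ[κ] F) : F →+* F) W W hΔ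
      (hT (τ : F ≃ₐ[κ] F) hτ).symm).2.2.2.2.2.2.2.2 F ((σ : F ≃ₐ[κ] F) : F →+* F) W
      (hT (σ : F ≃ₐ[κ] F) hσ).symm
    intro v
    rw [← h v]
    exact (h9 v).symm
  let ρ₀ : MulAction.stabilizer (F ≃ₐ[κ] F) T →* Matrix (Fin 2) (Fin 2) (ZMod l) :=
    { toFun := m
      map_one' := hone
      map_mul' := hmul }
  exact ⟨ρ₀.toHomUnits, fun σ => hm σ⟩

end MP7Sh
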