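import Pool.Agent.Lib.MP_7f581e_Sh.SpecL

/-!
# MP_7f581e_nt, module `Mdi`: the model at infinity
-/

set_option autoImplicit false

namespace MP7Sh

open Polynomial WeierstrassCurve

open scoped Classical

section

variable {κ F : Type} [Field κ] [Field F] [Algebra κ F] {v : F → ℤ}

private theorem Mdi_k (N : ℕ) : 0 < kk N := by
  unfold kk
  split_ifs <;> norm_num

private theorem Mdi_val (h : Ord v) (k : ℕ) (hk : 0 < k) (T ρ : F) (hT : v T < 0)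
    (hρ : ρ ^ k * T = 1) : 0 < v ρ ∧ ρ ≠ 0 := by
  have hρ0 : ρ ≠ 0 := by
    rintro rfl
    rw [zero_pow hk.ne', zero_mul] at hρ
    exact zero_ne_one hρ
  have hT0 : T ≠ 0 := by
    rintro rfl
    rw [mul_zero] at hρ
    exact zero_ne_one hρ
  refine ⟨?_, hρ0⟩
  have h1 := h.mul (ρ ^ k) T (pow_ne_zero k hρ0) hT0
  rw [hρ, h.one, h.pow hρ0] at h1
  by_contra h2
  have h3 : v ρ ≤ 0 := not_lt.1 h2
  have h4 : (k : ℤ) * v ρ ≤ 0 := mul_nonpos_of_nonneg_of_nonpos (Int.natCast_nonneg k) h3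
  omega

private theorem Mdi_tr (N : ℕ) (hN : N = 2 ∨ N = 3) (T ρ : F) (hρ : ρ ^ kk N * T = 1) :
    tr (Ec N T) ρ 0 0 = (if N = 2 then ⟨0, ρ ^ 2, 0, 1, 0⟩ else ⟨ρ, 0, 1, 0, 0⟩) := by
  rcases hN with rfl | rfl
  · have e : Ec 2 T = ⟨0, 1, 0, T, 0⟩ := if_pos rfl
    have ek : kk 2 = 4 := if_pos rfl
    rw [if_pos rfl, e]
    rw [ek] at hρ
    unfold tr
    refine WeierstrassCurve.ext ?_ ?_ ?_ ?_ ?_
    · change ρ * 0 = 0
      ring
    · change ρ ^ 2 * (1 + 3 * 0) = ρ ^ 2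
      ring
    · change ρ ^ 3 * (0 + 0 * 0 + 2 * 0) = 0
      ring
    · change ρ ^ 4 * (T - 0 * 0 + 2 * 0 * 1 + 3 * 0 ^ 2) = 1
      linear_combination hρ
    · change ρ ^ 6 * (0 + 0 * T + 0 ^ 2 * 1 + 0 ^ 3 - 0 * 0 - 0 ^ 2 - 0 * 0 * 0) = 0
      ring
  · have e : Ec 3 T = ⟨1, 0, T, 0, 0⟩ := if_neg (by norm_num)
    have ek : kk 3 = 3 := if_neg (by norm_num)
    rw [if_neg (by norm_num), e]
    rw [ek] at hρ
    unfold tr
    refine WeierstrassCurve.ext ?_ ?_ ?_ ?_ ?_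
    · change ρ * 1 = ρ
      ring
    · change ρ ^ 2 * (0 + 3 * 0) = 0
      ring
    · change ρ ^ 3 * (T + 0 * 1 + 2 * 0) = 1
      linear_combination hρ
    · change ρ ^ 4 * (0 - 0 * 1 + 2 * 0 * 0 + 3 * 0 ^ 2) = 0
      ring
    · change ρ ^ 6 * (0 + 0 * 0 + 0 ^ 2 * 0 + 0 ^ 3 - 0 * T - 0 ^ 2 - 0 * 0 * 1) = 0
      ring

private theorem Mdi_root [IsAlgClosed κ] (k : ℕ) (hk : 0 < k) (z : F) (hz : z ^ k = 1) :
    ∃ ζ : κ, ζ ^ k = 1 ∧ algebraMap κ F ζ = z := by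
  have h1 : IsIntegral κ z := by
    refine ⟨X ^ k - C 1, monic_X_pow_sub_C 1 hk.ne', ?_⟩
    rw [eval₂_sub, eval₂_X_pow, eval₂_C, hz, map_one, sub_self]
  have h2 : (minpoly κ z).degree = 1 :=
    IsAlgClosed.degree_eq_one_of_irreducible κ (minpoly.irreducible h1)
  obtain ⟨ζ, hζ⟩ := minpoly.mem_range_of_degree_eq_one κ z h2
  refine ⟨ζ, (algebraMap κ F).injective ?_, hζ⟩
  rw [map_pow, hζ, hz, map_one]

end

theorem tMdi : S_Mdi := by
  intro l N κ F _ _ _ _ T ρ v hNm _ hv hT hρ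
  have o := hv.ord
  obtain ⟨hvρ, hρ0⟩ := Mdi_val o (kk N) (Mdi_k N) T ρ hT hρ
  have e := Mdi_tr N hNm.nn T ρ hρ
  have gρ : Ge v 1 ρ := Or.inr hvρ
  have gρ0 : Ge v 0 ρ := gρ.mono (by norm_num)
  have key : It v (if N = 2 then ⟨0, ρ ^ 2, 0, 1, 0⟩ else ⟨ρ, 0, 1, 0, 0⟩ :
      WeierstrassCurve F) ∧ Is v 0 (if N = 2 then ⟨0, ρ ^ 2, 0, 1, 0⟩ else ⟨ρ, 0, 1, 0, 0⟩ :
      WeierstrassCurve F).Δ := by
    rcases hNm.nn with hN | hN
    · rw [if_pos hN]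
      refine ⟨⟨Ge.zero, gρ0.pow0 o 2, Ge.zero, Ge.one o, Ge.zero⟩, ?_⟩
      have hΔ : (⟨0, ρ ^ 2, 0, 1, 0⟩ : WeierstrassCurve F).Δ =
          16 * ρ ^ 3 * ρ + algebraMap κ F (-64) := by
        rw [map_neg, map_ofNat]
        simp only [WeierstrassCurve.Δ, WeierstrassCurve.b₂, WeierstrassCurve.b₄,
          WeierstrassCurve.b₆, WeierstrassCurve.b₈]
        ring
      rw [hΔ]
      have h64 : (-64 : κ) ≠ 0 := by
        have h2 : (2 : κ) ≠ 0 := by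
          have h3 := hNm.nk
          rw [hN] at h3
          exact_mod_cast h3
        have h4 : (-64 : κ) = -(2 ^ 6) := by norm_num
        rw [h4]
        exact neg_ne_zero.2 (pow_ne_zero 6 h2)
      exact Is.ge_add o (((Ge.ofNat o 16).mul_left o (gρ0.pow0 o 3)).mul_left o gρ)
        (hv.isCst h64) one_pos
    · rw [if_neg (by omega)]
      refine ⟨⟨gρ0, Ge.zero, Ge.one o, Ge.zero, Ge.zero⟩, ?_⟩
      have hΔ : (⟨ρ, 0, 1, 0, 0⟩ : WeierstrassCurve F).Δ =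
          ρ ^ 2 * ρ + algebraMap κ F (-27) := by
        rw [map_neg, map_ofNat]
        simp only [WeierstrassCurve.Δ, WeierstrassCurve.b₂, WeierstrassCurve.b₄,
          WeierstrassCurve.b₆, WeierstrassCurve.b₈]
        ring
      rw [hΔ]
      have h27 : (-27 : κ) ≠ 0 := by
        have h2 : (3 : κ) ≠ 0 := by
          have h3 := hNm.nk
          rw [hN] at h3
          exact_mod_cast h3
        have h4 : (-27 : κ) = -(3 ^ 3) := by norm_num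
        rw [h4]
        exact neg_ne_zero.2 (pow_ne_zero 3 h2)
      exact Is.ge_add o ((gρ0.pow0 o 2).mul_left o gρ) (hv.isCst h27) one_pos
  refine ⟨hvρ, hρ0, by rw [e]; exact key.1, by rw [e]; exact key.2, e, fun σ hσ => ?_⟩
  have hT0 : T ≠ 0 := by
    rintro rfl
    rw [mul_zero] at hρ
    exact zero_ne_one hρ
  have h1 : (σ ρ) ^ kk N * T = 1 := by
    have h2 := congrArg σ hρ
    rwa [map_mul, map_pow, hσ, map_one] at h2
  have h3 : (σ ρ) ^ kk N = ρ ^ kk N := mul_right_cancel₀ hT0 (h1.trans hρ.symm)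
  have h4 : (σ ρ / ρ) ^ kk N = 1 := by
    rw [div_pow, h3, div_self (pow_ne_zero _ hρ0)]
  obtain ⟨ζ, hζ, hz⟩ := Mdi_root (κ := κ) (kk N) (Mdi_k N) _ h4
  exact ⟨ζ, hζ, by rw [hz, div_mul_cancel₀ _ hρ0]⟩

end MP7Sh
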