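import Pool.Agent.Lib.MP_7f581e_Sh.SpecL

/-!
# MP_7f581e_nt, GA realizations of `PSL(2, l)`: the models at the finite places
-/

set_option autoImplicit false

namespace MP7Sh

open Polynomial WeierstrassCurve

open scoped Classical

private theorem Mdl_num {κ F : Type} [Field κ] [Field F] [Algebra κ F] {v : F → ℤ}
    (h : Kr κ v) (n : ℕ) (hn : (n : κ) ≠ 0) : Is v 0 (n : F) := by
  have h1 : (n : F) = algebraMap κ F (n : κ) := (map_natCast _ n).symm
  rw [h1]
  exact h.isCst hn

/-- the data for `N = 2`, `b = 0` -/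
private theorem Mdl_20 {κ F : Type} [Field κ] [Field F] [Algebra κ F] {T : F} {v : F → ℤ}
    (h : Kr κ v) (h2 : (2 : κ) ≠ 0) (hT0 : T ≠ 0) (hT : 0 < v T) :
    Mu v ((2 : ℕ) * v T) (tr (Ec 2 T) 1 (-T / 2) 0) := by
  have h2F : (2 : F) ≠ 0 := by
    have := (Mdl_num h 2 (by exact_mod_cast h2)).1
    exact_mod_cast this
  have g2 : Is v 0 (2 : F) := by
    have := Mdl_num h 2 (by exact_mod_cast h2)
    exact_mod_cast this
  have g4 : Is v 0 (4 : F) := by
    have := g2.mul h.ord g2
    norm_num at this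
    exact this
  have gT : Ge v (v T) T := Or.inr le_rfl
  have gT1 : Ge v 1 T := Or.inr hT
  have gT0 : Ge v 0 T := gT1.mono zero_le_one
  have iT : Is v (v T) T := ⟨hT0, rfl⟩
  have gT2 : Is v ((2 : ℕ) * v T) (T ^ 2) := iT.pow h.ord 2
  refine ⟨by push_cast; omega, ?_, ?_, ?_, ?_, ?_, ?_⟩
  · left
    simp [tr, Ec]
  · have e : (tr (Ec 2 T) 1 (-T / 2) 0).a₂ = 1 - 3 * (T / 2) := by
      simp only [tr, Ec, if_true]
      ring
    rw [e]
    refine (Ge.one h.ord).sub h.ord ((Ge.ofNat h.ord 3).mul_left h.ord ?_)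
    rw [div_eq_mul_inv]
    refine gT0.mul_left h.ord ?_
    have := (g2.inv h.ord).ge
    rwa [neg_zero] at this
  · left
    simp [tr, Ec]
  · have e : (tr (Ec 2 T) 1 (-T / 2) 0).a₄ = 3 * (4 : F)⁻¹ * T ^ 2 := by
      simp only [tr, Ec, if_true]
      have h4F : (4 : F) ≠ 0 := g4.1
      field_simp
      ring
    rw [e]
    refine Ge.mul_left h.ord ((Ge.ofNat h.ord 3).mul_left h.ord ?_) gT2.ge
    have := (g4.inv h.ord).ge
    rwa [neg_zero] at this
  · have e : (tr (Ec 2 T) 1 (-T / 2) 0).a₆ = - (T ^ 2 * ((4 : F)⁻¹ + T * (8 : F)⁻¹)) := by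
      simp only [tr, Ec, if_true]
      have h4F : (4 : F) ≠ 0 := g4.1
      have h8F : (8 : F) ≠ 0 := by
        have : (8 : F) = 2 * 4 := by norm_num
        rw [this]
        exact mul_ne_zero h2F h4F
      field_simp
      ring
    rw [e]
    refine Is.neg h.ord ?_
    have g8 : Is v 0 (8 : F) := by
      have := g2.mul h.ord g4
      norm_num at this
      exact this
    have i4 : Is v 0 ((4 : F)⁻¹) := by
      have := g4.inv h.ord
      rwa [neg_zero] at this
    have i8 : Ge v 0 ((8 : F)⁻¹) := by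
      have := (g8.inv h.ord).ge
      rwa [neg_zero] at this
    have hs : Is v 0 ((4 : F)⁻¹ + T * (8 : F)⁻¹) :=
      i4.add_ge h.ord (gT1.mul_right h.ord i8) zero_lt_one
    have := gT2.mul h.ord hs
    rwa [add_zero] at this
  · have e : (tr (Ec 2 T) 1 (-T / 2) 0).b₂ = 4 - 6 * T := by
      simp only [WeierstrassCurve.b₂, tr, Ec, if_true]
      field_simp
      ring
    rw [e]
    exact g4.sub_ge h.ord ((Ge.ofNat h.ord 6).mul_left h.ord gT1) zero_lt_one

/-- the data for `N = 2`, `b = 1/4` -/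
private theorem Mdl_21 {κ F : Type} [Field κ] [Field F] [Algebra κ F] {T : F} {v : F → ℤ}
    (h : Kr κ v) (h2 : (2 : κ) ≠ 0) (hT0 : T - (4 : F)⁻¹ ≠ 0) (hT : 0 < v (T - (4 : F)⁻¹)) :
    Mu v ((1 : ℕ) * v (T - (4 : F)⁻¹)) (tr (Ec 2 T) 1 (-1 / 2) 0) := by
  have g2 : Is v 0 (2 : F) := by
    have := Mdl_num h 2 (by exact_mod_cast h2)
    exact_mod_cast this
  have h2F : (2 : F) ≠ 0 := g2.1
  have g4 : Is v 0 (4 : F) := by
    have := g2.mul h.ord g2
    norm_num at this
    exact this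
  have h4F : (4 : F) ≠ 0 := g4.1
  have h8F : (8 : F) ≠ 0 := by
    have : (8 : F) = 2 * 4 := by norm_num
    rw [this]
    exact mul_ne_zero h2F h4F
  have i2 : Is v 0 ((2 : F)⁻¹) := by
    have := g2.inv h.ord
    rwa [neg_zero] at this
  have gd : Is v ((1 : ℕ) * v (T - (4 : F)⁻¹)) (T - (4 : F)⁻¹) := ⟨hT0, by simp⟩
  refine ⟨by push_cast; omega, ?_, ?_, ?_, ?_, ?_, ?_⟩
  · left
    simp [tr, Ec]
  · have e : (tr (Ec 2 T) 1 (-1 / 2) 0).a₂ = - (2 : F)⁻¹ := by
      simp only [tr, Ec, if_true]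
      field_simp
      ring
    rw [e]
    exact i2.ge.neg h.ord
  · left
    simp [tr, Ec]
  · have e : (tr (Ec 2 T) 1 (-1 / 2) 0).a₄ = T - (4 : F)⁻¹ := by
      simp only [tr, Ec, if_true]
      field_simp
      ring
    rw [e]
    exact gd.ge
  · have e : (tr (Ec 2 T) 1 (-1 / 2) 0).a₆ = - ((T - (4 : F)⁻¹) * (2 : F)⁻¹) := by
      simp only [tr, Ec, if_true]
      field_simp
      ring
    rw [e]
    refine Is.neg h.ord ?_
    have := gd.mul h.ord i2
    rwa [add_zero] at this
  · have e : (tr (Ec 2 T) 1 (-1 / 2) 0).b₂ = - 2 := by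
      simp only [WeierstrassCurve.b₂, tr, Ec, if_true]
      field_simp
      ring
    rw [e]
    exact g2.neg h.ord

/-- the data for `N = 3`, `b = 0` -/
private theorem Mdl_30 {κ F : Type} [Field κ] [Field F] [Algebra κ F] {T : F} {v : F → ℤ}
    (h : Kr κ v) (hT0 : T ≠ 0) (hT : 0 < v T) :
    Mu v ((3 : ℕ) * v T) (tr (Ec 3 T) 1 (-T - 6 * T ^ 2) (3 * T ^ 2)) := by
  have gT1 : Ge v 1 T := Or.inr hT
  have gT0 : Ge v 0 T := gT1.mono zero_le_one
  have iT : Is v (v T) T := ⟨hT0, rfl⟩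
  have gT3 : Is v ((3 : ℕ) * v T) (T ^ 3) := iT.pow h.ord 3
  have h32 : (3 : ℕ) ≠ 2 := by norm_num
  have i1 : Is v 0 (1 : F) := ⟨one_ne_zero, h.ord.one⟩
  refine ⟨by push_cast; omega, ?_, ?_, ?_, ?_, ?_, ?_⟩
  · have e : (tr (Ec 3 T) 1 (-T - 6 * T ^ 2) (3 * T ^ 2)).a₁ = 1 := by
      simp [tr, Ec]
    rw [e]
    exact Ge.one h.ord
  · have e : (tr (Ec 3 T) 1 (-T - 6 * T ^ 2) (3 * T ^ 2)).a₂ = - (3 * T + 18 * T ^ 2) := by
      simp only [tr, Ec, if_neg h32]
      ring
    rw [e]
    exact (((Ge.ofNat h.ord 3).mul_left h.ord gT0).add h.ord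
      ((Ge.ofNat h.ord 18).mul_left h.ord (gT0.pow0 h.ord 2))).neg h.ord
  · left
    simp only [tr, Ec, if_neg h32]
    ring
  · have e : (tr (Ec 3 T) 1 (-T - 6 * T ^ 2) (3 * T ^ 2)).a₄ =
        (36 + 108 * T) * T ^ 3 := by
      simp only [tr, Ec, if_neg h32]
      ring
    rw [e]
    exact Ge.mul_left h.ord ((Ge.ofNat h.ord 36).add h.ord
      ((Ge.ofNat h.ord 108).mul_left h.ord gT0)) gT3.ge
  · have e : (tr (Ec 3 T) 1 (-T - 6 * T ^ 2) (3 * T ^ 2)).a₆ =
        - (T ^ 3 * (1 + (9 + 108 * T + 216 * T ^ 2) * T)) := by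
      simp only [tr, Ec, if_neg h32]
      ring
    rw [e]
    refine Is.neg h.ord ?_
    have h9 : Ge v 0 ((9 : F) + 108 * T + 216 * T ^ 2) :=
      ((Ge.ofNat h.ord 9).add h.ord ((Ge.ofNat h.ord 108).mul_left h.ord gT0)).add h.ord
        ((Ge.ofNat h.ord 216).mul_left h.ord (gT0.pow0 h.ord 2))
    have hs : Is v 0 ((1 : F) + (9 + 108 * T + 216 * T ^ 2) * T) :=
      i1.add_ge h.ord (Ge.mul_left h.ord h9 gT1) zero_lt_one
    have := gT3.mul h.ord hs
    rwa [add_zero] at this
  · have e : (tr (Ec 3 T) 1 (-T - 6 * T ^ 2) (3 * T ^ 2)).b₂ =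
        1 - (12 + 72 * T) * T := by
      simp only [WeierstrassCurve.b₂, tr, Ec, if_neg h32]
      ring
    rw [e]
    exact i1.sub_ge h.ord (Ge.mul_left h.ord ((Ge.ofNat h.ord 12).add h.ord
      ((Ge.ofNat h.ord 72).mul_left h.ord gT0)) gT1) zero_lt_one

/-- the data for `N = 3`, `b = 1/27` -/
private theorem Mdl_31 {κ F : Type} [Field κ] [Field F] [Algebra κ F] {T : F} {v : F → ℤ}
    (h : Kr κ v) (h3 : (3 : κ) ≠ 0) (hT0 : T - (27 : F)⁻¹ ≠ 0) (hT : 0 < v (T - (27 : F)⁻¹)) :
    Mu v ((1 : ℕ) * v (T - (27 : F)⁻¹)) (tr (Ec 3 T) 1 (-1 / 9) (1 / 27)) := by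
  have h32 : (3 : ℕ) ≠ 2 := by norm_num
  have g3 : Is v 0 (3 : F) := by
    have := Mdl_num h 3 (by exact_mod_cast h3)
    exact_mod_cast this
  have h3F : (3 : F) ≠ 0 := g3.1
  have g9 : Is v 0 (9 : F) := by
    have := g3.mul h.ord g3
    norm_num at this
    exact this
  have g27 : Is v 0 (27 : F) := by
    have := g3.mul h.ord g9
    norm_num at this
    exact this
  have h9F : (9 : F) ≠ 0 := g9.1
  have h27F : (27 : F) ≠ 0 := g27.1
  have i3 : Is v 0 ((3 : F)⁻¹) := by
    have := g3.inv h.ord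
    rwa [neg_zero] at this
  have i27 : Is v 0 ((27 : F)⁻¹) := by
    have := g27.inv h.ord
    rwa [neg_zero] at this
  have e9 : (9 : F) = 3 ^ 2 := by norm_num
  have e27 : (27 : F) = 3 ^ 3 := by norm_num
  have gd : Is v ((1 : ℕ) * v (T - (27 : F)⁻¹)) (T - (27 : F)⁻¹) := ⟨hT0, by simp⟩
  refine ⟨by push_cast; omega, ?_, ?_, ?_, ?_, ?_, ?_⟩
  · have e : (tr (Ec 3 T) 1 (-1 / 9) (1 / 27)).a₁ = 1 := by
      simp [tr, Ec]
    rw [e]
    exact Ge.one h.ord
  · have e : (tr (Ec 3 T) 1 (-1 / 9) (1 / 27)).a₂ = - (3 : F)⁻¹ := by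
      simp only [tr, Ec, if_neg h32, e9, e27]
      field_simp
      ring
    rw [e]
    exact i3.ge.neg h.ord
  · have e : (tr (Ec 3 T) 1 (-1 / 9) (1 / 27)).a₃ = T - (27 : F)⁻¹ := by
      simp only [tr, Ec, if_neg h32, e9, e27]
      field_simp
      ring
    rw [e]
    exact gd.ge
  · left
    simp only [tr, Ec, if_neg h32, e9, e27]
    field_simp
    ring
  · have e : (tr (Ec 3 T) 1 (-1 / 9) (1 / 27)).a₆ = - ((T - (27 : F)⁻¹) * (27 : F)⁻¹) := by
      simp only [tr, Ec, if_neg h32, e9, e27]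
      field_simp
      ring
    rw [e]
    refine Is.neg h.ord ?_
    have := gd.mul h.ord i27
    rwa [add_zero] at this
  · have e : (tr (Ec 3 T) 1 (-1 / 9) (1 / 27)).b₂ = - (3 : F)⁻¹ := by
      simp only [WeierstrassCurve.b₂, tr, Ec, if_neg h32, e9, e27]
      field_simp
      ring
    rw [e]
    exact i3.neg h.ord

theorem tMdl : S_Mdl := by
  intro l N κ F _ _ _ T b v hN htr h hTb hpos
  have hd0 : T - algebraMap κ F b ≠ 0 := sub_ne_zero.mpr hTb
  have gd1 : Ge v 1 (T - algebraMap κ F b) := Or.inr hpos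
  have gb : Ge v 0 (algebraMap κ F b) := h.geCst b
  have gT : Ge v 0 T := by
    have := (gd1.mono zero_le_one).add h.ord gb
    rwa [sub_add_cancel] at this
  have hTne : ∀ c : κ, T ≠ algebraMap κ F c := by
    intro c hc
    rw [hc] at htr
    exact htr (isAlgebraic_algebraMap c)
  have hT0 : T ≠ 0 := by
    have := hTne 0
    rwa [map_zero] at this
  rcases hN.nn with rfl | rfl
  · -- `N = 2`
    have h2 : (2 : κ) ≠ 0 := by
      have := hN.nk
      exact_mod_cast this
    have h4 : (4 : κ) ≠ 0 := by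
      have : (4 : κ) = 2 * 2 := by norm_num
      rw [this]
      exact mul_ne_zero h2 h2
    have g2 : Is v 0 (2 : F) := by
      have := Mdl_num h 2 (by exact_mod_cast h2)
      exact_mod_cast this
    have h2F : (2 : F) ≠ 0 := g2.1
    have g16 : Is v 0 (16 : F) := by
      have := (g2.mul h.ord g2).mul h.ord (g2.mul h.ord g2)
      norm_num at this
      exact this
    have eΔ : (Ec 2 T).Δ = 16 * T ^ 2 * (1 - 4 * T) := by
      simp only [WeierstrassCurve.Δ, WeierstrassCurve.b₂, WeierstrassCurve.b₄,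
        WeierstrassCurve.b₆, WeierstrassCurve.b₈, Ec, if_true]
      ring
    have h14 : (1 : F) - 4 * T ≠ 0 := by
      intro h0
      have h4F : (4 : F) ≠ 0 := by
        have : (4 : F) = 2 * 2 := by norm_num
        rw [this]
        exact mul_ne_zero h2F h2F
      have h1 : T = algebraMap κ F 4⁻¹ := by
        rw [map_inv₀, map_ofNat]
        field_simp
        linear_combination -h0
      exact hTne _ h1
    refine ⟨⟨?_, ?_, ?_, ?_, ?_⟩, ?_, ?_, ?_⟩
    · left; simp [Ec]
    · have e : (Ec 2 T).a₂ = 1 := by simp [Ec]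
      rw [e]; exact Ge.one h.ord
    · left; simp [Ec]
    · have e : (Ec 2 T).a₄ = T := by simp [Ec]
      rw [e]; exact gT
    · left; simp [Ec]
    · rw [eΔ]
      exact mul_ne_zero (mul_ne_zero g16.1 (pow_ne_zero 2 hT0)) h14
    · intro hb0 hbc
      rw [eΔ]
      have ib : Is v 0 (algebraMap κ F b) := h.isCst hb0
      have iT : Is v 0 T := by
        have := ib.ge_add h.ord gd1 zero_lt_one
        rwa [sub_add_cancel] at this
      have hb4 : (1 : κ) - 4 * b ≠ 0 := by
        intro h0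
        apply hbc
        simp only [c0, if_true]
        field_simp
        linear_combination -h0
      have i14 : Is v 0 ((1 : F) - 4 * T) := by
        have h5 : Is v 0 (algebraMap κ F (1 - 4 * b)) := h.isCst hb4
        have h6 := h5.sub_ge h.ord ((Ge.ofNat h.ord 4).mul_left h.ord gd1) zero_lt_one
        rw [map_sub, map_one, map_mul, map_ofNat] at h6
        have e : (1 : F) - 4 * algebraMap κ F b - 4 * (T - algebraMap κ F b) = 1 - 4 * T := by
          ring
        rwa [e] at h6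
      have h7 := (g16.mul h.ord (iT.pow h.ord 2)).mul h.ord i14
      simpa using h7
    · rintro (rfl | rfl)
      · refine ⟨-T / 2, 0, 2, by norm_num, by norm_num, ?_, ?_⟩
        · rw [map_zero, sub_zero] at hpos ⊢
          exact Mdl_20 h h2 hT0 hpos
        · intro σ hσ
          refine ⟨?_, map_zero σ⟩
          rw [map_div₀, map_neg, hσ, map_ofNat]
      · have e : algebraMap κ F (c0 2 κ) = (4 : F)⁻¹ := by
          simp only [c0, if_true]
          rw [map_inv₀, map_ofNat]
        rw [e] at hpos hd0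
        refine ⟨-1 / 2, 0, 1, by norm_num, by norm_num, ?_, ?_⟩
        · rw [e]
          exact Mdl_21 h h2 hd0 hpos
        · intro σ hσ
          refine ⟨?_, map_zero σ⟩
          rw [map_div₀, map_neg, map_one, map_ofNat]
  · -- `N = 3`
    have h32 : (3 : ℕ) ≠ 2 := by norm_num
    have h3 : (3 : κ) ≠ 0 := by
      have := hN.nk
      exact_mod_cast this
    have h27 : (27 : κ) ≠ 0 := by
      have : (27 : κ) = 3 ^ 3 := by norm_num
      rw [this]
      exact pow_ne_zero 3 h3
    have g3 : Is v 0 (3 : F) := by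
      have := Mdl_num h 3 (by exact_mod_cast h3)
      exact_mod_cast this
    have h3F : (3 : F) ≠ 0 := g3.1
    have eΔ : (Ec 3 T).Δ = T ^ 3 * (1 - 27 * T) := by
      simp only [WeierstrassCurve.Δ, WeierstrassCurve.b₂, WeierstrassCurve.b₄,
        WeierstrassCurve.b₆, WeierstrassCurve.b₈, Ec, if_neg h32]
      ring
    have h127 : (1 : F) - 27 * T ≠ 0 := by
      intro h0
      have h27F : (27 : F) ≠ 0 := by
        have : (27 : F) = 3 ^ 3 := by norm_num
        rw [this]
        exact pow_ne_zero 3 h3F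
      have h1 : T = algebraMap κ F 27⁻¹ := by
        rw [map_inv₀, map_ofNat]
        field_simp
        linear_combination -h0
      exact hTne _ h1
    refine ⟨⟨?_, ?_, ?_, ?_, ?_⟩, ?_, ?_, ?_⟩
    · have e : (Ec 3 T).a₁ = 1 := by simp [Ec]
      rw [e]; exact Ge.one h.ord
    · left; simp [Ec]
    · have e : (Ec 3 T).a₃ = T := by simp [Ec]
      rw [e]; exact gT
    · left; simp [Ec]
    · left; simp [Ec]
    · rw [eΔ]
      exact mul_ne_zero (pow_ne_zero 3 hT0) h127
    · intro hb0 hbc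
      rw [eΔ]
      have ib : Is v 0 (algebraMap κ F b) := h.isCst hb0
      have iT : Is v 0 T := by
        have := ib.ge_add h.ord gd1 zero_lt_one
        rwa [sub_add_cancel] at this
      have hb27 : (1 : κ) - 27 * b ≠ 0 := by
        intro h0
        apply hbc
        simp only [c0, if_neg h32]
        field_simp
        linear_combination -h0
      have i127 : Is v 0 ((1 : F) - 27 * T) := by
        have h5 : Is v 0 (algebraMap κ F (1 - 27 * b)) := h.isCst hb27
        have h6 := h5.sub_ge h.ord ((Ge.ofNat h.ord 27).mul_left h.ord gd1) zero_lt_one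
        rw [map_sub, map_one, map_mul, map_ofNat] at h6
        have e : (1 : F) - 27 * algebraMap κ F b - 27 * (T - algebraMap κ F b) =
            1 - 27 * T := by
          ring
        rwa [e] at h6
      have h7 := (iT.pow h.ord 3).mul h.ord i127
      simpa using h7
    · rintro (rfl | rfl)
      · refine ⟨-T - 6 * T ^ 2, 3 * T ^ 2, 3, by norm_num, by norm_num, ?_, ?_⟩
        · rw [map_zero, sub_zero] at hpos ⊢
          exact Mdl_30 h hT0 hpos
        · intro σ hσ
          constructor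
          · rw [map_sub, map_neg, map_mul, map_pow, hσ, map_ofNat]
          · rw [map_mul, map_pow, hσ, map_ofNat]
      · have e : algebraMap κ F (c0 3 κ) = (27 : F)⁻¹ := by
          simp only [c0, if_neg h32]
          rw [map_inv₀, map_ofNat]
        rw [e] at hpos hd0
        refine ⟨-1 / 9, 1 / 27, 1, by norm_num, by norm_num, ?_, ?_⟩
        · rw [e]
          exact Mdl_31 h h3 hd0 hpos
        · intro σ hσ
          constructor
          · rw [map_div₀, map_neg, map_one, map_ofNat]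
          · rw [map_div₀, map_one, map_ofNat]

end MP7Sh
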