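import Pool.Agent.Lib.MP_7f581e_Sh.SpecE

/-! # MP_7f581e_nt, Sh, Mul (helper29): the abscissa of `n P` -/

set_option autoImplicit false

namespace MP7Sh

open Polynomial WeierstrassCurve

open scoped Classical

private theorem mu_rp_smul {L : Type} [Field L] {W : WeierstrassCurve L} {P : W.toAffine.Point}
    {u v c : L} (hc : c ≠ 0) (h : Rp P (c * u) (c * v)) : Rp P u v where
  nz := by
    rcases h.nz with h1 | h1
    · exact Or.inl (right_ne_zero_of_mul h1)
    · exact Or.inr (right_ne_zero_of_mul h1)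
  zero := fun hP => (mul_eq_zero.1 (h.zero hP)).resolve_left hc
  aff := fun x y hxy => by
    obtain ⟨h1, h2⟩ := h.aff x y hxy
    exact ⟨right_ne_zero_of_mul h1, mul_left_cancel₀ hc (by rw [h2]; ring)⟩

private theorem mu_rp_zero (h1 : S_Pts) {L : Type} [Field L] (W : WeierstrassCurve L)
    (hW : W.Δ ≠ 0) : Rp (0 : W.toAffine.Point) 1 0 := by
  obtain ⟨-, a2, -⟩ := h1 L W hW
  exact ⟨Or.inl one_ne_zero, fun _ => rfl, fun x y hxy => absurd rfl (a2 0 x y hxy).1⟩

private theorem mu_rp_aff (h1 : S_Pts) {L : Type} [Field L] (W : WeierstrassCurve L)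
    (hW : W.Δ ≠ 0) (P : W.toAffine.Point) (x y : L) (h : At P x y) : Rp P x 1 := by
  obtain ⟨-, a2, -⟩ := h1 L W hW
  refine ⟨Or.inr one_ne_zero, fun h' => absurd h' (a2 P x y h).1,
    fun x' y' hxy => ⟨one_ne_zero, ?_⟩⟩
  rw [mul_one, ← (a2 P x y h).2.1, (a2 P x' y' hxy).2.1]

private theorem mu_rp_exists (h1 : S_Pts) {L : Type} [Field L] (W : WeierstrassCurve L)
    (hW : W.Δ ≠ 0) (P : W.toAffine.Point) : ∃ r t, Rp P r t := by
  obtain ⟨a1, -⟩ := h1 L W hW
  rcases a1 P with h | ⟨x, y, h⟩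
  · rw [h]
    exact ⟨1, 0, mu_rp_zero h1 W hW⟩
  · exact ⟨x, 1, mu_rp_aff h1 W hW P x y h⟩

/-- The addition-subtraction formulas for `(n + 1) P` and `P`. -/
private theorem mu_as (h1 : S_Pts) (h3 : S_AS) {L : Type} [Field L] (W : WeierstrassCurve L)
    (hW : W.Δ ≠ 0) (P : W.toAffine.Point) (x y : L) (hP : At P x y) (n : ℕ) (f g F G : L[X])
    (h4 : Rp (n • P) (f.eval x) (g.eval x)) (h5 : Rp ((n + 1) • P) (F.eval x) (G.eval x)) (r t : L)
    (h6 : Rp ((n + 2) • P) r t) :
    ∃ c : L, c ≠ 0 ∧ r * f.eval x = c * (A0 W F G).eval x ∧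
      r * g.eval x + t * f.eval x = c * (A1 W F G).eval x ∧
      t * g.eval x = c * ((F - X * G) ^ 2).eval x := by
  have hadd : (n + 1) • P + P = (n + 2) • P := by
    rw [← succ_nsmul]
  have hsub : (n + 1) • P - P = n • P := by
    rw [succ_nsmul, add_sub_cancel_right]
  obtain ⟨c, hc, e0, e1, e2⟩ := h3 L W hW ((n + 1) • P) P (F.eval x) (G.eval x) x 1 r t
    (f.eval x) (g.eval x) _ _ _ h5 (mu_rp_aff h1 W hW P _ _ hP) (by rw [hadd]; exact h6)
    (by rw [hsub]; exact h4) rfl rfl rfl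
  refine ⟨c, hc, ?_, ?_, ?_⟩
  · rw [e0]
    simp only [A0, eval_sub, eval_add, eval_mul, eval_pow, eval_X, eval_C]
    ring
  · rw [e1]
    simp only [A1, eval_add, eval_mul, eval_pow, eval_X, eval_C, eval_ofNat]
    ring
  · rw [e2]
    simp only [eval_sub, eval_mul, eval_pow, eval_X]
    ring

/-- Part (1). -/
private theorem mu_rp (h1 : S_Pts) (h3 : S_AS) (h5 : S_Gn) {L : Type} [Field L]
    (W : WeierstrassCurve L) (hW : W.Δ ≠ 0) (P : W.toAffine.Point) (x y : L) (hP : At P x y)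
    (n : ℕ) : Rp (n • P) ((mf W n).eval x) ((mg W n).eval x) := by
  have key : ∀ n : ℕ, Rp (n • P) ((mf W n).eval x) ((mg W n).eval x) ∧
      Rp ((n + 1) • P) ((mf W (n + 1)).eval x) ((mg W (n + 1)).eval x) := by
    intro n
    induction n with
    | zero =>
      refine ⟨?_, ?_⟩
      · have e1 : mf W 0 = 1 := rfl
        have e2 : mg W 0 = 0 := rfl
        rw [e1, e2, eval_one, eval_zero, zero_smul]
        exact mu_rp_zero h1 W hW
      · have e1 : mf W (0 + 1) = X := rfl
        have e2 : mg W (0 + 1) = 1 := rfl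
        rw [e1, e2, eval_one, eval_X, zero_add, one_smul]
        exact mu_rp_aff h1 W hW P _ _ hP
    | succ n ih =>
      obtain ⟨i1, i2⟩ := ih
      refine ⟨i2, ?_⟩
      obtain ⟨r, t, hrt⟩ := mu_rp_exists h1 W hW ((n + 2) • P)
      obtain ⟨c, hc, e0, e1, e2⟩ := mu_as h1 h3 W hW P x y hP n _ _ _ _ i1 i2 r t hrt
      obtain ⟨-, g0, g1, g2⟩ := h5 L W hW n
      rw [← g0, eval_mul] at e0
      rw [← g1, eval_add, eval_mul, eval_mul] at e1
      rw [← g2, eval_mul] at e2
      have hfin : r = c * (mf W (n + 2)).eval x ∧ t = c * (mg W (n + 2)).eval x := by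
        rcases i1.nz with hu | hv
        · have hr : r = c * (mf W (n + 2)).eval x := by
            apply mul_right_cancel₀ hu
            rw [e0]
            ring
          refine ⟨hr, ?_⟩
          apply mul_right_cancel₀ hu
          rw [hr] at e1
          linear_combination e1
        · have ht : t = c * (mg W (n + 2)).eval x := by
            apply mul_right_cancel₀ hv
            rw [e2]
            ring
          refine ⟨?_, ht⟩
          apply mul_right_cancel₀ hv
          rw [ht] at e1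
          linear_combination e1
      refine mu_rp_smul hc ?_
      rw [← hfin.1, ← hfin.2]
      exact hrt
  exact (key n).1

theorem tMul (h1 : S_Pts) (h2 : S_AS) (_h3 : S_Deg) (h4 : S_Gn) : S_Mul := by
  intro L _ W hW P x y hP n
  have hR := mu_rp h1 h2 h4 W hW P x y hP n
  obtain ⟨a1, -⟩ := h1 L W hW
  refine ⟨hR, ⟨hR.zero, ?_⟩, ?_⟩
  · intro h0
    rcases a1 (n • P) with h | ⟨x', y', h⟩
    · exact h
    · exact absurd h0 (hR.aff x' y' h).1
  · intro x' y' h
    exact (hR.aff x' y' h).2.symm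

end MP7Sh
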