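import Pool.Agent.Lib.MP_7f581e_Sh.SpecV

/-!
# MP_7f581e_nt, Omg: the big field and the Frobenius (helper73)
-/

set_option autoImplicit false

namespace MP7Sh

open Polynomial IntermediateField

open scoped Classical

/-- The extension of an automorphism of the field `k` to a separable closure. -/
private theorem omg_ext {k L : Type} [Field k] [Field L] [A₀ : Algebra k L] [IsSepClosure k L]
    (e : k ≃+* k) : ∃ Φ : L ≃+* L, ∀ x, Φ (algebraMap k L x) = algebraMap k L (e x) := by
  have h0 : Algebra.IsSeparable k L := inferInstance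
  have h1 : IsSepClosure k L := inferInstance
  obtain ⟨A', hA⟩ : ∃ A' : Algebra k L, ∀ x, @algebraMap k L _ _ A' x =
      @algebraMap k L _ _ A₀ (e x) :=
    ⟨((algebraMap k L).comp (e : k →+* k)).toAlgebra, fun _ => rfl⟩
  have hs : @Algebra.IsSeparable k L _ _ A' := by
    refine @Algebra.IsSeparable.of_equiv_equiv k L k L _ _ _ _ A₀ A' e.symm (RingEquiv.refl L)
      ?_ h0
    refine RingHom.ext fun x => ?_
    change @algebraMap k L _ _ A' (e.symm x) = @algebraMap k L _ _ A₀ x
    rw [hA, e.apply_symm_apply]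
  have hc : @IsSepClosure k _ L _ A' :=
    @IsSepClosure.mk k _ L _ A' (@IsSepClosure.sep_closed k _ L _ A₀ h1) hs
  let Φ := @IsSepClosure.equiv k _ L L _ _ A' hc A₀ h1
  have hΦ : ∀ x, Φ (@algebraMap k L _ _ A₀ x) = @algebraMap k L _ _ A' x := fun x =>
    @AlgEquiv.commutes k L L _ _ _ A₀ A' Φ x
  exact ⟨@AlgEquiv.toRingEquiv k L L _ _ _ A₀ A' Φ, fun x => (hΦ x).trans (hA x)⟩

private theorem omg_main (p : ℕ) [Fact p.Prime] (κ L : Type) [Field κ] [IsAlgClosed κ]
    [CharP κ p] [Field L] [Algebra κ L] [Algebra (RatFunc κ) L] [IsScalarTower κ (RatFunc κ) L]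
    [IsSepClosure (RatFunc κ) L] (T : L) (hT : T = algebraMap (RatFunc κ) L RatFunc.X) :
    IsSepClosed L ∧ Transcendental κ T ∧
      (∀ z : L, IsSeparable (IntermediateField.adjoin κ {T}) z) ∧
      (∀ y : L, (∀ σ : L ≃ₐ[κ] L, σ T = T → σ y = y) → y ∈ IntermediateField.adjoin κ {T}) ∧
      ∃ Φ : L ≃+* L, (∀ c : κ, Φ (algebraMap κ L c) = algebraMap κ L (c ^ p)) ∧ Φ T = T := by
  have hT' : Transcendental κ T := by
    rw [hT]
    exact (transcendental_algebraMap_iff (algebraMap (RatFunc κ) L).injective).2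
      RatFunc.transcendental_X
  have hq : ∀ q : κ[X], aeval T q = algebraMap (RatFunc κ) L (algebraMap κ[X] (RatFunc κ) q) := by
    intro q
    rw [hT, aeval_algebraMap_apply, RatFunc.aeval_X_left_eq_algebraMap]
  have key : ∀ w : RatFunc κ,
      ((RatFunc.algEquivOfTranscendental T hT' w : κ⟮T⟯) : L) = algebraMap (RatFunc κ) L w := by
    intro w
    rw [RatFunc.algEquivOfTranscendental_apply, hq, hq, ← map_div₀, RatFunc.num_div_denom]
  refine ⟨IsSepClosure.sep_closed (RatFunc κ), hT', fun z => ?_, fun y hy => ?_, ?_⟩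
  · refine @IsSeparable.of_equiv_equiv (RatFunc κ) L κ⟮T⟯ L _ _ _ _ _ _
      (RatFunc.algEquivOfTranscendental T hT').toRingEquiv (RingEquiv.refl L) ?_ z
      (Algebra.IsSeparable.isSeparable (RatFunc κ) z)
    ext1 w
    exact key w
  · have h1 : y ∈ Set.range (algebraMap (RatFunc κ) L) := by
      rw [InfiniteGalois.mem_range_algebraMap_iff_fixed]
      intro f
      refine hy (f.restrictScalars κ) ?_
      rw [hT]
      exact f.commutes _
    obtain ⟨w, rfl⟩ := h1
    rw [← key w]
    exact Subtype.property _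
  · have : ExpChar κ p := ExpChar.prime Fact.out
    let e0 : RatFunc κ ≃+* RatFunc κ := IsFractionRing.ringEquivOfRingEquiv
      (Polynomial.mapEquiv (frobeniusEquiv κ p))
    obtain ⟨Φ, hΦ⟩ := omg_ext (L := L) e0
    refine ⟨Φ, fun c => ?_, ?_⟩
    · rw [IsScalarTower.algebraMap_apply κ (RatFunc κ) L, hΦ,
        IsScalarTower.algebraMap_apply κ κ[X] (RatFunc κ),
        IsFractionRing.ringEquivOfRingEquiv_algebraMap,
        IsScalarTower.algebraMap_apply κ (RatFunc κ) L,
        IsScalarTower.algebraMap_apply κ κ[X] (RatFunc κ)]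
      simp [frobeniusEquiv_apply, frobenius_def]
    · rw [hT, hΦ, ← RatFunc.algebraMap_X, IsFractionRing.ringEquivOfRingEquiv_algebraMap]
      simp

theorem tOmg : S_Omg := by
  intro p _
  obtain ⟨h1, h2, h3, h4, h5⟩ := omg_main p (AlgebraicClosure (ZMod p))
    (SeparableClosure (RatFunc (AlgebraicClosure (ZMod p)))) _ rfl
  exact ⟨AlgebraicClosure (ZMod p), SeparableClosure (RatFunc (AlgebraicClosure (ZMod p))),
    inferInstance, inferInstance, inferInstance, _, inferInstance, inferInstance, h1, h2, h3,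
    h4, h5⟩

end MP7Sh
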