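import Pool.Agent.Lib.MP_7f581e_Sh.SpecA

/-!
# MP_7f581e_nt, `Sh/Pgl`: the subgroup `PSL` of `PGL`
-/

set_option autoImplicit false

namespace MP7Sh

open Polynomial WeierstrassCurve

open scoped Classical

private theorem pgl_mk {l : ℕ} [Fact l.Prime] (M M' : GL (Fin 2) (ZMod l))
    (h : (QuotientGroup.mk M : PGL l) = QuotientGroup.mk M') (hM : IsSquare M.1.det) :
    IsSquare M'.1.det := by
  have h1 := QuotientGroup.eq.1 h
  rw [Matrix.GeneralLinearGroup.mem_center_iff_val_mem_range_scalar] at h1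
  obtain ⟨a, ha⟩ := h1
  have h2 : M' = M * (M⁻¹ * M') := by group
  have h3 : M'.1.det = M.1.det * (a * a) := by
    rw [h2, Units.val_mul, Matrix.det_mul, ← ha]
    have h4 : (Matrix.scalar (Fin 2) a).det = a * a := by simp [pow_two]
    rw [h4]
  rw [h3]
  exact hM.mul ⟨a, rfl⟩

private theorem pgl_iff {l : ℕ} [Fact l.Prime] (M : GL (Fin 2) (ZMod l)) :
    IsP (QuotientGroup.mk M : PGL l) ↔ IsSquare M.1.det := by
  constructor
  · rintro ⟨M', h, hs⟩
    exact pgl_mk M' M h hs
  · intro h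
    exact ⟨M, rfl, h⟩

private theorem pgl_det {l : ℕ} [Fact l.Prime] (M : GL (Fin 2) (ZMod l)) : M.1.det ≠ 0 := by
  have h := (Matrix.isUnit_iff_isUnit_det M.1).1 M.isUnit
  exact h.ne_zero

private theorem sq1 {l : ℕ} [Fact l.Prime] (a b : ZMod l) (ha : a ≠ 0) (h : IsSquare a) :
    IsSquare (a * b) ↔ IsSquare b := by
  constructor
  · intro h2
    have h3 : b = a⁻¹ * (a * b) := by field_simp
    rw [h3]
    obtain ⟨r, hr⟩ := h
    exact IsSquare.mul ⟨r⁻¹, by rw [hr, mul_inv]⟩ h2
  · intro h2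
    exact h.mul h2

private theorem sq2 {l : ℕ} [Fact l.Prime] (a b : ZMod l) (ha : a ≠ 0) (hb : b ≠ 0)
    (h : ¬ IsSquare a) : IsSquare (a * b) ↔ ¬ IsSquare b := by
  constructor
  · intro h2 h3
    rw [mul_comm] at h2
    exact h ((sq1 b a hb h3).1 h2)
  · intro h2
    rw [← quadraticChar_neg_one_iff_not_isSquare] at h h2
    rw [← quadraticChar_one_iff_isSquare (mul_ne_zero ha hb), map_mul, h, h2]
    norm_num

theorem tPgl : S_Pgl := by
  intro l _ hl
  have h1 : IsP (1 : PGL l) := (pgl_iff 1).2 (by simp)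
  have h3 : ∀ g h : PGL l, IsP g → (IsP (g * h) ↔ IsP h) := by
    intro g h
    induction g using QuotientGroup.induction_on with | _ M =>
    induction h using QuotientGroup.induction_on with | _ M' =>
    intro hM
    rw [← QuotientGroup.mk_mul, pgl_iff, pgl_iff, Units.val_mul, Matrix.det_mul]
    rw [pgl_iff] at hM
    exact sq1 _ _ (pgl_det M) hM
  refine ⟨pgl_iff, h1, h3, ?_, ?_, ?_, ?_⟩
  · intro g h
    induction g using QuotientGroup.induction_on with | _ M =>
    induction h using QuotientGroup.induction_on with | _ M' =>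
    intro hM
    rw [← QuotientGroup.mk_mul, pgl_iff, pgl_iff, Units.val_mul, Matrix.det_mul]
    rw [pgl_iff] at hM
    exact sq2 _ _ (pgl_det M) (pgl_det M') hM
  · obtain ⟨a, ha⟩ := FiniteField.exists_nonsquare (F := ZMod l) (by
      rw [ZMod.ringChar_zmod_n]; omega)
    have ha0 : a ≠ 0 := by
      rintro rfl
      exact ha ⟨0, by ring⟩
    have hd : (!![a, 0; 0, 1] : Matrix (Fin 2) (Fin 2) (ZMod l)).det = a := by
      rw [Matrix.det_fin_two]; simp
    refine ⟨QuotientGroup.mk (Matrix.GeneralLinearGroup.mkOfDetNeZero !![a, 0; 0, 1] (by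
      rwa [hd])), ?_⟩
    rw [pgl_iff]
    change ¬ IsSquare (!![a, 0; 0, 1] : Matrix (Fin 2) (Fin 2) (ZMod l)).det
    rwa [hd]
  · intro g
    induction g using QuotientGroup.induction_on with | _ M =>
    rw [pgl_iff]
    rintro ⟨r, hr⟩
    have hr0 : r ≠ 0 := by
      rintro rfl
      exact pgl_det M (by rw [hr, mul_zero])
    refine ⟨M * Matrix.GeneralLinearGroup.scalar (Fin 2) (Units.mk0 r hr0)⁻¹, ?_, ?_⟩
    · rw [Units.val_mul, Matrix.det_mul, hr]
      simp
      field_simp
    · rw [eq_comm, QuotientGroup.eq, inv_mul_cancel_left,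
        Matrix.GeneralLinearGroup.center_eq_range_scalar]
      exact ⟨_, rfl⟩
  · intro g
    have h4 : ∀ g : PGL l, IsP g → IsP g⁻¹ := by
      intro g hg
      rw [← h3 g g⁻¹ hg, mul_inv_cancel]
      exact h1
    refine ⟨fun h => ?_, h4 g⟩
    have := h4 _ h
    rwa [inv_inv] at this

end MP7Sh
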