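import Pool.Agent.Lib.MP_7f581e_Sh.SpecE

/-!
# MP_7f581e_nt, GA realizations of `PSL(2, l)`: module Pm (homomorphisms of fields)
-/

set_option autoImplicit false

namespace MP7Sh

open Polynomial WeierstrassCurve

open scoped Classical

private theorem Pm_At {L M : Type} [Field L] [Field M] {W : WeierstrassCurve L}
    {W' : WeierstrassCurve M} {f : L → M} {P : W.toAffine.Point} {x y : L} (hP : At P x y)
    (h' : W'.toAffine.Nonsingular (f x) (f y)) : At (pm W W' f P) (f x) (f y) := by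
  obtain ⟨h, rfl⟩ := hP
  exact ⟨h', dif_pos ⟨Affine.Point.some_ne_zero h, h'⟩⟩

private theorem Pm_zero {L M : Type} [Field L] [Field M] {W : WeierstrassCurve L}
    {W' : WeierstrassCurve M} {f : L → M} : pm W W' f 0 = 0 :=
  dif_neg fun h => h.1 rfl

private theorem Pm_congr {L : Type} [Field L] {W : WeierstrassCurve L} {P : W.toAffine.Point}
    {x y x' y' : L} (h : At P x y) (hx : x = x') (hy : y = y') : At P x' y' := by
  subst hx hy
  exact h

theorem tPm (h1 : S_Pts) : S_Pm := by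
  intro L M _ _ f W W' hΔ hW'
  have hΔ' : W'.Δ ≠ 0 := by
    rw [hW', WeierstrassCurve.map_Δ]
    exact (map_ne_zero f).2 hΔ
  obtain ⟨a1, a2, a3, a4, a5, a6, a7, a8, a9, -, -, -⟩ := h1 L W hΔ
  obtain ⟨b1, b2, b3, b4, b5, b6, b7, b8, b9, -, -, -⟩ := h1 M W' hΔ'
  have c1 : W'.a₁ = f W.a₁ := by rw [hW']; rfl
  have c2 : W'.a₂ = f W.a₂ := by rw [hW']; rfl
  have c3 : W'.a₃ = f W.a₃ := by rw [hW']; rfl
  have c4 : W'.a₄ = f W.a₄ := by rw [hW']; rfl
  have c6 : W'.a₆ = f W.a₆ := by rw [hW']; rfl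
  have hp2 : ∀ x y, p2 W' (f x) (f y) = f (p2 W x y) := by
    intro x y
    unfold p2
    rw [c1, c3]
    simp only [map_add, map_mul, map_ofNat]
  have hAt : ∀ (P : W.toAffine.Point) (x y : L), At P x y → At (pm W W' f P) (f x) (f y) := by
    intro P x y hP
    have e := congrArg f (a2 P x y hP).2.2.2
    simp only [map_add, map_mul, map_pow] at e
    obtain ⟨Q, h', -⟩ := b3 (f x) (f y) (by rw [c1, c2, c3, c4, c6]; exact e)
    exact Pm_At hP h'
  have hneg : ∀ P : W.toAffine.Point, pm W W' f (-P) = -pm W W' f P := by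
    intro P
    rcases a1 P with rfl | ⟨x, y, hP⟩
    · rw [neg_zero, Pm_zero, neg_zero]
    · refine b4 _ _ _ _ (hAt _ _ _ (a5 P x y hP)) (Pm_congr (b5 _ _ _ (hAt P x y hP)) rfl ?_)
      rw [c1, c3]
      simp only [map_sub, map_neg, map_mul]
  have hadd : ∀ P Q : W.toAffine.Point,
      pm W W' f (P + Q) = pm W W' f P + pm W W' f Q := by
    intro P Q
    rcases a1 P with rfl | ⟨x, y, hP⟩
    · rw [zero_add, Pm_zero, zero_add]
    rcases a1 Q with rfl | ⟨x', y', hQ⟩
    · rw [add_zero, Pm_zero, add_zero]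
    by_cases hx : x = x'
    · subst hx
      rcases a6 P Q x y y' hP hQ with rfl | rfl
      · by_cases hp : p2 W x y = 0
        · rw [(a9 Q x y hP).2 hp, Pm_zero]
          symm
          rw [b9 _ _ _ (hAt Q x y hP), hp2, hp, map_zero]
        · obtain ⟨m, hm⟩ : ∃ m : L,
              m * p2 W x y = 3 * x ^ 2 + 2 * W.a₂ * x + W.a₄ - W.a₁ * y :=
            ⟨_, div_mul_cancel₀ _ hp⟩
          have hp' : p2 W' (f x) (f y) ≠ 0 := by
            rw [hp2]
            exact (map_ne_zero f).2 hp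
          have hm' : f m * p2 W' (f x) (f y) =
              3 * (f x) ^ 2 + 2 * W'.a₂ * f x + W'.a₄ - W'.a₁ * f y := by
            have e := congrArg f hm
            rw [hp2, c1, c2, c4]
            simpa only [map_add, map_mul, map_pow, map_sub, map_ofNat] using e
          refine b4 _ _ _ _ (hAt _ _ _ (a8 Q x y m hP hp hm))
            (Pm_congr (b8 _ _ _ _ (hAt Q x y hP) hp' hm') ?_ ?_)
          · rw [c1, c2]
            simp only [map_add, map_mul, map_pow, map_sub]
          · rw [c1, c2, c3]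
            simp only [map_add, map_mul, map_pow, map_sub, map_neg]
      · rw [add_neg_cancel, Pm_zero, hneg, add_neg_cancel]
    · obtain ⟨m, hm⟩ : ∃ m : L, m * (x - x') = y - y' :=
        ⟨_, div_mul_cancel₀ _ (sub_ne_zero.2 hx)⟩
      have hx' : f x ≠ f x' := fun h => hx (f.injective h)
      have hm' : f m * (f x - f x') = f y - f y' := by
        have e := congrArg f hm
        simpa only [map_mul, map_sub] using e
      refine b4 _ _ _ _ (hAt _ _ _ (a7 P Q x y x' y' m hP hQ hx hm))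
        (Pm_congr (b7 _ _ _ _ _ _ _ (hAt P x y hP) (hAt Q x' y' hQ) hx' hm') ?_ ?_)
      · rw [c1, c2]
        simp only [map_add, map_mul, map_pow, map_sub]
      · rw [c1, c2, c3]
        simp only [map_add, map_mul, map_pow, map_sub, map_neg]
  refine ⟨Pm_zero, hAt, hadd, hneg, ?_, ?_, ?_, ?_, ?_⟩
  · intro P Q h
    rcases a1 P with rfl | ⟨x, y, hP⟩
    · rcases a1 Q with rfl | ⟨x', y', hQ⟩
      · rfl
      · rw [Pm_zero] at h
        exact absurd h.symm (b2 _ _ _ (hAt Q x' y' hQ)).1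
    · rcases a1 Q with rfl | ⟨x', y', hQ⟩
      · rw [Pm_zero] at h
        exact absurd h (b2 _ _ _ (hAt P x y hP)).1
      · have e1 := b2 _ _ _ (hAt P x y hP)
        have e2 := b2 _ _ _ (hAt Q x' y' hQ)
        rw [h] at e1
        have hx : x = x' := f.injective (e1.2.1.symm.trans e2.2.1)
        have hy : y = y' := f.injective (e1.2.2.1.symm.trans e2.2.2.1)
        subst hx hy
        exact a4 _ _ _ _ hP hQ
  · intro Q x y hQ
    have e := (b2 Q _ _ hQ).2.2.2
    obtain ⟨P, hP⟩ := a3 x y (by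
      apply f.injective
      simp only [map_add, map_mul, map_pow]
      rw [c1, c2, c3, c4, c6] at e
      exact e)
    exact ⟨P, hP, b4 _ _ _ _ (hAt P x y hP) hQ⟩
  · intro n P
    induction n with
    | zero => rw [zero_nsmul, zero_nsmul, Pm_zero]
    | succ n ih => rw [succ_nsmul, succ_nsmul, hadd, ih]
  · intro P
    rcases a1 P with rfl | ⟨x, y, hP⟩
    · exact Pm_zero
    · obtain ⟨h, -⟩ := id hP
      exact a4 _ _ _ _ (Pm_At (f := id) hP h) hP
  · intro N _ g W'' hW'' P
    have hΔ'' : W''.Δ ≠ 0 := by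
      rw [hW'', WeierstrassCurve.map_Δ]
      exact (map_ne_zero g).2 hΔ'
    obtain ⟨-, -, d3, d4, -⟩ := h1 N W'' hΔ''
    rcases a1 P with rfl | ⟨x, y, hP⟩
    · rw [Pm_zero, Pm_zero, Pm_zero]
    · have hP' := hAt P x y hP
      have e := congrArg g (b2 _ _ _ hP').2.2.2
      simp only [map_add, map_mul, map_pow] at e
      obtain ⟨Q, h', -⟩ := d3 (g (f x)) (g (f y)) (by
        have g1 : W''.a₁ = g W'.a₁ := by rw [hW'']; rfl
        have g2 : W''.a₂ = g W'.a₂ := by rw [hW'']; rfl
        have g3 : W''.a₃ = g W'.a₃ := by rw [hW'']; rfl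
        have g4 : W''.a₄ = g W'.a₄ := by rw [hW'']; rfl
        have g6 : W''.a₆ = g W'.a₆ := by rw [hW'']; rfl
        rw [g1, g2, g3, g4, g6]
        exact e)
      exact d4 _ _ _ _ (Pm_At hP' h') (Pm_At (f := fun x => g (f x)) hP h')

end MP7Sh
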