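import Pool.Agent.Lib.MP_7f581e_Sh.SpecG

/-!
# MP_7f581e_nt, GA realizations of `PSL(2, l)`: the global product formula
-/

set_option autoImplicit false

namespace MP7Sh

open Polynomial WeierstrassCurve

open scoped Classical

private theorem map_Ec {κ F : Type} [Field κ] [Field F] [Algebra κ F] (N : ℕ) (T : F)
    (σ : F ≃ₐ[κ] F) (hσ : σ T = T) : Ec N T = (Ec N T).map (σ : F →+* F) := by
  unfold Ec
  split_ifs
  · ext <;> simp [WeierstrassCurve.map, hσ]
  · ext <;> simp [WeierstrassCurve.map, hσ]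

private theorem ne_cst {κ F : Type} [Field κ] [Field F] [Algebra κ F] {T : F}
    (hT : Transcendental κ T) (c : κ) : T ≠ algebraMap κ F c := by
  intro h
  exact hT (h ▸ isAlgebraic_algebraMap c)

private theorem disc_Ec {κ F : Type} [Field κ] [Field F] [Algebra κ F] {l N : ℕ} {T : F}
    (hN : Nm l N κ) (hT : Transcendental κ T) : (Ec N T).Δ ≠ 0 := by
  have h0 : T ≠ 0 := by
    have := ne_cst hT (0 : κ)
    rwa [map_zero] at this
  rcases hN.nn with rfl | rfl
  · have h2 : (2 : κ) ≠ 0 := by simpa using hN.nk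
    have h2' : (2 : F) ≠ 0 := by
      have := (map_ne_zero (algebraMap κ F)).mpr h2
      rwa [map_ofNat] at this
    have h4 : (1 : F) - 4 * T ≠ 0 := by
      intro h
      have h5 : T = algebraMap κ F (4⁻¹) := by
        rw [map_inv₀, map_ofNat]
        have h6 : (4 : F) * T = 1 := by linear_combination -h
        exact eq_inv_of_mul_eq_one_right h6
      exact ne_cst hT _ h5
    have h3 : (Ec 2 T).Δ = 2 ^ 4 * T ^ 2 * (1 - 4 * T) := by
      simp only [Ec, if_true, WeierstrassCurve.Δ, WeierstrassCurve.b₂, WeierstrassCurve.b₄,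
        WeierstrassCurve.b₆, WeierstrassCurve.b₈]
      ring
    rw [h3]
    exact mul_ne_zero (mul_ne_zero (pow_ne_zero _ h2') (pow_ne_zero _ h0)) h4
  · have h4 : (1 : F) - 27 * T ≠ 0 := by
      intro h
      have h5 : T = algebraMap κ F (27⁻¹) := by
        rw [map_inv₀, map_ofNat]
        have h6 : (27 : F) * T = 1 := by linear_combination -h
        exact eq_inv_of_mul_eq_one_right h6
      exact ne_cst hT _ h5
    have h3 : (Ec 3 T).Δ = T ^ 3 * (1 - 27 * T) := by
      simp only [Ec, show (3 : ℕ) ≠ 2 by norm_num, if_false, WeierstrassCurve.Δ,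
        WeierstrassCurve.b₂, WeierstrassCurve.b₄, WeierstrassCurve.b₆, WeierstrassCurve.b₈]
      ring
    rw [h3]
    exact mul_ne_zero (pow_ne_zero _ h0) h4

private theorem ord_prod {F : Type} [Field F] {v : F → ℤ} (hv : Ord v) {ι : Type} (s : Finset ι)
    (f : ι → F) (hf : ∀ i ∈ s, f i ≠ 0) : ∏ i ∈ s, f i ≠ 0 ∧ v (∏ i ∈ s, f i) = ∑ i ∈ s, v (f i) := by
  induction s using Finset.induction_on with
  | empty => simp [hv.one]
  | insert a s ha ih =>
    have h1 := ih (fun i hi => hf i (Finset.mem_insert_of_mem hi))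
    have h2 := hf a (Finset.mem_insert_self a s)
    rw [Finset.prod_insert ha, Finset.sum_insert ha]
    exact ⟨mul_ne_zero h2 h1.1, by rw [hv.mul _ _ h2 h1.1, h1.2]⟩

theorem tPrd (h1 : S_Pts) (h2 : S_Pm) (h3 : S_Cst) (h4 : S_Inf) (h5 : S_Plx) : S_Prd := by
  intro l N _ κ F _ _ _ _ T ρ e hN hG hρ S hSne hS0 hst H
  have hΔ := disc_Ec hN hG.tra
  obtain ⟨q1, q2, -, -, -, -, -, -, -, -, -, -⟩ := h1 F (Ec N T) hΔ
  have haff : ∀ P ∈ S, At (P : (Ec N T).toAffine.Point) (px (P : (Ec N T).toAffine.Point))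
      (py (P : (Ec N T).toAffine.Point)) := by
    intro P hP
    have hP0 : (P : (Ec N T).toAffine.Point) ≠ 0 := by
      intro h0
      have : P = 0 := Subtype.ext h0
      exact hS0 (this ▸ hP)
    obtain ⟨x, y, hxy⟩ := (q1 P).resolve_left hP0
    obtain ⟨-, hx, hy, -⟩ := q2 P x y hxy
    rw [hx, hy]; exact hxy
  obtain ⟨q, hq⟩ : ∃ q : S → F, ∀ P : S, q P =
      p2 (Ec N T) (px ((P : Tl l (Ec N T)) : (Ec N T).toAffine.Point))
        (py ((P : Tl l (Ec N T)) : (Ec N T).toAffine.Point)) := ⟨_, fun _ => rfl⟩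
  obtain ⟨w, hw⟩ := (h5 κ F T hG).2
  have hinf : ∀ P : S, q P ≠ 0 ∧ w (q P) < 0 := by
    intro P
    rw [hq]
    exact (h4 l N κ F T ρ w e hN hG hw hρ).2 P _ _ (haff P P.2)
  have hfix : ∀ σ : F ≃ₐ[κ] F, σ T = T → σ (∏ P : S, q P) = ∏ P : S, q P := by
    intro σ hσ
    have hm := map_Ec N T σ hσ
    obtain ⟨-, a2, -, -, a5, -, -, -, -⟩ :=
      h2 F F (σ : F →+* F) (Ec N T) (Ec N T) hΔ hm
    have hst' : ∀ P : S, ∃ Q : S, pm (Ec N T) (Ec N T) σ
        ((P : Tl l (Ec N T)) : (Ec N T).toAffine.Point) =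
        ((Q : Tl l (Ec N T)) : (Ec N T).toAffine.Point) := by
      intro P
      obtain ⟨Q, hQ, hPQ⟩ := hst σ hσ P P.2
      exact ⟨⟨Q, hQ⟩, hPQ⟩
    choose g hg using hst'
    have hinj : Function.Injective g := by
      intro P Q hPQ
      have h6 := a5 ((P : Tl l (Ec N T)) : (Ec N T).toAffine.Point)
        ((Q : Tl l (Ec N T)) : (Ec N T).toAffine.Point)
        ((hg P).trans ((congrArg (fun R : S =>
          ((R : Tl l (Ec N T)) : (Ec N T).toAffine.Point)) hPQ).trans (hg Q).symm))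
      exact Subtype.ext (Subtype.ext h6)
    have hbij : Function.Bijective g := Finite.injective_iff_bijective.1 hinj
    have hval : ∀ P : S, σ (q P) = q (g P) := by
      intro P
      have h6 := a2 _ _ _ (haff P P.2)
      have h7 : At ((g P : Tl l (Ec N T)) : (Ec N T).toAffine.Point)
          (σ (px ((P : Tl l (Ec N T)) : (Ec N T).toAffine.Point)))
          (σ (py ((P : Tl l (Ec N T)) : (Ec N T).toAffine.Point))) := by
        rw [← hg P]; exact h6
      obtain ⟨-, hx, hy, -⟩ := q2 _ _ _ h7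
      rw [hq, hq, hx, hy]
      have e1 : σ (Ec N T).a₁ = (Ec N T).a₁ := (congrArg WeierstrassCurve.a₁ hm).symm
      have e3 : σ (Ec N T).a₃ = (Ec N T).a₃ := (congrArg WeierstrassCurve.a₃ hm).symm
      simp only [p2, map_add, map_mul, map_ofNat, e1, e3]
    rw [map_prod]
    calc ∏ P : S, σ (q P) = ∏ P : S, q (g P) := Finset.prod_congr rfl fun P _ => hval P
      _ = ∏ P : S, q P := hbij.prod_comp q
  have hz0 : ∏ P : S, q P ≠ 0 := Finset.prod_ne_zero_iff.2 fun P _ => (hinf P).1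
  obtain ⟨c, hc⟩ := h3 κ F T (∏ P : S, q P) hG hz0 hfix (by
    intro b
    obtain ⟨v, hv, hv'⟩ := H b
    refine ⟨v, hv, ?_⟩
    rw [(ord_prod hv.ord Finset.univ q fun P _ => (hinf P).1).2]
    apply Finset.sum_eq_zero
    intro P _
    rw [hq]
    exact (hv' P P.2 _ _ (haff P P.2)).2)
  have hc0 : c ≠ 0 := by
    rintro rfl
    rw [map_zero] at hc
    exact hz0 hc
  have h6 : w (∏ P : S, q P) = 0 := by rw [hc]; exact hw.cst c hc0
  rw [(ord_prod hw.ord Finset.univ q fun P _ => (hinf P).1).2] at h6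
  have h7 : ∑ P : S, w (q P) < 0 := by
    apply Finset.sum_neg (fun P _ => (hinf P).2)
    obtain ⟨P, hP⟩ := hSne
    exact ⟨⟨P, hP⟩, Finset.mem_univ _⟩
  omega

end MP7Sh
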