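import Pool.Agent.Lib.MP_7f581e_Sh.SpecE

/-! # MP_7f581e_nt, Sh, Prm (helper29): primitive triples -/

set_option autoImplicit false

namespace MP7Sh

open Polynomial WeierstrassCurve

open scoped Classical

private theorem prm_dvd_of_dvd {K : Type} [Field K] {f g π : K[X]} (h : IsCoprime f g)
    (hπ : Irreducible π) (h1 : π ∣ f) (h2 : π ∣ g) : False := by
  exact hπ.not_isUnit (h.isUnit_of_dvd' h1 h2)

private theorem prm_one {K : Type} [Field K] (W : WeierstrassCurve K) (hW : W.Δ ≠ 0) (f g : K[X])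
    (hfg : IsCoprime f g) (π : K[X]) (hπ : Irreducible π) :
    ¬ (π ∣ A0 W f g ∧ π ∣ A1 W f g ∧ π ∣ (f - X * g) ^ 2) := by
  rintro ⟨h0, h1, h2⟩
  have hp : Prime π := hπ.prime
  have hE : (W.map (C : K →+* K[X])).IsElliptic := by
    refine ⟨?_⟩
    rw [WeierstrassCurve.map_Δ]
    exact (isUnit_iff_ne_zero.2 hW).map C
  have e0 : ((W.map (C : K →+* K[X])).addSubMap 0).eval ![X * f, f + X * g, g] = A0 W f g := by
    simp only [WeierstrassCurve.addSubMap, A0, Matrix.cons_val_zero, WeierstrassCurve.map_b₂,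
      WeierstrassCurve.map_b₄, WeierstrassCurve.map_b₆, WeierstrassCurve.map_b₈]
    simp
  have e1 : ((W.map (C : K →+* K[X])).addSubMap 1).eval ![X * f, f + X * g, g] = A1 W f g := by
    simp only [WeierstrassCurve.addSubMap, A1, Matrix.cons_val_one, Matrix.cons_val_zero,
      WeierstrassCurve.map_b₂, WeierstrassCurve.map_b₄, WeierstrassCurve.map_b₆,
      WeierstrassCurve.map_b₈]
    simp
  have e2 : ((W.map (C : K →+* K[X])).addSubMap 2).eval ![X * f, f + X * g, g] =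
      (f - X * g) ^ 2 := by
    simp only [WeierstrassCurve.addSubMap]
    simp
    ring
  have key : ∀ i : Fin 3, π ∣ (![X * f, f + X * g, g] : Fin 3 → K[X]) i := by
    intro i
    have h := WeierstrassCurve.addSubMapCoeff_condition (W.map (C : K →+* K[X]))
      ![X * f, f + X * g, g] i
    have h3 : π ∣ (![X * f, f + X * g, g] : Fin 3 → K[X]) i ^ 4 := by
      rw [← h, Fin.sum_univ_three, e0, e1, e2]
      exact dvd_add (dvd_add (Dvd.dvd.mul_left h0 _) (Dvd.dvd.mul_left h1 _))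
        (Dvd.dvd.mul_left h2 _)
    exact hp.dvd_of_dvd_pow h3
  have k1 : π ∣ f + X * g := key 1
  have k2 : π ∣ g := key 2
  have k3 : π ∣ f := (dvd_add_left (Dvd.dvd.mul_left k2 X)).1 k1
  exact prm_dvd_of_dvd hfg hπ k3 k2

private theorem prm_two {K : Type} [Field K] (f₁ g₁ f₂ g₂ : K[X]) (h1 : IsCoprime f₁ g₁)
    (h2 : IsCoprime f₂ g₂) (π : K[X]) (hπ : Irreducible π) :
    ¬ (π ∣ f₁ * f₂ ∧ π ∣ f₁ * g₂ + g₁ * f₂ ∧ π ∣ g₁ * g₂) := by
  rintro ⟨k0, k1, k2⟩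
  have hp : Prime π := hπ.prime
  rcases hp.dvd_or_dvd k0 with h | h
  · have h3 : ¬ π ∣ g₁ := fun h' => prm_dvd_of_dvd h1 hπ h h'
    have h4 : π ∣ g₂ := (hp.dvd_or_dvd k2).resolve_left h3
    have h5 : ¬ π ∣ f₂ := fun h' => prm_dvd_of_dvd h2 hπ h' h4
    have h6 : π ∣ g₁ * f₂ := (dvd_add_right (Dvd.dvd.mul_right h _)).1 k1
    rcases hp.dvd_or_dvd h6 with h7 | h7
    · exact h3 h7
    · exact h5 h7
  · have h3 : ¬ π ∣ g₂ := fun h' => prm_dvd_of_dvd h2 hπ h h'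
    have h4 : π ∣ g₁ := (hp.dvd_or_dvd k2).resolve_right h3
    have h5 : ¬ π ∣ f₁ := fun h' => prm_dvd_of_dvd h1 hπ h' h4
    have h6 : π ∣ f₁ * g₂ := (dvd_add_left (Dvd.dvd.mul_left h _)).1 k1
    rcases hp.dvd_or_dvd h6 with h7 | h7
    · exact h5 h7
    · exact h3 h7

private theorem prm_unit {K : Type} [Field K] (r s u₀ u₁ u₂ w₀ w₁ w₂ : K[X]) (hr : r ≠ 0)
    (hrs : IsCoprime r s) (hu : ∀ π : K[X], Irreducible π → ¬ (π ∣ u₀ ∧ π ∣ u₁ ∧ π ∣ u₂))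
    (h0 : s * u₀ = r * w₀) (h1 : s * u₁ = r * w₁) (h2 : s * u₂ = r * w₂) : IsUnit r := by
  by_contra hnu
  obtain ⟨π, hπ, hd⟩ := WfDvdMonoid.exists_irreducible_factor hnu hr
  have hp : Prime π := hπ.prime
  have hs : ¬ π ∣ s := fun h' => prm_dvd_of_dvd hrs hπ hd h'
  have aux : ∀ u w : K[X], s * u = r * w → π ∣ u := by
    intro u w h
    have h3 : π ∣ s * u := h ▸ Dvd.dvd.mul_right hd w
    exact (hp.dvd_or_dvd h3).resolve_left hs
  exact hu π hπ ⟨aux _ _ h0, aux _ _ h1, aux _ _ h2⟩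

private theorem prm_three {K : Type} [Field K] (u₀ u₁ u₂ w₀ w₁ w₂ : K[X]) (c : RatFunc K)
    (hc : c ≠ 0) (hu : ∀ π : K[X], Irreducible π → ¬ (π ∣ u₀ ∧ π ∣ u₁ ∧ π ∣ u₂))
    (hw : ∀ π : K[X], Irreducible π → ¬ (π ∣ w₀ ∧ π ∣ w₁ ∧ π ∣ w₂))
    (h0 : algebraMap K[X] (RatFunc K) u₀ = c * algebraMap K[X] (RatFunc K) w₀)
    (h1 : algebraMap K[X] (RatFunc K) u₁ = c * algebraMap K[X] (RatFunc K) w₁)
    (h2 : algebraMap K[X] (RatFunc K) u₂ = c * algebraMap K[X] (RatFunc K) w₂) :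
    ∃ e : K, e ≠ 0 ∧ u₀ = C e * w₀ ∧ u₁ = C e * w₁ ∧ u₂ = C e * w₂ := by
  have hr : c.num ≠ 0 := RatFunc.num_ne_zero hc
  have hs : c.denom ≠ 0 := c.denom_ne_zero
  have hinj : Function.Injective (algebraMap K[X] (RatFunc K)) :=
    IsFractionRing.injective K[X] (RatFunc K)
  have hs' : algebraMap K[X] (RatFunc K) c.denom ≠ 0 := by
    rw [Ne, map_eq_zero_iff _ hinj]
    exact hs
  have aux : ∀ u w : K[X], algebraMap K[X] (RatFunc K) u = c * algebraMap K[X] (RatFunc K) w →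
      c.denom * u = c.num * w := by
    intro u w h
    apply hinj
    rw [map_mul, map_mul, h]
    have h3 : algebraMap K[X] (RatFunc K) c.num = algebraMap K[X] (RatFunc K) c.denom * c := by
      have h4 := RatFunc.num_div_denom c
      rw [div_eq_iff hs'] at h4
      rw [h4, mul_comm]
    rw [h3]
    ring
  have a0 := aux _ _ h0
  have a1 := aux _ _ h1
  have a2 := aux _ _ h2
  have hco : IsCoprime c.num c.denom := RatFunc.isCoprime_num_denom c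
  have ur : IsUnit c.num := prm_unit _ _ _ _ _ _ _ _ hr hco hu a0 a1 a2
  have us : IsUnit c.denom := prm_unit _ _ _ _ _ _ _ _ hs hco.symm hw a0.symm a1.symm a2.symm
  obtain ⟨ρ, hρ, hρ'⟩ := Polynomial.isUnit_iff.1 ur
  obtain ⟨σ, hσ, hσ'⟩ := Polynomial.isUnit_iff.1 us
  have hρ0 : ρ ≠ 0 := hρ.ne_zero
  have hσ0 : σ ≠ 0 := hσ.ne_zero
  have fin : ∀ u w : K[X], c.denom * u = c.num * w → u = C (σ⁻¹ * ρ) * w := by
    intro u w h
    rw [← hρ', ← hσ'] at h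
    rw [C_mul, mul_assoc, ← h, ← mul_assoc, ← C_mul, inv_mul_cancel₀ hσ0, C_1, one_mul]
  exact ⟨σ⁻¹ * ρ, mul_ne_zero (inv_ne_zero hσ0) hρ0, fin _ _ a0, fin _ _ a1, fin _ _ a2⟩

theorem tPrm : S_Prm := by
  intro K _
  refine ⟨?_, ?_, ?_⟩
  · intro W hW f g hfg π hπ
    exact prm_one W hW f g hfg π hπ
  · intro f₁ g₁ f₂ g₂ h1 h2 π hπ
    exact prm_two f₁ g₁ f₂ g₂ h1 h2 π hπ
  · intro u₀ u₁ u₂ w₀ w₁ w₂ c hc hu hw h0 h1 h2
    exact prm_three u₀ u₁ u₂ w₀ w₁ w₂ c hc hu hw h0 h1 h2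

end MP7Sh
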