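import Pool.Agent.Lib.MP_7f581e_Sh.SpecI

/-!
# MP_7f581e_nt, module `PsA`: the isogenies are additive
-/

set_option autoImplicit false

namespace MP7Sh

open Polynomial WeierstrassCurve

open scoped Classical

/-! ### Group theory -/

section group

variable {E E' : Type} [AddCommGroup E] [AddCommGroup E'] (K : AddSubgroup E)

private theorem PsA_fin1 (hK : (K : Set E).Finite) (S : E) : {R : E | R + S ∈ K}.Finite :=
  Set.Finite.preimage (f := fun R : E => R + S) (fun _ _ _ _ h => add_right_cancel h) hK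

omit [AddCommGroup E'] in
private theorem PsA_fin2 (h2 : {R : E | R + R = 0}.Finite) (S : E) :
    {R : E | R + R = S}.Finite := by
  by_cases h : ∃ R₀ : E, R₀ + R₀ = S
  · obtain ⟨R₀, hR₀⟩ := h
    refine (h2.image (fun R => R + R₀)).subset ?_
    intro R hR
    refine ⟨R - R₀, ?_, sub_add_cancel R R₀⟩
    change R - R₀ + (R - R₀) = 0
    have hR' : R + R = S := hR
    have h3 : R - R₀ + (R - R₀) = (R + R) - (R₀ + R₀) := by abel
    rw [h3, hR', hR₀, sub_self]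
  · refine Set.Finite.subset Set.finite_empty ?_
    intro R hR
    exact (h ⟨R, hR⟩).elim

private theorem PsA_fin3 (hK : (K : Set E).Finite) (h2 : {R : E | R + R = 0}.Finite) (S : E) :
    {R : E | R + R + S ∈ K}.Finite := by
  refine (hK.biUnion (t := fun k => {R : E | R + R = k - S})
    fun k _ => PsA_fin2 h2 (k - S)).subset ?_
  intro R hR
  refine Set.mem_biUnion hR ?_
  change R + R = R + R + S - S
  abel

private theorem PsA_c1 [Infinite E] (hK : (K : Set E).Finite) (h2 : {R : E | R + R = 0}.Finite)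
    (ψ : E → E') (hneg : ∀ P, ψ (-P) = -ψ P)
    (hG : ∀ A B, A ∉ K → B ∉ K → A + B ∉ K → A - B ∉ K → A + A + B ∉ K → A + B + B ∉ K →
      ψ (A + B) = ψ A + ψ B) (P Q : E) (hP : P ∉ K) (hQ : Q ∉ K) (hPQ : P + Q ∉ K) :
    ψ (P + Q) = ψ P + ψ Q := by
  have f := PsA_fin1 K hK
  have g := PsA_fin3 K hK h2
  obtain ⟨R, hR⟩ := ((((((((((((f 0).union (f P)).union (f Q)).union (f (P + P + Q))).union
    (f (P + P))).union (f (-P))).union (f (-Q))).union (f (-(P + Q + Q)))).union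
    (f (-(Q + Q)))).union (g (P - Q))).union (g P)).union (g (-Q))).infinite_compl.nonempty
  simp only [Set.mem_compl_iff, Set.mem_union, not_or, Set.mem_ofPred_eq] at hR
  obtain ⟨⟨⟨⟨⟨⟨⟨⟨⟨⟨⟨r0, r1⟩, r2⟩, r3⟩, r4⟩, r5⟩, r6⟩, r7⟩, r8⟩, r9⟩, r10⟩, r11⟩ := hR
  have t : ∀ {a b : E}, b ∉ K → a = b → a ∉ K := fun hb h => h ▸ hb
  have t' : ∀ {a b : E}, b ∉ K → a = -b → a ∉ K := fun {a b} hb h ha => hb (by
    have h3 := K.neg_mem ha
    rwa [h, neg_neg] at h3)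
  have e1 : ψ (P + R + (Q - R)) = ψ (P + R) + ψ (Q - R) :=
    hG _ _ (t r1 (by abel)) (t' r6 (by abel)) (t hPQ (by abel)) (t r9 (by abel))
      (t r3 (by abel)) (t' r7 (by abel))
  have e2 : ψ (P + R) = ψ P + ψ R :=
    hG _ _ hP (t r0 (by abel)) (t r1 (by abel)) (t' r5 (by abel)) (t r4 (by abel))
      (t r10 (by abel))
  have e3 : ψ (Q + -R) = ψ Q + ψ (-R) :=
    hG _ _ hQ (t' r0 (by abel)) (t' r6 (by abel)) (t r2 (by abel)) (t' r8 (by abel))
      (t' r11 (by abel))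
  have e4 : P + R + (Q - R) = P + Q := by abel
  rw [e4] at e1
  rw [e1, e2, sub_eq_add_neg, e3, hneg]
  abel

private theorem PsA_trans [Infinite E] (hK : (K : Set E).Finite)
    (h2 : {R : E | R + R = 0}.Finite) (ψ : E → E') (hneg : ∀ P, ψ (-P) = -ψ P)
    (hG : ∀ A B, A ∉ K → B ∉ K → A + B ∉ K → A - B ∉ K → A + A + B ∉ K → A + B + B ∉ K →
      ψ (A + B) = ψ A + ψ B)
    (hT : ∀ A, A ∉ K → ∀ k ∈ K, ψ (A + k) = ψ A ∨ ψ (A + k) = -ψ A) (A : E) (hA : A ∉ K) (k : E)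
    (hk : k ∈ K) : ψ (A + k) = ψ A := by
  by_contra hne
  have c1 := PsA_c1 K hK h2 ψ hneg hG
  have hkK : ∀ {B : E}, B ∉ K → B + k ∉ K := fun {B} hB h => hB (by
    have h3 := K.sub_mem h hk
    rwa [add_sub_cancel_right] at h3)
  have star : ∀ B, B ∉ K → A + B ∉ K → ψ (A + k) + ψ B = ψ A + ψ (B + k) := by
    intro B hB hAB
    have e0 : A + k + B = A + B + k := by abel
    have e1 : A + (B + k) = A + B + k := by abel
    rw [← c1 (A + k) B (hkK hA) hB (e0 ▸ hkK hAB), ← c1 A (B + k) hA (hkK hB) (e1 ▸ hkK hAB),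
      e0, e1]
  have hδ : ψ (A + k) = -ψ A := (hT A hA k hk).resolve_left hne
  have d : ∀ B, B ∉ K → A + B ∉ K → ψ B + ψ B = ψ A + ψ A := by
    intro B hB hAB
    have h1 := star B hB hAB
    rcases hT B hB k hk with h | h
    · rw [h] at h1
      exact (hne (add_right_cancel h1)).elim
    · rw [h, hδ] at h1
      have h3 : ψ B + ψ B = ψ A + (-ψ A + ψ B) + ψ B := by abel
      rw [h3, h1]
      abel
  have f := PsA_fin1 K hK
  obtain ⟨B, hB⟩ := (((f 0).union (f A)).union (f (A + A))).infinite_compl.nonempty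
  simp only [Set.mem_compl_iff, Set.mem_union, not_or, Set.mem_ofPred_eq, add_zero] at hB
  obtain ⟨⟨b0, b1⟩, b2⟩ := hB
  rw [add_comm] at b1
  have e5 : A + (A + B) = B + (A + A) := by abel
  have h4 := d B b0 b1
  have h5 := d (A + B) b1 (e5 ▸ b2)
  rw [c1 A B hA b0 b1] at h5
  have h6 : ψ A + ψ A = 0 := by
    have h7 : ψ A + ψ B + (ψ A + ψ B) = ψ A + ψ A + (ψ B + ψ B) := by abel
    rw [h7, h4] at h5
    exact add_eq_left.1 h5
  exact hne (by rw [hδ]; exact (eq_neg_of_add_eq_zero_left h6).symm)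

private theorem PsA_group [Infinite E] (hK : (K : Set E).Finite)
    (h2 : {R : E | R + R = 0}.Finite) (ψ : E → E') (h0 : ∀ k ∈ K, ψ k = 0)
    (hneg : ∀ P, ψ (-P) = -ψ P)
    (hG : ∀ A B, A ∉ K → B ∉ K → A + B ∉ K → A - B ∉ K → A + A + B ∉ K → A + B + B ∉ K →
      ψ (A + B) = ψ A + ψ B)
    (hT : ∀ A, A ∉ K → ∀ k ∈ K, ψ (A + k) = ψ A ∨ ψ (A + k) = -ψ A) (P Q : E) :
    ψ (P + Q) = ψ P + ψ Q := by
  have T := PsA_trans K hK h2 ψ hneg hG hT
  by_cases hP : P ∈ K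
  · by_cases hQ : Q ∈ K
    · rw [h0 _ (K.add_mem hP hQ), h0 _ hP, h0 _ hQ, add_zero]
    · rw [add_comm P Q, T Q hQ P hP, h0 _ hP, zero_add]
  · by_cases hQ : Q ∈ K
    · rw [T P hP Q hQ, h0 _ hQ, add_zero]
    · by_cases hPQ : P + Q ∈ K
      · have h1 := T (-P) (fun h => hP (by
          have h3 := K.neg_mem h
          rwa [neg_neg] at h3)) (P + Q) hPQ
        rw [neg_add_cancel_left] at h1
        rw [h0 _ hPQ, h1, hneg, add_neg_cancel]
      · exact PsA_c1 K hK h2 ψ hneg hG P Q hP hQ hPQ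

end group

/-! ### The curves -/

section curves

variable {L : Type} [Field L]

private theorem PsA_E2 (t : L) : Ec 2 t = ⟨0, 1, 0, t, 0⟩ := if_pos rfl

private theorem PsA_E3 (t : L) : Ec 3 t = ⟨1, 0, t, 0, 0⟩ := if_neg (by norm_num)

private theorem PsA_psx2 (t x₁ x₂ : L) (h2 : (2 : L) ≠ 0) (h1 : x₁ ≠ 0) (h3 : x₂ ≠ 0) :
    psx 2 t x₁ = psx 2 t x₂ ↔ (x₁ - x₂) * (x₁ * x₂ - t) = 0 := by
  have e : ∀ x : L, psx 2 t x = -(x ^ 2 + x + t) / (2 * x) := fun x => if_pos rfl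
  rw [e, e, div_eq_div_iff (mul_ne_zero h2 h1) (mul_ne_zero h2 h3)]
  constructor
  · intro h
    have h4 : (2 : L) * ((x₁ - x₂) * (x₁ * x₂ - t)) = 0 := by linear_combination -h
    exact (mul_eq_zero.1 h4).resolve_left h2
  · intro h
    linear_combination (-2) * h

private theorem PsA_psx3 (t x₁ x₂ : L) (h2 : (3 : L) ≠ 0) (h1 : x₁ ≠ 0) (h3 : x₂ ≠ 0) :
    psx 3 t x₁ = psx 3 t x₂ ↔
      (x₁ - x₂) * (x₁ ^ 2 * x₂ ^ 2 - t * x₁ * x₂ - t ^ 2 * (x₁ + x₂)) = 0 := by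
  have e : ∀ x : L, psx 3 t x = -(x ^ 3 + t * x + t ^ 2) / (3 * x ^ 2) - 9⁻¹ :=
    fun x => if_neg (by norm_num)
  rw [e, e, sub_left_inj, div_eq_div_iff (mul_ne_zero h2 (pow_ne_zero 2 h1))
    (mul_ne_zero h2 (pow_ne_zero 2 h3))]
  constructor
  · intro h
    have h4 : (3 : L) * ((x₁ - x₂) * (x₁ ^ 2 * x₂ ^ 2 - t * x₁ * x₂ - t ^ 2 * (x₁ + x₂))) = 0 := by
      linear_combination -h
    exact (mul_eq_zero.1 h4).resolve_left h2
  · intro h
    linear_combination (-3) * h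

/-- The abscissa of `A + k`, `k` of abscissa `0`. -/
private theorem PsA_add0 (h1 : S_Pts) (W : WeierstrassCurve L) (hΔ : W.Δ ≠ 0)
    (A k : W.toAffine.Point) (x y y₀ : L) (hA : At A x y) (hk : At k 0 y₀) (hx : x ≠ 0) :
    ∃ x' y', At (A + k) x' y' ∧
      x' * x ^ 2 = (y - y₀) ^ 2 + W.a₁ * (y - y₀) * x - W.a₂ * x ^ 2 - x ^ 3 := by
  obtain ⟨-, -, -, -, -, -, h7, -⟩ := h1 L W hΔ
  have hm : (y - y₀) / x * (x - 0) = y - y₀ := by
    rw [sub_zero, div_mul_cancel₀ _ hx]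
  refine ⟨_, _, h7 A k x y 0 y₀ ((y - y₀) / x) hA hk hx hm, ?_⟩
  field_simp
  ring

private theorem PsA_mem (h1 : S_Pts) (W : WeierstrassCurve L) (hΔ : W.Δ ≠ 0)
    (P : W.toAffine.Point) (x y : L) (h : At P x y) : (P = 0 ∨ px P = 0) ↔ x = 0 := by
  obtain ⟨h2, h3, -⟩ := (h1 L W hΔ).2.1 P x y h
  constructor
  · rintro (h4 | h4)
    · exact (h2 h4).elim
    · rw [← h3, h4]
  · intro h4
    exact Or.inr (by rw [h3, h4])

/-- The group of the points of abscissa `0`. -/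
private def PsA_K (h1 : S_Pts) (N : ℕ) (W : WeierstrassCurve L) (hΔ : W.Δ ≠ 0)
    (hN : N = 2 ∨ N = 3) (hNP : ∀ (P : W.toAffine.Point) (y : L), At P 0 y → N • P = 0) :
    AddSubgroup W.toAffine.Point where
  carrier := {P | P = 0 ∨ px P = 0}
  zero_mem' := Or.inl rfl
  neg_mem' := by
    intro P hP
    rcases (h1 L W hΔ).1 P with h | ⟨x, y, h⟩
    · exact Or.inl (by rw [h, neg_zero])
    · have hx := (PsA_mem h1 W hΔ P x y h).1 hP
      exact (PsA_mem h1 W hΔ (-P) x _ ((h1 L W hΔ).2.2.2.2.1 P x y h)).2 hx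
  add_mem' := by
    intro P Q hP hQ
    rcases (h1 L W hΔ).1 P with h | ⟨x, y, h⟩
    · rw [h, zero_add]
      exact hQ
    rcases (h1 L W hΔ).1 Q with h' | ⟨x', y', h'⟩
    · rw [h', add_zero]
      exact hP
    have hx := (PsA_mem h1 W hΔ P x y h).1 hP
    have hx' := (PsA_mem h1 W hΔ Q x' y' h').1 hQ
    subst hx
    subst hx'
    rcases (h1 L W hΔ).2.2.2.2.2.1 P Q 0 y y' h h' with e | e
    · rw [e]
      have hn := hNP P y h
      rcases hN with rfl | rfl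
      · rw [two_nsmul] at hn
        exact Or.inl hn
      · have e2 : P + P = -P := by
          rw [succ_nsmul, two_nsmul] at hn
          exact eq_neg_of_add_eq_zero_left hn
        rw [e2]
        exact (PsA_mem h1 W hΔ (-P) 0 _ ((h1 L W hΔ).2.2.2.2.1 P 0 y h)).2 rfl
    · rw [e, add_neg_cancel]
      exact Or.inl rfl

private theorem PsA_memK (h1 : S_Pts) (N : ℕ) (W : WeierstrassCurve L) (hΔ : W.Δ ≠ 0)
    (hN : N = 2 ∨ N = 3) (hNP : ∀ (P : W.toAffine.Point) (y : L), At P 0 y → N • P = 0)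
    (P : W.toAffine.Point) : P ∈ PsA_K h1 N W hΔ hN hNP ↔ P = 0 ∨ px P = 0 := Iff.rfl

private theorem PsA_Kfin (h1 : S_Pts) (N : ℕ) (W : WeierstrassCurve L) (hΔ : W.Δ ≠ 0)
    (hN : N = 2 ∨ N = 3) (hNP : ∀ (P : W.toAffine.Point) (y : L), At P 0 y → N • P = 0) :
    (PsA_K h1 N W hΔ hN hNP : Set W.toAffine.Point).Finite := by
  by_cases h : ∃ (T : W.toAffine.Point) (y : L), At T 0 y
  · obtain ⟨T, y, hT⟩ := h
    refine ((Set.finite_singleton 0).union ((Set.finite_singleton T).union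
      (Set.finite_singleton (-T)))).subset ?_
    intro P hP
    rcases (h1 L W hΔ).1 P with h | ⟨x', y', h⟩
    · exact Or.inl h
    · have hx := (PsA_mem h1 W hΔ P x' y' h).1 hP
      subst hx
      rcases (h1 L W hΔ).2.2.2.2.2.1 T P 0 y y' hT h with e | e
      · exact Or.inr (Or.inl e)
      · exact Or.inr (Or.inr e)
  · refine (Set.finite_singleton 0).subset ?_
    intro P hP
    rcases (h1 L W hΔ).1 P with h' | ⟨x', y', h'⟩
    · exact h'
    · have hx := (PsA_mem h1 W hΔ P x' y' h').1 hP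
      subst hx
      exact (h ⟨P, y', h'⟩).elim

private theorem PsA_two (h1 : S_Pts) (W : WeierstrassCurve L) (hΔ : W.Δ ≠ 0)
    (hb : (4 : L) ≠ 0 ∨ W.b₂ ≠ 0) : {R : W.toAffine.Point | R + R = 0}.Finite := by
  have hD : (Cubic.mk 4 W.b₂ (2 * W.b₄) W.b₆).toPoly ≠ 0 := by
    intro h
    rcases hb with hb | hb
    · apply hb
      have h2 := Cubic.coeff_eq_a (P := Cubic.mk 4 W.b₂ (2 * W.b₄) W.b₆)
      rw [h, coeff_zero] at h2
      exact h2.symm
    · apply hb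
      have h2 := Cubic.coeff_eq_b (P := Cubic.mk 4 W.b₂ (2 * W.b₄) W.b₆)
      rw [h, coeff_zero] at h2
      exact h2.symm
  have hs : {x : L | (Cubic.mk 4 W.b₂ (2 * W.b₄) W.b₆).toPoly.IsRoot x}.Finite :=
    Polynomial.finite_setOfPred_isRoot hD
  have hS : {R : W.toAffine.Point | R ≠ 0 ∧ R + R = 0}.Finite := by
    refine Set.Finite.of_injOn (f := px) (t :=
      {x : L | (Cubic.mk 4 W.b₂ (2 * W.b₄) W.b₆).toPoly.IsRoot x}) ?_ ?_ hs
    · rintro R ⟨hR, hR2⟩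
      rcases (h1 L W hΔ).1 R with h | ⟨x, y, h⟩
      · exact (hR h).elim
      · obtain ⟨-, hpx, -⟩ := (h1 L W hΔ).2.1 R x y h
        obtain ⟨-, -, -, -, -, -, -, -, h9, -, h11, -⟩ := h1 L W hΔ
        have h3 := (h9 R x y h).1 hR2
        have h4 := h11 R x y h
        rw [h3] at h4
        rw [hpx]
        change (Cubic.mk 4 W.b₂ (2 * W.b₄) W.b₆).toPoly.eval x = 0
        simp only [Cubic.toPoly, eval_add, eval_mul, eval_C, eval_pow, eval_X]
        linear_combination -h4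
    · rintro R ⟨hR, hR2⟩ R' ⟨hR', hR2'⟩ hRR
      rcases (h1 L W hΔ).1 R with h | ⟨x, y, h⟩
      · exact (hR h).elim
      rcases (h1 L W hΔ).1 R' with h' | ⟨x', y', h'⟩
      · exact (hR' h').elim
      obtain ⟨-, hpx, -⟩ := (h1 L W hΔ).2.1 R x y h
      obtain ⟨-, hpx', -⟩ := (h1 L W hΔ).2.1 R' x' y' h'
      have hxx : x = x' := by rw [← hpx, ← hpx', hRR]
      subst hxx
      rcases (h1 L W hΔ).2.2.2.2.2.1 R R' x y y' h h' with e | e
      · exact e.symm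
      · rw [e]
        exact eq_neg_of_add_eq_zero_left hR2
  refine ((Set.finite_singleton 0).union hS).subset ?_
  intro R hR
  by_cases h0 : R = 0
  · exact Or.inl h0
  · exact Or.inr ⟨h0, hR⟩

private theorem PsA_inf (h1 : S_Pts) [IsAlgClosed L] (W : WeierstrassCurve L) (hΔ : W.Δ ≠ 0) :
    Infinite W.toAffine.Point := by
  refine Infinite.of_surjective (px : W.toAffine.Point → L) ?_
  intro x
  have hq : (C 1 * X ^ 2 + C (W.a₁ * x + W.a₃) * X +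
      C (-(x ^ 3 + W.a₂ * x ^ 2 + W.a₄ * x + W.a₆)) : L[X]).degree ≠ 0 := by
    rw [degree_quadratic one_ne_zero]
    norm_num
  obtain ⟨y, hy⟩ := IsAlgClosed.exists_root _ hq
  have hy2 : y ^ 2 + W.a₁ * x * y + W.a₃ * y = x ^ 3 + W.a₂ * x ^ 2 + W.a₄ * x + W.a₆ := by
    change eval y _ = 0 at hy
    simp only [eval_add, eval_mul, eval_C, eval_pow, eval_X] at hy
    linear_combination hy
  obtain ⟨P, hP⟩ := (h1 L W hΔ).2.2.1 x y hy2
  exact ⟨P, ((h1 L W hΔ).2.1 P x y hP).2.1⟩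

/-- Translation by a point of abscissa `0` does not change `psx`. -/
private theorem PsA_F1 (h1 : S_Pts) (N : ℕ) (hN : N = 2 ∨ N = 3) (hN0 : (N : L) ≠ 0) (t : L)
    (hΔ : (Ec N t).Δ ≠ 0)
    (hNP : ∀ (P : (Ec N t).toAffine.Point) (y : L), At P 0 y → N • P = 0)
    (A k : (Ec N t).toAffine.Point) (x y : L) (hA : At A x y) (hx : x ≠ 0)
    (hk : k ∈ PsA_K h1 N (Ec N t) hΔ hN hNP) :
    ∃ x' y', At (A + k) x' y' ∧ x' ≠ 0 ∧ psx N t x' = psx N t x := by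
  rcases (h1 L (Ec N t) hΔ).1 k with h | ⟨x₀, y₀, h⟩
  · exact ⟨x, y, by rw [h, add_zero]; exact hA, hx, rfl⟩
  have hx0 := (PsA_mem h1 (Ec N t) hΔ k x₀ y₀ h).1 hk
  subst hx0
  obtain ⟨x', y', h', hx'⟩ := PsA_add0 h1 (Ec N t) hΔ A k x y y₀ hA h hx
  have hAK : A ∉ PsA_K h1 N (Ec N t) hΔ hN hNP := fun h3 =>
    hx ((PsA_mem h1 (Ec N t) hΔ A x y hA).1 h3)
  have hx'0 : x' ≠ 0 := by
    intro h3
    apply hAK
    have h4 : A + k ∈ PsA_K h1 N (Ec N t) hΔ hN hNP :=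
      (PsA_mem h1 (Ec N t) hΔ (A + k) x' y' h').2 h3
    have h5 := AddSubgroup.sub_mem _ h4 hk
    rwa [add_sub_cancel_right] at h5
  refine ⟨x', y', h', hx'0, ?_⟩
  have eA := ((h1 L (Ec N t) hΔ).2.1 A x y hA).2.2.2
  have ek := ((h1 L (Ec N t) hΔ).2.1 k 0 y₀ h).2.2.2
  rcases hN with rfl | rfl
  · rw [PsA_psx2 t x' x (by exact_mod_cast hN0) hx'0 hx]
    rw [PsA_E2] at eA ek hx'
    simp only at eA ek hx'
    have hy0 : y₀ = 0 := by
      have h3 : y₀ ^ 2 = 0 := by linear_combination ek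
      exact pow_eq_zero_iff two_ne_zero |>.1 h3
    subst hy0
    have h4 : x * (x' * x - t) = 0 := by linear_combination hx' + eA
    rw [(mul_eq_zero.1 h4).resolve_left hx, mul_zero]
  · rw [PsA_psx3 t x' x (by exact_mod_cast hN0) hx'0 hx]
    rw [PsA_E3] at eA ek hx'
    simp only at eA ek hx'
    have hy0 : y₀ = 0 ∨ y₀ = -t := by
      have h3 : y₀ * (y₀ + t) = 0 := by linear_combination ek
      rcases mul_eq_zero.1 h3 with h4 | h4
      · exact Or.inl h4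
      · exact Or.inr (eq_neg_of_add_eq_zero_left h4)
    have h5 : x ^ 2 * (x' ^ 2 * x ^ 2 - t * x' * x - t ^ 2 * (x' + x)) = 0 := by
      rcases hy0 with rfl | rfl
      · have hu : x' * x ^ 2 = -t * y := by linear_combination hx' + eA
        linear_combination (x' * x ^ 2 - t * y - t * x - t ^ 2) * hu + t ^ 2 * eA
      · have hu : x' * x ^ 2 = t * (y + t + x) := by linear_combination hx' + eA
        linear_combination (x' * x ^ 2 + t * (y + t + x) - t * x - t ^ 2) * hu + t ^ 2 * eA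
    rw [(mul_eq_zero.1 h5).resolve_left (pow_ne_zero 2 hx), mul_zero]

private theorem PsA_close (h1 : S_Pts) (W : WeierstrassCurve L) (hΔ : W.Δ ≠ 0)
    (K : AddSubgroup W.toAffine.Point) (A B k : W.toAffine.Point) (x y y' : L) (hk : k ∈ K)
    (hA : At A x y) (hB : At (B + k) x y') : A - B ∈ K ∨ A + B ∈ K := by
  rcases (h1 L W hΔ).2.2.2.2.2.1 A (B + k) x y y' hA hB with e | e
  · left
    rw [← e, add_sub_cancel_left]
    exact hk
  · right
    have e2 : A + B = -k := by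
      have e3 : A = -(B + k) := by rw [e, neg_neg]
      rw [e3]
      abel
    rw [e2]
    exact K.neg_mem hk

private theorem PsA_F2 (h1 : S_Pts) (N : ℕ) (hN : N = 2 ∨ N = 3) (hN0 : (N : L) ≠ 0) (t : L)
    (hΔ : (Ec N t).Δ ≠ 0)
    (hNP : ∀ (P : (Ec N t).toAffine.Point) (y : L), At P 0 y → N • P = 0)
    (A B : (Ec N t).toAffine.Point) (x₁ y₁ x₂ y₂ : L) (hA : At A x₁ y₁) (hB : At B x₂ y₂)
    (hx₁ : x₁ ≠ 0) (hx₂ : x₂ ≠ 0) (h : psx N t x₁ = psx N t x₂) :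
    A - B ∈ PsA_K h1 N (Ec N t) hΔ hN hNP ∨ A + B ∈ PsA_K h1 N (Ec N t) hΔ hN hNP := by
  have h6 : (Ec N t).a₆ = 0 := by
    rcases hN with rfl | rfl
    · rw [PsA_E2]
    · rw [PsA_E3]
  obtain ⟨T, hT⟩ := (h1 L (Ec N t) hΔ).2.2.1 0 0 (by rw [h6]; ring)
  have hTK : T ∈ PsA_K h1 N (Ec N t) hΔ hN hNP := (PsA_mem h1 (Ec N t) hΔ T 0 0 hT).2 rfl
  have eB := ((h1 L (Ec N t) hΔ).2.1 B x₂ y₂ hB).2.2.2
  have hx12 : x₁ = x₂ → A - B ∈ PsA_K h1 N (Ec N t) hΔ hN hNP ∨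
      A + B ∈ PsA_K h1 N (Ec N t) hΔ hN hNP := by
    intro h3
    subst h3
    exact PsA_close h1 (Ec N t) hΔ _ A B 0 x₁ y₁ y₂ (AddSubgroup.zero_mem _) hA
      (by rw [add_zero]; exact hB)
  obtain ⟨x', y', h', hx'⟩ := PsA_add0 h1 (Ec N t) hΔ B T x₂ y₂ 0 hB hT hx₂
  obtain ⟨x'', y'', h'', hx''⟩ := PsA_add0 h1 (Ec N t) hΔ B (-T) x₂ y₂ _ hB
    ((h1 L (Ec N t) hΔ).2.2.2.2.1 T 0 0 hT) hx₂
  have hc' : x₁ = x' → A - B ∈ PsA_K h1 N (Ec N t) hΔ hN hNP ∨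
      A + B ∈ PsA_K h1 N (Ec N t) hΔ hN hNP := by
    intro h3
    subst h3
    exact PsA_close h1 (Ec N t) hΔ _ A B T x₁ y₁ y' hTK hA h'
  have hc'' : x₁ = x'' → A - B ∈ PsA_K h1 N (Ec N t) hΔ hN hNP ∨
      A + B ∈ PsA_K h1 N (Ec N t) hΔ hN hNP := by
    intro h3
    subst h3
    exact PsA_close h1 (Ec N t) hΔ _ A B (-T) x₁ y₁ y'' (AddSubgroup.neg_mem _ hTK) hA h''
  rcases hN with rfl | rfl
  · rw [PsA_psx2 t x₁ x₂ (by exact_mod_cast hN0) hx₁ hx₂] at h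
    rw [PsA_E2] at eB hx'
    simp only at eB hx'
    rcases mul_eq_zero.1 h with h3 | h3
    · exact hx12 (sub_eq_zero.1 h3)
    · apply hc'
      have h4 : x₂ ^ 2 * (x₁ - x') = 0 := by linear_combination x₂ * h3 - hx' - eB
      exact sub_eq_zero.1 ((mul_eq_zero.1 h4).resolve_left (pow_ne_zero 2 hx₂))
  · rw [PsA_psx3 t x₁ x₂ (by exact_mod_cast hN0) hx₁ hx₂] at h
    rw [PsA_E3] at eB hx' hx''
    simp only at eB hx' hx''
    rcases mul_eq_zero.1 h with h3 | h3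
    · exact hx12 (sub_eq_zero.1 h3)
    · have hu' : x' * x₂ ^ 2 = -t * y₂ := by linear_combination hx' + eB
      have hu'' : x'' * x₂ ^ 2 = t * (y₂ + t + x₂) := by linear_combination hx'' + eB
      have h5 : (x₁ * x₂ ^ 2 - x' * x₂ ^ 2) * (x₁ * x₂ ^ 2 - x'' * x₂ ^ 2) = 0 := by
        rw [hu', hu'']
        linear_combination x₂ ^ 2 * h3 - t ^ 2 * eB
      rcases mul_eq_zero.1 h5 with h6 | h6
      · apply hc'
        rw [← sub_mul] at h6
        exact sub_eq_zero.1 ((mul_eq_zero.1 h6).resolve_right (pow_ne_zero 2 hx₂))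
      · apply hc''
        rw [← sub_mul] at h6
        exact sub_eq_zero.1 ((mul_eq_zero.1 h6).resolve_right (pow_ne_zero 2 hx₂))

private theorem PsA_negY (N : ℕ) (hN : N = 2 ∨ N = 3) (θ t t' x y : L) (hN0 : (N : L) ≠ 0)
    (hθ : Rt N θ) (htt : t + t' = c0 N L) (hx : x ≠ 0) :
    psy N θ t x (-y - (Ec N t).a₁ * x - (Ec N t).a₃) =
      -psy N θ t x y - (Ec N t').a₁ * psx N t x - (Ec N t').a₃ := by
  rcases hN with rfl | rfl
  · rw [PsA_E2, PsA_E2]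
    have e : ∀ y : L, psy 2 θ t x y = -(y * (x ^ 2 - t)) / (2 * θ * x ^ 2) := fun y => if_pos rfl
    rw [e, e]
    simp only
    ring
  · rw [PsA_E3, PsA_E3]
    have h3 : (3 : L) ≠ 0 := by exact_mod_cast hN0
    have hθ' : θ ^ 2 + θ + 1 = 0 := by
      unfold Rt at hθ
      rwa [if_neg (by norm_num)] at hθ
    have h12 : 1 + 2 * θ ≠ 0 := by
      intro h
      apply h3
      linear_combination 4 * hθ' - (1 + 2 * θ) * h
    have h27 : (27 : L) ≠ 0 := by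
      have h4 : (27 : L) = 3 ^ 3 := by norm_num
      rw [h4]
      exact pow_ne_zero 3 h3
    have h9 : (9 : L) ≠ 0 := by
      have h4 : (9 : L) = 3 ^ 2 := by norm_num
      rw [h4]
      exact pow_ne_zero 2 h3
    have ht' : t' = 27⁻¹ - t := by
      have h4 : c0 3 L = 27⁻¹ := if_neg (by norm_num)
      rw [h4] at htt
      linear_combination htt
    have e : ∀ y : L, psy 3 θ t x y =
      (y - t ^ 2 * (2 * y + x + t) / x ^ 3 - t * (x + y) / x ^ 2 - t ^ 2 / x ^ 2 +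
      3 * θ * (-(x ^ 3 + t * x + t ^ 2) / (3 * x ^ 2) - 9⁻¹) -
      (9⁻¹ - θ * 9⁻¹ + t + 3 * θ * t)) / (-3 * (1 + 2 * θ)) := fun y => if_neg (by norm_num)
    have e' : psx 3 t x = -(x ^ 3 + t * x + t ^ 2) / (3 * x ^ 2) - 9⁻¹ := if_neg (by norm_num)
    rw [e, e, e', ht']
    simp only
    have h27' : (27 : L)⁻¹ = (3 : L)⁻¹ ^ 3 := by
      rw [inv_pow]
      norm_num
    have h9' : (9 : L)⁻¹ = (3 : L)⁻¹ ^ 2 := by
      rw [inv_pow]
      norm_num
    rw [h27', h9']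
    field_simp
    ring

private theorem PsA_neg (h1 : S_Pts) (h3 : S_PsW) (N : ℕ) (hN : N = 2 ∨ N = 3) (θ t t' : L)
    (hN0 : (N : L) ≠ 0) (hθ : Rt N θ) (htt : t + t' = c0 N L) (ht : t ≠ 0) (ht' : t' ≠ 0)
    (P : (Ec N t).toAffine.Point) : ps N θ t t' (-P) = -ps N θ t t' P := by
  obtain ⟨hΔ, hps, hker, -⟩ := h3 N L θ t t' hN hN0 hθ htt ht ht'
  obtain ⟨hΔ', -⟩ := h3 N L θ t' t hN hN0 hθ (by rw [add_comm, htt]) ht' ht
  rcases (h1 L (Ec N t) hΔ).1 P with h | ⟨x, y, h⟩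
  · rw [h, neg_zero, (hker 0).1 (Or.inl rfl), neg_zero]
  · have hn := (h1 L (Ec N t) hΔ).2.2.2.2.1 P x y h
    by_cases hx : x = 0
    · rw [(hker P).1 ((PsA_mem h1 (Ec N t) hΔ P x y h).2 hx),
        (hker (-P)).1 ((PsA_mem h1 (Ec N t) hΔ (-P) x _ hn).2 hx), neg_zero]
    · have a1 := hps (-P) x _ hn hx
      have a2 := (h1 L (Ec N t') hΔ').2.2.2.2.1 _ _ _ (hps P x y h hx)
      rw [PsA_negY N hN θ t t' x y hN0 hθ htt hx] at a1
      exact (h1 L (Ec N t') hΔ').2.2.2.1 _ _ _ _ a1 a2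

private theorem PsA_closed (h1 : S_Pts) (h3 : S_PsW) [IsAlgClosed L] (N : ℕ)
    (hN : N = 2 ∨ N = 3) (θ t t' : L) (hN0 : (N : L) ≠ 0) (hθ : Rt N θ)
    (htt : t + t' = c0 N L) (ht : t ≠ 0) (ht' : t' ≠ 0) (hG : AddG N L θ t t')
    (P Q : (Ec N t).toAffine.Point) :
    ps N θ t t' (P + Q) = ps N θ t t' P + ps N θ t t' Q := by
  obtain ⟨hΔ, hps, hker, hNP, -⟩ := h3 N L θ t t' hN hN0 hθ htt ht ht'
  obtain ⟨hΔ', -⟩ := h3 N L θ t' t hN hN0 hθ (by rw [add_comm, htt]) ht' ht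
  have := PsA_inf h1 (Ec N t) hΔ
  have hb : (4 : L) ≠ 0 ∨ (Ec N t).b₂ ≠ 0 := by
    rcases hN with rfl | rfl
    · left
      have h2 : (2 : L) ≠ 0 := by exact_mod_cast hN0
      have h4 : (4 : L) = 2 * 2 := by norm_num
      rw [h4]
      exact mul_ne_zero h2 h2
    · right
      rw [PsA_E3]
      change (1 : L) ^ 2 + 4 * 0 ≠ 0
      rw [mul_zero, add_zero, one_pow]
      exact one_ne_zero
  have key : ∀ A : (Ec N t).toAffine.Point, A ∉ PsA_K h1 N (Ec N t) hΔ hN hNP →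
      ∃ x y, At A x y ∧ x ≠ 0 := by
    intro A hA
    rcases (h1 L (Ec N t) hΔ).1 A with h | ⟨x, y, h⟩
    · exact (hA (Or.inl h)).elim
    · exact ⟨x, y, h, fun hx => hA ((PsA_mem h1 (Ec N t) hΔ A x y h).2 hx)⟩
  refine PsA_group (PsA_K h1 N (Ec N t) hΔ hN hNP) (PsA_Kfin h1 N (Ec N t) hΔ hN hNP)
    (PsA_two h1 (Ec N t) hΔ hb) (ps N θ t t') ?_ (PsA_neg h1 h3 N hN θ t t' hN0 hθ htt ht ht')
    ?_ ?_ P Q
  · intro k hk
    exact (hker k).1 hk
  · intro A B hA hB hAB hd h2 h2'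
    obtain ⟨x₁, y₁, a1, b1⟩ := key A hA
    obtain ⟨x₂, y₂, a2, b2⟩ := key B hB
    obtain ⟨x₃, y₃, a3, b3⟩ := key (A + B) hAB
    have n12 : psx N t x₁ ≠ psx N t x₂ := fun e => by
      rcases PsA_F2 h1 N hN hN0 t hΔ hNP A B x₁ y₁ x₂ y₂ a1 a2 b1 b2 e with h | h
      · exact hd h
      · exact hAB h
    have n13 : psx N t x₁ ≠ psx N t x₃ := fun e => by
      rcases PsA_F2 h1 N hN hN0 t hΔ hNP A (A + B) x₁ y₁ x₃ y₃ a1 a3 b1 b3 e with h | h
      · have e2 : A - (A + B) = -B := by abel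
        rw [e2] at h
        have h4 := AddSubgroup.neg_mem _ h
        rw [neg_neg] at h4
        exact hB h4
      · rw [← add_assoc] at h
        exact h2 h
    have n23 : psx N t x₂ ≠ psx N t x₃ := fun e => by
      rcases PsA_F2 h1 N hN hN0 t hΔ hNP B (A + B) x₂ y₂ x₃ y₃ a2 a3 b2 b3 e with h | h
      · have e2 : B - (A + B) = -A := by abel
        rw [e2] at h
        have h4 := AddSubgroup.neg_mem _ h
        rw [neg_neg] at h4
        exact hA h4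
      · have e2 : B + (A + B) = A + B + B := by abel
        rw [e2] at h
        exact h2' h
    exact hG A B x₁ y₁ x₂ y₂ x₃ y₃ a1 a2 a3 b1 b2 b3 (fun e => n12 (by rw [e]))
      (fun e => n13 (by rw [e])) (fun e => n23 (by rw [e])) n12 n13 n23
  · intro A hA k hk
    obtain ⟨x, y, a1, b1⟩ := key A hA
    obtain ⟨x', y', a2, b2, e⟩ := PsA_F1 h1 N hN hN0 t hΔ hNP A k x y a1 b1 hk
    have c1 := hps A x y a1 b1
    have c2 := hps (A + k) x' y' a2 b2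
    rw [e] at c2
    exact (h1 L (Ec N t') hΔ').2.2.2.2.2.1 _ _ _ _ _ c1 c2

end curves

theorem tPsA (h1 : S_Pts) (h2 : S_Pm) (h3 : S_PsW) (h4 : S_PsM) : S_PsA := by
  intro N hN hG L _ θ t t' hN0 hθ htt ht ht' P Q
  obtain ⟨hΔ, -⟩ := h3 N L θ t t' hN hN0 hθ htt ht ht'
  obtain ⟨hΔ', -⟩ := h3 N L θ t' t hN hN0 hθ (by rw [add_comm, htt]) ht' ht
  obtain ⟨mt, hθM, httM, hpm⟩ := h4 N L (AlgebraicClosure L) (algebraMap L (AlgebraicClosure L))
    θ t t' hN hN0 hθ htt ht ht'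
  obtain ⟨mt', -⟩ := h4 N L (AlgebraicClosure L) (algebraMap L (AlgebraicClosure L))
    θ t' t hN hN0 hθ (by rw [add_comm, htt]) ht' ht
  obtain ⟨-, -, madd, -⟩ := h2 L (AlgebraicClosure L) (algebraMap L (AlgebraicClosure L))
    (Ec N t) _ hΔ mt.symm
  obtain ⟨-, -, madd', -, minj', -⟩ := h2 L (AlgebraicClosure L)
    (algebraMap L (AlgebraicClosure L)) (Ec N t') _ hΔ' mt'.symm
  have hNM : (N : AlgebraicClosure L) ≠ 0 := by
    rw [← map_natCast (algebraMap L (AlgebraicClosure L))]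
    exact (_root_.map_ne_zero _).2 hN0
  have hft : algebraMap L (AlgebraicClosure L) t ≠ 0 := (_root_.map_ne_zero _).2 ht
  have hft' : algebraMap L (AlgebraicClosure L) t' ≠ 0 := (_root_.map_ne_zero _).2 ht'
  apply minj'
  rw [madd', hpm, hpm, hpm, madd]
  exact PsA_closed h1 h3 N hN _ _ _ hNM hθM httM hft hft'
    (hG (AlgebraicClosure L) _ _ _ hNM hθM httM hft hft') _ _

end MP7Sh
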