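import Pool.Agent.Lib.MP_7f581e_Sh.SpecI

/-!
# MP_7f581e_nt, module `PsM`: the isogenies and homomorphisms of fields
-/

set_option autoImplicit false

namespace MP7Sh

open Polynomial WeierstrassCurve

open scoped Classical

section

variable {L M : Type} [Field L] [Field M] (f : L →+* M)

private theorem PsM_map (N : ℕ) (t : L) : (Ec N t).map f = Ec N (f t) := by
  unfold Ec
  by_cases h : N = 2
  · rw [if_pos h, if_pos h]
    refine WeierstrassCurve.ext ?_ ?_ ?_ ?_ ?_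
    · exact map_zero f
    · exact map_one f
    · exact map_zero f
    · rfl
    · exact map_zero f
  · rw [if_neg h, if_neg h]
    refine WeierstrassCurve.ext ?_ ?_ ?_ ?_ ?_
    · exact map_one f
    · exact map_zero f
    · rfl
    · exact map_zero f
    · exact map_zero f

private theorem PsM_Rt (N : ℕ) (θ : L) (h : Rt N θ) : Rt N (f θ) := by
  unfold Rt at h ⊢
  by_cases h2 : N = 2
  · rw [if_pos h2] at h ⊢
    rw [← map_pow, h, map_neg, map_ofNat]
  · rw [if_neg h2] at h ⊢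
    rw [← map_pow, ← map_add, ← map_one f, ← map_add, h, map_zero]

private theorem PsM_c0 (N : ℕ) : f (c0 N L) = c0 N M := by
  unfold c0
  by_cases h : N = 2
  · rw [if_pos h, if_pos h, map_inv₀, map_ofNat]
  · rw [if_neg h, if_neg h, map_inv₀, map_ofNat]

private theorem PsM_psx (N : ℕ) (t x : L) : f (psx N t x) = psx N (f t) (f x) := by
  unfold psx
  by_cases h : N = 2
  · rw [if_pos h, if_pos h]
    simp only [map_div₀, map_neg, map_add, map_mul, map_pow, map_ofNat]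
  · rw [if_neg h, if_neg h]
    simp only [map_div₀, map_neg, map_add, map_mul, map_pow, map_ofNat, map_sub, map_inv₀]

private theorem PsM_psy (N : ℕ) (θ t x y : L) :
    f (psy N θ t x y) = psy N (f θ) (f t) (f x) (f y) := by
  unfold psy
  by_cases h : N = 2
  · rw [if_pos h, if_pos h]
    simp only [map_div₀, map_neg, map_mul, map_pow, map_ofNat, map_sub]
  · rw [if_neg h, if_neg h]
    simp only [map_div₀, map_neg, map_add, map_mul, map_pow, map_ofNat, map_sub, map_inv₀,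
      map_one]

end

private theorem PsM_ps0 {L : Type} [Field L] (N : ℕ) (θ t t' : L)
    (P : (Ec N t).toAffine.Point) (h : P = 0 ∨ px P = 0) : ps N θ t t' P = 0 := by
  unfold ps
  refine dif_neg ?_
  rintro ⟨h1, h2, -⟩
  rcases h with h | h
  · exact h1 h
  · exact h2 h

theorem tPsM (h1 : S_Pts) (h2 : S_Pm) (h3 : S_PsW) : S_PsM := by
  intro N L M _ _ f θ t t' hN hN0 hθ htt ht ht'
  have hθ' := PsM_Rt f N θ hθ
  have htt' : f t + f t' = c0 N M := by rw [← map_add, htt, PsM_c0]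
  have hNM : (N : M) ≠ 0 := by
    rw [← map_natCast f]
    exact (map_ne_zero f).2 hN0
  have hft : f t ≠ 0 := (map_ne_zero f).2 ht
  have hft' : f t' ≠ 0 := (map_ne_zero f).2 ht'
  refine ⟨PsM_map f N t, hθ', htt', fun P => ?_⟩
  obtain ⟨hΔ, hps, -⟩ := h3 N L θ t t' hN hN0 hθ htt ht ht'
  obtain ⟨hΔ', -⟩ := h3 N L θ t' t hN hN0 hθ (by rw [add_comm, htt]) ht' ht
  obtain ⟨hΔM', -⟩ := h3 N M (f θ) (f t') (f t) hN hNM hθ' (by rw [add_comm, htt']) hft' hft
  obtain ⟨hΔM, hpsM, -⟩ := h3 N M (f θ) (f t) (f t') hN hNM hθ' htt' hft hft'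
  obtain ⟨m0, mAt, -⟩ := h2 L M f (Ec N t) (Ec N (f t)) hΔ (PsM_map f N t).symm
  obtain ⟨m0', mAt', -⟩ := h2 L M f (Ec N t') (Ec N (f t')) hΔ' (PsM_map f N t').symm
  obtain ⟨q1, -⟩ := h1 L (Ec N t) hΔ
  obtain ⟨-, q2, -⟩ := h1 M (Ec N (f t)) hΔM
  obtain ⟨-, -, -, q4, -⟩ := h1 M (Ec N (f t')) hΔM'
  rcases q1 P with hP | ⟨x, y, hxy⟩
  · rw [hP, m0, PsM_ps0 N θ t t' 0 (Or.inl rfl), m0', PsM_ps0 N _ _ _ 0 (Or.inl rfl)]
  · have hm := mAt P x y hxy
    by_cases hx : x = 0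
    · have hpx : px P = 0 := by
        obtain ⟨-, q2', -⟩ := h1 L (Ec N t) hΔ
        rw [(q2' P x y hxy).2.1, hx]
      have hpx' : px (pm (Ec N t) (Ec N (f t)) f P) = 0 := by
        rw [(q2 _ _ _ hm).2.1, hx, map_zero]
      rw [PsM_ps0 N θ t t' P (Or.inr hpx), m0', PsM_ps0 N _ _ _ _ (Or.inr hpx')]
    · have hfx : f x ≠ 0 := (map_ne_zero f).2 hx
      have a1 := mAt' _ _ _ (hps P x y hxy hx)
      have a2 := hpsM _ _ _ hm hfx
      rw [PsM_psx, PsM_psy] at a1
      exact q4 _ _ _ _ a1 a2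

end MP7Sh
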