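import Pool.Agent.Lib.MP_7f581e_Sh.SpecI

/-!
# MP_7f581e_nt, GA realizations of `PSL(2, l)`: module PsW (the isogeny is well defined)
-/

set_option autoImplicit false

namespace MP7Sh

open Polynomial WeierstrassCurve

open scoped Classical

private theorem PsW_At {L : Type} [Field L] {N : ℕ} {θ t t' : L} {P : (Ec N t).toAffine.Point}
    {x y : L} (hP : At P x y) (hx : x ≠ 0)
    (h' : (Ec N t').toAffine.Nonsingular (psx N t x) (psy N θ t x y)) :
    At (ps N θ t t' P) (psx N t x) (psy N θ t x y) := by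
  obtain ⟨h, rfl⟩ := hP
  exact ⟨h', dif_pos ⟨Affine.Point.some_ne_zero h, hx, h'⟩⟩

private theorem PsW_congr {L : Type} [Field L] {W : WeierstrassCurve L} {P : W.toAffine.Point}
    {x y x' y' : L} (h : At P x y) (hx : x = x') (hy : y = y') : At P x' y' := by
  subst hx hy
  exact h

/-- the formulas for `N = 2` -/
private theorem PsW_eq2 {L : Type} [Field L] {x y t t' θ : L} (h2 : (2 : L) ≠ 0)
    (hθ : θ ^ 2 = -2) (ht : 4 * (t + t') = 1) (hx : x ≠ 0)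
    (e : y ^ 2 = x ^ 3 + x ^ 2 + t * x) :
    psy 2 θ t x y ^ 2 = psx 2 t x ^ 3 + psx 2 t x ^ 2 + t' * psx 2 t x := by
  have hθ0 : θ ≠ 0 := by
    rintro rfl
    apply h2
    linear_combination hθ
  obtain ⟨X, hX⟩ : ∃ X, X = psx 2 t x := ⟨_, rfl⟩
  obtain ⟨Y, hY⟩ : ∃ Y, Y = psy 2 θ t x y := ⟨_, rfl⟩
  rw [← hX, ← hY]
  have hX' : X = -(x ^ 2 + x + t) / (2 * x) := hX
  have hY' : Y = -(y * (x ^ 2 - t)) / (2 * θ * x ^ 2) := hY
  have eX : 2 * x * X = -(x ^ 2 + x + t) := by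
    rw [hX', mul_div_cancel₀ _ (mul_ne_zero h2 hx)]
  have hd : 2 * θ * x ^ 2 ≠ 0 := mul_ne_zero (mul_ne_zero h2 hθ0) (pow_ne_zero 2 hx)
  have eY : 2 * θ * x ^ 2 * Y = -(y * (x ^ 2 - t)) := by
    rw [hY', mul_div_cancel₀ _ hd]
  refine mul_left_cancel₀ (pow_ne_zero 2 hd) ?_
  linear_combination (2 * θ * x ^ 2 * Y - y * (x ^ 2 - t)) * eY -
    4 * x ^ 4 * (X ^ 3 + X ^ 2 + t' * X) * hθ +
    x * ((2 * x * X) ^ 2 + (2 * x * X) * (-(x ^ 2 + x + t)) + (-(x ^ 2 + x + t)) ^ 2 +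
      2 * x * (2 * x * X + (-(x ^ 2 + x + t))) + 4 * x ^ 2 * t') * eX +
    x ^ 3 * (-(x ^ 2 + x + t)) * ht + (x ^ 2 - t) ^ 2 * e

/-- the formulas for `N = 3` -/
private theorem PsW_eq3 {L : Type} [Field L] {x y t t' θ : L} (h3 : (3 : L) ≠ 0)
    (hθ : θ ^ 2 + θ + 1 = 0) (ht : 27 * (t + t') = 1) (hx : x ≠ 0)
    (eqn : y ^ 2 + x * y + t * y = x ^ 3) :
    psy 3 θ t x y ^ 2 + psx 3 t x * psy 3 θ t x y + t' * psy 3 θ t x y = psx 3 t x ^ 3 := by
  have eD : (-3 * (1 + 2 * θ)) ^ 2 = (-27 : L) := by linear_combination 36 * hθ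
  have h27 : (-27 : L) ≠ 0 := by
    have : (-27 : L) = -(3 ^ 3) := by norm_num
    rw [this]
    exact neg_ne_zero.2 (pow_ne_zero 3 h3)
  have hD : -3 * (1 + 2 * θ) ≠ 0 := by
    intro h
    rw [h] at eD
    exact h27 (by rw [← eD]; ring)
  have h9 : (9 : L) ≠ 0 := by
    have : (9 : L) = 3 ^ 2 := by norm_num
    rw [this]
    exact pow_ne_zero 2 h3
  obtain ⟨i, hi⟩ : ∃ i : L, i = 9⁻¹ := ⟨_, rfl⟩
  have e9 : 9 * i = 1 := by rw [hi, mul_inv_cancel₀ h9]
  obtain ⟨X, hX⟩ : ∃ X, X = psx 3 t x := ⟨_, rfl⟩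
  obtain ⟨Y, hY⟩ : ∃ Y, Y = psy 3 θ t x y := ⟨_, rfl⟩
  rw [← hX, ← hY]
  obtain ⟨U, hU⟩ : ∃ U, U = (x ^ 3 + t * x + t ^ 2) / x ^ 2 := ⟨_, rfl⟩
  obtain ⟨V, hV⟩ : ∃ V, V = y - t ^ 2 * (2 * y + x + t) / x ^ 3 - t * (x + y) / x ^ 2 -
    t ^ 2 / x ^ 2 := ⟨_, rfl⟩
  have eU : x ^ 2 * U = x ^ 3 + t * x + t ^ 2 := by
    rw [hU, mul_div_cancel₀ _ (pow_ne_zero 2 hx)]
  have eV : x ^ 3 * V = x ^ 3 * y - t ^ 2 * (2 * y + x + t) - t * x * (x + y) - t ^ 2 * x := by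
    rw [hV]
    field_simp
  have eX : 3 * X = -U - 3 * i := by
    have : X = -(x ^ 3 + t * x + t ^ 2) / (3 * x ^ 2) - 9⁻¹ := hX
    rw [this, hU, hi]
    field_simp
  have eY : Y * (-3 * (1 + 2 * θ)) = V + 3 * θ * X - (i - θ * i + t + 3 * θ * t) := by
    have : Y = (y - t ^ 2 * (2 * y + x + t) / x ^ 3 - t * (x + y) / x ^ 2 - t ^ 2 / x ^ 2 +
      3 * θ * (-(x ^ 3 + t * x + t ^ 2) / (3 * x ^ 2) - 9⁻¹) -
      (9⁻¹ - θ * 9⁻¹ + t + 3 * θ * t)) / (-3 * (1 + 2 * θ)) := hY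
    have hX' : X = -(x ^ 3 + t * x + t ^ 2) / (3 * x ^ 2) - 9⁻¹ := hX
    rw [this, div_mul_cancel₀ _ hD, ← hX', ← hV, ← hi]
  have e : V ^ 2 + U * V + t * V = U ^ 3 - 5 * t * U - t - 7 * t ^ 2 := by
    refine mul_left_cancel₀ (pow_ne_zero 6 hx) ?_
    have e1 : x ^ 6 * (V ^ 2 + U * V + t * V) =
      (x ^ 3 * V) ^ 2 + x * (x ^ 2 * U) * (x ^ 3 * V) + t * x ^ 3 * (x ^ 3 * V) := by ring
    have e2 : x ^ 6 * (U ^ 3 - 5 * t * U - t - 7 * t ^ 2) =
      (x ^ 2 * U) ^ 3 - 5 * t * x ^ 4 * (x ^ 2 * U) - x ^ 6 * (t + 7 * t ^ 2) := by ring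
    rw [e1, e2, eU, eV]
    linear_combination (x ^ 3 - t * x - 2 * t ^ 2) ^ 2 * eqn
  refine mul_left_cancel₀ h27 ?_
  have eU' : U = -3 * X - 3 * i := by linear_combination eX
  have h27' : (27 : L) ≠ 0 := by
    have : (27 : L) = 3 ^ 3 := by norm_num
    rw [this]
    exact pow_ne_zero 3 h3
  have et' : t' = 3 * i ^ 2 - t := by
    refine mul_left_cancel₀ h27' ?_
    linear_combination ht - (9 * i + 1) * e9
  have e1 : -27 * (Y ^ 2 + X * Y + t' * Y) = (Y * (-3 * (1 + 2 * θ))) ^ 2 +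
      (-3 * (1 + 2 * θ)) * (X + t') * (Y * (-3 * (1 + 2 * θ))) := by
    rw [← eD]
    ring
  rw [e1, eY, et']
  rw [eU'] at e
  linear_combination e + (-54 * X * i ^ 2 + 54 * i ^ 2 * t - 18 * i ^ 3 + 18 * X * t -
    9 * X ^ 2 + i ^ 2 - 9 * t ^ 2) * hθ + (-2 * V * i * θ + 3 * X * i * θ - i * t * θ +
    3 * i ^ 2 * θ - V * i - 3 * X * i - 9 * X ^ 2 - 5 * i * t + t) * e9

private theorem PsW_neg {L : Type} [Field L] {N : ℕ} {θ t t' : L}
    (h1 : ∀ (Q : (Ec N t').toAffine.Point) (x y : L), At Q x y →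
      At (-Q) x (-y - (Ec N t').a₁ * x - (Ec N t').a₃))
    (h2 : ∀ (P Q : (Ec N t').toAffine.Point) (x y : L), At P x y → At Q x y → P = Q)
    (h3 : ∀ (P : (Ec N t).toAffine.Point), P = 0 ∨ ∃ x y, At P x y)
    (h4 : ∀ (P : (Ec N t).toAffine.Point) (x y : L), At P x y → px P = x)
    (h5 : ∀ (P : (Ec N t).toAffine.Point) (x y : L), At P x y → x ≠ 0 →
      At (ps N θ t t' P) (psx N t x) (psy N θ t x y))
    (h6 : ∀ (P : (Ec N t).toAffine.Point) (x y : L), At P x y → x ≠ 0 →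
      At (ps N (cj N θ) t t' P) (psx N t x) (psy N (cj N θ) t x y))
    (h7 : ∀ x y : L, x ≠ 0 → psy N (cj N θ) t x y =
      -psy N θ t x y - (Ec N t').a₁ * psx N t x - (Ec N t').a₃)
    (P : (Ec N t).toAffine.Point) : ps N (cj N θ) t t' P = -ps N θ t t' P := by
  by_cases h : P = 0 ∨ px P = 0
  · have e1 : ∀ θ' : L, ps N θ' t t' P = 0 := fun θ' => dif_neg fun h' => by
      rcases h with h | h
      · exact h'.1 h
      · exact h'.2.1 h
    rw [e1, e1, neg_zero]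
  · push Not at h
    rcases h3 P with h0 | ⟨x, y, hP⟩
    · exact absurd h0 h.1
    · have hx : x ≠ 0 := by
        rw [← h4 P x y hP]
        exact h.2
      exact h2 _ _ _ _ (h6 P x y hP hx)
        (PsW_congr (h1 _ _ _ (h5 P x y hP hx)) rfl (h7 x y hx).symm)

private theorem PsW_three {A : Type} [AddCommGroup A] (P : A) : 3 • P = P + P + P := by
  rw [succ_nsmul, two_nsmul]

theorem tPsW (h1 : S_Pts) : S_PsW := by
  intro N L _ θ t t' hN hNL hθ htt ht ht'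
  rcases hN with rfl | rfl
  · -- `N = 2`
    have h2 : (2 : L) ≠ 0 := by exact_mod_cast hNL
    have hθ' : θ ^ 2 = -2 := hθ
    have h4 : (4 : L) ≠ 0 := by
      have : (4 : L) = 2 ^ 2 := by norm_num
      rw [this]
      exact pow_ne_zero 2 h2
    have ht4 : 4 * (t + t') = 1 := by
      have : t + t' = 4⁻¹ := htt
      rw [this, mul_inv_cancel₀ h4]
    have hΔ : ∀ s s' : L, s ≠ 0 → s' ≠ 0 → 4 * (s + s') = 1 → (Ec 2 s).Δ ≠ 0 := by
      intro s s' hs hs' hss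
      have e : (Ec 2 s).Δ = 64 * s ^ 2 * s' := by
        show (⟨0, 1, 0, s, 0⟩ : WeierstrassCurve L).Δ = _
        simp only [WeierstrassCurve.Δ, WeierstrassCurve.b₂, WeierstrassCurve.b₄,
          WeierstrassCurve.b₆, WeierstrassCurve.b₈]
        linear_combination (-16 * s ^ 2) * hss
      rw [e]
      have h64 : (64 : L) = 2 ^ 6 := by norm_num
      rw [h64]
      exact mul_ne_zero (mul_ne_zero (pow_ne_zero 6 h2) (pow_ne_zero 2 hs)) hs'
    have hΔ1 := hΔ t t' ht ht' ht4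
    have hΔ2 := hΔ t' t ht' ht (by rw [add_comm]; exact ht4)
    obtain ⟨a1, a2, -, -, -, -, -, -, a9, -, -, -⟩ := h1 L (Ec 2 t) hΔ1
    obtain ⟨-, b2, b3, b4, b5, -, -, -, -, -, -, -⟩ := h1 L (Ec 2 t') hΔ2
    have hgen : ∀ θ : L, θ ^ 2 = -2 → ∀ (P : (Ec 2 t).toAffine.Point) (x y : L), At P x y →
        x ≠ 0 → At (ps 2 θ t t' P) (psx 2 t x) (psy 2 θ t x y) := by
      intro θ hθ P x y hP hx
      have e : y ^ 2 + 0 * x * y + 0 * y = x ^ 3 + 1 * x ^ 2 + t * x + 0 := (a2 P x y hP).2.2.2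
      have e' := PsW_eq2 (y := y) h2 hθ ht4 hx (by linear_combination e)
      obtain ⟨Q, h', -⟩ := b3 (psx 2 t x) (psy 2 θ t x y) (by
        show _ + 0 * _ * _ + 0 * _ = _ + 1 * _ + t' * _ + 0
        linear_combination e')
      exact PsW_At hP hx h'
    have hcj : (-θ) ^ 2 = -2 := by
      rw [← hθ']
      ring
    refine ⟨hΔ1, hgen θ hθ', ?_, ?_, hcj, ?_⟩
    · intro P
      constructor
      · intro h
        refine dif_neg fun h' => ?_
        rcases h with h | h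
        · exact h'.1 h
        · exact h'.2.1 h
      · intro h
        by_contra hcon
        push Not at hcon
        rcases a1 P with h0 | ⟨x, y, hP⟩
        · exact hcon.1 h0
        · have hx : x ≠ 0 := by
            rw [← (a2 P x y hP).2.1]
            exact hcon.2
          exact (b2 _ _ _ (hgen θ hθ' P x y hP hx)).1 h
    · intro P y hP
      have e : y ^ 2 + 0 * 0 * y + 0 * y = (0 : L) ^ 3 + 1 * 0 ^ 2 + t * 0 + 0 :=
        (a2 P 0 y hP).2.2.2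
      have hy : y = 0 := by
        refine pow_eq_zero_iff (two_ne_zero) |>.1 ?_
        linear_combination e
      rw [two_nsmul, a9 P 0 y hP]
      show 2 * y + 0 * 0 + 0 = 0
      rw [hy]
      ring
    · refine PsW_neg b5 b4 a1 (fun P x y hP => (a2 P x y hP).2.1) (hgen θ hθ')
        (hgen (-θ) hcj) ?_
      intro x y hx
      show -(y * (x ^ 2 - t)) / (2 * (-θ) * x ^ 2) =
        -(-(y * (x ^ 2 - t)) / (2 * θ * x ^ 2)) - 0 * _ - 0
      have e1 : 2 * (-θ) * x ^ 2 = -(2 * θ * x ^ 2) := by ring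
      rw [e1, div_neg]
      ring
  · -- `N = 3`
    have h3 : (3 : L) ≠ 0 := by exact_mod_cast hNL
    have hθ' : θ ^ 2 + θ + 1 = 0 := hθ
    have h27 : (27 : L) ≠ 0 := by
      have : (27 : L) = 3 ^ 3 := by norm_num
      rw [this]
      exact pow_ne_zero 3 h3
    have ht27 : 27 * (t + t') = 1 := by
      have : t + t' = 27⁻¹ := htt
      rw [this, mul_inv_cancel₀ h27]
    have hΔ : ∀ s s' : L, s ≠ 0 → s' ≠ 0 → 27 * (s + s') = 1 → (Ec 3 s).Δ ≠ 0 := by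
      intro s s' hs hs' hss
      have e : (Ec 3 s).Δ = 27 * s ^ 3 * s' := by
        show (⟨1, 0, s, 0, 0⟩ : WeierstrassCurve L).Δ = _
        simp only [WeierstrassCurve.Δ, WeierstrassCurve.b₂, WeierstrassCurve.b₄,
          WeierstrassCurve.b₆, WeierstrassCurve.b₈]
        linear_combination (-s ^ 3) * hss
      rw [e]
      exact mul_ne_zero (mul_ne_zero h27 (pow_ne_zero 3 hs)) hs'
    have hΔ1 := hΔ t t' ht ht' ht27
    have hΔ2 := hΔ t' t ht' ht (by rw [add_comm]; exact ht27)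
    obtain ⟨a1, a2, -, a4, a5, -, -, a8, -, -, -, -⟩ := h1 L (Ec 3 t) hΔ1
    obtain ⟨-, b2, b3, b4, b5, -, -, -, -, -, -, -⟩ := h1 L (Ec 3 t') hΔ2
    have hgen : ∀ θ : L, θ ^ 2 + θ + 1 = 0 → ∀ (P : (Ec 3 t).toAffine.Point) (x y : L),
        At P x y → x ≠ 0 → At (ps 3 θ t t' P) (psx 3 t x) (psy 3 θ t x y) := by
      intro θ hθ P x y hP hx
      have e : y ^ 2 + 1 * x * y + t * y = x ^ 3 + 0 * x ^ 2 + 0 * x + 0 := (a2 P x y hP).2.2.2
      have e' := PsW_eq3 (y := y) h3 hθ ht27 hx (by linear_combination e)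
      obtain ⟨Q, h', -⟩ := b3 (psx 3 t x) (psy 3 θ t x y) (by
        show _ + 1 * _ * _ + t' * _ = _ + 0 * _ + 0 * _ + 0
        linear_combination e')
      exact PsW_At hP hx h'
    have hcj : (-1 - θ) ^ 2 + (-1 - θ) + 1 = 0 := by
      rw [← hθ']
      ring
    refine ⟨hΔ1, hgen θ hθ', ?_, ?_, hcj, ?_⟩
    · intro P
      constructor
      · intro h
        refine dif_neg fun h' => ?_
        rcases h with h | h
        · exact h'.1 h
        · exact h'.2.1 h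
      · intro h
        by_contra hcon
        push Not at hcon
        rcases a1 P with h0 | ⟨x, y, hP⟩
        · exact hcon.1 h0
        · have hx : x ≠ 0 := by
            rw [← (a2 P x y hP).2.1]
            exact hcon.2
          exact (b2 _ _ _ (hgen θ hθ' P x y hP hx)).1 h
    · intro P y hP
      have e : y ^ 2 + 1 * 0 * y + t * y = (0 : L) ^ 3 + 0 * 0 ^ 2 + 0 * 0 + 0 :=
        (a2 P 0 y hP).2.2.2
      have e' : y * (y + t) = 0 := by linear_combination e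
      have hp : p2 (Ec 3 t) 0 y ≠ 0 := by
        show 2 * y + 1 * 0 + t ≠ 0
        intro h
        have h5 : y ^ 2 = 0 := by
          have h6 : y = -(y + t) := by linear_combination h
          calc y ^ 2 = y * y := by ring
            _ = y * (-(y + t)) := by rw [← h6]
            _ = -(y * (y + t)) := by ring
            _ = 0 := by rw [e', neg_zero]
        have h6 : y = 0 := pow_eq_zero_iff (two_ne_zero) |>.1 h5
        apply ht
        rw [h6] at h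
        linear_combination h
      have hm : (y / t) * p2 (Ec 3 t) 0 y =
          3 * (0 : L) ^ 2 + 2 * (Ec 3 t).a₂ * 0 + (Ec 3 t).a₄ - (Ec 3 t).a₁ * y := by
        show (y / t) * (2 * y + 1 * 0 + t) = 3 * (0 : L) ^ 2 + 2 * 0 * 0 + 0 - 1 * y
        field_simp
        linear_combination 2 * e'
      have h8 := a8 P 0 y (y / t) hP hp hm
      have h9 : P + P = -P := by
        refine a4 _ _ _ _ h8 (PsW_congr (a5 P 0 y hP) ?_ ?_)
        · show (0 : L) = (y / t) ^ 2 + 1 * (y / t) - 0 - 0 - 0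
          field_simp
          linear_combination -e'
        · show -y - 1 * 0 - t = -(y / t * (((y / t) ^ 2 + 1 * (y / t) - 0 - 0 - 0) - 0) + y) -
            1 * ((y / t) ^ 2 + 1 * (y / t) - 0 - 0 - 0) - t
          have h10 : (y / t) ^ 2 + y / t = 0 := by
            field_simp
            linear_combination e'
          linear_combination (y / t + 1) * h10
      rw [PsW_three, h9, neg_add_cancel]
    · refine PsW_neg b5 b4 a1 (fun P x y hP => (a2 P x y hP).2.1) (hgen θ hθ')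
        (hgen (-1 - θ) hcj) ?_
      intro x y hx
      have hD : -3 * (1 + 2 * θ) ≠ 0 := by
        intro h
        have : (-3 * (1 + 2 * θ)) ^ 2 = -27 := by linear_combination 36 * hθ'
        rw [h] at this
        apply h27
        linear_combination this
      have hD' : -3 * (1 + 2 * (-1 - θ)) ≠ 0 := by
        intro h
        apply hD
        linear_combination -h
      have h9 : (9 : L) ≠ 0 := by
        have : (9 : L) = 3 ^ 2 := by norm_num
        rw [this]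
        exact pow_ne_zero 2 h3
      obtain ⟨i, hi⟩ : ∃ i : L, i = 9⁻¹ := ⟨_, rfl⟩
      have e9 : 9 * i = 1 := by rw [hi, mul_inv_cancel₀ h9]
      have et' : t' = 3 * i ^ 2 - t := by
        refine mul_left_cancel₀ h27 ?_
        linear_combination ht27 - (9 * i + 1) * e9
      obtain ⟨X, hX⟩ : ∃ X, X = -(x ^ 3 + t * x + t ^ 2) / (3 * x ^ 2) - 9⁻¹ := ⟨_, rfl⟩
      obtain ⟨U, hU⟩ : ∃ U, U = (x ^ 3 + t * x + t ^ 2) / x ^ 2 := ⟨_, rfl⟩
      obtain ⟨V, hV⟩ : ∃ V, V = y - t ^ 2 * (2 * y + x + t) / x ^ 3 - t * (x + y) / x ^ 2 -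
        t ^ 2 / x ^ 2 := ⟨_, rfl⟩
      show (y - t ^ 2 * (2 * y + x + t) / x ^ 3 - t * (x + y) / x ^ 2 - t ^ 2 / x ^ 2 +
        3 * (-1 - θ) * (-(x ^ 3 + t * x + t ^ 2) / (3 * x ^ 2) - 9⁻¹) -
        (9⁻¹ - (-1 - θ) * 9⁻¹ + t + 3 * (-1 - θ) * t)) / (-3 * (1 + 2 * (-1 - θ))) =
        -((y - t ^ 2 * (2 * y + x + t) / x ^ 3 - t * (x + y) / x ^ 2 - t ^ 2 / x ^ 2 +
        3 * θ * (-(x ^ 3 + t * x + t ^ 2) / (3 * x ^ 2) - 9⁻¹) -
        (9⁻¹ - θ * 9⁻¹ + t + 3 * θ * t)) / (-3 * (1 + 2 * θ))) -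
        1 * (-(x ^ 3 + t * x + t ^ 2) / (3 * x ^ 2) - 9⁻¹) - t'
      rw [← hX, ← hV, ← hi, div_eq_iff hD']
      have e2 : -3 * (1 + 2 * (-1 - θ)) = -(-3 * (1 + 2 * θ)) := by ring
      obtain ⟨Y, hY⟩ : ∃ Y, Y = (V + 3 * θ * X - (i - θ * i + t + 3 * θ * t)) /
        (-3 * (1 + 2 * θ)) := ⟨_, rfl⟩
      have eY : Y * (-3 * (1 + 2 * θ)) = V + 3 * θ * X - (i - θ * i + t + 3 * θ * t) := by
        rw [hY, div_mul_cancel₀ _ hD]
      rw [← hY, e2, et']
      linear_combination (-1) * eY + (i + 2 * θ * i) * e9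

end MP7Sh
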