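import Pool.Agent.Lib.MP_7f581e_Sh.SpecE

/-!
# MP_7f581e_nt, GA realizations of `PSL(2, l)`: points of odd order with the same nonsingular
reduction
-/

set_option autoImplicit false

namespace MP7Sh

open Polynomial WeierstrassCurve

open scoped Classical

theorem tRed (h1 : S_Pts) (h2 : S_Int) (h3 : S_Ns) : S_Red := by
  intro F _ v hv W hΔ hI l hl hlu P P' x y x' y' hP hP' hAt hAt' hxx hyy hcase
  by_contra hne
  obtain ⟨q1, q2, -, -, q5, q6, q7, -, -, -, -, -⟩ := h1 F W hΔ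
  obtain ⟨hx, hy⟩ := h2 F v hv W hΔ hI l hlu P x y hP hAt
  obtain ⟨hx', hy'⟩ := h2 F v hv W hΔ hI l hlu P' x' y' hP' hAt'
  have hp := h3 F v hv W hΔ hI l hl hlu P x y hP hAt hcase
  by_cases hxe : x = x'
  · subst hxe
    rcases q6 P P' x y y' hAt hAt' with h | h
    · exact hne h.symm
    · have h4 := q5 P x y hAt
      rw [← h] at h4
      have h5 := (q2 P' x _ h4).2.2.1
      have h6 := (q2 P' x _ hAt').2.2.1
      rw [h5] at h6
      have h7 : y - y' = p2 W x y := by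
        rw [p2, ← h6]; ring
      rw [h7] at hyy
      exact hp.not_ge one_pos hyy
  · have hx0 : x - x' ≠ 0 := sub_ne_zero.mpr hxe
    have hN := q5 P' x' y' hAt'
    have hu : Is v 0 (y - (-y' - W.a₁ * x' - W.a₃)) := by
      have h4 : y - (-y' - W.a₁ * x' - W.a₃) =
          p2 W x y + (-(y - y') - W.a₁ * (x - x')) := by
        rw [p2]; ring
      rw [h4]
      exact hp.add_ge hv ((hyy.neg hv).sub hv (hI.a1.mul_left hv hxx)) one_pos
    have hvx : 1 ≤ v (x - x') := hxx.resolve_left hx0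
    obtain ⟨m, hm⟩ : ∃ m, m = (y - (-y' - W.a₁ * x' - W.a₃)) / (x - x') := ⟨_, rfl⟩
    have hmx : m * (x - x') = y - (-y' - W.a₁ * x' - W.a₃) := by
      rw [hm, div_mul_cancel₀ _ hx0]
    have hmI : Is v (0 - v (x - x')) m := by
      rw [hm]; exact hu.div hv (Is.of_ne hx0)
    have h5 := q7 P (-P') x y x' _ m hAt hN hxe hmx
    have h6 : l • (P + -P') = 0 := by rw [smul_add, smul_neg, hP, hP', neg_zero, add_zero]
    have h7 := (h2 F v hv W hΔ hI l hlu _ _ _ h6 h5).1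
    have h8 : Is v ((2 : ℕ) * (0 - v (x - x'))) (m ^ 2) := hmI.pow hv 2
    have h9 : Ge v (0 - v (x - x')) (W.a₁ * m) := hI.a1.mul_left hv hmI.ge
    have h10 : Is v ((2 : ℕ) * (0 - v (x - x'))) (m ^ 2 + W.a₁ * m) :=
      h8.add_ge hv h9 (by push_cast; omega)
    have h11 : Ge v 0 (W.a₂ + x + x') := (hI.a2.add hv hx).add hv hx'
    have h12 : Is v ((2 : ℕ) * (0 - v (x - x'))) (m ^ 2 + W.a₁ * m - (W.a₂ + x + x')) :=
      h10.sub_ge hv h11 (by push_cast; omega)
    have h13 : m ^ 2 + W.a₁ * m - W.a₂ - x - x' = m ^ 2 + W.a₁ * m - (W.a₂ + x + x') := by ring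
    rw [h13] at h7
    exact h12.not_ge (by push_cast; omega) h7

end MP7Sh
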