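import Pool.Agent.Lib.MP_7f581e_Sh.SpecA

/-!
# MP_7f581e_nt, GA realizations of `PSL(2, l)`: `S_Rep`
-/

set_option autoImplicit false

namespace MP7Sh

open Polynomial WeierstrassCurve

open scoped Classical

private theorem Rep_map (N : ℕ) {L M : Type} [Field L] [Field M] (f : L →+* M) (t : L) :
    (Ec N t).map f = Ec N (f t) := by
  unfold Ec
  split
  · ext <;> simp [WeierstrassCurve.map]
  · ext <;> simp [WeierstrassCurve.map]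

private theorem Rep_c0 (N : ℕ) {L : Type} [Field L] (σ : L ≃+* L) : σ (c0 N L) = c0 N L := by
  unfold c0
  split <;> rw [map_inv₀, map_ofNat]

private theorem Rep_T (N : ℕ) {L : Type} [Field L] (T : L) (σ : L ≃+* L)
    (h : σ (T ^ 2 - c0 N L * T) = T ^ 2 - c0 N L * T) : σ T = T ∨ σ T = c0 N L - T := by
  rw [map_sub, map_mul, map_pow, Rep_c0] at h
  have h1 : (σ T - T) * (σ T - (c0 N L - T)) = 0 := by linear_combination h
  rcases mul_eq_zero.1 h1 with h2 | h2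
  · exact Or.inl (sub_eq_zero.1 h2)
  · exact Or.inr (sub_eq_zero.1 h2)

private theorem Rep_th (N : ℕ) {L : Type} [Field L] (θ : L) (σ : L ≃+* L) (h : Rt N θ) :
    σ θ = θ ∨ σ θ = cj N θ := by
  unfold Rt at h
  unfold cj
  split_ifs at h ⊢ with hN
  · have h1 := congrArg σ h
    rw [map_pow, map_neg, map_ofNat] at h1
    have h2 : (σ θ - θ) * (σ θ - -θ) = 0 := by linear_combination h1 - h
    rcases mul_eq_zero.1 h2 with h3 | h3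
    · exact Or.inl (sub_eq_zero.1 h3)
    · exact Or.inr (sub_eq_zero.1 h3)
  · have h1 := congrArg σ h
    rw [map_add, map_add, map_pow, map_one, map_zero] at h1
    have h2 : (σ θ - θ) * (σ θ - (-1 - θ)) = 0 := by linear_combination h1 - h
    rcases mul_eq_zero.1 h2 with h3 | h3
    · exact Or.inl (sub_eq_zero.1 h3)
    · exact Or.inr (sub_eq_zero.1 h3)

theorem tRep (h1 : S_Pm) (h2 : S_PsW) (h3 : S_Iso) (h4 : S_Lin) : S_Rep := by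
  intro l N _ Ω _ T θ e hN hθ hT hT'
  have hcT : T + (c0 N Ω - T) = c0 N Ω := add_sub_cancel _ _
  have hcT' : (c0 N Ω - T) + T = c0 N Ω := sub_add_cancel _ _
  have hNN : N = 2 ∨ N = 3 := hN.nn
  have hΔ : (Ec N T).Δ ≠ 0 := (h2 N Ω θ T _ hNN hN.nk hθ hcT hT hT').1
  have hΔ' : (Ec N (c0 N Ω - T)).Δ ≠ 0 := (h2 N Ω θ _ T hNN hN.nk hθ hcT' hT' hT).1
  obtain ⟨a1, a2, a3, -, a5, -⟩ := h3 N Ω θ T _ hNN hN.nk hθ hcT hT hT'
  obtain ⟨b1, b2, b3, -, b5, -⟩ := h3 N Ω θ _ T hNN hN.nk hθ hcT' hT' hT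
  -- the maps of points
  have pmadd : ∀ (σ : Ω ≃+* Ω) (t u : Ω), (Ec N t).Δ ≠ 0 → σ t = u →
      ∀ P Q : (Ec N t).toAffine.Point, pm (Ec N t) (Ec N u) σ (P + Q) =
        pm (Ec N t) (Ec N u) σ P + pm (Ec N t) (Ec N u) σ Q := by
    intro σ t u hΔt hu P Q
    exact (h1 Ω Ω (σ : Ω →+* Ω) (Ec N t) (Ec N u) hΔt (by rw [Rep_map, ← hu]; rfl)).2.2.1 P Q
  have pmcomp : ∀ (σ τ : Ω ≃+* Ω) (t u w : Ω), (Ec N t).Δ ≠ 0 → τ t = u → σ u = w →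
      ∀ P : (Ec N t).toAffine.Point, pm (Ec N u) (Ec N w) σ (pm (Ec N t) (Ec N u) τ P) =
        pm (Ec N t) (Ec N w) (σ * τ : Ω ≃+* Ω) P := by
    intro σ τ t u w hΔt hu hw P
    exact (h1 Ω Ω (τ : Ω →+* Ω) (Ec N t) (Ec N u) hΔt (by rw [Rep_map, ← hu]; rfl)).2.2.2.2.2.2.2.2
      Ω (σ : Ω →+* Ω) (Ec N w) (by rw [Rep_map, ← hw]; rfl) P
  have pmid : ∀ P : (Ec N T).toAffine.Point, pm (Ec N T) (Ec N T) (1 : Ω ≃+* Ω) P = P := by
    intro P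
    exact (h1 Ω Ω (RingHom.id Ω) (Ec N T) (Ec N T) hΔ (by rw [Rep_map]; rfl)).2.2.2.2.2.2.2.1 P
  have isoB : ∀ (σ : Ω ≃+* Ω) (u u' θ' : Ω), σ (c0 N Ω - T) = u → σ T = u' → σ θ = θ' →
      ∀ P : (Ec N (c0 N Ω - T)).toAffine.Point,
        pm (Ec N T) (Ec N u') σ (ps N θ (c0 N Ω - T) T P) =
          ps N θ' u u' (pm (Ec N (c0 N Ω - T)) (Ec N u) σ P) := by
    intro σ u u' θ' hu hu' hθ' P
    subst hu hu' hθ'
    exact (h3 N Ω θ _ T hNN hN.nk hθ hcT' hT' hT).2.2.2.2.2 Ω (σ : Ω →+* Ω) P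
  have psneg : ∀ P : (Ec N (c0 N Ω - T)).toAffine.Point,
      ps N θ (c0 N Ω - T) T (-P) = -ps N θ (c0 N Ω - T) T P := by
    intro P
    rw [eq_neg_iff_add_eq_zero, ← b1, neg_add_cancel, b2]
  have hgA : ∀ σ : Ω ≃+* Ω, σ T = T → ∀ P : (Ec N T).toAffine.Point,
      gs N θ T σ P = pm (Ec N T) (Ec N T) σ P := by
    intro σ h P
    rw [gs, if_pos h]
  have hgB : ∀ σ : Ω ≃+* Ω, σ T ≠ T → ∀ P : (Ec N T).toAffine.Point,
      gs N θ T σ P = ps N θ (c0 N Ω - T) T (pm (Ec N T) (Ec N (c0 N Ω - T)) σ P) := by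
    intro σ h P
    rw [gs, if_neg h, gg]
  have hT'A : ∀ σ : Ω ≃+* Ω, σ T = T → σ (c0 N Ω - T) = c0 N Ω - T := by
    intro σ h
    rw [map_sub, Rep_c0, h]
  have hT'B : ∀ σ : Ω ≃+* Ω, σ T = c0 N Ω - T → σ (c0 N Ω - T) = T := by
    intro σ h
    rw [map_sub, Rep_c0, h, sub_sub_cancel]
  have hst : ∀ σ : MulAction.stabilizer (Ω ≃+* Ω) (T ^ 2 - c0 N Ω * T),
      (σ : Ω ≃+* Ω) T = T ∨ (σ : Ω ≃+* Ω) T = c0 N Ω - T := fun σ => Rep_T N T _ σ.2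
  have gadd : ∀ (σ : MulAction.stabilizer (Ω ≃+* Ω) (T ^ 2 - c0 N Ω * T))
      (P Q : (Ec N T).toAffine.Point), gs N θ T (σ : Ω ≃+* Ω) (P + Q) =
        gs N θ T (σ : Ω ≃+* Ω) P + gs N θ T (σ : Ω ≃+* Ω) Q := by
    intro σ P Q
    by_cases h : (σ : Ω ≃+* Ω) T = T
    · rw [hgA _ h, hgA _ h, hgA _ h]
      exact pmadd _ _ _ hΔ h P Q
    · rw [hgB _ h, hgB _ h, hgB _ h, pmadd _ _ _ hΔ ((hst σ).resolve_left h), b1]
  have gtl : ∀ (σ : MulAction.stabilizer (Ω ≃+* Ω) (T ^ 2 - c0 N Ω * T)) (P : Tl l (Ec N T)),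
      gs N θ T (σ : Ω ≃+* Ω) P ∈ Tl l (Ec N T) := by
    intro σ P
    have h5 : l • (P : (Ec N T).toAffine.Point) = 0 := P.2
    change l • gs N θ T (σ : Ω ≃+* Ω) P = 0
    let G := AddMonoidHom.mk' (gs N θ T (σ : Ω ≃+* Ω)) (gadd σ)
    have h6 : G (l • (P : (Ec N T).toAffine.Point)) = l • G P := map_nsmul G l _
    rw [h5, map_zero] at h6
    exact h6.symm
  -- products
  have hnl : ((N : ℤ) : ZMod l) ≠ 0 := by
    rw [Int.cast_natCast, Ne, ZMod.natCast_eq_zero_iff]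
    intro h
    have h5 := Nat.le_of_dvd (by rcases hNN with h | h <;> omega) h
    have h6 := hN.l5
    rcases hNN with h | h <;> omega
  have key : ∀ σ τ : MulAction.stabilizer (Ω ≃+* Ω) (T ^ 2 - c0 N Ω * T),
      ∃ n : ℤ, (n : ZMod l) ≠ 0 ∧ ∀ P : (Ec N T).toAffine.Point,
        gs N θ T (σ : Ω ≃+* Ω) (gs N θ T (τ : Ω ≃+* Ω) P) =
          n • gs N θ T ((σ * τ : MulAction.stabilizer (Ω ≃+* Ω) (T ^ 2 - c0 N Ω * T)) :
            Ω ≃+* Ω) P := by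
    intro σ τ
    have hmul : ((σ * τ : MulAction.stabilizer (Ω ≃+* Ω) (T ^ 2 - c0 N Ω * T)) : Ω ≃+* Ω) =
        (σ : Ω ≃+* Ω) * (τ : Ω ≃+* Ω) := rfl
    have hmT : ∀ x, ((σ : Ω ≃+* Ω) * (τ : Ω ≃+* Ω)) x = (σ : Ω ≃+* Ω) ((τ : Ω ≃+* Ω) x) :=
      fun x => rfl
    rw [hmul]
    have hone : ((1 : ℤ) : ZMod l) ≠ 0 := by
      rw [Int.cast_one]
      exact one_ne_zero
    by_cases hσ : (σ : Ω ≃+* Ω) T = T
    · by_cases hτ : (τ : Ω ≃+* Ω) T = T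
      · refine ⟨1, hone, fun P => ?_⟩
        rw [one_smul, hgA _ hσ, hgA _ hτ, hgA _ (by rw [hmT, hτ, hσ])]
        exact pmcomp _ _ _ _ _ hΔ hτ hσ P
      · have hτ' := (hst τ).resolve_left hτ
        have hστ : ((σ : Ω ≃+* Ω) * (τ : Ω ≃+* Ω)) T ≠ T := by
          rw [hmT, hτ', hT'A _ hσ, ← hτ']
          exact hτ
        have h5 : ∀ P, gs N θ T (σ : Ω ≃+* Ω) (gs N θ T (τ : Ω ≃+* Ω) P) =
            ps N ((σ : Ω ≃+* Ω) θ) (c0 N Ω - T) T (pm (Ec N T) (Ec N (c0 N Ω - T))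
              ((σ : Ω ≃+* Ω) * (τ : Ω ≃+* Ω) : Ω ≃+* Ω) P) := by
          intro P
          rw [hgA _ hσ, hgB _ hτ, isoB _ _ _ _ (hT'A _ hσ) hσ rfl,
            pmcomp _ _ _ _ _ hΔ hτ' (hT'A _ hσ)]
        rcases Rep_th N θ (σ : Ω ≃+* Ω) hθ with h6 | h6
        · refine ⟨1, hone, fun P => ?_⟩
          rw [h5, one_smul, hgB _ hστ, h6]
        · refine ⟨-1, by rw [Int.cast_neg]; exact neg_ne_zero.2 hone, fun P => ?_⟩
          rw [h5, neg_smul, one_smul, hgB _ hστ, h6, b5]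
    · have hσ' := (hst σ).resolve_left hσ
      by_cases hτ : (τ : Ω ≃+* Ω) T = T
      · refine ⟨1, hone, fun P => ?_⟩
        rw [one_smul, hgB _ hσ, hgA _ hτ, hgB _ (by rw [hmT, hτ]; exact hσ),
          pmcomp _ _ _ _ _ hΔ hτ hσ']
      · have hτ' := (hst τ).resolve_left hτ
        have hστ : ((σ : Ω ≃+* Ω) * (τ : Ω ≃+* Ω)) T = T := by
          rw [hmT, hτ', hT'B _ hσ']
        have h5 : ∀ P, gs N θ T (σ : Ω ≃+* Ω) (gs N θ T (τ : Ω ≃+* Ω) P) =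
            ps N θ (c0 N Ω - T) T (ps N ((σ : Ω ≃+* Ω) θ) T (c0 N Ω - T) (pm (Ec N T) (Ec N T)
              ((σ : Ω ≃+* Ω) * (τ : Ω ≃+* Ω) : Ω ≃+* Ω) P)) := by
          intro P
          rw [hgB _ hσ, hgB _ hτ, isoB _ _ _ _ (hT'B _ hσ') hσ' rfl,
            pmcomp _ _ _ _ _ hΔ hτ' (hT'B _ hσ')]
        rcases Rep_th N θ (σ : Ω ≃+* Ω) hθ with h6 | h6
        · refine ⟨-(N : ℤ), by rw [Int.cast_neg]; exact neg_ne_zero.2 hnl, fun P => ?_⟩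
          rw [h5, h6, a3, neg_smul, natCast_zsmul, hgA _ hστ]
        · refine ⟨(N : ℤ), hnl, fun P => ?_⟩
          rw [h5, h6, a5, psneg, a3, neg_neg, natCast_zsmul, hgA _ hστ]
  -- the matrices
  obtain ⟨l1, l2, l3, -⟩ := h4 l Ω (Ec N T) hΔ e
  have hM : ∀ σ : MulAction.stabilizer (Ω ≃+* Ω) (T ^ 2 - c0 N Ω * T),
      ∃ M, IsM e (gs N θ T (σ : Ω ≃+* Ω)) M := fun σ => l1 _ (fun P Q => gadd σ _ _) (gtl σ)
  choose M hM using hM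
  have hsm : ∀ (n : ℤ) (A : (Ec N T).toAffine.Point → (Ec N T).toAffine.Point)
      (X : Matrix (Fin 2) (Fin 2) (ZMod l)), IsM e A X →
      IsM e (fun P => n • A P) ((n : ZMod l) • X) := by
    intro n A X h v
    change n • A v = _
    rw [h v, Matrix.smul_mulVec, Int.cast_smul_eq_zsmul, map_zsmul]
    rfl
  have hmulM : ∀ σ τ, ∃ a : ZMod l, a ≠ 0 ∧ M σ * M τ = a • M (σ * τ) := by
    intro σ τ
    obtain ⟨n, hn, hP⟩ := key σ τ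
    refine ⟨n, hn, ?_⟩
    have h5 := l3 _ _ _ _ (hM σ) (hM τ)
    have h6 := hsm n _ _ (hM (σ * τ))
    refine l2 _ _ _ h5 fun v => ?_
    rw [← h6 v]
    exact hP v
  have hM1 : M 1 = 1 := by
    refine l2 _ _ _ (hM 1) fun v => ?_
    rw [Matrix.one_mulVec, AddEquiv.symm_apply_apply]
    have h5 : ((1 : MulAction.stabilizer (Ω ≃+* Ω) (T ^ 2 - c0 N Ω * T)) : Ω ≃+* Ω) = 1 := rfl
    rw [h5, hgA _ rfl, pmid]
  have hdet : ∀ σ, (M σ).det ≠ 0 := by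
    intro σ h0
    obtain ⟨a, ha, hMM⟩ := hmulM σ σ⁻¹
    rw [mul_inv_cancel, hM1] at hMM
    have h5 := congrArg Matrix.det hMM
    rw [Matrix.det_mul, h0, zero_mul, Matrix.det_smul, Matrix.det_one, mul_one] at h5
    exact pow_ne_zero _ ha h5.symm
  have hG : ∀ σ, ∃ G : GL (Fin 2) (ZMod l), G.1 = M σ := fun σ =>
    (Matrix.isUnit_iff_isUnit_det _).2 (isUnit_iff_ne_zero.2 (hdet σ))
  choose G hG using hG
  refine ⟨MonoidHom.mk' (fun σ => (QuotientGroup.mk (G σ) : PGL l)) ?_, fun σ =>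
    ⟨G σ, by rw [hG]; exact hM σ, rfl⟩⟩
  intro σ τ
  obtain ⟨a, -, hMM⟩ := hmulM σ τ
  rw [← QuotientGroup.mk_mul, QuotientGroup.eq]
  have h5 : ((G (σ * τ))⁻¹ * (G σ * G τ)).1 = a • (1 : Matrix (Fin 2) (Fin 2) (ZMod l)) := by
    rw [Units.val_mul, Units.val_mul, hG σ, hG τ, hMM, ← hG (σ * τ), Matrix.mul_smul,
      Units.inv_mul]
  obtain ⟨z, hz⟩ : ∃ z, z = (G (σ * τ))⁻¹ * (G σ * G τ) := ⟨_, rfl⟩
  rw [← hz] at h5 ⊢
  rw [Subgroup.mem_center_iff]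
  intro g
  apply Units.ext
  rw [Units.val_mul, Units.val_mul, h5, Matrix.mul_smul, Matrix.smul_mul, Matrix.mul_one,
    Matrix.one_mul]

end MP7Sh
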