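import Pool.Agent.Lib.MP_7f581e_Sh.SpecV

/-! The field `κ(x)` has no quadratic extension in which all the places split: characteristic two. -/

set_option autoImplicit false

namespace MP7Sh

open Polynomial IntermediateField

open scoped Classical

section val

variable {κ F : Type} [Field κ] [Field F] [Algebra κ F] {v : F → ℤ}

private theorem Sce_int (h : Kr κ v) {x : F} (hx : Ge v 0 x) (q : κ[X]) : Ge v 0 (aeval x q) := by
  induction q using Polynomial.induction_on' with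
  | add p q hp hq => rw [map_add]; exact hp.add h.ord hq
  | monomial n a =>
    rw [aeval_monomial]
    exact (h.geCst a).mul_left h.ord (hx.pow0 h.ord n)

/-- The value at a point which is not a root. -/
private theorem Sce_unit (h : Kr κ v) {x : F} {c : κ} (hx : Ge v 1 (x - algebraMap κ F c)) (q : κ[X])
    (hq : q.eval c ≠ 0) : Is v 0 (aeval x q) := by
  have hx0 : Ge v 0 x := by
    have h1 := (hx.mono zero_le_one).add h.ord (h.geCst c)
    rwa [sub_add_cancel] at h1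
  obtain ⟨r, hr⟩ : X - C c ∣ q - C (q.eval c) := by
    rw [dvd_iff_isRoot, IsRoot.def, eval_sub, eval_C, sub_self]
  have h1 : aeval x q = (x - algebraMap κ F c) * aeval x r + algebraMap κ F (q.eval c) := by
    have h2 : q = (X - C c) * r + C (q.eval c) := by rw [← hr]; ring
    conv_lhs => rw [h2]
    rw [map_add, map_mul, map_sub, aeval_X, aeval_C, aeval_C]
  rw [h1]
  exact Is.ge_add h.ord (hx.mul_right h.ord (Sce_int h hx0 r)) (h.isCst hq) zero_lt_one

/-- The common step: from `v (y ^ 2 + y) = - n m` to `n = 2 k`. -/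
private theorem Sce_even (h : Ord v) {y : F} {n : ℕ} {m : ℤ} (hm : 0 < m) (hn : n ≠ 0)
    (hy : Is v (-(n * m)) (y ^ 2 + y)) (hd : y ≠ 0 → m ∣ v y) : ∃ k : ℕ, k ≠ 0 ∧ n = 2 * k := by
  have hn0 : (0 : ℤ) < n := by
    have := Nat.pos_of_ne_zero hn
    exact_mod_cast this
  have hnm : 0 < (n : ℤ) * m := mul_pos hn0 hm
  have hy0 : y ≠ 0 := by
    rintro rfl
    exact hy.1 (by ring)
  have h1 : v y < 0 := by
    by_contra h2
    have h3 : Ge v 0 y := Or.inr (not_lt.1 h2)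
    have h4 : Ge v 0 (y ^ 2 + y) := (h3.pow0 h 2).add h h3
    exact hy.not_ge (by omega) h4
  have h2 : Is v (((2 : ℕ) : ℤ) * v y) (y ^ 2 + y) :=
    ((Is.of_ne hy0).pow h 2).add_ge h (Is.of_ne hy0).ge (by push_cast; omega)
  have h3 : ((2 : ℕ) : ℤ) * v y = -(n * m) := by rw [← h2.2, hy.2]
  obtain ⟨j, hj⟩ := hd hy0
  have h4 : m * (2 * j + n) = 0 := by
    rw [hj] at h3
    push_cast at h3
    linear_combination h3
  have h5 : 2 * j + (n : ℤ) = 0 := by
    rcases mul_eq_zero.1 h4 with h6 | h6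
    · omega
    · exact h6
  refine ⟨(-j).toNat, ?_, ?_⟩ <;> omega

end val

section main

variable {κ F : Type} [Field κ] [IsAlgClosed κ] [Field F] [Algebra κ F] {x : F}

/-- `σ y = y + ε(σ)`. -/
private def Sce_ok (χ : MulAction.stabilizer (F ≃ₐ[κ] F) x →* ℤˣ) (y : F) : Prop :=
  ∀ σ : MulAction.stabilizer (F ≃ₐ[κ] F) x, (σ : F ≃ₐ[κ] F) y = y + if χ σ = 1 then 0 else 1

omit [IsAlgClosed κ] in
private theorem Sce_stab (σ : MulAction.stabilizer (F ≃ₐ[κ] F) x) : (σ : F ≃ₐ[κ] F) x = x := σ.2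

omit [IsAlgClosed κ] in
private theorem Sce_two (h2 : (2 : κ) = 0) : (2 : F) = 0 := by
  have h : algebraMap κ F 2 = 0 := by rw [h2, map_zero]
  rw [map_ofNat] at h
  exact h

omit [IsAlgClosed κ] in
private theorem Sce_exists (h2 : (2 : κ) = 0) (hx : Gx κ x)
    (χ : MulAction.stabilizer (F ≃ₐ[κ] F) x →* ℤˣ) : ∃ y : F, Sce_ok χ y := by
  have hF2 : (2 : F) = 0 := Sce_two h2
  have := hx.fin
  have := Fintype.ofFinite (MulAction.stabilizer (F ≃ₐ[κ] F) x)
  obtain ⟨w₀, hw₀⟩ : ∃ w : F, ∑ τ : MulAction.stabilizer (F ≃ₐ[κ] F) x,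
      (τ : F ≃ₐ[κ] F) w ≠ 0 := by
    by_contra hcon
    push Not at hcon
    let φ : MulAction.stabilizer (F ≃ₐ[κ] F) x → (F →* F) := fun τ =>
      (((τ : F ≃ₐ[κ] F) : F →+* F) : F →* F)
    have hφ : Function.Injective φ := by
      intro σ τ hστ
      apply Subtype.ext
      ext z
      exact DFunLike.congr_fun hστ z
    have hli := (linearIndependent_monoidHom F F).comp φ hφ
    rw [Fintype.linearIndependent_iff] at hli
    have h3 := hli (fun _ => 1) (by
      funext z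
      rw [Finset.sum_apply]
      have h4 := hcon z
      simp only [one_smul]
      exact h4) 1
    exact one_ne_zero h3
  obtain ⟨t, ht⟩ : ∃ t, t = ∑ τ : MulAction.stabilizer (F ≃ₐ[κ] F) x,
      (τ : F ≃ₐ[κ] F) w₀ := ⟨_, rfl⟩
  rw [← ht] at hw₀
  have htσ : ∀ σ : MulAction.stabilizer (F ≃ₐ[κ] F) x, (σ : F ≃ₐ[κ] F) t = t := by
    intro σ
    rw [ht, map_sum]
    exact Fintype.sum_equiv (Equiv.mulLeft σ) _ _ (fun τ => rfl)
  have hw : ∑ τ : MulAction.stabilizer (F ≃ₐ[κ] F) x, (τ : F ≃ₐ[κ] F) (w₀ / t) = 1 := by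
    have h3 : ∀ τ : MulAction.stabilizer (F ≃ₐ[κ] F) x, (τ : F ≃ₐ[κ] F) (w₀ / t) =
        (τ : F ≃ₐ[κ] F) w₀ / t := by
      intro τ
      rw [map_div₀, htσ]
    rw [Finset.sum_congr rfl (fun τ _ => h3 τ), ← Finset.sum_div, ← ht, div_self hw₀]
  obtain ⟨w, hw'⟩ : ∃ w, w = w₀ / t := ⟨_, rfl⟩
  rw [← hw'] at hw
  obtain ⟨ε, hε⟩ : ∃ ε : MulAction.stabilizer (F ≃ₐ[κ] F) x → F,
      ∀ σ, ε σ = if χ σ = 1 then 0 else 1 := ⟨_, fun _ => rfl⟩
  have hadd : ∀ σ τ, ε (σ⁻¹ * τ) = ε σ + ε τ := by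
    intro σ τ
    rw [hε, hε, hε, map_mul, map_inv]
    have h11 : (1 : F) + 1 = 0 := by rw [← hF2]; norm_num
    rcases Int.units_eq_one_or (χ σ) with hσ | hσ <;>
      rcases Int.units_eq_one_or (χ τ) with hτ | hτ <;> rw [hσ, hτ] <;> simp [h11]
  refine ⟨∑ τ, ε τ * (τ : F ≃ₐ[κ] F) w, ?_⟩
  intro σ
  have hσε : ∀ τ, (σ : F ≃ₐ[κ] F) (ε τ) = ε τ := by
    intro τ
    rw [hε]
    split_ifs
    · rw [map_zero]
    · rw [map_one]
  have h3 : (σ : F ≃ₐ[κ] F) (∑ τ, ε τ * (τ : F ≃ₐ[κ] F) w) =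
      ∑ τ, ε (σ⁻¹ * τ) * (τ : F ≃ₐ[κ] F) w := by
    rw [map_sum]
    refine Fintype.sum_equiv (Equiv.mulLeft σ) _ _ (fun τ => ?_)
    rw [map_mul, hσε]
    change ε τ * _ = ε (σ⁻¹ * (σ * τ)) * _
    rw [inv_mul_cancel_left]
    rfl
  rw [h3]
  have h4 : ∑ τ, ε (σ⁻¹ * τ) * (τ : F ≃ₐ[κ] F) w =
      ε σ * ∑ τ : MulAction.stabilizer (F ≃ₐ[κ] F) x, (τ : F ≃ₐ[κ] F) w +
        ∑ τ, ε τ * (τ : F ≃ₐ[κ] F) w := by
    rw [Finset.mul_sum, ← Finset.sum_add_distrib]
    refine Finset.sum_congr rfl (fun τ _ => ?_)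
    rw [hadd]
    ring
  rw [h4, hw, mul_one, add_comm, hε]

omit [IsAlgClosed κ] in
private theorem Sce_add {χ : MulAction.stabilizer (F ≃ₐ[κ] F) x →* ℤˣ} {y u : F}
    (hy : Sce_ok χ y) (hu : ∀ σ : MulAction.stabilizer (F ≃ₐ[κ] F) x, (σ : F ≃ₐ[κ] F) u = u) :
    Sce_ok χ (y + u) := by
  intro σ
  rw [map_add, hy σ, hu σ]
  ring

omit [IsAlgClosed κ] in
private theorem Sce_dec {χ : MulAction.stabilizer (F ≃ₐ[κ] F) x →* ℤˣ} {y π : F}
    (hy : Sce_ok χ y) {v : F → ℤ} (hv : Plc κ x π v)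
    (hs : ∀ σ : MulAction.stabilizer (F ≃ₐ[κ] F) x, Dv v (σ : F ≃ₐ[κ] F) → χ σ = 1)
    (hy0 : y ≠ 0) : v π ∣ v y := by
  refine hv.dec y hy0 (fun σ hσ hd => ?_)
  have h1 := hy ⟨σ, hσ⟩
  rw [if_pos (hs ⟨σ, hσ⟩ hd), add_zero] at h1
  exact h1

/-- The finite part. -/
private theorem Sce_fin (h2 : (2 : κ) = 0) (χ : MulAction.stabilizer (F ≃ₐ[κ] F) x →* ℤˣ)
    (hx : Gx κ x) (hS : Spl κ F x χ) : ∀ (N : ℕ) (y : F) (a b : κ[X]), Sce_ok χ y → b ≠ 0 →
      b.natDegree ≤ N → (y ^ 2 + y) * aeval x b = aeval x a →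
      ∃ (y' : F) (h : κ[X]), Sce_ok χ y' ∧ y' ^ 2 + y' = aeval x h := by
  have hF2 : (2 : F) = 0 := Sce_two h2
  have hinj : ∀ q : κ[X], aeval x q = 0 → q = 0 := by
    intro q hq
    exact (transcendental_iff.1 hx.tra) q hq
  intro N
  induction N with
  | zero =>
    intro y a b hy hb hN he
    obtain ⟨b0, rfl⟩ := natDegree_eq_zero.1 (Nat.le_zero.1 hN)
    have hb0 : b0 ≠ 0 := fun h => hb (by rw [h, C_0])
    refine ⟨y, C b0⁻¹ * a, hy, ?_⟩
    rw [map_mul, ← he, aeval_C, aeval_C, map_inv₀]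
    have h3 : algebraMap κ F b0 ≠ 0 := (_root_.map_ne_zero _).mpr hb0
    field_simp
  | succ N ih =>
    intro y a b hy hb hN he
    by_cases hdeg : b.natDegree ≤ N
    · exact ih y a b hy hb hdeg he
    obtain ⟨c, hc⟩ := IsAlgClosed.exists_root b (by
      intro h0
      rw [degree_eq_natDegree hb] at h0
      have : b.natDegree = 0 := by exact_mod_cast h0
      omega)
    -- write b = (X - c) ^ n * b₁
    obtain ⟨b₁, hb₁, hb₁c⟩ := exists_eq_pow_rootMultiplicity_mul_and_not_dvd b hb c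
    obtain ⟨n, hn⟩ : ∃ n, n = b.rootMultiplicity c := ⟨_, rfl⟩
    rw [← hn] at hb₁
    have hn0 : n ≠ 0 := by
      rw [hn]
      exact ((rootMultiplicity_pos hb).2 hc).ne'
    rw [dvd_iff_isRoot, IsRoot.def] at hb₁c
    have hb₁0 : b₁ ≠ 0 := by
      rintro rfl
      exact hb₁c eval_zero
    have hxc : x - algebraMap κ F c ≠ 0 := by
      intro h0
      have h3 := hinj (X - C c) (by rw [map_sub, aeval_X, aeval_C, h0])
      exact X_sub_C_ne_zero c h3
    -- reduction of the degree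
    have hred : ∀ (y' : F) (a' b' : κ[X]), Sce_ok χ y' → b = (X - C c) * b' →
        (y' ^ 2 + y') * aeval x b = aeval x ((X - C c) * a') →
        ∃ (y'' : F) (h : κ[X]), Sce_ok χ y'' ∧ y'' ^ 2 + y'' = aeval x h := by
      intro y' a' b' hy' hb' he'
      have hb'0 : b' ≠ 0 := by
        rintro rfl
        exact hb (by rw [hb', mul_zero])
      have hdb : b.natDegree = 1 + b'.natDegree := by
        rw [hb', natDegree_mul (X_sub_C_ne_zero c) hb'0, natDegree_X_sub_C]
      refine ih y' a' b' hy' hb'0 (by omega) ?_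
      rw [hb', map_mul, map_mul, map_sub, aeval_X, aeval_C] at he'
      refine mul_left_cancel₀ hxc ?_
      rw [← he']
      ring
    obtain ⟨b', hb'⟩ : ∃ b', b = (X - C c) * b' := by
      obtain ⟨r, hr⟩ := dvd_iff_isRoot.2 hc
      exact ⟨r, hr⟩
    by_cases hac : a.eval c = 0
    · obtain ⟨a', ha'⟩ := dvd_iff_isRoot.2 (show a.IsRoot c from hac)
      exact hred y a' b' hy hb' (by rw [he, ha'])
    · obtain ⟨v, hv, hvs⟩ := hS.1 c
      have hxv : Ge v 1 (x - algebraMap κ F c) := Or.inr hv.pos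
      have h3 : Is v 0 (aeval x a) := Sce_unit hv.toKr hxv a hac
      have h4 : Is v 0 (aeval x b₁) := Sce_unit hv.toKr hxv b₁ hb₁c
      have h5 : Is v (n * v (x - algebraMap κ F c)) ((x - algebraMap κ F c) ^ n) :=
        (Is.of_ne hxc).pow hv.ord n
      have h6 : aeval x b = (x - algebraMap κ F c) ^ n * aeval x b₁ := by
        conv_lhs => rw [hb₁]
        rw [map_mul, map_pow, map_sub, aeval_X, aeval_C]
      have h7 : Is v (n * v (x - algebraMap κ F c) + 0) (aeval x b) := by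
        rw [h6]
        exact h5.mul hv.ord h4
      have h8 : Is v (-(n * v (x - algebraMap κ F c))) (y ^ 2 + y) := by
        have h9 : y ^ 2 + y = aeval x a / aeval x b := by
          rw [eq_div_iff h7.1, he]
        rw [h9]
        have h10 := h3.div hv.ord h7
        rwa [add_zero, zero_sub] at h10
      obtain ⟨k, hk0, hnk⟩ := Sce_even hv.ord hv.pos hn0 h8
        (fun hy0 => Sce_dec hy hv hvs hy0)
      obtain ⟨d, hd⟩ := IsAlgClosed.exists_pow_nat_eq (a.eval c / b₁.eval c) (n := 2) two_pos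
      obtain ⟨u, hu⟩ : ∃ u, u = algebraMap κ F d / (x - algebraMap κ F c) ^ k := ⟨_, rfl⟩
      have huσ : ∀ σ : MulAction.stabilizer (F ≃ₐ[κ] F) x, (σ : F ≃ₐ[κ] F) u = u := by
        intro σ
        rw [hu, map_div₀, map_pow, map_sub, Sce_stab, AlgEquiv.commutes, AlgEquiv.commutes]
      obtain ⟨a', ha'⟩ : X - C c ∣ a + C (d ^ 2) * b₁ + C d * b₁ * (X - C c) ^ k := by
        rw [dvd_iff_isRoot, IsRoot.def]
        rw [eval_add, eval_add, eval_mul, eval_mul, eval_mul, eval_pow, eval_sub, eval_X, eval_C,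
          eval_C, eval_C, sub_self, zero_pow hk0, mul_zero, add_zero, hd, div_mul_cancel₀ _ hb₁c]
        have h11 : (1 : κ) + 1 = 0 := by rw [← h2]; norm_num
        linear_combination (a.eval c) * h11
      refine hred (y + u) a' b' (Sce_add hy huσ) hb' ?_
      rw [← ha']
      simp only [map_add, map_mul, map_pow, map_sub, aeval_X, aeval_C]
      rw [← he, h6, hnk]
      have h12 : u * (x - algebraMap κ F c) ^ k = algebraMap κ F d := by
        rw [hu, div_mul_cancel₀ _ (pow_ne_zero k hxc)]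
      have h13 : (x - algebraMap κ F c) ^ (2 * k) = ((x - algebraMap κ F c) ^ k) ^ 2 := by
        rw [mul_comm, pow_mul]
      rw [h13, ← h12]
      linear_combination (y * u * ((x - algebraMap κ F c) ^ k) ^ 2 * aeval x b₁) * hF2

/-- The part at infinity. -/
private theorem Sce_inf (h2 : (2 : κ) = 0) (χ : MulAction.stabilizer (F ≃ₐ[κ] F) x →* ℤˣ)
    (hx : Gx κ x) (hS : Spl κ F x χ) : ∀ (N : ℕ) (y : F) (a : κ[X]), Sce_ok χ y →
      a.natDegree ≤ N → y ^ 2 + y = aeval x a →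
      ∃ (y' : F) (c : κ), Sce_ok χ y' ∧ y' ^ 2 + y' = algebraMap κ F c := by
  have hF2 : (2 : F) = 0 := Sce_two h2
  have hx0 : x ≠ 0 := by
    rintro rfl
    exact hx.tra ⟨X, X_ne_zero, by rw [aeval_X]⟩
  intro N
  induction N with
  | zero =>
    intro y a hy hN he
    obtain ⟨a0, rfl⟩ := natDegree_eq_zero.1 (Nat.le_zero.1 hN)
    exact ⟨y, a0, hy, by rw [he, aeval_C]⟩
  | succ N ih =>
    intro y a hy hN he
    by_cases hdeg : a.natDegree ≤ N
    · exact ih y a hy hdeg he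
    have hn0 : a.natDegree ≠ 0 := by omega
    have ha0 : a ≠ 0 := by
      rintro rfl
      exact hn0 natDegree_zero
    obtain ⟨v, hv, hvs⟩ := hS.2
    have hxv : Ge v 1 (x⁻¹ - algebraMap κ F 0) := by
      rw [map_zero, sub_zero]
      exact Or.inr hv.pos
    have h3 : Is v 0 (aeval x⁻¹ a.reverse) := Sce_unit hv.toKr hxv _ (by
      rw [← coeff_zero_eq_eval_zero, coeff_zero_reverse]
      exact leadingCoeff_ne_zero.2 ha0)
    have h4 : Is v (-(a.natDegree * v x⁻¹)) (x ^ a.natDegree) := by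
      have h5 := ((Is.of_ne hx0 (v := v)).pow hv.ord a.natDegree)
      have h6 := hv.ord.inv hx0
      have h7 : (a.natDegree : ℤ) * v x = -(a.natDegree * v x⁻¹) := by
        rw [h6]
        ring
      rwa [h7] at h5
    have h5 : aeval x a = aeval x⁻¹ a.reverse * x ^ a.natDegree := by
      let _ : Invertible x := invertibleOfNonzero hx0
      have h6 := eval₂_reverse_mul_pow (algebraMap κ F) x a
      rw [invOf_eq_inv] at h6
      rw [aeval_def, aeval_def, h6]
    have h6 : Is v (-(a.natDegree * v x⁻¹)) (y ^ 2 + y) := by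
      rw [he, h5]
      have h7 := h3.mul hv.ord h4
      rwa [zero_add] at h7
    obtain ⟨k, hk0, hnk⟩ := Sce_even hv.ord hv.pos hn0 h6
      (fun hy0 => Sce_dec hy hv hvs hy0)
    obtain ⟨d, hd⟩ := IsAlgClosed.exists_pow_nat_eq a.leadingCoeff (n := 2) two_pos
    have huσ : ∀ σ : MulAction.stabilizer (F ≃ₐ[κ] F) x, (σ : F ≃ₐ[κ] F)
        (algebraMap κ F d * x ^ k) = algebraMap κ F d * x ^ k := by
      intro σ
      rw [map_mul, map_pow, Sce_stab, AlgEquiv.commutes]
    refine ih (y + algebraMap κ F d * x ^ k) (a + C (d ^ 2) * X ^ (2 * k) + C d * X ^ k)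
      (Sce_add hy huσ) ?_ ?_
    · have h7 : (a + C (d ^ 2) * X ^ (2 * k) + C d * X ^ k).natDegree ≤ N + 1 := by
        refine natDegree_add_le_of_degree_le (natDegree_add_le_of_degree_le hN ?_) ?_
        · exact (natDegree_C_mul_X_pow_le _ _).trans (by omega)
        · exact (natDegree_C_mul_X_pow_le _ _).trans (by omega)
      have h8 : a.natDegree = N + 1 := by omega
      refine natDegree_le_iff_coeff_eq_zero.2 (fun M hM => ?_)
      rcases Nat.lt_or_ge (N + 1) M with h9 | h9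
      · exact coeff_eq_zero_of_natDegree_lt (lt_of_le_of_lt h7 h9)
      · have h10 : M = N + 1 := by omega
        have h11 : M = 2 * k := by omega
        have h12 : M ≠ k := by omega
        rw [coeff_add, coeff_add, coeff_C_mul_X_pow, coeff_C_mul_X_pow, if_pos h11, if_neg h12,
          add_zero, hd]
        have h13 : a.coeff M = a.leadingCoeff := by rw [h10, ← h8]; rfl
        rw [h13]
        have h14 : (1 : κ) + 1 = 0 := by rw [← h2]; norm_num
        linear_combination a.leadingCoeff * h14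
    · simp only [map_add, map_mul, map_pow, aeval_X, aeval_C]
      rw [← he]
      have h13 : x ^ (2 * k) = (x ^ k) ^ 2 := by
        rw [mul_comm, pow_mul]
      rw [h13]
      linear_combination (y * (algebraMap κ F d * x ^ k)) * hF2

end main

theorem tSce : S_Sce := by
  intro κ F _ _ _ _ x h2 hx χ hS
  have hF2 : (2 : F) = 0 := Sce_two h2
  obtain ⟨y0, hy0⟩ := Sce_exists h2 hx χ
  have hf : y0 ^ 2 + y0 ∈ IntermediateField.adjoin κ {x} := by
    refine hx.fix _ (fun σ hσ => ?_)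
    have h3 := hy0 ⟨σ, hσ⟩
    change σ y0 = _ at h3
    rw [map_add, map_pow, h3]
    split_ifs
    · ring
    · linear_combination (y0 + 1) * hF2
  obtain ⟨a, b, hab⟩ := (IntermediateField.mem_adjoin_simple_iff κ _).1 hf
  have hab' : ∃ a b : κ[X], b ≠ 0 ∧ (y0 ^ 2 + y0) * aeval x b = aeval x a := by
    by_cases hb : aeval x b = 0
    · refine ⟨0, 1, one_ne_zero, ?_⟩
      rw [hab, hb, div_zero, zero_mul, map_zero]
    · refine ⟨a, b, ?_, ?_⟩
      · rintro rfl
        exact hb (map_zero _)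
      · rw [hab, div_mul_cancel₀ _ hb]
  obtain ⟨a, b, hb, hab⟩ := hab'
  obtain ⟨y1, h, hy1, hyh⟩ := Sce_fin h2 χ hx hS b.natDegree y0 a b hy0 hb le_rfl hab
  obtain ⟨y, c, hy, hyc⟩ := Sce_inf h2 χ hx hS h.natDegree y1 h hy1 le_rfl hyh
  obtain ⟨r, hr⟩ : ∃ r : κ, y = algebraMap κ F r := by
    obtain ⟨r, hr⟩ := IsAlgClosed.exists_root (X ^ 2 + X - C c : κ[X]) (by
      have h3 : (X ^ 2 + X - C c : κ[X]).natDegree = 2 := by compute_degree!
      intro h4
      have h5 : (X ^ 2 + X - C c : κ[X]).natDegree = 0 := natDegree_eq_zero_iff_degree_le_zero.2 h4.le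
      omega)
    have hr' : r ^ 2 + r - c = 0 := by
      have h3 := hr
      rw [IsRoot.def, eval_sub, eval_add, eval_pow, eval_X, eval_C] at h3
      exact h3
    have hr'' : algebraMap κ F r ^ 2 + algebraMap κ F r = algebraMap κ F c := by
      rw [← map_pow, ← map_add]
      congr 1
      linear_combination hr'
    have h3 : (y - algebraMap κ F r) * (y - algebraMap κ F (r + 1)) = 0 := by
      rw [map_add, map_one]
      have h4 : y ^ 2 + y = algebraMap κ F r ^ 2 + algebraMap κ F r := by rw [hyc, hr'']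
      linear_combination h4 + (algebraMap κ F r ^ 2 + algebraMap κ F r - y * algebraMap κ F r - y) * hF2
    rcases mul_eq_zero.1 h3 with h4 | h4
    · exact ⟨r, sub_eq_zero.1 h4⟩
    · exact ⟨r + 1, sub_eq_zero.1 h4⟩
  ext σ
  have h3 := hy σ
  rw [hr, AlgEquiv.commutes] at h3
  by_contra hne
  have hne' : χ σ ≠ 1 := by
    intro h4
    apply hne
    rw [h4]
    rfl
  rw [if_neg hne'] at h3
  exact one_ne_zero (left_eq_add.1 h3)

end MP7Sh
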