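import Pool.Agent.Lib.MP_7f581e_Sh.SpecE

/-! An endomorphism of degree two or three is not a scalar. -/

set_option autoImplicit false

namespace MP7Sh

open Polynomial WeierstrassCurve

open scoped Classical

theorem tScl (h1 : S_Deg) (h2 : S_Gn) : S_Scl := by
  intro κ _ W hΔ l c hl hc hcl A B hA hB hA0 S hS hall
  obtain ⟨hm, hd, hg, -⟩ := h1.1 κ W c
  obtain ⟨hcop, -⟩ := h2 κ W hΔ c
  have hgd : (mg W c).natDegree ≤ c ^ 2 := by
    have := natDegree_le_natDegree hg.le
    omega
  have hAne : A ≠ 0 := by
    rintro rfl
    exact hA0 (coeff_zero 0)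
  by_cases hc1 : c = 1
  · -- `c = 1`
    subst hc1
    have hf1 : mf W 1 = X := by simp only [mf, mfg]
    have hg1 : mg W 1 = 1 := by simp only [mg, mfg]
    have hH : A - B * X = 0 := by
      by_contra hne
      have hsub : S ⊆ (A - B * X).roots.toFinset := by
        intro x hx
        rw [Multiset.mem_toFinset, mem_roots hne, IsRoot.def, eval_sub, eval_mul, eval_X]
        have := hall x hx
        rw [hf1, hg1, eval_one, mul_one, eval_X] at this
        exact sub_eq_zero.2 this
      have h3 := (Finset.card_le_card hsub).trans
        ((Multiset.toFinset_card_le _).trans (card_roots' _))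
      have h4 : (A - B * X).natDegree ≤ 3 := by
        refine (natDegree_sub_le _ _).trans (max_le hA (natDegree_mul_le.trans ?_))
        rw [natDegree_X]
        omega
      nlinarith
    apply hA0
    rw [sub_eq_zero.1 hH, coeff_mul_X_zero]
  · have hc2 : 2 ≤ c := by omega
    have hH : A * mg W c - B * mf W c = 0 := by
      by_contra hne
      have hsub : S ⊆ (A * mg W c - B * mf W c).roots.toFinset := by
        intro x hx
        rw [Multiset.mem_toFinset, mem_roots hne, IsRoot.def, eval_sub, eval_mul, eval_mul]
        exact sub_eq_zero.2 (hall x hx)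
      have h3 := (Finset.card_le_card hsub).trans
        ((Multiset.toFinset_card_le _).trans (card_roots' _))
      have h4 : (A * mg W c - B * mf W c).natDegree ≤ c ^ 2 + 3 := by
        refine (natDegree_sub_le _ _).trans (max_le ?_ ?_)
        · exact natDegree_mul_le.trans (by omega)
        · exact natDegree_mul_le.trans (by omega)
      nlinarith
    have hdvd : mf W c ∣ A * mg W c := ⟨B, by rw [sub_eq_zero.1 hH, mul_comm]⟩
    have h5 : mf W c ∣ A := hcop.dvd_of_dvd_mul_right hdvd
    have h6 := natDegree_le_of_dvd h5 hAne
    nlinarith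

end MP7Sh
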