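import Pool.Agent.Lib.MP_7f581e_Sh.SpecV

/-!
# MP_7f581e_nt, GA realizations of `PSL(2, l)`: `S_Sco`
-/

set_option autoImplicit false

namespace MP7Sh

open Polynomial IntermediateField

open scoped Classical

/-- An eigenvector for the character `χ`. -/
private theorem Sco_eig (κ F : Type) [Field κ] [Field F] [Algebra κ F] (x : F)
    (hfin : Finite (MulAction.stabilizer (F ≃ₐ[κ] F) x))
    (χ : MulAction.stabilizer (F ≃ₐ[κ] F) x →* ℤˣ) :
    ∃ y : F, y ≠ 0 ∧ ∀ σ : MulAction.stabilizer (F ≃ₐ[κ] F) x,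
      (σ : F ≃ₐ[κ] F) y = (((χ σ : ℤˣ) : ℤ) : F) * y := by
  have hft := Fintype.ofFinite (MulAction.stabilizer (F ≃ₐ[κ] F) x)
  have hli := linearIndependent_monoidHom F F
  obtain ⟨ι, hι⟩ : ∃ ι : MulAction.stabilizer (F ≃ₐ[κ] F) x → (F →* F),
      ∀ σ w, ι σ w = (σ : F ≃ₐ[κ] F) w :=
    ⟨fun σ => ((σ : F ≃ₐ[κ] F) : F →+* F), fun _ _ => rfl⟩
  have hinj : Function.Injective ι := by
    intro σ τ h
    apply Subtype.ext
    apply AlgEquiv.ext
    intro w
    rw [← hι, ← hι, h]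
  have h2 := hli.comp ι hinj
  rw [Fintype.linearIndependent_iff] at h2
  have h3 : ∃ w : F, ∑ σ : MulAction.stabilizer (F ≃ₐ[κ] F) x,
      (((χ σ : ℤˣ) : ℤ) : F) * (σ : F ≃ₐ[κ] F) w ≠ 0 := by
    by_contra hcon
    push Not at hcon
    have h4 := h2 (fun σ => (((χ σ : ℤˣ) : ℤ) : F)) (by
      funext w
      rw [Finset.sum_apply, Pi.zero_apply, ← hcon w]
      refine Finset.sum_congr rfl fun σ _ => ?_
      rw [Pi.smul_apply, smul_eq_mul]
      change _ * ι σ w = _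
      rw [hι]) 1
    rw [map_one, Units.val_one, Int.cast_one] at h4
    exact one_ne_zero h4
  obtain ⟨w, hw⟩ := h3
  refine ⟨_, hw, fun τ => ?_⟩
  rw [map_sum, Finset.mul_sum, ← Equiv.sum_comp (Equiv.mulLeft τ) (fun σ =>
    (((χ τ : ℤˣ) : ℤ) : F) * ((((χ σ : ℤˣ) : ℤ) : F) * (σ : F ≃ₐ[κ] F) w))]
  refine Finset.sum_congr rfl fun σ _ => ?_
  rw [map_mul, map_intCast, Equiv.coe_mulLeft, map_mul χ]
  have h5 : (((χ τ : ℤˣ) : ℤ) : F) * (((χ τ : ℤˣ) : ℤ) : F) = 1 := by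
    rw [← Int.cast_mul, ← Units.val_mul, Int.units_mul_self, Units.val_one, Int.cast_one]
  have h6 : ((τ * σ : MulAction.stabilizer (F ≃ₐ[κ] F) x) : F ≃ₐ[κ] F) w =
      (τ : F ≃ₐ[κ] F) ((σ : F ≃ₐ[κ] F) w) := rfl
  rw [h6, Units.val_mul, Int.cast_mul]
  linear_combination (-(((χ σ : ℤˣ) : ℤ) : F) * (τ : F ≃ₐ[κ] F) ((σ : F ≃ₐ[κ] F) w)) * h5

/-- Values of polynomials at an integral element. -/
private theorem Sco_int {κ F : Type} [Field κ] [Field F] [Algebra κ F] {v : F → ℤ}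
    (h : Kr κ v) {x : F} (hx : Ge v 0 x) (q : κ[X]) : Ge v 0 (aeval x q) := by
  induction q using Polynomial.induction_on' with
  | add p q hp hq => rw [map_add]; exact hp.add h.ord hq
  | monomial n a =>
    rw [aeval_monomial]
    exact (h.geCst a).mul_left h.ord (hx.pow0 h.ord n)

private theorem Sco_unit {κ F : Type} [Field κ] [Field F] [Algebra κ F] {v : F → ℤ}
    (h : Kr κ v) {x : F} {c : κ} (hx : Ge v 1 (x - algebraMap κ F c)) (q : κ[X])
    (hq : q.eval c ≠ 0) : Is v 0 (aeval x q) := by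
  obtain ⟨r, hr⟩ := X_sub_C_dvd_sub_C_eval (a := c) (p := q)
  have hx0 : Ge v 0 x := by
    have h1 := (hx.mono zero_le_one).add h.ord (h.geCst c)
    rwa [sub_add_cancel] at h1
  have h1 : aeval x q = algebraMap κ F (q.eval c) + (x - algebraMap κ F c) * aeval x r := by
    have h2 := congrArg (aeval x) hr
    rw [map_sub, map_mul, map_sub, aeval_X, aeval_C, aeval_C] at h2
    linear_combination h2
  rw [h1]
  exact (h.isCst hq).add_ge h.ord (hx.mul_right h.ord (Sco_int h hx0 r)) zero_lt_one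

private theorem Sco_ind (κ F : Type) [Field κ] [IsAlgClosed κ] [Field F] [Algebra κ F] (x : F)
    (h2 : (2 : κ) ≠ 0)
    (χ : MulAction.stabilizer (F ≃ₐ[κ] F) x →* ℤˣ) (hs : Spl κ F x χ) :
    ∀ (n : ℕ) (h : κ[X]) (y : F), h.natDegree = n → y ≠ 0 →
      (∀ σ : MulAction.stabilizer (F ≃ₐ[κ] F) x,
        (σ : F ≃ₐ[κ] F) y = (((χ σ : ℤˣ) : ℤ) : F) * y) → y ^ 2 = aeval x h → χ = 1 := by
  intro n
  induction n using Nat.strong_induction_on with
  | _ n ih =>
  intro h y hn hy hχ hyh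
  have hh0 : h ≠ 0 := by
    rintro rfl
    rw [map_zero] at hyh
    exact hy (pow_eq_zero_iff two_ne_zero |>.1 hyh)
  rcases Nat.eq_zero_or_pos n with hn0 | hn0
  · -- `h` is constant
    rw [hn0] at hn
    obtain ⟨a, ha⟩ := natDegree_eq_zero.1 hn
    obtain ⟨e, he⟩ := IsAlgClosed.exists_pow_nat_eq a two_pos
    rw [← ha, aeval_C, ← he, map_pow] at hyh
    have hye : y = algebraMap κ F e ∨ y = -algebraMap κ F e := sq_eq_sq_iff_eq_or_eq_neg.1 hyh
    have hfix : ∀ σ : F ≃ₐ[κ] F, σ y = y := by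
      intro σ
      rcases hye with h | h
      · rw [h, AlgEquiv.commutes]
      · rw [h, map_neg, AlgEquiv.commutes]
    ext σ
    rw [MonoidHom.one_apply, Units.val_one]
    have h5 := hχ σ
    rw [hfix] at h5
    rcases Int.units_eq_one_or (χ σ) with h6 | h6
    · rw [h6, Units.val_one]
    · exfalso
      rw [h6, Units.val_neg, Units.val_one, Int.cast_neg, Int.cast_one] at h5
      have h7 : (2 : F) * y = 0 := by linear_combination h5
      rcases mul_eq_zero.1 h7 with h8 | h8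
      · have h9 : algebraMap κ F 2 = 0 := by
          rw [map_ofNat]
          exact h8
        exact h2 ((map_eq_zero _).1 h9)
      · exact hy h8
  · -- a root `c` of `h`
    obtain ⟨c, hc⟩ := IsAlgClosed.exists_root h (by
      intro h0
      have h3 : h.natDegree = 0 := natDegree_eq_of_degree_eq_some h0
      omega)
    obtain ⟨h₁, hh₁, hnd⟩ := exists_eq_pow_rootMultiplicity_mul_and_not_dvd h hh0 c
    obtain ⟨k, hk⟩ : ∃ k, k = h.rootMultiplicity c := ⟨_, rfl⟩
    rw [← hk] at hh₁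
    have hk0 : 0 < k := by
      rw [hk]
      exact (rootMultiplicity_pos hh0).2 hc
    have hh₁c : h₁.eval c ≠ 0 := fun h0 => hnd (dvd_iff_isRoot.2 h0)
    have hh₁0 : h₁ ≠ 0 := by
      rintro rfl
      exact hh₁c eval_zero
    have hdeg : h.natDegree = k + h₁.natDegree := by
      conv_lhs => rw [hh₁]
      rw [natDegree_mul (pow_ne_zero k (X_sub_C_ne_zero c)) hh₁0, natDegree_pow,
        natDegree_X_sub_C, mul_one]
    obtain ⟨v, hv, hvχ⟩ := hs.1 c
    have hm := hv.pos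
    have hxc : Ge v 1 (x - algebraMap κ F c) := Or.inr hm
    have hu := Sco_unit hv.toKr hxc h₁ hh₁c
    have hae : aeval x h = (x - algebraMap κ F c) ^ k * aeval x h₁ := by
      conv_lhs => rw [hh₁]
      rw [map_mul, map_pow, map_sub, aeval_X, aeval_C]
    have hval : 2 * v y = k * v (x - algebraMap κ F c) := by
      have h3 := hv.ord.pow hy 2
      rw [hyh, hae, hv.ord.mul _ _ (pow_ne_zero k hv.ne) hu.1, hv.ord.pow hv.ne k, hu.2] at h3
      rw [add_zero] at h3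
      exact h3.symm
    obtain ⟨j, hj⟩ := hv.dec y hy (by
      intro σ hσ hD
      have h4 := hχ ⟨σ, hσ⟩
      rw [hvχ ⟨σ, hσ⟩ hD, Units.val_one, Int.cast_one, one_mul] at h4
      exact h4)
    have hkj : (k : ℤ) = 2 * j := by
      rw [hj] at hval
      have h5 : v (x - algebraMap κ F c) * (k : ℤ) = v (x - algebraMap κ F c) * (2 * j) := by
        linear_combination -hval
      exact mul_left_cancel₀ hm.ne' h5
    obtain ⟨i, hi⟩ : ∃ i : ℕ, (i : ℤ) = j := ⟨j.toNat, Int.toNat_of_nonneg (by omega)⟩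
    have hki : k = 2 * i := by omega
    have hi0 : 0 < i := by omega
    refine ih h₁.natDegree (by omega) h₁ (y / (x - algebraMap κ F c) ^ i) rfl
      (div_ne_zero hy (pow_ne_zero i hv.ne)) (fun σ => ?_) ?_
    · have h6 : (σ : F ≃ₐ[κ] F) x = x := σ.2
      rw [map_div₀, map_pow, map_sub, h6, AlgEquiv.commutes, hχ, mul_div_assoc]
    · rw [div_pow, hyh, hae, ← pow_mul, hki, mul_comm 2 i]
      exact mul_div_cancel_left₀ _ (pow_ne_zero _ hv.ne)

theorem tSco : S_Sco := by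
  intro κ F _ _ _ _ x h2 hG χ hs
  obtain ⟨y, hy, hχ⟩ := Sco_eig κ F x hG.fin χ
  have hfix : y ^ 2 ∈ IntermediateField.adjoin κ {x} := by
    apply hG.fix
    intro σ hσ
    have h3 := hχ ⟨σ, hσ⟩
    rw [map_pow, h3, mul_pow, ← Int.cast_pow, ← Units.val_pow_eq_pow_val, Int.units_sq,
      Units.val_one, Int.cast_one, one_mul]
  obtain ⟨r, s, hrs⟩ := (mem_adjoin_simple_iff κ _).1 hfix
  have hs0 : aeval x s ≠ 0 := by
    intro h0
    rw [h0, div_zero] at hrs
    exact hy (pow_eq_zero_iff two_ne_zero |>.1 hrs)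
  refine Sco_ind κ F x h2 χ hs _ (r * s) (y * aeval x s) rfl (mul_ne_zero hy hs0)
    (fun σ => ?_) ?_
  · have h6 : (σ : F ≃ₐ[κ] F) x = x := σ.2
    have h7 : (σ : F ≃ₐ[κ] F) (aeval x s) = aeval x s := by
      rw [← aeval_algHom_apply (σ : F ≃ₐ[κ] F)]
      rw [h6]
    rw [map_mul, h7, hχ, mul_assoc]
  · rw [mul_pow, hrs, map_mul]
    field_simp

end MP7Sh
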