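import Pool.Agent.Lib.MP_7f581e_Sh.SpecE

/-!
# MP_7f581e_nt, GA realizations of `PSL(2, l)`: `S_Tor`
-/

set_option autoImplicit false

namespace MP7Sh

open Polynomial WeierstrassCurve

open scoped Classical

private theorem Tor_inf (L : Type) [Field L] [IsSepClosed L] : Infinite L := by
  by_contra h
  have hf : Finite L := not_infinite_iff_finite.mp h
  have hp : PerfectField L := inferInstance
  have ha : IsAlgClosed L := inferInstance
  exact h inferInstance

/-- The polynomial `d`. -/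
private noncomputable def Tor_d {L : Type} [Field L] (W : WeierstrassCurve L) : L[X] :=
  C 4 * X ^ 3 + C W.b₂ * X ^ 2 + C (2 * W.b₄) * X + C W.b₆

private theorem Tor_eval {L : Type} [Field L] (W : WeierstrassCurve L) (x : L) :
    (Tor_d W).eval x = 4 * x ^ 3 + W.b₂ * x ^ 2 + 2 * W.b₄ * x + W.b₆ := by
  rw [Tor_d]
  simp only [eval_add, eval_mul, eval_pow, eval_X, eval_C]

private theorem Tor_d_ne {L : Type} [Field L] (W : WeierstrassCurve L) (hW : W.Δ ≠ 0) :
    Tor_d W ≠ 0 := by
  intro h0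
  have h3 := congrArg (fun q : L[X] => q.coeff 3) h0
  have h2 := congrArg (fun q : L[X] => q.coeff 2) h0
  have h1 := congrArg (fun q : L[X] => q.coeff 0) h0
  simp [Tor_d, coeff_X, coeff_C] at h3
  simp [Tor_d, coeff_X, coeff_C] at h2
  simp [Tor_d, coeff_X, coeff_C] at h1
  apply hW
  rw [WeierstrassCurve.Δ, h2, h1]
  linear_combination (-2 * W.b₄ ^ 3) * h3

/-- A point with a given abscissa. -/
private theorem Tor_pt {L : Type} [Field L] [IsSepClosed L] (W : WeierstrassCurve L) (x : L)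
    (hx : (Tor_d W).eval x ≠ 0) :
    ∃ y : L, y ^ 2 + W.a₁ * x * y + W.a₃ * y = x ^ 3 + W.a₂ * x ^ 2 + W.a₄ * x + W.a₆ := by
  obtain ⟨b, hb⟩ : ∃ b, b = W.a₁ * x + W.a₃ := ⟨_, rfl⟩
  obtain ⟨e, he⟩ : ∃ e, e = x ^ 3 + W.a₂ * x ^ 2 + W.a₄ * x + W.a₆ := ⟨_, rfl⟩
  have hbe : b ^ 2 + 4 * e ≠ 0 := by
    rw [Tor_eval] at hx
    intro h
    apply hx
    rw [hb, he] at h
    rw [WeierstrassCurve.b₂, WeierstrassCurve.b₄, WeierstrassCurve.b₆]
    linear_combination h
  obtain ⟨q, hq⟩ : ∃ q : L[X], q = X ^ 2 + C b * X - C e := ⟨_, rfl⟩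
  have hq' : derivative q = C 2 * X + C b := by
    rw [hq]
    simp only [derivative_sub, derivative_add, derivative_X_pow, derivative_mul, derivative_C,
      derivative_X, zero_mul, zero_add, mul_one, sub_zero, Nat.cast_ofNat]
    have h2 : (C (2 : L) : L[X]) = 2 := rfl
    rw [h2]
    norm_num
  have hsep : q.Separable := by
    rw [separable_def]
    refine ⟨C (-4 * (b ^ 2 + 4 * e)⁻¹), C (b ^ 2 + 4 * e)⁻¹ * (C 2 * X + C b), ?_⟩
    rw [hq', hq]
    have h1 : (C ((b ^ 2 + 4 * e)⁻¹ * (b ^ 2 + 4 * e)) : L[X]) = 1 := by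
      rw [inv_mul_cancel₀ hbe, C_1]
    rw [← h1]
    simp only [C_mul, C_add, C_pow, C_neg]
    have h4 : (C (4 : L) : L[X]) = 4 := rfl
    have h2 : (C (2 : L) : L[X]) = 2 := rfl
    rw [h4, h2]
    ring
  have hdeg : q.degree = 2 := by
    rw [hq]
    compute_degree!
  obtain ⟨y, hy⟩ := IsSepClosed.exists_root q (by rw [hdeg]; exact two_ne_zero) hsep
  refine ⟨y, ?_⟩
  rw [IsRoot.def, hq] at hy
  simp only [eval_add, eval_sub, eval_mul, eval_pow, eval_X, eval_C] at hy
  rw [hb, he] at hy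
  linear_combination hy

/-- The choice of `x₀`. -/
private theorem Tor_good (L : Type) [Field L] [IsSepClosed L] (f g d : L[X]) (N : ℕ)
    (hN : (N : L) ≠ 0) (hf : f.Monic) (hfd : f.natDegree = N) (hco : IsCoprime f g)
    (hd : d ≠ 0) :
    ∃ x₀ : L, (f - C x₀ * g).Separable ∧
      (∀ x, (f - C x₀ * g).eval x = 0 → d.eval x ≠ 0) ∧ d.eval x₀ ≠ 0 := by
  have hN0 : N ≠ 0 := by
    rintro rfl
    exact hN Nat.cast_zero
  have hD : derivative f * g - f * derivative g ≠ 0 := by
    intro h0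
    have h1 : f ∣ derivative f * g := ⟨derivative g, by linear_combination h0⟩
    have h2 : f ∣ derivative f := hco.dvd_of_dvd_mul_right h1
    have h3 : derivative f = 0 := by
      by_contra h3
      have h4 := natDegree_le_of_dvd h2 h3
      have h5 := natDegree_derivative_lt (p := f) (by rw [hfd]; exact hN0)
      omega
    have h4 := congrArg (fun q : L[X] => q.coeff (N - 1)) h3
    simp only [coeff_derivative, coeff_zero] at h4
    have h5 : N - 1 + 1 = N := by omega
    rw [h5] at h4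
    have h6 : f.coeff N = 1 := by
      rw [← hfd]
      exact hf.coeff_natDegree
    have h7 : ((N - 1 : ℕ) : L) + 1 = (N : L) := by
      rw [← Nat.cast_one (R := L), ← Nat.cast_add, h5]
    rw [h6, h7, one_mul] at h4
    exact hN h4
  -- the finite bad set
  have hfin : ((algebraMap L (AlgebraicClosure L)) ⁻¹'
      ((fun x => aeval x f / aeval x g) '' (((derivative f * g - f * derivative g).aroots
        (AlgebraicClosure L)).toFinset : Set (AlgebraicClosure L))) ∪
      ((fun x => f.eval x / g.eval x) '' (d.roots.toFinset : Set L)) ∪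
        (d.roots.toFinset : Set L)).Finite := by
    refine Set.Finite.union (Set.Finite.union ?_ ?_) ?_
    · exact Set.Finite.preimage (fun _ _ _ _ h => (algebraMap L (AlgebraicClosure L)).injective h)
        (Set.Finite.image _ (Finset.finite_toSet _))
    · exact Set.Finite.image _ (Finset.finite_toSet _)
    · exact Finset.finite_toSet _
  have hinf := Tor_inf L
  obtain ⟨x₀, -, hx₀⟩ := (Set.infinite_univ (α := L)).exists_notMem_finite hfin
  rw [Set.mem_union, Set.mem_union, not_or, not_or] at hx₀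
  obtain ⟨⟨hb1, hb2⟩, hb3⟩ := hx₀
  refine ⟨x₀, ?_, ?_, ?_⟩
  · rw [separable_def, isCoprime_iff_aeval_ne_zero_of_isAlgClosed L (AlgebraicClosure L)]
    intro a
    by_contra hcon
    rw [not_or, not_not, not_not] at hcon
    obtain ⟨h1, h2⟩ := hcon
    rw [map_sub, map_mul, aeval_C] at h1
    rw [derivative_sub, derivative_mul, derivative_C, zero_mul, zero_add, map_sub, map_mul,
      aeval_C] at h2
    have hga : aeval a g ≠ 0 := by
      intro h0
      have h3 : aeval a f = 0 := by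
        rw [h0, mul_zero, sub_zero] at h1
        exact h1
      obtain h4 | h4 := aeval_ne_zero_of_isCoprime hco a
      · exact h4 h3
      · exact h4 h0
    apply hb1
    refine ⟨a, ?_, ?_⟩
    · rw [Finset.mem_coe, Multiset.mem_toFinset, mem_aroots]
      refine ⟨hD, ?_⟩
      rw [map_sub, map_mul, map_mul]
      linear_combination (aeval a g) * h2 - (aeval a (derivative g)) * h1
    · change aeval a f / aeval a g = algebraMap L (AlgebraicClosure L) x₀
      rw [div_eq_iff hga]
      linear_combination h1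
  · intro x hx h0
    rw [eval_sub, eval_mul, eval_C] at hx
    have hgx : g.eval x ≠ 0 := by
      intro h1
      have h3 : f.eval x = 0 := by
        rw [h1, mul_zero, sub_zero] at hx
        exact hx
      obtain h4 | h4 := aeval_ne_zero_of_isCoprime hco x
      · exact h4 (by rw [coe_aeval_eq_eval]; exact h3)
      · exact h4 (by rw [coe_aeval_eq_eval]; exact h1)
    apply hb2
    refine ⟨x, ?_, ?_⟩
    · rw [Finset.mem_coe, Multiset.mem_toFinset, mem_roots hd]
      exact h0
    · change f.eval x / g.eval x = x₀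
      rw [div_eq_iff hgx]
      linear_combination hx
  · intro h0
    apply hb3
    rw [Finset.mem_coe, Multiset.mem_toFinset, mem_roots hd]
    exact h0

theorem tTor (h1 : S_Pts) (h2 : S_Deg) (h3 : S_Gn) (h4 : S_Mul) : S_Tor := by
  intro L _ _ W hW n hn
  obtain ⟨p1, p2', p3, p4, p5, p6, -, -, p9, -, p11, -⟩ := h1 L W hW
  obtain ⟨d1, d2, d3, -⟩ := h2.1 L W n
  have hco := (h3 L W hW n).1
  have hn0 : n ≠ 0 := by
    rintro rfl
    exact hn Nat.cast_zero
  have hN : ((n ^ 2 : ℕ) : L) ≠ 0 := by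
    rw [Nat.cast_pow]
    exact pow_ne_zero 2 hn
  obtain ⟨x₀, hsep, hroot, hx₀⟩ := Tor_good L (mf W n) (mg W n) (Tor_d W) (n ^ 2) hN d1 d2 hco
    (Tor_d_ne W hW)
  obtain ⟨H, hH⟩ : ∃ H : L[X], H = mf W n - C x₀ * mg W n := ⟨_, rfl⟩
  rw [← hH] at hsep hroot
  have hHe : ∀ x, H.eval x = (mf W n).eval x - x₀ * (mg W n).eval x := by
    intro x
    rw [hH, eval_sub, eval_mul, eval_C]
  have hHd : H.natDegree = n ^ 2 := by
    rw [hH, ← d2]
    apply natDegree_eq_of_degree_eq
    apply degree_sub_eq_left_of_degree_lt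
    rw [← smul_eq_C_mul]
    exact (degree_smul_le _ _).trans_lt d3
  have hH0 : H ≠ 0 := hsep.ne_zero
  obtain ⟨Z, hZ⟩ : ∃ Z : Finset L, Z = H.roots.toFinset := ⟨_, rfl⟩
  have hZc : Z.card = n ^ 2 := by
    rw [hZ, Multiset.toFinset_card_of_nodup (nodup_roots hsep),
      ← (IsSepClosed.splits_of_separable _ hsep).natDegree_eq_card_roots, hHd]
  have hZr : ∀ x, x ∈ Z ↔ H.eval x = 0 := by
    intro x
    rw [hZ, Multiset.mem_toFinset, mem_roots hH0, IsRoot.def]
  -- the point `Q`
  obtain ⟨y₀, hy₀⟩ := Tor_pt W x₀ hx₀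
  obtain ⟨Q, hQ⟩ := p3 x₀ y₀ hy₀
  have hQQ : Q + Q ≠ 0 := by
    intro h0
    have h5 := p11 Q x₀ y₀ hQ
    rw [(p9 Q x₀ y₀ hQ).1 h0] at h5
    rw [Tor_eval] at hx₀
    exact hx₀ (by rw [← h5]; ring)
  have hQ0 : Q ≠ 0 := (p2' Q x₀ y₀ hQ).1
  -- the points above the roots of `H`
  have hpt : ∀ x ∈ Z, ∃ P : W.toAffine.Point, px P = x ∧ n • P = Q := by
    intro x hx
    have hx' := (hZr x).1 hx
    obtain ⟨y, hy⟩ := Tor_pt W x (hroot x hx')
    obtain ⟨P, hP⟩ := p3 x y hy
    obtain ⟨-, m2, m3⟩ := h4 L W hW P x y hP n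
    rw [hHe] at hx'
    have hgx : (mg W n).eval x ≠ 0 := by
      intro h5
      have h6 : (mf W n).eval x = 0 := by
        rw [h5, mul_zero, sub_zero] at hx'
        exact hx'
      obtain h7 | h7 := aeval_ne_zero_of_isCoprime hco x
      · exact h7 (by rw [coe_aeval_eq_eval]; exact h6)
      · exact h7 (by rw [coe_aeval_eq_eval]; exact h5)
    obtain h5 | ⟨x', y', hxy⟩ := p1 (n • P)
    · exact absurd (m2.1 h5) hgx
    · have h6 := m3 x' y' hxy
      have h7 : x' = x₀ := by
        apply mul_right_cancel₀ hgx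
        rw [h6]
        linear_combination hx'
      rw [h7] at hxy
      obtain h8 | h8 := p6 Q (n • P) x₀ y₀ y' hQ hxy
      · exact ⟨P, (p2' P x y hP).2.1, h8⟩
      · refine ⟨-P, (p2' (-P) _ _ (p5 P x y hP)).2.1, ?_⟩
        rw [smul_neg, h8, neg_neg]
  choose! φ hφx hφn using hpt
  -- the fibre over `Q`
  have hfib : ∀ P : W.toAffine.Point, n • P = Q → px P ∈ Z ∧ φ (px P) = P := by
    intro P hP
    have hP0 : P ≠ 0 := by
      rintro rfl
      exact hQ0 (by rw [← hP, nsmul_zero])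
    obtain h5 | ⟨x, y, hxy⟩ := p1 P
    · exact absurd h5 hP0
    have hpx := (p2' P x y hxy).2.1
    rw [hpx]
    have hxZ : x ∈ Z := by
      rw [hZr, hHe]
      have h6 := (h4 L W hW P x y hxy n).2.2 x₀ y₀ (by rw [hP]; exact hQ)
      linear_combination -h6
    refine ⟨hxZ, ?_⟩
    have h6 := hφx x hxZ
    have h7 := hφn x hxZ
    have h8 : φ x ≠ 0 := by
      intro h8
      rw [h8, nsmul_zero] at h7
      exact hQ0 h7.symm
    obtain h9 | ⟨x', y', hxy'⟩ := p1 (φ x)
    · exact absurd h9 h8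
    rw [(p2' _ x' y' hxy').2.1] at h6
    subst h6
    obtain h10 | h10 := p6 P (φ x') x' y y' hxy hxy'
    · exact h10
    · exfalso
      rw [h10, smul_neg, hP] at h7
      apply hQQ
      nth_rewrite 1 [← h7]
      exact neg_add_cancel Q
  obtain ⟨x₁, hx₁⟩ : Z.Nonempty := by
    rw [← Finset.card_pos, hZc]
    exact Nat.pow_pos (Nat.pos_of_ne_zero hn0)
  have hP₁ := hφn x₁ hx₁
  -- the bijections
  let e : {P : W.toAffine.Point // n • P = 0} ≃ Z :=
    { toFun := fun P => ⟨px (P.1 + φ x₁), (hfib _ (by rw [nsmul_add, P.2, zero_add, hP₁])).1⟩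
      invFun := fun x => ⟨φ x - φ x₁, by rw [nsmul_sub, hφn x x.2, hP₁, sub_self]⟩
      left_inv := fun P => by
        apply Subtype.ext
        change φ (px (P.1 + φ x₁)) - φ x₁ = P.1
        rw [(hfib _ (by rw [nsmul_add, P.2, zero_add, hP₁])).2, add_sub_cancel_right]
      right_inv := fun x => by
        apply Subtype.ext
        change px ((φ x - φ x₁) + φ x₁) = x
        rw [sub_add_cancel, hφx x x.2] }
  rw [Nat.card_congr e, Nat.card_eq_fintype_card, Fintype.card_coe, hZc]

end MP7Sh
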