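import Pool.Agent.Lib.MP_7f581e_Sh.SpecG

/-!
# MP_7f581e_nt, GA realizations of `PSL(2, l)`: a unipotent element
-/

set_option autoImplicit false

namespace MP7Sh

open Polynomial WeierstrassCurve

open scoped Classical

private theorem map_Ec {κ F : Type} [Field κ] [Field F] [Algebra κ F] (N : ℕ) (T : F)
    (σ : F ≃ₐ[κ] F) (hσ : σ T = T) : (Ec N T).map (σ : F →+* F) = Ec N T := by
  unfold Ec
  split_ifs
  · ext <;> simp [WeierstrassCurve.map, hσ]
  · ext <;> simp [WeierstrassCurve.map, hσ]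

private theorem ne_cst {κ F : Type} [Field κ] [Field F] [Algebra κ F] {T : F}
    (hT : Transcendental κ T) (c : κ) : T ≠ algebraMap κ F c := by
  intro h
  exact hT (h ▸ isAlgebraic_algebraMap c)

private theorem disc_Ec {κ F : Type} [Field κ] [Field F] [Algebra κ F] {l N : ℕ} {T : F}
    (hN : Nm l N κ) (hT : Transcendental κ T) : (Ec N T).Δ ≠ 0 := by
  have h0 : T ≠ 0 := by
    have := ne_cst hT (0 : κ)
    rwa [map_zero] at this
  rcases hN.nn with rfl | rfl
  · have h2 : (2 : κ) ≠ 0 := by simpa using hN.nk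
    have h2' : (2 : F) ≠ 0 := by
      have := (map_ne_zero (algebraMap κ F)).mpr h2
      rwa [map_ofNat] at this
    have h4 : (1 : F) - 4 * T ≠ 0 := by
      intro h
      have h5 : T = algebraMap κ F (4⁻¹) := by
        rw [map_inv₀, map_ofNat]
        have h6 : (4 : F) * T = 1 := by linear_combination -h
        exact eq_inv_of_mul_eq_one_right h6
      exact ne_cst hT _ h5
    have h3 : (Ec 2 T).Δ = 2 ^ 4 * T ^ 2 * (1 - 4 * T) := by
      simp only [Ec, if_true, WeierstrassCurve.Δ, WeierstrassCurve.b₂, WeierstrassCurve.b₄,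
        WeierstrassCurve.b₆, WeierstrassCurve.b₈]
      ring
    rw [h3]
    exact mul_ne_zero (mul_ne_zero (pow_ne_zero _ h2') (pow_ne_zero _ h0)) h4
  · have h4 : (1 : F) - 27 * T ≠ 0 := by
      intro h
      have h5 : T = algebraMap κ F (27⁻¹) := by
        rw [map_inv₀, map_ofNat]
        have h6 : (27 : F) * T = 1 := by linear_combination -h
        exact eq_inv_of_mul_eq_one_right h6
      exact ne_cst hT _ h5
    have h3 : (Ec 3 T).Δ = T ^ 3 * (1 - 27 * T) := by
      simp only [Ec, show (3 : ℕ) ≠ 2 by norm_num, if_false, WeierstrassCurve.Δ,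
        WeierstrassCurve.b₂, WeierstrassCurve.b₄, WeierstrassCurve.b₆, WeierstrassCurve.b₈]
      ring
    rw [h3]
    exact mul_ne_zero (pow_ne_zero _ h0) h4

theorem tUnx (h1 : S_Plx) (h2 : S_Lin) (h3 : S_LcG) (h4 : S_LcM) (h5 : S_Prd) : S_Unx := by
  intro l N hl κ F _ _ _ _ T ρ e hN hG hρ
  have hΔ := disc_Ec hN hG.tra
  have : Finite (Tl l (Ec N T)) := Finite.of_equiv _ e.symm.toEquiv
  have : Fintype (Tl l (Ec N T)) := Fintype.ofFinite _
  obtain ⟨r, hr⟩ := (h2 l F (Ec N T) hΔ e).2.2.2 κ T (fun σ hσ => map_Ec N T σ hσ)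
  by_contra hcon
  push Not at hcon
  have hex : ∀ b : κ, ∃ v : F → ℤ, Plc κ T (T - algebraMap κ F b) v ∧
      ∀ (P : Tl l (Ec N T)) (x y : F), At (P : (Ec N T).toAffine.Point) x y →
        Is v 0 (p2 (Ec N T) x y) := by
    intro b
    obtain ⟨v, hv⟩ := (h1 κ F T hG).1 b
    refine ⟨v, hv, ?_⟩
    have hL : Loc l N κ T e v := by
      by_cases hb : b = 0 ∨ b = c0 N κ
      · exact h4 l N κ F T b v e hN hG hv hb
      · push Not at hb
        exact h3 l N κ F T b v e hN hG hv hb.1 hb.2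
    rcases hL.c with h | ⟨σ, hσT, hσv, hM⟩
    · exact h
    · exfalso
      have h6 := hr ⟨σ, hσT⟩
      exact hcon σ _ hσT h6 (hM _ h6) (hL.a σ hσT hσv _ h6)
  refine h5 l N κ F T ρ e hN hG hρ (Finset.univ.erase 0) ?_ (Finset.notMem_erase _ _) ?_ ?_
  · refine ⟨e.symm (fun _ => 1), Finset.mem_erase.2 ⟨?_, Finset.mem_univ _⟩⟩
    intro h0
    have h6 : (fun _ : Fin 2 => (1 : ZMod l)) = 0 := by
      have := congrArg e h0
      rwa [AddEquiv.apply_symm_apply, map_zero] at this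
    have h7 := congrFun h6 0
    exact one_ne_zero h7
  · intro σ hσ P hP
    have h6 := hr ⟨σ, hσ⟩ P
    refine ⟨e.symm ((r ⟨σ, hσ⟩).1.mulVec (e P)), Finset.mem_erase.2 ⟨?_, Finset.mem_univ _⟩, h6⟩
    intro h0
    have h7 : (r ⟨σ, hσ⟩).1.mulVec (e P) = 0 := by
      have := congrArg e h0
      rwa [AddEquiv.apply_symm_apply, map_zero] at this
    have h8 : e P = 0 := by
      have h9 : ((r ⟨σ, hσ⟩)⁻¹).1.mulVec ((r ⟨σ, hσ⟩).1.mulVec (e P)) = e P := by
        rw [Matrix.mulVec_mulVec, ← Units.val_mul, inv_mul_cancel, Units.val_one,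
          Matrix.one_mulVec]
      rw [← h9, h7, Matrix.mulVec_zero]
    have h9 : P = 0 := by
      have := congrArg e.symm h8
      rwa [AddEquiv.symm_apply_apply, map_zero] at this
    exact (Finset.mem_erase.1 hP).1 h9
  · intro b
    obtain ⟨v, hv, hv'⟩ := hex b
    exact ⟨v, hv, fun P _ x y hxy => hv' P x y hxy⟩

end MP7Sh
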