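import Pool.Agent.Lib.MP_7f581e_Sh.Pts
import Pool.Agent.Lib.MP_7f581e_Sh.Pm
import Pool.Agent.Lib.MP_7f581e_Sh.Cv
import Pool.Agent.Lib.MP_7f581e_Sh.AS
import Pool.Agent.Lib.MP_7f581e_Sh.Deg
import Pool.Agent.Lib.MP_7f581e_Sh.Prm
import Pool.Agent.Lib.MP_7f581e_Sh.Gn
import Pool.Agent.Lib.MP_7f581e_Sh.Mul
import Pool.Agent.Lib.MP_7f581e_Sh.Tor
import Pool.Agent.Lib.MP_7f581e_Sh.Bs
import Pool.Agent.Lib.MP_7f581e_Sh.Int
import Pool.Agent.Lib.MP_7f581e_Sh.Ns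
import Pool.Agent.Lib.MP_7f581e_Sh.Red
import Pool.Agent.Lib.MP_7f581e_Sh.Gnb
import Pool.Agent.Lib.MP_7f581e_Sh.Scl
import Pool.Agent.Lib.MP_7f581e_Sh.PsW
import Pool.Agent.Lib.MP_7f581e_Sh.PsM
import Pool.Agent.Lib.MP_7f581e_Sh.Ad2
import Pool.Agent.Lib.MP_7f581e_Sh.Ad3
import Pool.Agent.Lib.MP_7f581e_Sh.PsA
import Pool.Agent.Lib.MP_7f581e_Sh.Co2
import Pool.Agent.Lib.MP_7f581e_Sh.Co3
import Pool.Agent.Lib.MP_7f581e_Sh.Iso
import Pool.Agent.Lib.MP_7f581e_Sh.Pla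
import Pool.Agent.Lib.MP_7f581e_Sh.Plx
import Pool.Agent.Lib.MP_7f581e_Sh.Plq
import Pool.Agent.Lib.MP_7f581e_Sh.Cst
import Pool.Agent.Lib.MP_7f581e_Sh.Sco
import Pool.Agent.Lib.MP_7f581e_Sh.Sce
import Pool.Agent.Lib.MP_7f581e_Sh.Brg
import Pool.Agent.Lib.MP_7f581e_Sh.Omg
import Pool.Agent.Lib.MP_7f581e_Sh.Fxf
import Pool.Agent.Lib.MP_7f581e_Sh.Cmp
import Pool.Agent.Lib.MP_7f581e_Sh.Cml
import Pool.Agent.Lib.MP_7f581e_Sh.Cms
import Pool.Agent.Lib.MP_7f581e_Sh.Tan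
import Pool.Agent.Lib.MP_7f581e_Sh.Mdl
import Pool.Agent.Lib.MP_7f581e_Sh.Mdi
import Pool.Agent.Lib.MP_7f581e_Sh.Lin
import Pool.Agent.Lib.MP_7f581e_Sh.LcG
import Pool.Agent.Lib.MP_7f581e_Sh.LcM
import Pool.Agent.Lib.MP_7f581e_Sh.Inf
import Pool.Agent.Lib.MP_7f581e_Sh.Prd
import Pool.Agent.Lib.MP_7f581e_Sh.Unx
import Pool.Agent.Lib.MP_7f581e_Sh.Irr
import Pool.Agent.Lib.MP_7f581e_Sh.GrA
import Pool.Agent.Lib.MP_7f581e_Sh.Dsq
import Pool.Agent.Lib.MP_7f581e_Sh.Brs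
import Pool.Agent.Lib.MP_7f581e_Sh.CH
import Pool.Agent.Lib.MP_7f581e_Sh.Gsq
import Pool.Agent.Lib.MP_7f581e_Sh.Br2
import Pool.Agent.Lib.MP_7f581e_Sh.Br3
import Pool.Agent.Lib.MP_7f581e_Sh.Gom
import Pool.Agent.Lib.MP_7f581e_Sh.Rep
import Pool.Agent.Lib.MP_7f581e_Sh.Pgl
import Pool.Agent.Lib.MP_7f581e_Sh.Gam
import Pool.Agent.Lib.MP_7f581e_Sh.Ari
import Pool.Agent.Lib.MP_7f581e_Sh.Aut
import Pool.Agent.Lib.MP_7f581e_Sh.Asm
import Pool.Agent.Lib.MP_7f581e_Sh.FinP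

set_option autoImplicit false

namespace MP7Sh

theorem aPts : S_Pts := tPts

theorem aPm : S_Pm := tPm aPts

theorem aCv : S_Cv := tCv aPts

theorem aAS : S_AS := tAS aPts

theorem aDeg : S_Deg := tDeg

theorem aPrm : S_Prm := tPrm

theorem aGn : S_Gn := tGn aPts aPm aAS aDeg aPrm

theorem aMul : S_Mul := tMul aPts aAS aDeg aGn

theorem aTor : S_Tor := tTor aPts aDeg aGn aMul

theorem aBs : S_Bs := tBs

theorem aInt : S_Int := tInt aPts aDeg aMul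

theorem aNs : S_Ns := tNs aPts aInt

theorem aRed : S_Red := tRed aPts aInt aNs

theorem aGnb : S_Gnb := tGnb aPts aDeg aGn aMul aInt aRed

theorem aScl : S_Scl := tScl aDeg aGn

theorem aPsW : S_PsW := tPsW aPts

theorem aPsM : S_PsM := tPsM aPts aPm aPsW

theorem aAd2 : S_Ad2 := tAd2 aPts aPsW

theorem aAd3 : S_Ad3 := tAd3 aPts aPsW

theorem aPsA : S_PsA := tPsA aPts aPm aPsW aPsM

theorem aCo2 : S_Co2 := tCo2 aPts aPsW

theorem aCo3 : S_Co3 := tCo3 aPts aPsW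

theorem aIso : S_Iso := tIso aPsW aPsM aAd2 aAd3 aPsA aCo2 aCo3 aPts

theorem aPla : S_Pla := tPla

theorem aPlx : S_Plx := tPlx aPla

theorem aPlq : S_Plq := tPlq

theorem aCst : S_Cst := tCst

theorem aSco : S_Sco := tSco

theorem aSce : S_Sce := tSce

theorem aBrg : S_Brg := tBrg

theorem aOmg : S_Omg := tOmg

theorem aFxf : S_Fxf := tFxf

theorem aCmp : S_Cmp := tCmp aPts aAS

theorem aCml : S_Cml := tCml aPts aInt aCmp

theorem aCms : S_Cms := tCms aPts aCmp aCml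

theorem aTan : S_Tan := tTan aPts aPm aAS aInt aRed aCmp aCml

theorem aMdl : S_Mdl := tMdl

theorem aMdi : S_Mdi := tMdi

theorem aLin : S_Lin := tLin aPm

theorem aLcG : S_LcG := tLcG aPts aPm aInt aNs aRed aMdl aLin

theorem aLcM : S_LcM := tLcM aPts aPm aCv aNs aCml aCms aTan aMdl aLin aPlq

theorem aInf : S_Inf := tInf aPts aPm aCv aInt aNs aRed aMdi aLin

theorem aPrd : S_Prd := tPrd aPts aPm aCst aInf aPlx

theorem aUnx : S_Unx := tUnx aPlx aLin aLcG aLcM aPrd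

theorem aIrr : S_Irr := tIrr aPm aPlx aLcG aLcM aPrd

theorem aGrA : S_GrA := tGrA

theorem aDsq : S_Dsq := tDsq aPlx aLin aLcG aLcM aInf aSco aSce

theorem aBrs : S_Brs := tBrs aPlx

theorem aCH : S_CH := tCH

theorem aGsq : S_Gsq := tGsq aPm aIso aLin aCH

theorem aBr2 : S_Br2 := tBr2 aPts aPm aInt aNs aRed aGnb aScl aBrs aGsq

theorem aBr3 : S_Br3 := tBr3 aPts aPm aCv aInt aRed aGnb aScl aBrs aGsq

theorem aGom : S_Gom := tGom aPts aPm aLin aBrg aUnx aIrr aGrA aDsq aBr2 aBr3 aPsW aIso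

theorem aRep : S_Rep := tRep aPm aPsW aIso aLin

theorem aPgl : S_Pgl := tPgl

theorem aGam : S_Gam := tGam

theorem aAri : S_Ari := tAri aPm aRep aPgl aGam

theorem aAut : S_Aut := tAut aPgl

theorem aAsm : S_Asm := tAsm aAut

theorem aFinP : S_FinP := tFinP aTor aBs aOmg aFxf aGom aAri aAsm

end MP7Sh
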