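import Pool.Agent.Lib.MP_7f581e_Sh.SpecG

set_option autoImplicit false

namespace MP7Sh

open Polynomial WeierstrassCurve

open scoped Classical

/-- An automorphism which fixes `s = T ^ 2 - c T` fixes or exchanges `T`, `c - T`. -/
private theorem brs_or {κ F : Type} [Field κ] [Field F] [Algebra κ F] (T c : F) (σ : F ≃ₐ[κ] F)
    (hc : σ c = c) (hs : σ (T ^ 2 - c * T) = T ^ 2 - c * T) : σ T = T ∨ σ T = c - T := by
  rw [map_sub, map_pow, map_mul, hc] at hs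
  have h : (σ T - T) * (σ T - (c - T)) = 0 := by linear_combination hs
  rcases mul_eq_zero.1 h with h | h
  · exact Or.inl (sub_eq_zero.1 h)
  · exact Or.inr (sub_eq_zero.1 h)

private theorem brs_cst {κ F : Type} [Field κ] [Field F] [Algebra κ F] (N : ℕ) :
    algebraMap κ F (c0 N κ) = c0 N F := by
  unfold c0
  split_ifs
  · rw [map_inv₀, map_ofNat]
  · rw [map_inv₀, map_ofNat]

/-- Existence of an exchanging automorphism in the decomposition group. -/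
private theorem brs_ex {κ F : Type} [Field κ] [Field F] [Algebra κ F] {T c π z : F} {v : F → ℤ}
    (hv : Plc κ (T ^ 2 - c * T) π v) (hc : ∀ σ : F ≃ₐ[κ] F, σ c = c) (hz : z ≠ 0)
    (hfix : ∀ σ : F ≃ₐ[κ] F, σ T = T → σ z = z) (hnd : ¬ v π ∣ v z) :
    ∃ σ : F ≃ₐ[κ] F, Dv v σ ∧ σ T = c - T := by
  by_contra hcon
  push Not at hcon
  apply hnd
  refine hv.dec z hz fun σ hσ hD => ?_
  rcases brs_or T c σ (hc σ) hσ with h | h
  · exact hfix σ h
  · exact absurd h (hcon σ hD)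

private theorem brs2 (h1 : S_Plx) (l : ℕ) (κ F : Type) [Field κ] [IsAlgClosed κ] [Field F]
    [Algebra κ F] (T : F) (hN : Nm l 2 κ) (hG : Gx κ (T ^ 2 - c0 2 F * T)) :
    ∃ (v : F → ℤ) (σ : F ≃ₐ[κ] F), Kr κ v ∧ Dv v σ ∧ σ T = c0 2 F - T ∧ Ge v 1 (T - 8⁻¹) := by
  have h2κ : (2 : κ) ≠ 0 := by
    have := hN.nk
    exact_mod_cast this
  have h2 : (2 : F) ≠ 0 := by
    have h := (map_ne_zero (algebraMap κ F)).2 h2κ
    rwa [map_ofNat] at h
  have hc0 : c0 2 F = 4⁻¹ := by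
    unfold c0
    rw [if_pos rfl]
  obtain ⟨v, hv⟩ := (h1 κ F _ hG).1 (-(64 : κ)⁻¹)
  have h4 : (4 : F) ≠ 0 := by
    have : (4 : F) = 2 ^ 2 := by norm_num
    rw [this]
    exact pow_ne_zero _ h2
  have h8 : (8 : F) ≠ 0 := by
    have : (8 : F) = 2 ^ 3 := by norm_num
    rw [this]
    exact pow_ne_zero _ h2
  have h64 : (64 : F) ≠ 0 := by
    have : (64 : F) = 2 ^ 6 := by norm_num
    rw [this]
    exact pow_ne_zero _ h2
  have hπ : T ^ 2 - c0 2 F * T - algebraMap κ F (-(64 : κ)⁻¹) = (T - 8⁻¹) ^ 2 := by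
    rw [hc0, map_neg, map_inv₀, map_ofNat]
    field_simp
    ring
  have hne := hv.ne
  have hpos := hv.pos
  have hz : T - 8⁻¹ ≠ 0 := by
    intro h
    rw [hπ, h] at hne
    exact hne (by ring)
  have hv2 : v (T ^ 2 - c0 2 F * T - algebraMap κ F (-(64 : κ)⁻¹)) = 2 * v (T - 8⁻¹) := by
    rw [hπ, hv.ord.pow hz]
    norm_num
  rw [hv2] at hpos
  obtain ⟨σ, hD, hσ⟩ := brs_ex (z := T - 8⁻¹) hv
    (fun σ => by rw [← brs_cst (κ := κ), AlgEquiv.commutes]) hz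
    (fun σ h => by
      rw [map_sub, h, map_inv₀, map_ofNat])
    (by
      rw [hv2]
      rintro ⟨k, hk⟩
      have h3 : v (T - 8⁻¹) * (2 * k - 1) = 0 := by linear_combination -hk
      rcases mul_eq_zero.1 h3 with h | h <;> omega)
  refine ⟨v, σ, hv.toKr, hD, hσ, Or.inr ?_⟩
  omega

private theorem brs3 (h1 : S_Plx) (l : ℕ) (κ F : Type) [Field κ] [IsAlgClosed κ] [Field F]
    [Algebra κ F] (T : F) (hN : Nm l 3 κ) (hG : Gx κ (T ^ 2 - c0 3 F * T)) (ρ : F)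
    (hρ : ρ ^ 3 * T = 1) :
    ∃ (v : F → ℤ) (σ : F ≃ₐ[κ] F), Kr κ v ∧ Dv v σ ∧ σ T = c0 3 F - T ∧ 0 < v ρ ∧
      Ge v 1 (σ ρ / ρ + 1) := by
  have h3κ : (3 : κ) ≠ 0 := by
    have := hN.nk
    exact_mod_cast this
  have h27κ : (27 : κ) ≠ 0 := by
    have : (27 : κ) = 3 ^ 3 := by norm_num
    rw [this]
    exact pow_ne_zero _ h3κ
  have hcκ : c0 3 κ ≠ 0 := by
    unfold c0
    rw [if_neg (by norm_num)]
    exact inv_ne_zero h27κ
  obtain ⟨v, hv⟩ := (h1 κ F _ hG).2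
  have hO := hv.ord
  set c := c0 3 F with hcdef
  have hcc : c = algebraMap κ F (c0 3 κ) := (brs_cst 3).symm
  have hcis : Is v 0 c := by
    rw [hcc]
    exact hv.toKr.isCst hcκ
  have hT0 : T ≠ 0 := by
    rintro rfl
    rw [mul_zero] at hρ
    exact zero_ne_one hρ
  have hρ0 : ρ ≠ 0 := by
    rintro rfl
    rw [zero_pow (by norm_num), zero_mul] at hρ
    exact zero_ne_one hρ
  have hs0 : T ^ 2 - c * T ≠ 0 := by
    intro h
    apply hv.ne
    rw [h, inv_zero]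
  have hvs : v (T ^ 2 - c * T) < 0 := by
    have h := hv.pos
    rw [hO.inv hs0] at h
    omega
  have hvT : v T < 0 := by
    by_contra hcon
    have hT : Ge v 0 T := Or.inr (by omega)
    have h : Ge v 0 (T ^ 2 - c * T) := (hT.pow0 hO 2).sub hO (hcis.ge.mul_left hO hT)
    have h' := h.resolve_left hs0
    omega
  have hTis : Is v (v T) T := Is.of_ne hT0
  have hTc : Is v (v T) (T - c) := hTis.sub_ge hO hcis.ge hvT
  have hs2 : v (T ^ 2 - c * T) = 2 * v T := by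
    have e : T ^ 2 - c * T = T * (T - c) := by ring
    rw [e, hO.mul _ _ hT0 hTc.1, hTc.2]
    ring
  have hfixc : ∀ σ : F ≃ₐ[κ] F, σ c = c := fun σ => by rw [hcc, AlgEquiv.commutes]
  obtain ⟨σ₁, hD, hσ₁⟩ := brs_ex (z := T) hv hfixc hT0 (fun σ h => h) (by
    rw [hO.inv hs0, hs2]
    rintro ⟨k, hk⟩
    have h3 : v T * (1 + 2 * k) = 0 := by linear_combination hk
    rcases mul_eq_zero.1 h3 with h | h <;> omega)
  have hvρ : 0 < v ρ := by
    have h := hO.mul (ρ ^ 3) T (pow_ne_zero 3 hρ0) hT0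
    rw [hρ, hO.one, hO.pow hρ0] at h
    push_cast at h
    omega
  -- the quotient `h`
  have hcT : Is v (v T) (c - T) := by
    have := hTc.neg hO
    rwa [neg_sub] at this
  have hσρ0 : σ₁ ρ ≠ 0 := (map_ne_zero σ₁).2 hρ0
  set h := σ₁ ρ / ρ with hh
  have hmulρ : σ₁ ρ = h * ρ := by
    rw [hh, div_mul_cancel₀ _ hρ0]
  have hh0 : h ≠ 0 := div_ne_zero hσρ0 hρ0
  have hvh : v h = 0 := by
    rw [hh, hO.div hσρ0 hρ0, hD ρ hρ0, sub_self]
  have hσ1 : (σ₁ ρ) ^ 3 * (c - T) = 1 := by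
    rw [← hσ₁, ← map_pow, ← map_mul, hρ, map_one]
  have hh3 : h ^ 3 + 1 = c * (c - T)⁻¹ := by
    have e1 : h ^ 3 * (c - T) = T := by
      have h3 : h ^ 3 * ρ ^ 3 * (c - T) = 1 := by rw [← mul_pow, ← hmulρ, hσ1]
      have h4 : (h ^ 3 * (c - T)) * ρ ^ 3 = T * ρ ^ 3 := by
        linear_combination h3 - hρ
      exact mul_right_cancel₀ (pow_ne_zero 3 hρ0) h4
    rw [eq_mul_inv_iff_mul_eq₀ hcT.1]
    linear_combination e1
  have hg3 : Ge v 1 (h ^ 3 + 1) := by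
    rw [hh3]
    have e := hcis.mul hO (hcT.inv hO)
    have e' := e.ge
    exact e'.mono (by omega)
  obtain ⟨ζ, hζ⟩ := hv.res h (Or.inr (by rw [hvh]))
  have hgh : Ge v 0 h := Or.inr (by rw [hvh])
  have hgζ : Ge v 0 (algebraMap κ F ζ) := hv.toKr.geCst ζ
  -- products of elements congruent to `ζ`
  have hprod : ∀ a b d : F, Ge v 1 (a - algebraMap κ F ζ) → Ge v 1 (b - algebraMap κ F ζ) →
      Ge v 1 (d - algebraMap κ F ζ) → Ge v 0 a → Ge v 0 b →
      Ge v 1 (a * b * d - algebraMap κ F ζ ^ 3) := by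
    intro a b d ha hb hd ha0 hb0
    have e : a * b * d - algebraMap κ F ζ ^ 3 = (a * b) * (d - algebraMap κ F ζ) +
        (a * algebraMap κ F ζ) * (b - algebraMap κ F ζ) +
        (algebraMap κ F ζ ^ 2) * (a - algebraMap κ F ζ) := by ring
    rw [e]
    exact (((ha0.mul_left hO hb0).mul_left hO hd).add hO
      ((ha0.mul_left hO hgζ).mul_left hO hb)).add hO ((hgζ.pow0 hO 2).mul_left hO ha)
  have hζ3 : ζ ^ 3 = -1 := by
    have e1 : Ge v 1 (h ^ 3 - algebraMap κ F (ζ ^ 3)) := by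
      have e := hprod h h h hζ hζ hζ hgh hgh
      have e2 : h * h * h = h ^ 3 := by ring
      rw [e2] at e
      rw [map_pow]
      exact e
    have e2 : Ge v 1 (h ^ 3 - algebraMap κ F (-1)) := by
      rw [map_neg, map_one, sub_neg_eq_add]
      exact hg3
    exact hv.toKr.uniq e1 e2
  have hDge : ∀ z : F, ∀ n : ℤ, Ge v n z → Ge v n (σ₁ z) := by
    intro z n hz
    rcases hz with rfl | hz
    · rw [map_zero]
      exact Ge.zero
    · by_cases hz0 : z = 0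
      · rw [hz0, map_zero]
        exact Ge.zero
      · right
        rwa [hD z hz0]
  have hs1 : Ge v 1 (σ₁ h - algebraMap κ F ζ) := by
    have e := hDge _ _ hζ
    rwa [map_sub, AlgEquiv.commutes] at e
  have hs2' : Ge v 1 (σ₁ (σ₁ h) - algebraMap κ F ζ) := by
    have e := hDge _ _ hs1
    rwa [map_sub, AlgEquiv.commutes] at e
  refine ⟨v, σ₁ * σ₁ * σ₁, hv.toKr, ?_, ?_, hvρ, ?_⟩
  · intro y hy
    rw [AlgEquiv.mul_apply, AlgEquiv.mul_apply, hD _ ((map_ne_zero σ₁).2 ((map_ne_zero σ₁).2 hy)),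
      hD _ ((map_ne_zero σ₁).2 hy), hD y hy]
  · rw [AlgEquiv.mul_apply, AlgEquiv.mul_apply, hσ₁, map_sub, hfixc, hσ₁, sub_sub_cancel, hσ₁]
  · have e : (σ₁ * σ₁ * σ₁) ρ / ρ = h * σ₁ h * σ₁ (σ₁ h) := by
      rw [AlgEquiv.mul_apply, AlgEquiv.mul_apply, hmulρ, map_mul, hmulρ, map_mul, map_mul, hmulρ]
      field_simp
    rw [e]
    have e2 := hprod h (σ₁ h) (σ₁ (σ₁ h)) hζ hs1 hs2' hgh (hDge _ _ hgh)
    rw [← map_pow, hζ3, map_neg, map_one, sub_neg_eq_add] at e2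
    exact e2

theorem tBrs (h1 : S_Plx) : S_Brs := fun l κ F _ _ _ _ T =>
  ⟨fun hN hG => brs2 h1 l κ F T hN hG, fun hN hG ρ hρ => brs3 h1 l κ F T hN hG ρ hρ⟩

end MP7Sh
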