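import Mathlib

/-!
# MP_7f581e_nt, GA realizations of `PSL(2, l)` over `𝔽_p(X)`: definitions

Two families of elliptic curves: `N = 2`: `y ^ 2 = x ^ 3 + x ^ 2 + t x` (characteristic not `2`), and
`N = 3`: `y ^ 2 + x y + t y = x ^ 3` (characteristic not `3`).  There is an isogeny of degree `N`, defined
over the field obtained by adjoining `√-N`, from the curve with parameter `t` to the curve with
parameter `c - t`, `c = 1 / 4` resp. `1 / 27`.
-/

set_option autoImplicit false

namespace MP7Sh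

open Polynomial WeierstrassCurve

open scoped Classical

section points

variable {L : Type} [Field L]

/-- `P = (x, y)`. -/
def At {W : WeierstrassCurve L} (P : W.toAffine.Point) (x y : L) : Prop :=
  ∃ h : W.toAffine.Nonsingular x y, P = .some x y h

/-- The `x`-coordinate (`0` for the point at infinity). -/
def px {W : WeierstrassCurve L} : W.toAffine.Point → L
  | .zero => 0
  | .some x _ _ => x

/-- The `y`-coordinate (`0` for the point at infinity). -/
def py {W : WeierstrassCurve L} : W.toAffine.Point → L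
  | .zero => 0
  | .some _ y _ => y

/-- `(u : w)` are homogeneous coordinates of the abscissa of `P` (`(1 : 0)` for the point at
infinity). -/
structure Rp {W : WeierstrassCurve L} (P : W.toAffine.Point) (u w : L) : Prop where
  nz : u ≠ 0 ∨ w ≠ 0
  zero : P = 0 → w = 0
  aff : ∀ x y, At P x y → w ≠ 0 ∧ u = x * w

/-- The points `P` with `l P = 0`. -/
noncomputable def Tl (l : ℕ) (W : WeierstrassCurve L) : AddSubgroup W.toAffine.Point :=
  (nsmulAddMonoidHom (α := W.toAffine.Point) l).ker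

/-- The value at `(x, y)` of the second division polynomial. -/
def p2 (W : WeierstrassCurve L) (x y : L) : L := 2 * y + W.a₁ * x + W.a₃

/-- The map of points given by `f` on the coordinates. -/
noncomputable def pm {L M : Type} [Field L] [Field M] (W : WeierstrassCurve L)
    (W' : WeierstrassCurve M) (f : L → M) (P : W.toAffine.Point) : W'.toAffine.Point :=
  if h : P ≠ 0 ∧ W'.toAffine.Nonsingular (f (px P)) (f (py P)) then .some _ _ h.2 else 0

/-- The curve in the coordinates `x' = u ^ 2 (x - r)`, `y' = u ^ 3 (y - s)`. -/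
def tr (W : WeierstrassCurve L) (u r s : L) : WeierstrassCurve L :=
  ⟨u * W.a₁, u ^ 2 * (W.a₂ + 3 * r), u ^ 3 * (W.a₃ + r * W.a₁ + 2 * s),
    u ^ 4 * (W.a₄ - s * W.a₁ + 2 * r * W.a₂ + 3 * r ^ 2),
    u ^ 6 * (W.a₆ + r * W.a₄ + r ^ 2 * W.a₂ + r ^ 3 - s * W.a₃ - s ^ 2 - r * s * W.a₁)⟩

/-- The change of coordinates `x' = u ^ 2 (x - r)`, `y' = u ^ 3 (y - s)`. -/
noncomputable def cv (W : WeierstrassCurve L) (u r s : L) (P : W.toAffine.Point) :
    (tr W u r s).toAffine.Point :=
  if h : P ≠ 0 ∧ (tr W u r s).toAffine.Nonsingular (u ^ 2 * (px P - r)) (u ^ 3 * (py P - s)) then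
    .some _ _ h.2 else 0

end points

section division

variable {R : Type} [CommRing R] (W : WeierstrassCurve R)

/-- First component of the addition-subtraction map at `(X f, f + X g, g)`. -/
noncomputable def A0 (f g : R[X]) : R[X] :=
  (X * f) ^ 2 - C W.b₄ * (X * f) * g - C W.b₆ * (f + X * g) * g - C W.b₈ * g ^ 2

/-- Second component. -/
noncomputable def A1 (f g : R[X]) : R[X] :=
  2 * (f + X * g) * (X * f) + C W.b₂ * (X * f) * g + C W.b₄ * (f + X * g) * g + C W.b₆ * g ^ 2

/-- The polynomials `f_n`, `g_n` with `x(n P) = f_n(x) / g_n(x)`. -/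
noncomputable def mfg : ℕ → R[X] × R[X]
  | 0 => (1, 0)
  | 1 => (X, 1)
  | n + 2 => (A0 W (mfg (n + 1)).1 (mfg (n + 1)).2 /ₘ (mfg n).1,
      (A1 W (mfg (n + 1)).1 (mfg (n + 1)).2 -
        (A0 W (mfg (n + 1)).1 (mfg (n + 1)).2 /ₘ (mfg n).1) * (mfg n).2) /ₘ (mfg n).1)

/-- The numerator `f_n`. -/
noncomputable def mf (n : ℕ) : R[X] := (mfg W n).1

/-- The denominator `g_n`. -/
noncomputable def mg (n : ℕ) : R[X] := (mfg W n).2

end division

section family

variable {L : Type} [Field L]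

/-- The curves `y ^ 2 = x ^ 3 + x ^ 2 + t x` (`N = 2`), `y ^ 2 + x y + t y = x ^ 3` (`N ≠ 2`). -/
def Ec (N : ℕ) (t : L) : WeierstrassCurve L :=
  if N = 2 then ⟨0, 1, 0, t, 0⟩ else ⟨1, 0, t, 0, 0⟩

/-- The constant `c`: `1 / 4` or `1 / 27`. -/
def c0 (N : ℕ) (L : Type) [Field L] : L := if N = 2 then 4⁻¹ else 27⁻¹

/-- The exponent `4` or `3`. -/
def kk (N : ℕ) : ℕ := if N = 2 then 4 else 3

/-- `θ = √-2` or `θ` a primitive third root of unity. -/
def Rt (N : ℕ) (θ : L) : Prop := if N = 2 then θ ^ 2 = -2 else θ ^ 2 + θ + 1 = 0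

/-- The conjugate of `θ`. -/
def cj (N : ℕ) (θ : L) : L := if N = 2 then -θ else -1 - θ

/-- The abscissa of the image of `(x, y)` under the isogeny. -/
noncomputable def psx (N : ℕ) (t x : L) : L :=
  if N = 2 then -(x ^ 2 + x + t) / (2 * x) else -(x ^ 3 + t * x + t ^ 2) / (3 * x ^ 2) - 9⁻¹

/-- The ordinate of the image of `(x, y)` under the isogeny. -/
noncomputable def psy (N : ℕ) (θ t x y : L) : L :=
  if N = 2 then -(y * (x ^ 2 - t)) / (2 * θ * x ^ 2) else
    (y - t ^ 2 * (2 * y + x + t) / x ^ 3 - t * (x + y) / x ^ 2 - t ^ 2 / x ^ 2 +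
      3 * θ * (-(x ^ 3 + t * x + t ^ 2) / (3 * x ^ 2) - 9⁻¹) -
      (9⁻¹ - θ * 9⁻¹ + t + 3 * θ * t)) / (-3 * (1 + 2 * θ))

/-- The isogeny from the curve with parameter `t` to the curve with parameter `t'`
(`t + t' = c`). -/
noncomputable def ps (N : ℕ) (θ t t' : L) (P : (Ec N t).toAffine.Point) :
    (Ec N t').toAffine.Point :=
  if h : P ≠ 0 ∧ px P ≠ 0 ∧
      (Ec N t').toAffine.Nonsingular (psx N t (px P)) (psy N θ t (px P) (py P)) then
    .some _ _ h.2.2 else 0

end family

section matrices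

/-- The map `A` has the matrix `M` on the points of order `l`, in the coordinates `e`. -/
def IsM {L : Type} [Field L] {l : ℕ} {W : WeierstrassCurve L}
    (e : Tl l W ≃+ (Fin 2 → ZMod l)) (A : W.toAffine.Point → W.toAffine.Point)
    (M : Matrix (Fin 2) (Fin 2) (ZMod l)) : Prop :=
  ∀ v : Tl l W, A v = (e.symm (M.mulVec (e v)) : Tl l W)

/-- The projective linear group. -/
abbrev PGL (l : ℕ) [Fact l.Prime] : Type :=
  GL (Fin 2) (ZMod l) ⧸ Subgroup.center (GL (Fin 2) (ZMod l))

/-- The elements of `PSL(2, l)` in `PGL(2, l)`. -/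
def IsP {l : ℕ} [Fact l.Prime] (g : PGL l) : Prop :=
  ∃ M : GL (Fin 2) (ZMod l), (QuotientGroup.mk M : PGL l) = g ∧ IsSquare M.1.det

end matrices

section places

/-- Additive valuation with values in `ℤ` (the value at `0` has no meaning). -/
structure Ord {F : Type} [Field F] (v : F → ℤ) : Prop where
  mul : ∀ x y, x ≠ 0 → y ≠ 0 → v (x * y) = v x + v y
  add : ∀ x y, x ≠ 0 → y ≠ 0 → x + y ≠ 0 → min (v x) (v y) ≤ v (x + y)

/-- `v(x) ≥ n`. -/
def Ge {F : Type} [Field F] (v : F → ℤ) (n : ℤ) (x : F) : Prop := x = 0 ∨ n ≤ v x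

/-- `v(x) = n`. -/
def Is {F : Type} [Field F] (v : F → ℤ) (n : ℤ) (x : F) : Prop := x ≠ 0 ∧ v x = n

variable {κ F : Type} [Field κ] [Field F] [Algebra κ F]

/-- `σ` preserves the valuation. -/
def Dv (v : F → ℤ) (σ : F ≃ₐ[κ] F) : Prop := ∀ y : F, y ≠ 0 → v (σ y) = v y

variable (κ) in
/-- `v` is trivial on the constants, and all the residues are constants. -/
structure Kr (v : F → ℤ) : Prop where
  ord : Ord v
  cst : ∀ c : κ, c ≠ 0 → v (algebraMap κ F c) = 0
  res : ∀ z : F, Ge v 0 z → ∃ c : κ, Ge v 1 (z - algebraMap κ F c)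

variable (κ) in
/-- `F` is a finite Galois extension of `κ(x)`. -/
structure Gx (x : F) : Prop where
  tra : Transcendental κ x
  fin : Finite (MulAction.stabilizer (F ≃ₐ[κ] F) x)
  fix : ∀ y : F, (∀ σ : F ≃ₐ[κ] F, σ x = x → σ y = y) → y ∈ IntermediateField.adjoin κ {x}

variable (κ) in
/-- `v` is a place of `F` above the place of `κ(x)` with the uniformizer `π`; the valuations of the
elements of the decomposition field are multiples of `v(π)`. -/
structure Plc (x π : F) (v : F → ℤ) : Prop extends Kr κ v where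
  ne : π ≠ 0
  pos : 0 < v π
  dec : ∀ z : F, z ≠ 0 → (∀ σ : F ≃ₐ[κ] F, σ x = x → Dv v σ → σ z = z) → v π ∣ v z

end places

section models

variable {F : Type} [Field F]

/-- The coefficients are integral. -/
structure It (v : F → ℤ) (W : WeierstrassCurve F) : Prop where
  a1 : Ge v 0 W.a₁
  a2 : Ge v 0 W.a₂
  a3 : Ge v 0 W.a₃
  a4 : Ge v 0 W.a₄
  a6 : Ge v 0 W.a₆

/-- Multiplicative model; the node is at the origin. -/
structure Mu (v : F → ℤ) (M : ℤ) (W : WeierstrassCurve F) : Prop where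
  pos : 0 < M
  a1 : Ge v 0 W.a₁
  a2 : Ge v 0 W.a₂
  a3 : Ge v M W.a₃
  a4 : Ge v M W.a₄
  a6 : Is v M W.a₆
  b2 : Is v 0 W.b₂

/-- The position of `P` in the group of components `ℤ / 2 M` up to sign. -/
noncomputable def Cc (v : F → ℤ) (M : ℤ) {W : WeierstrassCurve F} (P : W.toAffine.Point) : ℤ :=
  if P = 0 then 0 else if px P = 0 then M else min (max (2 * v (px P)) 0) M

/-- The distance of `a` to the multiples of `2 M`. -/
def dd (M a : ℤ) : ℤ := min (a % (2 * M)) (2 * M - a % (2 * M))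

/-- The numbers `l`, `N` and the field of constants. -/
structure Nm (l N : ℕ) (κ : Type) [Field κ] : Prop where
  nn : N = 2 ∨ N = 3
  lp : l.Prime
  l5 : 5 ≤ l
  lk : (l : κ) ≠ 0
  nk : (N : κ) ≠ 0

end models

end MP7Sh
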