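import Pool.Agent.Lib.MP_7f581e_Sh.SpecV

set_option autoImplicit false

namespace MP7Sh

open Polynomial IntermediateField

open scoped Classical Pointwise

/-- The multiplicity and the membership in the powers. -/
private theorem Efg_le {B : Type} [CommRing B] [IsDedekindDomain B] (P : Ideal B) (b : B)
    (n : ℕ) : b ∈ P ^ n ↔ (n : ℕ∞) ≤ emultiplicity P (Ideal.span {b}) := by
  rw [← pow_dvd_iff_le_emultiplicity, Ideal.dvd_span_singleton]

theorem tEfg : S_Efg := by
  intro A K B F _ _ _ _ _ _ _ _ _ _ _ _ _ _ _ _ _ P hPm hP0 hres a n ha ha1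
  have hPp : P.IsPrime := hPm.isPrime
  have hsep : Algebra.IsSeparable K F := inferInstance
  have hfin : Module.Finite A B := IsIntegralClosure.finite A K F B
  have hfr : IsFractionRing B F := IsIntegralClosure.isFractionRing_of_finite_extension A K F B
  have hint : Algebra.IsIntegral A B := IsIntegralClosure.isIntegral_algebra A F
  have hAF : Function.Injective (algebraMap A F) := by
    rw [IsScalarTower.algebraMap_eq A K F]
    exact (algebraMap K F).injective.comp (IsFractionRing.injective A K)
  have hAB : Function.Injective (algebraMap A B) := by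
    have h := hAF
    rw [IsScalarTower.algebraMap_eq A B F] at h
    exact Function.Injective.of_comp h
  have hfs : FaithfulSMul A B := (faithfulSMul_iff_algebraMap_injective A B).2 hAB
  have htf : Module.IsTorsionFree A B := inferInstance
  let act : MulSemiringAction (F ≃ₐ[K] F) B := IsIntegralClosure.MulSemiringAction A K F B
  have hgal : IsGaloisGroup (F ≃ₐ[K] F) A B := IsGaloisGroup.of_isFractionRing _ _ _ K F
  have hact : ∀ (σ : F ≃ₐ[K] F) (b : B), algebraMap B F (σ • b) = σ (algebraMap B F b) :=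
    fun σ b => algebraMap_galRestrict_apply A σ b
  obtain ⟨p, hp⟩ : ∃ p : Ideal A, p = P.comap (algebraMap A B) := ⟨_, rfl⟩
  rw [← hp] at ha ha1
  have hover : P.LiesOver p := ⟨hp⟩
  have hpm : p.IsMaximal := by
    rw [hp]
    exact Ideal.isMaximal_comap_of_isIntegral_of_isMaximal P
  have hpp : p.IsPrime := hpm.isPrime
  have hp0 : p ≠ ⊥ := by
    intro h
    exact hP0 (Ideal.eq_bot_of_comap_eq_bot (R := A) (hp ▸ h))
  -- the residue degree
  have hf : P.inertiaDeg A = 1 := by
    rw [Ideal.inertiaDeg_eq_of_isMaximal p P]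
    have hsurj : Function.Surjective (algebraMap (A ⧸ p) (B ⧸ P)) := by
      intro y
      obtain ⟨b, rfl⟩ := Ideal.Quotient.mk_surjective y
      obtain ⟨a', ha'⟩ := hres b
      refine ⟨Ideal.Quotient.mk p a', ?_⟩
      rw [Ideal.Quotient.algebraMap_mk_of_liesOver, eq_comm, Ideal.Quotient.eq]
      exact ha'
    have hnt : Nontrivial (A ⧸ p) := Ideal.Quotient.nontrivial_iff.2 hpp.ne_top
    have hinj : Function.Injective (algebraMap (A ⧸ p) (B ⧸ P)) := by
      rw [injective_iff_map_eq_zero]
      intro y hy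
      obtain ⟨b, rfl⟩ := Ideal.Quotient.mk_surjective y
      rw [Ideal.Quotient.algebraMap_mk_of_liesOver, Ideal.Quotient.eq_zero_iff_mem] at hy
      rw [Ideal.Quotient.eq_zero_iff_mem, hp]
      exact hy
    have e : (A ⧸ p) ≃ₗ[A ⧸ p] (B ⧸ P) :=
      LinearEquiv.ofBijective (Algebra.linearMap (A ⧸ p) (B ⧸ P)) ⟨hinj, hsurj⟩
    rw [← e.finrank_eq, Module.finrank_self]
  -- the ramification index
  have he : P.ramificationIdx A = Nat.card (MulAction.stabilizer (F ≃ₐ[K] F) P) := by
    have h1 := Ideal.ncard_primesOver_mul_ramificationIdxIn_mul_inertiaDegIn p B (F ≃ₐ[K] F)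
    rw [Ideal.ramificationIdxIn_eq_ramificationIdx p P (F ≃ₐ[K] F),
      Ideal.inertiaDegIn_eq_inertiaDeg p P (F ≃ₐ[K] F), hf, mul_one] at h1
    have h2 : (p.primesOver B).ncard * Nat.card (MulAction.stabilizer (F ≃ₐ[K] F) P) =
        Nat.card (F ≃ₐ[K] F) := by
      rw [← Algebra.IsInvariant.orbit_eq_primesOver A B (F ≃ₐ[K] F) p P]
      simpa using Nat.card_congr (MulAction.orbitProdStabilizerEquivGroup (F ≃ₐ[K] F) P)
    have h3 : (p.primesOver B).ncard ≠ 0 := by
      intro h
      rw [h, zero_mul] at h2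
      exact Nat.card_pos.ne h2
    exact Nat.eq_of_mul_eq_mul_left (Nat.pos_of_ne_zero h3) (h1.trans h2.symm)
  have hcard : Nat.card {σ : F ≃ₐ[K] F // ∀ b c : B,
      σ (algebraMap B F b) = algebraMap B F c → (b ∈ P ↔ c ∈ P)} =
      Nat.card (MulAction.stabilizer (F ≃ₐ[K] F) P) := by
    refine Nat.card_congr (Equiv.subtypeEquivRight fun σ => ?_)
    rw [MulAction.mem_stabilizer_iff]
    constructor
    · intro h
      ext b
      rw [Ideal.mem_pointwise_smul_iff_inv_smul_mem]
      exact h (σ⁻¹ • b) b (by rw [← hact, smul_inv_smul])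
    · intro h b c hbc
      have h1 : σ • b = c := IsFractionRing.injective B F (by rw [hact]; exact hbc)
      rw [← h1]
      conv_rhs => rw [← h]
      rw [Ideal.smul_mem_pointwise_smul_iff]
  rw [hcard, ← he]
  have ha0 : a ≠ 0 := by
    rintro rfl
    exact ha1 (Ideal.zero_mem _)
  have haI : (Ideal.span {a} : Ideal A) ≠ ⊥ := by
    rw [Ne, Ideal.span_singleton_eq_bot]
    exact ha0
  have hpi : Irreducible p := (Ideal.prime_of_isPrime hp0 hpp).irreducible
  have hPi : Irreducible P := (Ideal.prime_of_isPrime hP0 hPp).irreducible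
  have key := Ideal.IsDedekindDomain.emultiplicity_map_eq_ramificationIdx'_mul haI hpi hPi hP0
  rw [Ideal.map_span, Set.image_singleton, Ideal.ramificationIdx'_eq_ramificationIdx p P hp0] at key
  have hm : emultiplicity p (Ideal.span {a}) = n := by
    rw [emultiplicity_eq_coe, Ideal.dvd_span_singleton, Ideal.dvd_span_singleton]
    exact ⟨ha, ha1⟩
  rw [hm] at key
  constructor
  · rw [Efg_le, key]
    push_cast
    exact le_rfl
  · rw [Efg_le, key]
    intro h
    have h5 : P.ramificationIdx A * n + 1 ≤ P.ramificationIdx A * n := by exact_mod_cast h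
    omega

end MP7Sh
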