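import Pool.Agent.Lib.MP_7f581e_Sh.SpecA

/-!
# MP_7f581e_nt, GA realizations of `PSL(2, l)`: the theorem
-/

set_option autoImplicit false

namespace MP7Sh

open Polynomial WeierstrassCurve

open scoped Classical

private theorem cast_ne (p q : ℕ) [hp : Fact p.Prime] (κ : Type) [Field κ] [CharP κ p]
    (hq : q.Prime) (h : q ≠ p) : (q : κ) ≠ 0 := by
  intro h0
  rw [CharP.cast_eq_zero_iff κ p] at h0
  exact h ((Nat.prime_dvd_prime_iff_eq hp.out hq).mp h0).symm

private theorem exists_rt (N : ℕ) (κ : Type) [Field κ] [IsAlgClosed κ] : ∃ θ : κ, Rt N θ := by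
  unfold Rt
  by_cases hN : N = 2
  · simp only [if_pos hN]
    exact IsAlgClosed.exists_pow_nat_eq (-2 : κ) two_pos
  · simp only [if_neg hN]
    obtain ⟨θ, hθ⟩ := IsAlgClosed.exists_root (X ^ 2 + X + 1 : κ[X]) (by
      have : (X ^ 2 + X + 1 : κ[X]).natDegree = 2 := by compute_degree!
      exact degree_ne_of_natDegree_ne (by rw [this]; norm_num))
    refine ⟨θ, ?_⟩
    simpa [IsRoot.def] using hθ

private theorem tr_ne {κ Ω : Type} [Field κ] [Field Ω] [Algebra κ Ω] {T : Ω}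
    (hT : Transcendental κ T) (c : κ) : T ≠ algebraMap κ Ω c := by
  intro h
  exact hT (h ▸ isAlgebraic_algebraMap c)

private theorem disc_ne (l N : ℕ) (κ Ω : Type) [Field κ] [Field Ω] [Algebra κ Ω] (T : Ω)
    (h : Nm l N κ) (hT : Transcendental κ T) : (Ec N T).Δ ≠ 0 := by
  have hT0 : T ≠ 0 := by
    have := tr_ne hT 0
    rwa [map_zero] at this
  have hN0 : (N : Ω) ≠ 0 := by
    have := (map_ne_zero (algebraMap κ Ω)).mpr h.nk
    rwa [map_natCast] at this
  rcases h.nn with rfl | rfl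
  · have h2 : (2 : Ω) ≠ 0 := by exact_mod_cast hN0
    have h3 : (1 : Ω) - 4 * T ≠ 0 := by
      intro h4
      have h40 : (4 : Ω) ≠ 0 := by
        have : (4 : Ω) = 2 * 2 := by norm_num
        rw [this]
        exact mul_ne_zero h2 h2
      apply tr_ne hT (4 : κ)⁻¹
      rw [map_inv₀, map_ofNat]
      field_simp
      linear_combination -h4
    have h5 : (Ec 2 T).Δ = 2 ^ 4 * T ^ 2 * (1 - 4 * T) := by
      simp only [Ec, if_true, WeierstrassCurve.Δ, WeierstrassCurve.b₂, WeierstrassCurve.b₄,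
        WeierstrassCurve.b₆, WeierstrassCurve.b₈]
      ring
    rw [h5]
    exact mul_ne_zero (mul_ne_zero (pow_ne_zero 4 h2) (pow_ne_zero 2 hT0)) h3
  · have h2 : (3 : Ω) ≠ 0 := by exact_mod_cast hN0
    have h3 : (1 : Ω) - 27 * T ≠ 0 := by
      intro h4
      have h40 : (27 : Ω) ≠ 0 := by
        have : (27 : Ω) = 3 * 3 * 3 := by norm_num
        rw [this]
        exact mul_ne_zero (mul_ne_zero h2 h2) h2
      apply tr_ne hT (27 : κ)⁻¹
      rw [map_inv₀, map_ofNat]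
      field_simp
      linear_combination -h4
    have h5 : (Ec 3 T).Δ = T ^ 3 * (1 - 27 * T) := by
      have h6 : Ec 3 T = ⟨1, 0, T, 0, 0⟩ := if_neg (by norm_num)
      rw [h6]
      simp only [WeierstrassCurve.Δ, WeierstrassCurve.b₂,
        WeierstrassCurve.b₄, WeierstrassCurve.b₆, WeierstrassCurve.b₈]
      ring
    rw [h5]
    exact mul_ne_zero (pow_ne_zero 3 hT0) h3

private theorem fixed_of_range (p : ℕ) [Fact p.Prime] (Ω : Type) [Field Ω]
    (j : RatFunc (ZMod p) →+* Ω) (σ : Ω →+* Ω) (h : σ (j RatFunc.X) = j RatFunc.X) (w) :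
    σ (j w) = j w := by
  have h1 : (σ.comp j).comp (algebraMap (ZMod p)[X] (RatFunc (ZMod p))) =
      j.comp (algebraMap (ZMod p)[X] (RatFunc (ZMod p))) := by
    apply Polynomial.ringHom_ext'
    · exact Subsingleton.elim _ _
    · simp only [RingHom.comp_apply, RatFunc.algebraMap_X]
      exact h
  have h2 : σ.comp j = j := IsLocalization.ringHom_ext (nonZeroDivisors (ZMod p)[X]) h1
  exact congrArg (fun f => f w) h2

theorem tFinP (h1 : S_Tor) (h2 : S_Bs) (h3 : S_Omg) (h4 : S_Fxf) (h5 : S_Gom) (h6 : S_Ari)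
    (h7 : S_Asm) : S_FinP := by
  intro p l N hp hl hN hNp hlp hl5 hns
  obtain ⟨κ, Ω, iκ, iΩ, iA, T, hac, hchar, hsc, htr, hsep, hfix, Φ, hΦc, hΦT⟩ := h3 p
  have hNprime : N.Prime := by
    rcases hN with rfl | rfl
    · exact Nat.prime_two
    · exact Nat.prime_three
  have hNm : Nm l N κ := ⟨hN, hl.out, hl5, cast_ne p l κ hl.out hlp, cast_ne p N κ hNprime hNp⟩
  obtain ⟨θ, hθ⟩ := exists_rt N κ
  have hΔ := disc_ne l N κ Ω T hNm htr
  have hlΩ : (l : Ω) ≠ 0 := by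
    have := (map_ne_zero (algebraMap κ Ω)).mpr hNm.lk
    rwa [map_natCast] at this
  have hcard : Nat.card (Tl l (Ec N T)) = l ^ 2 := by
    rw [← h1 Ω (Ec N T) hΔ l hlΩ]
    rfl
  obtain ⟨e⟩ := h2 l (Tl l (Ec N T)) (fun x => Subtype.ext x.2) hcard
  have hGeo := h5 l N κ Ω T θ e hNm hθ htr hsep
  obtain ⟨Γ, ρ, y, hsurj, hfixy, hadj, hytr, hgal, ⟨ψ, hψP, hψy, hψc⟩, Z, hZf, hZst, hZρ⟩ :=
    h6 p l N κ Ω T θ Φ e hNm hθ htr hΦc hΦT hns hGeo
  obtain ⟨j, hjX, hj⟩ := h4 p κ Ω y hytr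
  refine h7 p l hl5 Ω Γ ρ j Z hsurj hZf hZst hZρ ?_
  intro z
  constructor
  · intro hz
    have hz1 : z ∈ IntermediateField.adjoin κ {y} := by
      rw [hadj]
      apply hfix
      intro τ hτ
      obtain ⟨σ, hσ, hσP⟩ := hgal τ hτ
      have := hz σ hσP
      rw [hσ] at this
      exact this
    exact (hj ((ψ : Ω ≃+* Ω) : Ω →+* Ω) hψc hψy z hz1).mp (hz ψ hψP)
  · rintro ⟨w, rfl⟩ σ hσ
    exact fixed_of_range p Ω j ((σ : Ω ≃+* Ω) : Ω →+* Ω) (by
      rw [hjX]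
      exact hfixy σ hσ) w

end MP7Sh
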