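import Pool.Agent.Lib.MP_7f581e_Sh.SpecE

/-!
# MP_7f581e_nt, GA realizations of `PSL(2, l)`: points of odd order with a nonsingular reduction
-/

set_option autoImplicit false

namespace MP7Sh

open Polynomial WeierstrassCurve

open scoped Classical

private theorem nat_mul {F : Type} [Field F] {v : F → ℤ} (hv : Ord v) {n : ℤ} (m : ℕ) [m.AtLeastTwo]
    {x : F} (hx : Ge v n x) : Ge v n ((OfNat.ofNat m : F) * x) :=
  (Ge.ofNat hv m).mul_left hv hx

private theorem geb2 {F : Type} [Field F] {v : F → ℤ} (hv : Ord v) {W : WeierstrassCurve F}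
    (h : It v W) : Ge v 0 W.b₂ :=
  (h.a1.pow0 hv 2).add hv (nat_mul hv 4 h.a2)

private theorem geb4 {F : Type} [Field F] {v : F → ℤ} (hv : Ord v) {W : WeierstrassCurve F}
    (h : It v W) : Ge v 0 W.b₄ :=
  (nat_mul hv 2 h.a4).add hv (h.a1.mul_left hv h.a3)

private theorem geb6 {F : Type} [Field F] {v : F → ℤ} (hv : Ord v) {W : WeierstrassCurve F}
    (h : It v W) : Ge v 0 W.b₆ :=
  (h.a3.pow0 hv 2).add hv (nat_mul hv 4 h.a6)

private theorem disc_identity {F : Type} [Field F] (W : WeierstrassCurve F) (x : F) :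
    (-48 * x ^ 2 - 8 * W.b₂ * x + W.b₂ ^ 2 - 32 * W.b₄) *
        (x ^ 4 - W.b₄ * x ^ 2 - 2 * W.b₆ * x - W.b₈) +
      (12 * x ^ 3 - W.b₂ * x ^ 2 - 10 * W.b₄ * x + W.b₂ * W.b₄ - 27 * W.b₆) *
        (4 * x ^ 3 + W.b₂ * x ^ 2 + 2 * W.b₄ * x + W.b₆) = W.Δ := by
  simp only [WeierstrassCurve.Δ, WeierstrassCurve.b₂, WeierstrassCurve.b₄, WeierstrassCurve.b₆,
    WeierstrassCurve.b₈]
  ring

theorem tNs (h1 : S_Pts) (h2 : S_Int) : S_Ns := by
  intro F _ v hv W hΔ hI l hl hlu P x y hP hAt hcase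
  obtain ⟨q1, q2, -, -, -, -, -, -, -, -, q11, q12⟩ := h1 F W hΔ
  obtain ⟨hx, hy⟩ := h2 F v hv W hΔ hI l hlu P x y hP hAt
  have hp : Ge v 0 (p2 W x y) :=
    ((nat_mul hv 2 hy).add hv (hI.a1.mul_left hv hx)).add hv hI.a3
  refine Is.of_ge hp ?_
  intro hp1
  rw [zero_add] at hp1
  have hPne : P ≠ 0 := (q2 P x y hAt).1
  have h2P : P + P ≠ 0 := by
    intro h0
    obtain ⟨k, rfl⟩ := hl
    apply hPne
    have h3 : (2 * k + 1) • P = k • (P + P) + P := by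
      rw [add_smul, one_smul, mul_comm, mul_smul, two_smul]
    rw [h3, h0, smul_zero, zero_add] at hP
    exact hP
  obtain ⟨x', y', hAt'⟩ := (q1 (P + P)).resolve_left h2P
  have hl2 : l • (P + P) = 0 := by rw [smul_add, hP, add_zero]
  have hx' := (h2 F v hv W hΔ hI l hlu (P + P) x' y' hl2 hAt').1
  have e1 := q12 P x y x' y' hAt hAt'
  have e2 := q11 P x y hAt
  have hd : Ge v 1 (4 * x ^ 3 + W.b₂ * x ^ 2 + 2 * W.b₄ * x + W.b₆) := by
    rw [← e2, pow_two]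
    exact hp.mul_left hv hp1
  have he : Ge v 1 (x ^ 4 - W.b₄ * x ^ 2 - 2 * W.b₆ * x - W.b₈) := by
    rw [← e1]
    exact hx'.mul_left hv hd
  have g2 := geb2 hv hI
  have g4 := geb4 hv hI
  have g6 := geb6 hv hI
  rcases hcase with hD | ⟨M, hM, hxu⟩
  · have hA : Ge v 0 (-48 * x ^ 2 - 8 * W.b₂ * x + W.b₂ ^ 2 - 32 * W.b₄) := by
      have h48 : Ge v 0 (-48 * x ^ 2) := by
        rw [neg_mul]
        exact (nat_mul hv 48 (hx.pow0 hv 2)).neg hv
      refine ((h48.sub hv ?_).add hv (g2.pow0 hv 2)).sub hv (nat_mul hv 32 g4)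
      exact (nat_mul hv 8 g2).mul_left hv hx
    have hB : Ge v 0 (12 * x ^ 3 - W.b₂ * x ^ 2 - 10 * W.b₄ * x + W.b₂ * W.b₄ - 27 * W.b₆) := by
      refine ((((nat_mul hv 12 (hx.pow0 hv 3)).sub hv (g2.mul_left hv (hx.pow0 hv 2))).sub hv
        ((nat_mul hv 10 g4).mul_left hv hx)).add hv (g2.mul_left hv g4)).sub hv
        (nat_mul hv 27 g6)
    have hΔ1 : Ge v 1 W.Δ := by
      rw [← disc_identity W x]
      exact (hA.mul_left hv he).add hv (hB.mul_left hv hd)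
    exact hD.not_ge one_pos hΔ1
  · have hM1 : (1 : ℤ) ≤ M := hM.pos
    have a3 : Ge v 1 W.a₃ := hM.a3.mono hM1
    have a4 : Ge v 1 W.a₄ := hM.a4.mono hM1
    have a6 : Ge v 1 W.a₆ := hM.a6.ge.mono hM1
    have c4 : Ge v 1 W.b₄ := (nat_mul hv 2 a4).add hv (hI.a1.mul_left hv a3)
    have c6 : Ge v 1 W.b₆ := by
      have h3 : Ge v 1 (W.a₃ ^ 2) := by rw [pow_two]; exact hI.a3.mul_left hv a3
      exact h3.add hv (nat_mul hv 4 a6)
    have c8 : Ge v 1 W.b₈ := by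
      have t1 : Ge v 1 (W.a₁ ^ 2 * W.a₆) := (hI.a1.pow0 hv 2).mul_left hv a6
      have t2 : Ge v 1 (4 * W.a₂ * W.a₆) := (nat_mul hv 4 hI.a2).mul_left hv a6
      have t3 : Ge v 1 (W.a₁ * W.a₃ * W.a₄) := (hI.a1.mul_left hv hI.a3).mul_left hv a4
      have t4 : Ge v 1 (W.a₂ * W.a₃ ^ 2) := by
        refine hI.a2.mul_left hv ?_
        rw [pow_two]; exact hI.a3.mul_left hv a3
      have t5 : Ge v 1 (W.a₄ ^ 2) := by rw [pow_two]; exact hI.a4.mul_left hv a4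
      exact (((t1.add hv t2).sub hv t3).add hv t4).sub hv t5
    have hx4 : Ge v 1 (x ^ 4) := by
      have h3 : x ^ 4 = (x ^ 4 - W.b₄ * x ^ 2 - 2 * W.b₆ * x - W.b₈) + W.b₄ * x ^ 2 +
          2 * W.b₆ * x + W.b₈ := by ring
      rw [h3]
      exact ((he.add hv (c4.mul_right hv (hx.pow0 hv 2))).add hv
        ((nat_mul hv 2 c6).mul_right hv hx)).add hv c8
    have hx4u : Is v 0 (x ^ 4) := by
      have := hxu.pow hv 4
      rwa [mul_zero] at this
    exact hx4u.not_ge one_pos hx4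

end MP7Sh
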