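import Pool.Agent.Lib.MP_7f581e_Sh.SpecE

/-!
# MP_7f581e_nt, GA realizations of `PSL(2, l)`: module Pts (the group law)
-/

set_option autoImplicit false

namespace MP7Sh

open Polynomial WeierstrassCurve

open scoped Classical

private theorem pts_At_of {L : Type} [Field L] {W : WeierstrassCurve L} {P : W.toAffine.Point}
    {a b x y : L} {h : W.toAffine.Nonsingular a b} (hP : P = .some a b h) (hx : a = x)
    (hy : b = y) : At P x y := by
  subst hx hy
  exact ⟨h, hP⟩

theorem tPts : S_Pts := by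
  intro L _ W hΔ
  have heq : ∀ x y : L, W.toAffine.Equation x y ↔
      y ^ 2 + W.a₁ * x * y + W.a₃ * y = x ^ 3 + W.a₂ * x ^ 2 + W.a₄ * x + W.a₆ := fun x y =>
    Affine.equation_iff _ _
  have hns : ∀ x y : L, W.toAffine.Equation x y → W.toAffine.Nonsingular x y := fun x y h =>
    (Affine.equation_iff_nonsingular_of_Δ_ne_zero hΔ).1 h
  have hnegY : ∀ x y, W.toAffine.negY x y = -y - W.a₁ * x - W.a₃ := fun x y => rfl
  have hadd : ∀ {x y x' y' : L} (h : W.toAffine.Nonsingular x y)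
      (h' : W.toAffine.Nonsingular x' y') (_ : ¬ (x = x' ∧ y = W.toAffine.negY x' y')) (m : L),
      W.toAffine.slope x x' y y' = m →
      At (Affine.Point.some x y h + Affine.Point.some x' y' h')
        (m ^ 2 + W.a₁ * m - W.a₂ - x - x')
        (-(m * ((m ^ 2 + W.a₁ * m - W.a₂ - x - x') - x) + y) -
          W.a₁ * (m ^ 2 + W.a₁ * m - W.a₂ - x - x') - W.a₃) := by
    intro x y x' y' h h' hxy m hm
    refine pts_At_of (Affine.Point.add_some hxy) ?_ ?_
    · rw [Affine.addX, hm]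
    · rw [Affine.addY, Affine.negY, Affine.negAddY, Affine.addX, hm]
  have h3 : ∀ (P : W.toAffine.Point) (x y m : L), At P x y → p2 W x y ≠ 0 →
      m * p2 W x y = 3 * x ^ 2 + 2 * W.a₂ * x + W.a₄ - W.a₁ * y →
      At (P + P) (m ^ 2 + W.a₁ * m - W.a₂ - x - x)
        (-(m * ((m ^ 2 + W.a₁ * m - W.a₂ - x - x) - x) + y) -
          W.a₁ * (m ^ 2 + W.a₁ * m - W.a₂ - x - x) - W.a₃) := by
    rintro P x y m ⟨h, rfl⟩ hp hm
    have hyne : y ≠ W.toAffine.negY x y := by
      rw [hnegY]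
      intro h3
      apply hp
      unfold p2
      linear_combination h3
    refine hadd h h (fun hh => hyne hh.2) m ?_
    rw [Affine.slope_of_Y_ne rfl hyne, hnegY]
    have e1 : y - (-y - W.a₁ * x - W.a₃) = p2 W x y := by
      unfold p2
      ring
    rw [e1, div_eq_iff hp]
    exact hm.symm
  have h5 : ∀ (P : W.toAffine.Point) (x y : L), At P x y → (P + P = 0 ↔ p2 W x y = 0) := by
    intro P x y hP
    constructor
    · intro h0
      by_contra hp
      obtain ⟨h', h''⟩ := h3 P x y _ hP hp (div_mul_cancel₀ _ hp)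
      rw [h0] at h''
      exact Affine.Point.some_ne_zero h' h''.symm
    · intro hp
      obtain ⟨h, rfl⟩ := hP
      refine Affine.Point.add_self_of_Y_eq ?_
      rw [hnegY]
      unfold p2 at hp
      linear_combination hp
  have h11 : ∀ (P : W.toAffine.Point) (x y : L), At P x y →
      p2 W x y ^ 2 = 4 * x ^ 3 + W.b₂ * x ^ 2 + 2 * W.b₄ * x + W.b₆ := by
    rintro P x y ⟨h, rfl⟩
    have e := (heq x y).1 h.1
    unfold p2
    rw [WeierstrassCurve.b₂, WeierstrassCurve.b₄, WeierstrassCurve.b₆]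
    linear_combination 4 * e
  refine ⟨?_, ?_, ?_, ?_, ?_, ?_, ?_, h3, h5, ?_, h11, ?_⟩
  · rintro (_ | ⟨x, y, h⟩)
    · exact Or.inl rfl
    · exact Or.inr ⟨x, y, h, rfl⟩
  · rintro P x y ⟨h, rfl⟩
    exact ⟨Affine.Point.some_ne_zero h, rfl, rfl, (heq x y).1 h.1⟩
  · intro x y h
    exact ⟨.some x y (hns x y ((heq x y).2 h)), _, rfl⟩
  · rintro P Q x y ⟨h, rfl⟩ ⟨h', rfl⟩
    rfl
  · rintro P x y ⟨h, rfl⟩
    exact pts_At_of (Affine.Point.neg_some h) rfl (hnegY x y)
  · rintro P Q x y y' ⟨h, rfl⟩ ⟨h', rfl⟩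
    rcases Affine.Point.X_eq_iff (h₁ := h') (h₂ := h) |>.1 rfl with h3 | h3
    · exact Or.inl h3
    · exact Or.inr h3
  · rintro P Q x y x' y' m ⟨h, rfl⟩ ⟨h', rfl⟩ hx hm
    refine hadd h h' (fun hh => hx hh.1) m ?_
    rw [Affine.slope_of_X_ne hx, div_eq_iff (sub_ne_zero.2 hx)]
    exact hm.symm
  · rintro P x y ⟨h, rfl⟩ hp
    have h4 := (Affine.nonsingular_iff _ _).1 h
    rcases h4.2 with h6 | h6
    · intro h7
      exact h6 (by linear_combination -h7)
    · intro _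
      apply h6
      unfold p2 at hp
      linear_combination hp
  · intro P x y x' y' hP hPP
    have hp : p2 W x y ≠ 0 := by
      intro hp
      obtain ⟨h', h''⟩ := hPP
      rw [(h5 P x y hP).2 hp] at h''
      exact Affine.Point.some_ne_zero h' h''.symm
    obtain ⟨m, hm⟩ : ∃ m : L, m * p2 W x y = 3 * x ^ 2 + 2 * W.a₂ * x + W.a₄ - W.a₁ * y :=
      ⟨_, div_mul_cancel₀ _ hp⟩
    have h6 := h3 P x y m hP hp hm
    have hx' : x' = m ^ 2 + W.a₁ * m - W.a₂ - x - x := by
      obtain ⟨h', h''⟩ := hPP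
      obtain ⟨h6', h6''⟩ := h6
      rw [h''] at h6''
      exact (Affine.Point.some.inj h6'').1
    have e11 := h11 P x y hP
    obtain ⟨h, rfl⟩ := hP
    have e := (heq x y).1 h.1
    rw [← e11, hx']
    have e1 : (m ^ 2 + W.a₁ * m - W.a₂ - x - x) * p2 W x y ^ 2 =
        (m * p2 W x y) ^ 2 + W.a₁ * (m * p2 W x y) * p2 W x y -
          (W.a₂ + 2 * x) * p2 W x y ^ 2 := by ring
    rw [e1, hm, e11]
    unfold p2
    rw [WeierstrassCurve.b₂, WeierstrassCurve.b₄, WeierstrassCurve.b₆, WeierstrassCurve.b₈]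
    linear_combination (-W.a₁ ^ 2) * e

end MP7Sh
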