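import Pool.Agent.Lib.MP_7f581e_Sh.SpecG
import Pool.Agent.Lib.MP_7f581e_K.DefsG

/-!
# MP_7f581e_nt, GA realizations of `PSL(2, l)`: arithmetic part

Conventions as in `SpecE.lean` (`import Pool.Agent.Lib.MP_7f581e_Sh.SpecA`).
-/

set_option autoImplicit false

namespace MP7Sh

open Polynomial WeierstrassCurve

open scoped Classical

/-- The map of the points of `E_T` given by an automorphism which fixes `s = T ^ 2 - c T`. -/
noncomputable def gs (N : ℕ) {Ω : Type} [Field Ω] (θ T : Ω) (σ : Ω ≃+* Ω)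
    (P : (Ec N T).toAffine.Point) : (Ec N T).toAffine.Point :=
  if σ T = T then pm (Ec N T) (Ec N T) σ P else gg N θ T (c0 N Ω - T) σ P

/-- **Rep** (300 lines, uses `S_Pts`, `S_Pm`, `S_PsW`, `S_Iso`, `S_Lin`). The projective representation.

Proof. `T' = c - T`; `σ s = s` implies `(σ T - T) (σ T - T') = 0`, so `σ T = T` or `σ T = T'`, and then `σ T' = T'` resp. `T`. (If `T = T'` the
first case is used.) `σ θ` is `θ` or its conjugate (`Rt N (σ θ)`), so `ps N (σ θ) = ± ps N θ` (`S_Iso` (5)). `g_σ = gs N θ T σ` is additive on `Tl l (Ec N T)`, maps it into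
itself, and is injective (`S_Pm`, `S_Iso` (4) for `T'`), so it has an invertible matrix `M_σ` (`S_Lin`). For `σ, τ` there is a scalar
`a ≠ 0` in `ZMod l` with `g_σ ∘ g_τ = a g_{σ τ}` on `Tl`: (i) `σ T = T`, `τ T = T`: `a = 1` (`S_Pm` (9)). (ii) `σ T = T'`, `τ T = T`: `a = 1`. (iii) `σ T = T`, `τ T = T'`:
`σ (ps_{T'→T} (τ P)) = (ps with σ θ)_{T'→T} (σ τ P) = ± ps_{T'→T} (σ τ P)` (`S_Iso` (6)), `a = ± 1`. (iv) `σ T = T'`, `τ T = T'`:
`ps_{T'→T} (σ (ps_{T'→T} (τ P))) = ± ps_{T'→T} (ps_{T→T'} (σ τ P)) = ∓ N σ τ P` (`σ T' = T`), `a = ∓ N ≠ 0` (`l` does not divide `N`). So `M_σ M_τ = a M_{σ τ}`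
(`S_Lin` (2), (3)), and `σ ↦ [M_σ]` is a homomorphism to `PGL` (scalar matrices are in the center). -/
def S_Rep : Prop :=
  ∀ (l N : ℕ) [Fact l.Prime] (Ω : Type) [Field Ω] (T θ : Ω)
    (e : Tl l (Ec N T) ≃+ (Fin 2 → ZMod l)), Nm l N Ω → Rt N θ → T ≠ 0 → c0 N Ω - T ≠ 0 →
    ∃ ρ : MulAction.stabilizer (Ω ≃+* Ω) (T ^ 2 - c0 N Ω * T) →* PGL l,
      ∀ σ : MulAction.stabilizer (Ω ≃+* Ω) (T ^ 2 - c0 N Ω * T),
        ∃ M : GL (Fin 2) (ZMod l), IsM e (gs N θ T (σ : Ω ≃+* Ω)) M.1 ∧ ρ σ = QuotientGroup.mk M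

/-- **Pgl** (150 lines). The subgroup `PSL` of `PGL`.

Proof. If `mk M = mk M'` then `M' = M z` with `z` in the center, i.e. `z` is a scalar matrix
(`Matrix.GeneralLinearGroup.center..` or commuting with the elementary matrices), so `det M' = a ^ 2 det M`. So `IsP (mk M) ↔ IsSquare (det M)`.
In the finite field `ZMod l`: the product of two nonsquares is a square (`quadraticChar`, or `FiniteField`), a product of a nonsquare and a
nonzero square is not a square. (5) `l` is odd: `ZMod l` has a nonsquare. (6) `det M = a ^ 2`: `a⁻¹ M` has determinant `1`. -/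
def S_Pgl : Prop :=
  ∀ (l : ℕ) [Fact l.Prime], 5 ≤ l →
    (∀ M : GL (Fin 2) (ZMod l), IsP (QuotientGroup.mk M : PGL l) ↔ IsSquare M.1.det) ∧
    IsP (1 : PGL l) ∧
    (∀ g h : PGL l, IsP g → (IsP (g * h) ↔ IsP h)) ∧
    (∀ g h : PGL l, ¬ IsP g → (IsP (g * h) ↔ ¬ IsP h)) ∧
    (∃ g : PGL l, ¬ IsP g) ∧
    (∀ g : PGL l, IsP g → ∃ M : GL (Fin 2) (ZMod l), M.1.det = 1 ∧
      (QuotientGroup.mk M : PGL l) = g) ∧
    ∀ g : PGL l, IsP g⁻¹ ↔ IsP g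

/-- **Gam** (150 lines). The group `Γ`.

Proof. `Φ` maps `κ` (its image in `Ω`) onto itself: `κ` is algebraically closed, so every element is a `p`-th power. So all `Φ ^ n`, `n ∈ ℤ`,
preserve `κ`. If `Φ ^ n σ` and `Φ ^ m τ` are trivial on `κ` then `σ = Φ ^ (-n)`, `τ = Φ ^ (-m)` on `κ`, so `σ τ = Φ ^ (-n-m)` on `κ`; inverses
similarly. -/
def S_Gam : Prop :=
  ∀ (p : ℕ) [Fact p.Prime] (κ Ω : Type) [Field κ] [IsAlgClosed κ] [Field Ω] [Algebra κ Ω]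
    (Φ : Ω ≃+* Ω) (s : Ω), (∀ c : κ, Φ (algebraMap κ Ω c) = algebraMap κ Ω (c ^ p)) →
    Φ s = s → ∃ Γ : Subgroup (Ω ≃+* Ω),
      (∀ σ : Ω ≃+* Ω, σ ∈ Γ ↔ σ s = s ∧
        ∃ n : ℤ, ∀ c : κ, (Φ ^ n * σ) (algebraMap κ Ω c) = algebraMap κ Ω c) ∧
      Φ ∈ Γ ∧ (∀ τ : Ω ≃ₐ[κ] Ω, τ s = s → (τ : Ω ≃+* Ω) ∈ Γ) ∧
      ∀ σ ∈ Γ, ∃ (n : ℤ) (τ : Ω ≃ₐ[κ] Ω), τ s = s ∧ (τ : Ω ≃+* Ω) = Φ ^ n * σ

/-- The data over `Ω`: `ρ` is the projective representation of `Γ`, `y` generates the field of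
invariants of the preimage of `PSL`. -/
def Dat (p l : ℕ) [Fact l.Prime] (κ Ω : Type) [Field κ] [Field Ω] [Algebra κ Ω] (T : Ω)
    (Γ : Subgroup (Ω ≃+* Ω)) (ρ : Γ →* PGL l) (y : Ω) : Prop :=
  Function.Surjective ρ ∧ (∀ σ : Γ, IsP (ρ σ) → (σ : Ω ≃+* Ω) y = y) ∧
  IntermediateField.adjoin κ {y} = IntermediateField.adjoin κ {T} ∧ Transcendental κ y ∧
  (∀ τ : Ω ≃ₐ[κ] Ω, τ T = T → ∃ σ : Γ, (σ : Ω ≃+* Ω) = τ ∧ IsP (ρ σ)) ∧
  (∃ ψ : Γ, IsP (ρ ψ) ∧ (ψ : Ω ≃+* Ω) y = y ∧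
    ∀ c : κ, (ψ : Ω ≃+* Ω) (algebraMap κ Ω c) = algebraMap κ Ω (c ^ p)) ∧
  ∃ Z : Set Ω, Z.Finite ∧ (∀ (σ : Γ), ∀ z ∈ Z, (σ : Ω ≃+* Ω) z ∈ Z) ∧
    ∀ σ : Γ, (∀ z ∈ Z, (σ : Ω ≃+* Ω) z = z) → ρ σ = 1

/-- **Ari** (350 lines, uses `S_Pts`, `S_Pm`, `S_Lin`, `S_Rep`, `S_Pgl`, `S_Gam`). The arithmetic of the representation.

Proof. `s = T ^ 2 - c T`, `Φ s = s`, `Γ` by `S_Gam`, `ρ` the restriction of `S_Rep` to `Γ` (`Γ` is contained in the stabilizer of `s`). For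
`τ : Ω ≃ₐ[κ] Ω` with `τ s = s`: `τ T = T` implies `IsP (ρ τ)` (`Geo` (2), `S_Rep`, `S_Lin` (2)); `σ₃` from `Geo` (3): `ρ σ₃ = mk M`, `det M = N`, so
`¬ IsP (ρ σ₃)`; if `τ T = c - T` then `σ₃⁻¹ τ` fixes `T`, so `¬ IsP (ρ τ)`. So `IsP (ρ τ) ↔ τ T = T` (`T ≠ c - T`). Surjectivity: an element of `PSL` is the class of
`M` with `det M = 1`, use `Geo` (1); if `¬ IsP g` then `IsP (g * ρ σ₃)`. Case 1, `IsP (ρ Φ)`: `y = T`, `ψ = Φ`. Let `σ ∈ Γ`, `IsP (ρ σ)`, `τ = Φ ^ n σ` (`S_Gam`): `ρ τ = (ρ Φ) ^ n ρ σ`, so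
`IsP (ρ τ)`, `τ T = T`, `σ T = Φ ^ (-n) T = T`. Case 2, `¬ IsP (ρ Φ)`: `ψ = Φ σ₃`, `IsP (ρ ψ)`, `ψ T = c - T`. If `p ≠ 2`: `y = (T - c / 2) η`, `η ∈ κ` a root of
`X ^ (p - 1) + 1`, `η ≠ 0`, `η ^ p = - η`, `ψ y = (c / 2 - T) (- η) = y`. If `p = 2` (`N = 3`, `c = 1 / 27 = 1`): `y = T + ω`, `ω ^ 2 + ω + 1 = 0`, `ω ^ 2 = ω + 1`,
`ψ y = 1 + T + ω + 1 = y`. Let `σ ∈ Γ`, `IsP (ρ σ)`, `τ = Φ ^ n σ`: `IsP (ρ τ)` if and only if `n` is even; so `τ T = T` if `n` is even, `c - T` if `n` is odd, and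
`σ T = Φ ^ (-n) (τ T) = τ T` (`Φ` fixes `T` and `c`), `σ η = Φ ^ (-n) η = (-1) ^ n η`, resp. `σ ω = ω + n`. So `σ y = y`. `κ(y) = κ(T)`, `y` is transcendental.
`Z`: `T`, `c - T` and all the coordinates of the points of `Tl l (Ec N T)` and `Tl l (Ec N (c - T))` (finite groups: `e`, and for the second
one `ps` is an injective map to the first one, or `pm σ₃`); `σ ∈ Γ` maps the points of `E_T` to points of `E_{σ T}`. If `σ` fixes `Z` then `σ T = T`,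
`gs σ` is the identity on `Tl`, `ρ σ = 1`. -/
def S_Ari : Prop :=
  ∀ (p l N : ℕ) [Fact p.Prime] [Fact l.Prime] (κ Ω : Type) [Field κ] [IsAlgClosed κ]
    [CharP κ p] [Field Ω] [Algebra κ Ω] (T : Ω) (θ : κ) (Φ : Ω ≃+* Ω)
    (e : Tl l (Ec N T) ≃+ (Fin 2 → ZMod l)), Nm l N κ → Rt N θ → Transcendental κ T →
    (∀ c : κ, Φ (algebraMap κ Ω c) = algebraMap κ Ω (c ^ p)) → Φ T = T →
    ¬ IsSquare (N : ZMod l) → Geo l N κ Ω θ T e →
    ∃ (Γ : Subgroup (Ω ≃+* Ω)) (ρ : Γ →* PGL l) (y : Ω), Dat p l κ Ω T Γ ρ y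

/-- **Aut** (250 lines, uses `S_Pgl`; `Lib/MP_7f581e_ntS/AutPSLC.lean`, theorem `MP7fS.aut_psl2`, and the
files before it). The automorphisms of `PSL(2, l)`.

Proof. `GL(2, l)` acts on `PSL(2, l) = SL(2, l) / center` by conjugation; the kernel consists of the matrices which commute with `SL(2, l)` modulo
`± 1`: these are the scalars (if `g u g⁻¹ = ± u` for the unipotent `u = (1 1; 0 1)` then the sign is `+` by the trace (`l` is odd), the same for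
`(1 0; 1 1)`; so `g` commutes with `SL(2, l)` and it is scalar). So `PGL l → MulAut PSL` is injective; it is surjective by `aut_psl2`
(`σ : ZMod l ≃+* ZMod l` is the identity). `Θ` is the inverse. The inner automorphism of the class of `A ∈ SL(2, l)` corresponds to
`mk A`, and `IsP g` if and only if `g = mk A` with `det A = 1` (`S_Pgl` (6)). -/
def S_Aut : Prop :=
  ∀ (l : ℕ) [Fact l.Prime], 5 ≤ l →
    ∃ Θ : MulAut (Matrix.ProjectiveSpecialLinearGroup (Fin 2) (ZMod l)) ≃* PGL l,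
      ∀ g : PGL l, IsP g ↔
        ∃ s : Matrix.ProjectiveSpecialLinearGroup (Fin 2) (ZMod l), Θ (MulAut.conj s) = g

/-- **Asm** (350 lines, uses `S_Aut`). From the representation to `HasGA`.

Proof. `S = PSL(2, l)` is finite, simple (`Matrix.ProjectiveSpecialLinearGroup.rank_two_simple`, see `Lib/MP_7f581e_ntC`), not
commutative (it would be of prime order; its order is `l (l ^ 2 - 1) / 2`, or exhibit two elements). Let `Γ_Z = {σ ∈ Γ | σ = id on Z}`, a normal subgroup of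
finite index (`Γ` acts on the finite set `Z`), contained in the kernel of `ρ`. Let `L = {z ∈ Ω | σ z = z for all σ ∈ ker ρ}`, a subfield, stable under `Γ` (the kernel is normal), so `Γ / ker ρ ≃ PGL l`
acts on `L`. The action is faithful: let `E = {z | σ z = z for all σ ∈ Γ_Z}`, it contains `Z` and `L`, the finite group `G = Γ / Γ_Z` acts faithfully
on `E`, so `E / E^G` is a finite Galois extension with group `G` (Artin), `L` is the fixed field of `ker ρ / Γ_Z` in `E`, and by Galois theory the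
elements of `G` which act trivially on `L` are in `ker ρ / Γ_Z`. `j` maps into `L` (elements of the kernel have `IsP (ρ σ) = IsP 1`), so `L` is an
algebra over `RatFunc (ZMod p)`. `a = (PGL l → Aut L) ∘ Θ`. For `y ∈ L`: all `a (conj s)` fix `y` iff `σ y = y` for all `σ ∈ Γ` with `IsP (ρ σ)` (`S_Aut`) iff
`y` is in the image of `j`. -/
def S_Asm : Prop :=
  ∀ (p l : ℕ) [Fact p.Prime] [Fact l.Prime], 5 ≤ l → ∀ (Ω : Type) [Field Ω]
    (Γ : Subgroup (Ω ≃+* Ω)) (ρ : Γ →* PGL l) (j : RatFunc (ZMod p) →+* Ω) (Z : Set Ω),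
    Function.Surjective ρ → Z.Finite → (∀ (σ : Γ), ∀ z ∈ Z, (σ : Ω ≃+* Ω) z ∈ Z) →
    (∀ σ : Γ, (∀ z ∈ Z, (σ : Ω ≃+* Ω) z = z) → ρ σ = 1) →
    (∀ y : Ω, (∀ σ : Γ, IsP (ρ σ) → (σ : Ω ≃+* Ω) y = y) ↔ ∃ w, j w = y) →
    MP7K.HasGA p (Matrix.ProjectiveSpecialLinearGroup (Fin 2) (ZMod l))

/-- **FinP** (150 lines, uses `S_Tor`, `S_Bs`, `S_Omg`, `S_Fxf`, `S_Gom`, `S_Ari`, `S_Asm`). THE THEOREM.

Proof. `κ, Ω, T, Φ` by `S_Omg`; `(l : κ) ≠ 0`, `(N : κ) ≠ 0` (`CharP κ p`, primes different from `p`); `θ ∈ κ` a root. `Δ(Ec N T) ≠ 0`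
(`16 T ^ 2 (1 - 4 T)`, `T ^ 3 (1 - 27 T)`). `Tl l (Ec N T)` has `l ^ 2` elements (`S_Tor`, `Ω` is separably closed), `e` by `S_Bs`. `Geo` by `S_Gom`. `Γ, ρ, y` by `S_Ari`, `j` by
`S_Fxf` for `y`. The last hypothesis of `S_Asm`: if `z` is fixed by all `σ ∈ Γ` with `IsP (ρ σ)`, then it is fixed by all the `τ : Ω ≃ₐ[κ] Ω` with
`τ T = T`, so `z ∈ κ(T) = κ(y)` (`S_Omg` (5)), and it is fixed by `ψ`, so `z` is in the image of `j` (`S_Fxf`). Conversely let `z = j w`: `z` is a rational function of `y`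
with coefficients in the prime field, which every `σ` fixes, and `σ y = y` if `IsP (ρ σ)`; (`σ ∘ j` and `j` are two homomorphisms of `RatFunc (ZMod p)`, equal
on `X` and on constants). -/
def S_FinP : Prop :=
  ∀ (p l N : ℕ) [Fact p.Prime] [Fact l.Prime], N = 2 ∨ N = 3 → N ≠ p → l ≠ p → 5 ≤ l →
    ¬ IsSquare (N : ZMod l) →
    MP7K.HasGA p (Matrix.ProjectiveSpecialLinearGroup (Fin 2) (ZMod l))

end MP7Sh
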