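import Pool.Agent.Lib.MP_7f581e_Sh.Val

/-!
# MP_7f581e_nt, GA realizations of `PSL(2, l)`: elliptic curves, division polynomials

The complete proof of the theorem is in `TEXT.md`.  Every module is independent (used statements are
hypotheses): file `Lib/MP_7f581e_Sh/<Name>.lean` (import the Spec file which contains the statement only)
with `theorem t<Name> : S_<Name>` or `theorem t<Name> (h1 : S_X) (h2 : S_Y) .. : S_<Name>` (in the
order of the docstring), namespace `MP7Sh`, `set_option autoImplicit false`, other declarations `private`.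
Use `open scoped Classical` (the group structure on the points uses the classical decidable equality).
`O = 0` is the point at infinity, `f_n = mf W n`, `g_n = mg W n`; the lemmas on valuations are in
`Val.lean`.  For the curves `y ^ 2 = f(x)` most of the statements of this file are proved in
`Lib/MP_72e2e6_nt/WP/El/{Pts,Bas,AS,Deg,Prm,Gn,Mul}.lean` (statements in `Spec.lean` there): adapt these proofs.
-/

set_option autoImplicit false

namespace MP7Sh

open Polynomial WeierstrassCurve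

open scoped Classical

/-- **Pts** (250 lines). The group law.

Proof. Unfold the definitions of Mathlib (`Affine/Formula.lean`, `Affine/Point.lean`: `equation_iff`,
`slope_of_X_ne`, `slope_of_Y_ne`, `add_some`, `addX`, `negAddY`, `addY`, `negY x y = - y - a₁ x - a₃`); a point of the curve
is nonsingular as `Δ ≠ 0` (`equation_iff_nonsingular_of_Δ_ne_zero`). (6): the two solutions `y` for a given `x` are
`y`, `negY x y`. (7), (8): chord and tangent, the slope `m` is given by an equation. (9): `y = negY x y`. (10): a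
nonsingular point. (11): `p2 ^ 2` is the given polynomial (`Ψ₂Sq`), and by (8) `x(2 P) = m ^ 2 + a₁ m - a₂ - 2 x`;
multiply by `p2 ^ 2` and use the equation (`linear_combination`). -/
def S_Pts : Prop :=
  ∀ (L : Type) [Field L] (W : WeierstrassCurve L), W.Δ ≠ 0 →
    (∀ P : W.toAffine.Point, P = 0 ∨ ∃ x y, At P x y) ∧
    (∀ (P : W.toAffine.Point) (x y : L), At P x y → P ≠ 0 ∧ px P = x ∧ py P = y ∧
      y ^ 2 + W.a₁ * x * y + W.a₃ * y = x ^ 3 + W.a₂ * x ^ 2 + W.a₄ * x + W.a₆) ∧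
    (∀ x y : L, y ^ 2 + W.a₁ * x * y + W.a₃ * y = x ^ 3 + W.a₂ * x ^ 2 + W.a₄ * x + W.a₆ →
      ∃ P : W.toAffine.Point, At P x y) ∧
    (∀ (P Q : W.toAffine.Point) (x y : L), At P x y → At Q x y → P = Q) ∧
    (∀ (P : W.toAffine.Point) (x y : L), At P x y → At (-P) x (-y - W.a₁ * x - W.a₃)) ∧
    (∀ (P Q : W.toAffine.Point) (x y y' : L), At P x y → At Q x y' → Q = P ∨ Q = -P) ∧
    (∀ (P Q : W.toAffine.Point) (x y x' y' m : L), At P x y → At Q x' y' → x ≠ x' →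
      m * (x - x') = y - y' →
      At (P + Q) (m ^ 2 + W.a₁ * m - W.a₂ - x - x')
        (-(m * ((m ^ 2 + W.a₁ * m - W.a₂ - x - x') - x) + y) -
          W.a₁ * (m ^ 2 + W.a₁ * m - W.a₂ - x - x') - W.a₃)) ∧
    (∀ (P : W.toAffine.Point) (x y m : L), At P x y → p2 W x y ≠ 0 →
      m * p2 W x y = 3 * x ^ 2 + 2 * W.a₂ * x + W.a₄ - W.a₁ * y →
      At (P + P) (m ^ 2 + W.a₁ * m - W.a₂ - x - x)
        (-(m * ((m ^ 2 + W.a₁ * m - W.a₂ - x - x) - x) + y) -
          W.a₁ * (m ^ 2 + W.a₁ * m - W.a₂ - x - x) - W.a₃)) ∧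
    (∀ (P : W.toAffine.Point) (x y : L), At P x y → (P + P = 0 ↔ p2 W x y = 0)) ∧
    (∀ (P : W.toAffine.Point) (x y : L), At P x y → p2 W x y = 0 →
      3 * x ^ 2 + 2 * W.a₂ * x + W.a₄ - W.a₁ * y ≠ 0) ∧
    (∀ (P : W.toAffine.Point) (x y : L), At P x y →
      p2 W x y ^ 2 = 4 * x ^ 3 + W.b₂ * x ^ 2 + 2 * W.b₄ * x + W.b₆) ∧
    ∀ (P : W.toAffine.Point) (x y x' y' : L), At P x y → At (P + P) x' y' →
      x' * (4 * x ^ 3 + W.b₂ * x ^ 2 + 2 * W.b₄ * x + W.b₆) =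
        x ^ 4 - W.b₄ * x ^ 2 - 2 * W.b₆ * x - W.b₈

/-- **Pm** (200 lines, uses `S_Pts`). Homomorphisms of fields.

Proof. `(f x, f y)` satisfies the equation of `W.map f` (`W.map f` has the coefficients `f aᵢ`,
`Δ(W.map f) = f Δ ≠ 0`). Additivity: the cases `P = 0`, `Q = 0`, `Q = - P`, `P = Q`, `px P ≠ px Q`, with `S_Pts` (5)-(9)
for both curves (the slope of the images is `f m`). (6) `(x, y)` satisfies the equation as `f` is
injective. -/
def S_Pm : Prop :=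
  ∀ (L M : Type) [Field L] [Field M] (f : L →+* M) (W : WeierstrassCurve L)
    (W' : WeierstrassCurve M), W.Δ ≠ 0 → W' = W.map f →
    pm W W' f 0 = 0 ∧
    (∀ (P : W.toAffine.Point) (x y : L), At P x y → At (pm W W' f P) (f x) (f y)) ∧
    (∀ P Q : W.toAffine.Point, pm W W' f (P + Q) = pm W W' f P + pm W W' f Q) ∧
    (∀ P : W.toAffine.Point, pm W W' f (-P) = -pm W W' f P) ∧
    (∀ P Q : W.toAffine.Point, pm W W' f P = pm W W' f Q → P = Q) ∧
    (∀ (Q : W'.toAffine.Point) (x y : L), At Q (f x) (f y) →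
      ∃ P : W.toAffine.Point, At P x y ∧ pm W W' f P = Q) ∧
    (∀ (n : ℕ) (P : W.toAffine.Point), pm W W' f (n • P) = n • pm W W' f P) ∧
    (∀ P : W.toAffine.Point, pm W W id P = P) ∧
    ∀ (N : Type) [Field N] (g : M →+* N) (W'' : WeierstrassCurve N), W'' = W'.map g →
      ∀ P : W.toAffine.Point, pm W' W'' g (pm W W' f P) = pm W W'' (fun x => g (f x)) P

/-- **Cv** (200 lines, uses `S_Pts`). Changes of coordinates.

Proof. `(x', y') = (u ^ 2 (x - r), u ^ 3 (y - s))` satisfies the equation of `tr W u r s` (`ring`; the equation is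
multiplied by `u ^ 6`), `Δ(tr W u r s) = u ^ 12 Δ(W)` (`ring` after unfolding `Δ`, `b₂`, .. and `tr`).
Additivity: cases as in `S_Pm`; the slopes satisfy `m' = u m`. Naturality: compare coordinates. -/
def S_Cv : Prop :=
  ∀ (L : Type) [Field L] (W : WeierstrassCurve L) (u r s : L), W.Δ ≠ 0 → u ≠ 0 →
    (tr W u r s).Δ = u ^ 12 * W.Δ ∧
    cv W u r s 0 = 0 ∧
    (∀ (P : W.toAffine.Point) (x y : L), At P x y →
      At (cv W u r s P) (u ^ 2 * (x - r)) (u ^ 3 * (y - s)) ∧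
      p2 (tr W u r s) (u ^ 2 * (x - r)) (u ^ 3 * (y - s)) = u ^ 3 * p2 W x y) ∧
    (∀ P Q : W.toAffine.Point, cv W u r s (P + Q) = cv W u r s P + cv W u r s Q) ∧
    (∀ P Q : W.toAffine.Point, cv W u r s P = cv W u r s Q → P = Q) ∧
    (∀ Q : (tr W u r s).toAffine.Point, ∃ P : W.toAffine.Point, cv W u r s P = Q) ∧
    ∀ f : L →+* L, W.map f = W → f u = u → f r = r → f s = s →
      (tr W u r s).map f = tr W u r s ∧
      ∀ P : W.toAffine.Point, cv W u r s (pm W W f P) =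
        pm (tr W u r s) (tr W u r s) f (cv W u r s P)

/-- **AS** (300 lines, uses `S_Pts`). The abscissae of `P + Q` and `P - Q`.

Proof. Here `P = (u : v)`, `Q = (u' : v')`, `P + Q = (r : t)`, `P - Q = (r' : t')` (abscissae). Both sides of
the claim are homogeneous in each of the four pairs, so one may replace each pair by `(x, 1)`, resp. `(1, 0)`.
`P = O`: `P + Q = Q`, `P - Q = - Q` have the abscissa `(u' : v')`, and the three forms at
`(s, m, w) = (u', v', 0)` are `u' ^ 2, 2 u' v', v' ^ 2`. `Q = O`: the same. Both affine, `x ≠ x'`: `c = (x - x')⁻²`: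
with the slopes `m₁ = (y - y') / (x - x')`, `m₂ = (y - ȳ') / (x - x')`, `ȳ' = - y' - a₁ x' - a₃`,
`x(P ± Q) = mᵢ ^ 2 + a₁ mᵢ - a₂ - x - x'`; multiply by `(x - x') ^ 2` (the product by the fourth power) and use
the equations of the curve for `(x, y)`, `(x', y')`. `x = x'`: `Q = ± P`
and by symmetry (`P - Q ↔ P + Q`) let `Q = P`, `P - Q = O`. If `p2(P) ≠ 0`: `S_Pts` (11), (12); the three forms at
`(x ^ 2, 2 x, 1)` are `x ^ 4 - b₄ x ^ 2 - 2 b₆ x - b₈`, `4 x ^ 3 + b₂ x ^ 2 + 2 b₄ x + b₆`, `0`. If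
`p2(P) = 0`: `2 P = O`, the second form vanishes and the first is not zero (otherwise `Δ = 0`: Mathlib
`addSubMap_ne_zero`, or `addSubMapCoeff_condition` for the vector `(x ^ 2, 2 x, 1)`). -/
def S_AS : Prop :=
  ∀ (L : Type) [Field L] (W : WeierstrassCurve L), W.Δ ≠ 0 →
    ∀ (P Q : W.toAffine.Point) (u v u' v' r t r' t' s m w : L), Rp P u v → Rp Q u' v' →
      Rp (P + Q) r t → Rp (P - Q) r' t' → s = u * u' → m = u * v' + v * u' → w = v * v' →
      ∃ c : L, c ≠ 0 ∧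
        r * r' = c * (s ^ 2 - W.b₄ * s * w - W.b₆ * m * w - W.b₈ * w ^ 2) ∧
        r * t' + t * r' = c * (2 * m * s + W.b₂ * s * w + W.b₄ * m * w + W.b₆ * w ^ 2) ∧
        t * t' = c * (m ^ 2 - 4 * s * w)

/-- **Deg** (250 lines). Degrees; compatibility with ring homomorphisms.

Proof. (1)-(4) by two-step induction. `n = 0, 1` are clear. Let `e = (n + 1) ^ 2`; `f_{n+1}` is monic of degree `e`,
`deg g_{n+1} ≤ e - 1` with coefficient `e` there. Then `X f_{n+1}` is monic of degree `e + 1`, `deg (f_{n+1} + X g_{n+1}) ≤ e`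
with coefficient `1 + e` of `X ^ e`, so `A0` is monic of degree `2 e + 2` and `deg A1 ≤ 2 e + 1` with coefficient
`2 (1 + e)` there. Division by the monic `f_n` of degree `n ^ 2`: `2 e + 2 - n ^ 2 = (n + 2) ^ 2`, the quotient is monic
(`leadingCoeff_divByMonic_of_monic`, `natDegree_divByMonic`). `A1 - f_{n+2} g_n` has degree at most
`2 e + 1` with coefficient `2 (1 + e) - n ^ 2 = (n + 2) ^ 2` there (`(n + 2) ^ 2 + n ^ 2 - 1 = 2 e + 1`; `g_0 = 0`), and
`2 e + 1 - n ^ 2 = (n + 2) ^ 2 - 1`: the coefficient of the quotient by a monic polynomial. (5) by induction,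
`Polynomial.map_divByMonic`. (Model: `WP/El/Deg.lean`.) -/
def S_Deg : Prop :=
  (∀ (R : Type) [CommRing R] [Nontrivial R] (W : WeierstrassCurve R) (n : ℕ),
    (mf W n).Monic ∧ (mf W n).natDegree = n ^ 2 ∧ (mg W n).degree < (mf W n).degree ∧
      (1 ≤ n → (mg W n).coeff (n ^ 2 - 1) = (n : R) ^ 2)) ∧
  ∀ (R S : Type) [CommRing R] [CommRing S] [Nontrivial S] (φ : R →+* S)
    (W : WeierstrassCurve R) (n : ℕ),
    mf (W.map φ) n = (mf W n).map φ ∧ mg (W.map φ) n = (mg W n).map φ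

/-- **Prm** (150 lines). Primitive triples.

Proof. (1) `W' = W.map C` over `K[X]` has the unit discriminant `C Δ`, so it is elliptic. Let
`v = ![X f, f + X g, g]`; the values of `W'.addSubMap` at `v` are `A0, A1, (f - X g) ^ 2`
(as `(f + X g) ^ 2 - 4 X f g = (f - X g) ^ 2`). If an
irreducible, hence prime, `π` divides all of them, then by `WeierstrassCurve.addSubMapCoeff_condition`
it divides `v i ^ 4`, hence `v i`, for all `i`: `π ∣ g`, `π ∣ f + X g`, so `π ∣ f`, contradicting coprimality.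
(2) If `π` divides `f₁ f₂`, `f₁ g₂ + g₁ f₂`, `g₁ g₂`: say `π ∣ f₁`; then `π ∤ g₁`, so `π ∣ g₂`, `π ∤ f₂`, but
`π ∣ g₁ f₂`, a contradiction; `π ∣ f₂` is symmetric. (3) Write `c = r / s` with coprime `r, s : K[X]`, `s ≠ 0`
(`RatFunc.num`, `RatFunc.denom`), so `s u_i = r w_i`. An irreducible factor of `r` divides every `u_i`, an
irreducible factor of `s` every `w_i`; so `r, s` are units, i.e. nonzero constants. (Model: `WP/El/Prm.lean`.) -/
def S_Prm : Prop :=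
  ∀ (K : Type) [Field K],
    (∀ W : WeierstrassCurve K, W.Δ ≠ 0 → ∀ f g : K[X], IsCoprime f g →
      ∀ π : K[X], Irreducible π → ¬ (π ∣ A0 W f g ∧ π ∣ A1 W f g ∧ π ∣ (f - X * g) ^ 2)) ∧
    (∀ f₁ g₁ f₂ g₂ : K[X], IsCoprime f₁ g₁ → IsCoprime f₂ g₂ → ∀ π : K[X], Irreducible π →
      ¬ (π ∣ f₁ * f₂ ∧ π ∣ f₁ * g₂ + g₁ * f₂ ∧ π ∣ g₁ * g₂)) ∧
    ∀ (u₀ u₁ u₂ w₀ w₁ w₂ : K[X]) (c : RatFunc K), c ≠ 0 →
      (∀ π : K[X], Irreducible π → ¬ (π ∣ u₀ ∧ π ∣ u₁ ∧ π ∣ u₂)) →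
      (∀ π : K[X], Irreducible π → ¬ (π ∣ w₀ ∧ π ∣ w₁ ∧ π ∣ w₂)) →
      algebraMap K[X] (RatFunc K) u₀ = c * algebraMap K[X] (RatFunc K) w₀ →
      algebraMap K[X] (RatFunc K) u₁ = c * algebraMap K[X] (RatFunc K) w₁ →
      algebraMap K[X] (RatFunc K) u₂ = c * algebraMap K[X] (RatFunc K) w₂ →
      ∃ e : K, e ≠ 0 ∧ u₀ = C e * w₀ ∧ u₁ = C e * w₁ ∧ u₂ = C e * w₂

/-- **Gn** (300 lines, uses `S_Pts`, `S_Pm`, `S_AS`, `S_Deg`, `S_Prm`). The recursion is exact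
(generic point).

Proof. `A2 = (f_{n+1} - X g_{n+1}) ^ 2`. Let `Ω = AlgebraicClosure (RatFunc K)` (an algebra over `K`), `x₀ ∈ Ω` the
image of `X`, `y₀` a root of the equation, `P₀ = (x₀, y₀) ∈ W(Ω)` (the curve `W.map (algebraMap K Ω)`). By two-step induction: `f_n, g_n` are coprime,
`Rp (n P₀) (f_n(x₀)) (g_n(x₀))` (values by `aeval x₀`), and the three identities hold for all smaller indices.
`n = 0`: `(1, 0)`; `n = 1`: `(x₀, 1)`. Step: let `(r, t)` be a pair with `Rp ((n + 2) P₀) r t` (`(1, 0)` or `(x, 1)`).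
`S_AS` for `(n + 1) P₀` and `P₀` with the pairs `(f_{n+1}(x₀), g_{n+1}(x₀))`, `(x₀, 1)`, `(r, t)`,
`(f_n(x₀), g_n(x₀))`: after replacing `(r, t)` by `(r, t) / c`
`r f_n = A0, r g_n + t f_n = A1, t g_n = A2` (values at `x₀`). `f_n(x₀) ≠ 0` (monic, `x₀` transcendental: `RatFunc K`
is the fraction field of `K[X]`). So `r = A0 / f_n` and `t = (A1 - r g_n) / f_n` are in `RatFunc K`; not both
zero. Multiply by a common denominator and divide by a gcd: `(r, t) = λ (a, b)` with `λ ∈ RatFunc K` not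
zero, `a, b ∈ K[X]` coprime. Hence `(A0, A1, A2) = λ (a f_n, a g_n + b f_n, b g_n)`; both triples are
primitive (`S_Prm` (1), (2)), so by `S_Prm` (3) `λ = e` is a constant (up to this: `A0 = e a f_n`, ..). Since
`f_n` is monic: `f_{n+2} = A0 /ₘ f_n = e a` and `g_{n+2} = (A1 - f_{n+2} g_n) /ₘ f_n = e b`.
(Model: `WP/El/Gn.lean`.) -/
def S_Gn : Prop :=
  ∀ (K : Type) [Field K] (W : WeierstrassCurve K), W.Δ ≠ 0 → ∀ n : ℕ,
    IsCoprime (mf W n) (mg W n) ∧
    mf W (n + 2) * mf W n = A0 W (mf W (n + 1)) (mg W (n + 1)) ∧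
    mf W (n + 2) * mg W n + mg W (n + 2) * mf W n = A1 W (mf W (n + 1)) (mg W (n + 1)) ∧
    mg W (n + 2) * mg W n = (mf W (n + 1) - X * mg W (n + 1)) ^ 2

/-- **Mul** (200 lines, uses `S_Pts`, `S_AS`, `S_Deg`, `S_Gn`). The abscissa of `n P`.

Proof. Two-step induction on `n` for a fixed `P = (x, y)`. `n = 0`: `(1, 0)`; `n = 1`: `(x, 1)`. Step: let
`Rp ((n + 2) P) r t`. `S_AS` for `(n + 1) P` and `P` with the pairs `(f_{n+1}(x), g_{n+1}(x))`, `(x, 1)`,
`(f_n(x), g_n(x))` for `n P`: `s = x f_{n+1}(x)`, `m = f_{n+1}(x) + x g_{n+1}(x)`, `w = g_{n+1}(x)`, so the three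
forms are the values at `x` of `A0`, `A1`, `(f_{n+1} - X g_{n+1}) ^ 2` and by `S_Gn`
`r f_n(x) = c f_{n+2}(x) f_n(x)`, `r g_n(x) + t f_n(x) = c (f_{n+2}(x) g_n(x) + g_{n+2}(x) f_n(x))`,
`t g_n(x) = c g_{n+2}(x) g_n(x)`. As `(f_n(x), g_n(x)) ≠ 0` this gives `r = c f_{n+2}(x)`, `t = c g_{n+2}(x)`.
(3), (4) from (1) and the definition of `Rp`. (Model: `WP/El/Mul.lean`.) -/
def S_Mul : Prop :=
  ∀ (L : Type) [Field L] (W : WeierstrassCurve L), W.Δ ≠ 0 →
    ∀ (P : W.toAffine.Point) (x y : L), At P x y → ∀ n : ℕ,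
      Rp (n • P) ((mf W n).eval x) ((mg W n).eval x) ∧
      (n • P = 0 ↔ (mg W n).eval x = 0) ∧
      ∀ x' y' : L, At (n • P) x' y' → x' * (mg W n).eval x = (mf W n).eval x

/-- **Tor** (300 lines, uses `S_Pts`, `S_Deg`, `S_Gn`, `S_Mul`). The points with `n P = 0` over a separably
closed field.

Proof. `L` is infinite. (i) For all but finitely many `x₀ ∈ L` the polynomial `H = f_n - x₀ g_n`, monic of degree
`n ^ 2`, has `n ^ 2` different roots in `L`, and at every root `x₁` `g_n(x₁) ≠ 0`, `d(x₁) ≠ 0`, where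
`d = 4 X ^ 3 + b₂ X ^ 2 + 2 b₄ X + b₆`; also `d(x₀) ≠ 0`. Indeed let `Ω` be an algebraic closure of `L`. A multiple root
`x₁ ∈ Ω` of `H` is a root of `D = f_n' g_n - f_n g_n'`; the coefficient of `X ^ (2 n ^ 2 - 2)` in `D` is
`n ^ 2 * n ^ 2 - (n ^ 2 - 1) n ^ 2 = n ^ 2 ≠ 0` (`S_Deg`), so `D ≠ 0` has finitely many roots `x₁`, and `g_n(x₁) ≠ 0` (`f_n`, `g_n`
are coprime), so `x₀ = f_n(x₁) / g_n(x₁)` is one of finitely many elements. `d ≠ 0` as a polynomial (if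
`2 ≠ 0` the leading coefficient is not zero; if `2 = 0` then `d = b₂ X ^ 2 + b₆`, `b₂ = a₁ ^ 2`, `b₆ = a₃ ^ 2`, and
`a₁ = a₃ = 0` implies `Δ = 0`), so `d(x₁) = 0` for finitely many `x₁`, each of which belongs to one `x₀`. If `H` has no
multiple root in `Ω` it is separable and splits over `L` (`IsSepClosed`).
(ii) For `x ∈ L` with `d(x) ≠ 0` there is `y ∈ L` with `(x, y) ∈ W(L)`: the quadratic polynomial
`Y ^ 2 + (a₁ x + a₃) Y - (x ^ 3 + ..)` has the discriminant `d(x) ≠ 0`, so it is separable (its derivative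
`2 Y + (a₁ x + a₃)` has the square `d(x)` modulo the polynomial). (iii) Choose `x₀` as in (i) and
`Q = (x₀, y₀)`, `Q ≠ - Q`. For a root `x₁` of `H` take `P = (x₁, y₁)`; `n P` has the abscissa `x₀` (`S_Mul`), so
`n P = Q` or `n (-P) = Q`, exactly one of them. So the fibre of `n` over `Q` has exactly `n ^ 2` elements (every
element of the fibre has an abscissa which is a root of `H`), and the fibres over `Q` and `0` are in bijection
(`P ↦ P - P₁`). -/
def S_Tor : Prop :=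
  ∀ (L : Type) [Field L] [IsSepClosed L] (W : WeierstrassCurve L), W.Δ ≠ 0 →
    ∀ n : ℕ, (n : L) ≠ 0 → Nat.card {P : W.toAffine.Point // n • P = 0} = n ^ 2

/-- **Bs** (100 lines). Groups of order `l ^ 2` and exponent `l`.

Proof. `G` is a vector space over `ZMod l` (`AddCommGroup.zmodModule`) with `l ^ 2` elements, so of
dimension `2` (`Module.card_eq_pow_finrank`), choose a basis. `G` is finite since `Nat.card G ≠ 0`. -/
def S_Bs : Prop :=
  ∀ (l : ℕ) [Fact l.Prime] (G : Type) [AddCommGroup G], (∀ x : G, l • x = 0) →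
    Nat.card G = l ^ 2 → Nonempty (G ≃+ (Fin 2 → ZMod l))

/-- **Int** (150 lines, uses `S_Pts`, `S_Deg`, `S_Mul`). Torsion points are integral.

Proof. Let `O = hv.ring` (`Ord.ring`, the valuation ring), `W₀` the curve over `O` with `W₀.map O.subtype = W`. By
`S_Deg` `g_n = mg W n` is the image of `mg W₀ n`, so its coefficients are in `O`, its degree is at most
`n ^ 2 - 1` and the coefficient of `X ^ (n ^ 2 - 1)` is `n ^ 2`, a unit (`n ≥ 1` as `(n : F) ≠ 0`). `n P = 0` implies `g_n(x) = 0`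
(`S_Mul` (2)). If `v(x) < 0` then the term `n ^ 2 x ^ (n ^ 2 - 1)` has a strictly smaller valuation than all the other
terms, so the sum is not zero (if `n = 1`: `g_1 = 1`). So `Ge v 0 x`. Then `Ge v 0 y`: otherwise in
`y ^ 2 = x ^ 3 + .. - (a₁ x + a₃) y` the left hand side has a strictly smaller valuation. -/
def S_Int : Prop :=
  ∀ (F : Type) [Field F] (v : F → ℤ), Ord v → ∀ W : WeierstrassCurve F, W.Δ ≠ 0 → It v W →
    ∀ n : ℕ, Is v 0 (n : F) → ∀ (P : W.toAffine.Point) (x y : F), n • P = 0 → At P x y →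
      Ge v 0 x ∧ Ge v 0 y

/-- **Ns** (150 lines, uses `S_Pts`, `S_Int`). At a point of odd order whose reduction is nonsingular
`2 y + a₁ x + a₃` is a unit.

Proof. `x, y` are integral, so `p = p2 W x y` is integral. `2 P ≠ 0` (`l P = 0`, `l` is odd, `P ≠ 0`), so
`2 P = (x', y')` with `x'` integral (`S_Int`) and `x' d = e`, `d = p ^ 2 = 4 x ^ 3 + b₂ x ^ 2 + 2 b₄ x + b₆`,
`e = x ^ 4 - b₄ x ^ 2 - 2 b₆ x - b₈` (`S_Pts` (11), (12)). Suppose `Ge v 1 p`; then `Ge v 1 d`, `Ge v 1 e`. In the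
first case (`Δ` is a unit): the identity `A e + B d = Δ` with polynomials `A`, `B` in `x` and the `bᵢ`
with integer coefficients (explicitly, by `WeierstrassCurve.addSubMapCoeff` with `i = 2` at `(s, t, u) = (x ^ 2, 2 x, 1)`:
`A = - 12 (2 x) ^ 2 - 4 b₂ (2 x) + b₂ ^ 2 - 32 b₄`,
`B = 6 x ^ 2 (2 x) - b₂ x ^ 2 - 5 b₄ (2 x) + b₂ b₄ - 27 b₆`; check `A e + B d = Δ` with `b_relation`:
`4 b₈ = b₂ b₆ - b₄ ^ 2`) gives `Ge v 1 Δ`, a contradiction. In the second case `Ge v 1 b₄`, `Ge v 1 b₆`, `Ge v 1 b₈`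
(`b₄ = 2 a₄ + a₁ a₃`, `b₆ = a₃ ^ 2 + 4 a₆`, `b₈ = a₁ ^ 2 a₆ + 4 a₂ a₆ - a₁ a₃ a₄ + a₂ a₃ ^ 2 - a₄ ^ 2`), and
`x ^ 4 = e + ..` would be in the maximal ideal, but `x` is a unit. -/
def S_Ns : Prop :=
  ∀ (F : Type) [Field F] (v : F → ℤ), Ord v → ∀ W : WeierstrassCurve F, W.Δ ≠ 0 → It v W →
    ∀ l : ℕ, Odd l → Is v 0 (l : F) → ∀ (P : W.toAffine.Point) (x y : F), l • P = 0 →
      At P x y → (Is v 0 W.Δ ∨ ∃ M, Mu v M W ∧ Is v 0 x) → Is v 0 (p2 W x y)

/-- **Red** (150 lines, uses `S_Pts`, `S_Int`, `S_Ns`). Points of odd order with the same nonsingular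
reduction are equal.

Proof. Suppose `P ≠ P'`, `Q = P - P' ≠ 0`, `l Q = 0`. `p = p2 W x y` is a unit (`S_Ns`). If `x = x'`: `P' = - P` (`S_Pts` (6)),
`y' = - y - a₁ x - a₃`, `y - y' = p` is a unit, a contradiction. If `x ≠ x'`: `- P' = (x', ȳ)`,
`ȳ = - y' - a₁ x' - a₃`; the slope is `m = (y - ȳ) / (x - x')`,
`y - ȳ = p - (y - y') - a₁ (x - x')` is a unit and `Ge v 1 (x - x')`, so `v(m) < 0` and
`x(Q) = m ^ 2 + a₁ m - a₂ - x - x'` has the valuation `2 v(m) < 0`, contradicting `S_Int` for `Q`. -/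
def S_Red : Prop :=
  ∀ (F : Type) [Field F] (v : F → ℤ), Ord v → ∀ W : WeierstrassCurve F, W.Δ ≠ 0 → It v W →
    ∀ l : ℕ, Odd l → Is v 0 (l : F) → ∀ (P P' : W.toAffine.Point) (x y x' y' : F),
      l • P = 0 → l • P' = 0 → At P x y → At P' x' y' → Ge v 1 (x - x') → Ge v 1 (y - y') →
      (Is v 0 W.Δ ∨ ∃ M, Mu v M W ∧ Is v 0 x) → P = P'

/-- **Gnb** (200 lines, uses `S_Pts`, `S_Deg`, `S_Gn`, `S_Mul`, `S_Int`, `S_Red`). Reduction of the abscissae
of torsion points.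

Proof. (1) Let `O = hv.ord.ring`, `ρ = hv.rs : O →+* κ` the residue map (`Val.lean`), `W₀` over `O` with image `W`; then
`W₀.map ρ = Wb` (`Kr.uniq`). `f_n(x) = x₁ g_n(x)` (`S_Mul` (3)), all in `O` (`x, x₁` integral by `S_Int`), and
`mf Wb n`, `mg Wb n` are the images of `mf W₀ n`, `mg W₀ n` (`S_Deg`); apply `ρ` (`ρ x = xb`, `ρ x₁ = x1b`). If
`g_n(xb) = 0` then `f_n(xb) = 0`, but `mf Wb n`, `mg Wb n` are coprime (`S_Gn`). (2) `P = (x, y)`, `Q = (x', y')`: the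
residues of `y`, `y'` are roots of the same quadratic polynomial with the roots `yb`, `- yb - a₁ xb - a₃`; so `Q` or
`- Q` has the same reduction as `P`; `S_Red`. -/
def S_Gnb : Prop :=
  ∀ (κ F : Type) [Field κ] [Field F] [Algebra κ F] (v : F → ℤ), Kr κ v →
    ∀ (W : WeierstrassCurve F) (Wb : WeierstrassCurve κ), W.Δ ≠ 0 → It v W → Is v 0 W.Δ →
    Wb.Δ ≠ 0 → Ge v 1 (W.a₁ - algebraMap κ F Wb.a₁) → Ge v 1 (W.a₂ - algebraMap κ F Wb.a₂) →
    Ge v 1 (W.a₃ - algebraMap κ F Wb.a₃) → Ge v 1 (W.a₄ - algebraMap κ F Wb.a₄) →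
    Ge v 1 (W.a₆ - algebraMap κ F Wb.a₆) → ∀ l : ℕ, Odd l → Is v 0 (l : F) →
    (∀ (n : ℕ) (P : W.toAffine.Point) (x y x₁ y₁ : F) (xb x1b : κ), l • P = 0 → At P x y →
      At (n • P) x₁ y₁ → Ge v 1 (x - algebraMap κ F xb) → Ge v 1 (x₁ - algebraMap κ F x1b) →
      (mf Wb n).eval xb = x1b * (mg Wb n).eval xb ∧ (mg Wb n).eval xb ≠ 0) ∧
    ∀ (P Q : W.toAffine.Point) (x y x' y' : F) (xb : κ), l • P = 0 → l • Q = 0 → At P x y →
      At Q x' y' → Ge v 1 (x - algebraMap κ F xb) → Ge v 1 (x' - algebraMap κ F xb) →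
      P = Q ∨ P = -Q

/-- **Scl** (150 lines, uses `S_Deg`, `S_Gn`). An endomorphism of degree two or three is not a scalar.

Proof. `H = A * mg W c - B * mf W c` has degree at most `c ^ 2 + 2` (`deg A ≤ 3`, `deg (mg W c) ≤ c ^ 2 - 1`, `deg B ≤ 2`,
`deg (mf W c) = c ^ 2`) and vanishes on `S`. `c ≤ (l - 1) / 2` and `l ≥ 5`:
`c ^ 2 + 2 ≤ (l - 1) ^ 2 / 4 + 2 < (l ^ 2 - 1) / 2 ≤ |S|` since `(l - 1) (l + 3) ≥ 32 > 8`; so `H = 0`. `mf W c` and `mg W c` are
coprime, so `mf W c ∣ A`, `A ≠ 0`, so `c ^ 2 ≤ 3`, `c = 1`, `mf W 1 = X ∣ A`, `A.coeff 0 = 0`, a contradiction. -/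
def S_Scl : Prop :=
  ∀ (κ : Type) [Field κ] (W : WeierstrassCurve κ), W.Δ ≠ 0 → ∀ (l c : ℕ), 5 ≤ l → 1 ≤ c →
    2 * c < l → ∀ (A B : κ[X]), A.natDegree ≤ 3 → B.natDegree ≤ 2 → A.coeff 0 ≠ 0 →
    ∀ S : Finset κ, l ^ 2 ≤ 2 * S.card + 1 →
    ¬ ∀ x ∈ S, A.eval x * (mg W c).eval x = B.eval x * (mf W c).eval x

end MP7Sh
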