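import Pool.Agent.Lib.MP_7f581e_Sh.SpecL

/-!
# MP_7f581e_nt, GA realizations of `PSL(2, l)`: the geometric image

Conventions as in `SpecE.lean` (`import Pool.Agent.Lib.MP_7f581e_Sh.SpecG`). `F` is a finite Galois extension of
`κ(T)` (and of `κ(s)`, `s = T ^ 2 - c T`), `ρ ∈ F` with `ρ ^ k T = 1`, and all the points of order `l` of `Ec N T` are
defined over `F` (this is the existence of `e`).
-/

set_option autoImplicit false

namespace MP7Sh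

open Polynomial WeierstrassCurve

open scoped Classical

/-- **Prd** (250 lines, uses `S_Pts`, `S_Pm`, `S_Cst`, `S_Inf`, `S_Plx`). The global product formula.

Proof. `z = ∏_{P ∈ S} p2(P)` (`p2(P) = p2 W (px P) (py P)`), `W = Ec N T`. `p2(P) ≠ 0` (`S_Inf` (2) for the place at infinity of `S_Plx`,
every `P ∈ S` is affine). For `σ T = T`: `σ (p2(P)) = p2(σ P)`, and `P ↦ σ P` is a permutation of `S` (injective), so
`σ z = z`. For every `b ∈ κ` there is a place `v` with `v(z) = 0` (hypothesis). By `S_Cst` `z = c ∈ κ`, `c ≠ 0`, so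
`v(z) = 0` for the place at infinity; but `v(z) = ∑ v(p2(P)) < 0`. -/
def S_Prd : Prop :=
  ∀ (l N : ℕ) [Fact l.Prime] (κ F : Type) [Field κ] [IsAlgClosed κ] [Field F] [Algebra κ F]
    (T ρ : F) (e : Tl l (Ec N T) ≃+ (Fin 2 → ZMod l)), Nm l N κ → Gx κ T →
    ρ ^ kk N * T = 1 → ∀ S : Finset (Tl l (Ec N T)), S.Nonempty → (0 : Tl l (Ec N T)) ∉ S →
    (∀ σ : F ≃ₐ[κ] F, σ T = T → ∀ P ∈ S, ∃ Q ∈ S,
      pm (Ec N T) (Ec N T) σ (P : (Ec N T).toAffine.Point) = (Q : (Ec N T).toAffine.Point)) →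
    ¬ ∀ b : κ, ∃ v : F → ℤ, Plc κ T (T - algebraMap κ F b) v ∧ ∀ P ∈ S, ∀ x y : F,
      At (P : (Ec N T).toAffine.Point) x y → Is v 0 (p2 (Ec N T) x y)

/-- **Unx** (150 lines, uses `S_Plx`, `S_Lin`, `S_LcG`, `S_LcM`, `S_Prd`). A unipotent element.

Proof. For every `b ∈ κ` choose a place `v_b` (`S_Plx`); `Loc` holds (`S_LcG`, `S_LcM`). If the first alternative of `Loc.c` holds for all `b`
then `S_Prd` for `S = Tl - {0}` (a finite set, `e`) gives a contradiction. So for some `b` the second alternative of (c)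
holds: `σ`, with the matrix `M ≠ 1` (`S_Lin`), `(M - 1) (M - 1) = 0` by (a). -/
def S_Unx : Prop :=
  ∀ (l N : ℕ) [Fact l.Prime] (κ F : Type) [Field κ] [IsAlgClosed κ] [Field F] [Algebra κ F]
    (T ρ : F) (e : Tl l (Ec N T) ≃+ (Fin 2 → ZMod l)), Nm l N κ → Gx κ T →
    ρ ^ kk N * T = 1 → ∃ (σ : F ≃ₐ[κ] F) (M : Matrix (Fin 2) (Fin 2) (ZMod l)), σ T = T ∧
      IsM e (pm (Ec N T) (Ec N T) σ) M ∧ M ≠ 1 ∧ (M - 1) * (M - 1) = 0

/-- **Irr** (150 lines, uses `S_Pts`, `S_Pm`, `S_Plx`, `S_LcG`, `S_LcM`, `S_Prd`). No stable line.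

Proof. Suppose that `σ P₀` is a multiple of `P₀` for all `σ` with `σ T = T`. Let `S` be the set of the nonzero multiples of `P₀`; it is
stable. Every `n P₀ ≠ 0` also satisfies the hypothesis of `Loc.b` (`σ (n P₀) = n σ P₀`, and `P₀` is a multiple of
`n P₀`), so `p2` is a unit on `S` for all the places `v_b`: a contradiction to `S_Prd`. -/
def S_Irr : Prop :=
  ∀ (l N : ℕ) [Fact l.Prime] (κ F : Type) [Field κ] [IsAlgClosed κ] [Field F] [Algebra κ F]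
    (T ρ : F) (e : Tl l (Ec N T) ≃+ (Fin 2 → ZMod l)), Nm l N κ → Gx κ T →
    ρ ^ kk N * T = 1 → ∀ P₀ : Tl l (Ec N T), P₀ ≠ 0 →
    ∃ σ : F ≃ₐ[κ] F, σ T = T ∧ ∀ n : ℕ,
      pm (Ec N T) (Ec N T) σ P₀ ≠ (n • P₀ : Tl l (Ec N T))

/-- **GrA** (250 lines). Subgroups of `GL(2, l)` which contain `SL(2, l)`.

Proof. `(u - 1) ^ 2 = 0`, `u ≠ 1`: `w = (u - 1) w₁ ≠ 0` is fixed by `u`, and the fixed vectors of `u` are the multiples of `w`. Choose `h ∈ H` such that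
`h w` is not a multiple of `w`. In the basis `w, h w` `u` is `(1 a; 0 1)`, `a ≠ 0` (`det u = 1`), and `h u h⁻¹`, which
fixes `h w`, is `(1 0; b 1)`, `b ≠ 0`. The powers of these are all the matrices `(1 *; 0 1)`, `(1 0; * 1)` (`l` is prime). These matrices generate
`SL(2, l)` (for a field: `Lib/MP_7f581e_ntS`, `Matrix.Pivot`, or directly: `c ≠ 0` in `(a b; c d)`:
`(a b; c d) = (1 (a-1)/c; 0 1) (1 0; c 1) (1 (d-1)/c; 0 1)`; if `c = 0` multiply by `(1 0; 1 1)`). Changing the basis back does not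
matter, as `SL(2, l)` is normal in `GL(2, l)`. -/
def S_GrA : Prop :=
  ∀ (l : ℕ) [Fact l.Prime] (H : Subgroup (GL (Fin 2) (ZMod l))) (u : GL (Fin 2) (ZMod l)),
    u ∈ H → u.1 ≠ 1 → (u.1 - 1) * (u.1 - 1) = 0 →
    (∀ w : Fin 2 → ZMod l, w ≠ 0 → ∃ h ∈ H, ∀ a : ZMod l, h.1.mulVec w ≠ a • w) →
    ∀ g : GL (Fin 2) (ZMod l), g.1.det = 1 → g ∈ H

/-- **Dsq** (200 lines, uses `S_Plx`, `S_Lin`, `S_LcG`, `S_LcM`, `S_Inf`, `S_Sco`, `S_Sce`). The determinants are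
squares.

Proof. `χ(σ) = 1` if `det (ρ σ)` is a square, `-1` otherwise (`quadraticChar` of the determinant, as a homomorphism to `ℤˣ`; `ρ` of
`S_Lin`). For every `b ∈ κ` and `v_b` of `S_Plx`: `σ` with `Dv v_b σ` has `(M - 1) (M - 1) = 0` (`Loc.a`), so `det M = 1` (a `2 × 2`
matrix `A` with `A ^ 2 = 0` has trace and determinant `0`, so `det (1 + A) = 1 + tr A + det A = 1`), `χ σ = 1`. At infinity: `S_Inf` (1). So `Spl`
holds and `χ = 1` by `S_Sco`, `S_Sce`. -/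
def S_Dsq : Prop :=
  ∀ (l N : ℕ) [Fact l.Prime] (κ F : Type) [Field κ] [IsAlgClosed κ] [Field F] [Algebra κ F]
    (T ρ : F) (e : Tl l (Ec N T) ≃+ (Fin 2 → ZMod l)), Nm l N κ → Gx κ T →
    ρ ^ kk N * T = 1 → ∀ σ : F ≃ₐ[κ] F, σ T = T →
    ∀ M : Matrix (Fin 2) (Fin 2) (ZMod l), IsM e (pm (Ec N T) (Ec N T) σ) M → IsSquare M.det

/-- **Brs** (200 lines, uses `S_Plx`). An automorphism which exchanges `T` and `c - T`, in a decomposition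
group.

Proof. `s = T ^ 2 - c T`, `T' = c - T`; `σ s = s` implies `σ T = T` or `σ T = T'`. (1) `N = 2`: `c = 1 / 4`,
`s + 1 / 64 = (T - 1 / 8) ^ 2`. Let `v` be the place of `S_Plx` for `x = s` and `- 1 / 64`: `Plc κ s (s + 1 / 64) v`, `v(s + 1 / 64) = 2 v(T - 1 / 8) > 0`. If all
`σ` with `σ s = s`, `Dv v σ` fix `T` then by `dec` for `z = T - 1 / 8`: `2 v(z) ∣ v(z)`, a contradiction. (2) `N = 3`: the place with
`π = s⁻¹`: `v(s) < 0`, so `v(T) < 0`, `v(s) = 2 v(T)`, and as before (`dec` for `z = T`) there is `σ₁` with `Dv v σ₁`,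
`σ₁ s = s`, `σ₁ T = T'`. `ρ ^ 3 T = 1`, `h = σ₁ ρ / ρ`: `h ^ 3 = T / T' = - (1 - c / T)⁻¹ ≡ -1`, so `h` is a unit with the residue
`ζ ∈ κ`, `ζ ^ 3 = -1`. `σ = σ₁ ^ 3`: `σ T = T'` (`σ₁ T' = T`), `σ ρ / ρ = h σ₁(h) σ₁ ^ 2(h) ≡ ζ ^ 3 = -1` (`Kr.triv`). -/
def S_Brs : Prop :=
  ∀ (l : ℕ) (κ F : Type) [Field κ] [IsAlgClosed κ] [Field F] [Algebra κ F] (T : F),
    (Nm l 2 κ → Gx κ (T ^ 2 - c0 2 F * T) → ∃ (v : F → ℤ) (σ : F ≃ₐ[κ] F), Kr κ v ∧ Dv v σ ∧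
      σ T = c0 2 F - T ∧ Ge v 1 (T - 8⁻¹)) ∧
    (Nm l 3 κ → Gx κ (T ^ 2 - c0 3 F * T) → ∀ ρ : F, ρ ^ 3 * T = 1 →
      ∃ (v : F → ℤ) (σ : F ≃ₐ[κ] F), Kr κ v ∧ Dv v σ ∧ σ T = c0 3 F - T ∧ 0 < v ρ ∧
        Ge v 1 (σ ρ / ρ + 1))

/-- The map `g_σ` for an automorphism which exchanges `T` and `T'`. -/
noncomputable def gg (N : ℕ) {F : Type} [Field F] (θ T T' : F) (σ : F → F)
    (P : (Ec N T).toAffine.Point) : (Ec N T).toAffine.Point :=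
  ps N θ T' T (pm (Ec N T) (Ec N T') σ P)

/-- **CH** (100 lines). A matrix with `M ^ 2 = - N`.

Proof. Cayley-Hamilton: `M ^ 2 - (tr M) M + det M = 0` (check the entries), so `(tr M) M = (det M - N) 1`. If `tr M ≠ 0` then `M` is a
scalar matrix. So `tr M = 0`, `det M = N`. -/
def S_CH : Prop :=
  ∀ (l : ℕ) [Fact l.Prime] (M : Matrix (Fin 2) (Fin 2) (ZMod l)) (n : ZMod l),
    M * M = -(n • (1 : Matrix (Fin 2) (Fin 2) (ZMod l))) → M.det = n ∨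
      ∃ a : ZMod l, M = a • (1 : Matrix (Fin 2) (Fin 2) (ZMod l))

/-- **Gsq** (200 lines, uses `S_Pts`, `S_Pm`, `S_Iso`, `S_Lin`, `S_CH`). The square of `g_σ`.

Proof. `σ T = T'`, `σ T' = T` (`T' = c - T`). `θ` is an element of `κ`, so `σ θ = θ`. `g P = ps_{T'→T} (σ P)` is additive (`S_Pm`, `S_Iso`), maps `Tl`
into itself. `g (g P) = ps_{T'→T} (σ (ps_{T'→T} (σ P))) = ps_{T'→T} (ps_{T→T'} (σ (σ P)))` (`S_Iso` (6) for `f = σ`, the curve with the parameter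
`T'`) `= ps_{T'→T} (ps_{T→T'} P) = - N P` if `σ (σ P) = P` for `P ∈ Tl`. So the matrix satisfies `M * M = - N`; `S_CH`. If `M = a`
is a scalar: `a ≠ 0` (`a ^ 2 = - N ≠ 0` in `ZMod l`, `l > N`); let `c' ∈ {1, .., (l - 1) / 2}`, `a = ± c'` modulo `l`. So `g P = ± c' P` for
all `P ∈ Tl`. -/
def S_Gsq : Prop :=
  ∀ (l N : ℕ) [Fact l.Prime] (κ F : Type) [Field κ] [Field F] [Algebra κ F] (T T' : F) (θ : κ)
    (e : Tl l (Ec N T) ≃+ (Fin 2 → ZMod l)) (σ : F ≃ₐ[κ] F), Nm l N κ → Rt N θ →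
    T + T' = c0 N F → T ≠ 0 → T' ≠ 0 → σ T = T' →
    (∀ P : Tl l (Ec N T), pm (Ec N T') (Ec N T) σ (pm (Ec N T) (Ec N T') σ P) = P) →
    (∀ M : Matrix (Fin 2) (Fin 2) (ZMod l),
      IsM e (gg N (algebraMap κ F θ) T T' σ) M → M.det = N) ∨
    ∃ c : ℕ, 1 ≤ c ∧ 2 * c < l ∧ ∀ P : Tl l (Ec N T),
      gg N (algebraMap κ F θ) T T' σ P = c • (P : (Ec N T).toAffine.Point) ∨
        gg N (algebraMap κ F θ) T T' σ P = -(c • (P : (Ec N T).toAffine.Point))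

/-- **Br2** (300 lines, uses `S_Pts`, `S_Pm`, `S_Iso`, `S_Int`, `S_Ns`, `S_Red`, `S_Gnb`, `S_Scl`, `S_Brs`, `S_Gsq`). An element with
determinant `N`, `N = 2`.

Proof. `v`, `σ` by `S_Brs` (1), `T' = c - T`; `T ≡ T' ≡ 1 / 8`. `W = Ec 2 T` is a good model (`Δ = 16 T ^ 2 (1 - 4 T) ≡ 1 / 8`), `Wb = Ec 2 (1 / 8)` over `κ`. For
`P = (x, y) ∈ Tl`: `σ (σ P) = (σ σ x, σ σ y)` is congruent to `P`, so equal to `P` (`S_Red`). `S_Gsq`: in the first case we are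
done. In the second case: let `xb ∈ κ` be the residue of `x` (`S_Int`, `Kr.res`). `xb ≠ 0`: otherwise `y ^ 2 = x (..)` gives `Ge v 1 (y ^ 2)`, so
`Ge v 1 (2 y)`, contradicting `S_Ns`. `g P = ± c P` has the abscissa
`x₁ = psx 2 T' (σ x) = - (σ x ^ 2 + σ x + T') / (2 σ x)`, integral, with the residue `x1b = - (xb ^ 2 + xb + 1 / 8) / (2 xb)`; by `S_Gnb`
(1) `f_c(xb) = x1b g_c(xb)`, so `A(xb) g_c(xb) = B(xb) f_c(xb)` with `A = X ^ 2 + X + 1 / 8`, `B = - 2 X`. The set `S` of the residues `xb` for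
`P ∈ Tl`, `P ≠ 0`, satisfies `l ^ 2 - 1 ≤ 2 |S|` (`S_Gnb` (2): at most two points for each). `S_Scl` for `Wb`, `A`, `B`: a
contradiction (`A(0) = 1 / 8 ≠ 0`). -/
def S_Br2 : Prop :=
  ∀ (l : ℕ) [Fact l.Prime] (κ F : Type) [Field κ] [IsAlgClosed κ] [Field F] [Algebra κ F]
    (T : F) (θ : κ) (e : Tl l (Ec 2 T) ≃+ (Fin 2 → ZMod l)), Nm l 2 κ → Rt 2 θ →
    Gx κ (T ^ 2 - c0 2 F * T) → ∃ σ : F ≃ₐ[κ] F, σ T = c0 2 F - T ∧
      ∀ M : Matrix (Fin 2) (Fin 2) (ZMod l),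
        IsM e (gg 2 (algebraMap κ F θ) T (c0 2 F - T) σ) M → M.det = 2

/-- **Br3** (350 lines, uses `S_Pts`, `S_Pm`, `S_Cv`, `S_Iso`, `S_Int`, `S_Ns`, `S_Red`, `S_Gnb`, `S_Scl`, `S_Brs`, `S_Gsq`). An element
with determinant `N`, `N = 3`.

Proof. `v`, `σ` by `S_Brs` (2), `T' = c - T`, `r = ρ`, `q = σ ρ`, `q ^ 3 T' = 1`, `Ge v 1 (q / r + 1)`. `W' = tr (Ec 3 T) r 0 0 = ⟨r, 0, 1, 0, 0⟩` is a good model
(`Δ = r ^ 3 - 27`), with the reduction `Wb = ⟨0, 0, 1, 0, 0⟩` over `κ`, `Δ(Wb) = -27`. For `P = (x, y) ∈ Tl` let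
`P' = cv .. P = (x', y') = (r ^ 2 x, r ^ 3 y)`, with the residues `xb, yb`. (i) `σ σ r / r = (σ q / q) (q / r) ≡ 1` (`σ q / q = σ (q / r) ≡ -1`), and
`(σ σ P)' = (r ^ 2 σσ x, r ^ 3 σσ y) = ((r / σσ r) ^ 2 σσ(x'), (r / σσ r) ^ 3 σσ(y'))` is congruent to `P'`; `S_Red` for `W'` and `cv` injective: `σ σ P = P`. (ii)
`xb ≠ 0`: otherwise the abscissa of `2 P'` is congruent to `0` (`x(2 P') (4 x' ^ 3 + ..) = x' ^ 4 - ..`, `S_Pts` (12): `b₄ = r`, `b₆ = 1`, `b₈ = 0`, `b₂ = r ^ 2`,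
modulo the place `x(2 P') ≡ 0 / 1`), so `2 P' = ± P'` by `S_Gnb` (2), `P' = 0` or `3 P' = 0`, a contradiction
(`l ≥ 5`). (iii) `g P` has the abscissa `psx 3 T' (σ x) = - (ξ ^ 3 + q ξ + 1) / (3 q ^ 2 ξ ^ 2) - 1 / 9`, `ξ = q ^ 2 σ x = σ (x')` (`T' = q⁻³`), so `(g P)'`
has the abscissa `r ^ 2` times this, with the residue `x1b = - (xb ^ 3 + 1) / (3 xb ^ 2)` (`(r / q) ^ 2 ≡ 1`, `q ≡ 0`). In the second case of
`S_Gsq`: `(g P)' = ± c P'`, so by `S_Gnb` (1) `A(xb) g_c(xb) = B(xb) f_c(xb)`, `A = X ^ 3 + 1`, `B = - 3 X ^ 2`. As in `S_Br2` this contradicts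
`S_Scl`. -/
def S_Br3 : Prop :=
  ∀ (l : ℕ) [Fact l.Prime] (κ F : Type) [Field κ] [IsAlgClosed κ] [Field F] [Algebra κ F]
    (T ρ : F) (θ : κ) (e : Tl l (Ec 3 T) ≃+ (Fin 2 → ZMod l)), Nm l 3 κ → Rt 3 θ →
    Gx κ (T ^ 2 - c0 3 F * T) → ρ ^ 3 * T = 1 → ∃ σ : F ≃ₐ[κ] F, σ T = c0 3 F - T ∧
      ∀ M : Matrix (Fin 2) (Fin 2) (ZMod l),
        IsM e (gg 3 (algebraMap κ F θ) T (c0 3 F - T) σ) M → M.det = 3

/-- The geometric statement over `Ω`. -/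
def Geo (l N : ℕ) [Fact l.Prime] (κ Ω : Type) [Field κ] [Field Ω] [Algebra κ Ω] (θ : κ) (T : Ω)
    (e : Tl l (Ec N T) ≃+ (Fin 2 → ZMod l)) : Prop :=
  (∀ M : Matrix (Fin 2) (Fin 2) (ZMod l), M.det = 1 →
    ∃ σ : Ω ≃ₐ[κ] Ω, σ T = T ∧ IsM e (pm (Ec N T) (Ec N T) σ) M) ∧
  (∀ σ : Ω ≃ₐ[κ] Ω, σ T = T → ∀ M : Matrix (Fin 2) (Fin 2) (ZMod l),
    IsM e (pm (Ec N T) (Ec N T) σ) M → IsSquare M.det) ∧
  ∃ σ : Ω ≃ₐ[κ] Ω, σ T = c0 N Ω - T ∧ ∀ M : Matrix (Fin 2) (Fin 2) (ZMod l),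
    IsM e (gg N (algebraMap κ Ω θ) T (c0 N Ω - T) σ) M → M.det = N

/-- **Gom** (300 lines, uses `S_Pts`, `S_Pm`, `S_Lin`, `S_Brg`, `S_Unx`, `S_Irr`, `S_GrA`, `S_Dsq`, `S_Br2`, `S_Br3`). The geometric statement.

Proof. Let `Z` be the finite set of the coordinates of the points of `Tl l (Ec N T)` (over `Ω`), of one root `ρ` of `ρ ^ k T = 1` (`Ω` is separably
closed and `k` is invertible), and `F`, `T₁` by `S_Brg` (`c = c0 N κ`). The points of `Tl l (Ec N T)` come from points of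
`Ec N T₁` over `F` (`S_Pm` (6) for the inclusion), so `e` induces `e₁ : Tl l (Ec N T₁) ≃+ ..`, and if `τ` extends `σ` then `pm τ` has the
matrix `M` with respect to `e` if and only if `pm σ` has it with respect to `e₁` (the same for `gg`). (1) The matrices of the `σ` with
`σ T₁ = T₁` form a subgroup `H` of `GL(2, l)` (`S_Lin` (4)); `S_Unx`, `S_Irr`, `S_GrA` (a vector `w ≠ 0` is `e₁ P₀`); lift to
`Ω`. (2) restrict `σ` to `F` (the last part of `S_Brg`), `S_Dsq`. (3) `S_Br2`, `S_Br3`, lift. -/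
def S_Gom : Prop :=
  ∀ (l N : ℕ) [Fact l.Prime] (κ Ω : Type) [Field κ] [IsAlgClosed κ] [Field Ω] [IsSepClosed Ω]
    [Algebra κ Ω] (T : Ω) (θ : κ) (e : Tl l (Ec N T) ≃+ (Fin 2 → ZMod l)), Nm l N κ →
    Rt N θ → Transcendental κ T →
    (∀ z : Ω, IsSeparable (IntermediateField.adjoin κ {T}) z) → Geo l N κ Ω θ T e

end MP7Sh
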