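import Pool.Agent.Lib.MP_7f581e_Sh.SpecE

/-!
# MP_7f581e_nt, GA realizations of `PSL(2, l)`: the isogenies

Conventions as in `SpecE.lean`. `N = 2`: `E_t : y ^ 2 = x ^ 3 + x ^ 2 + t x`; `N = 3`: `E_t : y ^ 2 + x y + t y = x ^ 3`.
All the formulas have been checked numerically over many finite fields (also of characteristic `2` and `3`).
-/

set_option autoImplicit false

namespace MP7Sh

open Polynomial WeierstrassCurve

open scoped Classical

/-- **PsW** (150 lines, uses `S_Pts`). The isogeny is well defined.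

Proof. (1) `Δ(E_t) = 16 t ^ 2 (1 - 4 t)`, resp. `t ^ 3 (1 - 27 t)` (`simp [Ec, Δ, b₂, ..]`, `ring`), `t' = c - t`: `1 - 4 t = 4 t'`,
`1 - 27 t = 27 t'`. (2) the equation of `E_{t'}` for `(x', y')`: `N = 2`: with
`y ^ 2 = x (x ^ 2 + x + t)` and `θ ^ 2 = -2` both sides are `- y ^ 2 (x ^ 2 - t) ^ 2 / (8 x ^ 4)`; `N = 3`: `field_simp` and
`linear_combination (..) * (equation) + (..) * (θ ^ 2 + θ + 1)`, note that `(1 + 2 θ) ^ 2 = -3`, so `1 + 2 θ ≠ 0`. (3) `px P = 0`: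
by definition. (4) `x = 0`: `N = 2`: `y = 0`, `2 P = 0`; `N = 3`: `y = 0` or `y = - t`; the tangent at `(0, 0)` is
`y = 0`, `2 (0, 0) = (0, - t) = - (0, 0)`, and `(0, - t)` is the negative. (5) `θ` and its conjugate: `psx` does not
depend on `θ`; `psy` for `cj N θ` is `- y' - a₁ x' - a₃` (`E_{t'}`): `N = 2` clear; `N = 3`: `field_simp`, `ring`, using
`θ ^ 2 = -1 - θ`; if `px P = 0` both sides are `0`. -/
def S_PsW : Prop :=
  ∀ (N : ℕ) (L : Type) [Field L] (θ t t' : L), N = 2 ∨ N = 3 → (N : L) ≠ 0 → Rt N θ →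
    t + t' = c0 N L → t ≠ 0 → t' ≠ 0 →
    (Ec N t).Δ ≠ 0 ∧
    (∀ (P : (Ec N t).toAffine.Point) (x y : L), At P x y → x ≠ 0 →
      At (ps N θ t t' P) (psx N t x) (psy N θ t x y)) ∧
    (∀ P : (Ec N t).toAffine.Point, (P = 0 ∨ px P = 0) ↔ ps N θ t t' P = 0) ∧
    (∀ (P : (Ec N t).toAffine.Point) (y : L), At P 0 y → N • P = 0) ∧
    Rt N (cj N θ) ∧ ∀ P : (Ec N t).toAffine.Point, ps N (cj N θ) t t' P = -ps N θ t t' P

/-- **PsM** (100 lines, uses `S_Pts`, `S_Pm`, `S_PsW`). Homomorphisms of fields.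

Proof. `(Ec N t).map f = Ec N (f t)`, `f (psx N t x) = psx N (f t) (f x)` and the same for `psy`; `P = 0` and `px P = 0`
separately. -/
def S_PsM : Prop :=
  ∀ (N : ℕ) (L M : Type) [Field L] [Field M] (f : L →+* M) (θ t t' : L), N = 2 ∨ N = 3 →
    (N : L) ≠ 0 → Rt N θ → t + t' = c0 N L → t ≠ 0 → t' ≠ 0 →
    (Ec N t).map f = Ec N (f t) ∧ Rt N (f θ) ∧ f t + f t' = c0 N M ∧
    ∀ P : (Ec N t).toAffine.Point,
      pm (Ec N t') (Ec N (f t')) f (ps N θ t t' P) =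
        ps N (f θ) (f t) (f t') (pm (Ec N t) (Ec N (f t)) f P)

/-- The isogeny is additive for three collinear points in general position. -/
def AddG (N : ℕ) (L : Type) [Field L] (θ t t' : L) : Prop :=
  ∀ (P Q : (Ec N t).toAffine.Point) (x₁ y₁ x₂ y₂ x₃ y₃ : L), At P x₁ y₁ → At Q x₂ y₂ →
    At (P + Q) x₃ y₃ → x₁ ≠ 0 → x₂ ≠ 0 → x₃ ≠ 0 → x₁ ≠ x₂ → x₁ ≠ x₃ → x₂ ≠ x₃ →
    psx N t x₁ ≠ psx N t x₂ → psx N t x₁ ≠ psx N t x₃ → psx N t x₂ ≠ psx N t x₃ →
    ps N θ t t' (P + Q) = ps N θ t t' P + ps N θ t t' Q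

/-- **Ad2** (250 lines, uses `S_Pts`, `S_PsW`). The generic case of additivity, `N = 2`.

Proof. `P + Q + R = 0`, `R = - (P + Q) = (x₃, z₃)`; the three points are on a line `y = λ x + ν`, and `x₁, x₂, x₃` are
different, so they are the three roots of `x ^ 3 + x ^ 2 + t x - (λ x + ν) ^ 2`. `ν ≠ 0` (the product of the roots
is `ν ^ 2`). With `X = y ^ 2 / x ^ 2`, `Y = y (x ^ 2 - t) / x ^ 2` the three image points are on
the line `Y = λ₁ X + ν₁`, `λ₁ = (λ ν - t) / ν`, `ν₁ = (ν ^ 2 + λ ^ 2 t - λ ν) / ν`: indeed `Y x ^ 2 = (λ x + ν) (x ^ 2 - t)`,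
`X x ^ 2 = (λ x + ν) ^ 2`, and `(λ x + ν) (x ^ 2 - t) - λ₁ (λ x + ν) ^ 2 - ν₁ x ^ 2 = λ (x ^ 3 + x ^ 2 + t x - (λ x + ν) ^ 2)`.
So the points `(x', y') = (- X / 2, - Y / (2 θ))` of `ps P, ps Q, ps R` are on a line `y' = λ' x' + ν'`, they have
different abscissae, so they are the three intersection points of the line with `E_{t'}`: `ps P + ps Q` has the slope `λ'`
and its abscissa is the third root (compare the coefficient of `x' ^ 2`), so
`ps P + ps Q = - ps R = ps (P + Q)` (`ps (-R) = - ps R`: formulas). -/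
def S_Ad2 : Prop :=
  ∀ (L : Type) [Field L] (θ t t' : L), (2 : L) ≠ 0 → Rt 2 θ → t + t' = c0 2 L → t ≠ 0 →
    t' ≠ 0 → AddG 2 L θ t t'

/-- **Ad3** (300 lines, uses `S_Pts`, `S_PsW`). The generic case of additivity, `N = 3`.

Proof. As in `S_Ad2`. Let `P + Q + R = 0`, all on the line `y = λ x + ν`; `x₁, x₂, x₃` are the roots of
`c(x) = x ^ 3 - (λ ^ 2 + λ) x ^ 2 - (2 λ ν + ν + t λ) x - (ν ^ 2 + t ν)`, so `ν (ν + t) = x₁ x₂ x₃ ≠ 0`. With
`X = (x ^ 3 + t x + t ^ 2) / x ^ 2`, `Y = y - t ^ 2 (2 y + x + t) / x ^ 3 - t (x + y) / x ^ 2 - t ^ 2 / x ^ 2` one has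
`Y = λ₁ X + ν₁` at the three points, as follows. Let `e₁ = λ ^ 2 + λ`, `e₂ = 2 λ ν + ν + t λ`, `e₃ = ν ^ 2 + t ν`,
`κ₀ = t ^ 2 (2 ν + t) / e₃`, `D₁ = e₃ + t ^ 2`, `D₂ = e₂ + t`, and `ν₁ = ν - κ₀ + (λ - λ₁) e₁`. Then
`x ^ 3 (Y - λ₁ X - ν₁) = ((λ - λ₁) x + κ₀) c(x)` if and only if (coefficients of `x` and `x ^ 2`)
`λ₁ D₁ = λ e₃ + κ₀ e₂ - t ^ 2 (2 λ + 2) - t ν` and `λ₁ D₂ = λ e₂ + κ₀ e₁ - t - t λ`. If `D₁ ≠ 0` the first equation defines `λ₁` and the
second one follows (`field_simp`, `ring`). If `D₁ = 0` the first equation is an identity; if `D₂ ≠ 0` the second one defines `λ₁`. If `D₁ = D₂ = 0`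
both are identities (`D₁ = 0`: `ν = ω t`, `ω ^ 2 + ω + 1 = 0`; `D₂ = 0`: `(2 ω + 1) λ = ω ^ 2`), so the equation
`Y = λ₁ X + ν₁` holds for all `λ₁`, and `X = e₁` at the three points, contradicting that the `psx` are different
(`psx = - X / 3 - 1 / 9`). The image points
`(x', y')`, `x' = - X / 3 - 1 / 9`, `y' = (Y + 3 θ x' - τ) / (- 3 (1 + 2 θ))` are again collinear, with different abscissae, on
`E_{t'}`; conclude as in `S_Ad2`. -/
def S_Ad3 : Prop :=
  ∀ (L : Type) [Field L] (θ t t' : L), (3 : L) ≠ 0 → Rt 3 θ → t + t' = c0 3 L → t ≠ 0 →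
    t' ≠ 0 → AddG 3 L θ t t'

/-- **PsA** (300 lines, uses `S_Pts`, `S_Pm`, `S_PsW`, `S_PsM`). The isogeny is additive.

Proof. By `S_PsM` and the injectivity of `pm` (`S_Pm` (5)) one may replace `L` by its algebraic closure `Ω` (`hG` is for all
fields). `ps (-P) = - ps P` (formulas, `x' ` does not change). Let `P, Q ∈ E_t(Ω)`. The set of points is
infinite; choose `R` such that the generic case applies to the pairs `(P + R, Q - R)`, `(P, R)`, `(Q, -R)`. Then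
`ps (P + Q) = ps (P + R) + ps (Q - R) = ps P + ps R + ps Q + ps (-R) = ps P + ps Q`. The conditions for a pair `(A, B)` are: `A, B, A + B`
are not in the kernel `K = {0} ∪ {px = 0}` (finite), the abscissae of `A, B, A + B` are different, and their images under `psx`
are different; `psx A = psx B` is a polynomial equation of positive degree for the abscissa of `A` if `B` is
fixed. Each condition excludes finitely many `R` if the pair is `(P, R)`, `P ≠ 0`. For pairs `(P + R, Q - R)` and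
the condition `psx(P + R) ≠ psx(Q - R)`, and for `P = 0` etc. argue as follows (or in any other way): for a point `B` the set
`{A | psx(A) = psx(B)}` is finite; if `psx(A) = psx(B)` then `ps A = ± ps B`. It may be simpler to prove first the general
statement: for a finite set of pairs of integers .. ; a clean way: `psx(A) = psx(B)` is equivalent to
`A = ± B + k` with `k ∈ K` (check: `N = 2`: `psx(A) = psx(B)` iff `x_A = x_B` or `x_A x_B = t`, and
`x(B + (0,0)) = t / x_B`; `N = 3`: the cubic equation `X(x) = X(x_B)` for `x` has the roots `x(B + k)`, `k ∈ K`). So all the conditions are of the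
form `± A ± B ∉ K` or `A ∉ K`, or `2 A + B ∉ K` .. , i.e. (`A = P + R`, `B = Q - R`, ..) `m R + S ∉ K` with fixed points `S` and
`m ∈ {0, ±1, ±2}`; those with `m = 0` are `P + Q ∉ K`, `P ∉ K`, `Q ∉ K`. If `P ∈ K` or `Q ∈ K` or `P + Q ∈ K`: the first two:
`ps (Q + k) = ps Q` for `k ∈ K` by the formulas (translation by `(0, 0)`: `N = 2`: `(t / x, - t y / x ^ 2)`; `N = 3`: compute
`(x, y) + (0, 0)`, slope `y / x`); the last one: `P + Q = k`, `P = k - Q`, `ps P = ps (-Q) = - ps Q`. Finitely many `R` satisfy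
`2 R = S` (at most four, `S_Pts` (11), (12)), and `E_t(Ω)` is infinite. -/
def S_PsA : Prop :=
  ∀ N : ℕ, N = 2 ∨ N = 3 →
    (∀ (L : Type) [Field L] (θ t t' : L), (N : L) ≠ 0 → Rt N θ → t + t' = c0 N L → t ≠ 0 →
      t' ≠ 0 → AddG N L θ t t') →
    ∀ (L : Type) [Field L] (θ t t' : L), (N : L) ≠ 0 → Rt N θ → t + t' = c0 N L → t ≠ 0 →
      t' ≠ 0 → ∀ P Q : (Ec N t).toAffine.Point,
        ps N θ t t' (P + Q) = ps N θ t t' P + ps N θ t t' Q

/-- **Co2** (150 lines, uses `S_Pts`, `S_PsW`). The composition, `N = 2`.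

Proof. `P = (x, y)`. If `x = 0`: `ps P = 0`, `2 P = 0`. If `x ≠ 0` but `psx = 0`, i.e. `x ^ 2 + x + t = 0`: `y = 0`, `2 P = 0`, and the left side is `0`.
Otherwise `y ≠ 0`, `2 P` by `S_Pts` (8): `x(2 P) = (x ^ 2 - t) ^ 2 / (4 y ^ 2)`, `2 P = (m ^ 2 - 1 - 2 x, ..)`,
`m = (3 x ^ 2 + 2 x + t) / (2 y)`; compare with the composition of the explicit formulas (`field_simp`, `θ ^ 2 = -2`,
`y ^ 2 = x (x ^ 2 + x + t)`, `t' = 1 / 4 - t`). -/
def S_Co2 : Prop :=
  ∀ (L : Type) [Field L] (θ t t' : L), (2 : L) ≠ 0 → Rt 2 θ → t + t' = c0 2 L → t ≠ 0 →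
    t' ≠ 0 → ∀ P : (Ec 2 t).toAffine.Point, ps 2 θ t' t (ps 2 θ t t' P) = -(2 • P)

/-- **Co3** (300 lines, uses `S_Pts`, `S_PsW`). The composition, `N = 3`.

Proof. `P = (x, y)`. `x = 0`: both sides are `0`. Let `x ≠ 0`, `B = ps (ps P)`. If `psx = 0`, i.e.
`3 (x ^ 3 + t x + t ^ 2) + x ^ 2 = 0`: `P` is of order `3` (the third division polynomial is
`x (3 x ^ 3 + x ^ 2 + 3 t x + 3 t ^ 2)`): `2 P = - P`, check `x(2 P) = x`, and both sides are `0`. Otherwise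
`B = (x'', y'')` is given by the explicit formulas. If `2 P = 0` (`2 y + x + t = 0`): `- 3 P = P`, check `B = P` directly. In general
`B + P + 2 P = 0` means that `B` is the third point on the line through `P` and `2 P`: with
`2 P = (x₂, y₂)` (`S_Pts` (8)), `x₂ ≠ x` (since `3 P ≠ 0`, `P ≠ 0`), `m = (y₂ - y) / (x₂ - x)`:
`- (P + 2 P) = (x₃, m (x₃ - x) + y)`, `x₃ = m ^ 2 + m - x - x₂`; show `x'' = x₃` and
`y'' = m (x'' - x) + y` with `field_simp` and `linear_combination` (eliminate `t`: if `y ≠ 0` then `t = (x ^ 3 - y ^ 2 - x y) / y`;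
`y = 0` means `x = 0`; so everything is a rational function of `x, y, θ` with `θ ^ 2 + θ + 1 = 0`). Known identity:
`x(3 P) = x - ψ₂ ^ 2 ψ₄ / ψ₃ ^ 2`. It is valid in all characteristics different from `3`. -/
def S_Co3 : Prop :=
  ∀ (L : Type) [Field L] (θ t t' : L), (3 : L) ≠ 0 → Rt 3 θ → t + t' = c0 3 L → t ≠ 0 →
    t' ≠ 0 → ∀ P : (Ec 3 t).toAffine.Point, ps 3 θ t' t (ps 3 θ t t' P) = -(3 • P)

/-- **Iso** (80 lines, uses `S_PsW`, `S_PsM`, `S_Ad2`, `S_Ad3`, `S_PsA`, `S_Co2`, `S_Co3`, `S_Pts`). Summary.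

Proof. Collect. (2) `ps (-P)`: from additivity and `ps 0 = 0`. (4) `ps P = ps Q` and `l P = l Q = 0`: apply the second
isogeny: `N P = N Q`, and `l, N` are coprime. -/
def S_Iso : Prop :=
  ∀ (N : ℕ) (L : Type) [Field L] (θ t t' : L), N = 2 ∨ N = 3 → (N : L) ≠ 0 → Rt N θ →
    t + t' = c0 N L → t ≠ 0 → t' ≠ 0 →
    (∀ P Q : (Ec N t).toAffine.Point,
      ps N θ t t' (P + Q) = ps N θ t t' P + ps N θ t t' Q) ∧
    ps N θ t t' 0 = 0 ∧
    (∀ P : (Ec N t).toAffine.Point, ps N θ t' t (ps N θ t t' P) = -(N • P)) ∧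
    (∀ (l : ℕ) (P Q : (Ec N t).toAffine.Point), l.Coprime N → l • P = 0 → l • Q = 0 →
      ps N θ t t' P = ps N θ t t' Q → P = Q) ∧
    (∀ P : (Ec N t).toAffine.Point, ps N (cj N θ) t t' P = -ps N θ t t' P) ∧
    ∀ (M : Type) [Field M] (f : L →+* M) (P : (Ec N t).toAffine.Point),
      pm (Ec N t') (Ec N (f t')) f (ps N θ t t' P) =
        ps N (f θ) (f t) (f t') (pm (Ec N t) (Ec N (f t)) f P)

end MP7Sh
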