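import Pool.Agent.Lib.MP_7f581e_Sh.Val

/-!
# MP_7f581e_nt, GA realizations of `PSL(2, l)`: places of function fields of one variable

Conventions as in `SpecE.lean` (`import Pool.Agent.Lib.MP_7f581e_Sh.SpecV`). `Gx κ x`: `F` is a finite Galois
extension of `κ(x)` (`κ(x) = IntermediateField.adjoin κ {x}`), `κ` is algebraically closed; the Galois group is the
stabilizer of `x` in `F ≃ₐ[κ] F` (finite; by Artin's theorem, `fix`).
-/

set_option autoImplicit false

namespace MP7Sh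

open Polynomial IntermediateField

open scoped Classical

/-- **Efg** (250 lines). Totally ramified: `e = |D|` if the residue degree is one.

Proof. `A` a Dedekind domain with the fraction field `K`, `F / K` finite Galois with group `G`, `B` the integral
closure of `A` in `F` (Dedekind, `B` is `G`-stable), `P ≠ 0` a prime ideal of `B`, `𝔭 = P ∩ A`, every element of `B` is
congruent to an element of `A` modulo `P` (so the residue degree is `1`). `D` the stabilizer of `P` in `G`. Then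
`e(P / 𝔭) = |D|`: Mathlib (`Mathlib/NumberTheory/RamificationInertia/Galois.lean`):
`ncard_primesOver_mul_ramificationIdxIn_mul_inertiaDegIn` gives `g e f = |G|`, `G` acts transitively on the primes over
`𝔭` (orbit-stabilizer: `g |D| = |G|`), `f = 1`. Finally `𝔭 B ⊆ P ^ e`, `¬ 𝔭 B ⊆ P ^ (e + 1)`, so for `a ∈ A` with
`a ∈ 𝔭 ^ n`, `a ∉ 𝔭 ^ (n + 1)`: `a ∈ P ^ (e n)`, `a ∉ P ^ (e n + 1)` (localize, or use the unique factorization of
ideals: `(a) = 𝔭 ^ n 𝔞`, `𝔞` prime to `𝔭`, and `𝔞 B` is prime to `P`; `ramificationIdx` is the multiplicity of `P` in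
`𝔭 B`). -/
def S_Efg : Prop :=
  ∀ (A K B F : Type) [CommRing A] [IsDedekindDomain A] [Field K] [Algebra A K]
    [IsFractionRing A K] [Field F] [Algebra K F] [Algebra A F] [IsScalarTower A K F]
    [FiniteDimensional K F] [IsGalois K F] [CommRing B] [IsDedekindDomain B] [Algebra A B]
    [Algebra B F] [IsScalarTower A B F] [IsIntegralClosure B A F] (P : Ideal B),
    P.IsMaximal → P ≠ ⊥ → (∀ b : B, ∃ a : A, b - algebraMap A B a ∈ P) →
    ∀ (a : A) (n : ℕ), a ∈ (P.comap (algebraMap A B)) ^ n →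
      a ∉ (P.comap (algebraMap A B)) ^ (n + 1) →
      algebraMap A B a ∈ P ^ (Nat.card {σ : F ≃ₐ[K] F // ∀ b c : B,
          σ (algebraMap B F b) = algebraMap B F c → (b ∈ P ↔ c ∈ P)} * n) ∧
        algebraMap A B a ∉ P ^ (Nat.card {σ : F ≃ₐ[K] F // ∀ b c : B,
          σ (algebraMap B F b) = algebraMap B F c → (b ∈ P ↔ c ∈ P)} * n + 1)

/-- **Pla** (350 lines, uses `S_Efg`). The places above `x = 0`.

Proof. `G = MulAction.stabilizer (F ≃ₐ[κ] F) x` is finite with the fixed field `K = κ(x)` (`Gx.fix`), so `F / K` is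
finite Galois with group `G` (Artin: `FixedPoints`, `IsGalois.of_fixedField_eq_bot` or similar). Let `A = κ[X]`,
acting on `F` by `X ↦ x` (injective as `x` is transcendental; `A` is a principal ideal domain, `K` is a
fraction field of `A`), `B` the integral closure of `A` in `F`: a Dedekind domain (`integralClosure.isDedekindDomain`),
finite over `A` (separable extension), with the fraction field `F`. Let `P` be a prime ideal of `B` above `(X)`. `B / P` is
finite over `A / (X) = κ`, which is algebraically closed, so every element of `B` is congruent to a constant modulo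
`P` (`IsAlgClosed.algebraMap_bijective_of_isIntegral`). Let `v` be the `P`-adic valuation with values in
`ℤ` (`HeightOneSpectrum.valuation`, converted to `ℤ`; `v(b) = n` iff `b ∈ P ^ n`, `b ∉ P ^ (n + 1)`). `Ord v`, `cst` (units),
`pos` (`x ∈ P`). `res`: if `v(z) ≥ 0` then `z = b / c` with `b, c ∈ B`, `c ∉ P`; residues of `b`, `c`. `dec`: let
`D = {σ ∈ G | Dv v σ}`, the stabilizer of `P`. `S_Efg` for `A`, `K`: `v(x) = |D|`. Let `z ≠ 0` be fixed by `D`; let `Z` be the fixed
field of `D`, `A' = B ∩ Z` the integral closure of `A` in `Z` (a Dedekind domain with the fraction field `Z`), `B` is the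
integral closure of `A'` in `F`; `Gal(F / Z) = D`, all of its elements preserve `P`. `S_Efg` for `A'`, `Z` (with the constants
in `A'`): `v(a) = |D| n` for `a ∈ A'`, `a ≠ 0`, if `a ∈ P' ^ n`, `a ∉ P' ^ (n + 1)`, `P' = P ∩ A'`. As `z` is a quotient of elements of `A'`,
`|D|` divides `v(z)`. -/
def S_Pla : Prop :=
  ∀ (κ F : Type) [Field κ] [IsAlgClosed κ] [Field F] [Algebra κ F] (x : F), Gx κ x →
    ∃ v : F → ℤ, Plc κ x x v

/-- **Plx** (120 lines, uses `S_Pla`). All the places of `κ(x)`.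

Proof. (1) `S_Pla` for `y = x - c`: `Gx κ y` (the stabilizers of `x` and `y` are equal, `κ(y) = κ(x)`, `y` is
transcendental). (2) `S_Pla` for `y = x⁻¹`. In `Plc κ y y v` the condition `σ y = y` is equivalent to `σ x = x`. -/
def S_Plx : Prop :=
  ∀ (κ F : Type) [Field κ] [IsAlgClosed κ] [Field F] [Algebra κ F] (x : F), Gx κ x →
    (∀ c : κ, ∃ v : F → ℤ, Plc κ x (x - algebraMap κ F c) v) ∧ ∃ v : F → ℤ, Plc κ x x⁻¹ v

/-- **Plq** (150 lines). The decomposition group acts through a group of order divisible by `q`.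

Proof. `D = {σ | Dv v σ}` is a subgroup of the stabilizer `G` of `x`, `H' = ρ(D)` a finite group, `n = |H'|`. The element
`σ z` depends on `ρ σ` only (`ρ (σ⁻¹ τ) = 1` implies `σ⁻¹ τ z = z`). Let `z' = ∏_{h ∈ H'} σ_h z`, `σ_h ∈ D` with
`ρ σ_h = h`. `τ z' = z'` for `τ ∈ D` (`ρ (τ σ_h) = ρ τ * h`). `v(z') = n v(z)`. By `dec` `n v(z) = b v(π)`. With
`q v(z) = a v(π)`: `n a v(π) = q b v(π)`, `v(π) > 0`, so `n a = q b`, `q ∣ n`. Cauchy's theorem for `H'`
(`exists_prime_orderOf_dvd_card`). -/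
def S_Plq : Prop :=
  ∀ (κ F : Type) [Field κ] [Field F] [Algebra κ F] (x π : F) (v : F → ℤ), Plc κ x π v →
    ∀ (H : Type) [Group H] [Finite H] (ρ : MulAction.stabilizer (F ≃ₐ[κ] F) x →* H) (z : F)
      (q : ℕ) (a : ℤ), q.Prime → z ≠ 0 →
      (∀ σ : MulAction.stabilizer (F ≃ₐ[κ] F) x, ρ σ = 1 → (σ : F ≃ₐ[κ] F) z = z) →
      q * v z = a * v π → ¬ (q : ℤ) ∣ a →
      ∃ σ : MulAction.stabilizer (F ≃ₐ[κ] F) x, Dv v (σ : F ≃ₐ[κ] F) ∧ orderOf (ρ σ) = q

/-- **Cst** (150 lines). A rational function without zeros and poles is constant.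

Proof. `z ∈ κ(x)` by `Gx.fix`, `z = f(x) / g(x)` with coprime polynomials `f, g ∈ κ[X]`, `g ≠ 0`, `f ≠ 0`. If `f` is not
constant it has a root `c ∈ κ`, `g(c) ≠ 0`; for the place `v` of `c`: `v(g(x)) = 0` (`g(x) ≡ g(c)` modulo
`x - c`: `g(x) - g(c) = (x - c) h(x)`, `Ge v 0 (h(x))` since `Ge v 0 x`), `v(f(x)) > 0`, so `v(z) > 0`. In the same way `g` is
constant. -/
def S_Cst : Prop :=
  ∀ (κ F : Type) [Field κ] [IsAlgClosed κ] [Field F] [Algebra κ F] (x z : F), Gx κ x → z ≠ 0 →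
    (∀ σ : F ≃ₐ[κ] F, σ x = x → σ z = z) →
    (∀ c : κ, ∃ v : F → ℤ, Plc κ x (x - algebraMap κ F c) v ∧ v z = 0) →
    ∃ c : κ, z = algebraMap κ F c

/-- `χ` is trivial on the decomposition group of at least one place over every place of `κ(x)`. -/
def Spl (κ F : Type) [Field κ] [Field F] [Algebra κ F] (x : F)
    (χ : MulAction.stabilizer (F ≃ₐ[κ] F) x →* ℤˣ) : Prop :=
  (∀ c : κ, ∃ v : F → ℤ, Plc κ x (x - algebraMap κ F c) v ∧
    ∀ σ : MulAction.stabilizer (F ≃ₐ[κ] F) x, Dv v (σ : F ≃ₐ[κ] F) → χ σ = 1) ∧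
  ∃ v : F → ℤ, Plc κ x x⁻¹ v ∧
    ∀ σ : MulAction.stabilizer (F ≃ₐ[κ] F) x, Dv v (σ : F ≃ₐ[κ] F) → χ σ = 1

/-- **Sco** (250 lines). `κ(x)` has no quadratic extension in which all the places split, characteristic
not two.

Proof. Let `χ ≠ 1`. There is `y ∈ F`, `y ≠ 0`, with `σ y = χ(σ) y` for all `σ` in the stabilizer `G` of `x`: independence of
characters (`∑_σ χ(σ) σ(w) ≠ 0` for some `w ∈ F`). `f = y ^ 2` is fixed by `G`, so `f ∈ κ(x)`; multiplying `y` by an
element of `κ(x)` we may assume that `f = h(x)` with a squarefree polynomial `h ∈ κ[X]`, `h ≠ 0` (write `f = a / b = a b / b ^ 2`,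
and remove square factors: every nonzero polynomial is a squarefree polynomial times a square). If `h` is constant,
`y ^ 2 ∈ κ`, so `y ∈ κ` and `χ = 1`, a contradiction. Otherwise let `c ∈ κ` be a root of `h`, `h = (X - c) h₁`, `h₁(c) ≠ 0`. For the place `v`
of `c` in `Spl`: `v(h₁(x)) = 0` (as in `S_Cst`), `2 v(y) = v(x - c) =: m > 0`. All `σ` with `Dv v σ` fix `y`, so by `dec`
`m ∣ v(y)`, a contradiction. -/
def S_Sco : Prop :=
  ∀ (κ F : Type) [Field κ] [IsAlgClosed κ] [Field F] [Algebra κ F] (x : F), (2 : κ) ≠ 0 →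
    Gx κ x → ∀ χ : MulAction.stabilizer (F ≃ₐ[κ] F) x →* ℤˣ, Spl κ F x χ → χ = 1

/-- **Sce** (350 lines). The same in characteristic two.

Proof. Let `χ ≠ 1`, `ε(σ) ∈ {0, 1} ⊆ κ` with `ε(σ) = 0` iff `χ(σ) = 1`. There is `y ∈ F` with `σ y = y + ε(σ)` for all `σ ∈ G`
(additive Hilbert 90, directly: the trace `F → κ(x)` is surjective, let `w` have trace `1` and
`y = ∑_τ ε(τ) τ(w)`; then `σ y = ∑_τ ε(τ) σ τ(w) = ∑_τ (ε(σ) + ε(τ)) τ(w) = ε(σ) + y`, as `ε(σ⁻¹ τ) = ε(σ) + ε(τ)`). `f = y ^ 2 + y` is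
fixed by `G`, so it is in `κ(x)`. Replacing `y` by `y + u`, `u ∈ κ(x)`, replaces `f` by `f + u ^ 2 + u`. Write `f = a / b`,
`a, b ∈ κ[X]` coprime, `b` monic. Choose `y` such that `deg b` is minimal. If `b` is not constant let `c` be a root of `b` of
multiplicity `n`, `v` the place of `c` in `Spl`, `m = v(x - c) > 0`: `v(f) = - n m < 0`, so `v(y) < 0` and `2 v(y) = v(y ^ 2 + y) = - n m`. All `σ`
with `Dv v σ` fix `y`, so `m ∣ v(y)`, `n = 2 k` is even. Let `b = (X - c) ^ n b₁`, `d ^ 2 = a(c) / b₁(c)`,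
`u = d / (x - c) ^ k`: `f + u ^ 2 + u` has the denominator dividing `(X - c) ^ (n - 1) b₁`: a contradiction. So `f = h(x)`,
`h ∈ κ[X]`. Among such `y` let `deg h = n` be minimal; if `n > 0`: at the place `v` over infinity, `m = v(x⁻¹)`,
`v(f) = - n m`, `2 v(y) = - n m`, `m ∣ v(y)`, so `n = 2 k`, `k ≥ 1`, and with `u = d x ^ k`, `d ^ 2` the leading coefficient, the degree
becomes smaller. So `f` is constant, and `y` is a root of a polynomial over `κ`, so `y ∈ κ`, `χ = 1`. -/
def S_Sce : Prop :=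
  ∀ (κ F : Type) [Field κ] [IsAlgClosed κ] [Field F] [Algebra κ F] (x : F), (2 : κ) = 0 →
    Gx κ x → ∀ χ : MulAction.stabilizer (F ≃ₐ[κ] F) x →* ℤˣ, Spl κ F x χ → χ = 1

/-- **Brg** (300 lines). Finite Galois extensions inside a separable closure.

Proof. `s = T ^ 2 - c T ∈ Ω`, `K = κ(s) = IntermediateField.adjoin κ {s}`. `T` is a root of `X ^ 2 - c X - s`, which is separable
(derivative `2 X - c`; if `2 ≠ 0` its discriminant `c ^ 2 + 4 s` is not zero as `s` is transcendental; if `2 = 0` the derivative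
is `- c ≠ 0`), so `Ω / K` is separable algebraic and normal (`Ω` is separably closed: `IsSepClosed`, so every irreducible
separable polynomial over `K` splits in `Ω`), i.e. Galois. Let `F` be the normal closure in `Ω` of
`K(T, Z)`, finite over `K` and Galois; as a field between `κ` and `Ω` (`IntermediateField.restrictScalars`). Elements of
`F ≃ₐ[κ] F` which fix `s` are the `K`-automorphisms of `F`: finite group, fixed field `K` (Galois theory; translate between
`IntermediateField.adjoin κ {s}` in `F` and in `Ω`). The same for `T` instead of `s`: `F / K(T)` is Galois. `T`, `s` are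
transcendental in `F`. Lifting: `Ω / K` is normal (`AlgEquiv.liftNormal`, or `AlgEquiv.restrictNormalHom_surjective`), a `K`-automorphism of
`F` lifts to `Ω`. Stability: `F / K` is normal. -/
def S_Brg : Prop :=
  ∀ (κ Ω : Type) [Field κ] [IsAlgClosed κ] [Field Ω] [IsSepClosed Ω] [Algebra κ Ω] (T : Ω)
    (c : κ), c ≠ 0 → Transcendental κ T →
    (∀ z : Ω, IsSeparable (IntermediateField.adjoin κ {T}) z) → ∀ Z : Set Ω, Z.Finite →
    ∃ F : IntermediateField κ Ω, ∃ T₁ : F, (T₁ : Ω) = T ∧ Z ⊆ F ∧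
      Gx κ (T₁ ^ 2 - algebraMap κ F c * T₁) ∧ Gx κ T₁ ∧
      (∀ σ : F ≃ₐ[κ] F, σ (T₁ ^ 2 - algebraMap κ F c * T₁) = T₁ ^ 2 - algebraMap κ F c * T₁ →
        ∃ τ : Ω ≃ₐ[κ] Ω, ∀ y : F, τ y = (σ y : Ω)) ∧
      ∀ τ : Ω ≃ₐ[κ] Ω, τ (T ^ 2 - algebraMap κ Ω c * T) = T ^ 2 - algebraMap κ Ω c * T →
        ∃ σ : F ≃ₐ[κ] F, ∀ y : F, τ y = (σ y : Ω)

/-- **Omg** (250 lines). The big field and the Frobenius.

Proof. `κ = AlgebraicClosure (ZMod p)`, `Ω = SeparableClosure (RatFunc κ)`, `T` the image of `X`; the image of `RatFunc κ` in `Ω` is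
`IntermediateField.adjoin κ {T}`, so (2), (3) are clear, and (4) is Galois theory: `Ω` is Galois over the image of
`RatFunc κ`, and the automorphisms over `κ` which fix `T` are the automorphisms over `RatFunc κ`. (5) The
automorphism of `RatFunc κ` which is the Frobenius of `κ` on the coefficients and fixes `X` (`RatFunc.map`-type constructions, `κ`
is perfect) extends to the separable closure (uniqueness of the separable closure: `IsSepClosure.equivOfEquiv` or
similar). -/
def S_Omg : Prop :=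
  ∀ (p : ℕ) [Fact p.Prime], ∃ (κ Ω : Type) (_ : Field κ) (_ : Field Ω) (_ : Algebra κ Ω)
    (T : Ω), IsAlgClosed κ ∧ CharP κ p ∧ IsSepClosed Ω ∧
      Transcendental κ T ∧
      (∀ z : Ω, IsSeparable (IntermediateField.adjoin κ {T}) z) ∧
      (∀ y : Ω, (∀ σ : Ω ≃ₐ[κ] Ω, σ T = T → σ y = y) → y ∈ IntermediateField.adjoin κ {T}) ∧
      ∃ Φ : Ω ≃+* Ω, (∀ c : κ, Φ (algebraMap κ Ω c) = algebraMap κ Ω (c ^ p)) ∧ Φ T = T

/-- **Fxf** (200 lines). The rational functions fixed by Frobenius.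

Proof. `j : RatFunc (ZMod p) → Ω` with `C a ↦ a`, `X ↦ y` exists since `y` is transcendental over `κ` (`RatFunc.liftAlgHom` or
`IsFractionRing.lift`). Let `z = a(y) / b(y)`, `a, b ∈ κ[X]` coprime, `b` monic. `ψ z = z` gives
`a^φ(y) / b^φ(y) = a(y) / b(y)`, where `φ` is the Frobenius on the coefficients; `a^φ, b^φ` are coprime, `b^φ` monic, so
`a^φ = a`, `b^φ = b`, and the coefficients are roots of `X ^ p - X`, i.e. they are in the image of `ZMod p`. The converse is clear. -/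
def S_Fxf : Prop :=
  ∀ (p : ℕ) [Fact p.Prime] (κ Ω : Type) [Field κ] [CharP κ p] [Field Ω] [Algebra κ Ω] (y : Ω),
    Transcendental κ y → ∃ j : RatFunc (ZMod p) →+* Ω, j RatFunc.X = y ∧
      ∀ ψ : Ω →+* Ω, (∀ c : κ, ψ (algebraMap κ Ω c) = algebraMap κ Ω (c ^ p)) → ψ y = y →
        ∀ z ∈ IntermediateField.adjoin κ {y}, ψ z = z ↔ ∃ w, j w = z

end MP7Sh
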