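import Pool.Agent.Lib.MP_7f581e_Sh.SpecI
import Pool.Agent.Lib.MP_7f581e_Sh.SpecV

/-!
# MP_7f581e_nt, GA realizations of `PSL(2, l)`: local analysis

Conventions as in `SpecE.lean` (`import Pool.Agent.Lib.MP_7f581e_Sh.SpecL`). `Cc v M P` is the component of `P` in a
multiplicative model: an integer in `[0, M]`; it is `2 v(x)` if `0 < 2 v(x) < M`, `0` if `P = O` or `v(x) ≤ 0`, `M` if `2 v(x) ≥ M`
or `x = 0`.
-/

set_option autoImplicit false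

namespace MP7Sh

open Polynomial WeierstrassCurve

open scoped Classical

/-- **Cmp** (450 lines, uses `S_Pts`, `S_AS`). The component formula.

Proof. `b₂` is a unit, `Ge v M b₄`, `Ge v M b₆`, `Is v M b₈` (`b₄ = 2 a₄ + a₁ a₃`, `b₆ = a₃ ^ 2 + 4 a₆`,
`b₈ = b₂ a₆ - a₁ a₃ a₄ + a₂ a₃ ^ 2 - a₄ ^ 2`). Let `i = Cc P`, `j = Cc Q`. If `P = O` or `Q = O` the claim is clear (`Cc (-P) = Cc P`). The
claim is symmetric in `P, Q` (`P - Q = - (Q - P)`), and under `Q ↦ - Q`. Let `P = (x, y)`, `Q = (x', y')`, `s = x x'`,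
`m = x + x'`, `N₁ = s ^ 2 - b₄ s - b₆ m - b₈`, `N₂ = s (b₂ + 2 m) + b₄ m + b₆`. If `x ≠ x'` then `P ± Q` are
affine with abscissae `X, Y`, `X Y = N₁ / (x - x') ^ 2`, `X + Y = N₂ / (x - x') ^ 2` (`S_AS` with all the second
coordinates `1`). If `x = x'` then `Q = ± P`, one of `P ± Q` is `O`, the other is `± 2 P`, whose abscissa is `N₁ / d`,
`d = 4 x ^ 3 + b₂ x ^ 2 + 2 b₄ x + b₆` (`2 P = O` if `d = 0`; `S_Pts` (9), (11), (12)). Let `h = v(x)`, `h' = v(x')`, `δ = v(x - x')`,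
`δ ≥ min(h, h')`, with equality if `h ≠ h'`. Principle: if `a ≤ b` are the valuations of `X, Y` then `v(X + Y) ≥ a`, with equality if
`a < b`.
Case A1: `i = j = 0` (`h, h' ≤ 0`). Claim `{0, 0}`. `v(N₁) = 2 h + 2 h'` (the other terms have larger valuations),
`v(N₂) ≥ h + h' + min(h, h')`. `v(X Y) = 2 (h + h' - δ) ≤ 0`. If `v(X) > 0` then
`v(Y) = v(X Y) - v(X) < 2 h + 2 h' - 2 δ ≤ v(N₂) - 2 δ` and `v(Y) < v(X)`, so `v(X + Y) = v(Y)`, a contradiction. So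
`v(X), v(Y) ≤ 0`. If `x = x'`: `v(N₁) = 4 h`, `v(d) ≥ 3 h`, `v(N₁ / d) ≤ h ≤ 0`.
Case A2: `i = 0` (`h ≤ 0`), `0 < j < M`. Claim `{j, j}`. `δ = h`, `v(N₁) = 2 h + 2 h'`, `v(X Y) = 2 h'`,
`v(N₂) ≥ 2 h + h'`, `v(X + Y) ≥ h'`: so `v(X) = v(Y) = h'`.
Case A3: `i = 0`, `j = M` (`2 h' ≥ M` or `x' = 0`). Claim `{M, M}`. `δ = h`, `v(N₁) ≥ M + 2 h`, `v(X Y) ≥ M`,
`2 v(N₂) ≥ 4 h + M`, `2 v(X + Y) ≥ M`: so `2 v(X), 2 v(Y) ≥ M` (here `X = 0` or `Y = 0` is possible: infinite valuation).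
Case B1: `0 < h < h'`, `2 h' < M`: claim `{j - i, min(i + j, 2 M - i - j)}`, `δ = h`, `v(N₂) = h + h'`, `v(X + Y) = h' - h`.
(a) `2 h + 2 h' < M`: `v(N₁) = 2 h + 2 h'`, `v(X Y) = 2 h'`, so `{h' - h, h' + h}`. (b) `2 h + 2 h' = M`: `v(N₁) ≥ M`, `v(X Y) ≥ 2 h'`,
one is `h' - h`, the other `≥ h + h' = M / 2` (or zero). (c) `2 h + 2 h' > M`: `v(N₁) = M`, `v(X Y) = M - 2 h`,
`{h' - h, M - h - h'}`.
Case B2: `0 < h = h'`, `2 h < M`: claim `{0, min(2 i, 2 M - 2 i)}`. `v(N₂) = 2 h`, `v(N₁) = min(4 h, M)` if `4 h ≠ M`, `≥ M` otherwise. If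
`x ≠ x'`: `v(X + Y) = 2 h - 2 δ ≤ 0`, `v(X Y) = v(N₁) - 2 δ > 2 h - 2 δ`; so one of the valuations is `2 h - 2 δ ≤ 0`
and the other is `v(N₁) - 2 h` (they are not equal: `2 a = v(X Y)`, `a ≤ v(X + Y)` would give
`a ≤ 2 (h - δ) ≤ h - δ < a`). If `x = x'`: `v(d) = 2 h`, `v(N₁ / d) = v(N₁) - 2 h`.
Case C: `0 < i < M`, `j = M`: claim `{M - i, M - i}`. `δ = h`, `v(N₁) = M`, `v(X Y) = M - 2 h`, `2 v(N₂) ≥ 2 h + M`,
`2 v(X + Y) ≥ M - 2 h`, so `2 v(X) = 2 v(Y) = M - 2 h`.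
Case D: `i = j = M`: claim `{0, 0}`. `v(N₁) = M`, `v(N₂) ≥ M`. If `x ≠ x'`: `2 δ ≥ M`, `v(X Y) = M - 2 δ ≤ 0`,
`v(X + Y) ≥ M - 2 δ`: if `v(X) > 0` then `v(Y) < M - 2 δ ≤ 0 < v(X)` and `v(X + Y) = v(Y)`, a contradiction. If `x = x'`:
`v(d) ≥ M`, `v(N₁ / d) ≤ 0`. -/
def S_Cmp : Prop :=
  ∀ (F : Type) [Field F] (v : F → ℤ), Ord v → ∀ (W : WeierstrassCurve F) (M : ℤ), W.Δ ≠ 0 →
    Mu v M W → ∀ P Q : W.toAffine.Point,
      (Cc v M (P + Q) = |Cc v M P - Cc v M Q| ∧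
        Cc v M (P - Q) = min (Cc v M P + Cc v M Q) (2 * M - Cc v M P - Cc v M Q)) ∨
      (Cc v M (P - Q) = |Cc v M P - Cc v M Q| ∧
        Cc v M (P + Q) = min (Cc v M P + Cc v M Q) (2 * M - Cc v M P - Cc v M Q))

/-- **Cml** (250 lines, uses `S_Pts`, `S_Int`, `S_Cmp`). Components of torsion points.

Proof. (1) clear from the definition (`Mu.pos`). (2) `px (-P) = px P`. (3) from `S_Cmp`. (4) two-step induction on `n`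
with `S_Cmp` for `n P` and `P`: `{Cc ((n+1) P), Cc ((n-1) P)} = {|dd(n i) - i|, min(dd(n i) + i, 2 M - dd(n i) - i)}
= {dd((n - 1) i), dd((n + 1) i)}` (`i = Cc P ∈ [0, M]`; `dd M a` is the distance of `a` to the multiples of `2 M`), and
`Cc ((n-1) P) = dd((n-1) i)`. (5) `l P = O`: `dd M (l i) = 0`, so `l i = 2 M a`; `0 ≤ a`; `i ≠ 0` gives `a ≥ 1`; `i ≤ M` gives `2 a ≤ l`, and
`l` is odd, so `2 a < l`, `i < M`, `i = 2 v(x)`, `x ≠ 0`. (6) `P ≠ O`, `Cc P = 0`: `x ≠ 0` and `v(x) ≤ 0`; `v(x) ≥ 0` by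
`S_Int`. -/
def S_Cml : Prop :=
  ∀ (F : Type) [Field F] (v : F → ℤ), Ord v → ∀ (W : WeierstrassCurve F) (M : ℤ), W.Δ ≠ 0 →
    Mu v M W →
    (∀ P : W.toAffine.Point, 0 ≤ Cc v M P ∧ Cc v M P ≤ M) ∧
    (∀ P : W.toAffine.Point, Cc v M (-P) = Cc v M P) ∧
    (∀ P Q : W.toAffine.Point, Cc v M P = 0 → Cc v M Q = 0 → Cc v M (P + Q) = 0) ∧
    (∀ (n : ℕ) (P : W.toAffine.Point), Cc v M (n • P) = dd M (n * Cc v M P)) ∧
    ∀ l : ℕ, Odd l → ∀ P : W.toAffine.Point, l • P = 0 →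
      (Cc v M P = 0 ∨ ∃ (x y : F) (a : ℕ), At P x y ∧ x ≠ 0 ∧ 1 ≤ a ∧ 2 * a < l ∧
        Cc v M P = 2 * v x ∧ l * v x = a * M) ∧
      (Is v 0 (l : F) → Cc v M P = 0 → ∀ x y : F, At P x y → Is v 0 x)

/-- **Cms** (200 lines, uses `S_Pts`, `S_Cmp`, `S_Cml`). The torsion points in the identity component form a
line.

Proof. `Z = {P ∈ Tl l W | Cc P = 0}` is a subgroup of `Tl l W ≃ (ZMod l) ^ 2`, different from the whole group by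
hypothesis. It is not `0`: otherwise let `P, Q` be independent; `l Cc P = 2 M a`, `l Cc Q = 2 M b`, `1 ≤ a, b < l / 2` (`S_Cml`
(5)); choose `n` with `n a ≡ b` modulo `l`; `Cc (n P) = dd M (n Cc P)`, `l n Cc P = 2 M n a ≡ 2 M b = l Cc Q` modulo `2 M l`, so
`Cc (n P) = Cc Q` (`Cc Q ∈ [0, M]`), and by `S_Cmp` `Cc (n P + Q) = 0` or `Cc (n P - Q) = 0`; these points are not `O`. A subgroup of
`(ZMod l) ^ 2` different from `0` and the whole group is a line, generated by any nonzero element. -/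
def S_Cms : Prop :=
  ∀ (F : Type) [Field F] (v : F → ℤ), Ord v → ∀ (W : WeierstrassCurve F) (M : ℤ), W.Δ ≠ 0 →
    Mu v M W → ∀ l : ℕ, l.Prime → 5 ≤ l → Nonempty (Tl l W ≃+ (Fin 2 → ZMod l)) →
    (∃ P : Tl l W, Cc v M (P : W.toAffine.Point) ≠ 0) →
    ∃ P₀ : Tl l W, P₀ ≠ 0 ∧ ∀ P : Tl l W,
      Cc v M (P : W.toAffine.Point) = 0 ↔ ∃ n : ℕ, P = n • P₀

/-- **Tan** (250 lines, uses `S_Pts`, `S_Pm`, `S_AS`, `S_Int`, `S_Red`, `S_Cmp`, `S_Cml`). The decomposition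
group at a multiplicative place.

Proof. `σ` fixes the coefficients of `W`, `σ P = pm W W σ P` has the coordinates `(σ x, σ y)`, `Cc (σ P) = Cc P`, `σ` is additive,
and `σ z ≡ z` for integral `z` (`Kr.triv`). (1) `Cc P = 0`: if `P = O` clear; otherwise `x` is a unit (`S_Cml` (6)), `x, y` are integral
(`S_Int`), and `σ P = P` by `S_Red` (`W` is an integral model: `Mu` implies `It`). (2) Let `i = Cc P`; if `i = 0` use (1). Let `i ≠ 0`: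
`P = (x, y)`, `i = 2 h`, `h = v(x) > 0`, `2 h < M`. `S_Cmp` for `σ P` and `P` (`j = i`): one of `Cc (σ P + P)`, `Cc (σ P - P)` is `0`. Suppose that
`Cc (σ P - P) ≠ 0`; then `R = σ P + P` has `Cc R = 0`, `l R = 0`. The slope at the node: `y / x` is integral (divide the
equation by `x ^ 2`: `(y/x) ^ 2 + a₁ (y/x) - a₂ = x + a₄ / x + a₆ / x ^ 2 - (a₃ / x) (y/x)`, `v(a₃ / x), v(a₄ / x) ≥ M - h > 0`,
`v(a₆ / x ^ 2) = M - 2 h > 0`), with the residue `α ∈ κ`: `Ge v 1 (y / x - α)`, so `Ge v 1 (α ^ 2 + a₁ α - a₂)`. `σ` fixes `κ`, so also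
`Ge v 1 (σ y / σ x - α)`. (i) `R = O`: `σ P = - P`, `σ x = x`, `σ y = - y - a₁ x - a₃`, `σ y / σ x ≡ - α - a₁`, so `2 α + a₁ ≡ 0` and
`b₂ = a₁ ^ 2 + 4 a₂ ≡ (2 α + a₁) ^ 2 ≡ 0`, a contradiction. (ii) `R ≠ O`, `R = (x_R, ·)`, `Is v 0 x_R` (`S_Cml` (6)). If
`σ x = x`: `σ P = ± P`, `σ P = P` gives `σ P - P = O`, `Cc = 0`, a contradiction; `σ P = - P` gives `R = O`. So `σ x ≠ x`, and
`Q = σ P - P ≠ O`, `l Q = 0`, so both abscissae `X = x_R`, `Y` of `R`, `Q` are integral (`S_Int`), but by `S_AS`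
`X + Y = N₂ / (σ x - x) ^ 2` has the valuation `2 h - 2 δ`, `δ = v(σ x - x) ≥ h` (see `S_Cmp` case B2), so `δ = h`. The slope of
the chord `m = (σ y - y) / (σ x - x)`: `y = x (α + ε)`, `σ y = σ x (α + ε')`, `Ge v 1 ε`, `Ge v 1 ε'`, so
`σ y - y = α (σ x - x) + (σ x ε' - x ε)` and `m ≡ α`. So `x_R = m ^ 2 + a₁ m - a₂ - x - σ x ≡ α ^ 2 + a₁ α - a₂ ≡ 0`,
contradicting `Is v 0 x_R`. -/
def S_Tan : Prop :=
  ∀ (κ F : Type) [Field κ] [Field F] [Algebra κ F] (v : F → ℤ), Kr κ v →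
    ∀ (W : WeierstrassCurve F) (M : ℤ), W.Δ ≠ 0 → Mu v M W → ∀ (l : ℕ), l.Prime → 5 ≤ l →
      Is v 0 (l : F) → ∀ σ : F ≃ₐ[κ] F, Dv v σ → W.map (σ : F →+* F) = W →
      ∀ P : W.toAffine.Point, l • P = 0 →
        (Cc v M P = 0 → pm W W σ P = P) ∧ Cc v M (pm W W σ P - P) = 0

/-- **Mdl** (250 lines). The models at the finite places.

Proof. `T ≡ b` modulo the place, so `Ge v 0 T`; (1) clear. (2) `Δ = 16 T ^ 2 (1 - 4 T)`, resp. `T ^ 3 (1 - 27 T)`; `b ≠ 0`,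
`1 - 4 b ≠ 0` (`b ≠ 1 / 4`), resp. `1 - 27 b ≠ 0`. (3) `N = 2`, `b = 0`: `r = - T / 2`, `s = 0`, `m = 2`: the new coefficients are
`a₂ = 1 - 3 T / 2`, `a₄ = 3 T ^ 2 / 4`, `a₆ = - T ^ 2 / 4 - T ^ 3 / 8`, `b₂ = 4 - 6 T`. `N = 2`, `b = 1 / 4`: `r = - 1 / 2`, `s = 0`, `m = 1`, `δ = T - 1 / 4`:
`a₂ = - 1 / 2`, `a₄ = δ`, `a₆ = - δ / 2`, `b₂ = - 2`. `N = 3`, `b = 0`: `r = - T - 6 T ^ 2`, `s = 3 T ^ 2`, `m = 3`: `a₁ = 1`,
`a₂ = - 3 T - 18 T ^ 2`, `a₃ = 0`, `a₄ = 36 T ^ 3 + 108 T ^ 4`, `a₆ = - T ^ 3 (1 + 9 T + 108 T ^ 2 + 216 T ^ 3)`,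
`b₂ = 1 - 12 T - 72 T ^ 2`. `N = 3`, `b = 1 / 27`: `r = - 1 / 9`, `s = 1 / 27`, `m = 1`, `δ = T - 1 / 27`: `a₁ = 1`, `a₂ = - 1 / 3`, `a₃ = δ`, `a₄ = 0`,
`a₆ = - δ / 27`, `b₂ = - 1 / 3`. (`N` is invertible.) `σ T = T` implies `σ r = r`, `σ s = s`. -/
def S_Mdl : Prop :=
  ∀ (l N : ℕ) (κ F : Type) [Field κ] [Field F] [Algebra κ F] (T : F) (b : κ) (v : F → ℤ),
    Nm l N κ → Transcendental κ T → Kr κ v → T ≠ algebraMap κ F b →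
    0 < v (T - algebraMap κ F b) →
    It v (Ec N T) ∧ (Ec N T).Δ ≠ 0 ∧
    (b ≠ 0 → b ≠ c0 N κ → Is v 0 (Ec N T).Δ) ∧
    (b = 0 ∨ b = c0 N κ → ∃ (r s : F) (m : ℕ), 1 ≤ m ∧ m ≤ 3 ∧
      Mu v (m * v (T - algebraMap κ F b)) (tr (Ec N T) 1 r s) ∧
      ∀ σ : F ≃ₐ[κ] F, σ T = T → σ r = r ∧ σ s = s)

/-- **Mdi** (120 lines). The model at infinity.

Proof. `ρ ^ k T = 1`, `k = 4` or `3`. The curve `tr (Ec N T) ρ 0 0` is `y ^ 2 = x ^ 3 + ρ ^ 2 x ^ 2 + x` (`N = 2`, `ρ ^ 4 T = 1`), resp.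
`y ^ 2 + ρ x y + y = x ^ 3` (`N = 3`, `ρ ^ 3 T = 1`); its discriminant is `16 (ρ ^ 4 - 4)`, resp. `ρ ^ 3 - 27`. (`v(T) < 0`, so `v(ρ) > 0`.)
(3) `(σ ρ / ρ) ^ k = 1`, `κ` is algebraically closed and contains all the `k`-th roots of unity of `F`. -/
def S_Mdi : Prop :=
  ∀ (l N : ℕ) (κ F : Type) [Field κ] [IsAlgClosed κ] [Field F] [Algebra κ F] (T ρ : F)
    (v : F → ℤ), Nm l N κ → Transcendental κ T → Kr κ v → v T < 0 → ρ ^ kk N * T = 1 →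
    0 < v ρ ∧ ρ ≠ 0 ∧ It v (tr (Ec N T) ρ 0 0) ∧ Is v 0 (tr (Ec N T) ρ 0 0).Δ ∧
    tr (Ec N T) ρ 0 0 = (if N = 2 then ⟨0, ρ ^ 2, 0, 1, 0⟩ else ⟨ρ, 0, 1, 0, 0⟩) ∧
    ∀ σ : F ≃ₐ[κ] F, σ T = T → ∃ ζ : κ, ζ ^ kk N = 1 ∧ σ ρ = algebraMap κ F ζ * ρ

/-- **Lin** (200 lines, uses `S_Pts`, `S_Pm`). Matrices of the automorphisms.

Proof. (1) `A` induces an additive map of `Tl l W ≃ (ZMod l) ^ 2`, which is `ZMod l`-linear, so it is given by a matrix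
(`LinearMap.toMatrix'`, `AddMonoidHom.toZModLinearMap`). (2) evaluate at the basis vectors. (3) composition. (4) `(Ec N T).map σ = Ec N T`
(`σ T = T`); `σ` maps `Tl` into itself (`S_Pm` (7)), `pm` is compatible with compositions (`S_Pm` (9)) and `pm .. id = id`
(`S_Pm` (8)), so the matrices are invertible and form a homomorphism. -/
def S_Lin : Prop :=
  ∀ (l : ℕ) [Fact l.Prime] (F : Type) [Field F] (W : WeierstrassCurve F), W.Δ ≠ 0 →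
    ∀ e : Tl l W ≃+ (Fin 2 → ZMod l),
    (∀ A : W.toAffine.Point → W.toAffine.Point,
      (∀ P Q : Tl l W, A ((P : W.toAffine.Point) + Q) = A P + A Q) →
      (∀ P : Tl l W, A P ∈ Tl l W) → ∃ M, IsM e A M) ∧
    (∀ (A : W.toAffine.Point → W.toAffine.Point) (M M' : Matrix (Fin 2) (Fin 2) (ZMod l)),
      IsM e A M → IsM e A M' → M = M') ∧
    (∀ (A B : W.toAffine.Point → W.toAffine.Point) (M M' : Matrix (Fin 2) (Fin 2) (ZMod l)),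
      IsM e A M → IsM e B M' → IsM e (fun P => A (B P)) (M * M')) ∧
    ∀ (κ : Type) [Field κ] [Algebra κ F] (T : F),
      (∀ σ : F ≃ₐ[κ] F, σ T = T → W.map (σ : F →+* F) = W) →
      ∃ ρ : MulAction.stabilizer (F ≃ₐ[κ] F) T →* GL (Fin 2) (ZMod l),
        ∀ σ : MulAction.stabilizer (F ≃ₐ[κ] F) T, IsM e (pm W W (σ : F ≃ₐ[κ] F)) (ρ σ).1

/-- The conclusions at a finite place `v` of `F`, above `T = b`: (a) `D` acts through unipotent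
matrices; (b) at the points of a stable line, and (c) at all points if `D` acts trivially, `p2` is a
unit. -/
structure Loc (l N : ℕ) [Fact l.Prime] (κ : Type) {F : Type} [Field κ] [Field F] [Algebra κ F]
    (T : F) (e : Tl l (Ec N T) ≃+ (Fin 2 → ZMod l)) (v : F → ℤ) : Prop where
  a : ∀ σ : F ≃ₐ[κ] F, σ T = T → Dv v σ → ∀ M : Matrix (Fin 2) (Fin 2) (ZMod l),
    IsM e (pm (Ec N T) (Ec N T) σ) M → (M - 1) * (M - 1) = 0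
  b : ∀ P₀ : Tl l (Ec N T), P₀ ≠ 0 →
    (∀ σ : F ≃ₐ[κ] F, σ T = T → ∃ n : ℕ, pm (Ec N T) (Ec N T) σ P₀ = (n • P₀ : Tl l (Ec N T))) →
    ∀ x y : F, At (P₀ : (Ec N T).toAffine.Point) x y → Is v 0 (p2 (Ec N T) x y)
  c : (∀ (P : Tl l (Ec N T)) (x y : F), At (P : (Ec N T).toAffine.Point) x y →
      Is v 0 (p2 (Ec N T) x y)) ∨
    ∃ σ : F ≃ₐ[κ] F, σ T = T ∧ Dv v σ ∧ ∀ M : Matrix (Fin 2) (Fin 2) (ZMod l),
      IsM e (pm (Ec N T) (Ec N T) σ) M → M ≠ 1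

/-- **LcG** (150 lines, uses `S_Pts`, `S_Pm`, `S_Int`, `S_Ns`, `S_Red`, `S_Mdl`, `S_Lin`). The good places.

Proof. `b ≠ 0, c`: `Δ(Ec N T)` is a unit, `Is v 0 (l : F)` (`Kr.isCst`). `p2` is a unit at all points of `Tl` (`S_Ns`), so (b), (c). (a)
`σ P` has the coordinates `(σ x, σ y)`, congruent to `(x, y)` (`S_Int`, `Kr.triv`); `S_Red`: `σ P = P`, so `M = 1`. -/
def S_LcG : Prop :=
  ∀ (l N : ℕ) [Fact l.Prime] (κ F : Type) [Field κ] [Field F] [Algebra κ F] (T : F) (b : κ)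
    (v : F → ℤ) (e : Tl l (Ec N T) ≃+ (Fin 2 → ZMod l)), Nm l N κ → Gx κ T →
    Plc κ T (T - algebraMap κ F b) v → b ≠ 0 → b ≠ c0 N κ → Loc l N κ T e v

/-- **LcM** (300 lines, uses `S_Pts`, `S_Pm`, `S_Cv`, `S_Int`, `S_Ns`, `S_Cml`, `S_Cms`, `S_Tan`, `S_Mdl`, `S_Lin`, `S_Plq`). The
multiplicative places.

Proof. `W = Ec N T`, `W' = tr W 1 r s` (`S_Mdl`), `M = m v(T - b)`, `P ↦ P' = cv W 1 r s P` is an isomorphism of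
`Tl l W` onto `Tl l W'`, compatible with `σ` if `σ T = T`, and `p2` does not change (`S_Cv`). `Z = {P ∈ Tl l W | Cc P' = 0}`. By
`S_Tan`: `σ P = P` for `P ∈ Z` and `σ P - P ∈ Z` for all `P ∈ Tl`, if `Dv v σ`: this is (a) (`(M - 1) (M - 1)` kills everything). If
`P ∈ Z`, `P ≠ 0`, then `x(P')` is a unit (`S_Cml` (6)) and `p2` is a unit at `P` (`S_Ns` for `W'`). So if `Z = Tl` then (b) and the first
alternative of (c) hold. Otherwise `Z` is generated by some `Q₀ ≠ 0` (`S_Cms`). Let `P` be such that `Cc P' ≠ 0`: `P' = (x, y)`,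
`l v(x) = a M = a m v(T - b)`, `1 ≤ a < l / 2`, `m ≤ 3 < l`, so `l ∤ a m`. `S_Plq` for `ρ` of `S_Lin` and `z = x` (`ρ σ = 1` implies `σ P = P`,
`σ x = x`): there is `σ` in the decomposition group with `ρ σ` of order `l`, so `ρ σ ≠ 1`: the second alternative of (c). (b) With this `σ`
and `M = ρ σ ≠ 1`: `σ P₀ = n P₀`, `σ P₀ - P₀ = (n - 1) P₀ ∈ Z`; if `n ≢ 1` modulo `l` then `P₀ ∈ Z`; if `n ≡ 1` then `σ P₀ = P₀`; as
`σ Q₀ = Q₀` and `M ≠ 1`, `P₀` and `Q₀` are dependent, so `P₀ ∈ Z`. So `p2` is a unit at `P₀`. -/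
def S_LcM : Prop :=
  ∀ (l N : ℕ) [Fact l.Prime] (κ F : Type) [Field κ] [Field F] [Algebra κ F] (T : F) (b : κ)
    (v : F → ℤ) (e : Tl l (Ec N T) ≃+ (Fin 2 → ZMod l)), Nm l N κ → Gx κ T →
    Plc κ T (T - algebraMap κ F b) v → b = 0 ∨ b = c0 N κ → Loc l N κ T e v

/-- **Inf** (300 lines, uses `S_Pts`, `S_Pm`, `S_Cv`, `S_Int`, `S_Ns`, `S_Red`, `S_Mdi`, `S_Lin`). The place at infinity.

Proof. `π = T⁻¹`, `v(T) < 0`. `W' = tr (Ec N T) ρ 0 0` is a good model, `P' = cv .. P = (ρ ^ 2 x, ρ ^ 3 y)`. (2) `p2(P') = ρ ^ 3 p2(P)` is a unit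
(`S_Ns` for `W'`), so `v(p2(P)) = - 3 v(ρ) < 0`. (1) `σ ρ = ζ ρ`. For `P = (x, y) ∈ Tl`, `P' = (x', y')` integral (`S_Int`), with residues
`xb, yb ∈ κ`: `(σ P)' = (ρ ^ 2 σ x, ρ ^ 3 σ y)`, `ρ ^ 2 σ(x) = ζ⁻² σ(x')`, so `(σ P)'` has the residues
`(ζ⁻² xb, ζ⁻³ yb)`. `N = 3`: `ζ ^ 3 = 1`; `(σ ^ 3 P)'` and `P'` have the same residues, so `σ ^ 3 P = P` (`S_Red` for `W'`,
`cv` is injective), `M ^ 3 = 1`, `det M ^ 3 = 1`, `det M = (det M)⁴ / (det M) ^ 3 = (det M ^ 2) ^ 2`. `N = 2`: `ζ ^ 4 = 1`. If `ζ ^ 2 = 1`: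
`(σ P)'` has the residues `(xb, ζ yb)`, `ζ = ± 1`, the residues of `± P'` (`W'` has `a₁ = a₃ = 0`), so `σ P = P` for all `P` or
`σ P = - P` for all `P`: `M = ± 1`, `det M = 1`. If `ζ ^ 2 = -1`: `(σ ^ 2 P)'` has the residues `(ζ⁻⁴ xb, ζ⁻⁶ yb) = (xb, - yb)`, so
`σ ^ 2 P = - P`, `M ^ 2 = - 1`: if `M` is a scalar matrix `a` then `det M = a ^ 2`; otherwise by Cayley-Hamilton
(`M ^ 2 - (tr M) M + det M = 0`: `(tr M) M = (det M - 1)`, so `tr M = 0`) `det M = 1`. -/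
def S_Inf : Prop :=
  ∀ (l N : ℕ) [Fact l.Prime] (κ F : Type) [Field κ] [IsAlgClosed κ] [Field F] [Algebra κ F]
    (T ρ : F) (v : F → ℤ) (e : Tl l (Ec N T) ≃+ (Fin 2 → ZMod l)), Nm l N κ → Gx κ T →
    Plc κ T T⁻¹ v → ρ ^ kk N * T = 1 →
    (∀ σ : F ≃ₐ[κ] F, σ T = T → Dv v σ → ∀ M : Matrix (Fin 2) (Fin 2) (ZMod l),
      IsM e (pm (Ec N T) (Ec N T) σ) M → IsSquare M.det) ∧
    ∀ (P : Tl l (Ec N T)) (x y : F), At (P : (Ec N T).toAffine.Point) x y →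
      p2 (Ec N T) x y ≠ 0 ∧ v (p2 (Ec N T) x y) < 0

end MP7Sh
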