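import Pool.Agent.Lib.MP_7f581e_Sh.SpecL

/-! The decomposition group at a multiplicative place. -/

set_option autoImplicit false

namespace MP7Sh

open Polynomial WeierstrassCurve

open scoped Classical

/-- The residue of the slope at the node. -/
private theorem Tan_slope {κ F : Type} [Field κ] [Field F] [Algebra κ F] {v : F → ℤ} (hv : Kr κ v)
    {W : WeierstrassCurve F} {M : ℤ} (hM : Mu v M W) {x y : F} (hx : x ≠ 0) (h1 : 0 < v x)
    (h2 : 2 * v x < M)
    (he : y ^ 2 + W.a₁ * x * y + W.a₃ * y = x ^ 3 + W.a₂ * x ^ 2 + W.a₄ * x + W.a₆) :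
    ∃ α : κ, Ge v 1 (y / x - algebraMap κ F α) ∧
      Ge v 1 (algebraMap κ F α ^ 2 + W.a₁ * algebraMap κ F α - W.a₂) := by
  have h := hv.ord
  obtain ⟨η, hη⟩ : ∃ η, η = y / x := ⟨_, rfl⟩
  have hy : y = η * x := by rw [hη, div_mul_cancel₀ _ hx]
  have hxi : Is v (-(v x)) x⁻¹ := (Is.of_ne hx).inv h
  have g3 : Ge v 1 (W.a₃ * x⁻¹) := (hM.a3.mul h hxi.ge).mono (by omega)
  have g4 : Ge v 1 (W.a₄ * x⁻¹) := (hM.a4.mul h hxi.ge).mono (by omega)
  have g6 : Ge v 1 (W.a₆ * x⁻¹ ^ 2) :=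
    ((hM.a6.mul h (hxi.pow h 2)).ge).mono (by push_cast; omega)
  have gx : Ge v 1 x := Or.inr (by omega)
  have key : η ^ 2 + (W.a₁ + W.a₃ * x⁻¹) * η = x + W.a₂ + W.a₄ * x⁻¹ + W.a₆ * x⁻¹ ^ 2 := by
    rw [hy] at he
    have hxx : x * x⁻¹ = 1 := mul_inv_cancel₀ hx
    have hx2 : x ^ 2 ≠ 0 := pow_ne_zero 2 hx
    refine mul_left_cancel₀ hx2 ?_
    linear_combination he + (W.a₃ * η * x - W.a₄ * x - W.a₆ * (x * x⁻¹ + 1)) * hxx
  have hη0 : Ge v 0 η := by
    by_contra hcon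
    have hη1 : η ≠ 0 := fun h0 => hcon (Or.inl h0)
    have hlt : v η < 0 := by
      by_contra h3
      exact hcon (Or.inr (not_lt.1 h3))
    have k1 : Is v (2 * v η) (η ^ 2) := by
      have := (Is.of_ne hη1 (v := v)).pow h 2
      exact_mod_cast this
    have k2 : Ge v (v η) ((W.a₁ + W.a₃ * x⁻¹) * η) :=
      Ge.mul_left h (hM.a1.add h (g3.mono zero_le_one)) (Or.inr le_rfl)
    have k3 := k1.add_ge h k2 (by omega)
    rw [key] at k3
    refine k3.not_ge (by omega) (m := 0) ?_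
    exact (((gx.mono zero_le_one).add h hM.a2).add h (g4.mono zero_le_one)).add h
      (g6.mono zero_le_one)
  obtain ⟨α, hα⟩ := hv.res η hη0
  refine ⟨α, by rwa [← hη], ?_⟩
  have e1 : η ^ 2 + W.a₁ * η - W.a₂ = x + W.a₄ * x⁻¹ + W.a₆ * x⁻¹ ^ 2 - W.a₃ * x⁻¹ * η := by
    linear_combination key
  have e2 : algebraMap κ F α ^ 2 + W.a₁ * algebraMap κ F α - W.a₂ =
      (η ^ 2 + W.a₁ * η - W.a₂) - (η - algebraMap κ F α) * (η + algebraMap κ F α + W.a₁) := by
    ring
  rw [e2, e1]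
  refine Ge.sub h (Ge.sub h ((gx.add h g4).add h g6) (g3.mul_right h hη0)) ?_
  exact hα.mul_right h ((hη0.add h (hv.geCst α)).add h hM.a1)

theorem tTan (h1 : S_Pts) (h2 : S_Pm) (h3 : S_AS) (h4 : S_Int) (h5 : S_Red) (h6 : S_Cmp)
    (h7 : S_Cml) : S_Tan := by
  intro κ F _ _ _ v hv W M hW hM l hl hl5 hlu σ hσ hWσ P hlP
  have h := hv.ord
  have hodd : Odd l := hl.odd_of_ne_two (by omega)
  have hM0 := hM.pos
  have hIt : It v W := ⟨hM.a1, hM.a2, hM.a3.mono hM0.le, hM.a4.mono hM0.le, hM.a6.ge.mono hM0.le⟩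
  obtain ⟨p1, q2, p3, p4, p5, p6, p7, p8, p9, p10, p11, p12⟩ := h1 F W hW
  obtain ⟨m1, m2, m3, m4, m5, m6, m7, -⟩ := h2 F F (σ : F →+* F) W W hW hWσ.symm
  obtain ⟨c1, c2, c3, c4, c5⟩ := h7 F v h W M hW hM
  obtain ⟨τ, hτ⟩ : ∃ τ : W.toAffine.Point → W.toAffine.Point, τ = pm W W σ := ⟨_, rfl⟩
  have t0 : τ 0 = 0 := by rw [hτ]; exact m1
  have tA : ∀ (P : W.toAffine.Point) (x y : F), At P x y → At (τ P) (σ x) (σ y) := by
    rw [hτ]
    exact m2
  have tn : ∀ (n : ℕ) (P : W.toAffine.Point), τ (n • P) = n • τ P := by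
    rw [hτ]
    exact m7
  rw [← hτ]
  have hlτ : ∀ P : W.toAffine.Point, l • P = 0 → l • τ P = 0 := by
    intro P hP
    rw [← tn, hP, t0]
  have hCc0 : Cc v M (0 : W.toAffine.Point) = 0 := by
    unfold Cc
    rw [if_pos rfl]
  -- (1)
  have part1 : ∀ P : W.toAffine.Point, l • P = 0 → Cc v M P = 0 → τ P = P := by
    intro P hlP hCP
    rcases p1 P with h0 | ⟨x, y, hxy⟩
    · rw [h0, t0]
    · have hxu := (c5 l hodd P hlP).2 hlu hCP x y hxy
      obtain ⟨gx, gy⟩ := h4 F v h W hW hIt l hlu P x y hlP hxy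
      have kx := hv.triv hσ gx
      have ky := hv.triv hσ gy
      exact h5 F v h W hW hIt l hodd hlu (τ P) P (σ x) (σ y) x y (hlτ P hlP) hlP (tA P x y hxy) hxy
        kx ky (Or.inr ⟨M, hM, by
          refine ⟨(map_ne_zero_iff _ σ.injective).2 hxu.1, ?_⟩
          rw [hσ x hxu.1, hxu.2]⟩)
  refine ⟨part1 P hlP, ?_⟩
  by_cases hCP : Cc v M P = 0
  · rw [part1 P hlP hCP, sub_self, hCc0]
  obtain ⟨x, y, a, hxy, hx0, ha1, ha2, hCc, hlx⟩ := (c5 l hodd P hlP).1.resolve_left hCP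
  obtain ⟨hP0, hpx, hpy, heq⟩ := q2 P x y hxy
  have hl0 : (0 : ℤ) < l := by exact_mod_cast hl.pos
  have hvx : 0 < v x := by
    have h8 : (0 : ℤ) < a * M := mul_pos (by exact_mod_cast ha1) hM0
    rw [← hlx] at h8
    exact (mul_pos_iff_of_pos_left hl0).1 h8
  have hvx2 : 2 * v x < M := by
    have h8 : (l : ℤ) * (2 * v x) < l * M := by
      have h9 : (2 * a : ℤ) < l := by exact_mod_cast ha2
      have h10 : 2 * (a : ℤ) * M < l * M := mul_lt_mul_of_pos_right h9 hM0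
      linarith
    exact lt_of_mul_lt_mul_left h8 hl0.le
  have hσx0 : σ x ≠ 0 := (map_ne_zero_iff _ σ.injective).2 hx0
  have hvσx : v (σ x) = v x := hσ x hx0
  have hτxy := tA P x y hxy
  have hCτ : Cc v M (τ P) = Cc v M P := by
    obtain ⟨hτ0, hτx, -⟩ := q2 (τ P) _ _ hτxy
    unfold Cc
    rw [if_neg hP0, if_neg hτ0, hτx, hpx, if_neg hσx0, if_neg hx0, hvσx]
  by_contra hne
  have hR : Cc v M (τ P + P) = 0 := by
    rcases h6 F v h W M hW hM (τ P) P with ⟨k, -⟩ | ⟨k, -⟩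
    · rw [k, hCτ, sub_self, abs_zero]
    · exfalso
      apply hne
      rw [k, hCτ, sub_self, abs_zero]
  have hlR : l • (τ P + P) = 0 := by rw [nsmul_add, hlτ P hlP, hlP, add_zero]
  obtain ⟨α, hα1, hα2⟩ := Tan_slope hv hM hx0 hvx hvx2 heq
  have hα3 : Ge v 1 (σ y / σ x - algebraMap κ F α) := by
    have e : σ y / σ x - algebraMap κ F α = σ (y / x - algebraMap κ F α) := by
      rw [map_sub, map_div₀, AlgEquiv.commutes]
    rw [e]
    rcases hα1 with k | k
    · left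
      rw [k, map_zero]
    · by_cases k0 : y / x - algebraMap κ F α = 0
      · left
        rw [k0, map_zero]
      · right
        rw [hσ _ k0]
        exact k
  have gx : Ge v 1 x := Or.inr (by omega)
  have gσx : Ge v 1 (σ x) := Or.inr (by rw [hvσx]; omega)
  rcases p1 (τ P + P) with hR0 | ⟨X, Y, hXY⟩
  · -- `τ P = - P`
    have hneg : τ P = -P := eq_neg_of_add_eq_zero_left hR0
    have k1 := p5 P x y hxy
    rw [← hneg] at k1
    obtain ⟨-, e1, e2, -⟩ := q2 _ _ _ hτxy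
    obtain ⟨-, e3, e4, -⟩ := q2 _ _ _ k1
    have e5 : σ x = x := by rw [← e1, e3]
    have e6 : σ y = -y - W.a₁ * x - W.a₃ := by rw [← e2, e4]
    rw [e5, e6] at hα3
    have hxi : Is v (-(v x)) x⁻¹ := (Is.of_ne hx0).inv h
    have g3 : Ge v 1 (W.a₃ * x⁻¹) := (hM.a3.mul h hxi.ge).mono (by omega)
    have k2 : Ge v 1 (2 * algebraMap κ F α + W.a₁) := by
      have e : 2 * algebraMap κ F α + W.a₁ = -(y / x - algebraMap κ F α) -
          ((-y - W.a₁ * x - W.a₃) / x - algebraMap κ F α) - W.a₃ * x⁻¹ := by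
        field_simp
        ring
      rw [e]
      exact ((hα1.neg h).sub h hα3).sub h g3
    have k3 : Ge v 1 W.b₂ := by
      have e : W.b₂ = (2 * algebraMap κ F α + W.a₁) * (2 * algebraMap κ F α + W.a₁) -
          4 * (algebraMap κ F α ^ 2 + W.a₁ * algebraMap κ F α - W.a₂) := by
        unfold WeierstrassCurve.b₂
        ring
      rw [e]
      exact ((k2.mul h k2).mono (by omega)).sub h ((Ge.ofNat h 4).mul_left h hα2)
    exact hM.b2.not_ge zero_lt_one k3
  · have hXu := (c5 l hodd _ hlR).2 hlu hR X Y hXY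
    have hxx : σ x ≠ x := by
      intro hxx
      rw [hxx] at hτxy
      rcases p6 P (τ P) x y (σ y) hxy hτxy with k | k
      · apply hne
        rw [k, sub_self, hCc0]
      · rw [k, neg_add_cancel] at hXY
        exact (q2 _ _ _ hXY).1 rfl
    have hQ0 : τ P - P ≠ 0 := by
      intro k
      apply hne
      rw [k, hCc0]
    obtain ⟨X', Y', hXY'⟩ := (p1 (τ P - P)).resolve_left hQ0
    have hlQ : l • (τ P - P) = 0 := by rw [nsmul_sub, hlτ P hlP, hlP, sub_zero]
    have gX' := (h4 F v h W hW hIt l hlu (τ P - P) X' Y' hlQ hXY').1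
    -- the sum of the abscissae
    have rp : ∀ (Q : W.toAffine.Point) (a b : F), At Q a b → Rp Q a 1 := by
      intro Q a b hab
      refine ⟨Or.inr one_ne_zero, fun k => absurd k (q2 _ _ _ hab).1, fun a' b' hab' => ?_⟩
      refine ⟨one_ne_zero, ?_⟩
      rw [mul_one, ← (q2 _ _ _ hab).2.1, (q2 _ _ _ hab').2.1]
    obtain ⟨c, hc, -, e2, e3⟩ := h3 F W hW (τ P) P (σ x) 1 x 1 X 1 X' 1 _ _ _ (rp _ _ _ hτxy)
      (rp _ _ _ hxy) (rp _ _ _ hXY) (rp _ _ _ hXY') rfl rfl rfl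
    have hne' : σ x - x ≠ 0 := sub_ne_zero.2 hxx
    have hgσ : Ge v (v x) (σ x) := Or.inr hvσx.ge
    have hgx : Ge v (v x) x := Or.inr le_rfl
    have hg : Ge v (v x) (σ x - x) := hgσ.sub h hgx
    have hδ : Is v (v x) (σ x - x) := by
      have hb4 : Ge v M W.b₄ := by
        unfold WeierstrassCurve.b₄
        exact ((Ge.ofNat h 2).mul_left h hM.a4).add h (hM.a1.mul_left h hM.a3)
      have hb6 : Ge v M W.b₆ := by
        unfold WeierstrassCurve.b₆
        exact ((hM.a3.pow h 2).mono (by push_cast; omega)).add h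
          ((Ge.ofNat h 4).mul_left h hM.a6.ge)
      have k1 : Is v 0 (W.b₂ + 2 * (σ x + x)) :=
        hM.b2.add_ge h ((Ge.ofNat h 2).mul_left h (gσx.add h gx)) zero_lt_one
      have k2 : Is v (v x + v x) (σ x * x) :=
        Is.mul h ⟨hσx0, hvσx⟩ (Is.of_ne hx0)
      have k3 : Is v (v x + v x) (σ x * x * (W.b₂ + 2 * (σ x + x)) +
          (W.b₄ * (σ x + x) + W.b₆)) := by
        have k4 := k2.mul h k1
        rw [add_zero] at k4
        exact k4.add_ge h ((hb4.mul_right h ((gσx.add h gx).mono zero_le_one)).add h hb6)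
          (by omega)
      have k4 : (X + X') * (σ x - x) ^ 2 = σ x * x * (W.b₂ + 2 * (σ x + x)) +
          (W.b₄ * (σ x + x) + W.b₆) := by
        have e4 : c * (σ x - x) ^ 2 = 1 := by linear_combination -e3
        have e5 : X + X' = c * (σ x * x * (W.b₂ + 2 * (σ x + x)) +
          (W.b₄ * (σ x + x) + W.b₆)) := by linear_combination e2
        rw [e5]
        linear_combination (σ x * x * (W.b₂ + 2 * (σ x + x)) +
          (W.b₄ * (σ x + x) + W.b₆)) * e4
      rw [← k4] at k3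
      have k5 : X + X' ≠ 0 := left_ne_zero_of_mul k3.1
      have k6 := k3.2
      rw [h.mul _ _ k5 (pow_ne_zero 2 hne'), h.pow hne'] at k6
      have k7 := (hXu.ge.add h gX').resolve_left k5
      have k8 := hg.resolve_left hne'
      refine ⟨hne', ?_⟩
      push_cast at k6
      omega
    -- the slope of the chord
    obtain ⟨m, hm⟩ : ∃ m, m = (σ y - y) / (σ x - x) := ⟨_, rfl⟩
    have hm' : m * (σ x - x) = σ y - y := by rw [hm, div_mul_cancel₀ _ hne']
    have k1 := p7 (τ P) P (σ x) (σ y) x y m hτxy hxy hxx hm'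
    have hX : X = m ^ 2 + W.a₁ * m - W.a₂ - σ x - x := by
      rw [← (q2 _ _ _ hXY).2.1, (q2 _ _ _ k1).2.1]
    have hmα : Ge v 1 (m - algebraMap κ F α) := by
      have e : m - algebraMap κ F α = (σ x * (σ y / σ x - algebraMap κ F α) -
          x * (y / x - algebraMap κ F α)) * (σ x - x)⁻¹ := by
        rw [hm]
        field_simp
        ring
      rw [e]
      have k2 : Ge v (v x + 1) (σ x * (σ y / σ x - algebraMap κ F α) -
          x * (y / x - algebraMap κ F α)) :=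
        (hgσ.mul h hα3).sub h (hgx.mul h hα1)
      exact (k2.mul h (hδ.inv h).ge).mono (by omega)
    have hX1 : Ge v 1 X := by
      have e : X = (m - algebraMap κ F α) * ((m - algebraMap κ F α) + 2 * algebraMap κ F α + W.a₁) +
          (algebraMap κ F α ^ 2 + W.a₁ * algebraMap κ F α - W.a₂) - σ x - x := by
        rw [hX]
        ring
      rw [e]
      refine ((Ge.add h (hmα.mul_right h ?_) hα2).sub h gσx).sub h gx
      exact ((hmα.mono zero_le_one).add h ((Ge.ofNat h 2).mul_left h (hv.geCst α))).add h hM.a1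
    exact hXu.not_ge zero_lt_one hX1

end MP7Sh
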